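import Pool.Agent.Lib_MP_2c424f_cor.Defs
import Pool.Agent.Lib_MP_2c424f_lo.Lab
import Pool.Agent.Lib_MP_2c424f_lo.Refl
import Pool.Agent.Lib_MP_2c424f_lo.BSum

/-!
# The events of the types are local and reflection invariant (piece B01)

`mb`, `mj` depend on the values at the points `pt t a b` of the closed block only (`pt_step`: an allowed step leads to a
point of the block) and are invariant under reflections (as in the proofs of `bad_loc`, `bad_sym` in
`Lib_MP_2c424f_lo/Lab.lean`; `rs_pt`, `rs_step`: the reflection maps the block `t` onto `rb j α t`, `(a,b)` onto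
`(flp a j, flp b j)`, the step `(i,β)` onto `(i, β xor (i = j))`).  The same for `lab0`, `AL`, `badT`, `prB`.
`fcE`: `(rs j α x) j = 4 α - x j`, so `val % 4 = 0` and `val % 4 = 2` are preserved (`4 ∣ 2^(k+1)` for `k ≥ 1`).
-/

set_option autoImplicit false

open Finset

namespace Pool.Agent.COR

open Pool.Agent.LO

variable {d k q : ℕ}

private theorem B01_ite {P Q : Prop} (hP : Decidable P) (hQ : Decidable Q) (h : P ↔ Q) :
    (@ite ℝ P hP 1 0) = (@ite ℝ Q hQ 1 0) := by
  by_cases hp : P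
  · rw [if_pos hp, if_pos (h.1 hp)]
  · rw [if_neg hp, if_neg (fun hq => hp (h.2 hq))]

private theorem B01_val_loc (t : Blk d k) (f g : Site d (k + 1) → Fin q)
    (h : ∀ a b, f (pt t a b) = g (pt t a b)) (a b : Bt d) (σ : Stp d) (hσ : alw a b σ) :
    f (pt t a b + sv σ) = g (pt t a b + sv σ) := by
  obtain ⟨a', b', e⟩ := pt_step t a b σ hσ
  rw [e]
  exact h a' b'

theorem mb_loc (t : Blk d k) (f g : Site d (k + 1) → Fin q) (h : ∀ a b, f (pt t a b) = g (pt t a b)) (c : Fin q) :
    mb f t c = mb g t c := by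
  unfold mb
  congr 1
  funext a b
  unfold zb
  refine B01_ite _ _ ?_
  constructor
  · intro h1 σ hσ
    rw [← B01_val_loc t f g h a b σ hσ]
    exact h1 σ hσ
  · intro h1 σ hσ
    rw [B01_val_loc t f g h a b σ hσ]
    exact h1 σ hσ

theorem mj_loc (t : Blk d k) (f g : Site d (k + 1) → Fin q) (h : ∀ a b, f (pt t a b) = g (pt t a b)) (c : Fin q)
    (j : Fin d) : mj f t c j = mj g t c j := by
  unfold mj
  congr 1
  funext a b
  unfold zj
  refine B01_ite _ _ ?_
  constructor
  · intro h1 σ hj hσ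
    rw [← B01_val_loc t f g h a b σ hσ]
    exact h1 σ hj hσ
  · intro h1 σ hj hσ
    rw [B01_val_loc t f g h a b σ hσ]
    exact h1 σ hj hσ

theorem AL_loc (t : Blk d k) (f g : Site d (k + 1) → Fin q) (h : ∀ a b, f (pt t a b) = g (pt t a b)) :
    AL f t = AL g t := by
  ext c
  simp only [AL, Finset.mem_filter, Finset.mem_univ, true_and, lab0, mj_loc t f g h c]

private theorem B01_bad_loc (t : Blk d k) (f g : Site d (k + 1) → Fin q)
    (h : ∀ a b, f (pt t a b) = g (pt t a b)) (c : Fin q) : bad c t f ↔ bad c t g := by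
  unfold bad lab1 lab0
  simp only [mb_loc t f g h c, mj_loc t f g h c]

private theorem B01_badT_loc (θ : ℝ) (t : Blk d k) (f g : Site d (k + 1) → Fin q)
    (h : ∀ a b, f (pt t a b) = g (pt t a b)) (c : Fin q) : badT θ c t f ↔ badT θ c t g := by
  unfold badT
  simp only [mb_loc t f g h c, mj_loc t f g h c]

theorem GD_loc (t : Blk d k) (f g : Site d (k + 1) → Fin q) (h : ∀ a b, f (pt t a b) = g (pt t a b)) :
    GD t f ↔ GD t g := by
  unfold GD
  simp only [B01_bad_loc t f g h, AL_loc t f g h]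

theorem VG_loc (t : Blk d k) (f g : Site d (k + 1) → Fin q) (h : ∀ a b, f (pt t a b) = g (pt t a b)) :
    VG t f ↔ VG t g := by
  unfold VG
  simp only [B01_badT_loc (th d) t f g h, GD_loc t f g h]

private theorem B01_unb_loc (t : Blk d k) (f g : Site d (k + 1) → Fin q)
    (h : ∀ a b, f (pt t a b) = g (pt t a b)) : unb t f ↔ unb t g := by
  unfold unb
  simp only [B01_bad_loc t f g h, AL_loc t f g h]

private theorem B01_prB_loc (t : Blk d k) (f g : Site d (k + 1) → Fin q)
    (h : ∀ a b, f (pt t a b) = g (pt t a b)) (hf : prB t f) : prB t g := by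
  intro a b σ hσ
  rw [← B01_val_loc t f g h a b σ hσ, ← h a b]
  exact hf a b σ hσ

theorem Ev_loc (s : Ty d q) (t : Blk d k) (f g : Site d (k + 1) → Fin q)
    (h : ∀ a b, f (pt t a b) = g (pt t a b)) (hf : Ev s t f) : Ev s t g := by
  cases s with
  | free => exact trivial
  | pr => exact B01_prB_loc t f g h hf
  | bd c => exact ⟨B01_prB_loc t f g h hf.1, (B01_bad_loc t f g h c).1 hf.2⟩
  | bt c => exact ⟨B01_prB_loc t f g h hf.1, (B01_badT_loc (th d) t f g h c).1 hf.2⟩
  | ub => exact ⟨B01_prB_loc t f g h hf.1, (B01_unb_loc t f g h).1 hf.2⟩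
  | fc j m =>
    intro a b σ hσ hj hm
    rw [← B01_val_loc t f g h a b σ hσ, ← h a b]
    exact hf a b σ hσ hj hm

/-! ### Reflections -/

/-- the reflected step -/
private def B01_S (j : Fin d) (σ : Stp d) : Stp d := (σ.1, if σ.1 = j then !σ.2 else σ.2)

private theorem B01_S_S (j : Fin d) (σ : Stp d) : B01_S j (B01_S j σ) = σ := by
  obtain ⟨i, c⟩ := σ
  unfold B01_S
  by_cases h : i = j <;> simp [h]

private theorem B01_flp_self (a : Bt d) (j : Fin d) : flp a j j = !a j := by
  unfold flp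
  exact Function.update_self _ _ _

private theorem B01_flp_ne (a : Bt d) (i j : Fin d) (h : i ≠ j) : flp a j i = a i := by
  unfold flp
  exact Function.update_of_ne h _ _

private theorem B01_flp_flp (a : Bt d) (j : Fin d) : flp (flp a j) j = a := by
  funext i
  by_cases h : i = j
  · subst h
    rw [B01_flp_self, B01_flp_self, Bool.not_not]
  · rw [B01_flp_ne _ _ _ h, B01_flp_ne _ _ _ h]

private theorem B01_alw (j : Fin d) (a b : Bt d) (σ : Stp d) :
    alw (flp a j) (flp b j) (B01_S j σ) ↔ alw a b σ := by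
  obtain ⟨i, c⟩ := σ
  unfold alw B01_S
  by_cases h : i = j
  · subst h
    simp only [if_true, B01_flp_self]
    cases c <;> cases a i <;> cases b i <;> simp
  · simp only [if_neg h, B01_flp_ne _ _ _ h]

private theorem B01_od (j : Fin d) (a b : Bt d) : od (flp a j) (flp b j) ↔ od a b := by
  unfold od
  have h : (univ.filter fun i => flp a j i ≠ flp b j i) = univ.filter fun i => a i ≠ b i := by
    apply Finset.filter_congr
    intro i _
    by_cases hi : i = j
    · subst hi
      rw [B01_flp_self, B01_flp_self]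
      cases a i <;> cases b i <;> simp
    · rw [B01_flp_ne _ _ _ hi, B01_flp_ne _ _ _ hi]
  rw [h]

private theorem B01_EB (j : Fin d) (F G : Bt d → Bt d → ℝ)
    (h : ∀ a b, F a b = G (flp a j) (flp b j)) : EB F = EB G := by
  classical
  unfold EB
  have hinv : Function.Involutive (fun a : Bt d => flp a j) := fun a => B01_flp_flp a j
  have e : ∀ H : Bt d → ℝ, ∑ a, H (flp a j) = ∑ a, H a := fun H =>
    Equiv.sum_comp hinv.toPerm H
  congr 2
  rw [← e (fun a => ∑ b, if od a b then G a b else 0)]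
  refine Finset.sum_congr rfl fun a _ => ?_
  rw [← e (fun b => if od (flp a j) b then G (flp a j) b else 0)]
  refine Finset.sum_congr rfl fun b _ => ?_
  rw [h a b]
  by_cases ho : od a b
  · rw [if_pos ho, if_pos ((B01_od j a b).2 ho)]
  · rw [if_neg ho, if_neg fun h' => ho ((B01_od j a b).1 h')]

private theorem B01_val_sym (j : Fin d) (α : ZMod (2 ^ k)) (t : Blk d k) (f : Site d (k + 1) → Fin q)
    (a b : Bt d) (σ : Stp d) :
    f (rs j α (pt (rb j α t) a b + sv σ)) = f (pt t (flp a j) (flp b j) + sv (B01_S j σ)) := by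
  obtain ⟨i, c⟩ := σ
  rw [rs_step, rs_pt, rb_rb]
  rfl

private theorem B01_mb_sym (c : Fin q) (j : Fin d) (α : ZMod (2 ^ k)) (t : Blk d k)
    (f : Site d (k + 1) → Fin q) : mb (fun x => f (rs j α x)) (rb j α t) c = mb f t c := by
  unfold mb
  refine B01_EB j _ _ fun a b => ?_
  unfold zb
  refine B01_ite _ _ ?_
  constructor
  · intro h σ hσ
    have h1 := h (B01_S j σ) ((B01_alw j a b _).1 (by rw [B01_S_S]; exact hσ))
    have h2 : f (rs j α (pt (rb j α t) a b + sv (B01_S j σ))) ≠ c := h1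
    rw [B01_val_sym j α t f, B01_S_S] at h2
    exact h2
  · intro h σ hσ
    show f (rs j α (pt (rb j α t) a b + sv σ)) ≠ c
    rw [B01_val_sym j α t f]
    exact h _ ((B01_alw j a b σ).2 hσ)

private theorem B01_mj_sym (c : Fin q) (j : Fin d) (α : ZMod (2 ^ k)) (t : Blk d k) (i : Fin d)
    (f : Site d (k + 1) → Fin q) : mj (fun x => f (rs j α x)) (rb j α t) c i = mj f t c i := by
  unfold mj
  refine B01_EB j _ _ fun a b => ?_
  unfold zj
  refine B01_ite _ _ ?_
  constructor
  · intro h σ hi hσ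
    have h1 := h (B01_S j σ) hi ((B01_alw j a b _).1 (by rw [B01_S_S]; exact hσ))
    have h2 : f (rs j α (pt (rb j α t) a b + sv (B01_S j σ))) ≠ c := h1
    rw [B01_val_sym j α t f, B01_S_S] at h2
    exact h2
  · intro h σ hi hσ
    show f (rs j α (pt (rb j α t) a b + sv σ)) ≠ c
    rw [B01_val_sym j α t f]
    exact h _ hi ((B01_alw j a b σ).2 hσ)

private theorem B01_bad_sym (c : Fin q) (j : Fin d) (α : ZMod (2 ^ k)) (t : Blk d k)
    (f : Site d (k + 1) → Fin q) : bad c (rb j α t) (fun x => f (rs j α x)) ↔ bad c t f := by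
  unfold bad lab1 lab0
  simp only [B01_mb_sym c j α t f, B01_mj_sym c j α t _ f]

private theorem B01_badT_sym (θ : ℝ) (c : Fin q) (j : Fin d) (α : ZMod (2 ^ k)) (t : Blk d k)
    (f : Site d (k + 1) → Fin q) : badT θ c (rb j α t) (fun x => f (rs j α x)) ↔ badT θ c t f := by
  unfold badT
  simp only [B01_mb_sym c j α t f, B01_mj_sym c j α t _ f]

private theorem B01_AL_sym (j : Fin d) (α : ZMod (2 ^ k)) (t : Blk d k)
    (f : Site d (k + 1) → Fin q) : AL (fun x => f (rs j α x)) (rb j α t) = AL f t := by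
  ext c
  simp only [AL, Finset.mem_filter, Finset.mem_univ, true_and, lab0, B01_mj_sym c j α t _ f]

private theorem B01_unb_sym (j : Fin d) (α : ZMod (2 ^ k)) (t : Blk d k)
    (f : Site d (k + 1) → Fin q) : unb (rb j α t) (fun x => f (rs j α x)) ↔ unb t f := by
  unfold unb
  simp only [B01_bad_sym _ j α t f, B01_AL_sym j α t f]

private theorem B01_prB_sym (j : Fin d) (α : ZMod (2 ^ k)) (t : Blk d k)
    (f : Site d (k + 1) → Fin q) (hf : prB t f) : prB (rb j α t) (fun x => f (rs j α x)) := by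
  intro a b σ hσ
  show f (rs j α (pt (rb j α t) a b + sv σ)) ≠ f (rs j α (pt (rb j α t) a b))
  rw [B01_val_sym j α t f, rs_pt, rb_rb]
  exact hf _ _ _ ((B01_alw j a b σ).2 hσ)

/-- the value of the reflected coordinate mod 4 -/
private theorem B01_mod (hk : 1 ≤ k) (n : ℕ) (y : ZMod (2 ^ (k + 1))) :
    ((((4 * n : ℕ) : ZMod (2 ^ (k + 1))) - y).val + y.val) % 4 = 0 := by
  obtain ⟨z, hz⟩ : ∃ z, z = ((4 * n : ℕ) : ZMod (2 ^ (k + 1))) - y := ⟨_, rfl⟩
  rw [← hz]
  have h1 : ((z.val + y.val : ℕ) : ZMod (2 ^ (k + 1))) = ((4 * n : ℕ) : ZMod (2 ^ (k + 1))) := by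
    rw [Nat.cast_add, ZMod.natCast_zmod_val, ZMod.natCast_zmod_val, hz, sub_add_cancel]
  rw [ZMod.natCast_eq_natCast_iff] at h1
  have h4 : (4 : ℕ) ∣ 2 ^ (k + 1) := by
    have : (4 : ℕ) = 2 ^ 2 := by norm_num
    rw [this]
    exact pow_dvd_pow 2 (by omega)
  have h2 : z.val + y.val ≡ 4 * n [MOD 4] := h1.of_dvd h4
  unfold Nat.ModEq at h2
  omega

private theorem B01_coord (hk : 1 ≤ k) (j i : Fin d) (α : ZMod (2 ^ k)) (x : Site d (k + 1)) (m : Bool)
    (h : (x i).val % 4 = (if m then 2 else 0)) : ((rs j α x) i).val % 4 = (if m then 2 else 0) := by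
  by_cases hi : i = j
  · subst hi
    have e1 : rs i α x i = ((4 * α.val : ℕ) : ZMod (2 ^ (k + 1))) - x i := by
      unfold rs
      rw [Function.update_self]
    have h1 := B01_mod hk α.val (x i)
    rw [e1]
    cases m
    · simp only [Bool.false_eq_true, if_false] at h ⊢
      omega
    · simp only [if_true] at h ⊢
      omega
  · have e1 : rs j α x i = x i := by
      unfold rs
      rw [Function.update_of_ne hi]
    rw [e1]
    exact h

theorem Ev_sym (hk : 1 ≤ k) (s : Ty d q) (j : Fin d) (α : ZMod (2 ^ k)) (t : Blk d k)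
    (f : Site d (k + 1) → Fin q) (hf : Ev s t f) : Ev s (rb j α t) (fun x => f (rs j α x)) := by
  cases s with
  | free => exact trivial
  | pr => exact B01_prB_sym j α t f hf
  | bd c => exact ⟨B01_prB_sym j α t f hf.1, (B01_bad_sym c j α t f).2 hf.2⟩
  | bt c => exact ⟨B01_prB_sym j α t f hf.1, (B01_badT_sym (th d) c j α t f).2 hf.2⟩
  | ub => exact ⟨B01_prB_sym j α t f hf.1, (B01_unb_sym j α t f).2 hf.2⟩
  | fc i m =>
    intro a b σ hσ hi hm
    show f (rs j α (pt (rb j α t) a b + sv σ)) ≠ f (rs j α (pt (rb j α t) a b))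
    have hm' := B01_coord hk j i α _ m hm
    rw [rs_pt, rb_rb] at hm'
    rw [B01_val_sym j α t f, rs_pt, rb_rb]
    exact hf _ _ _ ((B01_alw j a b σ).2 hσ) hi hm'

end Pool.Agent.COR
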