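import Pool.Agent.Lib_MP_2c424f_cor.Defs
import Pool.Agent.Lib_MP_2c424f_lo.RP

/-!
# Reflection positivity with types (piece B02, (B1))

The proof of `rp` (file `Lib_MP_2c424f_lo/RP.lean`), for all functions instead of proper colourings (simpler: the gluing has
no edges to check) and with a type for every block.  A function `f` is the gluing of two `rs`-symmetric functions `f₁`
(equal to `f` on the left closed half) and `f₂` (on the right closed half) which agree on the two planes.  For a function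
`h` on the planes let `A h` be the number of the `rs`-symmetric functions equal to `h` on the planes which satisfy the
events of `τ` for the left blocks, `B h` the same for the right blocks: `cT E τ = ∑_h A h * B h`,
`cT E (tyL j α τ) = ∑ A², cT E (tyR j α τ) = ∑ B²`; Cauchy-Schwarz.
-/

set_option autoImplicit false

open Finset

namespace Pool.Agent.COR

open Pool.Agent.LO

variable {d k q : ℕ}

/-! ### halves and symmetrised functions (as in `LO.rp`) -/

/-- the distance from the first plane -/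
private def B02_V (j : Fin d) (α : ZMod (2 ^ k)) (x : Site d (k + 1)) : ℕ :=
  (x j - ((2 * α.val : ℕ) : ZMod (2 ^ (k + 1)))).val

private def B02_L (j : Fin d) (α : ZMod (2 ^ k)) (x : Site d (k + 1)) : Prop := B02_V j α x ≤ 2 ^ k
private def B02_R (j : Fin d) (α : ZMod (2 ^ k)) (x : Site d (k + 1)) : Prop :=
  B02_V j α x = 0 ∨ 2 ^ k ≤ B02_V j α x

private theorem B02_V_lt (j : Fin d) (α : ZMod (2 ^ k)) (x : Site d (k + 1)) :
    B02_V j α x < 2 ^ (k + 1) := ZMod.val_lt _

private theorem B02_or (j : Fin d) (α : ZMod (2 ^ k)) (x : Site d (k + 1)) :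
    B02_L j α x ∨ B02_R j α x := by
  unfold B02_L B02_R
  omega

private theorem B02_V_rs (hk : 1 ≤ k) (j : Fin d) (α : ZMod (2 ^ k)) (x : Site d (k + 1)) :
    B02_V j α (rs j α x) = if B02_V j α x = 0 then 0 else 2 ^ (k + 1) - B02_V j α x :=
  rs_half hk j α x

private theorem B02_L_rs (hk : 1 ≤ k) (j : Fin d) (α : ZMod (2 ^ k)) (x : Site d (k + 1))
    (h : B02_R j α x) : B02_L j α (rs j α x) := by
  unfold B02_L
  unfold B02_R at h
  rw [B02_V_rs hk]
  have h1 := B02_V_lt j α x
  rw [pow_succ] at h1 ⊢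
  split_ifs <;> omega

private theorem B02_R_rs (hk : 1 ≤ k) (j : Fin d) (α : ZMod (2 ^ k)) (x : Site d (k + 1))
    (h : B02_L j α x) : B02_R j α (rs j α x) := by
  unfold B02_R
  unfold B02_L at h
  rw [B02_V_rs hk]
  have h1 := B02_V_lt j α x
  rw [pow_succ] at h1 ⊢
  split_ifs <;> omega

private theorem B02_fix (hk : 1 ≤ k) (j : Fin d) (α : ZMod (2 ^ k)) (x : Site d (k + 1))
    (h : B02_L j α x) (h' : B02_R j α x) : rs j α x = x := by
  have h1 : B02_V j α (rs j α x) = B02_V j α x := by
    rw [B02_V_rs hk]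
    unfold B02_L at h
    unfold B02_R at h'
    have h2 : 2 ^ (k + 1) = 2 * 2 ^ k := by rw [pow_succ]; ring
    rw [h2]
    split_ifs <;> omega
  have h2 : (rs j α x) j = x j := by
    have := ZMod.val_injective (2 ^ (k + 1)) h1
    exact sub_left_injective this
  funext i
  by_cases hij : i = j
  · subst hij; exact h2
  · unfold rs
    rw [Function.update_of_ne hij]

open scoped Classical in
/-- symmetrisation of the left half -/
private noncomputable def B02_sL (j : Fin d) (α : ZMod (2 ^ k)) (f : Site d (k + 1) → Fin q) :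
    Site d (k + 1) → Fin q := fun x => if B02_L j α x then f x else f (rs j α x)

open scoped Classical in
/-- symmetrisation of the right half -/
private noncomputable def B02_sR (j : Fin d) (α : ZMod (2 ^ k)) (f : Site d (k + 1) → Fin q) :
    Site d (k + 1) → Fin q := fun x => if B02_R j α x then f x else f (rs j α x)

private theorem B02_sL_L {j : Fin d} {α : ZMod (2 ^ k)} {f : Site d (k + 1) → Fin q}
    {x : Site d (k + 1)} (h : B02_L j α x) : B02_sL j α f x = f x := if_pos h

private theorem B02_sR_R {j : Fin d} {α : ZMod (2 ^ k)} {f : Site d (k + 1) → Fin q}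
    {x : Site d (k + 1)} (h : B02_R j α x) : B02_sR j α f x = f x := if_pos h

private theorem B02_sL_R (hk : 1 ≤ k) {j : Fin d} {α : ZMod (2 ^ k)}
    {f : Site d (k + 1) → Fin q} {x : Site d (k + 1)} (h : B02_R j α x) :
    B02_sL j α f x = f (rs j α x) := by
  by_cases hL : B02_L j α x
  · rw [B02_sL_L hL, B02_fix hk j α x hL h]
  · exact if_neg hL

private theorem B02_sR_L (hk : 1 ≤ k) {j : Fin d} {α : ZMod (2 ^ k)}
    {f : Site d (k + 1) → Fin q} {x : Site d (k + 1)} (h : B02_L j α x) :
    B02_sR j α f x = f (rs j α x) := by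
  by_cases hR : B02_R j α x
  · rw [B02_sR_R hR, B02_fix hk j α x h hR]
  · exact if_neg hR

private theorem B02_sL_sym (hk : 1 ≤ k) (j : Fin d) (α : ZMod (2 ^ k))
    (f : Site d (k + 1) → Fin q) (x : Site d (k + 1)) :
    B02_sL j α f (rs j α x) = B02_sL j α f x := by
  rcases B02_or j α x with h | h
  · rw [B02_sL_R hk (B02_R_rs hk j α x h), rs_rs, B02_sL_L h]
  · rw [B02_sL_R hk h, B02_sL_L (B02_L_rs hk j α x h)]

private theorem B02_sR_sym (hk : 1 ≤ k) (j : Fin d) (α : ZMod (2 ^ k))
    (f : Site d (k + 1) → Fin q) (x : Site d (k + 1)) :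
    B02_sR j α f (rs j α x) = B02_sR j α f x := by
  rcases B02_or j α x with h | h
  · rw [B02_sR_L hk h, B02_sR_R (B02_R_rs hk j α x h)]
  · rw [B02_sR_L hk (B02_L_rs hk j α x h), rs_rs, B02_sR_R h]

open scoped Classical in
/-- gluing -/
private noncomputable def B02_G (j : Fin d) (α : ZMod (2 ^ k)) (f g : Site d (k + 1) → Fin q) :
    Site d (k + 1) → Fin q := fun x => if B02_L j α x then f x else g x

/-- the sites of the planes -/
private abbrev B02_P (j : Fin d) (α : ZMod (2 ^ k)) : Type :=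
  {x : Site d (k + 1) // B02_L j α x ∧ B02_R j α x}

/-- restriction to the planes -/
private def B02_Res (j : Fin d) (α : ZMod (2 ^ k)) (f : Site d (k + 1) → Fin q) :
    B02_P j α → Fin q := fun x => f x.1

private theorem B02_G_L {j : Fin d} {α : ZMod (2 ^ k)} {f g : Site d (k + 1) → Fin q}
    {x : Site d (k + 1)} (h : B02_L j α x) : B02_G j α f g x = f x := if_pos h

private theorem B02_G_R {j : Fin d} {α : ZMod (2 ^ k)} {f g : Site d (k + 1) → Fin q}
    (hfg : B02_Res j α f = B02_Res j α g) {x : Site d (k + 1)} (h : B02_R j α x) :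
    B02_G j α f g x = g x := by
  by_cases hL : B02_L j α x
  · rw [B02_G_L hL]
    exact congrFun hfg ⟨x, hL, h⟩
  · exact if_neg hL

private theorem B02_sL_G (hk : 1 ≤ k) {j : Fin d} {α : ZMod (2 ^ k)}
    {f g : Site d (k + 1) → Fin q} (hf : ∀ x, f (rs j α x) = f x) :
    B02_sL j α (B02_G j α f g) = f := by
  funext x
  rcases B02_or j α x with h | h
  · rw [B02_sL_L h, B02_G_L h]
  · rw [B02_sL_R hk h, B02_G_L (B02_L_rs hk j α x h), hf]

private theorem B02_sR_G (hk : 1 ≤ k) {j : Fin d} {α : ZMod (2 ^ k)}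
    {f g : Site d (k + 1) → Fin q} (hg : ∀ x, g (rs j α x) = g x)
    (hfg : B02_Res j α f = B02_Res j α g) :
    B02_sR j α (B02_G j α f g) = g := by
  funext x
  rcases B02_or j α x with h | h
  · rw [B02_sR_L hk h, B02_G_R hfg (B02_R_rs hk j α x h), hg]
  · rw [B02_sR_R h, B02_G_R hfg h]

private theorem B02_G_s {j : Fin d} {α : ZMod (2 ^ k)} (f : Site d (k + 1) → Fin q) :
    B02_G j α (B02_sL j α f) (B02_sR j α f) = f := by
  funext x
  by_cases h : B02_L j α x
  · rw [B02_G_L h, B02_sL_L h]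
  · have h' : B02_R j α x := (B02_or j α x).resolve_left h
    have : B02_G j α (B02_sL j α f) (B02_sR j α f) x = B02_sR j α f x := if_neg h
    rw [this, B02_sR_R h']

open scoped Classical in
/-- symmetric functions -/
private noncomputable def B02_S (q : ℕ) (j : Fin d) (α : ZMod (2 ^ k)) :
    Finset (Site d (k + 1) → Fin q) :=
  univ.filter fun f => ∀ x, f (rs j α x) = f x

open scoped Classical in
private theorem B02_key (hk : 1 ≤ k) (j : Fin d) (α : ZMod (2 ^ k))
    (G₁ G₂ : (Site d (k + 1) → Fin q) → Prop) :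
    ((univ : Finset (Site d (k + 1) → Fin q)).filter fun f =>
        G₁ (B02_sL j α f) ∧ G₂ (B02_sR j α f)).card =
      ∑ h : B02_P j α → Fin q, ((B02_S q j α).filter fun f => G₁ f ∧ B02_Res j α f = h).card *
        ((B02_S q j α).filter fun f => G₂ f ∧ B02_Res j α f = h).card := by
  have h1 : ((univ : Finset (Site d (k + 1) → Fin q)).filter fun f =>
        G₁ (B02_sL j α f) ∧ G₂ (B02_sR j α f)).card =
      (((B02_S q j α) ×ˢ (B02_S q j α)).filter fun p =>
        (G₁ p.1 ∧ G₂ p.2) ∧ B02_Res j α p.1 = B02_Res j α p.2).card := by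
    apply Finset.card_nbij' (fun f => (B02_sL j α f, B02_sR j α f)) (fun p => B02_G j α p.1 p.2)
    · intro f hf
      rw [mem_coe, mem_filter] at hf
      obtain ⟨hf1, hf2, hf3⟩ := hf
      rw [mem_coe, mem_filter, mem_product]
      refine ⟨⟨?_, ?_⟩, ⟨hf2, hf3⟩, ?_⟩
      · exact mem_filter.2 ⟨mem_univ _, B02_sL_sym hk j α f⟩
      · exact mem_filter.2 ⟨mem_univ _, B02_sR_sym hk j α f⟩
      · funext x
        show B02_sL j α f x.1 = B02_sR j α f x.1
        rw [B02_sL_L x.2.1, B02_sR_R x.2.2]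
    · intro p hp
      rw [mem_coe, mem_filter, mem_product] at hp
      obtain ⟨⟨hp1, hp2⟩, ⟨hp3, hp4⟩, hp5⟩ := hp
      have h1 := mem_filter.1 hp1
      have h2 := mem_filter.1 hp2
      rw [mem_coe, mem_filter]
      refine ⟨mem_univ _, ?_, ?_⟩
      · rw [B02_sL_G hk h1.2]; exact hp3
      · rw [B02_sR_G hk h2.2 hp5]; exact hp4
    · intro f _
      exact B02_G_s f
    · intro p hp
      rw [mem_coe, mem_filter, mem_product] at hp
      obtain ⟨⟨hp1, hp2⟩, ⟨hp3, hp4⟩, hp5⟩ := hp
      have h1 := mem_filter.1 hp1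
      have h2 := mem_filter.1 hp2
      exact Prod.ext (B02_sL_G hk h1.2) (B02_sR_G hk h2.2 hp5)
  rw [h1, Finset.card_eq_sum_card_fiberwise (f := fun p => B02_Res j α p.1)
    (t := (univ : Finset (B02_P j α → Fin q))) (fun _ _ => mem_coe.2 (mem_univ _))]
  apply Finset.sum_congr rfl
  intro h _
  rw [← Finset.card_product]
  congr 1
  ext p
  simp only [mem_filter, mem_product]
  constructor
  · rintro ⟨⟨⟨h1, h2⟩, ⟨h3, h4⟩, h5⟩, h6⟩
    exact ⟨⟨h1, h3, h6⟩, ⟨h2, h4, by rw [← h5]; exact h6⟩⟩
  · rintro ⟨⟨h1, h3, h6⟩, ⟨h2, h4, h7⟩⟩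
    exact ⟨⟨⟨h1, h2⟩, ⟨h3, h4⟩, by rw [h6, h7]⟩, h6⟩

open scoped Classical in
/-- the counts of the fibres -/
private noncomputable def B02_A (j : Fin d) (α : ZMod (2 ^ k))
    (G : (Site d (k + 1) → Fin q) → Prop) (h : B02_P j α → Fin q) : ℝ :=
  (((B02_S q j α).filter fun f => G f ∧ B02_Res j α f = h).card : ℝ)

open scoped Classical in
private theorem B02_key2 (hk : 1 ≤ k) {T : Type} (E : T → Blk d k → (Site d (k + 1) → Fin q) → Prop)
    (j : Fin d) (α : ZMod (2 ^ k)) (τ : Blk d k → T)
    (G G' : (Site d (k + 1) → Fin q) → Prop)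
    (h : ∀ f, (∀ t, E (τ t) t f) ↔ G (B02_sL j α f) ∧ G' (B02_sR j α f)) :
    cT E τ = ∑ h : B02_P j α → Fin q, B02_A j α G h * B02_A j α G' h := by
  have h1 := B02_key hk j α G G'
  unfold cT
  have h2 : ((univ : Finset (Site d (k + 1) → Fin q)).filter fun f => ∀ t, E (τ t) t f) =
      ((univ : Finset (Site d (k + 1) → Fin q)).filter fun f =>
        G (B02_sL j α f) ∧ G' (B02_sR j α f)) := by
    apply Finset.filter_congr
    intro f _
    exact h f
  rw [h2, h1]
  push_cast
  rfl

theorem rpT (hk : 1 ≤ k) {T : Type} (E : T → Blk d k → (Site d (k + 1) → Fin q) → Prop)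
    (hloc : ∀ s t f g, (∀ a b, f (pt t a b) = g (pt t a b)) → E s t f → E s t g)
    (hsym : ∀ s j α t f, E s t f → E s (rb j α t) (fun x => f (rs j α x)))
    (j : Fin d) (α : ZMod (2 ^ k)) (τ : Blk d k → T) :
    cT E τ ^ 2 ≤ cT E (tyL j α τ) * cT E (tyR j α τ) := by
  classical
  set G₁ : (Site d (k + 1) → Fin q) → Prop := fun f => ∀ t, lft j α t → E (τ t) t f with hG₁
  set G₂ : (Site d (k + 1) → Fin q) → Prop := fun f => ∀ t, ¬ lft j α t → E (τ t) t f with hG₂
  -- locality
  have hL : ∀ s t f, lft j α t → (E s t f ↔ E s t (B02_sL j α f)) := by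
    intro s t f ht
    have h1 : ∀ a b, f (pt t a b) = B02_sL j α f (pt t a b) := fun a b =>
      (B02_sL_L ((pt_half hk j α t a b).1 ht)).symm
    exact ⟨hloc s t _ _ h1, hloc s t _ _ fun a b => (h1 a b).symm⟩
  have hR : ∀ s t f, ¬ lft j α t → (E s t f ↔ E s t (B02_sR j α f)) := by
    intro s t f ht
    have h1 : ∀ a b, f (pt t a b) = B02_sR j α f (pt t a b) := fun a b =>
      (B02_sR_R ((pt_half hk j α t a b).2 ht)).symm
    exact ⟨hloc s t _ _ h1, hloc s t _ _ fun a b => (h1 a b).symm⟩
  -- reflection of events of symmetric functions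
  have hS : ∀ s t (g : Site d (k + 1) → Fin q), (∀ x, g (rs j α x) = g x) →
      (E s (rb j α t) g ↔ E s t g) := by
    intro s t g hg
    have hg' : (fun x => g (rs j α x)) = g := funext hg
    constructor
    · intro h
      have := hsym s j α _ _ h
      rwa [hg', rb_rb] at this
    · intro h
      have := hsym s j α _ _ h
      rwa [hg'] at this
  have e0 := B02_key2 hk E j α τ G₁ G₂ (by
    intro f
    constructor
    · intro h
      exact ⟨fun t hl => (hL _ t f hl).1 (h t), fun t hl => (hR _ t f hl).1 (h t)⟩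
    · rintro ⟨h1, h2⟩ t
      by_cases hl : lft j α t
      · exact (hL _ t f hl).2 (h1 t hl)
      · exact (hR _ t f hl).2 (h2 t hl))
  have e1 := B02_key2 hk E j α (tyL j α τ) G₁ G₁ (by
    intro f
    have tl : ∀ t, lft j α t → tyL j α τ t = τ t := fun t ht => if_pos ht
    have tr : ∀ t, ¬ lft j α t → tyL j α τ t = τ (rb j α t) := fun t ht => if_neg ht
    constructor
    · intro h
      refine ⟨fun t hl => ?_, fun t hl => ?_⟩
      · have h1 := h t
        rw [tl t hl] at h1
        exact (hL _ t f hl).1 h1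
      · have h2 : ¬ lft j α (rb j α t) := by
          rw [lft_rb hk]; exact not_not.2 hl
        have h1 := h (rb j α t)
        rw [tr _ h2, rb_rb] at h1
        exact (hS _ t _ (B02_sR_sym hk j α f)).1 ((hR _ _ f h2).1 h1)
    · rintro ⟨h1, h2⟩ t
      by_cases hl : lft j α t
      · rw [tl t hl]
        exact (hL _ t f hl).2 (h1 t hl)
      · have h3 : lft j α (rb j α t) := by
          rw [lft_rb hk]; exact hl
        rw [tr t hl]
        have h4 := h2 _ h3
        exact (hR _ t f hl).2 ((hS _ t _ (B02_sR_sym hk j α f)).1 h4))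
  have e2 := B02_key2 hk E j α (tyR j α τ) G₂ G₂ (by
    intro f
    have tl : ∀ t, lft j α t → tyR j α τ t = τ (rb j α t) := fun t ht => if_pos ht
    have tr : ∀ t, ¬ lft j α t → tyR j α τ t = τ t := fun t ht => if_neg ht
    constructor
    · intro h
      refine ⟨fun t hl => ?_, fun t hl => ?_⟩
      · have h2 : lft j α (rb j α t) := by
          rw [lft_rb hk]; exact hl
        have h1 := h (rb j α t)
        rw [tl _ h2, rb_rb] at h1
        exact (hS _ t _ (B02_sL_sym hk j α f)).1 ((hL _ _ f h2).1 h1)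
      · have h1 := h t
        rw [tr t hl] at h1
        exact (hR _ t f hl).1 h1
    · rintro ⟨h1, h2⟩ t
      by_cases hl : lft j α t
      · have h3 : ¬ lft j α (rb j α t) := by
          rw [lft_rb hk]; exact not_not.2 hl
        rw [tl t hl]
        have h4 := h1 _ h3
        exact (hL _ t f hl).2 ((hS _ t _ (B02_sL_sym hk j α f)).1 h4)
      · rw [tr t hl]
        exact (hR _ t f hl).2 (h2 t hl))
  rw [e0, e1, e2]
  have hcs := Finset.sum_mul_sq_le_sq_mul_sq (univ : Finset (B02_P j α → Fin q))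
    (B02_A j α G₁) (B02_A j α G₂)
  have h1 : ∑ h : B02_P j α → Fin q, B02_A j α G₁ h * B02_A j α G₁ h = ∑ h, B02_A j α G₁ h ^ 2 :=
    Finset.sum_congr rfl fun _ _ => (sq _).symm
  have h2 : ∑ h : B02_P j α → Fin q, B02_A j α G₂ h * B02_A j α G₂ h = ∑ h, B02_A j α G₂ h ^ 2 :=
    Finset.sum_congr rfl fun _ _ => (sq _).symm
  rw [h1, h2]
  exact hcs

end Pool.Agent.COR
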