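import Pool.Agent.Lib_MP_2c424f_cor.Defs
import Pool.Agent.Lib_MP_2c424f_lo.Chess

/-!
# The chessboard estimate with types (piece B03, (B2))

The proof of `chess` (file `Lib_MP_2c424f_lo/Chess.lean`) with types.  Let `F τ = cn τ / ∏_t Nn (τ t)` (finitely many `τ`
take part: restrict to `τ` with values in the finite set of the values of the given `τ₀`, or assume `T` finite).
`∏_t Nn (tyL τ t) * ∏_t Nn (tyR τ t) = (∏_t Nn (τ t))²` (`lft_rb`, `rb` is a bijection of the left half onto the right
half), so `F τ ^ 2 ≤ F (tyL τ) * F (tyR τ)`, and `F (const s) ≤ 1`.  Take a maximiser `τ` of `F` and suppose `F τ > 1`.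
All the symmetrisations of a maximiser are maximisers.  Fix a block `t₀` and `s = τ t₀`.  For a set `J` of directions
(induction) there is a maximiser which is equal to `s` at all `t` with `t i = t₀ i` for `i ∉ J` (up to a change of `t₀`): to add the
direction `j`, double (`e = 0, …, k`) the interval of columns `t j ∈ {α, …, α + 2^e - 1}` by the reflection in the plane
at its end, exactly as in `chess`.  For `J = univ` the maximiser is constant, contradiction.
-/

set_option autoImplicit false

open Finset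

namespace Pool.Agent.COR

open Pool.Agent.LO

variable {d k : ℕ}

private theorem B03_rb_rb (j : Fin d) (α : ZMod (2 ^ k)) (t : Blk d k) :
    rb j α (rb j α t) = t := by
  unfold rb
  rw [Function.update_idem, Function.update_self, sub_sub_cancel, Function.update_eq_self]

private theorem B03_val_cast (n : ℕ) (h : n < 2 ^ k) : ((n : ZMod (2 ^ k))).val = n :=
  ZMod.val_cast_of_lt h

private theorem B03_prod (j : Fin d) (α : ZMod (2 ^ k)) {T : Type} (Nn : T → ℝ) (τ : Blk d k → T) :
    (∏ t, Nn (tyL j α τ t)) * (∏ t, Nn (tyR j α τ t)) = (∏ t, Nn (τ t)) ^ 2 := by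
  classical
  rw [← prod_mul_distrib]
  have h1 : ∀ t, Nn (tyL j α τ t) * Nn (tyR j α τ t) = Nn (τ t) * Nn (τ (rb j α t)) := by
    intro t
    unfold tyL tyR
    by_cases h : lft j α t
    · simp only [if_pos h]
    · simp only [if_neg h]
      exact mul_comm _ _
  rw [prod_congr rfl fun t _ => h1 t, prod_mul_distrib, sq]
  congr 1
  exact Fintype.prod_equiv ⟨rb j α, rb j α, B03_rb_rb j α, B03_rb_rb j α⟩ _ _ fun t => rfl

/-- doubling of an interval of block columns -/
private theorem B03_double {T : Type} (j : Fin d) (J : Finset (Fin d)) (τ : Blk d k → T) (s : T)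
    (a : Blk d k) (e : ℕ) (he : e + 1 ≤ k)
    (h : ∀ t : Blk d k, (∀ i, i ∉ insert j J → t i = a i) → (t j - a j).val < 2 ^ e → τ t = s) :
    ∀ t : Blk d k, (∀ i, i ∉ insert j J → t i = a i) → (t j - a j).val < 2 ^ (e + 1) →
      tyL j (a j + ((2 ^ e : ℕ) : ZMod (2 ^ k)) - ((2 ^ (k - 1) : ℕ) : ZMod (2 ^ k))) τ t = s := by
  classical
  have hne : NeZero (2 ^ k) := ⟨by positivity⟩
  set α := a j + ((2 ^ e : ℕ) : ZMod (2 ^ k)) - ((2 ^ (k - 1) : ℕ) : ZMod (2 ^ k)) with hα
  have hpe : 2 ^ e ≤ 2 ^ (k - 1) := Nat.pow_le_pow_right (by norm_num) (by omega)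
  have h2 : 2 ^ k = 2 * 2 ^ (k - 1) := by
    rw [← pow_succ']
    congr 1
    omega
  have hleft : ∀ t : Blk d k, (t j - a j).val < 2 ^ e → lft j α t := by
    intro t ht
    unfold lft
    have h3 : t j - α = (((t j - a j).val + 2 ^ (k - 1) - 2 ^ e : ℕ) : ZMod (2 ^ k)) := by
      rw [Nat.cast_sub (by omega), Nat.cast_add, ZMod.natCast_val, ZMod.cast_id, hα]
      ring
    rw [h3, B03_val_cast _ (by omega)]
    omega
  intro t ht htj
  by_cases hlt : (t j - a j).val < 2 ^ e
  · unfold tyL
    rw [if_pos (hleft t hlt)]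
    exact h t ht hlt
  · have h4 : (rb j α t) j - a j = ((2 ^ (e + 1) - 1 - (t j - a j).val : ℕ) : ZMod (2 ^ k)) := by
      unfold rb
      rw [Function.update_self, Nat.sub_sub, Nat.cast_sub (by omega), Nat.cast_add,
        ZMod.natCast_val, ZMod.cast_id, hα]
      have h5 : (2 : ZMod (2 ^ k)) * ((2 ^ (k - 1) : ℕ) : ZMod (2 ^ k)) = 0 := by
        have h8 := congrArg (Nat.cast : ℕ → ZMod (2 ^ k)) h2
        rw [ZMod.natCast_self, Nat.cast_mul] at h8
        exact h8.symm
      have h6 : ((2 ^ (e + 1) : ℕ) : ZMod (2 ^ k)) = 2 * ((2 ^ e : ℕ) : ZMod (2 ^ k)) := by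
        push_cast
        rw [pow_succ']
      rw [h6]
      push_cast at h5 ⊢
      linear_combination -h5
    have h7 : ((rb j α t) j - a j).val < 2 ^ e := by
      have hp : 2 ^ (e + 1) ≤ 2 ^ k := Nat.pow_le_pow_right (by norm_num) he
      rw [h4, B03_val_cast _ (by omega)]
      have : 2 ^ (e + 1) = 2 * 2 ^ e := pow_succ' 2 e
      omega
    have h8 : ¬ lft j α t := by
      rw [← lft_rb (by omega) j α t]
      exact hleft _ h7
    unfold tyL
    rw [if_neg h8]
    refine h _ ?_ h7
    intro i hi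
    have hij : i ≠ j := fun hh => hi (by rw [hh]; exact mem_insert_self _ _)
    unfold rb
    rw [Function.update_of_ne hij]
    exact ht i hi

theorem chessT (hk : 1 ≤ k) {T : Type} [Finite T] (cn : (Blk d k → T) → ℝ) (Nn : T → ℝ) (hN : ∀ s, 0 < Nn s)
    (h0 : ∀ τ, 0 ≤ cn τ)
    (hrp : ∀ j α τ, cn τ ^ 2 ≤ cn (tyL j α τ) * cn (tyR j α τ))
    (hc : ∀ s, cn (fun _ => s) ≤ Nn s ^ (Fintype.card (Blk d k))) (τ : Blk d k → T) :
    cn τ ≤ ∏ t, Nn (τ t) := by
  classical
  have hne : NeZero (2 ^ k) := ⟨by positivity⟩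
  let _ : Fintype T := Fintype.ofFinite T
  set F : (Blk d k → T) → ℝ := fun G => cn G / ∏ t, Nn (G t) with hF
  have hpr : ∀ G : Blk d k → T, 0 < ∏ t, Nn (G t) := fun G => prod_pos fun t _ => hN _
  obtain ⟨G₀, -, hmax⟩ := exists_max_image (univ : Finset (Blk d k → T)) F ⟨τ, mem_univ _⟩
  have hmax' : ∀ G, F G ≤ F G₀ := fun G => hmax G (mem_univ _)
  have key : F G₀ ≤ 1 := by
    by_cases hpos : F G₀ ≤ 0
    · exact hpos.trans zero_le_one
    push Not at hpos
    -- maximisers
    have hsym : ∀ G, F G = F G₀ → ∀ j α, F (tyL j α G) = F G₀ := by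
      intro G hGm j α
      have h1 := hrp j α G
      have h2 := B03_prod j α Nn G
      have e1 : ∀ G', cn G' = F G' * ∏ t, Nn (G' t) := by
        intro G'
        simp only [hF]
        rw [div_mul_cancel₀ _ (hpr G').ne']
      rw [e1 G, e1 (tyL j α G), e1 (tyR j α G), hGm] at h1
      have h3 : F G₀ ^ 2 * (∏ t, Nn (G t)) ^ 2 ≤
          (F (tyL j α G) * F (tyR j α G)) * (∏ t, Nn (G t)) ^ 2 := by
        calc F G₀ ^ 2 * (∏ t, Nn (G t)) ^ 2 = (F G₀ * ∏ t, Nn (G t)) ^ 2 := by
              rw [mul_pow]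
          _ ≤ _ := h1
          _ = (F (tyL j α G) * F (tyR j α G)) *
              ((∏ t, Nn (tyL j α G t)) * (∏ t, Nn (tyR j α G t))) := by ring
          _ = _ := by rw [h2]
      have h4 : F G₀ ^ 2 ≤ F (tyL j α G) * F (tyR j α G) :=
        le_of_mul_le_mul_right h3 (pow_pos (hpr G) 2)
      have h5 : 0 ≤ F (tyL j α G) := div_nonneg (h0 _) (hpr _).le
      have h6 : F (tyL j α G) * F (tyR j α G) ≤ F (tyL j α G) * F G₀ :=
        mul_le_mul_of_nonneg_left (hmax' _) h5
      refine le_antisymm (hmax' _) ?_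
      have h7 : F G₀ * F G₀ ≤ F (tyL j α G) * F G₀ := by
        rw [← sq]
        exact h4.trans h6
      exact le_of_mul_le_mul_right h7 hpos
    have a₀ : Blk d k := fun _ => 0
    have hP : ∀ J : Finset (Fin d), ∃ G, F G = F G₀ ∧ ∃ (a : Blk d k) (s : T),
        ∀ t : Blk d k, (∀ i, i ∉ J → t i = a i) → G t = s := by
      intro J
      induction J using Finset.induction_on with
      | empty =>
        refine ⟨G₀, rfl, a₀, G₀ a₀, fun t ht => ?_⟩
        have : t = a₀ := funext fun i => ht i (by simp)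
        rw [this]
      | insert j J hj ih =>
        obtain ⟨G, hGm, a, s, ha⟩ := ih
        have hQ : ∀ e ≤ k, ∃ G, F G = F G₀ ∧ ∃ (a : Blk d k) (s : T), ∀ t : Blk d k,
            (∀ i, i ∉ insert j J → t i = a i) → (t j - a j).val < 2 ^ e → G t = s := by
          intro e
          induction e with
          | zero =>
            intro _
            refine ⟨G, hGm, a, s, fun t ht htj => ha t fun i hi => ?_⟩
            by_cases hij : i = j
            · subst hij
              rw [pow_zero, Nat.lt_one_iff, ZMod.val_eq_zero] at htj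
              exact sub_eq_zero.1 htj
            · exact ht i (by simp [hij, hi])
          | succ e ihe =>
            intro he
            obtain ⟨G', hG', a', s', ha'⟩ := ihe (by omega)
            exact ⟨_, hsym G' hG' j _, a', s', B03_double j J G' s' a' e he ha'⟩
        obtain ⟨G', hG', a', s', ha'⟩ := hQ k le_rfl
        exact ⟨G', hG', a', s', fun t ht => ha' t ht (ZMod.val_lt _)⟩
    obtain ⟨G, hGm, a, s, ha⟩ := hP univ
    have hGu : G = fun _ => s := funext fun t => ha t fun i hi => absurd (mem_univ i) hi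
    rw [← hGm, hGu]
    simp only [hF, prod_const, card_univ]
    rw [div_le_one (pow_pos (hN s) _)]
    exact hc s
  have h := (hmax' τ).trans key
  simp only [hF] at h
  rwa [div_le_one (hpr τ)] at h

end Pool.Agent.COR
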