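import Pool.Agent.Lib_MP_2c424f_cor.Defs
import Pool.Agent.Lib_MP_2c424f_lo.Expec
import Pool.Agent.Lib_MP_2c424f_lo.Dev
import Pool.Agent.Lib_MP_2c424f_lo.BSum

/-!
# All blocks unbalanced (piece S04, (S4))

`q` even, so `q1 q = q2 q = q/2`.  Fix a block `t`; no colour is bad, so `c ∉ AL f t` means `lab1 f t c`; `lab0` and
`lab1` exclude each other (`mb ≤ mj ≤ dl q < 1 - dl q`), so `#{c : lab1} = q - |AL| ≠ q/2`.  For an odd point `v` of the
block with `zz f v c = 1(lab1 f t c)` for all `c`: `av f v = ∑_c zz = #{c : lab1} ≠ q/2` (`av_eq`).  So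
`1(av f v = q/2) ≤ ∑_c |zz f v c - 1(lab1 f t c)|`, whose `EB`-mean is `∑_c dev f t c` (`dev_lab1`, `dev_not`, `mt`).
Sum over `t`: `sum_EB` on the left, `dev_sum` (no bad blocks) and `IQ_le_Loss` on the right:
`(2/2^d) #{v odd : av = q/2} ≤ 10 d ∑_c (II + QQ)/2^d ≤ 60 d q Loss / 2^d`.  `avn_le_Loss`: `#{v odd : av ≠ q/2} ≤ 4 q² Loss`.
Sum: `N/2 ≤ (30 d q + 4 q²) Loss ≤ 34 d q Loss` (`q ≤ d`).
-/

set_option autoImplicit false

open Finset

namespace Pool.Agent.COR

open Pool.Agent.LO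

variable {d k q : ℕ}

open scoped Classical in
private theorem S04_card (hq : 2 ≤ q) (hqe : Even q) (hd : 1 ≤ d) {f : Site d (k + 1) → Fin q}
    {t : Blk d k} (h : unb t f) : (univ.filter fun c => lab1 f t c).card ≠ q / 2 := by
  obtain ⟨hb, hA⟩ := h
  have h1 : ∀ c, lab1 f t c ↔ ¬ lab0 f t c := by
    intro c
    constructor
    · intro h1 h0
      have h2 : mb f t c ≤ dl q := (mb_le_mj f t c ⟨0, hd⟩).trans (h0 ⟨0, hd⟩)
      have h3 : 1 - dl q ≤ mb f t c := h1
      have h4 : dl q ≤ 1 / 200 := by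
        unfold dl
        have h5 : (2 : ℝ) ≤ q := by exact_mod_cast hq
        rw [div_le_div_iff₀ (by positivity) (by norm_num)]
        linarith
      linarith
    · intro h0
      by_contra h1
      exact hb c ⟨h1, h0⟩
  have h2 : (univ.filter fun c => lab1 f t c) = (AL f t)ᶜ := by
    ext c
    unfold AL
    simp only [mem_filter, mem_univ, true_and, mem_compl]
    exact h1 c
  rw [h2, Finset.card_compl, Fintype.card_fin]
  obtain ⟨m, hm⟩ := hqe
  have h3 : (AL f t).card ≤ q := by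
    have := Finset.card_le_univ (AL f t)
    rwa [Fintype.card_fin] at this
  omega

open scoped Classical in
private theorem S04_pt (hq : 2 ≤ q) (hqe : Even q) (hd : 1 ≤ d) {f : Site d (k + 1) → Fin q}
    {t : Blk d k} (h : unb t f) (v : Site d (k + 1)) :
    (if av f v = q1 q ∨ av f v = q2 q then (1 : ℝ) else 0) ≤
      ∑ c, |zz f v c - (if lab1 f t c then 1 else 0)| := by
  split_ifs with hv
  · have h1 := S04_card hq hqe hd h
    have h2 : av f v = q / 2 := by
      obtain ⟨m, hm⟩ := hqe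
      unfold q1 q2 at hv
      omega
    have h3 : (1 : ℝ) ≤ |(av f v : ℝ) - ((univ.filter fun c => lab1 f t c).card : ℝ)| := by
      have h4 : (1 : ℤ) ≤ |(av f v : ℤ) - ((univ.filter fun c => lab1 f t c).card : ℤ)| := by
        apply Int.one_le_abs
        omega
      exact_mod_cast h4
    refine h3.trans ?_
    rw [av_eq, Finset.card_filter]
    push_cast
    rw [← Finset.sum_sub_distrib]
    exact Finset.abs_sum_le_sum_abs _ _
  · exact Finset.sum_nonneg fun c _ => abs_nonneg _

theorem unb_loss (hd : 1 ≤ d) (hq : 2 ≤ q) (hqe : Even q) (hqd : q ≤ d) {f : Site d (k + 1) → Fin q} (hf : Prp f)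
    (h : ∀ t : Blk d k, unb t f) : NN d (k + 1) / (68 * d * q) ≤ Loss f := by
  classical
  have hdR : (1 : ℝ) ≤ d := by exact_mod_cast hd
  have hqR : (2 : ℝ) ≤ q := by exact_mod_cast hq
  have hqdR : (q : ℝ) ≤ d := by exact_mod_cast hqd
  have hL0 : 0 ≤ Loss f := by
    have h1 := IQ_le_Loss hq hf
    have h2 : 0 ≤ ∑ c, (II f c + QQ f c) :=
      Finset.sum_nonneg fun c _ => add_nonneg (II_nonneg' f c) (QQ_nonneg' f c)
    by_contra hcon
    push Not at hcon
    have h3 : 6 * (q : ℝ) * Loss f < 0 := by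
      have : 0 < 6 * (q : ℝ) := by linarith
      nlinarith
    linarith
  -- one block
  have hblk : ∀ t : Blk d k, EB (fun a b => if av f (pt t a b) = q1 q ∨ av f (pt t a b) = q2 q
      then (1 : ℝ) else 0) ≤ ∑ c, dev f t c := by
    intro t
    refine (EB_mono fun a b _ => S04_pt hq hqe hd (h t) (pt t a b)).trans (le_of_eq ?_)
    rw [EB_sum]
    rfl
  have hsum := Finset.sum_le_sum fun (t : Blk d k) (_ : t ∈ univ) => hblk t
  rw [sum_EB hd (fun v => if av f v = q1 q ∨ av f v = q2 q then (1 : ℝ) else 0),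
    Finset.sum_comm] at hsum
  have hdev : ∑ c, ∑ t : Blk d k, dev f t c ≤ 10 * d / 2 ^ d * (6 * q * Loss f) := by
    calc ∑ c, ∑ t : Blk d k, dev f t c
        ≤ ∑ c, (10 * d * (II f c + QQ f c) / 2 ^ d) := by
          refine Finset.sum_le_sum fun c _ => ?_
          refine (dev_sum hd (by omega) f c).trans (le_of_eq ?_)
          have h1 : ∑ t : Blk d k, (if bad c t f then (1 : ℝ) else 0) = 0 :=
            Finset.sum_eq_zero fun t _ => if_neg ((h t).1 c)
          rw [h1, add_zero]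
      _ = 10 * d / 2 ^ d * ∑ c, (II f c + QQ f c) := by
          rw [Finset.mul_sum]
          exact Finset.sum_congr rfl fun c _ => by ring
      _ ≤ 10 * d / 2 ^ d * (6 * q * Loss f) :=
          mul_le_mul_of_nonneg_left (IQ_le_Loss hq hf) (by positivity)
  have h2d : (0 : ℝ) < 2 ^ d := by positivity
  have hG : ∑ v ∈ ods d (k + 1), (if av f v = q1 q ∨ av f v = q2 q then (1 : ℝ) else 0) ≤
      30 * d * q * Loss f := by
    have h1 := hsum.trans hdev
    have h2 : 2 / 2 ^ d * ∑ v ∈ ods d (k + 1),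
        (if av f v = q1 q ∨ av f v = q2 q then (1 : ℝ) else 0) ≤
        2 / 2 ^ d * (30 * d * q * Loss f) := by
      refine h1.trans (le_of_eq ?_)
      ring
    exact le_of_mul_le_mul_left h2 (by positivity)
  have hN := avn_le_Loss hq hf
  have hcard : NN d (k + 1) / 2 = ∑ v ∈ ods d (k + 1),
      ((if av f v = q1 q ∨ av f v = q2 q then (1 : ℝ) else 0) +
        (if ¬ (av f v = q1 q ∨ av f v = q2 q) then (1 : ℝ) else 0)) := by
    rw [← card_ods hd (Nat.le_add_left 1 k), Finset.card_eq_sum_ones]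
    push_cast
    refine Finset.sum_congr rfl fun v _ => ?_
    by_cases hv : av f v = q1 q ∨ av f v = q2 q
    · rw [if_pos hv, if_neg (not_not.2 hv), add_zero]
    · rw [if_neg hv, if_pos hv, zero_add]
  rw [Finset.sum_add_distrib] at hcard
  rw [div_le_iff₀ (by positivity)]
  have h5 : 4 * (q : ℝ) ^ 2 * Loss f ≤ 4 * d * q * Loss f := by
    have h6 : 4 * (q : ℝ) ^ 2 ≤ 4 * d * q := by nlinarith
    exact mul_le_mul_of_nonneg_right h6 hL0
  nlinarith

end Pool.Agent.COR
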