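import Pool.Agent.Lib_MP_2c424f_cor.S02
import Pool.Agent.Lib_MP_2c424f_cor.S03
import Pool.Agent.Lib_MP_2c424f_cor.S04

/-!
# The constant families of types, without the faces (piece B04, (B3))

`free`: all functions, `q^N`, `N = 2^d · #blocks` (`card_site`).  For `pr` and the bad types: `∀ t, prB t f` implies `Prp f`
(every site and every step belong to a closed block: `x = pt t a b` with `sum_pt`-type bijection `BSum`, choose the bit `b j`
so that the step `(j,β)` is allowed: if `x j` is odd both steps in direction `j` are allowed, if it is even take `b j = !β`).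
`pbd45` with `l = 0` for `pr`;  `bd c`: `Loss ≥ (II + QQ)/(6q)` (`IQ_le_Loss`) and `lemB`:
`Loss ≥ dl q N/(96 q d) = N/(9600 q² d) ≥ N/d³` ;  `bt c`: `lemBT` with `θ = th d`: `Loss ≥ θ N/(96 q d) ≥ N/d^15`
(`q ≤ d/10^4`) ;  `ub`: `unb_loss`: `Loss ≥ N/(68 d q) ≥ N/d³`.  `exp (N log (q/2) - l + 3N/d^45) ≤ (Nn s)^#blocks`.
-/

set_option autoImplicit false

open Finset

namespace Pool.Agent.COR

open Pool.Agent.LO

/-- the bases of the types -/
noncomputable def Nn {d q : ℕ} : Ty d q → ℝ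
  | .free => (q : ℝ) ^ (2 ^ d)
  | .fc _ _ => Real.exp ((2 : ℝ) ^ d * ((Real.log ((q : ℝ) / 2) + 3 / ((d : ℝ) - 1) ^ 45) / 4 + 3 / 4 * Real.log q))
  | s => Real.exp ((2 : ℝ) ^ d * (Real.log ((q : ℝ) / 2) + 3 / (d : ℝ) ^ 45)) * rT s

/-- `s` is not a face type -/
def Ty.nf {d q : ℕ} : Ty d q → Prop
  | .fc _ _ => False
  | _ => True

/-- every site is `pt t a b` for every `b` -/
private theorem B04_pt {d k : ℕ} (x : Site d (k + 1)) (b : Bt d) :
    ∃ (t : Blk d k) (a : Bt d), pt t a b = x := by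
  classical
  by_contra hno
  push Not at hno
  have h := sum_pt (d := d) (k := k) (fun y b' => if y = x ∧ b' = b then (1 : ℝ) else 0)
  have h1 : ∑ t : Blk d k, ∑ a : Bt d, ∑ b' : Bt d,
      (if pt t a b' = x ∧ b' = b then (1 : ℝ) else 0) = 0 := by
    refine Finset.sum_eq_zero fun t _ => Finset.sum_eq_zero fun a _ => Finset.sum_eq_zero fun b' _ => ?_
    rw [if_neg]
    rintro ⟨h2, rfl⟩
    exact hno t a h2
  have h2 : (1 : ℝ) ≤ ∑ y : Site d (k + 1), ∑ b' : Bt d, (if y = x ∧ b' = b then (1 : ℝ) else 0) := by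
    have h3 : (1 : ℝ) ≤ ∑ b' : Bt d, (if x = x ∧ b' = b then (1 : ℝ) else 0) := by
      have h4 := Finset.single_le_sum (s := (univ : Finset (Bt d)))
        (f := fun b' => if x = x ∧ b' = b then (1 : ℝ) else 0)
        (fun b' _ => by split_ifs <;> norm_num) (mem_univ b)
      rw [if_pos ⟨rfl, rfl⟩] at h4
      exact h4
    refine h3.trans ?_
    exact Finset.single_le_sum (s := (univ : Finset (Site d (k + 1))))
      (f := fun y => ∑ b' : Bt d, (if y = x ∧ b' = b then (1 : ℝ) else 0))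
      (fun y _ => Finset.sum_nonneg fun b' _ => by split_ifs <;> norm_num) (mem_univ x)
  have h3 : (0 : ℝ) = ∑ y : Site d (k + 1), ∑ b' : Bt d, (if y = x ∧ b' = b then (1 : ℝ) else 0) :=
    h1.symm.trans h
  linarith

theorem prB_all {d k q : ℕ} {f : Site d (k + 1) → Fin q} (h : ∀ t : Blk d k, prB t f) : Prp f := by
  rintro x ⟨j, β⟩
  obtain ⟨t, a, hx⟩ := B04_pt x (fun _ => !β)
  have h1 := h t a (fun _ => !β) (j, β) (by
    unfold alw
    cases β <;> simp)
  rw [hx] at h1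
  exact h1

private theorem B04_Loss_nonneg {d k q : ℕ} (hq : 2 ≤ q) {f : Site d k → Fin q} (hf : Prp f) :
    0 ≤ Loss f := by
  have h1 := IQ_le_Loss hq hf
  have h2 : 0 ≤ ∑ c, (II f c + QQ f c) :=
    sum_nonneg fun c _ => add_nonneg (II_nonneg' f c) (QQ_nonneg' f c)
  have hq0 : (0 : ℝ) < 6 * q := by
    have : (0 : ℝ) < q := by exact_mod_cast (show 0 < q by omega)
    linarith
  by_contra hneg
  push Not at hneg
  have := mul_neg_of_pos_of_neg hq0 hneg
  linarith

private theorem B04_NN (d k : ℕ) : NN d (k + 1) = (Fintype.card (Blk d k) : ℝ) * 2 ^ d := by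
  have h : (Fintype.card (Blk d k) : ℝ) = NN d k := card_site d k
  rw [h]
  unfold NN
  rw [pow_succ, mul_pow]

private theorem B04_NN_pos (d k : ℕ) : 0 < NN d k := by
  unfold NN
  positivity

/-- the numbers -/
private theorem B04_exp (d k : ℕ) (Lg E ρ : ℝ) :
    (Real.exp ((2 : ℝ) ^ d * (Lg + 3 / E)) * Real.exp (-((2 : ℝ) ^ d * ρ))) ^ (Fintype.card (Blk d k)) =
      Real.exp (NN d (k + 1) * Lg - NN d (k + 1) * ρ + 3 * NN d (k + 1) / E) := by
  rw [← Real.exp_add, ← Real.exp_nat_mul, B04_NN]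
  congr 1
  ring

/-- the general bound -/
private theorem B04_gen {d k q : ℕ} (E : Blk d k → (Site d (k + 1) → Fin q) → Prop) (ρ : ℝ)
    (hP : ∀ f : Site d (k + 1) → Fin q, (∀ t, E t f) → Prp f)
    (hL : ∀ f : Site d (k + 1) → Fin q, (∀ t, E t f) → NN d (k + 1) * ρ ≤ Loss f)
    (hb : ∀ (A : Finset (Site d (k + 1) → Fin q)), (∀ f ∈ A, Prp f) → ∀ l : ℝ,
      (∀ f ∈ A, l ≤ Loss f) → (A.card : ℝ) ≤ Real.exp (NN d (k + 1) * Real.log ((q : ℝ) / 2) - l +
        3 * NN d (k + 1) / (d : ℝ) ^ 45)) :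
    cT (fun (_ : Unit) t f => E t f) (fun _ : Blk d k => ()) ≤
      (Real.exp ((2 : ℝ) ^ d * (Real.log ((q : ℝ) / 2) + 3 / (d : ℝ) ^ 45)) *
        Real.exp (-((2 : ℝ) ^ d * ρ))) ^ (Fintype.card (Blk d k)) := by
  classical
  rw [B04_exp]
  unfold cT
  refine hb _ ?_ _ ?_
  · intro f hf
    exact hP f (Finset.mem_filter.1 hf).2
  · intro f hf
    exact hL f (Finset.mem_filter.1 hf).2

private theorem B04_cT {d k q : ℕ} (s : Ty d q) :
    cT Ev (fun _ : Blk d k => s) = cT (fun (_ : Unit) (t : Blk d k) f => Ev s t f)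
      (fun _ : Blk d k => ()) := rfl

private theorem B04_loss {d k q : ℕ} (hq : 2 ≤ q) {θ : ℝ} {f : Site d (k + 1) → Fin q} (hf : Prp f)
    (c : Fin q) (hd : 1 ≤ d) (h : θ * NN d (k + 1) / (16 * d) ≤ II f c + QQ f c) :
    NN d (k + 1) * (θ / (96 * q * d)) ≤ Loss f := by
  have h1 := IQ_le_Loss hq hf
  have h2 : II f c + QQ f c ≤ ∑ c, (II f c + QQ f c) :=
    Finset.single_le_sum (f := fun c => II f c + QQ f c)
      (fun c _ => add_nonneg (II_nonneg' f c) (QQ_nonneg' f c)) (mem_univ c)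
  have hq0 : (0 : ℝ) < q := by exact_mod_cast (show 0 < q by omega)
  have hd0 : (0 : ℝ) < d := by exact_mod_cast hd
  have h3 : θ * NN d (k + 1) / (16 * d) ≤ 6 * q * Loss f := h.trans (h2.trans h1)
  rw [div_le_iff₀ (by positivity)] at h3
  have e : NN d (k + 1) * (θ / (96 * q * d)) = θ * NN d (k + 1) / (96 * q * d) := by ring
  rw [e, div_le_iff₀ (by positivity)]
  linarith

private theorem B04_a1 {d q : ℝ} (hq : 4 ≤ q) (hqd : q * 10000 ≤ d) :
    1 / d ^ 3 ≤ 1 / (100 * q) / (96 * q * d) := by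
  have hd : 0 < d := by linarith
  have hq0 : 0 < q := by linarith
  rw [div_div, div_le_div_iff₀ (by positivity) (by positivity)]
  have h1 : (q * 10000) * (q * 10000) ≤ d * d := mul_le_mul hqd hqd (by positivity) hd.le
  have h2 : 9600 * (q * q) ≤ d * d := by nlinarith [mul_pos hq0 hq0]
  have h3 : 9600 * (q * q) * d ≤ d * d * d := mul_le_mul_of_nonneg_right h2 hd.le
  calc 1 * (100 * q * (96 * q * d)) = 9600 * (q * q) * d := by ring
    _ ≤ d * d * d := h3
    _ = 1 * d ^ 3 := by ring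

private theorem B04_a2 {d q : ℝ} (hq : 4 ≤ q) (hqd : q * 10000 ≤ d) :
    1 / d ^ 15 ≤ 1 / d ^ 12 / (96 * q * d) := by
  have hd : 0 < d := by linarith
  have hq0 : 0 < q := by linarith
  rw [div_div, div_le_div_iff₀ (by positivity) (by positivity)]
  have h1 : 96 * q ≤ d * d := by nlinarith
  have h3 : 96 * q * d ^ 13 ≤ d * d * d ^ 13 := mul_le_mul_of_nonneg_right h1 (by positivity)
  calc 1 * (d ^ 12 * (96 * q * d)) = 96 * q * d ^ 13 := by ring
    _ ≤ d * d * d ^ 13 := h3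
    _ = 1 * d ^ 15 := by ring

private theorem B04_a3 {d q : ℝ} (hq : 4 ≤ q) (hqd : q * 10000 ≤ d) :
    1 / d ^ 3 ≤ 1 / (68 * d * q) := by
  have hd : 0 < d := by linarith
  have hq0 : 0 < q := by linarith
  rw [div_le_div_iff₀ (by positivity) (by positivity)]
  have h1 : 68 * q ≤ d * d := by nlinarith
  have h3 : 68 * q * d ≤ d * d * d := mul_le_mul_of_nonneg_right h1 hd.le
  calc 1 * (68 * d * q) = 68 * q * d := by ring
    _ ≤ d * d * d := h3
    _ = 1 * d ^ 3 := by ring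

/-- the free type -/
private theorem B04_free (d k q : ℕ) :
    cT Ev (fun _ : Blk d k => (Ty.free : Ty d q)) ≤ Nn (Ty.free : Ty d q) ^ (Fintype.card (Blk d k)) := by
  classical
  have h1 : cT Ev (fun _ : Blk d k => (Ty.free : Ty d q)) ≤
      ((Fintype.card (Site d (k + 1) → Fin q) : ℕ) : ℝ) := by
    unfold cT
    exact_mod_cast Finset.card_le_univ _
  refine h1.trans (le_of_eq ?_)
  show _ = ((q : ℝ) ^ (2 ^ d)) ^ (Fintype.card (Blk d k))
  rw [Fintype.card_fun, Fintype.card_fin, ← pow_mul]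
  push_cast
  congr 1
  have h2 : ((Fintype.card (Site d (k + 1)) : ℕ) : ℝ) = ((2 ^ d * Fintype.card (Blk d k) : ℕ) : ℝ) := by
    rw [card_site, B04_NN]
    push_cast
    ring
  exact_mod_cast h2

theorem const_nf : ∃ d₀ : ℕ, ∀ d : ℕ, d₀ ≤ d → ∀ q : ℕ, AdmC d q → ∀ k : ℕ, d ^ 46 ≤ 2 ^ k →
    ∀ s : Ty d q, s.nf → cT Ev (fun _ : Blk d k => s) ≤ Nn s ^ (Fintype.card (Blk d k)) := by
  obtain ⟨d₀, h0⟩ := pbd45
  refine ⟨max d₀ 100, ?_⟩
  intro d hd q hA k hk s hs
  have hd1 : d₀ ≤ d := (le_max_left _ _).trans hd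
  have hd2 : 100 ≤ d := (le_max_right _ _).trans hd
  obtain ⟨hq4, hqe, hqd⟩ := hA
  have hdR : (100 : ℝ) ≤ d := by exact_mod_cast hd2
  have hqR : (4 : ℝ) ≤ q := by exact_mod_cast hq4
  have hlog : 1 ≤ Real.log d := by
    have h1 : Real.exp 1 ≤ d := Real.exp_one_lt_d9.le.trans (by linarith)
    have h2 := Real.log_le_log (Real.exp_pos 1) h1
    rwa [Real.log_exp] at h2
  have hqd1 : (q : ℝ) * 10000 ≤ d := by
    have h1 : (q : ℝ) * 10000 ≤ q * (10000 * Real.log d) :=
      mul_le_mul_of_nonneg_left (by linarith) (by linarith)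
    exact h1.trans hqd
  have hAdm : Adm6 d q := by
    refine ⟨by omega, Or.inl hqe, ?_⟩
    have h1 : (q : ℝ) * (6000 * Real.log d) ≤ q * (10000 * Real.log d) :=
      mul_le_mul_of_nonneg_left (by linarith) (by linarith)
    exact h1.trans hqd
  have hk' : d ^ 46 ≤ 2 ^ (k + 1) := hk.trans (Nat.pow_le_pow_right (by norm_num) (Nat.le_succ k))
  have hb := h0 d hd1 q hAdm hqe (k + 1) hk'
  have hq2 : 2 ≤ q := by omega
  have hd0 : 1 ≤ d := by omega
  have hNp := (B04_NN_pos d (k + 1)).le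
  cases s with
  | free => exact B04_free d k q
  | pr =>
    rw [B04_cT]
    have h1 := B04_gen (d := d) (k := k) (q := q) (fun t f => Ev (Ty.pr : Ty d q) t f) 0
      (fun f hf => prB_all hf) (fun f hf => by
        rw [mul_zero]
        exact B04_Loss_nonneg hq2 (prB_all hf)) hb
    refine h1.trans (le_of_eq ?_)
    congr 1
    show _ = Real.exp ((2 : ℝ) ^ d * (Real.log ((q : ℝ) / 2) + 3 / (d : ℝ) ^ 45)) * 1
    rw [mul_zero, neg_zero, Real.exp_zero]
  | bd c =>
    rw [B04_cT]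
    have h1 := B04_gen (d := d) (k := k) (q := q) (fun t f => Ev (Ty.bd c : Ty d q) t f) (1 / (d : ℝ) ^ 3)
      (fun f hf => prB_all fun t => (hf t).1) (fun f hf => by
        have hP : Prp f := prB_all fun t => (hf t).1
        have h2 := B04_loss hq2 hP c hd0 (lemB hd0 (by omega) f c fun t => (hf t).2)
        refine le_trans (mul_le_mul_of_nonneg_left ?_ hNp) h2
        exact B04_a1 hqR hqd1) hb
    refine h1.trans (le_of_eq ?_)
    congr 1
    show _ = Real.exp ((2 : ℝ) ^ d * (Real.log ((q : ℝ) / 2) + 3 / (d : ℝ) ^ 45)) * r1 d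
    unfold r1
    congr 3
    ring
  | bt c =>
    rw [B04_cT]
    have hth0 : 0 < th d := by
      unfold th
      positivity
    have hth1 : th d ≤ 1 / 2 := by
      unfold th
      rw [div_le_div_iff₀ (by positivity) (by norm_num)]
      have h5 : (2 : ℝ) ≤ (d : ℝ) ^ 12 := by
        calc (2 : ℝ) ≤ (d : ℝ) ^ 1 := by
              rw [pow_one]
              linarith
          _ ≤ (d : ℝ) ^ 12 := pow_le_pow_right₀ (by linarith) (by norm_num)
      linarith
    have h1 := B04_gen (d := d) (k := k) (q := q) (fun t f => Ev (Ty.bt c : Ty d q) t f) (1 / (d : ℝ) ^ 15)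
      (fun f hf => prB_all fun t => (hf t).1) (fun f hf => by
        have hP : Prp f := prB_all fun t => (hf t).1
        have h2 := B04_loss hq2 hP c hd0 (lemBT hd0 (by omega) hth0 hth1 f c fun t => (hf t).2)
        refine le_trans (mul_le_mul_of_nonneg_left ?_ hNp) h2
        exact B04_a2 hqR hqd1) hb
    refine h1.trans (le_of_eq ?_)
    congr 1
    show _ = Real.exp ((2 : ℝ) ^ d * (Real.log ((q : ℝ) / 2) + 3 / (d : ℝ) ^ 45)) * r2 d
    unfold r2
    congr 3
    ring
  | ub =>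
    rw [B04_cT]
    have hqd2 : q ≤ d := by
      have : (q : ℝ) ≤ d := by linarith
      exact_mod_cast this
    have h1 := B04_gen (d := d) (k := k) (q := q) (fun t f => Ev (Ty.ub : Ty d q) t f) (1 / (d : ℝ) ^ 3)
      (fun f hf => prB_all fun t => (hf t).1) (fun f hf => by
        have hP : Prp f := prB_all fun t => (hf t).1
        have h2 := unb_loss hd0 hq2 hqe hqd2 hP fun t => (hf t).2
        refine le_trans (mul_le_mul_of_nonneg_left (B04_a3 hqR hqd1) hNp) ?_
        rw [mul_one_div]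
        exact h2) hb
    refine h1.trans (le_of_eq ?_)
    congr 1
    show _ = Real.exp ((2 : ℝ) ^ d * (Real.log ((q : ℝ) / 2) + 3 / (d : ℝ) ^ 45)) * r1 d
    unfold r1
    congr 3
    ring
  | fc j m => exact hs.elim

end Pool.Agent.COR
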