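import Pool.Agent.Lib_MP_2c424f_cor.Defs

/-!
# Counting functions which are proper on parallel planes (piece B05, (B3))

Dimension `d + 1`, direction `j`.  If `∀ t, fcE j m t f` then `f` is proper on the edges inside every plane
`x j = c` with `c.val % 4 = 2·m` (`m = true` for `2`): for `x` in the plane and a step `σ`, `σ.1 ≠ j`, there is a closed block
containing `x` and `x + sv σ` (choose the bits as in `prB_all`).  The restriction of `f` to such a plane is a proper colouring of
the torus of dimension `d` (`Fin.succAbove j`), there are `2^(k+1)/4` such planes and the values off these planes are free: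
`cT Ev (const) ≤ (ZZ d (k+1) q)^(2^(k+1)/4) · q^(N (3/4))`, `N = (2^(k+1))^(d+1)`.
-/

set_option autoImplicit false

open Finset

namespace Pool.Agent.COR

open Pool.Agent.LO

/-- bits of one coordinate -/
private theorem B05_coord {k : ℕ} (w : ZMod (2 ^ (k + 1))) (s : Bool) :
    ∃ (u : ZMod (2 ^ k)) (α β : Bool),
      ((2 * u.val : ℕ) : ZMod (2 ^ (k + 1))) + (if α then 1 else 0) + (if β then 1 else 0) = w ∧
        (if s then ¬ (α = true ∧ β = true) else (α = true ∨ β = true)) := by
  have hw : ((w.val : ℕ) : ZMod (2 ^ (k + 1))) = w := ZMod.natCast_zmod_val w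
  have hlt : w.val < 2 * 2 ^ k := (ZMod.val_lt w).trans_eq (pow_succ' 2 k)
  rcases Nat.even_or_odd' w.val with ⟨n, hn | hn⟩
  · cases s with
    | false =>
      refine ⟨((n + 2 ^ k - 1 : ℕ) : ZMod (2 ^ k)), true, true, ?_, by simp⟩
      rw [ZMod.val_natCast, ← Nat.mul_mod_mul_left, ← pow_succ', ZMod.natCast_mod]
      have h1 : 2 * (n + 2 ^ k - 1) + 2 = w.val + 2 ^ (k + 1) := by
        have h3 : 0 < 2 ^ k := by positivity
        have h4 : 2 ^ (k + 1) = 2 * 2 ^ k := pow_succ' 2 k
        omega
      have h2 : ((2 * (n + 2 ^ k - 1) + 2 : ℕ) : ZMod (2 ^ (k + 1))) = w := by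
        rw [h1, Nat.cast_add, ZMod.natCast_self, add_zero, hw]
      rw [← h2]
      push_cast
      simp only [if_true]
      ring
    | true =>
      refine ⟨((n : ℕ) : ZMod (2 ^ k)), false, false, ?_, by simp⟩
      rw [ZMod.val_natCast, Nat.mod_eq_of_lt (by omega), ← hn, hw]
      simp
  · refine ⟨((n : ℕ) : ZMod (2 ^ k)), true, false, ?_, by simp⟩
    rw [ZMod.val_natCast, Nat.mod_eq_of_lt (by omega)]
    have h2 : ((2 * n + 1 : ℕ) : ZMod (2 ^ (k + 1))) = w := by rw [← hn, hw]
    rw [← h2]
    push_cast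
    simp

/-- every site and step belong to a closed block -/
private theorem B05_pt {D k : ℕ} (x : Site D (k + 1)) (σ : Stp D) :
    ∃ (t : Blk D k) (a b : Bt D), pt t a b = x ∧ alw a b σ := by
  choose u α β h1 h2 using fun (i : Fin D) => B05_coord (x i) σ.2
  refine ⟨u, α, β, ?_, ?_⟩
  · funext i
    exact h1 i
  · exact h2 σ.1

private theorem B05_ins {d k : ℕ} (j : Fin (d + 1)) (a : ZMod (2 ^ (k + 1))) (y : Site d (k + 1)) (σ : Stp d) :
    (Fin.insertNth (α := fun _ => ZMod (2 ^ (k + 1))) j a (y + sv σ) : Site (d + 1) (k + 1)) =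
      (Fin.insertNth (α := fun _ => ZMod (2 ^ (k + 1))) j a y : Site (d + 1) (k + 1)) +
        sv ((j.succAbove σ.1, σ.2) : Stp (d + 1)) := by
  funext i
  rcases Fin.eq_self_or_eq_succAbove j i with rfl | ⟨i', rfl⟩
  · rw [Pi.add_apply, Fin.insertNth_apply_same, Fin.insertNth_apply_same]
    unfold sv
    rw [Pi.single_eq_of_ne (Fin.succAbove_ne _ _).symm, add_zero]
  · rw [Pi.add_apply, Fin.insertNth_apply_succAbove, Fin.insertNth_apply_succAbove, Pi.add_apply]
    unfold sv
    congr 1
    by_cases h : i' = σ.1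
    · subst h
      rw [Pi.single_eq_same, Pi.single_eq_same]
    · rw [Pi.single_eq_of_ne h, Pi.single_eq_of_ne]
      exact fun h' => h (Fin.succAbove_right_injective h')

theorem const_fc_card {d k q : ℕ} (hk : 1 ≤ k) (hq : 1 ≤ q) (j : Fin (d + 1)) (m : Bool) :
    cT Ev (fun _ : Blk (d + 1) k => (Ty.fc j m : Ty (d + 1) q)) ≤
      ZZ d (k + 1) q ^ (2 ^ (k - 1)) * (q : ℝ) ^ (3 * 2 ^ (k - 1) * (2 ^ (k + 1)) ^ d) := by
  classical
  have hn4 : 4 * 2 ^ (k - 1) = 2 ^ (k + 1) := by
    have : k + 1 = (k - 1) + 2 := by omega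
    rw [this, pow_add]
    ring
  set n : ℕ := 2 ^ (k - 1) with hn
  set r : ℕ := if m then 2 else 0 with hr
  have hr4 : r < 4 := by
    rw [hr]
    split_ifs <;> norm_num
  set pl : Fin n → ZMod (2 ^ (k + 1)) := fun c => ((4 * c.val + r : ℕ) : ZMod (2 ^ (k + 1))) with hpl
  have hplv : ∀ c, (pl c).val = 4 * c.val + r := by
    intro c
    rw [hpl]
    simp only
    rw [ZMod.val_natCast, Nat.mod_eq_of_lt]
    have := c.isLt
    omega
  set Off : Type := {a : ZMod (2 ^ (k + 1)) // a.val % 4 ≠ r} with hOff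
  let Φ : (Site (d + 1) (k + 1) → Fin q) → (Fin n → (Site d (k + 1) → Fin q)) × (Off → Site d (k + 1) → Fin q) :=
    fun f => (fun c y => f (Fin.insertNth (α := fun _ => ZMod (2 ^ (k + 1))) j (pl c) y),
      fun a y => f (Fin.insertNth (α := fun _ => ZMod (2 ^ (k + 1))) j a.1 y))
  have hΦ : Function.Injective Φ := by
    intro f g hfg
    funext x
    have h1 : ∀ c y, f (Fin.insertNth (α := fun _ => ZMod (2 ^ (k + 1))) j (pl c) y) =
        g (Fin.insertNth (α := fun _ => ZMod (2 ^ (k + 1))) j (pl c) y) := fun c y =>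
      congrFun (congrFun (congrArg Prod.fst hfg) c) y
    have h2 : ∀ (a : Off) y, f (Fin.insertNth (α := fun _ => ZMod (2 ^ (k + 1))) j a.1 y) =
        g (Fin.insertNth (α := fun _ => ZMod (2 ^ (k + 1))) j a.1 y) := fun a y =>
      congrFun (congrFun (congrArg Prod.snd hfg) a) y
    have hx : x = Fin.insertNth (α := fun _ => ZMod (2 ^ (k + 1))) j (x j) (fun i => x (j.succAbove i)) := by
      funext i
      rcases Fin.eq_self_or_eq_succAbove j i with rfl | ⟨i', rfl⟩
      · rw [Fin.insertNth_apply_same]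
      · rw [Fin.insertNth_apply_succAbove]
    by_cases hxr : (x j).val % 4 = r
    · have hlt : (x j).val / 4 < n := by
        have := ZMod.val_lt (x j)
        omega
      have hp : pl ⟨(x j).val / 4, hlt⟩ = x j := by
        apply ZMod.val_injective
        rw [hplv]
        simp only
        omega
      have := h1 ⟨(x j).val / 4, hlt⟩ (fun i => x (j.succAbove i))
      rw [hp, ← hx] at this
      exact this
    · have := h2 ⟨x j, hxr⟩ (fun i => x (j.succAbove i))
      simp only at this
      rw [← hx] at this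
      exact this
  have hcardOff : Fintype.card Off ≤ 3 * n := by
    have h3 : Fintype.card {s : Fin 4 // s.val ≠ r} = 3 := by
      rw [hr]
      cases m <;> decide
    have h4 : Fintype.card Off ≤ Fintype.card (Fin n × {s : Fin 4 // s.val ≠ r}) := by
      refine Fintype.card_le_of_injective
        (fun a : Off => ((⟨a.1.val / 4, by
            have := ZMod.val_lt a.1
            omega⟩ : Fin n), (⟨⟨a.1.val % 4, Nat.mod_lt _ (by norm_num)⟩, a.2⟩ : {s : Fin 4 // s.val ≠ r}))) ?_
      intro a b hab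
      simp only [Prod.mk.injEq, Fin.mk.injEq, Subtype.mk.injEq] at hab
      apply Subtype.ext
      apply ZMod.val_injective
      omega
    rw [Fintype.card_prod, h3, Fintype.card_fin] at h4
    omega
  have hcount : (univ.filter fun f : Site (d + 1) (k + 1) → Fin q =>
      ∀ t : Blk (d + 1) k, Ev (Ty.fc j m : Ty (d + 1) q) t f).card ≤
      ((Fintype.piFinset fun _ : Fin n => prps d (k + 1) q) ×ˢ
        (univ : Finset (Off → Site d (k + 1) → Fin q))).card := by
    refine Finset.card_le_card_of_injOn Φ ?_ hΦ.injOn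
    intro f hf
    rw [Finset.mem_coe, Finset.mem_filter] at hf
    rw [Finset.mem_coe, Finset.mem_product]
    refine ⟨?_, Finset.mem_univ _⟩
    rw [Fintype.mem_piFinset]
    intro c
    unfold prps
    rw [Finset.mem_filter]
    refine ⟨Finset.mem_univ _, ?_⟩
    intro y σ
    change f (Fin.insertNth (α := fun _ => ZMod (2 ^ (k + 1))) j (pl c) (y + sv σ)) ≠
      f (Fin.insertNth (α := fun _ => ZMod (2 ^ (k + 1))) j (pl c) y)
    rw [B05_ins]
    obtain ⟨t, a, b, hpt, halw⟩ := B05_pt
      (Fin.insertNth (α := fun _ => ZMod (2 ^ (k + 1))) j (pl c) y : Site (d + 1) (k + 1))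
      ((j.succAbove σ.1, σ.2) : Stp (d + 1))
    have h := hf.2 t a b ((j.succAbove σ.1, σ.2) : Stp (d + 1)) halw (Fin.succAbove_ne _ _)
    rw [hpt] at h
    apply h
    rw [Fin.insertNth_apply_same, hplv]
    omega
  have hcard2 : ((Fintype.piFinset fun _ : Fin n => prps d (k + 1) q) ×ˢ
        (univ : Finset (Off → Site d (k + 1) → Fin q))).card =
      (prps d (k + 1) q).card ^ n * q ^ ((2 ^ (k + 1)) ^ d * Fintype.card Off) := by
    rw [Finset.card_product, Fintype.card_piFinset, Finset.prod_const, Finset.card_univ, Fintype.card_fin,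
      Finset.card_univ, Fintype.card_fun, Fintype.card_fun, Fintype.card_fun, Fintype.card_fin, Fintype.card_fin,
      ZMod.card, ← pow_mul]
  have hfin : (univ.filter fun f : Site (d + 1) (k + 1) → Fin q =>
      ∀ t : Blk (d + 1) k, Ev (Ty.fc j m : Ty (d + 1) q) t f).card ≤
      (prps d (k + 1) q).card ^ n * q ^ (3 * n * (2 ^ (k + 1)) ^ d) := by
    refine hcount.trans (hcard2.le.trans ?_)
    refine Nat.mul_le_mul_left _ (Nat.pow_le_pow_right hq ?_)
    rw [mul_comm]
    exact Nat.mul_le_mul_right _ hcardOff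
  unfold cT ZZ
  have : ((univ.filter fun f : Site (d + 1) (k + 1) → Fin q =>
      ∀ t : Blk (d + 1) k, Ev (Ty.fc j m : Ty (d + 1) q) t f).card : ℝ) ≤
      (((prps d (k + 1) q).card ^ n * q ^ (3 * n * (2 ^ (k + 1)) ^ d) : ℕ) : ℝ) := by
    exact_mod_cast hfin
  push_cast at this
  convert this using 2

end Pool.Agent.COR
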