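import Pool.Agent.Lib_MP_2c424f_cor.B04
import Pool.Agent.Lib_MP_2c424f_cor.B05

/-!
# All constant families (piece B06, (B3))

`const_nf` and `const_fc_card` (for `d - 1`), `pbd45` with `l = 0` in dimension `d - 1` (`q · 6000 log (d-1) ≤ d - 1` from
`AdmC d q` for large `d`; `(d-1)^46 ≤ 2^(k+1)`): `ZZ (d-1) (k+1) q ≤ exp (N' (log (q/2) + 3/(d-1)^45))`, `N' = 2^((k+1)(d-1))`,
`2^(k-1) N' = N/4`, `N = 2^d #blocks`.
-/

set_option autoImplicit false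

open Finset

namespace Pool.Agent.COR

open Pool.Agent.LO

private theorem B06_Loss {d k q : ℕ} (hq : 2 ≤ q) {f : Site d k → Fin q} (hf : Prp f) :
    0 ≤ Loss f := by
  have h1 := IQ_le_Loss hq hf
  have h2 : 0 ≤ ∑ c, (II f c + QQ f c) :=
    sum_nonneg fun c _ => add_nonneg (II_nonneg' f c) (QQ_nonneg' f c)
  have hq0 : (0 : ℝ) < 6 * q := by
    have : (0 : ℝ) < q := by exact_mod_cast (show 0 < q by omega)
    positivity
  have h3 : 0 ≤ 6 * (q : ℝ) * Loss f := h2.trans h1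
  exact nonneg_of_mul_nonneg_right h3 hq0

private theorem B06_zz : ∃ d₀ : ℕ, ∀ d : ℕ, d₀ ≤ d → ∀ q : ℕ, Adm6 d q → Even q → ∀ k : ℕ,
    d ^ 46 ≤ 2 ^ k →
    ZZ d k q ≤ Real.exp (NN d k * (Real.log ((q : ℝ) / 2) + 3 / (d : ℝ) ^ 45)) := by
  classical
  obtain ⟨d₀, h0⟩ := pbd45
  refine ⟨d₀, fun d hd q hA hE k hk => ?_⟩
  have hp : ∀ f ∈ prps d k q, Prp f := fun f hf => by
    unfold prps at hf
    exact (Finset.mem_filter.1 hf).2
  have h1 := h0 d hd q hA hE k hk (prps d k q) hp 0 (fun f hf => B06_Loss hA.1 (hp f hf))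
  have e : NN d k * Real.log ((q : ℝ) / 2) - 0 + 3 * NN d k / (d : ℝ) ^ 45 =
      NN d k * (Real.log ((q : ℝ) / 2) + 3 / (d : ℝ) ^ 45) := by ring
  rw [e] at h1
  exact h1

private theorem B06_adm {e q : ℕ} (he : 2 ≤ e) (hA : AdmC (e + 1) q) : Adm6 e q := by
  obtain ⟨h4, hE, hl⟩ := hA
  refine ⟨by omega, Or.inl hE, ?_⟩
  have he' : (2 : ℝ) ≤ e := by exact_mod_cast he
  have hlog : Real.log (e : ℝ) ≤ Real.log ((e + 1 : ℕ) : ℝ) := by
    apply Real.log_le_log (by linarith)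
    push_cast
    linarith
  have hq0 : (0 : ℝ) ≤ q := Nat.cast_nonneg q
  have h1 : (q : ℝ) * Real.log (e : ℝ) ≤ (q : ℝ) * Real.log ((e + 1 : ℕ) : ℝ) :=
    mul_le_mul_of_nonneg_left hlog hq0
  push_cast at hl h1
  nlinarith

private theorem B06_k {e k : ℕ} (he : 2 ≤ e) (hk : (e + 1) ^ 46 ≤ 2 ^ k) : 1 ≤ k := by
  by_contra hcon
  have h1 : k = 0 := by omega
  rw [h1, pow_zero] at hk
  have h2 : 2 ^ 46 ≤ (e + 1) ^ 46 := Nat.pow_le_pow_left (by omega) 46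
  norm_num at h2
  omega

private theorem B06_fc {e k q : ℕ} (hk : 1 ≤ k) (hq : 1 ≤ q)
    (hZ : ZZ e (k + 1) q ≤
      Real.exp (NN e (k + 1) * (Real.log ((q : ℝ) / 2) + 3 / (e : ℝ) ^ 45)))
    (j : Fin (e + 1)) (m : Bool) :
    cT Ev (fun _ : Blk (e + 1) k => (Ty.fc j m : Ty (e + 1) q)) ≤
      Nn (Ty.fc j m : Ty (e + 1) q) ^ (Fintype.card (Blk (e + 1) k)) := by
  obtain ⟨l, rfl⟩ : ∃ l, k = l + 1 := ⟨k - 1, by omega⟩
  have h1 := const_fc_card (q := q) hk hq j m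
  refine h1.trans ?_
  have hcard : Fintype.card (Blk (e + 1) (l + 1)) = (2 ^ (l + 1)) ^ (e + 1) := by
    simp [ZMod.card]
  have hq0 : (0 : ℝ) < q := by exact_mod_cast (show 0 < q by omega)
  have hZ0 : 0 ≤ ZZ e (l + 1 + 1) q := by unfold ZZ; positivity
  have hNn : Nn (Ty.fc j m : Ty (e + 1) q) = Real.exp ((2 : ℝ) ^ (e + 1) *
      ((Real.log ((q : ℝ) / 2) + 3 / (e : ℝ) ^ 45) / 4 + 3 / 4 * Real.log q)) := by
    show Real.exp ((2 : ℝ) ^ (e + 1) * ((Real.log ((q : ℝ) / 2) +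
      3 / (((e + 1 : ℕ) : ℝ) - 1) ^ 45) / 4 + 3 / 4 * Real.log q)) = _
    have h2 : ((e + 1 : ℕ) : ℝ) - 1 = e := by push_cast; ring
    rw [h2]
  rw [hNn, hcard, ← Real.exp_nat_mul]
  have h3 : (q : ℝ) ^ (3 * 2 ^ (l + 1 - 1) * (2 ^ (l + 1 + 1)) ^ e) =
      Real.exp (((3 * 2 ^ l * (2 ^ (l + 1 + 1)) ^ e : ℕ) : ℝ) * Real.log q) := by
    rw [Real.exp_nat_mul, Real.exp_log hq0, Nat.add_sub_cancel]
  have h4 : ZZ e (l + 1 + 1) q ^ (2 ^ (l + 1 - 1)) ≤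
      Real.exp (((2 ^ l : ℕ) : ℝ) *
        (NN e (l + 1 + 1) * (Real.log ((q : ℝ) / 2) + 3 / (e : ℝ) ^ 45))) := by
    rw [Real.exp_nat_mul, Nat.add_sub_cancel]
    exact pow_le_pow_left₀ hZ0 hZ _
  rw [h3]
  refine (mul_le_mul_of_nonneg_right h4 (Real.exp_pos _).le).trans (le_of_eq ?_)
  rw [← Real.exp_add]
  congr 1
  unfold NN
  have h5 : (((2 ^ (l + 1)) ^ (e + 1) : ℕ) : ℝ) * (2 : ℝ) ^ (e + 1) =
      4 * 2 ^ l * (2 ^ (l + 1 + 1)) ^ e := by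
    push_cast
    rw [← mul_pow, ← pow_succ, pow_succ]
    ring
  rw [← mul_assoc (((2 ^ (l + 1)) ^ (e + 1) : ℕ) : ℝ), h5]
  push_cast
  ring

theorem const_le : ∃ d₀ : ℕ, ∀ d : ℕ, d₀ ≤ d → ∀ q : ℕ, AdmC d q → ∀ k : ℕ, d ^ 46 ≤ 2 ^ k →
    ∀ s : Ty d q, cT Ev (fun _ : Blk d k => s) ≤ Nn s ^ (Fintype.card (Blk d k)) := by
  obtain ⟨d₁, h1⟩ := const_nf
  obtain ⟨d₂, h2⟩ := B06_zz
  refine ⟨max (max d₁ (d₂ + 1)) 3, fun d hd q hA k hk s => ?_⟩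
  have hd1 : d₁ ≤ d := (le_max_left _ _).trans ((le_max_left _ _).trans hd)
  have hd2 : d₂ + 1 ≤ d := (le_max_right _ _).trans ((le_max_left _ _).trans hd)
  have hd3 : 3 ≤ d := (le_max_right _ _).trans hd
  cases s with
  | free => exact h1 d hd1 q hA k hk _ trivial
  | pr => exact h1 d hd1 q hA k hk _ trivial
  | bd c => exact h1 d hd1 q hA k hk _ trivial
  | bt c => exact h1 d hd1 q hA k hk _ trivial
  | ub => exact h1 d hd1 q hA k hk _ trivial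
  | fc j m =>
    obtain ⟨e, rfl⟩ : ∃ e, d = e + 1 := ⟨d - 1, by omega⟩
    have he : 2 ≤ e := by omega
    have hk1 : 1 ≤ k := B06_k he hk
    have hk2 : e ^ 46 ≤ 2 ^ (k + 1) := by
      calc e ^ 46 ≤ (e + 1) ^ 46 := Nat.pow_le_pow_left (by omega) 46
        _ ≤ 2 ^ k := hk
        _ ≤ 2 ^ (k + 1) := Nat.pow_le_pow_right (by norm_num) (by omega)
    exact B06_fc hk1 (by have := hA.1; omega)
      (h2 e (by omega) q (B06_adm he hA) hA.2.1 (k + 1) hk2) j m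

theorem Nn_pos {d q : ℕ} (hq : 1 ≤ q) (s : Ty d q) : 0 < Nn s := by
  have hq0 : (0 : ℝ) < q := by exact_mod_cast (show 0 < q by omega)
  have hr : ∀ s : Ty d q, 0 < rT s := by
    intro s
    cases s with
    | free => exact one_pos
    | pr => exact one_pos
    | bd c => exact Real.exp_pos _
    | bt c => exact Real.exp_pos _
    | ub => exact Real.exp_pos _
    | fc j m => exact one_pos
  cases s with
  | free => exact pow_pos hq0 _
  | pr => exact mul_pos (Real.exp_pos _) (hr _)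
  | bd c => exact mul_pos (Real.exp_pos _) (hr _)
  | bt c => exact mul_pos (Real.exp_pos _) (hr _)
  | ub => exact mul_pos (Real.exp_pos _) (hr _)
  | fc j m => exact Real.exp_pos _

end Pool.Agent.COR
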