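import Pool.Agent.Lib_MP_2c424f_cor.B04
import Pool.Agent.Lib_MP_2c424f_lo.BSum

/-!
# The types of a box (piece B07, (B4))

`a`, `b` even corners of a box, `a i < b i`, `b i + 4 ≤ 2^(k+1)`.  `flo j` / `fup j` = the blocks which touch the box along its
lower / upper face in direction `j`.  `asg`: the given types on `Γ`, `pr` on the other blocks of `gr a b`, face types with the
residue mod `4` of `a j` resp. `b j` on `flo j`, `fup j`, `free` elsewhere (these sets of blocks are disjoint, for all `j`).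
`asg_event`: a closed block of `gr a b` is contained in the box; in a block of `flo j` the points whose `j`-coordinate has the
residue of `a j` mod `4` are those with `x j = a j` (the block has the `j`-coordinates `a j - 2, a j - 1, a j` mod `2^(k+1)`), they
lie in the box, and a step in another direction inside the block stays there.
`asg_card`: `ℓ i = (b i - a i)/2`: `|gr| = ∏ ℓ i`, `|flo j| = |fup j| = ∏_{i ≠ j} ℓ i`.
-/

set_option autoImplicit false

open Finset

namespace Pool.Agent.COR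

open Pool.Agent.LO

variable {d k q : ℕ}

open scoped Classical in
/-- blocks below the lower face in direction `j` -/
noncomputable def flo (a b : Fin d → ℕ) (j : Fin d) : Finset (Blk d k) :=
  univ.filter fun t => t j + 1 = ((a j / 2 : ℕ) : ZMod (2 ^ k)) ∧
    ∀ i, i ≠ j → a i ≤ 2 * (t i).val ∧ 2 * (t i).val + 2 ≤ b i

open scoped Classical in
/-- blocks above the upper face in direction `j` -/
noncomputable def fup (a b : Fin d → ℕ) (j : Fin d) : Finset (Blk d k) :=
  univ.filter fun t => 2 * (t j).val = b j ∧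
    ∀ i, i ≠ j → a i ≤ 2 * (t i).val ∧ 2 * (t i).val + 2 ≤ b i

open scoped Classical in
/-- the types of a box -/
noncomputable def asg (a b : Fin d → ℕ) (Γ : Finset (Blk d k)) (τ : Blk d k → Ty d q) : Blk d k → Ty d q :=
  fun t => if t ∈ Γ then τ t else if t ∈ gr a b then Ty.pr
    else if h : ∃ j, t ∈ flo a b j then Ty.fc h.choose (decide (a h.choose % 4 = 2))
    else if h : ∃ j, t ∈ fup a b j then Ty.fc h.choose (decide (b h.choose % 4 = 2))
    else Ty.free

/-- the hypotheses on the corners of a box -/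
def evb (k : ℕ) (a b : Fin d → ℕ) : Prop := ∀ i, Even (a i) ∧ Even (b i) ∧ a i < b i ∧ b i + 4 ≤ 2 ^ (k + 1)

private theorem B07_pt (t : Blk d k) (a b : Bt d) (j : Fin d) :
    pt t a b j = ((2 * (t j).val + (if a j then 1 else 0) + (if b j then 1 else 0) : ℕ) :
      ZMod (2 ^ (k + 1))) := by
  simp only [pt, bas, bv, Pi.add_apply]
  push_cast
  rfl

private theorem B07_val (t : Blk d k) (a b : Bt d) (j : Fin d) :
    ∃ ε : ℕ, ε ≤ 2 ∧ (pt t a b j).val = (2 * (t j).val + ε) % 2 ^ (k + 1) := by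
  refine ⟨(if a j then 1 else 0) + (if b j then 1 else 0), ?_, ?_⟩
  · split_ifs <;> omega
  · rw [B07_pt, ZMod.val_natCast, add_assoc]

private theorem B07_coord {a b : ℕ} (t : Blk d k) (a' b' : Bt d) (i : Fin d)
    (h : a ≤ 2 * (t i).val ∧ 2 * (t i).val + 2 ≤ b) (hb : b < 2 ^ (k + 1)) :
    a ≤ (pt t a' b' i).val ∧ (pt t a' b' i).val ≤ b := by
  obtain ⟨ε, hε, h1⟩ := B07_val t a' b' i
  rw [h1, Nat.mod_eq_of_lt (by omega)]
  omega

private theorem B07_lo {a : ℕ} {z : ZMod (2 ^ k)} (ha : Even a) (hak : a + 6 ≤ 2 ^ (k + 1))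
    (h : z + 1 = ((a / 2 : ℕ) : ZMod (2 ^ k))) :
    (2 * z.val + 2 = a) ∨ (a = 0 ∧ 2 * z.val + 2 = 2 ^ (k + 1)) := by
  have h1 : ((z.val + 1 : ℕ) : ZMod (2 ^ k)) = ((a / 2 : ℕ) : ZMod (2 ^ k)) := by
    rw [Nat.cast_add, Nat.cast_one, ZMod.natCast_zmod_val]
    exact h
  rw [ZMod.natCast_eq_natCast_iff'] at h1
  have h2 := ZMod.val_lt z
  have h3 : 2 ^ (k + 1) = 2 * 2 ^ k := by ring
  obtain ⟨c, hc⟩ := ha
  have h4 : (a / 2) % 2 ^ k = a / 2 := Nat.mod_eq_of_lt (by omega)
  rw [h4] at h1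
  rcases Nat.lt_or_ge (z.val + 1) (2 ^ k) with h5 | h5
  · rw [Nat.mod_eq_of_lt h5] at h1
    left
    omega
  · have h6 : z.val + 1 = 2 ^ k := by omega
    rw [h6, Nat.mod_self] at h1
    right
    omega

private theorem B07_lo_val {a : ℕ} (hk : 1 ≤ k) (t : Blk d k) (a' b' : Bt d) (j : Fin d)
    (ha : Even a) (hak : a + 6 ≤ 2 ^ (k + 1)) (h : t j + 1 = ((a / 2 : ℕ) : ZMod (2 ^ k)))
    (hm : (pt t a' b' j).val % 4 = a % 4) : (pt t a' b' j).val = a := by
  obtain ⟨ε, hε, h1⟩ := B07_val t a' b' j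
  obtain ⟨c, hc⟩ : 4 ∣ 2 ^ (k + 1) := by
    have : (2 : ℕ) ^ 2 ∣ 2 ^ (k + 1) := pow_dvd_pow 2 (by omega)
    simpa using this
  rcases B07_lo ha hak h with h2 | ⟨h2, h3⟩
  · rw [Nat.mod_eq_of_lt (by omega)] at h1
    omega
  · by_cases hε2 : ε = 2
    · rw [hε2, h3, Nat.mod_self] at h1
      omega
    · rw [Nat.mod_eq_of_lt (by omega)] at h1
      omega

private theorem B07_up_val {b : ℕ} (t : Blk d k) (a' b' : Bt d) (j : Fin d)
    (hbk : b + 4 ≤ 2 ^ (k + 1)) (h : 2 * (t j).val = b)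
    (hm : (pt t a' b' j).val % 4 = b % 4) : (pt t a' b' j).val = b := by
  obtain ⟨ε, hε, h1⟩ := B07_val t a' b' j
  rw [Nat.mod_eq_of_lt (by omega)] at h1
  omega

private theorem B07_fc {a b : Fin d → ℕ} (hab : evb k a b)
    (f : Site d (k + 1) → Fin q) (hf : PrV (bx a b) f) (t : Blk d k) (j : Fin d) (v : ℕ) (m : Bool)
    (hv : a j ≤ v ∧ v ≤ b j)
    (hm : ∀ a' b', (pt t a' b' j).val % 4 = (if m then 2 else 0) → (pt t a' b' j).val = v)
    (h : ∀ i, i ≠ j → a i ≤ 2 * (t i).val ∧ 2 * (t i).val + 2 ≤ b i) : fcE j m t f := by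
  intro a' b' σ hσ hj hmod
  have h1 := hm a' b' hmod
  obtain ⟨a'', b'', h2⟩ := pt_step t a' b' σ hσ
  have h3 : pt t a' b' ∈ bx a b := by
    unfold bx
    rw [mem_filter]
    refine ⟨mem_univ _, fun i => ?_⟩
    by_cases hi : i = j
    · subst hi
      rw [h1]
      exact hv
    · exact B07_coord t a' b' i (h i hi) (by have := (hab i).2.2.2; omega)
  have h4 : pt t a' b' + sv σ ∈ bx a b := by
    unfold bx
    rw [mem_filter]
    refine ⟨mem_univ _, fun i => ?_⟩
    by_cases hi : i = j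
    · subst hi
      have h5 : (pt t a' b' + sv σ : Site d (k + 1)) i = pt t a' b' i := by
        rw [Pi.add_apply, sv, Pi.single_eq_of_ne (Ne.symm hj), add_zero]
      rw [h5, h1]
      exact hv
    · rw [h2]
      exact B07_coord t a'' b'' i (h i hi) (by have := (hab i).2.2.2; omega)
  exact hf _ h3 σ h4

private theorem B07_res {n : ℕ} (hn : Even n) : (if decide (n % 4 = 2) = true then 2 else 0) = n % 4 := by
  obtain ⟨c, hc⟩ := hn
  by_cases h : n % 4 = 2
  · simp [h]
  · simp only [h, decide_false, Bool.false_eq_true, if_false]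
    omega

private theorem B07_card (K m n : ℕ) [NeZero K] (hmn : n ≤ K) :
    (univ.filter fun z : ZMod K => m ≤ z.val ∧ z.val < n).card = n - m := by
  rw [← Nat.card_Ico, ← Finset.card_image_of_injective _ (ZMod.val_injective K)]
  congr 1
  ext x
  simp only [mem_image, mem_filter, mem_univ, true_and, mem_Ico]
  constructor
  · rintro ⟨z, hz, rfl⟩
    exact hz
  · intro hx
    exact ⟨(x : ZMod K), by rw [ZMod.val_natCast_of_lt (by omega)]; exact hx,
      ZMod.val_natCast_of_lt (by omega)⟩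

theorem asg_event (hk : 1 ≤ k) {a b : Fin d → ℕ} (hab : evb k a b) (Γ : Finset (Blk d k)) (hΓ : Γ ⊆ gr a b)
    (τ : Blk d k → Ty d q) (f : Site d (k + 1) → Fin q) (hf : PrV (bx a b) f) (h : ∀ t ∈ Γ, Ev (τ t) t f) :
    ∀ t, Ev (asg a b Γ τ t) t f := by
  classical
  intro t
  unfold asg
  by_cases h1 : t ∈ Γ
  · rw [if_pos h1]
    exact h t h1
  rw [if_neg h1]
  by_cases h2 : t ∈ gr a b
  · rw [if_pos h2]
    change prB t f
    have h3 : ∀ i, a i ≤ 2 * (t i).val ∧ 2 * (t i).val + 2 ≤ b i := by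
      unfold gr at h2
      exact (mem_filter.1 h2).2
    have h4 : ∀ a' b', pt t a' b' ∈ bx a b := by
      intro a' b'
      unfold bx
      rw [mem_filter]
      refine ⟨mem_univ _, fun i => ?_⟩
      exact B07_coord t a' b' i (h3 i) (by have := (hab i).2.2.2; omega)
    intro a' b' σ hσ
    obtain ⟨a'', b'', h5⟩ := pt_step t a' b' σ hσ
    refine hf _ (h4 a' b') σ ?_
    rw [h5]
    exact h4 _ _
  rw [if_neg h2]
  by_cases h3 : ∃ j, t ∈ flo a b j
  · rw [dif_pos h3]
    have h4 := h3.choose_spec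
    generalize h3.choose = j at h4
    change fcE j (decide (a j % 4 = 2)) t f
    unfold flo at h4
    have h5 := (mem_filter.1 h4).2
    obtain ⟨e1, e2, e3, e4⟩ := hab j
    refine B07_fc hab f hf t j (a j) _ ⟨le_rfl, e3.le⟩ ?_ h5.2
    intro a' b' hm
    rw [B07_res e1] at hm
    refine B07_lo_val hk t a' b' j e1 ?_ h5.1 hm
    obtain ⟨c, hc⟩ := e1
    obtain ⟨c', hc'⟩ := e2
    omega
  rw [dif_neg h3]
  by_cases h4 : ∃ j, t ∈ fup a b j
  · rw [dif_pos h4]
    have h6 := h4.choose_spec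
    generalize h4.choose = j at h6
    change fcE j (decide (b j % 4 = 2)) t f
    unfold fup at h6
    have h5 := (mem_filter.1 h6).2
    obtain ⟨e1, e2, e3, e4⟩ := hab j
    refine B07_fc hab f hf t j (b j) _ ⟨e3.le, le_rfl⟩ ?_ h5.2
    intro a' b' hm
    rw [B07_res e2] at hm
    exact B07_up_val t a' b' j e4 h5.1 hm
  rw [dif_neg h4]
  trivial

theorem card_gr {a b : Fin d → ℕ} (hab : evb k a b) :
    (gr a b : Finset (Blk d k)).card = ∏ i, ((b i - a i) / 2) := by
  classical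
  have h : (gr a b : Finset (Blk d k)) = Fintype.piFinset fun i =>
      univ.filter fun z : ZMod (2 ^ k) => a i / 2 ≤ z.val ∧ z.val < b i / 2 := by
    ext t
    unfold gr
    rw [mem_filter, Fintype.mem_piFinset]
    simp only [mem_univ, true_and, mem_filter]
    refine forall_congr' fun i => ?_
    obtain ⟨⟨c, hc⟩, ⟨c', hc'⟩, e3, e4⟩ := hab i
    constructor
    · intro h
      omega
    · intro h
      omega
  rw [h, Fintype.card_piFinset]
  refine prod_congr rfl fun i _ => ?_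
  obtain ⟨⟨c, hc⟩, ⟨c', hc'⟩, e3, e4⟩ := hab i
  have h3 : 2 ^ (k + 1) = 2 * 2 ^ k := by ring
  rw [B07_card (2 ^ k) _ _ (by omega)]
  omega

theorem card_bx {a b : Fin d → ℕ} (hab : ∀ i, a i ≤ b i ∧ b i < 2 ^ (k + 1)) :
    (bx a b : Finset (Site d (k + 1))).card = ∏ i, (b i - a i + 1) := by
  classical
  have h : (bx a b : Finset (Site d (k + 1))) = Fintype.piFinset fun i =>
      univ.filter fun z : ZMod (2 ^ (k + 1)) => a i ≤ z.val ∧ z.val < b i + 1 := by
    ext t
    unfold bx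
    rw [mem_filter, Fintype.mem_piFinset]
    simp only [mem_univ, true_and, mem_filter]
    refine forall_congr' fun i => ?_
    constructor
    · intro h
      omega
    · intro h
      omega
  rw [h, Fintype.card_piFinset]
  refine prod_congr rfl fun i _ => ?_
  obtain ⟨h1, h2⟩ := hab i
  rw [B07_card (2 ^ (k + 1)) _ _ (by omega)]
  omega

private theorem B07_not_lo {a b : Fin d → ℕ} (hab : evb k a b) {t : Blk d k} {j : Fin d}
    (h1 : t j + 1 = ((a j / 2 : ℕ) : ZMod (2 ^ k)))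
    (h2 : a j ≤ 2 * (t j).val ∧ 2 * (t j).val + 2 ≤ b j) : False := by
  obtain ⟨e1, e2, e3, e4⟩ := hab j
  have e5 : a j + 6 ≤ 2 ^ (k + 1) := by
    obtain ⟨c, hc⟩ := e1
    obtain ⟨c', hc'⟩ := e2
    omega
  rcases B07_lo e1 e5 h1 with h3 | ⟨h3, h4⟩
  · omega
  · omega

private theorem B07_not_lo_up {a b : Fin d → ℕ} (hab : evb k a b) {t : Blk d k} {j : Fin d}
    (h1 : t j + 1 = ((a j / 2 : ℕ) : ZMod (2 ^ k)))
    (h2 : 2 * (t j).val = b j) : False := by
  obtain ⟨e1, e2, e3, e4⟩ := hab j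
  have e5 : a j + 6 ≤ 2 ^ (k + 1) := by
    obtain ⟨c, hc⟩ := e1
    obtain ⟨c', hc'⟩ := e2
    omega
  rcases B07_lo e1 e5 h1 with h3 | ⟨h3, h4⟩
  · omega
  · omega

private theorem B07_mem_gr {a b : Fin d → ℕ} {t : Blk d k} : t ∈ gr a b ↔
    ∀ i, a i ≤ 2 * (t i).val ∧ 2 * (t i).val + 2 ≤ b i := by
  unfold gr
  rw [mem_filter]
  simp only [mem_univ, true_and]

private theorem B07_mem_flo {a b : Fin d → ℕ} {j : Fin d} {t : Blk d k} : t ∈ flo a b j ↔
    (t j + 1 = ((a j / 2 : ℕ) : ZMod (2 ^ k)) ∧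
    ∀ i, i ≠ j → a i ≤ 2 * (t i).val ∧ 2 * (t i).val + 2 ≤ b i) := by
  unfold flo
  rw [mem_filter]
  simp only [mem_univ, true_and]

private theorem B07_mem_fup {a b : Fin d → ℕ} {j : Fin d} {t : Blk d k} : t ∈ fup a b j ↔
    (2 * (t j).val = b j ∧
    ∀ i, i ≠ j → a i ≤ 2 * (t i).val ∧ 2 * (t i).val + 2 ≤ b i) := by
  unfold fup
  rw [mem_filter]
  simp only [mem_univ, true_and]

private theorem B07_card_in {a b : Fin d → ℕ} (hab : evb k a b) (i : Fin d) :
    (univ.filter fun z : ZMod (2 ^ k) => a i / 2 ≤ z.val ∧ z.val < b i / 2).card =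
      (b i - a i) / 2 := by
  obtain ⟨⟨c, hc⟩, ⟨c', hc'⟩, e3, e4⟩ := hab i
  have h3 : 2 ^ (k + 1) = 2 * 2 ^ k := by ring
  rw [B07_card (2 ^ k) _ _ (by omega)]
  omega

private theorem B07_card_face {a b : Fin d → ℕ} (hab : evb k a b) (j : Fin d) (z0 : ZMod (2 ^ k))
    (S : Finset (Blk d k)) (hS : ∀ t, t ∈ S ↔ (t j = z0 ∧
    ∀ i, i ≠ j → a i ≤ 2 * (t i).val ∧ 2 * (t i).val + 2 ≤ b i)) :
    S.card = ∏ i ∈ univ.erase j, ((b i - a i) / 2) := by
  classical
  have h : S = Fintype.piFinset fun i => if i = j then {z0} else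
      univ.filter fun z : ZMod (2 ^ k) => a i / 2 ≤ z.val ∧ z.val < b i / 2 := by
    ext t
    rw [hS, Fintype.mem_piFinset]
    constructor
    · rintro ⟨h1, h2⟩ i
      by_cases hi : i = j
      · rw [if_pos hi, mem_singleton, hi, h1]
      · rw [if_neg hi, mem_filter]
        refine ⟨mem_univ _, ?_⟩
        have h3 := h2 i hi
        obtain ⟨⟨c, hc⟩, ⟨c', hc'⟩, e3, e4⟩ := hab i
        omega
    · intro h1
      refine ⟨?_, fun i hi => ?_⟩
      · have h2 := h1 j
        rw [if_pos rfl, mem_singleton] at h2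
        exact h2
      · have h2 := h1 i
        rw [if_neg hi, mem_filter] at h2
        have h3 := h2.2
        obtain ⟨⟨c, hc⟩, ⟨c', hc'⟩, e3, e4⟩ := hab i
        omega
  rw [h, Fintype.card_piFinset, ← Finset.mul_prod_erase univ _ (mem_univ j)]
  rw [if_pos rfl, card_singleton, one_mul]
  refine prod_congr rfl fun i hi => ?_
  rw [if_neg (Finset.ne_of_mem_erase hi)]
  exact B07_card_in hab i

private theorem B07_card_flo {a b : Fin d → ℕ} (hab : evb k a b) (j : Fin d) :
    (flo a b j : Finset (Blk d k)).card = ∏ i ∈ univ.erase j, ((b i - a i) / 2) := by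
  refine B07_card_face hab j (((a j / 2 : ℕ) : ZMod (2 ^ k)) - 1) _ fun t => ?_
  rw [B07_mem_flo, eq_sub_iff_add_eq]

private theorem B07_card_fup {a b : Fin d → ℕ} (hab : evb k a b) (j : Fin d) :
    (fup a b j : Finset (Blk d k)).card = ∏ i ∈ univ.erase j, ((b i - a i) / 2) := by
  refine B07_card_face hab j ((b j / 2 : ℕ) : ZMod (2 ^ k)) _ fun t => ?_
  rw [B07_mem_fup]
  have h : 2 * (t j).val = b j ↔ t j = ((b j / 2 : ℕ) : ZMod (2 ^ k)) := by
    obtain ⟨e1, ⟨c', hc'⟩, e3, e4⟩ := hab j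
    have h3 : 2 ^ (k + 1) = 2 * 2 ^ k := by ring
    constructor
    · intro h
      rw [← h, Nat.mul_div_cancel_left _ (by norm_num), ZMod.natCast_zmod_val]
    · intro h
      rw [h, ZMod.val_natCast_of_lt (by omega)]
      omega
  rw [h]

open scoped Classical in
private noncomputable def B07_FF (k : ℕ) (a b : Fin d → ℕ) : Finset (Blk d k) :=
  (univ.biUnion fun j => flo a b j) ∪ univ.biUnion fun j => fup a b j

private theorem B07_card_FF {a b : Fin d → ℕ} (hab : evb k a b) :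
    (B07_FF k a b).card = ∑ j : Fin d, 2 * ∏ i ∈ univ.erase j, ((b i - a i) / 2) := by
  classical
  unfold B07_FF
  rw [card_union_of_disjoint, card_biUnion, card_biUnion, ← sum_add_distrib]
  · refine sum_congr rfl fun j _ => ?_
    rw [B07_card_flo hab, B07_card_fup hab]
    ring
  · intro i _ j _ hij
    change Disjoint (fup a b i) (fup a b j)
    rw [disjoint_left]
    intro t h1 h2
    rw [B07_mem_fup] at h1 h2
    have h3 := h1.2 j (Ne.symm hij)
    have h4 := h2.1
    omega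
  · intro i _ j _ hij
    change Disjoint (flo a b i) (flo a b j)
    rw [disjoint_left]
    intro t h1 h2
    rw [B07_mem_flo] at h1 h2
    exact B07_not_lo hab h2.1 (h1.2 j (Ne.symm hij))
  · rw [disjoint_left]
    intro t h1 h2
    rw [mem_biUnion] at h1 h2
    obtain ⟨i, _, h1⟩ := h1
    obtain ⟨j, _, h2⟩ := h2
    rw [B07_mem_flo] at h1
    rw [B07_mem_fup] at h2
    by_cases hij : i = j
    · subst hij
      exact B07_not_lo_up hab h1.1 h2.1
    · exact B07_not_lo hab h1.1 (h2.2 i hij)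

private theorem B07_disj {a b : Fin d → ℕ} (hab : evb k a b) :
    Disjoint (gr a b : Finset (Blk d k)) (B07_FF k a b) := by
  classical
  unfold B07_FF
  rw [disjoint_left]
  intro t h1 h2
  rw [B07_mem_gr] at h1
  rw [mem_union, mem_biUnion, mem_biUnion] at h2
  rcases h2 with ⟨j, _, h2⟩ | ⟨j, _, h2⟩
  · rw [B07_mem_flo] at h2
    exact B07_not_lo hab h2.1 (h1 j)
  · rw [B07_mem_fup] at h2
    have h3 := h1 j
    have h4 := h2.1
    omega

/-- the product of the bases -/
theorem asg_prod {a b : Fin d → ℕ} (hab : evb k a b) (Γ : Finset (Blk d k)) (hΓ : Γ ⊆ gr a b)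
    (τ : Blk d k → Ty d q) :
    ∏ t, Nn (asg a b Γ τ t) = (∏ t ∈ Γ, Nn (τ t)) * Nn (Ty.pr : Ty d q) ^ (∏ i, ((b i - a i) / 2) - Γ.card) *
      (∏ j : Fin d, Nn (Ty.fc j true : Ty d q) ^ (2 * ∏ i ∈ univ.erase j, ((b i - a i) / 2))) *
      Nn (Ty.free : Ty d q) ^ (Fintype.card (Blk d k) - ∏ i, ((b i - a i) / 2) -
        ∑ j : Fin d, 2 * ∏ i ∈ univ.erase j, ((b i - a i) / 2)) := by
  classical
  set K : ℝ := Real.exp ((2 : ℝ) ^ d * ((Real.log ((q : ℝ) / 2) + 3 / ((d : ℝ) - 1) ^ 45) / 4 +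
    3 / 4 * Real.log q)) with hK
  have hK1 : ∀ (j : Fin d) (m : Bool), Nn (Ty.fc j m : Ty d q) = K := fun _ _ => rfl
  simp only [hK1]
  rw [prod_pow_eq_pow_sum, ← B07_card_FF hab, ← card_gr (k := k) hab]
  have hdis := B07_disj hab
  have h1 : ∏ t, Nn (asg a b Γ τ t) = (∏ t ∈ Γ, Nn (asg a b Γ τ t)) *
      (∏ t ∈ gr a b \ Γ, Nn (asg a b Γ τ t)) * (∏ t ∈ B07_FF k a b, Nn (asg a b Γ τ t)) *
      ∏ t ∈ (univ \ gr a b) \ B07_FF k a b, Nn (asg a b Γ τ t) := by
    have hsub : B07_FF k a b ⊆ univ \ gr a b := by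
      intro t ht
      rw [mem_sdiff]
      exact ⟨mem_univ _, fun h => disjoint_left.1 hdis h ht⟩
    rw [← prod_sdiff (subset_univ (gr a b : Finset (Blk d k))), ← prod_sdiff hΓ, ← prod_sdiff hsub]
    ring
  rw [h1]
  congr 1
  · congr 1
    · congr 1
      · refine prod_congr rfl fun t ht => ?_
        unfold asg
        rw [if_pos ht]
      · rw [← card_sdiff_of_subset hΓ, ← prod_const]
        refine prod_congr rfl fun t ht => ?_
        rw [mem_sdiff] at ht
        unfold asg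
        rw [if_neg ht.2, if_pos ht.1]
    · rw [← prod_const]
      refine prod_congr rfl fun t ht => ?_
      have h2 : t ∉ gr a b := fun h => disjoint_left.1 hdis h ht
      have h3 : t ∉ Γ := fun h => h2 (hΓ h)
      unfold asg
      rw [if_neg h3, if_neg h2]
      by_cases h4 : ∃ j, t ∈ flo a b j
      · rw [dif_pos h4]
        exact hK1 _ _
      · rw [dif_neg h4]
        have h5 : ∃ j, t ∈ fup a b j := by
          unfold B07_FF at ht
          rw [mem_union, mem_biUnion, mem_biUnion] at ht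
          rcases ht with ⟨j, _, h⟩ | ⟨j, _, h⟩
          · exact absurd ⟨j, h⟩ h4
          · exact ⟨j, h⟩
        rw [dif_pos h5]
        exact hK1 _ _
  · have hcard : ((univ \ gr a b) \ B07_FF k a b : Finset (Blk d k)).card =
        Fintype.card (Blk d k) - (gr a b : Finset (Blk d k)).card - (B07_FF k a b).card := by
      rw [card_sdiff_of_subset, card_sdiff_of_subset (subset_univ _), card_univ]
      intro t ht
      rw [mem_sdiff]
      exact ⟨mem_univ _, fun h => disjoint_left.1 hdis h ht⟩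
    rw [← hcard, ← prod_const]
    refine prod_congr rfl fun t ht => ?_
    rw [mem_sdiff, mem_sdiff] at ht
    have h2 : t ∉ gr a b := ht.1.2
    have h3 : t ∉ Γ := fun h => h2 (hΓ h)
    have h4 : ¬ ∃ j, t ∈ flo a b j := by
      rintro ⟨j, hj⟩
      refine ht.2 ?_
      unfold B07_FF
      exact mem_union_left _ (mem_biUnion.2 ⟨j, mem_univ _, hj⟩)
    have h5 : ¬ ∃ j, t ∈ fup a b j := by
      rintro ⟨j, hj⟩
      refine ht.2 ?_
      unfold B07_FF
      exact mem_union_right _ (mem_biUnion.2 ⟨j, mem_univ _, hj⟩)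
    unfold asg
    rw [if_neg h3, if_neg h2, dif_neg h4, dif_neg h5]

/-- the blocks in the three families are different, so there are enough blocks -/
theorem asg_room {a b : Fin d → ℕ} (hab : evb k a b) :
    ∏ i, ((b i - a i) / 2) + ∑ j : Fin d, 2 * ∏ i ∈ univ.erase j, ((b i - a i) / 2) ≤
      Fintype.card (Blk d k) := by
  classical
  rw [← B07_card_FF hab, ← card_gr (k := k) hab, ← card_union_of_disjoint (B07_disj hab)]
  exact card_le_univ _

end Pool.Agent.COR
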