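import Mathlib

/-!
# An elementary inequality (piece B08)

Divide by `∏ L i`: with `x = ∑ 1/L i ≤ d/m ≤ 1`: `∏ (1 + 1/L i) ≤ e^x` and `e^x - 1 - x ≤ x²` for `0 ≤ x ≤ 1`; and
`∏ L i ≤ ∏ (L i + 1)`.
-/

set_option autoImplicit false

open Finset

namespace Pool.Agent.COR

theorem prod_two {d : ℕ} (m : ℕ) (hd : 1 ≤ d) (hm : d ≤ m) (L : Fin d → ℕ) (hL : ∀ i, m ≤ L i) :
    ∏ i, ((L i : ℝ) + 1) - ∏ i, (L i : ℝ) - ∑ j : Fin d, ∏ i ∈ univ.erase j, (L i : ℝ) ≤
      ((d : ℝ) / m) ^ 2 * ∏ i, ((L i : ℝ) + 1) := by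
  have hm1 : 1 ≤ m := le_trans hd hm
  have hmR : (0 : ℝ) < m := by exact_mod_cast hm1
  have hL0 : ∀ i, (0 : ℝ) < L i := fun i => by exact_mod_cast lt_of_lt_of_le hm1 (hL i)
  set P : ℝ := ∏ i, (L i : ℝ) with hP
  have hP0 : 0 < P := Finset.prod_pos fun i _ => hL0 i
  set x : ℝ := ∑ i : Fin d, 1 / (L i : ℝ) with hx
  have hx0 : 0 ≤ x := Finset.sum_nonneg fun i _ => (one_div_pos.mpr (hL0 i)).le
  have hxd : x ≤ (d : ℝ) / m := by
    calc x ≤ ∑ _i : Fin d, 1 / (m : ℝ) := by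
          refine Finset.sum_le_sum fun i _ => ?_
          exact one_div_le_one_div_of_le hmR (by exact_mod_cast hL i)
      _ = (d : ℝ) / m := by
          rw [Finset.sum_const, Finset.card_univ, Fintype.card_fin, nsmul_eq_mul]
          ring
  have hdm : (d : ℝ) / m ≤ 1 := by
    rw [div_le_one hmR]
    exact_mod_cast hm
  have hx1 : x ≤ 1 := hxd.trans hdm
  have h1 : ∑ j : Fin d, ∏ i ∈ univ.erase j, (L i : ℝ) = P * x := by
    rw [hx, Finset.mul_sum]
    refine Finset.sum_congr rfl fun j _ => ?_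
    have h2 : (L j : ℝ) * ∏ i ∈ univ.erase j, (L i : ℝ) = P :=
      Finset.mul_prod_erase univ (fun i => (L i : ℝ)) (Finset.mem_univ j)
    rw [← h2]
    have := (hL0 j).ne'
    field_simp
  have h3 : ∏ i, ((L i : ℝ) + 1) ≤ P * Real.exp x := by
    have h4 : ∏ i, ((L i : ℝ) + 1) = P * ∏ i, (1 + 1 / (L i : ℝ)) := by
      rw [hP, ← Finset.prod_mul_distrib]
      refine Finset.prod_congr rfl fun i _ => ?_
      have := (hL0 i).ne'
      field_simp
    rw [h4, hx, Real.exp_sum]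
    refine mul_le_mul_of_nonneg_left ?_ hP0.le
    refine Finset.prod_le_prod (fun i _ => ?_) fun i _ => ?_
    · have := one_div_pos.mpr (hL0 i)
      linarith
    · have := Real.add_one_le_exp (1 / (L i : ℝ))
      linarith
  have h5 : Real.exp x - 1 - x ≤ x ^ 2 := by
    have h6 := Real.abs_exp_sub_one_sub_id_le (x := x) (by rw [abs_of_nonneg hx0]; exact hx1)
    exact (le_abs_self _).trans h6
  have h7 : P ≤ ∏ i, ((L i : ℝ) + 1) := by
    refine Finset.prod_le_prod (fun i _ => (hL0 i).le) fun i _ => by linarith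
  rw [h1]
  calc ∏ i, ((L i : ℝ) + 1) - P - P * x ≤ P * (Real.exp x - 1 - x) := by linarith
    _ ≤ P * x ^ 2 := mul_le_mul_of_nonneg_left h5 hP0.le
    _ ≤ P * ((d : ℝ) / m) ^ 2 :=
        mul_le_mul_of_nonneg_left (pow_le_pow_left₀ hx0 hxd 2) hP0.le
    _ ≤ (∏ i, ((L i : ℝ) + 1)) * ((d : ℝ) / m) ^ 2 :=
        mul_le_mul_of_nonneg_right h7 (by positivity)
    _ = _ := by ring

end Pool.Agent.COR
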