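import Pool.Agent.Lib_MP_2c424f_cor.B01
import Pool.Agent.Lib_MP_2c424f_cor.B02
import Pool.Agent.Lib_MP_2c424f_cor.B03
import Pool.Agent.Lib_MP_2c424f_cor.B06
import Pool.Agent.Lib_MP_2c424f_cor.B07
import Pool.Agent.Lib_MP_2c424f_cor.B08

/-!
# The chessboard estimate with free boundary (piece B09, (B4))

`asg_event`: the left side is at most `cT Ev (asg …)`; `chessT` with `cn = cT Ev` (`rpT`, `Ev_loc`, `Ev_sym`, `const_le`, `Nn_pos`; the type
`Ty d q` is finite); `asg_prod`.  Logarithms, with `L i = b i - a i`, `2^d |gr| = ∏ L i`, `2^{d-2} · 2 ∑_j ∏_{i≠j} (L i / 2) =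
∑_j ∏_{i≠j} L i`, `#blocks · 2^d = N`:
`log ≤ N log q - (∏ L)(log 2 - 3/d^45) - (∑_j ∏_{i≠j} L i)(log 2 - 3/(d-1)^45) + ∑_{t ∈ Γ} log rT (τ t)`, and `prod_two`,
`log 2 ≤ 1`, `|bx| = ∏ (L i + 1)` (`card_bx`).
-/

set_option autoImplicit false

open Finset

namespace Pool.Agent.COR

open Pool.Agent.LO

private theorem B09_fin (d q : ℕ) : Finite (Ty d q) := by
  let f : Ty d q → Fin 6 × Option (Fin q) × Option (Fin d × Bool) := fun s => match s with
    | .free => (0, none, none)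
    | .pr => (1, none, none)
    | .bd c => (2, some c, none)
    | .bt c => (3, some c, none)
    | .ub => (4, none, none)
    | .fc j m => (5, none, some (j, m))
  refine Finite.of_injective f ?_
  intro s t h
  cases s <;> cases t <;> simp [f] at h ⊢ <;> exact h

private theorem B09_Nn {d q : ℕ} (s : Ty d q) (h : s.isBad) :
    Nn s = Real.exp ((2 : ℝ) ^ d * (Real.log ((q : ℝ) / 2) + 3 / (d : ℝ) ^ 45)) * rT s := by
  cases s with
  | free => exact h.elim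
  | pr => exact h.elim
  | bd c => rfl
  | bt c => rfl
  | ub => rfl
  | fc j m => exact h.elim

private theorem B09_rT_pos {d q : ℕ} (s : Ty d q) : 0 < rT s := by
  cases s with
  | free => exact one_pos
  | pr => exact one_pos
  | bd c => exact Real.exp_pos _
  | bt c => exact Real.exp_pos _
  | ub => exact Real.exp_pos _
  | fc j m => exact one_pos

private theorem B09_site (d k : ℕ) :
    Fintype.card (Site d (k + 1)) = 2 ^ d * Fintype.card (Blk d k) := by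
  have h1 : Fintype.card (Site d (k + 1)) = (2 ^ (k + 1)) ^ d := by
    simp [ZMod.card]
  have h2 : Fintype.card (Blk d k) = (2 ^ k) ^ d := by
    simp [ZMod.card]
  rw [h1, h2, pow_succ, mul_pow, mul_comm]

/-- the logarithmic estimate -/
private theorem B09_log {d m : ℕ} (hd : 2 ≤ d) (hm : d ≤ m) (L : Fin d → ℕ) (hL : ∀ i, m ≤ L i)
    (Nq : ℝ) :
    Nq - (∏ i, (L i : ℝ)) * (Real.log 2 - 3 / (d : ℝ) ^ 45) -
        (∑ j : Fin d, ∏ i ∈ univ.erase j, (L i : ℝ)) * (Real.log 2 - 3 / ((d : ℝ) - 1) ^ 45) ≤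
      Nq - (∏ i, ((L i : ℝ) + 1)) * Real.log 2 + rho d m * ∏ i, ((L i : ℝ) + 1) := by
  have h1 := prod_two m (by omega) hm L hL
  set A : ℝ := ∏ i, (L i : ℝ) with hA
  set B : ℝ := ∏ i, ((L i : ℝ) + 1) with hB
  set S : ℝ := ∑ j : Fin d, ∏ i ∈ univ.erase j, (L i : ℝ) with hS
  have hm0 : 1 ≤ m := by omega
  have hmR : (0 : ℝ) < m := by exact_mod_cast hm0
  have hL0 : ∀ i, (0 : ℝ) < L i := fun i => by
    have := hL i
    exact_mod_cast lt_of_lt_of_le hm0 this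
  have hA0 : 0 < A := Finset.prod_pos fun i _ => hL0 i
  have hAB : A ≤ B := Finset.prod_le_prod (fun i _ => (hL0 i).le) fun i _ => by linarith
  have hB0 : 0 < B := lt_of_lt_of_le hA0 hAB
  have hSA : S ≤ A := by
    have h2 : ∀ j : Fin d, ∏ i ∈ univ.erase j, (L i : ℝ) ≤ A / m := by
      intro j
      rw [le_div_iff₀ hmR, hA, ← Finset.mul_prod_erase univ (fun i => (L i : ℝ)) (Finset.mem_univ j), mul_comm]
      refine mul_le_mul_of_nonneg_right ?_ (Finset.prod_nonneg fun i _ => (hL0 i).le)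
      exact_mod_cast hL j
    calc S ≤ ∑ _j : Fin d, A / m := Finset.sum_le_sum fun j _ => h2 j
      _ = (d : ℝ) / m * A := by
        rw [Finset.sum_const, Finset.card_univ, Fintype.card_fin, nsmul_eq_mul]
        ring
      _ ≤ 1 * A := by
        refine mul_le_mul_of_nonneg_right ?_ hA0.le
        rw [div_le_one hmR]
        exact_mod_cast hm
      _ = A := one_mul A
  have hS0 : 0 ≤ S := Finset.sum_nonneg fun j _ => Finset.prod_nonneg fun i _ => (hL0 i).le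
  have hlog0 : 0 ≤ Real.log 2 := Real.log_nonneg (by norm_num)
  have hlog1 : Real.log 2 ≤ 1 := by
    have := Real.log_two_lt_d9
    linarith
  have hdR : (2 : ℝ) ≤ d := by exact_mod_cast hd
  have hd1 : (0 : ℝ) < ((d : ℝ) - 1) ^ 45 := by
    have : (0 : ℝ) < (d : ℝ) - 1 := by linarith
    positivity
  have hd2 : ((d : ℝ) - 1) ^ 45 ≤ (d : ℝ) ^ 45 := by
    apply pow_le_pow_left₀ (by linarith) (by linarith)
  have hx : 0 ≤ ((d : ℝ) / m) ^ 2 * B := by positivity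
  have e1 : (B - A - S) * Real.log 2 ≤ ((d : ℝ) / m) ^ 2 * B := by
    calc (B - A - S) * Real.log 2 ≤ (((d : ℝ) / m) ^ 2 * B) * Real.log 2 :=
          mul_le_mul_of_nonneg_right h1 hlog0
      _ ≤ (((d : ℝ) / m) ^ 2 * B) * 1 := mul_le_mul_of_nonneg_left hlog1 hx
      _ = _ := mul_one _
  have e2 : A * (3 / (d : ℝ) ^ 45) ≤ B * (3 / ((d : ℝ) - 1) ^ 45) := by
    apply mul_le_mul hAB _ (by positivity) hB0.le
    exact div_le_div_of_nonneg_left (by norm_num) hd1 hd2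
  have e3 : S * (3 / ((d : ℝ) - 1) ^ 45) ≤ B * (3 / ((d : ℝ) - 1) ^ 45) :=
    mul_le_mul_of_nonneg_right (hSA.trans hAB) (by positivity)
  have e4 : rho d m * B = ((d : ℝ) / m) ^ 2 * B + B * (3 / ((d : ℝ) - 1) ^ 45) +
      B * (3 / ((d : ℝ) - 1) ^ 45) := by
    unfold rho
    ring
  rw [e4]
  nlinarith [e1, e2, e3]

open scoped Classical in
theorem fbc : ∃ d₀ : ℕ, ∀ d : ℕ, d₀ ≤ d → ∀ q : ℕ, AdmC d q → ∀ k : ℕ, d ^ 46 ≤ 2 ^ k → ∀ m : ℕ, d ≤ m →
    ∀ a b : Fin d → ℕ, evb k a b → (∀ i, a i + m ≤ b i) →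
    ∀ (Γ : Finset (Blk d k)), Γ ⊆ gr a b → ∀ τ : Blk d k → Ty d q, (∀ t ∈ Γ, (τ t).isBad) →
    ((univ.filter fun f : Site d (k + 1) → Fin q => PrV (bx a b) f ∧ ∀ t ∈ Γ, Ev (τ t) t f).card : ℝ) ≤
      QN d (k + 1) q * (1 / 2 : ℝ) ^ (bx a b : Finset (Site d (k + 1))).card *
        Real.exp (rho d m * (bx a b : Finset (Site d (k + 1))).card) * ∏ t ∈ Γ, rT (τ t) := by
  obtain ⟨d₀, h0⟩ := const_le
  refine ⟨max d₀ 2, fun d hd q hA k hk m hm a b hab hL Γ hΓ τ hτ => ?_⟩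
  have hd1 : d₀ ≤ d := (le_max_left _ _).trans hd
  have hd2 : 2 ≤ d := (le_max_right _ _).trans hd
  have hq1 : 1 ≤ q := by have := hA.1; omega
  have hk1 : 1 ≤ k := by
    by_contra hcon
    have h1 : k = 0 := by omega
    rw [h1, pow_zero] at hk
    have h2 : 2 ^ 46 ≤ d ^ 46 := Nat.pow_le_pow_left hd2 46
    norm_num at h2
    omega
  have hfin := B09_fin d q
  have hchess := chessT (d := d) (k := k) hk1 (cT Ev) (Nn : Ty d q → ℝ) (fun s => Nn_pos hq1 s)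
    (fun σ => by unfold cT; positivity)
    (fun j α σ => rpT hk1 Ev (fun s t f g h hf => Ev_loc s t f g h hf)
      (fun s j α t f hf => Ev_sym hk1 s j α t f hf) j α σ)
    (h0 d hd1 q hA k hk) (asg a b Γ τ)
  have hleft : ((univ.filter fun f : Site d (k + 1) → Fin q =>
      PrV (bx a b) f ∧ ∀ t ∈ Γ, Ev (τ t) t f).card : ℝ) ≤ cT Ev (asg a b Γ τ) := by
    unfold cT
    have h1 : (univ.filter fun f : Site d (k + 1) → Fin q =>
      PrV (bx a b) f ∧ ∀ t ∈ Γ, Ev (τ t) t f) ⊆ (univ.filter fun f : Site d (k + 1) → Fin q =>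
        ∀ t, Ev (asg a b Γ τ t) t f) := by
      intro f hf
      rw [mem_filter] at hf ⊢
      exact ⟨mem_univ _, asg_event hk1 hab Γ hΓ τ f hf.2.1 hf.2.2⟩
    exact_mod_cast Finset.card_le_card h1
  refine hleft.trans (hchess.trans ?_)
  rw [asg_prod hab Γ hΓ τ]
  -- notation
  have hgr := card_gr (k := k) hab
  have hroom := asg_room (k := k) hab
  have hbx := card_bx (k := k) (a := a) (b := b) (fun i => by have := hab i; constructor <;> omega)
  set g : ℕ := ∏ i, ((b i - a i) / 2) with hg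
  set n : Fin d → ℕ := fun j => ∏ i ∈ univ.erase j, ((b i - a i) / 2) with hn
  have hΓg : Γ.card ≤ g := by
    rw [← hgr]
    exact Finset.card_le_card hΓ
  set L : Fin d → ℕ := fun i => b i - a i with hLdef
  have hLe : ∀ i, L i = 2 * ((b i - a i) / 2) := by
    intro i
    obtain ⟨⟨x, hx⟩, ⟨y, hy⟩, h3, -⟩ := hab i
    simp only [hLdef]
    omega
  have hLm : ∀ i, m ≤ L i := fun i => by
    have := hL i
    simp only [hLdef]
    omega
  have hPg : (2 : ℝ) ^ d * g = ∏ i, (L i : ℝ) := by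
    have h1 : ∏ i, (L i : ℝ) = ∏ i : Fin d, ((2 : ℝ) * (((b i - a i) / 2 : ℕ) : ℝ)) := by
      refine Finset.prod_congr rfl fun i _ => ?_
      rw [hLe i]
      push_cast
      ring
    rw [h1, Finset.prod_mul_distrib, Finset.prod_const, Finset.card_univ, Fintype.card_fin, hg]
    push_cast
    ring
  have hPn : ∀ j, (2 : ℝ) ^ d * n j = 2 * ∏ i ∈ univ.erase j, (L i : ℝ) := by
    intro j
    have h1 : ∏ i ∈ univ.erase j, (L i : ℝ) =
        ∏ i ∈ univ.erase j, ((2 : ℝ) * (((b i - a i) / 2 : ℕ) : ℝ)) := by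
      refine Finset.prod_congr rfl fun i _ => ?_
      rw [hLe i]
      push_cast
      ring
    rw [h1, Finset.prod_mul_distrib, Finset.prod_const, Finset.card_erase_of_mem (mem_univ j),
      Finset.card_univ, Fintype.card_fin, hn]
    simp only
    push_cast
    rw [← mul_assoc, ← pow_succ']
    congr 2
    omega
  have hBx : ((bx a b : Finset (Site d (k + 1))).card : ℝ) = ∏ i, ((L i : ℝ) + 1) := by
    rw [hbx]
    push_cast
    rfl
  have hqR : (0 : ℝ) < q := by exact_mod_cast hq1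
  set Λ : ℝ := Real.log ((q : ℝ) / 2) + 3 / (d : ℝ) ^ 45 with hΛ
  set F : ℝ := (Real.log ((q : ℝ) / 2) + 3 / ((d : ℝ) - 1) ^ 45) / 4 + 3 / 4 * Real.log q with hF
  have e1 : (∏ t ∈ Γ, Nn (τ t)) = Real.exp ((2 : ℝ) ^ d * Λ) ^ Γ.card * ∏ t ∈ Γ, rT (τ t) := by
    rw [Finset.prod_congr rfl fun t ht => B09_Nn (τ t) (hτ t ht), Finset.prod_mul_distrib,
      Finset.prod_const]
  have e2 : Nn (Ty.pr : Ty d q) = Real.exp ((2 : ℝ) ^ d * Λ) := by
    show Real.exp ((2 : ℝ) ^ d * Λ) * 1 = _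
    rw [mul_one]
  have e3 : ∏ j : Fin d, Nn (Ty.fc j true : Ty d q) ^ (2 * n j) =
      Real.exp (∑ j : Fin d, ((2 * n j : ℕ) : ℝ) * ((2 : ℝ) ^ d * F)) := by
    rw [Real.exp_sum]
    refine Finset.prod_congr rfl fun j _ => ?_
    rw [Real.exp_nat_mul]
    rfl
  have e4 : Nn (Ty.free : Ty d q) = Real.exp ((2 : ℝ) ^ d * Real.log q) := by
    show (q : ℝ) ^ (2 ^ d) = _
    have h1 : (2 : ℝ) ^ d * Real.log q = ((2 ^ d : ℕ) : ℝ) * Real.log q := by push_cast; ring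
    rw [h1, Real.exp_nat_mul, Real.exp_log hqR]
  have e5 : QN d (k + 1) q = Real.exp (((2 ^ d * Fintype.card (Blk d k) : ℕ) : ℝ) * Real.log q) := by
    unfold QN
    rw [B09_site, Real.exp_nat_mul, Real.exp_log hqR]
  have e6 : (1 / 2 : ℝ) ^ (bx a b : Finset (Site d (k + 1))).card =
      Real.exp (-(((bx a b : Finset (Site d (k + 1))).card : ℝ) * Real.log 2)) := by
    rw [← mul_neg, Real.exp_nat_mul, Real.exp_neg, Real.exp_log (by norm_num), one_div]
  have hR0 : 0 ≤ ∏ t ∈ Γ, rT (τ t) := Finset.prod_nonneg fun t _ => (B09_rT_pos _).le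
  have hlogq : Real.log ((q : ℝ) / 2) = Real.log q - Real.log 2 := by
    rw [Real.log_div hqR.ne' (by norm_num)]
  set K : ℕ := Fintype.card (Blk d k) - g - ∑ j : Fin d, 2 * n j with hK
  have hKr : ((K : ℕ) : ℝ) = (Fintype.card (Blk d k) : ℝ) - g - ∑ j : Fin d, 2 * (n j : ℝ) := by
    have h1 : K + (g + ∑ j : Fin d, 2 * n j) = Fintype.card (Blk d k) := by
      rw [hK]
      have : g + ∑ j : Fin d, 2 * n j ≤ Fintype.card (Blk d k) := hroom
      omega
    have h2 : ((K : ℕ) : ℝ) + ((g : ℝ) + ∑ j : Fin d, 2 * (n j : ℝ)) = (Fintype.card (Blk d k) : ℝ) := by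
      have h3 : ((K + (g + ∑ j : Fin d, 2 * n j) : ℕ) : ℝ) = ((Fintype.card (Blk d k) : ℕ) : ℝ) := by
        rw [h1]
      push_cast at h3
      exact h3
    linarith
  have hlog := B09_log hd2 hm L hLm ((2 : ℝ) ^ d * (Fintype.card (Blk d k) : ℝ) * Real.log q)
  rw [← hBx] at hlog
  have hsum : ∑ j : Fin d, ((2 * n j : ℕ) : ℝ) * ((2 : ℝ) ^ d * F) =
      (4 * ∑ j : Fin d, ∏ i ∈ univ.erase j, (L i : ℝ)) * F := by
    rw [Finset.mul_sum, Finset.sum_mul]
    refine Finset.sum_congr rfl fun j _ => ?_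
    have := hPn j
    push_cast
    linear_combination (2 * F) * this
  have hsum2 : (2 : ℝ) ^ d * ∑ j : Fin d, 2 * (n j : ℝ) =
      4 * ∑ j : Fin d, ∏ i ∈ univ.erase j, (L i : ℝ) := by
    rw [Finset.mul_sum, Finset.mul_sum]
    refine Finset.sum_congr rfl fun j _ => ?_
    have := hPn j
    linear_combination 2 * this
  have hL1 : (∏ t ∈ Γ, Nn (τ t)) * Nn (Ty.pr : Ty d q) ^ (g - Γ.card) *
      (∏ j : Fin d, Nn (Ty.fc j true : Ty d q) ^ (2 * n j)) * Nn (Ty.free : Ty d q) ^ K =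
      Real.exp ((g : ℝ) * ((2 : ℝ) ^ d * Λ) + ∑ j : Fin d, ((2 * n j : ℕ) : ℝ) * ((2 : ℝ) ^ d * F) +
        (K : ℝ) * ((2 : ℝ) ^ d * Real.log q)) * ∏ t ∈ Γ, rT (τ t) := by
    rw [Real.exp_add, Real.exp_add, Real.exp_nat_mul _ g, Real.exp_nat_mul _ K, e1, e2, e3, e4]
    have h1 : Real.exp ((2 : ℝ) ^ d * Λ) ^ g = Real.exp ((2 : ℝ) ^ d * Λ) ^ Γ.card *
        Real.exp ((2 : ℝ) ^ d * Λ) ^ (g - Γ.card) := by
      rw [← pow_add]
      congr 1
      omega
    rw [h1]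
    ring
  rw [hL1]
  refine mul_le_mul_of_nonneg_right ?_ hR0
  rw [e5, e6, ← Real.exp_add, ← Real.exp_add]
  apply Real.exp_le_exp.2
  rw [hsum, hKr]
  have h1 : (g : ℝ) * ((2 : ℝ) ^ d * Λ) = (∏ i, (L i : ℝ)) * Λ := by
    rw [← hPg]
    ring
  have h2 : ((Fintype.card (Blk d k) : ℝ) - g - ∑ j : Fin d, 2 * (n j : ℝ)) * ((2 : ℝ) ^ d * Real.log q) =
      (2 : ℝ) ^ d * (Fintype.card (Blk d k) : ℝ) * Real.log q - (∏ i, (L i : ℝ)) * Real.log q -
        (4 * ∑ j : Fin d, ∏ i ∈ univ.erase j, (L i : ℝ)) * Real.log q := by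
    rw [← hPg, ← hsum2]
    ring
  rw [h1, h2, hΛ, hF, hlogq]
  push_cast
  refine le_trans (le_of_eq ?_) (hlog.trans (le_of_eq ?_))
  · ring
  · ring

end Pool.Agent.COR
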