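import Pool.Agent.Lib_MP_2c424f_cor.Defs
import Pool.Agent.Lib_MP_2c424f_lo.Basic
import Pool.Agent.Lib_MP_2c424f_lo.MainA2

/-!
# Properness on a set of sites and the graph of a set of sites (piece V01)

`k ≥ 1`: `x + sv σ ≠ x` (`step_ne`), the step back is `sv (σ.1, !σ.2)` (`step_back`), a step changes the parity
(`evn_step`).  A vertex has at most `2 d` neighbours.
-/

set_option autoImplicit false

open Finset

namespace Pool.Agent.COR

open Pool.Agent.LO

variable {d k q : ℕ}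

theorem prV_iff (hk : 1 ≤ k) (V : Finset (Site d k)) (f : Site d k → Fin q) : PrV V f ↔ PrG (gV V) f := by
  constructor
  · rintro h x y ⟨-, hx, hy, ⟨σ, rfl⟩, -⟩
    exact (h x hx σ hy).symm
  · intro h x hx σ hy
    exact (h x (x + sv σ) ⟨(step_ne hk x σ).symm, hx, hy, ⟨σ, rfl⟩,
      ⟨(σ.1, !σ.2), (step_back x σ).symm⟩⟩).symm

theorem cV_eq (hk : 1 ≤ k) (V : Finset (Site d k)) (P : (Site d k → Fin q) → Prop) : cV V P = cG (gV V) P := by
  unfold cV cG
  congr 2
  ext f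
  simp only [mem_filter, prV_iff hk]

theorem par_gV (hk : 1 ≤ k) (V : Finset (Site d k)) : Par (gV V) evn := by
  rintro x y ⟨-, -, -, ⟨σ, rfl⟩, -⟩
  have h := evn_step hk x σ
  tauto

open scoped Classical in
theorem deg_gV (V : Finset (Site d k)) (v : Site d k) :
    (univ.filter fun u => (gV V).Adj v u).card ≤ 2 * d := by
  have hsub : (univ.filter fun u => (gV V).Adj v u) ⊆
      (univ : Finset (Stp d)).image (fun σ => v + sv σ) := by
    intro u hu
    rw [mem_filter] at hu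
    obtain ⟨-, -, -, -, ⟨σ, hσ⟩, -⟩ := hu
    rw [mem_image]
    exact ⟨σ, mem_univ _, hσ.symm⟩
  refine (card_le_card hsub).trans (card_image_le.trans ?_)
  rw [card_univ, Fintype.card_prod, Fintype.card_fin, Fintype.card_bool, mul_comm]

theorem gV_adj (hk : 1 ≤ k) (V : Finset (Site d k)) (x : Site d k) (σ : Stp d) :
    (gV V).Adj x (x + sv σ) ↔ x ∈ V ∧ x + sv σ ∈ V := by
  constructor
  · rintro ⟨-, hx, hy, -⟩
    exact ⟨hx, hy⟩
  · rintro ⟨hx, hy⟩
    exact ⟨(step_ne hk x σ).symm, hx, hy, ⟨σ, rfl⟩, ⟨(σ.1, !σ.2), (step_back x σ).symm⟩⟩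

theorem PrV_mono {V V' : Finset (Site d k)} (h : V ⊆ V') {f : Site d k → Fin q} (hf : PrV V' f) : PrV V f :=
  fun x hx σ hy => hf x (h hx) σ (h hy)

theorem cV_mono {V : Finset (Site d k)} {P P' : (Site d k → Fin q) → Prop} (h : ∀ f, PrV V f → P f → P' f) :
    cV V P ≤ cV V P' := by
  classical
  unfold cV
  rw [Nat.cast_le]
  refine card_le_card fun f hf => ?_
  rw [mem_filter] at hf ⊢
  exact ⟨hf.1, hf.2.1, h f hf.2.1 hf.2.2⟩

private theorem cV_antiV01 {V V' : Finset (Site d k)} (h : V ⊆ V') (P : (Site d k → Fin q) → Prop) :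
    cV V' P ≤ cV V P := by
  classical
  unfold cV
  rw [Nat.cast_le]
  refine card_le_card fun f hf => ?_
  rw [mem_filter] at hf ⊢
  exact ⟨hf.1, PrV_mono h hf.2.1, hf.2.2⟩

theorem ZV_mono {V V' : Finset (Site d k)} (h : V ⊆ V') : ZV q V' ≤ ZV q V :=
  cV_antiV01 h _

/-- `PrV univ` is properness on the torus -/
theorem prV_univ (f : Site d k → Fin q) : PrV univ f ↔ Prp f :=
  ⟨fun h x σ => h x (mem_univ _) σ (mem_univ _), fun h x _ σ _ => h x σ⟩

end Pool.Agent.COR
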