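import Pool.Agent.Lib_MP_2c424f_cor.B09
import Pool.Agent.Lib_MP_2c424f_cor.V01

/-!
# The number of colourings of a box, any position (piece B10, (B5))

`ZV` is invariant under translations (`f ↦ f (· + τ)`).  A box with `b i - a i` even: translate by `-1` in the directions
with `a i` odd; then `fbc` with `Γ = ∅`.
-/

set_option autoImplicit false

open Finset

namespace Pool.Agent.COR

open Pool.Agent.LO

private theorem B10_cV {d k q : ℕ} (V V' : Finset (Site d k)) (τ : Site d k)
    (h : ∀ x, x ∈ V ↔ x + τ ∈ V') (P : (Site d k → Fin q) → Prop) (hP : ∀ f, P f) :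
    cV V P = cV V' P := by
  classical
  unfold cV
  rw [Nat.cast_inj]
  refine card_bij' (fun f _ => fun y => f (y - τ)) (fun f _ => fun y => f (y + τ)) ?_ ?_ ?_ ?_
  · intro f hf
    rw [mem_filter] at hf ⊢
    refine ⟨mem_univ _, fun y hy σ hys => ?_, hP _⟩
    have e : y + sv σ - τ = (y - τ) + sv σ := by abel
    show f (y + sv σ - τ) ≠ f (y - τ)
    rw [e]
    refine hf.2.1 (y - τ) ((h _).2 ?_) σ ((h _).2 ?_)
    · rwa [sub_add_cancel]
    · rw [← e, sub_add_cancel]
      exact hys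
  · intro f hf
    rw [mem_filter] at hf ⊢
    refine ⟨mem_univ _, fun y hy σ hys => ?_, hP _⟩
    have e : y + sv σ + τ = (y + τ) + sv σ := by abel
    show f (y + sv σ + τ) ≠ f (y + τ)
    rw [e]
    refine hf.2.1 (y + τ) ((h _).1 hy) σ ?_
    rw [← e]
    exact (h _).1 hys
  · intro f _
    funext y
    show f (y + τ - τ) = f y
    rw [add_sub_cancel_right]
  · intro f _
    funext y
    show f (y - τ + τ) = f y
    rw [sub_add_cancel]

theorem ZV_transl {d k q : ℕ} (V V' : Finset (Site d k)) (τ : Site d k) (h : ∀ x, x ∈ V ↔ x + τ ∈ V') :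
    ZV q V = ZV q V' :=
  B10_cV V V' τ h _ fun _ => trivial

private theorem B10_card {d k : ℕ} (V V' : Finset (Site d k)) (τ : Site d k)
    (h : ∀ x, x ∈ V ↔ x + τ ∈ V') : V.card = V'.card := by
  refine card_bij' (fun x _ => x + τ) (fun x _ => x - τ) ?_ ?_ ?_ ?_
  · intro x hx
    exact (h x).1 hx
  · intro x hx
    refine (h _).2 ?_
    rwa [sub_add_cancel]
  · intro x _
    exact add_sub_cancel_right x τ
  · intro x _
    exact sub_add_cancel x τ

private theorem B10_val {M : ℕ} [NeZero M] (hM : 1 < M) (y : ZMod M) (a b : ℕ) (ha : 1 ≤ a)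
    (hab : a ≤ b) (hb : b < M) : (a ≤ y.val ∧ y.val ≤ b) ↔ (a - 1 ≤ (y + -1).val ∧ (y + -1).val ≤ b - 1) := by
  have : Fact (1 < M) := ⟨hM⟩
  by_cases hy : y = 0
  · subst hy
    have h1 : ((0 : ZMod M) + -1).val = M - 1 := by
      rw [zero_add, ZMod.neg_val, if_neg one_ne_zero, ZMod.val_one]
    rw [h1, ZMod.val_zero]
    omega
  · have h0 : y.val ≠ 0 := fun h => hy ((ZMod.val_eq_zero y).1 h)
    have h1 : (y + -1).val = y.val - 1 := by
      rw [← sub_eq_add_neg, ZMod.val_sub, ZMod.val_one]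
      rw [ZMod.val_one]
      omega
    rw [h1]
    omega

theorem box_le : ∃ d₀ : ℕ, ∀ d : ℕ, d₀ ≤ d → ∀ q : ℕ, AdmC d q → ∀ k : ℕ, d ^ 46 ≤ 2 ^ k → ∀ m : ℕ, d ≤ m →
    ∀ a b : Fin d → ℕ, (∀ i, Even (b i - a i) ∧ a i + m ≤ b i ∧ b i + 4 ≤ 2 ^ (k + 1)) →
    ZV q (bx a b : Finset (Site d (k + 1))) ≤
      QN d (k + 1) q * (1 / 2 : ℝ) ^ (bx a b : Finset (Site d (k + 1))).card *
        Real.exp (rho d m * (bx a b : Finset (Site d (k + 1))).card) := by
  obtain ⟨d₀, hd₀⟩ := fbc
  refine ⟨max d₀ 1, fun d hd q hq k hk m hm a b hab => ?_⟩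
  have hd1 : d₀ ≤ d := (le_max_left _ _).trans hd
  have hd2 : 1 ≤ d := (le_max_right _ _).trans hd
  have hm1 : 1 ≤ m := hd2.trans hm
  let a' : Fin d → ℕ := fun i => a i - a i % 2
  let b' : Fin d → ℕ := fun i => b i - a i % 2
  let τ : Site d (k + 1) := fun i => if a i % 2 = 0 then 0 else -1
  have hpar : ∀ i, b i % 2 = a i % 2 := by
    intro i
    obtain ⟨h1, h2, -⟩ := hab i
    rw [Nat.even_iff] at h1
    omega
  have hev : evb k a' b' := by
    intro i
    obtain ⟨-, h2, h3⟩ := hab i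
    have h4 := hpar i
    refine ⟨?_, ?_, ?_, ?_⟩
    · show Even (a i - a i % 2)
      rw [Nat.even_iff]; omega
    · show Even (b i - a i % 2)
      rw [Nat.even_iff]; omega
    · show a i - a i % 2 < b i - a i % 2
      omega
    · show b i - a i % 2 + 4 ≤ 2 ^ (k + 1)
      omega
  have hab' : ∀ i, a' i + m ≤ b' i := by
    intro i
    obtain ⟨-, h2, -⟩ := hab i
    have h4 := hpar i
    show a i - a i % 2 + m ≤ b i - a i % 2
    omega
  have hmem : ∀ x : Site d (k + 1), x ∈ (bx a b : Finset (Site d (k + 1))) ↔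
      x + τ ∈ (bx a' b' : Finset (Site d (k + 1))) := by
    intro x
    unfold bx
    rw [mem_filter, mem_filter]
    simp only [mem_univ, true_and]
    refine forall_congr' fun i => ?_
    obtain ⟨-, -, h3⟩ := hab i
    have h4 := hpar i
    by_cases hi : a i % 2 = 0
    · have e : (x + τ) i = x i := by
        show x i + (if a i % 2 = 0 then (0 : ZMod (2 ^ (k + 1))) else -1) = x i
        rw [if_pos hi, add_zero]
      rw [e]
      show _ ↔ a i - a i % 2 ≤ _ ∧ _ ≤ b i - a i % 2
      rw [hi]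
      rfl
    · have e : (x + τ) i = x i + -1 := by
        show x i + (if a i % 2 = 0 then (0 : ZMod (2 ^ (k + 1))) else -1) = x i + -1
        rw [if_neg hi]
      rw [e]
      show _ ↔ a i - a i % 2 ≤ _ ∧ _ ≤ b i - a i % 2
      have hi1 : a i % 2 = 1 := by omega
      rw [hi1]
      have : NeZero (2 ^ (k + 1)) := ⟨by positivity⟩
      exact B10_val (Nat.one_lt_two_pow (by omega)) (x i) (a i) (b i) (by omega)
        (by have := (hab i).2.1; omega) (by omega)
  have h1 := hd₀ d hd1 q hq k hk m hm a' b' hev hab' ∅ (empty_subset _) (fun _ => Ty.free)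
    (fun t ht => absurd ht (notMem_empty t))
  rw [prod_empty, mul_one] at h1
  rw [ZV_transl _ _ τ hmem, B10_card _ _ τ hmem]
  refine le_trans (le_of_eq ?_) h1
  unfold ZV cV
  congr 2
  ext f
  simp only [mem_filter, mem_univ, true_and, notMem_empty, IsEmpty.forall_iff, implies_true]

end Pool.Agent.COR
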