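import Pool.Agent.Lib_MP_2c424f_cor.K01

/-!
# Random flips of Kempe clusters (piece C01)

`rpc x` = chosen representative of the cluster of `x`.  `rpc_eq_iff`: `kcl` is an equivalence relation, so for `kcl x y` the
predicates `kcl x ·`, `kcl y ·` are equal and `epsilon` gives the same point.  `rpc_fw`: `kcl_kfl`.  `fw_fw`: the same set of sites
is flipped twice (`rpc_fw`, `kfl_kfl`).  `cG_fw`: for fixed `ω` the map `fw ω` is an involution of the proper colourings.
-/

set_option autoImplicit false

open Finset

namespace Pool.Agent.COR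

variable {W : Type} [Fintype W] [DecidableEq W] {q : ℕ}

/-- representative of the cluster of `x` -/
noncomputable def rpc (G : SimpleGraph W) (f : W → Fin q) (i j : Fin q) (x : W) : W :=
  @Classical.epsilon W ⟨x⟩ (fun y => kcl G f i j x y)

open scoped Classical in
/-- flip the clusters whose representative has the bit `true` -/
noncomputable def fw (G : SimpleGraph W) (i j : Fin q) (ω : W → Bool) (f : W → Fin q) : W → Fin q :=
  kfl i j (univ.filter fun x => ω (rpc G f i j x) = true) f

theorem rpc_spec (G : SimpleGraph W) (f : W → Fin q) (i j : Fin q) (x : W) : kcl G f i j x (rpc G f i j x) := by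
  exact Classical.epsilon_spec (p := fun y => kcl G f i j x y) ⟨x, Relation.ReflTransGen.refl⟩

theorem rpc_eq_iff (G : SimpleGraph W) (f : W → Fin q) (i j : Fin q) (x y : W) :
    rpc G f i j x = rpc G f i j y ↔ kcl G f i j x y := by
  constructor
  · intro h
    have h1 := rpc_spec G f i j x
    rw [h] at h1
    exact kcl_trans h1 (kcl_symm (rpc_spec G f i j y))
  · intro h
    have h1 : (fun z => kcl G f i j x z) = (fun z => kcl G f i j y z) := by
      funext z
      exact propext ⟨fun h' => kcl_trans (kcl_symm h) h', fun h' => kcl_trans h h'⟩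
    unfold rpc
    rw [h1]

theorem rpc_kfl (G : SimpleGraph W) (i j : Fin q) (S : Finset W) (f : W → Fin q) (x : W) :
    rpc G (kfl i j S f) i j x = rpc G f i j x := by
  have h1 : (fun z => kcl G (kfl i j S f) i j x z) = (fun z => kcl G f i j x z) := by
    funext z
    exact propext (kcl_kfl G i j S f x z)
  unfold rpc
  rw [h1]

theorem rpc_fw (G : SimpleGraph W) (i j : Fin q) (ω : W → Bool) (f : W → Fin q) (x : W) :
    rpc G (fw G i j ω f) i j x = rpc G f i j x := by
  exact rpc_kfl G i j _ f x

theorem fw_fw (G : SimpleGraph W) (i j : Fin q) (ω : W → Bool) (f : W → Fin q) :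
    fw G i j ω (fw G i j ω f) = f := by
  conv_lhs => unfold fw
  simp only [rpc_kfl]
  exact kfl_kfl i j _ f

theorem PrG_fw {G : SimpleGraph W} {f : W → Fin q} (hf : PrG G f) (i j : Fin q) (ω : W → Bool) :
    PrG G (fw G i j ω f) := by
  classical
  unfold fw
  refine PrG_kfl hf i j ?_
  have h1 := kun_of (G := G) (f := f) (i := i) (j := j) (fun x => ω (rpc G f i j x) = true)
    (fun x y hxy hx => by rw [← (rpc_eq_iff G f i j x y).2 hxy]; exact hx)
  convert h1

theorem cG_fw (G : SimpleGraph W) (i j : Fin q) (ω : W → Bool) (P : (W → Fin q) → Prop) :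
    cG G (fun f => P (fw G i j ω f)) = cG G P := by
  classical
  unfold cG
  congr 1
  refine Finset.card_nbij' (fw G i j ω) (fw G i j ω) ?_ ?_ ?_ ?_
  · intro f hf
    have hf' := (Finset.mem_filter.1 hf).2
    exact Finset.mem_filter.2 ⟨Finset.mem_univ _, PrG_fw hf'.1 i j ω, hf'.2⟩
  · intro f hf
    have hf' := (Finset.mem_filter.1 hf).2
    refine Finset.mem_filter.2 ⟨Finset.mem_univ _, PrG_fw hf'.1 i j ω, ?_⟩
    show P (fw G i j ω (fw G i j ω f))
    rw [fw_fw]
    exact hf'.2
  · intro f _
    exact fw_fw G i j ω f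
  · intro f _
    exact fw_fw G i j ω f

theorem fw_other (G : SimpleGraph W) (i j : Fin q) (ω : W → Bool) (f : W → Fin q) (x : W) (c : Fin q)
    (hi : c ≠ i) (hj : c ≠ j) : fw G i j ω f x = c ↔ f x = c := by
  exact kfl_other i j _ f x c hi hj

theorem fw_true (G : SimpleGraph W) (i j : Fin q) (ω : W → Bool) (f : W → Fin q) (x : W)
    (h : ω (rpc G f i j x) = true) : (f x = j → fw G i j ω f x = i) ∧ (f x = i → fw G i j ω f x = j) := by
  have h1 : fw G i j ω f x = Equiv.swap i j (f x) := by
    unfold fw kfl
    have h2 : x ∈ univ.filter fun x => ω (rpc G f i j x) = true :=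
      Finset.mem_filter.2 ⟨Finset.mem_univ _, h⟩
    exact if_pos h2
  rw [h1]
  constructor
  · intro h2
    rw [h2, Equiv.swap_apply_right]
  · intro h2
    rw [h2, Equiv.swap_apply_left]

theorem fw_false (G : SimpleGraph W) (i j : Fin q) (ω : W → Bool) (f : W → Fin q) (x : W)
    (h : ω (rpc G f i j x) = false) : fw G i j ω f x = f x := by
  unfold fw kfl
  refine if_neg fun hx => ?_
  have h2 := (Finset.mem_filter.1 hx).2
  rw [h] at h2
  exact absurd h2 (by decide)

end Pool.Agent.COR
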