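import Mathlib

/-!
# The dichotomy lemma, first part (piece C02, (C2))

Probability weights `p` on a finite set `Y`, finite sets `K v` (`v ∈ Y`), `S = {x : ω x = true}` a uniform random set.
`gS ω β` = weight of the `v` for which `K v` contains a point with the bit `β`.

For an `ω` with `gS ω β ≤ δ` for one of the bits `β`: all `v` but a weight `≤ 2δ` have `K v ≠ ∅` and all bits on `K v` equal
to `!β`.  So the weight of the pairs `(v, v')` with `K v`, `K v'` nonempty and all bits on `K v ∪ K v'` equal is at least
`(1-2δ)² ≥ 1 - 4δ ≥ 0.96`.  Sum over `ω`: the mean weight is at least `0.9 · 0.96 ≥ 0.86`.  For fixed `(v, v')` with both sets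
nonempty and `#(K v ∪ K v') = m` the proportion of these `ω` is `2 · 2^{-m}`: `1` for `m = 1`, at most `1/2` for `m ≥ 2`.
So the weight `s` of the pairs with `K v = K v' = {c}` (some `c`) satisfies `s + (1-s)/2 ≥ 0.86`, `s ≥ 0.72`;
`s = ∑_c p_c² ≤ max_c p_c`, `p_c` = weight of the `v` with `K v = {c}` (`∑_c p_c ≤ 1`).
-/

set_option autoImplicit false

open Finset

namespace Pool.Agent.COR

open scoped Classical in
/-- weight of the `v` for which `K v` contains a point with the bit `β` -/
noncomputable def gS {Y W : Type} [Fintype Y] (p : Y → ℝ) (K : Y → Finset W) (ω : W → Bool) (β : Bool) : ℝ :=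
  ∑ v, if ∃ x ∈ K v, ω x = β then p v else 0

/-- half of the bit strings agree at two different places -/
private theorem C02_half {W : Type} [Fintype W] [DecidableEq W] (x y : W) (hxy : x ≠ y)
    (E : Finset (W → Bool)) (hE : ∀ ω ∈ E, ω x = ω y) : 2 * (E.card : ℝ) ≤ 2 ^ Fintype.card W := by
  set f : (W → Bool) → (W → Bool) := fun ω => Function.update ω x (!ω x) with hf
  have hinj : Function.Injective f := by
    intro a b hab
    funext z
    have h1 := congrFun hab z
    by_cases hz : z = x
    · subst hz
      simp only [hf, Function.update_self, Bool.not_eq_eq_eq_not, Bool.not_not] at h1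
      exact h1
    · simp only [hf, Function.update_of_ne hz] at h1
      exact h1
  have hdis : Disjoint E (E.image f) := by
    rw [Finset.disjoint_left]
    intro ω hω hω'
    obtain ⟨η, hη, rfl⟩ := Finset.mem_image.1 hω'
    have h1 := hE _ hω
    have h2 := hE _ hη
    simp only [hf, Function.update_self, Function.update_of_ne hxy.symm] at h1
    rw [h2] at h1
    cases hb : η y <;> rw [hb] at h1 <;> exact absurd h1 (by decide)
  have h1 : (E ∪ E.image f).card ≤ (univ : Finset (W → Bool)).card :=
    Finset.card_le_card (Finset.subset_univ _)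
  rw [Finset.card_union_of_disjoint hdis, Finset.card_image_of_injective E hinj,
    Finset.card_univ, Fintype.card_fun, Fintype.card_bool] at h1
  have h2 : ((E.card + E.card : ℕ) : ℝ) ≤ ((2 ^ Fintype.card W : ℕ) : ℝ) := by exact_mod_cast h1
  push_cast at h2
  linarith

open scoped Classical in
theorem dichA {Y W : Type} [Fintype Y] [Fintype W] (p : Y → ℝ) (hp : ∀ v, 0 ≤ p v) (h1 : ∑ v, p v = 1)
    (K : Y → Finset W) (δ : ℝ) (h0 : 0 ≤ δ) (hδ : δ ≤ 1 / 100) (hK : (∑ v, if K v = ∅ then p v else 0) ≤ δ)
    (H : (9 / 10 : ℝ) * 2 ^ Fintype.card W <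
      ((univ.filter fun ω : W → Bool => gS p K ω true ≤ δ ∨ gS p K ω false ≤ δ).card : ℝ)) :
    ∃ c : W, (7 / 10 : ℝ) ≤ ∑ v, if K v = {c} then p v else 0 := by
  by_contra hcon
  push Not at hcon
  -- the pair event
  set C : (W → Bool) → Y → Y → Prop := fun ω v v' =>
    K v ≠ ∅ ∧ K v' ≠ ∅ ∧ ∃ β, (∀ x ∈ K v, ω x = β) ∧ ∀ x ∈ K v', ω x = β with hC
  set P : (W → Bool) → ℝ := fun ω => ∑ v, ∑ v', p v * p v' * (if C ω v v' then 1 else 0) with hP
  have hP0 : ∀ ω, 0 ≤ P ω := by
    intro ω
    refine Finset.sum_nonneg fun v _ => Finset.sum_nonneg fun v' _ => ?_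
    refine mul_nonneg (mul_nonneg (hp v) (hp v')) ?_
    split_ifs <;> norm_num
  -- lower bound for good bit strings
  have hlow : ∀ ω β, gS p K ω β ≤ δ → 96 / 100 ≤ P ω := by
    intro ω β hβ
    set a : Y → ℝ := fun v => if (K v ≠ ∅ ∧ ∀ x ∈ K v, ω x = !β) then 1 else 0 with ha
    have hT : 1 - 2 * δ ≤ ∑ v, p v * a v := by
      have h2 : ∑ v, p v ≤ ∑ v, (p v * a v + (if ∃ x ∈ K v, ω x = β then p v else 0) +
          (if K v = ∅ then p v else 0)) := by
        refine Finset.sum_le_sum fun v _ => ?_
        have hpv := hp v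
        by_cases h3 : K v = ∅
        · rw [if_pos h3]
          have h4 : 0 ≤ p v * a v := mul_nonneg hpv (by simp only [ha]; split_ifs <;> norm_num)
          have h5 : 0 ≤ (if ∃ x ∈ K v, ω x = β then p v else 0) := by
            split_ifs
            · exact hpv
            · exact le_rfl
          linarith
        · rw [if_neg h3]
          by_cases h4 : ∃ x ∈ K v, ω x = β
          · rw [if_pos h4]
            have h5 : 0 ≤ p v * a v := mul_nonneg hpv (by simp only [ha]; split_ifs <;> norm_num)
            linarith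
          · rw [if_neg h4]
            have h5 : a v = 1 := by
              simp only [ha]
              rw [if_pos]
              refine ⟨h3, fun x hx => ?_⟩
              by_contra h6
              refine h4 ⟨x, hx, ?_⟩
              cases hb : ω x <;> cases β <;> simp_all
            rw [h5]
            linarith
      rw [Finset.sum_add_distrib, Finset.sum_add_distrib, h1] at h2
      have h3 : (∑ v, if ∃ x ∈ K v, ω x = β then p v else 0) ≤ δ := hβ
      linarith
    have h2 : (∑ v, p v * a v) * (∑ v, p v * a v) ≤ P ω := by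
      rw [Finset.sum_mul_sum]
      refine Finset.sum_le_sum fun v _ => Finset.sum_le_sum fun v' _ => ?_
      have h3 : a v * a v' ≤ if C ω v v' then 1 else 0 := by
        simp only [ha]
        by_cases h4 : (K v ≠ ∅ ∧ ∀ x ∈ K v, ω x = !β)
        · by_cases h5 : (K v' ≠ ∅ ∧ ∀ x ∈ K v', ω x = !β)
          · have h6 : C ω v v' := ⟨h4.1, h5.1, !β, h4.2, h5.2⟩
            rw [if_pos h4, if_pos h5, if_pos h6]
            norm_num
          · rw [if_neg h5, mul_zero]
            split_ifs <;> norm_num
        · rw [if_neg h4, zero_mul]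
          split_ifs <;> norm_num
      calc p v * a v * (p v' * a v') = p v * p v' * (a v * a v') := by ring
        _ ≤ _ := mul_le_mul_of_nonneg_left h3 (mul_nonneg (hp v) (hp v'))
    have h3 : (1 - 2 * δ) * (1 - 2 * δ) ≤ (∑ v, p v * a v) * (∑ v, p v * a v) :=
      mul_le_mul hT hT (by linarith) (by linarith)
    nlinarith
  -- upper bound for pairs
  have hpair : ∀ v v', ∑ ω : W → Bool, (if C ω v v' then (1 : ℝ) else 0) ≤
      2 ^ Fintype.card W * (1 / 2 + 1 / 2 * (if ∃ c, K v = {c} ∧ K v' = {c} then 1 else 0)) := by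
    intro v v'
    have e1 : ∑ ω : W → Bool, (if C ω v v' then (1 : ℝ) else 0) =
        ((univ.filter fun ω : W → Bool => C ω v v').card : ℝ) := by
      rw [Finset.sum_ite, Finset.sum_const_zero, add_zero, Finset.sum_const, nsmul_eq_mul, mul_one]
    rw [e1]
    by_cases hs : ∃ c, K v = {c} ∧ K v' = {c}
    · rw [if_pos hs]
      have h2 : (univ.filter fun ω : W → Bool => C ω v v').card ≤ (univ : Finset (W → Bool)).card :=
        Finset.card_le_card (Finset.filter_subset _ _)
      rw [Finset.card_univ, Fintype.card_fun, Fintype.card_bool] at h2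
      have h3 : ((univ.filter fun ω : W → Bool => C ω v v').card : ℝ) ≤
          ((2 ^ Fintype.card W : ℕ) : ℝ) := by exact_mod_cast h2
      push_cast at h3
      linarith
    · rw [if_neg hs]
      by_cases hne : K v ≠ ∅ ∧ K v' ≠ ∅
      · -- two different points
        obtain ⟨x, hx⟩ := Finset.nonempty_iff_ne_empty.2 hne.1
        have h2 : ∃ y, y ≠ x ∧ (y ∈ K v ∨ y ∈ K v') := by
          by_contra h3
          push Not at h3
          refine hs ⟨x, ?_, ?_⟩
          · refine Finset.eq_singleton_iff_unique_mem.2 ⟨hx, fun y hy => ?_⟩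
            by_contra h4
            exact (h3 y h4).1 hy
          · obtain ⟨z, hz⟩ := Finset.nonempty_iff_ne_empty.2 hne.2
            have h5 : z = x := by
              by_contra h4
              exact (h3 z h4).2 hz
            refine Finset.eq_singleton_iff_unique_mem.2 ⟨h5 ▸ hz, fun y hy => ?_⟩
            by_contra h4
            exact (h3 y h4).2 hy
        obtain ⟨y, hyx, hy⟩ := h2
        have h3 := C02_half x y hyx.symm (univ.filter fun ω : W → Bool => C ω v v') (by
          intro ω hω
          obtain ⟨_, _, β, hb, hb'⟩ := (Finset.mem_filter.1 hω).2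
          rw [hb x hx]
          rcases hy with hy | hy
          · exact (hb y hy).symm
          · exact (hb' y hy).symm)
        linarith
      · have h2 : (univ.filter fun ω : W → Bool => C ω v v') = ∅ := by
          refine Finset.filter_eq_empty_iff.2 fun ω _ hω => hne ⟨hω.1, hω.2.1⟩
        rw [h2, Finset.card_empty, Nat.cast_zero]
        positivity
  -- the weight of the pairs with the same singleton
  have hs : ∑ v, ∑ v', p v * p v' * (if ∃ c, K v = {c} ∧ K v' = {c} then (1 : ℝ) else 0) ≤
      7 / 10 := by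
    have h2 : ∀ v, ∑ v', p v * p v' * (if ∃ c, K v = {c} ∧ K v' = {c} then (1 : ℝ) else 0) ≤
        p v * (7 / 10) := by
      intro v
      by_cases h3 : ∃ c, K v = {c}
      · obtain ⟨c, hc⟩ := h3
        have h4 : ∑ v', p v * p v' * (if ∃ c, K v = {c} ∧ K v' = {c} then (1 : ℝ) else 0) ≤
            ∑ v', p v * (if K v' = {c} then p v' else 0) := by
          refine Finset.sum_le_sum fun v' _ => ?_
          by_cases h5 : K v' = {c}
          · rw [if_pos h5, if_pos ⟨c, hc, h5⟩, mul_one]
          · rw [if_neg h5, if_neg, mul_zero, mul_zero]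
            rintro ⟨c', hc', h6⟩
            have h7 : c = c' := Finset.singleton_injective (hc.symm.trans hc')
            exact h5 (h7 ▸ h6)
        refine h4.trans ?_
        rw [← Finset.mul_sum]
        exact mul_le_mul_of_nonneg_left (hcon c).le (hp v)
      · have h4 : ∀ v', ¬ ∃ c, K v = {c} ∧ K v' = {c} := by
          rintro v' ⟨c, hc, _⟩
          exact h3 ⟨c, hc⟩
        have h5 : ∑ v', p v * p v' * (if ∃ c, K v = {c} ∧ K v' = {c} then (1 : ℝ) else 0) = 0 := by
          refine Finset.sum_eq_zero fun v' _ => ?_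
          rw [if_neg (h4 v'), mul_zero]
        rw [h5]
        have := hp v
        positivity
    refine (Finset.sum_le_sum fun v _ => h2 v).trans ?_
    rw [← Finset.sum_mul, h1, one_mul]
  -- double counting
  have hup : ∑ ω, P ω ≤ 2 ^ Fintype.card W * (1 / 2 + 1 / 2 * (7 / 10)) := by
    have h2 : ∑ ω, P ω = ∑ v, ∑ v', p v * p v' * ∑ ω : W → Bool, (if C ω v v' then (1 : ℝ) else 0) := by
      simp only [hP]
      rw [Finset.sum_comm]
      refine Finset.sum_congr rfl fun v _ => ?_
      rw [Finset.sum_comm]
      refine Finset.sum_congr rfl fun v' _ => ?_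
      rw [Finset.mul_sum]
    rw [h2]
    have h3 : ∑ v, ∑ v', p v * p v' * ∑ ω : W → Bool, (if C ω v v' then (1 : ℝ) else 0) ≤
        ∑ v, ∑ v', (2 ^ Fintype.card W * (1 / 2) * (p v * p v') + 2 ^ Fintype.card W * (1 / 2) *
          (p v * p v' * (if ∃ c, K v = {c} ∧ K v' = {c} then (1 : ℝ) else 0))) := by
      refine Finset.sum_le_sum fun v _ => Finset.sum_le_sum fun v' _ => ?_
      refine (mul_le_mul_of_nonneg_left (hpair v v') (mul_nonneg (hp v) (hp v'))).trans
        (le_of_eq ?_)
      ring
    refine h3.trans ?_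
    simp only [Finset.sum_add_distrib, ← Finset.mul_sum, h1, mul_one]
    have h6 := mul_le_mul_of_nonneg_left hs (by positivity : (0 : ℝ) ≤ 2 ^ Fintype.card W * (1 / 2))
    linarith
  have hdn : (96 / 100 : ℝ) *
      ((univ.filter fun ω : W → Bool => gS p K ω true ≤ δ ∨ gS p K ω false ≤ δ).card : ℝ) ≤
      ∑ ω, P ω := by
    calc (96 / 100 : ℝ) *
        ((univ.filter fun ω : W → Bool => gS p K ω true ≤ δ ∨ gS p K ω false ≤ δ).card : ℝ)
        = ∑ ω ∈ univ.filter (fun ω : W → Bool => gS p K ω true ≤ δ ∨ gS p K ω false ≤ δ),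
            (96 / 100 : ℝ) := by
          rw [Finset.sum_const, nsmul_eq_mul, mul_comm]
      _ ≤ ∑ ω ∈ univ.filter (fun ω : W → Bool => gS p K ω true ≤ δ ∨ gS p K ω false ≤ δ), P ω := by
          refine Finset.sum_le_sum fun ω hω => ?_
          rcases (Finset.mem_filter.1 hω).2 with h2 | h2
          · exact hlow ω true h2
          · exact hlow ω false h2
      _ ≤ ∑ ω, P ω :=
          Finset.sum_le_sum_of_subset_of_nonneg (Finset.filter_subset _ _) fun ω _ _ => hP0 ω
  have h4 : (0 : ℝ) < 2 ^ Fintype.card W := by positivity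
  linarith

end Pool.Agent.COR
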