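import Pool.Agent.Lib_MP_2c424f_cor.C02

/-!
# The dichotomy lemma, second part (piece C03, (C2))

Let `c` be as in `dichA`.  If `ω c = true` then `gS ω true ≥ 7/10 > δ`.  So more than `4/5` of the `ω` with `ω c = true` (half of
all `ω`, of which less than `1/10` of all are excluded) satisfy `gS ω false ≤ δ`.  Flipping all bits except the one at `c` is a
bijection of `{ω : ω c = true}`; so for some `ω` with `ω c = true` both `ω` and the flipped `ω'` satisfy it.  If `K v` is not
contained in `{c}` then it contains an `x ≠ c`, and `ω x = false` or `ω' x = false`.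
-/

set_option autoImplicit false

open Finset

namespace Pool.Agent.COR

open scoped Classical in
theorem dich {Y W : Type} [Fintype Y] [Fintype W] (p : Y → ℝ) (hp : ∀ v, 0 ≤ p v) (h1 : ∑ v, p v = 1)
    (K : Y → Finset W) (δ : ℝ) (h0 : 0 ≤ δ) (hδ : δ ≤ 1 / 100) (hK : (∑ v, if K v = ∅ then p v else 0) ≤ δ)
    (H : (9 / 10 : ℝ) * 2 ^ Fintype.card W <
      ((univ.filter fun ω : W → Bool => gS p K ω true ≤ δ ∨ gS p K ω false ≤ δ).card : ℝ)) :
    ∃ c : W, (∑ v, if K v ⊆ {c} then 0 else p v) ≤ 2 * δ := by
  obtain ⟨c, hc⟩ := dichA p hp h1 K δ h0 hδ hK H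
  refine ⟨c, ?_⟩
  -- the two halves
  set T : Finset (W → Bool) := univ.filter fun ω => ω c = true with hT
  set T' : Finset (W → Bool) := univ.filter fun ω => ω c = false with hT'
  set G : Finset (W → Bool) := univ.filter fun ω : W → Bool => gS p K ω true ≤ δ ∨ gS p K ω false ≤ δ with hG
  set A : Finset (W → Bool) := univ.filter fun ω => ω c = true ∧ gS p K ω false ≤ δ with hA
  have hcard : T.card = T'.card := by
    refine Finset.card_nbij' (fun ω => Function.update ω c (!ω c)) (fun ω => Function.update ω c (!ω c)) ?_ ?_ ?_ ?_
    · intro ω hω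
      have h2 : ω c = true := (Finset.mem_filter.1 hω).2
      refine Finset.mem_filter.2 ⟨Finset.mem_univ _, ?_⟩
      simp only [Function.update_self, h2, Bool.not_true]
    · intro ω hω
      have h2 : ω c = false := (Finset.mem_filter.1 hω).2
      refine Finset.mem_filter.2 ⟨Finset.mem_univ _, ?_⟩
      simp only [Function.update_self, h2, Bool.not_false]
    · intro ω _
      simp only [Function.update_self, Bool.not_not, Function.update_idem, Function.update_eq_self]
    · intro ω _
      simp only [Function.update_self, Bool.not_not, Function.update_idem, Function.update_eq_self]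
  have hsum : T.card + T'.card = 2 ^ Fintype.card W := by
    have h2 : T ∪ T' = univ := by
      ext ω
      simp only [hT, hT', Finset.mem_union, Finset.mem_filter, Finset.mem_univ, true_and, iff_true]
      cases ω c <;> simp
    have h3 : Disjoint T T' := by
      rw [Finset.disjoint_left]
      intro ω h4 h5
      have h6 := (Finset.mem_filter.1 h4).2
      have h7 := (Finset.mem_filter.1 h5).2
      rw [h6] at h7
      exact absurd h7 (by decide)
    rw [← Finset.card_union_of_disjoint h3, h2, Finset.card_univ, Fintype.card_fun, Fintype.card_bool]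
  -- good strings with `ω c = true`
  have hGA : G.card ≤ A.card + T'.card := by
    have h2 : G ⊆ A ∪ T' := by
      intro ω hω
      have h3 := (Finset.mem_filter.1 hω).2
      rw [Finset.mem_union]
      cases h4 : ω c with
      | false => exact Or.inr (Finset.mem_filter.2 ⟨Finset.mem_univ _, h4⟩)
      | true =>
        left
        refine Finset.mem_filter.2 ⟨Finset.mem_univ _, h4, ?_⟩
        rcases h3 with h3 | h3
        · exfalso
          have h5 : (∑ v, if K v = {c} then p v else 0) ≤ gS p K ω true := by
            unfold gS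
            refine Finset.sum_le_sum fun v _ => ?_
            by_cases h6 : K v = {c}
            · rw [if_pos h6, if_pos]
              exact ⟨c, by rw [h6]; exact Finset.mem_singleton_self c, h4⟩
            · rw [if_neg h6]
              split_ifs
              · exact hp v
              · exact le_rfl
          linarith
        · exact h3
    exact (Finset.card_le_card h2).trans (Finset.card_union_le _ _)
  -- flipping all bits except the one at `c`
  set φ : (W → Bool) → (W → Bool) := fun ω x => if x = c then ω x else !ω x with hφ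
  have hφφ : ∀ ω, φ (φ ω) = ω := by
    intro ω
    funext x
    simp only [hφ]
    by_cases hx : x = c
    · rw [if_pos hx, if_pos hx]
    · rw [if_neg hx, if_neg hx, Bool.not_not]
  have hinj : Function.Injective φ := fun a b hab => by rw [← hφφ a, hab, hφφ]
  have hne : ∃ ω, ω ∈ A ∧ φ ω ∈ A := by
    by_contra hcon
    push Not at hcon
    have hdis : Disjoint A (A.image φ) := by
      rw [Finset.disjoint_left]
      intro ω hω hω'
      obtain ⟨η, hη, rfl⟩ := Finset.mem_image.1 hω'
      exact hcon η hη hω
    have h2 : A ∪ A.image φ ⊆ T := by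
      intro ω hω
      rcases Finset.mem_union.1 hω with hω | hω
      · exact Finset.mem_filter.2 ⟨Finset.mem_univ _, (Finset.mem_filter.1 hω).2.1⟩
      · obtain ⟨η, hη, rfl⟩ := Finset.mem_image.1 hω
        refine Finset.mem_filter.2 ⟨Finset.mem_univ _, ?_⟩
        simp only [hφ, if_true]
        exact (Finset.mem_filter.1 hη).2.1
    have h3 := Finset.card_le_card h2
    rw [Finset.card_union_of_disjoint hdis, Finset.card_image_of_injective A hinj] at h3
    have e1 : ((A.card + A.card : ℕ) : ℝ) ≤ ((T.card : ℕ) : ℝ) := by exact_mod_cast h3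
    have e2 : ((G.card : ℕ) : ℝ) ≤ ((A.card + T'.card : ℕ) : ℝ) := by exact_mod_cast hGA
    have e3 : ((T.card : ℕ) : ℝ) = ((T'.card : ℕ) : ℝ) := by exact_mod_cast hcard
    have e4 : ((T.card + T'.card : ℕ) : ℝ) = ((2 ^ Fintype.card W : ℕ) : ℝ) := by exact_mod_cast hsum
    push_cast at e1 e2 e3 e4
    have h5 : (0 : ℝ) < 2 ^ Fintype.card W := by positivity
    linarith
  obtain ⟨ω, hω, hω'⟩ := hne
  have g1 : gS p K ω false ≤ δ := (Finset.mem_filter.1 hω).2.2
  have g2 : gS p K (φ ω) false ≤ δ := (Finset.mem_filter.1 hω').2.2
  have h2 : (∑ v, if K v ⊆ {c} then 0 else p v) ≤ gS p K ω false + gS p K (φ ω) false := by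
    unfold gS
    rw [← Finset.sum_add_distrib]
    refine Finset.sum_le_sum fun v _ => ?_
    have n1 : 0 ≤ (if ∃ x ∈ K v, ω x = false then p v else 0) := by
      split_ifs
      · exact hp v
      · exact le_rfl
    have n2 : 0 ≤ (if ∃ x ∈ K v, φ ω x = false then p v else 0) := by
      split_ifs
      · exact hp v
      · exact le_rfl
    by_cases h3 : K v ⊆ {c}
    · rw [if_pos h3]
      linarith
    · rw [if_neg h3]
      obtain ⟨x, hx, hxc⟩ := Finset.not_subset.1 h3
      have hxc' : x ≠ c := fun h => hxc (Finset.mem_singleton.2 h)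
      cases h4 : ω x with
      | false =>
        have h5 : ∃ x ∈ K v, ω x = false := ⟨x, hx, h4⟩
        rw [if_pos h5]
        linarith
      | true =>
        have h5 : ∃ x ∈ K v, φ ω x = false := by
          refine ⟨x, hx, ?_⟩
          simp only [hφ]
          rw [if_neg hxc', h4]
          rfl
        rw [if_pos h5]
        linarith
  linarith

end Pool.Agent.COR
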