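import Pool.Agent.Lib_MP_2c424f_cor.Defs
import Pool.Agent.Lib_MP_2c424f_cor.C01
import Pool.Agent.Lib_MP_2c424f_lo.BSum
import Pool.Agent.Lib_MP_2c424f_lo.DSum

/-!
# Blocks and exchanges of two colours (piece C04, (C1))

`f`, `f'` have the same sets `{· = c}` on the closed block `t` for all colours `c ≠ i, j` (e.g. `f' = kfl i j S f`).  Then `zb`, `zj`
(hence `mb`, `mj`, `lab0`) agree for these colours (`pt_step`: an allowed step leads to a point of the block), so `AL f t` and
`AL f' t` agree outside `{i, j}`; if they have the same cardinality the numbers of elements in `{i, j}` agree.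
`AL_lab0`: `c ∈ AL f t` iff `lab0`; if no colour is bad, `c ∉ AL f t` iff `lab1`; `c ∈ AL f t → mb f t c ≤ dl q`
(`mb_le_mj`, `d ≥ 1`).
-/

set_option autoImplicit false

open Finset

namespace Pool.Agent.COR

open Pool.Agent.LO

variable {d k q : ℕ}

private theorem C04_mem {f : Site d (k + 1) → Fin q} {t : Blk d k} {c : Fin q} :
    c ∈ AL f t ↔ lab0 f t c := by
  classical
  unfold AL
  rw [Finset.mem_filter]
  exact ⟨fun h => h.2, fun h => ⟨Finset.mem_univ _, h⟩⟩

private theorem C04_mj (t : Blk d k) (f f' : Site d (k + 1) → Fin q) (c : Fin q)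
    (h : ∀ a b, (f' (pt t a b) = c ↔ f (pt t a b) = c)) (j : Fin d) :
    mj f' t c j = mj f t c j := by
  classical
  unfold mj
  congr 1
  funext a b
  unfold zj
  have h1 : (∀ σ : Stp d, σ.1 ≠ j → alw a b σ → f' (pt t a b + sv σ) ≠ c) ↔
      ∀ σ : Stp d, σ.1 ≠ j → alw a b σ → f (pt t a b + sv σ) ≠ c := by
    refine forall_congr' fun σ => forall_congr' fun _ => forall_congr' fun hσ => ?_
    obtain ⟨a', b', hab⟩ := pt_step t a b σ hσ
    rw [hab]
    exact not_congr (h a' b')
  simp only [h1]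

open scoped Classical in
private theorem C04_card {i j : Fin q} (hij : i ≠ j) (A : Finset (Fin q)) :
    A.card = ((A.erase i).erase j).card + ((if i ∈ A then 1 else 0) + (if j ∈ A then 1 else 0)) := by
  by_cases hi : i ∈ A
  · by_cases hj : j ∈ A
    · have h1 : j ∈ A.erase i := Finset.mem_erase.2 ⟨hij.symm, hj⟩
      have h2 := Finset.card_erase_add_one h1
      have h3 := Finset.card_erase_add_one hi
      rw [if_pos hi, if_pos hj]
      omega
    · have h1 : j ∉ A.erase i := fun h => hj (Finset.mem_of_mem_erase h)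
      have h3 := Finset.card_erase_add_one hi
      rw [if_pos hi, if_neg hj, Finset.erase_eq_of_notMem h1]
      omega
  · rw [Finset.erase_eq_of_notMem hi, if_neg hi]
    by_cases hj : j ∈ A
    · have h3 := Finset.card_erase_add_one hj
      rw [if_pos hj]
      omega
    · rw [if_neg hj, Finset.erase_eq_of_notMem hj]
      omega

open scoped Classical in
theorem AL_bal {i j : Fin q} (hij : i ≠ j) (t : Blk d k) (f f' : Site d (k + 1) → Fin q)
    (h : ∀ a b c, c ≠ i → c ≠ j → (f' (pt t a b) = c ↔ f (pt t a b) = c))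
    (hc : (AL f' t).card = (AL f t).card) :
    (∀ c, c ≠ i → c ≠ j → (c ∈ AL f' t ↔ c ∈ AL f t)) ∧
      (if i ∈ AL f' t then 1 else 0) + (if j ∈ AL f' t then 1 else 0) =
        (if i ∈ AL f t then 1 else 0) + (if j ∈ AL f t then (1 : ℕ) else 0) := by
  have h1 : ∀ c, c ≠ i → c ≠ j → (c ∈ AL f' t ↔ c ∈ AL f t) := by
    intro c hci hcj
    rw [C04_mem, C04_mem]
    unfold lab0
    refine forall_congr' fun l => ?_
    rw [C04_mj t f f' c (fun a b => h a b c hci hcj) l]
  refine ⟨h1, ?_⟩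
  have h2 : ((AL f' t).erase i).erase j = ((AL f t).erase i).erase j := by
    ext c
    simp only [Finset.mem_erase]
    constructor
    · rintro ⟨hj, hi, hm⟩
      exact ⟨hj, hi, (h1 c hi hj).1 hm⟩
    · rintro ⟨hj, hi, hm⟩
      exact ⟨hj, hi, (h1 c hi hj).2 hm⟩
  have h3 := C04_card hij (AL f' t)
  have h4 := C04_card hij (AL f t)
  rw [h2] at h3
  omega

theorem AL_mb (hd : 1 ≤ d) {f : Site d (k + 1) → Fin q} {t : Blk d k} {c : Fin q} (h : c ∈ AL f t) :
    mb f t c ≤ dl q := by
  rw [C04_mem] at h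
  exact (mb_le_mj f t c ⟨0, hd⟩).trans (h ⟨0, hd⟩)

theorem GD_iff (hd : 1 ≤ d) (hq : 1 ≤ q) {f : Site d (k + 1) → Fin q} {t : Blk d k} (h : ∀ c, ¬ bad c t f)
    (c : Fin q) : (c ∉ AL f t ↔ lab1 f t c) ∧ (c ∈ AL f t ↔ ¬ lab1 f t c) := by
  have hlt : dl q < 1 - dl q := by
    unfold dl
    have hq' : (1 : ℝ) ≤ q := by exact_mod_cast hq
    have h1 : 1 / (100 * (q : ℝ)) ≤ 1 / 100 :=
      one_div_le_one_div_of_le (by norm_num) (by linarith)
    linarith
  have h0 : lab0 f t c → ¬ lab1 f t c := by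
    intro h0 h1
    have h2 : mb f t c ≤ dl q := AL_mb hd (C04_mem.2 h0)
    unfold lab1 at h1
    linarith
  have hb := h c
  unfold bad at hb
  rw [C04_mem]
  tauto

end Pool.Agent.COR
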