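import Pool.Agent.Lib_MP_2c424f_cor.C04
import Pool.Agent.Lib_MP_2c424f_cor.C03

/-!
# A block which is good before and after a flip (piece C05, (C1))

`Kb a b` = representatives of the clusters of the neighbours of colour `j` of the point `(a,b)` inside the block.
`Kb_empty`: `Kb a b = ∅` iff no neighbour inside the block has the colour `j`, i.e. `zb f t a b j = 1`.
`C1`: let `f' = fw ω f`.  If `Kb a b` contains a point with the bit `true`, then a neighbour of colour `j` in the block gets the
colour `i`, so `zb f' t a b i = 0`; hence `EB 1(∃ x ∈ Kb, ω x = true) ≤ 1 - mb f' t i`.  If `Kb a b` contains a point with the bit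
`false` the point still sees `j`: `EB 1(∃ x ∈ Kb, ω x = false) ≤ 1 - mb f' t j`.  By `AL_bal` (`fw_other`; both cardinalities are
`q/2`) exactly one of `i`, `j` is in `AL f' t`; the other one satisfies `lab1` (`GD_iff`), so `1 - mb ≤ dl q`.
-/

set_option autoImplicit false

open Finset

namespace Pool.Agent.COR

open Pool.Agent.LO

variable {d k q : ℕ}

open scoped Classical in
/-- the clusters of the neighbours of colour `j` inside the block -/
noncomputable def Kb (V : Finset (Site d (k + 1))) (f : Site d (k + 1) → Fin q) (i j : Fin q) (t : Blk d k)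
    (a b : Bt d) : Finset (Site d (k + 1)) :=
  (univ.filter fun σ : Stp d => alw a b σ ∧ f (pt t a b + sv σ) = j).image
    fun σ => rpc (gV V) f i j (pt t a b + sv σ)

open scoped Classical in
/-- almost all odd points of the block see `j` only in the cluster represented by `c` -/
def FINE (V : Finset (Site d (k + 1))) (f : Site d (k + 1) → Fin q) (i j : Fin q) (t : Blk d k) : Prop :=
  ∃ c : Site d (k + 1), EB (fun a b => if Kb V f i j t a b ⊆ {c} then 0 else 1) ≤ 2 * dl q

theorem Kb_empty (V : Finset (Site d (k + 1))) (f : Site d (k + 1) → Fin q) (i j : Fin q) (t : Blk d k)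
    (a b : Bt d) : Kb V f i j t a b = ∅ ↔ zb f t a b j = 1 := by
  classical
  unfold Kb zb
  rw [Finset.image_eq_empty, Finset.filter_eq_empty_iff]
  constructor
  · intro h
    rw [if_pos]
    intro σ hσ hf
    exact h (mem_univ σ) ⟨hσ, hf⟩
  · intro h σ _ hσ
    by_cases h' : ∀ σ : Stp d, alw a b σ → f (pt t a b + sv σ) ≠ j
    · exact h' σ hσ.1 hσ.2
    · rw [if_neg h'] at h
      exact zero_ne_one h

open scoped Classical in
theorem C1 (hd : 1 ≤ d) (hq : 1 ≤ q) {V : Finset (Site d (k + 1))} {f : Site d (k + 1) → Fin q} {i j : Fin q}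
    (hij : i ≠ j) {t : Blk d k} (hg : GD t f) (hj : j ∈ AL f t) (hi : i ∉ AL f t) (ω : Site d (k + 1) → Bool)
    (hg' : GD t (fw (gV V) i j ω f)) :
    EB (fun a b => if ∃ x ∈ Kb V f i j t a b, ω x = true then 1 else 0) ≤ dl q ∨
      EB (fun a b => if ∃ x ∈ Kb V f i j t a b, ω x = false then 1 else 0) ≤ dl q := by
  classical
  have hbal := AL_bal hij t f (fw (gV V) i j ω f)
    (fun a b c hci hcj => fw_other (gV V) i j ω f (pt t a b) c hci hcj) (hg'.2.trans hg.2.symm)
  have h2 := hbal.2
  rw [if_neg hi, if_pos hj] at h2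
  -- the pointwise inequality
  have key : ∀ (c : Fin q) (β : Bool), (∀ y, f y = j → ω (rpc (gV V) f i j y) = β →
      fw (gV V) i j ω f y = c) → lab1 (fw (gV V) i j ω f) t c →
      EB (fun a b => if ∃ x ∈ Kb V f i j t a b, ω x = β then 1 else 0) ≤ dl q := by
    intro c β hc hl
    have h3 : EB (fun a b => (if ∃ x ∈ Kb V f i j t a b, ω x = β then (1 : ℝ) else 0) +
        zb (fw (gV V) i j ω f) t a b c) ≤ EB (fun _ _ : Bt d => (1 : ℝ)) := by
      apply EB_mono
      intro a b _
      by_cases h4 : ∃ x ∈ Kb V f i j t a b, ω x = β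
      · rw [if_pos h4]
        obtain ⟨x, hx, hx'⟩ := h4
        unfold Kb at hx
        obtain ⟨σ, hσ, rfl⟩ := Finset.mem_image.1 hx
        rw [Finset.mem_filter] at hσ
        have h5 : zb (fw (gV V) i j ω f) t a b c = 0 := by
          unfold zb
          rw [if_neg]
          intro h6
          exact h6 σ hσ.2.1 (hc _ hσ.2.2 hx')
        rw [h5, add_zero]
      · rw [if_neg h4, zero_add]
        unfold zb
        split_ifs
        · exact le_rfl
        · exact zero_le_one
    rw [EB_add, card_od hd] at h3
    have h4 : 1 - dl q ≤ mb (fw (gV V) i j ω f) t c := hl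
    have h5 : mb (fw (gV V) i j ω f) t c = EB fun a b => zb (fw (gV V) i j ω f) t a b c := rfl
    rw [h5] at h4
    linarith
  by_cases hi' : i ∈ AL (fw (gV V) i j ω f) t
  · right
    have hj' : j ∉ AL (fw (gV V) i j ω f) t := by
      intro hj'
      rw [if_pos hi', if_pos hj'] at h2
      omega
    refine key j false (fun y hy hω => ?_) ((GD_iff hd hq hg'.1 j).1.1 hj')
    rw [fw_false (gV V) i j ω f y hω, hy]
  · left
    exact key i true (fun y hy hω => (fw_true (gV V) i j ω f y hω).1 hy)
      ((GD_iff hd hq hg'.1 i).1.1 hi')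

end Pool.Agent.COR
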