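import Pool.Agent.Lib_MP_2c424f_cor.C05

/-!
# Blocks which are not fine become not good (piece C06, (C3) first part)

`dich` with `Y = Bt d × Bt d`, `p (a,b) = 2/4^d` if `od a b`, otherwise `0` (`∑ p = 1`: `card_od`; `∑ p F = EB F`), `K = Kb`,
`δ = dl q ≤ 1/100`; `hK`: `Kb_empty`, `EB 1(Kb = ∅) = mb f t j ≤ dl q` (`AL_mb`).  If more than `9/10` of the `ω` gave a good block,
`C1` and `dich` would give `FINE`.
-/

set_option autoImplicit false

open Finset

namespace Pool.Agent.COR

open Pool.Agent.LO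

variable {d k q : ℕ}

open scoped Classical in
/-- the weights of the odd points -/
private noncomputable def C06_p (d : ℕ) (v : Bt d × Bt d) : ℝ := if od v.1 v.2 then 2 / 4 ^ d else 0

private theorem C06_EB (G : Bt d → Bt d → ℝ) : EB G = ∑ v : Bt d × Bt d, C06_p d v * G v.1 v.2 := by
  classical
  unfold EB
  rw [Fintype.sum_prod_type, Finset.mul_sum, Finset.sum_div]
  refine Finset.sum_congr rfl fun a _ => ?_
  rw [Finset.mul_sum, Finset.sum_div]
  refine Finset.sum_congr rfl fun b _ => ?_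
  unfold C06_p
  by_cases h : od a b
  · rw [if_pos h, if_pos h]
    ring
  · rw [if_neg h, if_neg h]
    ring

private theorem C06_fc {W : Type} (i1 i2 : Fintype W) (p : W → Prop) (d1 d2 : DecidablePred p) :
    (@Finset.filter W p d1 (@Finset.univ W i1)).card = (@Finset.filter W p d2 (@Finset.univ W i2)).card := by
  have e1 : i1 = i2 := Subsingleton.elim _ _
  have e2 : d1 = d2 := Subsingleton.elim _ _
  subst e1 e2
  rfl

open scoped Classical in
private theorem C06_dich {Y W : Type} [Fintype Y] [Fintype W] [inst : Fintype (W → Bool)] (p : Y → ℝ)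
    (hp : ∀ v, 0 ≤ p v) (h1 : ∑ v, p v = 1)
    (K : Y → Finset W) (δ : ℝ) (h0 : 0 ≤ δ) (hδ : δ ≤ 1 / 100) (hK : (∑ v, if K v = ∅ then p v else 0) ≤ δ)
    (H : (9 / 10 : ℝ) * 2 ^ Fintype.card W <
      (((@univ (W → Bool) inst).filter
        fun ω : W → Bool => gS p K ω true ≤ δ ∨ gS p K ω false ≤ δ).card : ℝ)) :
    ∃ c : W, (∑ v, if K v ⊆ {c} then 0 else p v) ≤ 2 * δ := by
  refine dich p hp h1 K δ h0 hδ hK ?_
  exact lt_of_lt_of_eq H (congrArg Nat.cast (C06_fc _ _ _ _ _))

open scoped Classical in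
theorem not_fine (hd : 1 ≤ d) (hq : 1 ≤ q) {V : Finset (Site d (k + 1))} {f : Site d (k + 1) → Fin q}
    {i j : Fin q} (hij : i ≠ j) {t : Blk d k} (hg : GD t f) (hj : j ∈ AL f t) (hi : i ∉ AL f t)
    (hF : ¬ FINE V f i j t) :
    ((univ.filter fun ω : Site d (k + 1) → Bool => GD t (fw (gV V) i j ω f)).card : ℝ) ≤
      9 / 10 * 2 ^ Fintype.card (Site d (k + 1)) := by
  by_contra hcon
  rw [not_le] at hcon
  apply hF
  have hq0 : (1 : ℝ) ≤ q := by exact_mod_cast hq
  have hdl : 0 ≤ dl q := by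
    unfold dl
    positivity
  have hdl1 : dl q ≤ 1 / 100 := by
    unfold dl
    apply one_div_le_one_div_of_le (by norm_num)
    linarith
  have hind : ∀ (ω : Site d (k + 1) → Bool) (β : Bool),
      gS (C06_p d) (fun v : Bt d × Bt d => Kb V f i j t v.1 v.2) ω β =
        EB (fun a b => if ∃ x ∈ Kb V f i j t a b, ω x = β then 1 else 0) := by
    intro ω β
    rw [C06_EB]
    unfold gS
    refine Finset.sum_congr rfl fun v _ => ?_
    by_cases h : ∃ x ∈ Kb V f i j t v.1 v.2, ω x = β
    · rw [if_pos h, if_pos h, mul_one]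
    · rw [if_neg h, if_neg h, mul_zero]
  obtain ⟨c, hc⟩ := C06_dich (W := Site d (k + 1)) (C06_p d) (fun v => by
      unfold C06_p
      split_ifs
      · positivity
      · exact le_rfl) (by
      have h1 := card_od (d := d) hd
      rw [C06_EB] at h1
      rw [← h1]
      exact Finset.sum_congr rfl fun v _ => (mul_one _).symm)
    (fun v => Kb V f i j t v.1 v.2) (dl q) hdl hdl1 (by
      have h1 := AL_mb hd hj
      refine le_trans (le_of_eq ?_) h1
      unfold mb
      rw [C06_EB]
      refine Finset.sum_congr rfl fun v _ => ?_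
      by_cases h : Kb V f i j t v.1 v.2 = ∅
      · rw [if_pos h, (Kb_empty V f i j t v.1 v.2).1 h, mul_one]
      · rw [if_neg h]
        have h2 : zb f t v.1 v.2 j = 0 := by
          have h3 : zb f t v.1 v.2 j ≠ 1 := fun h4 => h ((Kb_empty V f i j t v.1 v.2).2 h4)
          unfold zb at h3 ⊢
          split_ifs at h3 ⊢ with h5
          · exact absurd rfl h3
          · rfl
        rw [h2, mul_zero])
    (by
      refine lt_of_lt_of_le hcon ?_
      refine Nat.cast_le.2 (Finset.card_le_card ?_)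
      intro ω hω
      rw [Finset.mem_filter] at hω ⊢
      refine ⟨Finset.mem_univ _, ?_⟩
      rw [hind, hind]
      exact C1 hd hq hij hg hj hi ω hω.2)
  refine ⟨c, ?_⟩
  rw [C06_EB]
  refine le_trans (le_of_eq ?_) hc
  refine Finset.sum_congr rfl fun v _ => ?_
  by_cases h : Kb V f i j t v.1 v.2 ⊆ {c}
  · rw [if_pos h, if_pos h, mul_zero]
  · rw [if_neg h, if_neg h, mul_one]

end Pool.Agent.COR
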