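import Pool.Agent.Lib_MP_2c424f_cor.C06
import Pool.Agent.Lib_MP_2c424f_cor.V01

/-!
# Few blocks are not fine (piece C07, (C3))

Let `f` be `V`-proper with at least `20 η |Q|` blocks `t ∈ Q` which are good, `j ∈ AL`, `i ∉ AL`, not fine.  By `not_fine` the mean
over `ω` of `X(ω) = #{t ∈ Q : ¬ GD t (fw ω f)}` is at least `2 η |Q|`; as `X ≤ |Q|`, the proportion of the `ω` with
`X(ω) ≥ η |Q|` is at least `η` (for `Q = ∅` all `ω`; `η ≤ 1`).  Sum over `f`, exchange the sums; for each `ω`,
`#{f : X(ω) ≥ η |Q|} = #{f : #{t ∈ Q : ¬ GD t f} ≥ η |Q|}` (`cG_fw`, `cV_eq`).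
-/

set_option autoImplicit false

open Finset

namespace Pool.Agent.COR

open Pool.Agent.LO

variable {d k q : ℕ}

/-- double counting over a product -/
private theorem C07_double {A B : Type} [Fintype A] [Fintype B] (P : A → Prop) (R : A → B → Prop)
    (hP : DecidablePred P) (hR : ∀ a, DecidablePred (R a)) (hR' : ∀ b, DecidablePred fun a => R a b)
    (m z : ℝ)
    (h1 : ∀ a, P a → m ≤ ((univ.filter fun b => R a b).card : ℝ))
    (h2 : ∀ b, ((univ.filter fun a => R a b).card : ℝ) ≤ z) :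
    ((univ.filter P).card : ℝ) * m ≤ (Fintype.card B : ℝ) * z := by
  have e1 : ((univ.filter P).card : ℝ) * m = ∑ a ∈ univ.filter P, m := by
    rw [Finset.sum_const, nsmul_eq_mul]
  have e2 : (Fintype.card B : ℝ) * z = ∑ _b : B, z := by
    rw [Finset.sum_const, nsmul_eq_mul, Finset.card_univ]
  rw [e1, e2]
  calc ∑ a ∈ univ.filter P, m ≤ ∑ a ∈ univ.filter P, ((univ.filter fun b => R a b).card : ℝ) :=
        Finset.sum_le_sum fun a ha => h1 a (Finset.mem_filter.1 ha).2
    _ ≤ ∑ a, ((univ.filter fun b => R a b).card : ℝ) :=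
        Finset.sum_le_univ_sum_of_nonneg fun a => Nat.cast_nonneg _
    _ = ∑ a, ∑ b, (if R a b then (1 : ℝ) else 0) := by
        refine Finset.sum_congr rfl fun a _ => ?_
        rw [Finset.natCast_card_filter]
    _ = ∑ b, ∑ a, (if R a b then (1 : ℝ) else 0) := Finset.sum_comm
    _ = ∑ b, ((univ.filter fun a => R a b).card : ℝ) := by
        refine Finset.sum_congr rfl fun b _ => ?_
        rw [Finset.natCast_card_filter]
    _ ≤ ∑ _b : B, z := Finset.sum_le_sum fun b _ => h2 b

/-- Markov for a bounded count -/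
private theorem C07_markov {T B : Type} [Fintype B] (Q S : Finset T) (hS : S ⊆ Q) (G : T → B → Prop)
    (hG : ∀ t, DecidablePred (G t)) (hG' : ∀ b, DecidablePred fun t => ¬ G t b)
    (η : ℝ) (h0 : 0 < η) (h1 : η ≤ 1) (hc : 20 * η * (Q.card : ℝ) ≤ (S.card : ℝ))
    (h : ∀ t ∈ S, ((univ.filter fun b => G t b).card : ℝ) ≤ 9 / 10 * (Fintype.card B : ℝ))
    (hD : DecidablePred fun b => η * (Q.card : ℝ) ≤ ((Q.filter fun t => ¬ G t b).card : ℝ)) :
    η * (Fintype.card B : ℝ) ≤
      ((univ.filter fun b => η * (Q.card : ℝ) ≤ ((Q.filter fun t => ¬ G t b).card : ℝ)).card : ℝ) := by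
  classical
  set N : ℝ := (Fintype.card B : ℝ) with hN
  have hN0 : 0 ≤ N := Nat.cast_nonneg _
  set X : B → ℝ := fun b => ((Q.filter fun t => ¬ G t b).card : ℝ) with hX
  set g : ℝ := ((univ.filter fun b => η * (Q.card : ℝ) ≤ X b).card : ℝ) with hg
  have hcardB : ((univ : Finset B).card : ℝ) = N := by rw [Finset.card_univ]
  -- the sum of `X`
  have hlow : 2 * η * (Q.card : ℝ) * N ≤ ∑ b, X b := by
    have s1 : ∀ t ∈ S, N / 10 ≤ ((univ.filter fun b => ¬ G t b).card : ℝ) := by
      intro t ht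
      have h3 : ((univ.filter fun b => G t b).card : ℝ) + ((univ.filter fun b => ¬ G t b).card : ℝ) = N := by
        rw [← hcardB, ← Nat.cast_add]
        congr 1
        exact Finset.card_filter_add_card_filter_not (s := (univ : Finset B)) (fun b => G t b)
      have h4 := h t ht
      linarith
    have s2 : (S.card : ℝ) * (N / 10) ≤ ∑ t ∈ S, ((univ.filter fun b => ¬ G t b).card : ℝ) := by
      rw [← nsmul_eq_mul]
      exact Finset.card_nsmul_le_sum _ _ _ s1
    have s3 : ∑ t ∈ S, ((univ.filter fun b => ¬ G t b).card : ℝ) ≤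
        ∑ t ∈ Q, ((univ.filter fun b => ¬ G t b).card : ℝ) :=
      Finset.sum_le_sum_of_subset_of_nonneg hS fun t _ _ => Nat.cast_nonneg _
    have s4 : ∑ t ∈ Q, ((univ.filter fun b => ¬ G t b).card : ℝ) = ∑ b, X b := by
      have e1 : ∀ t ∈ Q, ((univ.filter fun b => ¬ G t b).card : ℝ) =
          ∑ b, (if ¬ G t b then (1 : ℝ) else 0) := by
        intro t _
        rw [Finset.natCast_card_filter]
      rw [Finset.sum_congr rfl e1, Finset.sum_comm]
      refine Finset.sum_congr rfl fun b _ => ?_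
      simp only [hX]
      rw [Finset.natCast_card_filter]
    have s5 : 20 * η * (Q.card : ℝ) * (N / 10) ≤ (S.card : ℝ) * (N / 10) :=
      mul_le_mul_of_nonneg_right hc (by positivity)
    nlinarith [s2, s3, s4, s5]
  have hup : ∑ b, X b ≤ g * (Q.card : ℝ) + N * (η * (Q.card : ℝ)) := by
    have hXQ : ∀ b, X b ≤ (Q.card : ℝ) := by
      intro b
      simp only [hX]
      exact_mod_cast Finset.card_filter_le _ _
    have s1 : ∀ b, X b ≤ (if η * (Q.card : ℝ) ≤ X b then (Q.card : ℝ) else 0) + η * (Q.card : ℝ) := by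
      intro b
      have hp : 0 ≤ η * (Q.card : ℝ) := by positivity
      by_cases hh : η * (Q.card : ℝ) ≤ X b
      · rw [if_pos hh]
        linarith [hXQ b]
      · rw [if_neg hh]
        linarith
    have s2 : ∑ b, X b ≤ ∑ b, ((if η * (Q.card : ℝ) ≤ X b then (Q.card : ℝ) else 0) + η * (Q.card : ℝ)) :=
      Finset.sum_le_sum fun b _ => s1 b
    rw [Finset.sum_add_distrib, ← Finset.sum_filter, Finset.sum_const, Finset.sum_const, nsmul_eq_mul,
      nsmul_eq_mul, hcardB] at s2
    refine s2.trans (le_of_eq ?_)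
    rw [hg]
  have goal : η * N ≤ g := by
    rcases Nat.eq_zero_or_pos Q.card with hQ | hQ
    · have : g = N := by
        rw [hg, ← hcardB]
        congr 1
        rw [Finset.filter_true_of_mem]
        intro b _
        rw [hQ, Nat.cast_zero, mul_zero]
        simp only [hX]
        positivity
      rw [this]
      nlinarith
    · have hQ' : (0 : ℝ) < Q.card := by exact_mod_cast hQ
      have : η * N * (Q.card : ℝ) ≤ g * (Q.card : ℝ) := by nlinarith
      exact le_of_mul_le_mul_right this hQ'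
  exact goal

open scoped Classical in
theorem few_not_fine (hd : 1 ≤ d) (hk : 1 ≤ k) (hq : 1 ≤ q) (V : Finset (Site d (k + 1))) {i j : Fin q}
    (hij : i ≠ j) (Q : Finset (Blk d k)) (η : ℝ) (h0 : 0 < η) (h1 : η ≤ 1) :
    η * cV V (fun f : Site d (k + 1) → Fin q => 20 * η * (Q.card : ℝ) ≤
        ((Q.filter fun t => GD t f ∧ j ∈ AL f t ∧ i ∉ AL f t ∧ ¬ FINE V f i j t).card : ℝ)) ≤
      cV V (fun f : Site d (k + 1) → Fin q => η * (Q.card : ℝ) ≤ ((Q.filter fun t => ¬ GD t f).card : ℝ)) := by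
  set Z : ℝ := cV V (fun f : Site d (k + 1) → Fin q => η * (Q.card : ℝ) ≤ ((Q.filter fun t => ¬ GD t f).card : ℝ))
    with hZ
  have hcard : (Fintype.card (Site d (k + 1) → Bool) : ℝ) = 2 ^ Fintype.card (Site d (k + 1)) := by
    rw [Fintype.card_fun, Fintype.card_bool, Nat.cast_pow]
    norm_num
  have hpos : (0 : ℝ) < Fintype.card (Site d (k + 1) → Bool) := by
    rw [hcard]
    positivity
  have inv : ∀ ω : Site d (k + 1) → Bool, cV V (fun f : Site d (k + 1) → Fin q =>
      η * (Q.card : ℝ) ≤ ((Q.filter fun t => ¬ GD t (fw (gV V) i j ω f)).card : ℝ)) = Z := by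
    intro ω
    rw [hZ, cV_eq (by omega), cV_eq (by omega)]
    exact cG_fw (gV V) i j ω (fun f : Site d (k + 1) → Fin q =>
      η * (Q.card : ℝ) ≤ ((Q.filter fun t => ¬ GD t f).card : ℝ))
  have main := C07_double (A := Site d (k + 1) → Fin q) (B := Site d (k + 1) → Bool)
    (fun f => PrV V f ∧ 20 * η * (Q.card : ℝ) ≤
        ((Q.filter fun t => GD t f ∧ j ∈ AL f t ∧ i ∉ AL f t ∧ ¬ FINE V f i j t).card : ℝ))
    (fun f ω => PrV V f ∧ η * (Q.card : ℝ) ≤ ((Q.filter fun t => ¬ GD t (fw (gV V) i j ω f)).card : ℝ))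
    (fun _ => Classical.propDecidable _) (fun _ _ => Classical.propDecidable _)
    (fun _ _ => Classical.propDecidable _)
    (η * (Fintype.card (Site d (k + 1) → Bool) : ℝ)) Z
    (by
      rintro f ⟨hf, hf'⟩
      have key := C07_markov Q (Q.filter fun t => GD t f ∧ j ∈ AL f t ∧ i ∉ AL f t ∧ ¬ FINE V f i j t)
        (Finset.filter_subset _ _) (fun t (ω : Site d (k + 1) → Bool) => GD t (fw (gV V) i j ω f))
        (fun _ _ => Classical.propDecidable _) (fun _ _ => Classical.propDecidable _) η h0 h1 hf'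
        (by
          intro t ht
          rw [Finset.mem_filter] at ht
          rw [hcard]
          have h5 := not_fine hd hq hij ht.2.1 ht.2.2.1 ht.2.2.2.1 ht.2.2.2.2
          convert h5)
        (fun _ => Classical.propDecidable _)
      refine key.trans ?_
      rw [Nat.cast_le]
      refine Finset.card_le_card fun ω hω => ?_
      simp only [Finset.mem_filter] at hω ⊢
      refine ⟨hω.1, hf, ?_⟩
      convert hω.2)
    (by
      intro ω
      rw [← inv ω]
      unfold cV
      rw [Nat.cast_le]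
      refine Finset.card_le_card fun f hf => ?_
      simp only [Finset.mem_filter] at hf ⊢
      exact hf)
  have e3 : cV V (fun f : Site d (k + 1) → Fin q => 20 * η * (Q.card : ℝ) ≤
        ((Q.filter fun t => GD t f ∧ j ∈ AL f t ∧ i ∉ AL f t ∧ ¬ FINE V f i j t).card : ℝ)) *
        (η * (Fintype.card (Site d (k + 1) → Bool) : ℝ)) ≤
      (Fintype.card (Site d (k + 1) → Bool) : ℝ) * Z := by
    refine le_trans (le_of_eq ?_) main
    unfold cV
    congr 2
    congr 1
    ext f
    simp only [Finset.mem_filter]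
  have e4 : (Fintype.card (Site d (k + 1) → Bool) : ℝ) *
      (η * cV V (fun f : Site d (k + 1) → Fin q => 20 * η * (Q.card : ℝ) ≤
        ((Q.filter fun t => GD t f ∧ j ∈ AL f t ∧ i ∉ AL f t ∧ ¬ FINE V f i j t).card : ℝ))) ≤
      (Fintype.card (Site d (k + 1) → Bool) : ℝ) * Z := by
    refine le_trans (le_of_eq ?_) e3
    ring
  exact le_of_mul_le_mul_left e4 hpos

end Pool.Agent.COR
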