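import Pool.Agent.Lib_MP_2c424f_cor.C05

/-!
# The main cluster of a fine block (piece C08, (C4))

`c` from `FINE`.  `EB 1(Kb = ∅) = mb f t j ≤ dl q` (`Kb_empty`, `AL_mb`), so `EB 1(Kb = {c}) ≥ 1 - 3 dl q ≥ 1/2`, i.e. `Kb a b = {c}`
for at least `4^d/4` pairs `(a,b)` with `od a b`.  Each of them has an allowed step `σ` with `x = pt t a b + sv σ`, `f x = j`,
`rpc x = c`; `x` is even (`evn_pt`, `evn_step`) and a point of the block (`pt_step`).  For fixed `x` the number of the pairs `(a,b)` is at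
most `2 d · 2^d`: `pt t a b = x - sv σ` for one of `2d` steps, and a point has at most `2^d` representations `(a,b)` in the block
(`a j + b j` is determined for all `j`).
-/

set_option autoImplicit false

open Finset

namespace Pool.Agent.COR

open Pool.Agent.LO

variable {d k q : ℕ}

/-- `s₀ = 2^d / (8 d)` -/
noncomputable def s0 (d : ℕ) : ℝ := 2 ^ d / (8 * d)

private theorem C08_bv (hk : 1 ≤ k) {a a' b b' : Bt d} {t : Blk d k} (h : pt t a b = pt t a' b')
    (ha : a = a') : b = b' := by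
  subst ha
  have h1 : (bv b : Site d (k + 1)) = bv b' := add_left_cancel h
  funext i
  have h2 := congrFun h1 i
  have : Fact (1 < 2 ^ (k + 1)) := ⟨Nat.one_lt_two_pow (by omega)⟩
  unfold bv at h2
  cases hb : b i <;> cases hb' : b' i <;> simp [hb, hb'] at h2 ⊢

open scoped Classical in
private theorem C08_part1 (hd : 1 ≤ d) (_hq : 1 ≤ q) {V : Finset (Site d (k + 1))}
    {f : Site d (k + 1) → Fin q} {i j : Fin q} {t : Blk d k} (hj : j ∈ AL f t)
    {c : Site d (k + 1)} (hc : EB (fun a b => if Kb V f i j t a b ⊆ {c} then 0 else 1) ≤ 2 * dl q) :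
    1 - 3 * dl q ≤ EB (fun a b => if Kb V f i j t a b = {c} then 1 else 0) := by
  have h1 : EB (fun _ _ : Bt d => (1 : ℝ)) ≤
      EB (fun a b => (if Kb V f i j t a b = {c} then (1 : ℝ) else 0) +
        (zb f t a b j + (if Kb V f i j t a b ⊆ {c} then 0 else 1))) := by
    refine EB_mono fun a b _ => ?_
    have hz : zb f t a b j = 0 ∨ zb f t a b j = 1 := by
      unfold zb
      split_ifs <;> simp
    by_cases hs : Kb V f i j t a b ⊆ {c}
    · rw [if_pos hs]
      rcases Finset.subset_singleton_iff.1 hs with he | he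
      · rw [(Kb_empty V f i j t a b).1 he]
        split_ifs <;> norm_num
      · rw [if_pos he]
        rcases hz with hz | hz <;> rw [hz] <;> norm_num
    · rw [if_neg hs]
      have h0 : 0 ≤ (if Kb V f i j t a b = {c} then (1 : ℝ) else 0) := by split_ifs <;> norm_num
      rcases hz with hz | hz <;> rw [hz] <;> linarith
  rw [card_od hd, EB_add, EB_add] at h1
  have h2 := AL_mb hd hj
  unfold mb at h2
  linarith

private theorem C08_EB (P : Bt d → Bt d → Prop) [∀ a b, Decidable (P a b)]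
    (S : Finset (Bt d × Bt d)) (hS : ∀ p, p ∈ S ↔ od p.1 p.2 ∧ P p.1 p.2) :
    EB (fun a b => if P a b then 1 else 0) = 2 * (S.card : ℝ) / 4 ^ d := by
  classical
  have e : S = univ.filter fun p : Bt d × Bt d => od p.1 p.2 ∧ P p.1 p.2 := by
    ext p
    rw [hS, Finset.mem_filter]
    simp
  rw [e]
  unfold EB
  congr 2
  rw [Finset.card_filter]
  push_cast
  rw [Fintype.sum_prod_type]
  refine Finset.sum_congr rfl fun a _ => Finset.sum_congr rfl fun b _ => ?_
  by_cases h1 : od a b <;> by_cases h2 : P a b <;> simp [h1, h2]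

open scoped Classical in
theorem fine_cluster (hd : 1 ≤ d) (hk : 1 ≤ k) (hq : 1 ≤ q) {V : Finset (Site d (k + 1))}
    {f : Site d (k + 1) → Fin q} {i j : Fin q} {t : Blk d k} (hj : j ∈ AL f t) (hF : FINE V f i j t) :
    ∃ c : Site d (k + 1), 1 - 3 * dl q ≤ EB (fun a b => if Kb V f i j t a b = {c} then 1 else 0) ∧
      s0 d ≤ ((univ.filter fun x : Site d (k + 1) =>
        (∃ a b, x = pt t a b) ∧ f x = j ∧ evn x ∧ rpc (gV V) f i j x = c).card : ℝ) := by
  obtain ⟨c, hc⟩ := hF
  have hp1 := C08_part1 hd hq hj hc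
  refine ⟨c, hp1, ?_⟩
  set X := univ.filter fun x : Site d (k + 1) =>
        (∃ a b, x = pt t a b) ∧ f x = j ∧ evn x ∧ rpc (gV V) f i j x = c with hX
  set S := univ.filter fun p : Bt d × Bt d => od p.1 p.2 ∧ Kb V f i j t p.1 p.2 = {c} with hS
  rw [C08_EB (fun a b => Kb V f i j t a b = {c}) S (fun p => by rw [hS, Finset.mem_filter]; simp)]
    at hp1
  have hdl : dl q ≤ 1 / 100 := by
    unfold dl
    have hq1 : (1 : ℝ) ≤ q := by exact_mod_cast hq
    rw [div_le_div_iff₀ (by positivity) (by norm_num)]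
    linarith
  have h4 : (0 : ℝ) < 4 ^ d := by positivity
  have hN : (4 : ℝ) ^ d / 4 ≤ (S.card : ℝ) := by
    have h1 : (1 / 2 : ℝ) ≤ 2 * (S.card : ℝ) / 4 ^ d := by linarith
    rw [le_div_iff₀ h4] at h1
    linarith
  have hex : ∀ p : Bt d × Bt d, ∃ σ : Stp d, p ∈ S → alw p.1 p.2 σ ∧ f (pt t p.1 p.2 + sv σ) = j ∧
      rpc (gV V) f i j (pt t p.1 p.2 + sv σ) = c := by
    intro p
    by_cases hp : p ∈ S
    · rw [hS, Finset.mem_filter] at hp
      have h1 : c ∈ Kb V f i j t p.1 p.2 := by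
        rw [hp.2.2]
        exact Finset.mem_singleton_self c
      unfold Kb at h1
      obtain ⟨σ, hσ, hr⟩ := Finset.mem_image.1 h1
      rw [Finset.mem_filter] at hσ
      exact ⟨σ, fun _ => ⟨hσ.2.1, hσ.2.2, hr⟩⟩
    · exact ⟨(⟨0, by omega⟩, true), fun h => absurd h hp⟩
  choose g hg using hex
  have hcard : S.card ≤ (X ×ˢ ((univ : Finset (Stp d)) ×ˢ (univ : Finset (Bt d)))).card := by
    refine Finset.card_le_card_of_injOn (fun p => (pt t p.1 p.2 + sv (g p), (g p, p.1))) ?_ ?_
    · intro p hp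
      obtain ⟨h1, h2, h3⟩ := hg p hp
      have hp2 : od p.1 p.2 := (Finset.mem_filter.1 hp).2.1
      have hev : evn (pt t p.1 p.2 + sv (g p)) := by
        rw [evn_step (by omega), evn_pt]
        exact fun h => h hp2
      have hmem : pt t p.1 p.2 + sv (g p) ∈ X := by
        rw [hX, Finset.mem_filter]
        exact ⟨Finset.mem_univ _, pt_step t p.1 p.2 (g p) h1, h2, hev, h3⟩
      exact Finset.mem_product.2 ⟨hmem, Finset.mem_product.2 ⟨Finset.mem_univ _, Finset.mem_univ _⟩⟩
    · intro p _ p' _ he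
      simp only [Prod.mk.injEq] at he
      obtain ⟨h1, h2, h3⟩ := he
      rw [h2] at h1
      have h5 : pt t p.1 p.2 = pt t p'.1 p'.2 := add_right_cancel h1
      exact Prod.ext h3 (C08_bv hk h5 h3)
  rw [Finset.card_product, Finset.card_product, Finset.card_univ, Finset.card_univ] at hcard
  have e1 : Fintype.card (Stp d) = d * 2 := by simp
  have e2 : Fintype.card (Bt d) = 2 ^ d := by simp
  rw [e1, e2] at hcard
  have hcard' : (S.card : ℝ) ≤ (X.card : ℝ) * (d * 2 * 2 ^ d) := by exact_mod_cast hcard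
  have h22 : (4 : ℝ) ^ d = 2 ^ d * 2 ^ d := by
    rw [← mul_pow]; norm_num
  have h2p : (0 : ℝ) < 2 ^ d := by positivity
  have hd' : (0 : ℝ) < d := by exact_mod_cast hd
  unfold s0
  rw [div_le_iff₀ (by positivity)]
  have h6 : (2 : ℝ) ^ d * 2 ^ d ≤ (X.card : ℝ) * (8 * d) * 2 ^ d := by
    rw [← h22]
    nlinarith
  exact le_of_mul_le_mul_right h6 h2p

end Pool.Agent.COR
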