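import Pool.Agent.Lib_MP_2c424f_cor.C08
import Pool.Agent.Lib_MP_2c424f_cor.V01

/-!
# Flipping the big wrong clusters (piece D01, (D1) definitions)

`wrg`: the cluster of `x` has even points of colour `j` and odd points of colour `i` (`kcl_col` with `par_gV`: inside a cluster of a
`V`-proper `f` the colour is determined by the parity, so `wrg` is constant on clusters: `wrg_kcl`).  `csz` is constant on
clusters (`kcl` is an equivalence relation).  Hence `wbg` is a union of clusters (`kun_of` style) and `Phi f` is `V`-proper.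
`csz_Phi`: `kcl_kfl`.
-/

set_option autoImplicit false

open Finset

namespace Pool.Agent.COR

open Pool.Agent.LO

variable {d k q : ℕ}

/-- the cluster of `x` has the wrong parity -/
def wrg (i j : Fin q) (f : Site d k → Fin q) (x : Site d k) : Prop := (f x = j ∧ evn x) ∨ (f x = i ∧ ¬ evn x)

open scoped Classical in
/-- number of points in `U` of the cluster of `x` -/
noncomputable def csz (V U : Finset (Site d k)) (i j : Fin q) (f : Site d k → Fin q) (x : Site d k) : ℕ :=
  (U.filter fun y => kcl (gV V) f i j x y).card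

open scoped Classical in
/-- the union of the wrong clusters with at least `m` points in `U` -/
noncomputable def wbg (V U : Finset (Site d k)) (m : ℝ) (i j : Fin q) (f : Site d k → Fin q) :
    Finset (Site d k) :=
  univ.filter fun x => wrg i j f x ∧ m ≤ (csz V U i j f x : ℝ)

/-- flip them -/
noncomputable def Phi (V U : Finset (Site d k)) (m : ℝ) (i j : Fin q) (f : Site d k → Fin q) :
    Site d k → Fin q := kfl i j (wbg V U m i j f) f

theorem wrg_kcl (hk : 1 ≤ k) {V : Finset (Site d k)} {f : Site d k → Fin q} (hf : PrV V f) {i j : Fin q}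
    (hij : i ≠ j) {x y : Site d k} (h : kcl (gV V) f i j x y) (hx : wrg i j f x) : wrg i j f y := by
  have hG := (prV_iff hk V f).1 hf
  have hx' : f x = i ∨ f x = j := by
    rcases hx with hx | hx
    · exact Or.inr hx.1
    · exact Or.inl hx.1
  have hy' := kcl_mem h hx'
  have hc := kcl_col (par_gV hk V) hG hx' h
  unfold wrg at hx ⊢
  rcases hx with ⟨h1, h2⟩ | ⟨h1, h2⟩
  · rcases hy' with h3 | h3
    · refine Or.inr ⟨h3, fun h4 => ?_⟩
      have h5 := hc.1 ⟨fun _ => h4, fun _ => h2⟩
      rw [h1, h3] at h5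
      exact hij h5.symm
    · exact Or.inl ⟨h3, (hc.2 (by rw [h1, h3])).1 h2⟩
  · rcases hy' with h3 | h3
    · exact Or.inr ⟨h3, fun h4 => h2 ((hc.2 (by rw [h1, h3])).2 h4)⟩
    · refine Or.inl ⟨h3, ?_⟩
      by_contra h4
      have h5 := hc.1 ⟨fun h6 => absurd h6 h2, fun h6 => absurd h6 h4⟩
      rw [h1, h3] at h5
      exact hij h5

theorem csz_kcl (V U : Finset (Site d k)) (i j : Fin q) (f : Site d k → Fin q) {x y : Site d k}
    (h : kcl (gV V) f i j x y) : csz V U i j f x = csz V U i j f y := by
  classical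
  unfold csz
  congr 1
  ext z
  rw [Finset.mem_filter, Finset.mem_filter]
  exact ⟨fun hz => ⟨hz.1, kcl_trans (kcl_symm h) hz.2⟩, fun hz => ⟨hz.1, kcl_trans h hz.2⟩⟩

theorem kun_wbg (hk : 1 ≤ k) (V U : Finset (Site d k)) (m : ℝ) {i j : Fin q} (hij : i ≠ j)
    {f : Site d k → Fin q} (hf : PrV V f) : kun (gV V) f i j (wbg V U m i j f) := by
  classical
  have h := kun_of (G := gV V) (f := f) (i := i) (j := j)
    (fun x => wrg i j f x ∧ m ≤ (csz V U i j f x : ℝ)) (fun x y hxy hx =>
      ⟨wrg_kcl hk hf hij hxy hx.1, by rw [← csz_kcl V U i j f hxy]; exact hx.2⟩)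
  intro x y hxy
  have h' := h x y hxy
  unfold wbg
  simp only [Finset.mem_filter, Finset.mem_univ, true_and] at h' ⊢
  exact h'

theorem PrV_Phi (hk : 1 ≤ k) (V U : Finset (Site d k)) (m : ℝ) {i j : Fin q} (hij : i ≠ j)
    {f : Site d k → Fin q} (hf : PrV V f) : PrV V (Phi V U m i j f) := by
  rw [prV_iff hk]
  exact PrG_kfl ((prV_iff hk V f).1 hf) i j (kun_wbg hk V U m hij hf)

theorem csz_Phi (V U : Finset (Site d k)) (m : ℝ) (i j : Fin q) (f : Site d k → Fin q) (x : Site d k) :
    csz V U i j (Phi V U m i j f) x = csz V U i j f x := by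
  classical
  unfold csz Phi
  congr 1
  ext z
  rw [Finset.mem_filter, Finset.mem_filter, kcl_kfl]

theorem rpc_Phi (V U : Finset (Site d k)) (m : ℝ) (i j : Fin q) (f : Site d k → Fin q) (x : Site d k) :
    rpc (gV V) (Phi V U m i j f) i j x = rpc (gV V) f i j x := by
  unfold Phi
  exact rpc_kfl _ _ _ _ _ _

end Pool.Agent.COR
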