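import Pool.Agent.Lib_MP_2c424f_cor.D01

/-!
# The multiplicity of `Phi` (piece D02, (D1))

For a `V`-proper `f` put `f' = Phi f`, `S = wbg f`, `f = kfl i j S f'` (`kfl_kfl`).  Let `B(f')` be the set of the representatives
`rpc f' x`, `x ∈ U`, with `m ≤ csz f' x` (the same for `f` and `f'`: `csz_Phi`, `rpc_Phi`).  The clusters of different
representatives are disjoint and each of those in `B` has at least `m` points in `U`: `m |B| ≤ |U|`, so `|B| ≤ ⌊|U|/m⌋`.
`S` is a union of clusters, each with a point in `U` (`m > 0`), so `S = {x : rpc f' x ∈ R}` for `R = B ∩ {rpc f' x : x ∈ S}`.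
So `f` is determined by `f'` and the subset `R` of `B(f')`; at most `2^⌊|U|/m⌋` proper `f` for one `f'`.
-/

set_option autoImplicit false

open Finset

namespace Pool.Agent.COR

open Pool.Agent.LO

variable {d k q : ℕ}

open scoped Classical in
/-- representatives of the big clusters -/
private noncomputable def D02_B (V U : Finset (Site d k)) (m : ℝ) (i j : Fin q)
    (f : Site d k → Fin q) : Finset (Site d k) :=
  (U.filter fun x => m ≤ (csz V U i j f x : ℝ)).image (rpc (gV V) f i j)

private theorem D02_card (V U : Finset (Site d k)) (m : ℝ) (hm : 0 < m) (i j : Fin q)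
    (f : Site d k → Fin q) : (D02_B V U m i j f).card ≤ ⌊(U.card : ℝ) / m⌋₊ := by
  classical
  rw [Nat.le_floor_iff (by positivity), le_div_iff₀ hm]
  set s := U.filter fun x => m ≤ (csz V U i j f x : ℝ) with hs
  have h1 : s.card = ∑ r ∈ D02_B V U m i j f, (s.filter fun x => rpc (gV V) f i j x = r).card := by
    refine Finset.card_eq_sum_card_fiberwise fun x hx => ?_
    rw [Finset.mem_coe] at hx ⊢
    unfold D02_B
    exact Finset.mem_image_of_mem _ (by convert hx)
  have h2 : ∀ r ∈ D02_B V U m i j f,
      m ≤ ((s.filter fun x => rpc (gV V) f i j x = r).card : ℝ) := by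
    intro r hr
    unfold D02_B at hr
    obtain ⟨x, hx, rfl⟩ := Finset.mem_image.1 hr
    have hx' : x ∈ U ∧ m ≤ (csz V U i j f x : ℝ) := by
      rw [Finset.mem_filter] at hx
      exact hx
    refine hx'.2.trans ?_
    rw [Nat.cast_le]
    unfold csz
    refine Finset.card_le_card fun y hy => ?_
    rw [Finset.mem_filter] at hy
    rw [Finset.mem_filter, hs, Finset.mem_filter]
    refine ⟨⟨hy.1, ?_⟩, ((rpc_eq_iff (gV V) f i j x y).2 hy.2).symm⟩
    rw [← csz_kcl V U i j f hy.2]
    exact hx'.2
  calc ((D02_B V U m i j f).card : ℝ) * m = ∑ _r ∈ D02_B V U m i j f, m := by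
        rw [Finset.sum_const, nsmul_eq_mul]
    _ ≤ ∑ r ∈ D02_B V U m i j f, ((s.filter fun x => rpc (gV V) f i j x = r).card : ℝ) :=
        Finset.sum_le_sum h2
    _ = (s.card : ℝ) := by
        rw [h1]
        push_cast
        rfl
    _ ≤ (U.card : ℝ) := by
        rw [Nat.cast_le]
        exact Finset.card_filter_le _ _

private theorem D02_mem (V U : Finset (Site d k)) (m : ℝ) (i j : Fin q) (f : Site d k → Fin q)
    (x : Site d k) : x ∈ wbg V U m i j f ↔ wrg i j f x ∧ m ≤ (csz V U i j f x : ℝ) := by
  classical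
  unfold wbg
  rw [Finset.mem_filter]
  exact ⟨fun h => h.2, fun h => ⟨Finset.mem_univ _, h⟩⟩

private theorem D02_cl (hk : 1 ≤ k) (V U : Finset (Site d k)) (m : ℝ) {i j : Fin q} (hij : i ≠ j)
    {f : Site d k → Fin q} (hf : PrV V f) {x y : Site d k} (h : kcl (gV V) f i j x y)
    (hx : x ∈ wbg V U m i j f) : y ∈ wbg V U m i j f := by
  rw [D02_mem] at hx ⊢
  exact ⟨wrg_kcl hk hf hij h hx.1, by rw [← csz_kcl V U i j f h]; exact hx.2⟩

/-- `wbg f` is determined by `Phi f` and the set of the representatives in it -/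
private theorem D02_key (hk : 1 ≤ k) (V U : Finset (Site d k)) (m : ℝ) (hm : 0 < m) {i j : Fin q}
    (hij : i ≠ j) {f : Site d k → Fin q} (hf : PrV V f) (x : Site d k) :
    x ∈ wbg V U m i j f ↔ rpc (gV V) (Phi V U m i j f) i j x ∈
      (D02_B V U m i j (Phi V U m i j f) ∩ wbg V U m i j f) := by
  classical
  rw [rpc_Phi, Finset.mem_inter]
  have hsp := rpc_spec (gV V) f i j x
  constructor
  · intro hx
    refine ⟨?_, D02_cl hk V U m hij hf hsp hx⟩
    have hx2 := ((D02_mem V U m i j f x).1 hx).2
    have hpos : 0 < csz V U i j f x := by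
      have : (0 : ℝ) < (csz V U i j f x : ℝ) := hm.trans_le hx2
      exact_mod_cast this
    unfold csz at hpos
    obtain ⟨y, hy⟩ := Finset.card_pos.1 hpos
    rw [Finset.mem_filter] at hy
    unfold D02_B
    rw [Finset.mem_image]
    refine ⟨y, ?_, ?_⟩
    · rw [Finset.mem_filter]
      refine ⟨hy.1, ?_⟩
      rw [csz_Phi, ← csz_kcl V U i j f hy.2]
      exact hx2
    · rw [rpc_Phi]
      exact ((rpc_eq_iff (gV V) f i j x y).2 hy.2).symm
  · rintro ⟨-, hx⟩
    exact D02_cl hk V U m hij hf (kcl_symm hsp) hx

theorem Phi_mult (hk : 1 ≤ k) (V U : Finset (Site d k)) (m : ℝ) (hm : 0 < m) {i j : Fin q} (hij : i ≠ j)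
    (P : (Site d k → Fin q) → Prop) :
    cV V (fun f => P (Phi V U m i j f)) ≤ 2 ^ ⌊(U.card : ℝ) / m⌋₊ * cV V P := by
  classical
  have main : (univ.filter fun f : Site d k → Fin q => PrV V f ∧ P (Phi V U m i j f)).card ≤
      2 ^ ⌊(U.card : ℝ) / m⌋₊ * (univ.filter fun f : Site d k → Fin q => PrV V f ∧ P f).card := by
    refine Finset.card_le_mul_card_image_of_maps_to (f := Phi V U m i j) ?_ _ ?_
    · intro f hf
      rw [Finset.mem_filter] at hf ⊢
      exact ⟨Finset.mem_univ _, PrV_Phi hk V U m hij hf.2.1, hf.2.2⟩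
    · intro f' _
      calc ((univ.filter fun f : Site d k → Fin q => PrV V f ∧ P (Phi V U m i j f)).filter
            fun f => Phi V U m i j f = f').card ≤ ((D02_B V U m i j f').powerset).card := by
            refine Finset.card_le_card_of_injOn (fun f => D02_B V U m i j f' ∩ wbg V U m i j f) ?_ ?_
            · intro f _
              rw [Finset.mem_coe, Finset.mem_powerset]
              exact Finset.inter_subset_left
            · intro f hf g hg hfg
              rw [Finset.mem_coe, Finset.mem_filter, Finset.mem_filter] at hf hg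
              obtain ⟨⟨-, f1, -⟩, f2⟩ := hf
              obtain ⟨⟨-, g1, -⟩, g2⟩ := hg
              have hfg' : D02_B V U m i j f' ∩ wbg V U m i j f =
                D02_B V U m i j f' ∩ wbg V U m i j g := hfg
              have hS : wbg V U m i j f = wbg V U m i j g := by
                ext x
                rw [D02_key hk V U m hm hij f1 x, D02_key hk V U m hm hij g1 x, f2, g2, hfg']
              have e1 : kfl i j (wbg V U m i j f) f' = f := by
                rw [← f2]
                exact kfl_kfl i j _ f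
              have e2 : kfl i j (wbg V U m i j g) f' = g := by
                rw [← g2]
                exact kfl_kfl i j _ g
              rw [← e1, ← e2, hS]
        _ = 2 ^ (D02_B V U m i j f').card := Finset.card_powerset _
        _ ≤ 2 ^ ⌊(U.card : ℝ) / m⌋₊ :=
            Nat.pow_le_pow_right (by norm_num) (D02_card V U m hm i j f')
  unfold cV
  have h2 : ((univ.filter fun f : Site d k → Fin q => PrV V f ∧ P (Phi V U m i j f)).card : ℝ) ≤
      2 ^ ⌊(U.card : ℝ) / m⌋₊ *
        ((univ.filter fun f : Site d k → Fin q => PrV V f ∧ P f).card : ℝ) := by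
    exact_mod_cast main
  convert h2 using 2

end Pool.Agent.COR
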