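import Pool.Agent.Lib_MP_2c424f_cor.D01

/-!
# The label of a block under `Phi`, main case (piece D03, (D2))

`fine_cluster`: `c` with `EB 1(Kb = {c}) ≥ 1 - 3 dl q` and at least `s₀` even points `x` of the block (hence of `U`) with `f x = j`,
`rpc x = c`.  So the cluster of `c` is wrong (`wrg x`, `wrg_kcl`) and has `≥ s₀` points in `U`: all `y` with `rpc y = c` belong to
`wbg`.  For `(a,b)` odd with `Kb a b = {c}`, `f' = Phi f`: all neighbours of colour `j` in the block are flipped; an even site `u` of
colour `i` is not in `wbg` (`wrg i j f u` is false for even `u` with `f u = i ≠ j`).  So no neighbour in the block has the colour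
`j` in `f'`: `zb f' t a b j = 1`.  Hence `mb f' t j ≥ 1 - 3 dl q > dl q` and `j ∉ AL f' t` (`AL_mb`).  `AL_bal` (`kfl_other`): `i ∈ AL f' t`
and nothing else changes.
-/

set_option autoImplicit false

open Finset

namespace Pool.Agent.COR

open Pool.Agent.LO

variable {d k q : ℕ}

private theorem dl_le_D03 (hq : 1 ≤ q) : dl q ≤ 1 / 100 := by
  unfold dl
  have : (1 : ℝ) ≤ (q : ℝ) := by exact_mod_cast hq
  rw [div_le_div_iff₀ (by positivity) (by norm_num)]
  linarith

private theorem evn_nb_D03 (hk : 1 ≤ k) (t : Blk d k) (a b : Bt d) (h : od a b) (σ : Stp d) :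
    evn (pt t a b + sv σ) := by
  rw [evn_step (by omega), evn_pt]
  simpa using h

theorem AL_Phi_fine (hd : 1 ≤ d) (hk : 1 ≤ k) (hq : 1 ≤ q) {V U : Finset (Site d (k + 1))}
    {f : Site d (k + 1) → Fin q} (hf : PrV V f) {i j : Fin q} (hij : i ≠ j) {t : Blk d k}
    (hU : ∀ a b, pt t a b ∈ U) (h1 : GD t f) (h2 : GD t (Phi V U (s0 d) i j f)) (hj : j ∈ AL f t)
    (hi : i ∉ AL f t) (hF : FINE V f i j t) :
    AL (Phi V U (s0 d) i j f) t = insert i ((AL f t).erase j) := by
  classical
  obtain ⟨hother, hsum⟩ := AL_bal hij t f (Phi V U (s0 d) i j f)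
    (fun a b c hi hj => kfl_other i j _ f _ c hi hj) (h2.2.trans h1.2.symm)
  rw [if_neg hi, if_pos hj] at hsum
  obtain ⟨c, hc1, hc2⟩ := fine_cluster hd hk hq hj hF
  -- the number of points is positive
  have hs0 : 0 < s0 d := by
    unfold s0
    have : (0 : ℝ) < (d : ℝ) := by exact_mod_cast hd
    positivity
  set X : Finset (Site d (k + 1)) := univ.filter fun x : Site d (k + 1) =>
        (∃ a b, x = pt t a b) ∧ f x = j ∧ evn x ∧ rpc (gV V) f i j x = c with hX
  have hXpos : 0 < X.card := by
    have : (0 : ℝ) < (X.card : ℝ) := lt_of_lt_of_le hs0 hc2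
    exact_mod_cast this
  obtain ⟨x, hx⟩ := card_pos.mp hXpos
  have hx' := hx
  rw [hX, mem_filter] at hx'
  obtain ⟨-, -, hfx, hex, hrx⟩ := hx'
  have hcsz : s0 d ≤ (csz V U i j f x : ℝ) := by
    refine hc2.trans ?_
    unfold csz
    rw [Nat.cast_le]
    refine card_le_card fun y hy => ?_
    rw [hX, mem_filter] at hy
    obtain ⟨-, ⟨a, b, hab⟩, -, -, hry⟩ := hy
    rw [mem_filter]
    refine ⟨by rw [hab]; exact hU a b, ?_⟩
    rw [← rpc_eq_iff, hrx, hry]
  have hmem : ∀ y, rpc (gV V) f i j y = c → y ∈ wbg V U (s0 d) i j f := by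
    intro y hy
    have hk' : kcl (gV V) f i j x y := by rw [← rpc_eq_iff, hrx, hy]
    unfold wbg
    rw [mem_filter]
    refine ⟨mem_univ _, wrg_kcl (by omega) hf hij hk' (Or.inl ⟨hfx, hex⟩), ?_⟩
    rw [← csz_kcl V U i j f hk']
    exact hcsz
  have hle : 1 - 3 * dl q ≤ mb (Phi V U (s0 d) i j f) t j := by
    refine hc1.trans ?_
    refine EB_mono fun a b hab => ?_
    unfold zb
    by_cases hKc : Kb V f i j t a b = {c}
    · rw [if_pos hKc, if_pos]
      intro σ hσ
      have he := evn_nb_D03 hk t a b hab σ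
      by_cases hm : pt t a b + sv σ ∈ wbg V U (s0 d) i j f
      · have hw := hm
        unfold wbg at hw
        rw [mem_filter] at hw
        have hfj : f (pt t a b + sv σ) = j := by
          rcases hw.2.1 with ⟨h3, _⟩ | ⟨_, h3⟩
          · exact h3
          · exact absurd he h3
        unfold Phi kfl
        rw [if_pos hm, hfj, Equiv.swap_apply_right]
        exact hij
      · unfold Phi kfl
        rw [if_neg hm]
        intro hfj
        apply hm
        apply hmem
        have : rpc (gV V) f i j (pt t a b + sv σ) ∈ Kb V f i j t a b := by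
          unfold Kb
          rw [mem_image]
          exact ⟨σ, by rw [mem_filter]; exact ⟨mem_univ _, hσ, hfj⟩, rfl⟩
        rw [hKc, mem_singleton] at this
        exact this
    · rw [if_neg hKc]
      split_ifs <;> norm_num
  have hdl := dl_le_D03 hq
  have hj' : j ∉ AL (Phi V U (s0 d) i j f) t := by
    intro hj'
    have := AL_mb hd hj'
    linarith
  rw [if_neg hj'] at hsum
  have hi' : i ∈ AL (Phi V U (s0 d) i j f) t := by
    by_contra hi'
    rw [if_neg hi'] at hsum
    omega
  ext e
  rw [mem_insert, mem_erase]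
  by_cases hei : e = i
  · rw [hei]
    exact ⟨fun _ => Or.inl rfl, fun _ => hi'⟩
  by_cases hej : e = j
  · rw [hej]
    constructor
    · intro h
      exact absurd h hj'
    · rintro (h | h)
      · exact absurd h.symm hij
      · exact absurd rfl h.1
  rw [hother e hei hej]
  constructor
  · intro h
    exact Or.inr ⟨hej, h⟩
  · rintro (h | h)
    · exact absurd h hei
    · exact h.2

end Pool.Agent.COR
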