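import Pool.Agent.Lib_MP_2c424f_cor.D01

/-!
# The label of a block under `Phi`, other cases (piece D04, (D2))

`f' = Phi f`; `AL_bal` (`kfl_other`).  If both or none of `i`, `j` are in `AL f t`: the numbers agree, so the same holds for
`AL f' t`.  If `i ∈ AL f t`, `j ∉ AL f t`: an even site `u` of colour `i` is not in `wbg` (`wrg i j f u` is false, `i ≠ j`), so it keeps
its colour; for odd `(a,b)`: `zb f' t a b i ≤ zb f t a b i` (the neighbours of an odd point are even: `evn_pt`, `evn_step`),
`mb f' t i ≤ mb f t i ≤ dl q < 1 - dl q`, so `i ∈ AL f' t` (`GD_iff`) and `j ∉ AL f' t` by `AL_bal`.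
-/

set_option autoImplicit false

open Finset

namespace Pool.Agent.COR

open Pool.Agent.LO

variable {d k q : ℕ}

private theorem dl_le_D04 (hq : 1 ≤ q) : dl q ≤ 1 / 100 := by
  unfold dl
  have : (1 : ℝ) ≤ (q : ℝ) := by exact_mod_cast hq
  rw [div_le_div_iff₀ (by positivity) (by norm_num)]
  linarith

private theorem evn_nb_D04 (hk : 1 ≤ k) (t : Blk d k) (a b : Bt d) (h : od a b) (σ : Stp d) :
    evn (pt t a b + sv σ) := by
  rw [evn_step (by omega), evn_pt]
  simpa using h

theorem AL_Phi_same (hd : 1 ≤ d) (hk : 1 ≤ k) (hq : 1 ≤ q) {V U : Finset (Site d (k + 1))} (m : ℝ)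
    {f : Site d (k + 1) → Fin q} {i j : Fin q} (hij : i ≠ j) {t : Blk d k}
    (h1 : GD t f) (h2 : GD t (Phi V U m i j f)) (h : ¬ (j ∈ AL f t ∧ i ∉ AL f t)) :
    AL (Phi V U m i j f) t = AL f t := by
  classical
  obtain ⟨hother, hsum⟩ := AL_bal hij t f (Phi V U m i j f)
    (fun a b c hi hj => kfl_other i j _ f _ c hi hj) (h2.2.trans h1.2.symm)
  -- enough: the statements for `i` and `j`
  suffices H : (i ∈ AL (Phi V U m i j f) t ↔ i ∈ AL f t) ∧ (j ∈ AL (Phi V U m i j f) t ↔ j ∈ AL f t) by
    ext c
    by_cases hci : c = i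
    · rw [hci]; exact H.1
    by_cases hcj : c = j
    · rw [hcj]; exact H.2
    exact hother c hci hcj
  by_cases hi : i ∈ AL f t
  · by_cases hj : j ∈ AL f t
    · rw [if_pos hi, if_pos hj] at hsum
      by_cases hi' : i ∈ AL (Phi V U m i j f) t
      · by_cases hj' : j ∈ AL (Phi V U m i j f) t
        · exact ⟨iff_of_true hi' hi, iff_of_true hj' hj⟩
        · rw [if_pos hi', if_neg hj'] at hsum; omega
      · by_cases hj' : j ∈ AL (Phi V U m i j f) t
        · rw [if_neg hi', if_pos hj'] at hsum; omega
        · rw [if_neg hi', if_neg hj'] at hsum; omega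
    · rw [if_pos hi, if_neg hj] at hsum
      have hle : mb (Phi V U m i j f) t i ≤ mb f t i := by
        refine EB_mono fun a b hab => ?_
        unfold zb
        by_cases hz : ∀ σ : Stp d, alw a b σ → Phi V U m i j f (pt t a b + sv σ) ≠ i
        · rw [if_pos hz, if_pos]
          intro σ hσ hc
          refine hz σ hσ ?_
          have he := evn_nb_D04 hk t a b hab σ
          have hn : pt t a b + sv σ ∉ wbg V U m i j f := by
            intro hm
            unfold wbg at hm
            rw [mem_filter] at hm
            rcases hm.2.1 with ⟨h3, _⟩ | ⟨_, h3⟩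
            · exact hij (hc.symm.trans h3)
            · exact h3 he
          unfold Phi kfl
          rw [if_neg hn]
          exact hc
        · rw [if_neg hz]
          split_ifs <;> norm_num
      have hmb := AL_mb hd hi
      have hdl := dl_le_D04 hq
      have hi' : i ∈ AL (Phi V U m i j f) t := by
        rw [(GD_iff hd hq h2.1 i).2]
        unfold lab1
        push Not
        linarith
      rw [if_pos hi'] at hsum
      have hj' : j ∉ AL (Phi V U m i j f) t := by
        intro hj'
        rw [if_pos hj'] at hsum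
        omega
      exact ⟨iff_of_true hi' hi, iff_of_false hj' hj⟩
  · by_cases hj : j ∈ AL f t
    · exact absurd ⟨hj, hi⟩ h
    · rw [if_neg hi, if_neg hj] at hsum
      by_cases hi' : i ∈ AL (Phi V U m i j f) t
      · rw [if_pos hi'] at hsum; omega
      · by_cases hj' : j ∈ AL (Phi V U m i j f) t
        · rw [if_pos hj'] at hsum; omega
        · exact ⟨iff_of_false hi' hi, iff_of_false hj' hj⟩

end Pool.Agent.COR
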