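import Mathlib

/-!
# The sweep, sets of colours (piece D05, (D3))

`sweep`: by the step rule elements of `A₀` can only enter and elements of the complement can only leave.  If `A M ≠ A₀` then
(equal cardinalities) there are `i ∈ A₀ \ A M`, `j ∈ A M \ A₀`; so `i ∉ A m`, `j ∈ A m` for all `m ≤ M`; at the step with
`pr m = (i, j)` the element `i` would enter.
`enum`: list the elements of `A₀ ×ˢ A₀ᶜ`.
-/

set_option autoImplicit false

open Finset

namespace Pool.Agent.COR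

theorem sweep {q M : ℕ} (A₀ : Finset (Fin q)) (pr : ℕ → Fin q × Fin q)
    (hpr : ∀ m < M, (pr m).1 ∈ A₀ ∧ (pr m).2 ∉ A₀)
    (hall : ∀ i ∈ A₀, ∀ j, j ∉ A₀ → ∃ m < M, pr m = (i, j)) (A : ℕ → Finset (Fin q))
    (hc : (A M).card = A₀.card)
    (h1 : ∀ m < M, (pr m).2 ∈ A m → (pr m).1 ∉ A m → A (m + 1) = insert (pr m).1 ((A m).erase (pr m).2))
    (h2 : ∀ m < M, ¬ ((pr m).2 ∈ A m ∧ (pr m).1 ∉ A m) → A (m + 1) = A m) :
    A M = A₀ := by
  -- one step
  have s1 : ∀ m < M, ∀ i ∈ A₀, i ∈ A m → i ∈ A (m + 1) := by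
    intro m hm i hi him
    by_cases hs : (pr m).2 ∈ A m ∧ (pr m).1 ∉ A m
    · rw [h1 m hm hs.1 hs.2]
      refine mem_insert_of_mem (mem_erase.2 ⟨fun h => (hpr m hm).2 (h ▸ hi), him⟩)
    · rw [h2 m hm hs]
      exact him
  have s2 : ∀ m < M, ∀ j, j ∉ A₀ → j ∉ A m → j ∉ A (m + 1) := by
    intro m hm j hj hjm
    by_cases hs : (pr m).2 ∈ A m ∧ (pr m).1 ∉ A m
    · rw [h1 m hm hs.1 hs.2, mem_insert, not_or]
      exact ⟨fun h => hj (h ▸ (hpr m hm).1), fun h => hjm (mem_of_mem_erase h)⟩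
    · rw [h2 m hm hs]
      exact hjm
  have t1 : ∀ i ∈ A₀, i ∉ A M → ∀ n m, n + m = M → i ∉ A m := by
    intro i hi hiM n
    induction n with
    | zero =>
      intro m hm
      have : m = M := by omega
      rw [this]
      exact hiM
    | succ n ih =>
      intro m hm him
      exact ih (m + 1) (by omega) (s1 m (by omega) i hi him)
  have t2 : ∀ j, j ∉ A₀ → j ∈ A M → ∀ n m, n + m = M → j ∈ A m := by
    intro j hj hjM n
    induction n with
    | zero =>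
      intro m hm
      have : m = M := by omega
      rw [this]
      exact hjM
    | succ n ih =>
      intro m hm
      by_contra hjm
      exact s2 m (by omega) j hj hjm (ih (m + 1) (by omega))
  by_contra hne
  have hns : ¬ A₀ ⊆ A M := fun h => hne (eq_of_subset_of_card_le h hc.le).symm
  have hns2 : ¬ A M ⊆ A₀ := fun h => hne (eq_of_subset_of_card_le h hc.ge)
  obtain ⟨i, hi, hiM⟩ := not_subset.1 hns
  obtain ⟨j, hjM, hj⟩ := not_subset.1 hns2
  obtain ⟨m, hm, hpm⟩ := hall i hi j hj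
  have e1 := t1 i hi hiM (M - m) m (by omega)
  have e2 := t2 j hj hjM (M - m) m (by omega)
  have e3 := t1 i hi hiM (M - (m + 1)) (m + 1) (by omega)
  have e4 := h1 m hm (by rw [hpm]; exact e2) (by rw [hpm]; exact e1)
  rw [e4, hpm] at e3
  exact e3 (mem_insert_self _ _)

theorem enum {q : ℕ} (hq : 1 ≤ q) (A₀ : Finset (Fin q)) : ∃ pr : ℕ → Fin q × Fin q,
    (∀ m < A₀.card * (q - A₀.card), (pr m).1 ∈ A₀ ∧ (pr m).2 ∉ A₀) ∧
    ∀ i ∈ A₀, ∀ j, j ∉ A₀ → ∃ m < A₀.card * (q - A₀.card), pr m = (i, j) := by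
  classical
  have hcard : (A₀ ×ˢ A₀ᶜ).card = A₀.card * (q - A₀.card) := by
    rw [card_product, card_compl, Fintype.card_fin]
  have x₀ : Fin q := ⟨0, hq⟩
  let e := (A₀ ×ˢ A₀ᶜ).equivFin
  refine ⟨fun m => if h : m < (A₀ ×ˢ A₀ᶜ).card then (e.symm ⟨m, h⟩).1 else (x₀, x₀), ?_, ?_⟩
  · intro m hm
    rw [← hcard] at hm
    simp only [dif_pos hm]
    have h1 := (e.symm ⟨m, hm⟩).2
    rw [mem_product, mem_compl] at h1
    exact h1
  · intro i hi j hj
    have hmem : (i, j) ∈ A₀ ×ˢ A₀ᶜ := mem_product.2 ⟨hi, mem_compl.2 hj⟩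
    refine ⟨(e ⟨(i, j), hmem⟩).1, ?_, ?_⟩
    · rw [← hcard]
      exact (e ⟨(i, j), hmem⟩).2
    · simp only [dif_pos (e ⟨(i, j), hmem⟩).2]
      rw [Fin.eta, Equiv.symm_apply_apply]

end Pool.Agent.COR
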