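import Pool.Agent.Lib_MP_2c424f_cor.D02

/-!
# The sweep of colourings (piece D06, (D3))

`swp n f` = the result of the first `n` flips.  `swp_pr`, `swp_mult`: induction on `n` with `PrV_Phi`, `Phi_mult`
(apply the induction hypothesis to the predicate `P ∘ Phi`).  (The pairs with index `< n` consist of different colours.)
-/

set_option autoImplicit false

open Finset

namespace Pool.Agent.COR

open Pool.Agent.LO

variable {d k q : ℕ}

/-- the sweep -/
noncomputable def swp (V U : Finset (Site d k)) (m : ℝ) (pr : ℕ → Fin q × Fin q) :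
    ℕ → (Site d k → Fin q) → (Site d k → Fin q)
  | 0, f => f
  | n + 1, f => Phi V U m (pr n).1 (pr n).2 (swp V U m pr n f)

theorem swp_pr (hk : 1 ≤ k) (V U : Finset (Site d k)) (m : ℝ) (pr : ℕ → Fin q × Fin q) (n : ℕ)
    (hpr : ∀ l < n, (pr l).1 ≠ (pr l).2) {f : Site d k → Fin q} (hf : PrV V f) : PrV V (swp V U m pr n f) := by
  induction n with
  | zero => exact hf
  | succ n ih =>
    exact PrV_Phi hk V U m (hpr n (Nat.lt_succ_self n))
      (ih fun l hl => hpr l (Nat.lt_succ_of_lt hl))

theorem swp_mult (hk : 1 ≤ k) (V U : Finset (Site d k)) (m : ℝ) (hm : 0 < m) (pr : ℕ → Fin q × Fin q) (n : ℕ)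
    (hpr : ∀ l < n, (pr l).1 ≠ (pr l).2) (P : (Site d k → Fin q) → Prop) :
    cV V (fun f => P (swp V U m pr n f)) ≤ 2 ^ (n * ⌊(U.card : ℝ) / m⌋₊) * cV V P := by
  induction n generalizing P with
  | zero =>
    have h : cV V (fun f => P (swp V U m pr 0 f)) = cV V P := rfl
    rw [h, Nat.zero_mul, pow_zero, one_mul]
  | succ n ih =>
    have h1 := ih (fun l hl => hpr l (Nat.lt_succ_of_lt hl)) (fun f => P (Phi V U m (pr n).1 (pr n).2 f))
    have h2 := Phi_mult hk V U m hm (hpr n (Nat.lt_succ_self n)) P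
    have h3 : cV V (fun f => P (swp V U m pr (n + 1) f)) =
        cV V (fun f => (fun f => P (Phi V U m (pr n).1 (pr n).2 f)) (swp V U m pr n f)) := rfl
    rw [h3, Nat.add_mul, Nat.one_mul, pow_add, mul_assoc]
    exact h1.trans (mul_le_mul_of_nonneg_left h2 (by positivity))

end Pool.Agent.COR
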