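import Pool.Agent.Lib_MP_2c424f_cor.D03
import Pool.Agent.Lib_MP_2c424f_cor.D04
import Pool.Agent.Lib_MP_2c424f_cor.D05
import Pool.Agent.Lib_MP_2c424f_cor.D06

/-!
# A regular sweep aligns the blocks (piece D07, (D3), (D4))

`M = |A₀| |A₀ᶜ|` steps.  `REG f`: for every `m ≤ M`, `#{t ∈ Q : ¬ VG t (f_m)} < θ |Q|`, and for every `m < M`,
`#{t ∈ Q : GD t f_m, j ∈ AL, i ∉ AL, ¬ FINE f_m i j t} < 20 θ |Q|` with `(i,j) = pr m`, `f_m = swp m f`.
A block `t ∈ Q` which is in none of these exceptional sets is `VG` for all `f_m`, and by `AL_Phi_fine`, `AL_Phi_same` the sets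
`A m = AL f_m t` satisfy the hypotheses of `sweep` (cardinality `q/2 = |A₀|` since `GD`), so `AL f_M t = A₀`.
The number of exceptional blocks is at most `(M+1) θ |Q| + 20 M θ |Q| ≤ θ' |Q|`.
-/

set_option autoImplicit false

open Finset

namespace Pool.Agent.COR

open Pool.Agent.LO

variable {d k q : ℕ}

open scoped Classical in
theorem sweep_blocks (hd : 1 ≤ d) (hk : 1 ≤ k) (hq : 1 ≤ q) (V U : Finset (Site d (k + 1)))
    (A₀ : Finset (Fin q)) (hA : A₀.card = q / 2) (pr : ℕ → Fin q × Fin q) (M : ℕ)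
    (hpr : ∀ m < M, (pr m).1 ∈ A₀ ∧ (pr m).2 ∉ A₀)
    (hall : ∀ i ∈ A₀, ∀ j, j ∉ A₀ → ∃ m < M, pr m = (i, j))
    (Q : Finset (Blk d k)) (hQ : ∀ t ∈ Q, ∀ a b, pt t a b ∈ U) (θ θ' : ℝ) (h0 : 0 < θ)
    (h2 : 21 * ((M : ℝ) + 1) * θ ≤ θ') {f : Site d (k + 1) → Fin q} (hf : PrV V f)
    (r1 : ∀ m ≤ M, ((Q.filter fun t => ¬ VG t (swp V U (s0 d) pr m f)).card : ℝ) ≤ θ * Q.card)
    (r2 : ∀ m < M, ((Q.filter fun t => GD t (swp V U (s0 d) pr m f) ∧ (pr m).2 ∈ AL (swp V U (s0 d) pr m f) t ∧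
      (pr m).1 ∉ AL (swp V U (s0 d) pr m f) t ∧
      ¬ FINE V (swp V U (s0 d) pr m f) (pr m).1 (pr m).2 t).card : ℝ) ≤ 20 * θ * Q.card) :
    (1 - θ') * (Q.card : ℝ) ≤
      ((Q.filter fun t => VG t (swp V U (s0 d) pr M f) ∧ AL (swp V U (s0 d) pr M f) t = A₀).card : ℝ) := by
  have hne : ∀ m < M, (pr m).1 ≠ (pr m).2 := by
    intro m hm h
    exact (hpr m hm).2 (h ▸ (hpr m hm).1)
  -- the exceptional sets
  set E1 : ℕ → Finset (Blk d k) := fun m => Q.filter fun t => ¬ VG t (swp V U (s0 d) pr m f) with hE1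
  set E2 : ℕ → Finset (Blk d k) := fun m => Q.filter fun t => GD t (swp V U (s0 d) pr m f) ∧
      (pr m).2 ∈ AL (swp V U (s0 d) pr m f) t ∧ (pr m).1 ∉ AL (swp V U (s0 d) pr m f) t ∧
      ¬ FINE V (swp V U (s0 d) pr m f) (pr m).1 (pr m).2 t with hE2
  set G : Finset (Blk d k) := Q.filter fun t => VG t (swp V U (s0 d) pr M f) ∧
      AL (swp V U (s0 d) pr M f) t = A₀ with hG
  have hcov : Q ⊆ G ∪ ((range (M + 1)).biUnion E1 ∪ (range M).biUnion E2) := by
    intro t ht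
    by_cases hb1 : t ∈ (range (M + 1)).biUnion E1
    · exact mem_union_right _ (mem_union_left _ hb1)
    by_cases hb2 : t ∈ (range M).biUnion E2
    · exact mem_union_right _ (mem_union_right _ hb2)
    apply mem_union_left
    have hv : ∀ m ≤ M, VG t (swp V U (s0 d) pr m f) := by
      intro m hm
      by_contra hcon
      apply hb1
      rw [mem_biUnion]
      exact ⟨m, mem_range.2 (by omega), mem_filter.2 ⟨ht, hcon⟩⟩
    have hfine : ∀ m < M, (pr m).2 ∈ AL (swp V U (s0 d) pr m f) t →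
        (pr m).1 ∉ AL (swp V U (s0 d) pr m f) t → FINE V (swp V U (s0 d) pr m f) (pr m).1 (pr m).2 t := by
      intro m hm hj hi
      by_contra hcon
      apply hb2
      rw [mem_biUnion]
      exact ⟨m, mem_range.2 hm, mem_filter.2 ⟨ht, (hv m hm.le).1, hj, hi, hcon⟩⟩
    rw [hG, mem_filter]
    refine ⟨ht, hv M le_rfl, ?_⟩
    refine sweep A₀ pr hpr hall (fun m => AL (swp V U (s0 d) pr m f) t) ?_ ?_ ?_
    · rw [hA]; exact (hv M le_rfl).1.2
    · intro m hm hj hi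
      exact AL_Phi_fine hd hk hq
        (swp_pr (by omega) V U (s0 d) pr m (fun l hl => hne l (by omega)) hf) (hne m hm) (hQ t ht)
        (hv m hm.le).1 (hv (m + 1) hm).1 hj hi (hfine m hm hj hi)
    · intro m hm h
      exact AL_Phi_same hd hk hq (s0 d) (hne m hm) (hv m hm.le).1 (hv (m + 1) hm).1 h
  have hc1 : (((range (M + 1)).biUnion E1).card : ℝ) ≤ ((M : ℝ) + 1) * (θ * Q.card) := by
    calc (((range (M + 1)).biUnion E1).card : ℝ) ≤ ((∑ m ∈ range (M + 1), (E1 m).card : ℕ) : ℝ) := by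
          exact_mod_cast card_biUnion_le
      _ = ∑ m ∈ range (M + 1), ((E1 m).card : ℝ) := by push_cast; rfl
      _ ≤ ∑ m ∈ range (M + 1), (θ * Q.card) := by
          apply sum_le_sum
          intro m hm
          exact r1 m (by rw [mem_range] at hm; omega)
      _ = ((M : ℝ) + 1) * (θ * Q.card) := by
          rw [sum_const, card_range, nsmul_eq_mul]; push_cast; ring
  have hc2 : (((range M).biUnion E2).card : ℝ) ≤ (M : ℝ) * (20 * θ * Q.card) := by
    calc (((range M).biUnion E2).card : ℝ) ≤ ((∑ m ∈ range M, (E2 m).card : ℕ) : ℝ) := by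
          exact_mod_cast card_biUnion_le
      _ = ∑ m ∈ range M, ((E2 m).card : ℝ) := by push_cast; rfl
      _ ≤ ∑ m ∈ range M, (20 * θ * Q.card) := by
          apply sum_le_sum
          intro m hm
          exact r2 m (by rw [mem_range] at hm; omega)
      _ = (M : ℝ) * (20 * θ * Q.card) := by
          rw [sum_const, card_range, nsmul_eq_mul]
  have hc : (Q.card : ℝ) ≤ (G.card : ℝ) + ((((range (M + 1)).biUnion E1).card : ℝ) +
      (((range M).biUnion E2).card : ℝ)) := by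
    have h3 : Q.card ≤ G.card + (((range (M + 1)).biUnion E1).card + ((range M).biUnion E2).card) :=
      (card_le_card hcov).trans ((card_union_le _ _).trans (Nat.add_le_add_left (card_union_le _ _) _))
    exact_mod_cast h3
  have hQ0 : (0 : ℝ) ≤ (Q.card : ℝ) := by positivity
  have h4 : 21 * ((M : ℝ) + 1) * θ * Q.card ≤ θ' * Q.card := mul_le_mul_of_nonneg_right h2 hQ0
  have h5 : 0 ≤ θ * (Q.card : ℝ) := mul_nonneg h0.le hQ0
  nlinarith [hc, hc1, hc2, h4, h5]

end Pool.Agent.COR
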