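import Pool.Agent.Lib_MP_2c424f_cor.D07
import Pool.Agent.Lib_MP_2c424f_cor.C07

/-!
# Alignment (piece D08, (D4))

`M = (q/2)²` (`|A₀| = q/2`, `q - q/2 = q/2`), `pr` from `enum`, `n₀ = ⌊|U|/s₀⌋`, `Z = ZV q V`.
For `m ≤ M`: `#{f : ∃ l, #{t ∈ Q l : ¬ VG t f_m} ≥ θ |Q l|} ≤ 2^{m n₀} p Z` (`swp_mult`, hypothesis `hp`).  For `m < M`, `(i,j) = pr m`:
`#{f : ∃ l, #{t ∈ Q l : not fine ...} ≥ 20 θ |Q l|} ≤ 2^{m n₀} ∑_l (1/θ) #{f : #{t ∈ Q l : ¬ GD t f} ≥ θ |Q l|} ≤ 2^{m n₀} (|I|/θ) p Z`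
(`few_not_fine`; `¬ GD → ¬ VG`).  Sum over `m`: at most `(M+1) 2^{M n₀} (1 + |I|/θ) p Z ≤ Z/2` by `h1` (`1 ≤ |I|/θ`).
The other `f` (at least `Z/2`) satisfy the hypotheses of `sweep_blocks` for all `l`, so the aligned event holds for `swp M f`;
`swp_mult` with `n = M`.
-/

set_option autoImplicit false

open Finset

namespace Pool.Agent.COR

open Pool.Agent.LO

variable {d k q : ℕ}

open scoped Classical in
/-- irregular -/
def irr (θ : ℝ) (Q : Finset (Blk d k)) (f : Site d (k + 1) → Fin q) : Prop :=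
  θ * (Q.card : ℝ) ≤ ((Q.filter fun t => ¬ VG t f).card : ℝ)

open scoped Classical in
/-- aligned -/
def ald (θ : ℝ) (A₀ : Finset (Fin q)) (Q : Finset (Blk d k)) (f : Site d (k + 1) → Fin q) : Prop :=
  (1 - θ) * (Q.card : ℝ) ≤ ((Q.filter fun t => VG t f ∧ AL f t = A₀).card : ℝ)

private theorem D08_nn (V : Finset (Site d k)) (P : (Site d k → Fin q) → Prop) : 0 ≤ cV V P := by
  unfold cV
  exact Nat.cast_nonneg _

private theorem D08_ex {ι : Type} (I : Finset ι) (V : Finset (Site d k))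
    (P : ι → (Site d k → Fin q) → Prop) :
    cV V (fun f => ∃ l ∈ I, P l f) ≤ ∑ l ∈ I, cV V (P l) := by
  classical
  unfold cV
  have h1 : (univ.filter fun f : Site d k → Fin q => PrV V f ∧ ∃ l ∈ I, P l f) ⊆
      I.biUnion fun l => univ.filter fun f : Site d k → Fin q => PrV V f ∧ P l f := by
    intro f hf
    obtain ⟨hf1, l, hl, hf2⟩ := (mem_filter.1 hf).2
    exact mem_biUnion.2 ⟨l, hl, mem_filter.2 ⟨mem_univ _, hf1, hf2⟩⟩
  have h2 := (card_le_card h1).trans card_biUnion_le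
  have h3 : (((univ.filter fun f : Site d k → Fin q => PrV V f ∧ ∃ l ∈ I, P l f).card : ℕ) : ℝ) ≤
      ((∑ l ∈ I, (univ.filter fun f : Site d k → Fin q => PrV V f ∧ P l f).card : ℕ) : ℝ) := by
    exact_mod_cast h2
  rw [Nat.cast_sum] at h3
  convert h3

private theorem D08_or (V : Finset (Site d k)) (P P' : (Site d k → Fin q) → Prop) :
    cV V (fun f => P f ∨ P' f) ≤ cV V P + cV V P' := by
  classical
  unfold cV
  have h1 : (univ.filter fun f : Site d k → Fin q => PrV V f ∧ (P f ∨ P' f)) ⊆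
      (univ.filter fun f : Site d k → Fin q => PrV V f ∧ P f) ∪
      (univ.filter fun f : Site d k → Fin q => PrV V f ∧ P' f) := by
    intro f hf
    obtain ⟨hf1, hf2⟩ := (mem_filter.1 hf).2
    rw [mem_union, mem_filter, mem_filter]
    rcases hf2 with h | h
    · exact Or.inl ⟨mem_univ _, hf1, h⟩
    · exact Or.inr ⟨mem_univ _, hf1, h⟩
  have h2 := (card_le_card h1).trans (card_union_le _ _)
  have h3 : (((univ.filter fun f : Site d k → Fin q => PrV V f ∧ (P f ∨ P' f)).card : ℕ) : ℝ) ≤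
      (((univ.filter fun f : Site d k → Fin q => PrV V f ∧ P f).card +
        (univ.filter fun f : Site d k → Fin q => PrV V f ∧ P' f).card : ℕ) : ℝ) := by
    exact_mod_cast h2
  rw [Nat.cast_add] at h3
  convert h3

open scoped Classical in
/-- many blocks which are not fine -/
private def D08_P2 {ι : Type} (V : Finset (Site d (k + 1))) (I : Finset ι)
    (Q : ι → Finset (Blk d k)) (θ : ℝ) (i j : Fin q) (f : Site d (k + 1) → Fin q) : Prop :=
  ∃ l ∈ I, 20 * θ * ((Q l).card : ℝ) ≤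
    (((Q l).filter fun t => GD t f ∧ j ∈ AL f t ∧ i ∉ AL f t ∧ ¬ FINE V f i j t).card : ℝ)

private theorem D08_B2 (hd : 1 ≤ d) (hk : 1 ≤ k) (hq : 1 ≤ q) {ι : Type}
    (V : Finset (Site d (k + 1))) (I : Finset ι)
    (Q : ι → Finset (Blk d k)) (θ : ℝ) (h0 : 0 < θ) (hθ : θ ≤ 1) {i j : Fin q} (hij : i ≠ j) :
    θ * cV V (D08_P2 V I Q θ i j) ≤
      I.card * cV V (fun f : Site d (k + 1) → Fin q => ∃ l ∈ I, irr θ (Q l) f) := by
  classical
  have h1 : cV V (D08_P2 V I Q θ i j) ≤ ∑ l ∈ I, cV V (fun f : Site d (k + 1) → Fin q =>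
      20 * θ * ((Q l).card : ℝ) ≤
        (((Q l).filter fun t => GD t f ∧ j ∈ AL f t ∧ i ∉ AL f t ∧ ¬ FINE V f i j t).card : ℝ)) := by
    refine le_trans ?_ (D08_ex I V _)
    refine cV_mono fun f _ hf => ?_
    obtain ⟨l, hl, h⟩ := hf
    refine ⟨l, hl, h.trans (le_of_eq ?_)⟩
    congr
  have h2 : ∀ l ∈ I, θ * cV V (fun f : Site d (k + 1) → Fin q =>
      20 * θ * ((Q l).card : ℝ) ≤
        (((Q l).filter fun t => GD t f ∧ j ∈ AL f t ∧ i ∉ AL f t ∧ ¬ FINE V f i j t).card : ℝ)) ≤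
      cV V (fun f : Site d (k + 1) → Fin q => ∃ l ∈ I, irr θ (Q l) f) := by
    intro l hl
    refine (few_not_fine hd hk hq V hij (Q l) θ h0 hθ).trans ?_
    refine cV_mono fun f _ hf => ⟨l, hl, ?_⟩
    unfold irr
    refine hf.trans ?_
    rw [Nat.cast_le]
    refine card_le_card fun t ht => ?_
    rw [mem_filter] at ht ⊢
    exact ⟨ht.1, fun h => ht.2 h.1⟩
  calc θ * cV V (D08_P2 V I Q θ i j)
      ≤ θ * ∑ l ∈ I, cV V (fun f : Site d (k + 1) → Fin q =>
        20 * θ * ((Q l).card : ℝ) ≤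
        (((Q l).filter fun t => GD t f ∧ j ∈ AL f t ∧ i ∉ AL f t ∧ ¬ FINE V f i j t).card : ℝ)) :=
        mul_le_mul_of_nonneg_left h1 h0.le
    _ ≤ ∑ l ∈ I, cV V (fun f : Site d (k + 1) → Fin q => ∃ l ∈ I, irr θ (Q l) f) := by
        rw [Finset.mul_sum]
        exact Finset.sum_le_sum h2
    _ = _ := by rw [Finset.sum_const, nsmul_eq_mul]

open scoped Classical in
theorem align (hd : 1 ≤ d) (hk : 1 ≤ k) (hq : 2 ≤ q) (hqe : Even q) (V U : Finset (Site d (k + 1)))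
    (A₀ : Finset (Fin q)) (hA : A₀.card = q / 2) {ι : Type} (I : Finset ι) (hI : I.Nonempty)
    (Q : ι → Finset (Blk d k)) (hQ : ∀ l ∈ I, ∀ t ∈ Q l, ∀ a b, pt t a b ∈ U) (p θ θ' : ℝ) (h0 : 0 < θ)
    (hθ : θ ≤ 1) (hp0 : 0 ≤ p)
    (hp : cV V (fun f : Site d (k + 1) → Fin q => ∃ l ∈ I, irr θ (Q l) f) ≤ p * ZV q V)
    (h1 : 4 * (I.card : ℝ) * (((q / 2) ^ 2 : ℕ) + 1) *
      2 ^ ((q / 2) ^ 2 * ⌊(U.card : ℝ) / s0 d⌋₊) * p ≤ θ)
    (h2 : 21 * ((((q / 2) ^ 2 : ℕ) : ℝ) + 1) * θ ≤ θ') :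
    ZV q V ≤ 2 * 2 ^ ((q / 2) ^ 2 * ⌊(U.card : ℝ) / s0 d⌋₊) *
      cV V (fun f : Site d (k + 1) → Fin q => ∀ l ∈ I, ald θ' A₀ (Q l) f) := by
  set M : ℕ := (q / 2) ^ 2 with hM
  set n0 : ℕ := ⌊(U.card : ℝ) / s0 d⌋₊ with hn0
  set Z : ℝ := ZV q V with hZ
  have hZ0 : 0 ≤ Z := D08_nn _ _
  have hs0 : 0 < s0 d := by
    unfold s0
    have : (0 : ℝ) < d := by exact_mod_cast hd
    positivity
  have hMA : A₀.card * (q - A₀.card) = M := by
    obtain ⟨r, hr⟩ := hqe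
    rw [hA, hM, pow_two]
    congr 1
    omega
  obtain ⟨pr, hpr, hall⟩ := enum (q := q) (by omega) A₀
  rw [hMA] at hpr hall
  have hne : ∀ l < M, (pr l).1 ≠ (pr l).2 := by
    intro l hl h
    obtain ⟨h3, h4⟩ := hpr l hl
    exact h4 (h ▸ h3)
  set W : ℝ := 2 ^ (M * n0) with hW
  have hW0 : 0 < W := by positivity
  have hWm : ∀ m ≤ M, (2 : ℝ) ^ (m * n0) ≤ W := by
    intro m hm
    exact pow_le_pow_right₀ (by norm_num) (Nat.mul_le_mul_right _ hm)
  set P1 : (Site d (k + 1) → Fin q) → Prop := fun f => ∃ l ∈ I, irr θ (Q l) f with hP1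
  -- irregular steps
  have hB1 : ∀ m ∈ range (M + 1), cV V (fun f => P1 (swp V U (s0 d) pr m f)) ≤ W * (p * Z) := by
    intro m hm
    have hm' : m ≤ M := Nat.lt_succ_iff.1 (mem_range.1 hm)
    refine (swp_mult (by omega) V U (s0 d) hs0 pr m (fun l hl => hne l (by omega)) P1).trans ?_
    exact mul_le_mul (hWm m hm') hp (D08_nn _ _) hW0.le
  have hB2 : ∀ m ∈ range M, cV V (fun f => D08_P2 V I Q θ (pr m).1 (pr m).2
      (swp V U (s0 d) pr m f)) ≤ W * (I.card / θ * (p * Z)) := by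
    intro m hm
    have hm' : m < M := mem_range.1 hm
    refine (swp_mult (by omega) V U (s0 d) hs0 pr m (fun l hl => hne l (by omega))
      (D08_P2 V I Q θ (pr m).1 (pr m).2)).trans ?_
    refine mul_le_mul (hWm m hm'.le) ?_ (D08_nn _ _) hW0.le
    have h3 := D08_B2 hd hk (by omega) V I Q θ h0 hθ (hne m hm')
    have h4 : θ * cV V (D08_P2 V I Q θ (pr m).1 (pr m).2) ≤ I.card * (p * Z) :=
      h3.trans (mul_le_mul_of_nonneg_left hp (Nat.cast_nonneg _))
    rw [div_mul_eq_mul_div, le_div_iff₀ h0]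
    linarith
  set BAD : (Site d (k + 1) → Fin q) → Prop := fun f =>
    (∃ m ∈ range (M + 1), P1 (swp V U (s0 d) pr m f)) ∨
      ∃ m ∈ range M, D08_P2 V I Q θ (pr m).1 (pr m).2 (swp V U (s0 d) pr m f) with hBAD
  have hbad : cV V BAD ≤ Z / 2 := by
    have h3 : cV V BAD ≤ (M + 1 : ℕ) * (W * (p * Z)) + (M : ℕ) * (W * (I.card / θ * (p * Z))) := by
      refine (D08_or V _ _).trans (add_le_add ?_ ?_)
      · refine (D08_ex (range (M + 1)) V _).trans ((sum_le_sum hB1).trans (le_of_eq ?_))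
        rw [sum_const, card_range, nsmul_eq_mul]
      · refine (D08_ex (range M) V _).trans ((sum_le_sum hB2).trans (le_of_eq ?_))
        rw [sum_const, card_range, nsmul_eq_mul]
    have hI1 : (1 : ℝ) ≤ I.card := by exact_mod_cast hI.card_pos
    have hr : (1 : ℝ) ≤ I.card / θ := by
      rw [le_div_iff₀ h0]
      linarith
    have h4 : 4 * ((I.card : ℝ) / θ) * ((M : ℕ) + 1) * W * p ≤ 1 := by
      have h5 : 4 * ((I.card : ℝ) / θ) * ((M : ℕ) + 1) * W * p =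
          (4 * (I.card : ℝ) * ((M : ℕ) + 1) * W * p) / θ := by
        field_simp
      rw [h5, div_le_one h0]
      exact h1
    have hM0 : (0 : ℝ) ≤ (M : ℕ) := Nat.cast_nonneg _
    have h5 : (M + 1 : ℕ) * (W * (p * Z)) ≤ ((M : ℕ) + 1) * W * (I.card / θ) * p * Z := by
      push_cast
      have h6 : 0 ≤ ((M : ℝ) + 1) * W * (p * Z) := by positivity
      nlinarith [mul_le_mul_of_nonneg_left hr h6]
    have h6 : (M : ℕ) * (W * (I.card / θ * (p * Z))) ≤ ((M : ℕ) + 1) * W * (I.card / θ) * p * Z := by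
      have h7 : 0 ≤ W * (I.card / θ * (p * Z)) := by positivity
      nlinarith
    have h7 := mul_le_mul_of_nonneg_right h4 hZ0
    linarith
  -- the other colourings
  have hgood : Z ≤ cV V BAD + cV V (fun f => ∀ l ∈ I, ald θ' A₀ (Q l) (swp V U (s0 d) pr M f)) := by
    refine le_trans ?_ (D08_or V _ _)
    refine cV_mono fun f hf _ => ?_
    by_cases hb : BAD f
    · exact Or.inl hb
    · refine Or.inr fun l hl => ?_
      rw [hBAD] at hb
      simp only [not_or, not_exists, not_and] at hb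
      obtain ⟨hb1, hb2⟩ := hb
      have h3 := sweep_blocks hd hk (by omega) V U A₀ hA pr M hpr hall (Q l) (hQ l hl) θ θ' h0 h2 hf
        (by
          intro m hm
          have h4 := hb1 m (mem_range.2 (by omega))
          by_contra h5
          exact h4 ⟨l, hl, (not_le.1 h5).le⟩)
        (by
          intro m hm
          have h4 := hb2 m (mem_range.2 hm)
          by_contra h5
          exact h4 ⟨l, hl, (not_le.1 h5).le⟩)
      exact h3
  have hfin := swp_mult (by omega) V U (s0 d) hs0 pr M hne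
    (fun f => ∀ l ∈ I, ald θ' A₀ (Q l) f)
  have h3 : Z / 2 ≤ W * cV V (fun f : Site d (k + 1) → Fin q => ∀ l ∈ I, ald θ' A₀ (Q l) f) := by
    linarith
  linarith

end Pool.Agent.COR
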