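import Mathlib

/-!
# Kempe clusters, definitions (MP_2c424f_pr, corners of the free boxes)

`G` a graph on a finite set `W`, proper `q`-colourings `f : W → Fin q`, colours `i`, `j`.
-/

set_option autoImplicit false

open Finset

namespace Pool.Agent.COR

variable {W : Type} [Fintype W] [DecidableEq W] {q : ℕ}

/-- `f` is a proper colouring of `G` -/
def PrG (G : SimpleGraph W) (f : W → Fin q) : Prop := ∀ x y, G.Adj x y → f x ≠ f y

open scoped Classical in
/-- number of proper colourings with the property `P` -/
noncomputable def cG (G : SimpleGraph W) (P : (W → Fin q) → Prop) : ℝ :=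
  ((univ.filter fun f : W → Fin q => PrG G f ∧ P f).card : ℝ)

/-- `ev` is a parity: neighbours have different parity -/
def Par (G : SimpleGraph W) (ev : W → Prop) : Prop := ∀ x y, G.Adj x y → (ev x ↔ ¬ ev y)

/-- one step inside the set of the sites of colour `i` or `j` -/
def kst (G : SimpleGraph W) (f : W → Fin q) (i j : Fin q) (x y : W) : Prop :=
  G.Adj x y ∧ (f x = i ∨ f x = j) ∧ (f y = i ∨ f y = j)

/-- `x`, `y` are in the same Kempe cluster (every site is related to itself) -/
def kcl (G : SimpleGraph W) (f : W → Fin q) (i j : Fin q) : W → W → Prop :=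
  Relation.ReflTransGen (kst G f i j)

/-- exchange of `i` and `j` on a set of sites -/
def kfl (i j : Fin q) (S : Finset W) (f : W → Fin q) : W → Fin q :=
  fun x => if x ∈ S then Equiv.swap i j (f x) else f x

/-- `S` is a union of clusters -/
def kun (G : SimpleGraph W) (f : W → Fin q) (i j : Fin q) (S : Finset W) : Prop :=
  ∀ x y, kst G f i j x y → (x ∈ S ↔ y ∈ S)

/-- `∑_{a ≠ b} #{f proper : f x = a, x ↔ y in the colours a, b}` -/
noncomputable def WK (q : ℕ) (G : SimpleGraph W) (x y : W) : ℝ :=
  ∑ a : Fin q, ∑ b ∈ univ.erase a, cG G (fun f : W → Fin q => f x = a ∧ kcl G f a b x y)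

end Pool.Agent.COR
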