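import Pool.Agent.Lib_MP_2c424f_lo.Defs
import Pool.Agent.Lib_MP_2c424f_cor.KDefs

/-!
# MP_2c424f_pr, corners of the free boxes: definitions

Everything happens on a (huge) torus `Site d k` of side `2^k`; configurations are arbitrary functions
`f : Site d k → Fin q`; for a finset `V` of sites, `PrV V f` says that `f` is proper on the edges inside `V`.
Boxes `bx a b`, closed 2-blocks (`Blk d k`, points `pt t a b`) inside a box: `gr a b`.
-/

set_option autoImplicit false

open Finset

namespace Pool.Agent.COR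

open Pool.Agent.LO

/-- the admissible `q` -/
def AdmC (d q : ℕ) : Prop := 4 ≤ q ∧ Even q ∧ (q : ℝ) * (10000 * Real.log d) ≤ d

section V
variable {d k q : ℕ}

/-- `f` is proper on the edges inside `V` -/
def PrV (V : Finset (Site d k)) (f : Site d k → Fin q) : Prop :=
  ∀ x ∈ V, ∀ σ : Stp d, x + sv σ ∈ V → f (x + sv σ) ≠ f x

open scoped Classical in
/-- number of functions which are proper on `V` and have the property `P` -/
noncomputable def cV (V : Finset (Site d k)) (P : (Site d k → Fin q) → Prop) : ℝ :=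
  ((univ.filter fun f : Site d k → Fin q => PrV V f ∧ P f).card : ℝ)

/-- number of functions which are proper on `V` -/
noncomputable def ZV (q : ℕ) (V : Finset (Site d k)) : ℝ := cV V (fun _ : Site d k → Fin q => True)

/-- number of all functions -/
noncomputable def QN (d k q : ℕ) : ℝ := (q : ℝ) ^ Fintype.card (Site d k)

open scoped Classical in
/-- the graph of the edges inside `V` -/
def gV (V : Finset (Site d k)) : SimpleGraph (Site d k) where
  Adj x y := x ≠ y ∧ x ∈ V ∧ y ∈ V ∧ ((∃ σ : Stp d, y = x + sv σ) ∧ ∃ σ : Stp d, x = y + sv σ)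
  symm := ⟨fun _ _ h => ⟨h.1.symm, h.2.2.1, h.2.1, h.2.2.2.2, h.2.2.2.1⟩⟩
  loopless := ⟨fun _ h => h.1 rfl⟩

open scoped Classical in
/-- the box `∏ {a i, …, b i}` -/
noncomputable def bx (a b : Fin d → ℕ) : Finset (Site d k) :=
  univ.filter fun x => ∀ i, a i ≤ (x i).val ∧ (x i).val ≤ b i

open scoped Classical in
/-- the closed 2-blocks in the box -/
noncomputable def gr (a b : Fin d → ℕ) : Finset (Blk d k) :=
  univ.filter fun t => ∀ i, a i ≤ 2 * (t i).val ∧ 2 * (t i).val + 2 ≤ b i

end V

section block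
variable {d k q : ℕ}

open scoped Classical in
/-- the colours which are seen by almost all odd points of the block -/
noncomputable def AL (f : Site d (k + 1) → Fin q) (t : Blk d k) : Finset (Fin q) :=
  univ.filter fun c => lab0 f t c

/-- no colour is bad and `|AL| = q/2` -/
def GD (t : Blk d k) (f : Site d (k + 1) → Fin q) : Prop :=
  (∀ c, ¬ bad c t f) ∧ (AL f t).card = q / 2

/-- no colour is bad and `|AL| ≠ q/2` -/
def unb (t : Blk d k) (f : Site d (k + 1) → Fin q) : Prop :=
  (∀ c, ¬ bad c t f) ∧ (AL f t).card ≠ q / 2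

/-- bad with the tolerance `θ` -/
def badT (θ : ℝ) (c : Fin q) (t : Blk d k) (f : Site d (k + 1) → Fin q) : Prop :=
  ¬ (1 - θ ≤ mb f t c) ∧ ¬ (∀ j, mj f t c j ≤ θ)

/-- `θ = d^{-12}` -/
noncomputable def th (d : ℕ) : ℝ := 1 / (d : ℝ) ^ 12

/-- very good block -/
def VG (t : Blk d k) (f : Site d (k + 1) → Fin q) : Prop := GD t f ∧ ∀ c, ¬ badT (th d) c t f

/-- `f` is proper inside the closed block -/
def prB (t : Blk d k) (f : Site d (k + 1) → Fin q) : Prop :=
  ∀ a b (σ : Stp d), alw a b σ → f (pt t a b + sv σ) ≠ f (pt t a b)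

/-- `f` is proper on the edges of the face of the closed block in the plane `x j = 0` or `2` mod `4` -/
def fcE (j : Fin d) (m : Bool) (t : Blk d k) (f : Site d (k + 1) → Fin q) : Prop :=
  ∀ a b (σ : Stp d), alw a b σ → σ.1 ≠ j → (pt t a b j).val % 4 = (if m then 2 else 0) →
    f (pt t a b + sv σ) ≠ f (pt t a b)

end block

/-- the types of blocks -/
inductive Ty (d q : ℕ) : Type
  | free : Ty d q
  | pr : Ty d q
  | bd (c : Fin q) : Ty d q
  | bt (c : Fin q) : Ty d q
  | ub : Ty d q
  | fc (j : Fin d) (m : Bool) : Ty d q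

/-- the events of the types -/
def Ev {d k q : ℕ} (s : Ty d q) (t : Blk d k) (f : Site d (k + 1) → Fin q) : Prop :=
  match s with
  | .free => True
  | .pr => prB t f
  | .bd c => prB t f ∧ bad c t f
  | .bt c => prB t f ∧ badT (th d) c t f
  | .ub => prB t f ∧ unb t f
  | .fc j m => fcE j m t f

/-- the three kinds of bad blocks -/
def Ty.isBad {d q : ℕ} : Ty d q → Prop
  | .bd _ => True
  | .bt _ => True
  | .ub => True
  | _ => False

/-- `r_δ = exp(-2^d / d^3)` -/
noncomputable def r1 (d : ℕ) : ℝ := Real.exp (-((2 : ℝ) ^ d / (d : ℝ) ^ 3))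

/-- `r_θ = exp(-θ 2^d / d^3)` -/
noncomputable def r2 (d : ℕ) : ℝ := Real.exp (-((2 : ℝ) ^ d / (d : ℝ) ^ 15))

/-- the base of a bad type -/
noncomputable def rT {d q : ℕ} : Ty d q → ℝ
  | .bd _ => r1 d
  | .bt _ => r2 d
  | .ub => r1 d
  | _ => 1

/-- `ρ = 6 (d-1)^{-45} + (d/m)^2` -/
noncomputable def rho (d m : ℕ) : ℝ := 6 / ((d : ℝ) - 1) ^ 45 + ((d : ℝ) / m) ^ 2

/-- number of functions which satisfy the events of a family of types -/
noncomputable def cT {d k q : ℕ} {T : Type} (E : T → Blk d k → (Site d (k + 1) → Fin q) → Prop)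
    (τ : Blk d k → T) : ℝ :=
  by classical exact ((univ.filter fun f : Site d (k + 1) → Fin q => ∀ t, E (τ t) t f).card : ℝ)

open scoped Classical in
/-- symmetrised types (left half) -/
noncomputable def tyL {d k : ℕ} {T : Type} (j : Fin d) (α : ZMod (2 ^ k)) (τ : Blk d k → T) : Blk d k → T :=
  fun t => if lft j α t then τ t else τ (rb j α t)

open scoped Classical in
/-- symmetrised types (right half) -/
noncomputable def tyR {d k : ℕ} {T : Type} (j : Fin d) (α : ZMod (2 ^ k)) (τ : Blk d k → T) : Blk d k → T :=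
  fun t => if lft j α t then τ (rb j α t) else τ t

end Pool.Agent.COR
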