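import Pool.Agent.Lib_MP_2c424f_cor.EDefs

/-!
# Numbers (piece E01)

`w = 2 d^33`, `h = 2 d^30`.  `(1 + (4h+5)/w)^d ≤ exp (d (8 d^30 + 5)/(2 d^33)) ≤ exp (5/d²) ≤ 11/10` and
`(1 - 2/w)^d ≥ 1 - 2d/w ≥ 9/10` (Bernoulli) for `d ≥ 10`.
-/

set_option autoImplicit false

open Finset

namespace Pool.Agent.COR

private theorem E01_pos {d : ℕ} (hd : 10 ≤ d) : (0 : ℝ) < wC d := by
  have h : 0 < wC d := by
    unfold wC
    positivity
  exact_mod_cast h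

private theorem E01_up {d : ℕ} (hd : 10 ≤ d) {m : ℕ} (hm : m ≤ d) :
    ((wC d : ℝ) + 4 * hC d + 5) ^ m ≤ 11 / 10 * (wC d : ℝ) ^ m := by
  have hw := E01_pos hd
  have hd' : (10 : ℝ) ≤ d := by exact_mod_cast hd
  have hd0 : (0 : ℝ) < d := by linarith
  have hd1 : (1 : ℝ) ≤ d := by linarith
  have hwe : (wC d : ℝ) = 2 * (d : ℝ) ^ 33 := by unfold wC; push_cast; ring
  have hhe : (hC d : ℝ) = 2 * (d : ℝ) ^ 30 := by unfold hC; push_cast; ring
  set δ : ℝ := (4 * hC d + 5) / wC d with hδ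
  have hδ0 : 0 ≤ δ := by positivity
  have e1 : (wC d : ℝ) + 4 * hC d + 5 = wC d * (1 + δ) := by
    rw [hδ]; field_simp; ring
  have h5 : (5 : ℝ) ≤ (d : ℝ) ^ 30 := by
    have : (d : ℝ) ^ 1 ≤ (d : ℝ) ^ 30 := pow_le_pow_right₀ hd1 (by norm_num)
    linarith
  have h2 : (d : ℝ) * δ ≤ 9 / 200 := by
    rw [hδ, hwe, hhe, mul_div_assoc', div_le_div_iff₀ (by positivity) (by norm_num)]
    have h100 : (100 : ℝ) ≤ (d : ℝ) ^ 2 := by nlinarith
    have h31 : (0 : ℝ) < (d : ℝ) ^ 31 := by positivity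
    have e33 : (d : ℝ) ^ 33 = (d : ℝ) ^ 31 * (d : ℝ) ^ 2 := by ring
    have e31 : (d : ℝ) * (d : ℝ) ^ 30 = (d : ℝ) ^ 31 := by ring
    have h6 : (d : ℝ) * 5 ≤ (d : ℝ) ^ 31 := by
      rw [← e31]; exact mul_le_mul_of_nonneg_left h5 hd0.le
    have h7 : 100 * (d : ℝ) ^ 31 ≤ (d : ℝ) ^ 33 := by
      rw [e33, mul_comm]; exact mul_le_mul_of_nonneg_left h100 h31.le
    have e8 : (d : ℝ) * (4 * (2 * (d : ℝ) ^ 30) + 5) * 200 =
        1600 * (d : ℝ) ^ 31 + 200 * ((d : ℝ) * 5) := by rw [← e31]; ring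
    rw [e8]
    linarith
  have h3 : (1 + δ) ^ m ≤ 11 / 10 := by
    have a1 : (1 + δ) ^ m ≤ Real.exp δ ^ m :=
      pow_le_pow_left₀ (by linarith) (by rw [add_comm]; exact Real.add_one_le_exp δ) m
    have a2 : Real.exp δ ^ m = Real.exp (m * δ) := (Real.exp_nat_mul δ m).symm
    have a3 : (m : ℝ) * δ ≤ 9 / 200 :=
      le_trans (mul_le_mul_of_nonneg_right (by exact_mod_cast hm) hδ0) h2
    have a4 : Real.exp ((m : ℝ) * δ) ≤ Real.exp (9 / 200) := Real.exp_le_exp.2 a3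
    have a5 : Real.exp (9 / 200) ≤ 11 / 10 := by
      have b1 : (1 : ℝ) - 9 / 200 ≤ Real.exp (-(9 / 200)) := by
        have := Real.add_one_le_exp (-(9 / 200 : ℝ))
        linarith
      have b2 : Real.exp (9 / 200 : ℝ) * Real.exp (-(9 / 200)) = 1 := by
        rw [← Real.exp_add]; simp
      have b3 : (0 : ℝ) < Real.exp (9 / 200) := Real.exp_pos _
      nlinarith
    linarith [a2 ▸ a1]
  rw [e1, mul_pow, mul_comm]
  exact mul_le_mul_of_nonneg_right h3 (by positivity)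

private theorem E01_lo {d : ℕ} (hd : 10 ≤ d) {m : ℕ} (hm : m ≤ d) :
    9 / 10 * (wC d : ℝ) ^ m ≤ ((wC d : ℝ) - 2) ^ m := by
  have hw := E01_pos hd
  have hd' : (10 : ℝ) ≤ d := by exact_mod_cast hd
  have hd1 : (1 : ℝ) ≤ d := by linarith
  have hwe : (wC d : ℝ) = 2 * (d : ℝ) ^ 33 := by unfold wC; push_cast; ring
  have h10 : 20 * (d : ℝ) ≤ wC d := by
    rw [hwe]
    have h1 : (d : ℝ) ^ 2 ≤ (d : ℝ) ^ 33 := pow_le_pow_right₀ hd1 (by norm_num)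
    nlinarith
  have hle : (2 : ℝ) / wC d ≤ 1 / 100 := by
    rw [div_le_div_iff₀ hw (by norm_num)]
    linarith
  have e1 : (wC d : ℝ) - 2 = wC d * (1 + -(2 / wC d)) := by
    field_simp; ring
  have h3 : 9 / 10 ≤ (1 + -(2 / (wC d : ℝ))) ^ m := by
    have b := one_add_mul_le_pow (a := -(2 / (wC d : ℝ))) (by linarith) m
    have a3 : (m : ℝ) * (2 / wC d) ≤ 1 / 10 := by
      have c1 : (m : ℝ) * (2 / wC d) ≤ d * (2 / wC d) :=
        mul_le_mul_of_nonneg_right (by exact_mod_cast hm) (by positivity)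
      have c2 : (d : ℝ) * (2 / wC d) ≤ 1 / 10 := by
        rw [mul_div_assoc', div_le_div_iff₀ hw (by norm_num)]
        linarith
      linarith
    have e : (1 : ℝ) + m * -(2 / wC d) = 1 - m * (2 / wC d) := by ring
    rw [e] at b
    linarith
  rw [e1, mul_pow, mul_comm]
  exact mul_le_mul_of_nonneg_left h3 (by positivity)

theorem num_up {d : ℕ} (hd : 10 ≤ d) : ((wC d : ℝ) + 4 * hC d + 5) ^ (d - 1) ≤ 11 / 10 * W1 d := by
  exact E01_up hd (Nat.sub_le d 1)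

theorem num_up2 {d : ℕ} (hd : 10 ≤ d) :
    ((wC d : ℝ) + 4 * hC d + 5) ^ (d - 2) ≤ 11 / 10 * W1 d / wC d := by
  have hw := E01_pos hd
  have h := E01_up hd (Nat.sub_le d 2)
  have e : 11 / 10 * W1 d / (wC d : ℝ) = 11 / 10 * (wC d : ℝ) ^ (d - 2) := by
    have : W1 d = (wC d : ℝ) ^ (d - 2) * wC d := by
      unfold W1
      rw [← pow_succ]
      congr 1
      omega
    rw [this]
    field_simp
  rw [e]
  exact h

theorem num_up3 {d : ℕ} (hd : 10 ≤ d) :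
    ((wC d : ℝ) + 4 * hC d + 5) ^ (d - 3) ≤ 11 / 10 * W1 d / (wC d : ℝ) ^ 2 := by
  have hw := E01_pos hd
  have h := E01_up hd (Nat.sub_le d 3)
  have e : 11 / 10 * W1 d / (wC d : ℝ) ^ 2 = 11 / 10 * (wC d : ℝ) ^ (d - 3) := by
    have : W1 d = (wC d : ℝ) ^ (d - 3) * (wC d : ℝ) ^ 2 := by
      unfold W1
      rw [← pow_add]
      congr 1
      omega
    rw [this]
    field_simp
  rw [e]
  exact h

theorem num_lo {d : ℕ} (hd : 10 ≤ d) : 9 / 10 * W1 d ≤ ((wC d : ℝ) - 2) ^ (d - 1) := by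
  exact E01_lo hd (Nat.sub_le d 1)

theorem num_lo2 {d : ℕ} (hd : 10 ≤ d) : 9 / 10 * (wC d : ℝ) ^ d ≤ ((wC d : ℝ) - 2) ^ d := by
  exact E01_lo hd le_rfl

end Pool.Agent.COR
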