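import Pool.Agent.Lib_MP_2c424f_cor.EDefs
import Pool.Agent.Lib_MP_2c424f_cor.B07

/-!
# Geometry of the shell boxes (piece E02)

`w`, `n + 2 = w 2^K` and all `a i`, `b i + 2` are multiples of `w` (so all corners are even); hence an active lower side has
`a i ≥ w`, an active upper side `b i + w ≤ n`; `w ≥ 8 h` (`d ≥ 10`), `h ≥ 2`.  `sd_nonempty`: in a direction `i ≠ i₀` (`d ≥ 2`) the box has
the length `w - 2 < n` (`K ≥ 1`), so one of the two sides is active.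
-/

set_option autoImplicit false

open Finset

namespace Pool.Agent.COR

open Pool.Agent.LO

variable {d K k : ℕ} {a b : Fin d → ℕ}

private theorem E02_w2 (d : ℕ) : 2 ∣ wC d := ⟨d ^ 33, rfl⟩

private theorem E02_h2 (d : ℕ) : 2 ∣ hC d := ⟨d ^ 30, rfl⟩

private theorem E02_hw (hd : 10 ≤ d) : 2 ≤ hC d ∧ 8 * hC d ≤ wC d := by
  have h1 : 1 ≤ d ^ 30 := Nat.one_le_pow _ _ (by omega)
  have h2 : 10 ^ 3 ≤ d ^ 3 := Nat.pow_le_pow_left hd 3
  have h3 : d ^ 33 = d ^ 3 * d ^ 30 := by ring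
  have h4 : 10 ^ 3 * d ^ 30 ≤ d ^ 3 * d ^ 30 := Nat.mul_le_mul_right _ h2
  unfold hC wC
  constructor
  · omega
  · rw [h3]
    omega

private theorem E02_n (hd : 10 ≤ d) (K : ℕ) : nC d K + 2 = wC d * 2 ^ K := by
  have h1 := E02_hw hd
  have h2 : wC d * 1 ≤ wC d * 2 ^ K := Nat.mul_le_mul_left _ (Nat.one_le_pow _ _ (by norm_num))
  unfold nC
  omega

private theorem E02_ne (hd : 10 ≤ d) (K : ℕ) : Even (nC d K) := by
  have h1 := E02_n hd K
  have h2 : 2 ∣ wC d * 2 ^ K := Dvd.dvd.mul_right (E02_w2 d) _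
  rw [even_iff_two_dvd]
  omega

theorem dbx_even (hD : dbx d K a b) (i : Fin d) : Even (a i) ∧ Even (b i) := by
  obtain ⟨h1, h2, h3⟩ := hD.1 i
  have h4 := E02_w2 d
  have h5 : 2 ∣ a i := h4.trans h1
  rw [even_iff_two_dvd, even_iff_two_dvd]
  refine ⟨h5, ?_⟩
  rcases h3 with h3 | h3 <;> omega

theorem dbx_act (hd : 10 ≤ d) (hD : dbx d K a b) (i : Fin d) :
    (0 < a i → wC d ≤ a i) ∧ (b i < nC d K → b i + wC d ≤ nC d K) ∧ a i + (wC d - 2) ≤ b i ∧
      b i ≤ a i + (2 * wC d - 2) := by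
  obtain ⟨h1, h2, h3⟩ := hD.1 i
  have h4 := E02_hw hd
  have h5 := E02_n hd K
  refine ⟨fun h => Nat.le_of_dvd h h1, fun h => ?_, ?_, ?_⟩
  · have h6 : ∃ m, b i + 2 = wC d * m := by
      obtain ⟨c, hc⟩ := h1
      rcases h3 with h3 | h3
      · exact ⟨c + 1, by rw [h3, hc]; ring⟩
      · exact ⟨c + 2, by rw [h3, hc]; ring⟩
    obtain ⟨m, hm⟩ := h6
    have h7 : wC d * m < wC d * 2 ^ K := by omega
    have h8 : m + 1 ≤ 2 ^ K := Nat.lt_of_mul_lt_mul_left h7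
    have h9 : wC d * (m + 1) ≤ wC d * 2 ^ K := Nat.mul_le_mul_left _ h8
    rw [Nat.mul_add, Nat.mul_one] at h9
    omega
  · rcases h3 with h3 | h3 <;> omega
  · rcases h3 with h3 | h3 <;> omega

private theorem E02_sd {σ : Stp d} : σ ∈ sd d K a b ↔
    (σ.2 = true ∧ b σ.1 < nC d K) ∨ (σ.2 = false ∧ 0 < a σ.1) := by
  classical
  unfold sd
  rw [mem_filter]
  cases h : σ.2 <;> simp

theorem sd_nonempty (hd : 10 ≤ d) (hK : 1 ≤ K) (hD : dbx d K a b) : (sd d K a b).Nonempty := by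
  obtain ⟨i₀, h0⟩ := hD.2
  have h1 : ∃ i : Fin d, i ≠ i₀ := by
    by_cases h : i₀ = ⟨0, by omega⟩
    · refine ⟨⟨1, by omega⟩, fun h2 => ?_⟩
      rw [h] at h2
      exact absurd (congrArg Fin.val h2) (by norm_num)
    · exact ⟨⟨0, by omega⟩, Ne.symm h⟩
  obtain ⟨i, hi⟩ := h1
  have h2 := h0 i hi
  have h3 := E02_hw hd
  have h4 := E02_n hd K
  have h5 : 2 ^ 1 ≤ 2 ^ K := Nat.pow_le_pow_right (by norm_num) hK
  have h6 : wC d * 2 ^ 1 ≤ wC d * 2 ^ K := Nat.mul_le_mul_left _ h5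
  by_cases ha : 0 < a i
  · exact ⟨(i, false), E02_sd.2 (Or.inr ⟨rfl, ha⟩)⟩
  · refine ⟨(i, true), E02_sd.2 (Or.inl ⟨rfl, ?_⟩)⟩
    show b i < nC d K
    omega

theorem evb_dbx (hd : 10 ≤ d) (hn : nC d K + 4 ≤ 2 ^ (k + 1)) (hD : dbx d K a b) : evb k a b := by
  intro i
  obtain ⟨h1, h2⟩ := dbx_even hD i
  obtain ⟨h3, h4, h5, h6⟩ := dbx_act hd hD i
  have h7 := E02_hw hd
  have h8 := (hD.1 i).2.1
  exact ⟨h1, h2, by omega, by omega⟩

/-- the corners in one direction -/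
private theorem E02_q (hd : 10 ≤ d) (hD : dbx d K a b) {σ : Stp d}
    (hσ : σ ∈ sd d K a b) (i : Fin d) :
    Even (qa d a b σ i) ∧ Even (qb d K a b σ i) ∧ qa d a b σ i + 2 * hC d ≤ qb d K a b σ i ∧
      qb d K a b σ i ≤ nC d K ∧ elo d a i ≤ qa d a b σ i ∧ qb d K a b σ i ≤ ehi d K b i ∧
      (i = σ.1 → b i < qa d a b σ i ∨ qb d K a b σ i < a i) := by
  obtain ⟨h1, h2⟩ := dbx_even hD i
  obtain ⟨h3, h4, h5, h6⟩ := dbx_act hd hD i
  obtain ⟨h7, h7'⟩ := E02_hw hd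
  have h8 := (hD.1 i).2.1
  have h9 := E02_ne hd K
  rw [even_iff_two_dvd] at h1 h2 h9
  rw [even_iff_two_dvd, even_iff_two_dvd]
  unfold qa qb
  by_cases hi : i = σ.1
  · subst hi
    rw [Function.update_self, Function.update_self]
    unfold elo ehi
    rcases E02_sd.1 hσ with ⟨hs, hs'⟩ | ⟨hs, hs'⟩
    · rw [hs, if_pos rfl, if_pos rfl]
      have h10 := h4 hs'
      refine ⟨by omega, by omega, by omega, by omega, by omega, ?_, fun _ => Or.inl (by omega)⟩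
      exact le_min (by omega) le_rfl
    · have hf : ¬ (false = true) := Bool.false_ne_true
      rw [hs, if_neg hf, if_neg hf]
      have h10 := h3 hs'
      refine ⟨by omega, by omega, by omega, by omega, by omega, ?_, fun _ => Or.inr (by omega)⟩
      exact le_min (by omega) (by omega)
  · rw [Function.update_of_ne hi, Function.update_of_ne hi]
    unfold elo ehi
    refine ⟨by omega, ?_, ?_, min_le_left _ _, le_rfl, le_rfl, fun h => absurd h hi⟩
    · rcases le_total (nC d K) (b i + (2 * hC d + 2)) with h | h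
      · rw [min_eq_left h]
        exact h9
      · rw [min_eq_right h]
        omega
    · exact le_min (by omega) (by omega)

theorem evb_q (hd : 10 ≤ d) (hn : nC d K + 4 ≤ 2 ^ (k + 1)) (hD : dbx d K a b) {σ : Stp d}
    (hσ : σ ∈ sd d K a b) :
    evb k (qa d a b σ) (qb d K a b σ) ∧ ∀ i, qa d a b σ i + 2 * hC d ≤ qb d K a b σ i := by
  have h7 := E02_hw hd
  refine ⟨fun i => ?_, fun i => (E02_q hd hD hσ i).2.2.1⟩
  obtain ⟨h1, h2, h3, h4, -⟩ := E02_q hd hD hσ i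
  exact ⟨h1, h2, by omega, by omega⟩

private theorem E02_bx {a b : Fin d → ℕ} {x : Site d k} :
    x ∈ bx a b ↔ ∀ i, a i ≤ (x i).val ∧ (x i).val ≤ b i := by
  unfold bx
  rw [mem_filter]
  simp only [mem_univ, true_and]

/-- the shell boxes are in `G`, in the neighbourhood of `D` and do not meet `D` -/
theorem QB_sub (hd : 10 ≤ d) (hn : nC d K + 4 ≤ 2 ^ (k + 1)) (hD : dbx d K a b) {σ : Stp d}
    (hσ : σ ∈ sd d K a b) :
    QB d K k a b σ ⊆ GB d K k ∧ QB d K k a b σ ⊆ bx (elo d a) (ehi d K b) ∧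
      Disjoint (QB d K k a b σ) (bx a b) := by
  have hq := E02_q hd hD hσ
  refine ⟨fun x hx => ?_, fun x hx => ?_, ?_⟩
  · unfold QB at hx
    rw [E02_bx] at hx
    unfold GB
    rw [E02_bx]
    intro i
    have h1 := hx i
    have h2 := (hq i).2.2.2.1
    exact ⟨Nat.zero_le _, h1.2.trans h2⟩
  · unfold QB at hx
    rw [E02_bx] at hx ⊢
    intro i
    have h1 := hx i
    obtain ⟨-, -, -, -, h2, h3, -⟩ := hq i
    exact ⟨h2.trans h1.1, h1.2.trans h3⟩
  · rw [disjoint_left]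
    intro x hx hx'
    unfold QB at hx
    rw [E02_bx] at hx hx'
    have h1 := hx σ.1
    have h2 := hx' σ.1
    rcases (hq σ.1).2.2.2.2.2.2 rfl with h3 | h3 <;> omega

end Pool.Agent.COR
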