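import Pool.Agent.Lib_MP_2c424f_cor.K02

/-!
# Adding edges (piece K03, (A2))

`E` contains all edges of `G'` which are not edges of `G` (in one of the two orders).  Induction on `E` (add the
edges of `G'` from `E` one by one; every intermediate graph is `≤ G'`, so `ev` is a parity for it): adding one edge
`vw` removes the colourings with `f v = f w`, at most a proportion `1/q` (`kempe_le`).
Convenient: for a finset `E` let `G_E` have the adjacency `G.Adj x y ∨ (G'.Adj x y ∧ ((x,y) ∈ E ∨ (y,x) ∈ E))`.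
-/

set_option autoImplicit false

open Finset

namespace Pool.Agent.COR

variable {W : Type} [Fintype W] [DecidableEq W] {q : ℕ}

/-- intermediate graph -/
private def K03_g (G G' : SimpleGraph W) (E : Finset (W × W)) : SimpleGraph W where
  Adj x y := G.Adj x y ∨ (G'.Adj x y ∧ ((x, y) ∈ E ∨ (y, x) ∈ E))
  symm := ⟨fun _ _ h => h.elim (fun h => Or.inl h.symm) (fun h => Or.inr ⟨h.1.symm, h.2.symm⟩)⟩
  loopless := ⟨fun x h => h.elim (fun h => G.loopless.irrefl x h) (fun h => G'.loopless.irrefl x h.1)⟩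

private theorem K03_adj (G G' : SimpleGraph W) (E : Finset (W × W)) (x y : W) :
    (K03_g G G' E).Adj x y ↔ (G.Adj x y ∨ (G'.Adj x y ∧ ((x, y) ∈ E ∨ (y, x) ∈ E))) := Iff.rfl

private theorem K03_mono {G H : SimpleGraph W} {P Q : (W → Fin q) → Prop}
    (h : ∀ f : W → Fin q, PrG G f → P f → PrG H f ∧ Q f) : cG G P ≤ cG H Q := by
  classical
  unfold cG
  have h1 : (univ.filter fun f : W → Fin q => PrG G f ∧ P f) ⊆
      (univ.filter fun f : W → Fin q => PrG H f ∧ Q f) := by
    intro f hf
    rw [mem_filter] at hf ⊢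
    exact ⟨mem_univ _, h f hf.2.1 hf.2.2⟩
  exact_mod_cast card_le_card h1

private theorem K03_split (G : SimpleGraph W) (P : (W → Fin q) → Prop) :
    cG G (fun _ : W → Fin q => True) = cG G P + cG G (fun f => ¬ P f) := by
  classical
  have h1 : (univ.filter fun f : W → Fin q => PrG G f ∧ True) =
      (univ.filter fun f : W → Fin q => PrG G f ∧ P f) ∪
      (univ.filter fun f : W → Fin q => PrG G f ∧ ¬ P f) := by
    ext f
    simp only [mem_filter, mem_union, mem_univ, true_and, and_true]
    tauto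
  have h2 : Disjoint (univ.filter fun f : W → Fin q => PrG G f ∧ P f)
      (univ.filter fun f : W → Fin q => PrG G f ∧ ¬ P f) := by
    rw [disjoint_left]
    intro f hf hf'
    rw [mem_filter] at hf hf'
    exact hf'.2.2 hf.2.2
  have h3 := card_union_of_disjoint h2
  rw [← h1] at h3
  have h4 : ((univ.filter fun f : W → Fin q => PrG G f ∧ True).card : ℝ) =
      (univ.filter fun f : W → Fin q => PrG G f ∧ P f).card +
      (univ.filter fun f : W → Fin q => PrG G f ∧ ¬ P f).card := by
    exact_mod_cast h3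
  unfold cG
  convert h4

private theorem K03_nonneg (G : SimpleGraph W) (P : (W → Fin q) → Prop) : 0 ≤ cG G P := by
  unfold cG
  positivity

private theorem K03_step {G G' : SimpleGraph W} {ev : W → Prop} (hG : Par G' ev) (hle : G ≤ G')
    (hq : 1 ≤ q) (E : Finset (W × W)) (v w : W) :
    (1 - 1 / (q : ℝ)) * cG (K03_g G G' E) (fun _ : W → Fin q => True) ≤
      cG (K03_g G G' (insert (v, w) E)) (fun _ : W → Fin q => True) := by
  classical
  have hq0 : (1 : ℝ) ≤ q := by exact_mod_cast hq
  have hqp : (0 : ℝ) < q := by linarith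
  have hH : Par (K03_g G G' E) ev := by
    intro x y hxy
    rw [K03_adj] at hxy
    exact hxy.elim (fun h => hG x y (hle h)) (fun h => hG x y h.1)
  by_cases hvw : G'.Adj v w
  · have hev : ¬ (ev v ↔ ev w) := by
      have := hG v w hvw
      tauto
    have h1 := kempe_le (q := q) hH hev
    have h2 := K03_split (q := q) (K03_g G G' E) (fun f => f v = f w)
    have h3 : cG (K03_g G G' E) (fun f : W → Fin q => ¬ f v = f w) ≤
        cG (K03_g G G' (insert (v, w) E)) (fun _ : W → Fin q => True) := by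
      refine K03_mono fun f hf hf2 => ⟨?_, trivial⟩
      intro x y hxy
      rw [K03_adj] at hxy
      rcases hxy with hxy | ⟨hxy, hm⟩
      · exact hf x y ((K03_adj _ _ _ _ _).2 (Or.inl hxy))
      · rw [mem_insert, mem_insert] at hm
        rcases hm with (hm | hm) | (hm | hm)
        · obtain ⟨rfl, rfl⟩ := Prod.mk.inj hm
          exact hf2
        · exact hf x y ((K03_adj _ _ _ _ _).2 (Or.inr ⟨hxy, Or.inl hm⟩))
        · obtain ⟨rfl, rfl⟩ := Prod.mk.inj hm
          exact fun h => hf2 h.symm
        · exact hf x y ((K03_adj _ _ _ _ _).2 (Or.inr ⟨hxy, Or.inr hm⟩))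
    have h4 : cG (K03_g G G' E) (fun f : W → Fin q => f v = f w) ≤
        1 / (q : ℝ) * cG (K03_g G G' E) (fun _ : W → Fin q => True) := by
      rw [one_div, ← div_eq_inv_mul, le_div_iff₀ hqp, mul_comm]
      exact h1
    linarith
  · have h1 : cG (K03_g G G' E) (fun _ : W → Fin q => True) ≤
        cG (K03_g G G' (insert (v, w) E)) (fun _ : W → Fin q => True) := by
      refine K03_mono fun f hf _ => ⟨?_, trivial⟩
      intro x y hxy
      rw [K03_adj] at hxy
      rcases hxy with hxy | ⟨hxy, hm⟩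
      · exact hf x y ((K03_adj _ _ _ _ _).2 (Or.inl hxy))
      · rw [mem_insert, mem_insert] at hm
        rcases hm with (hm | hm) | (hm | hm)
        · obtain ⟨rfl, rfl⟩ := Prod.mk.inj hm
          exact absurd hxy hvw
        · exact hf x y ((K03_adj _ _ _ _ _).2 (Or.inr ⟨hxy, Or.inl hm⟩))
        · obtain ⟨rfl, rfl⟩ := Prod.mk.inj hm
          exact absurd hxy.symm hvw
        · exact hf x y ((K03_adj _ _ _ _ _).2 (Or.inr ⟨hxy, Or.inr hm⟩))
    have h2 := K03_nonneg (q := q) (K03_g G G' E) (fun _ => True)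
    have h3 : 0 ≤ 1 / (q : ℝ) := by positivity
    nlinarith

private theorem K03_all {G G' : SimpleGraph W} {ev : W → Prop} (hG : Par G' ev) (hle : G ≤ G')
    (hq : 1 ≤ q) (E : Finset (W × W)) :
    (1 - 1 / (q : ℝ)) ^ E.card * cG G (fun _ : W → Fin q => True) ≤
      cG (K03_g G G' E) (fun _ : W → Fin q => True) := by
  classical
  have hq0 : (1 : ℝ) ≤ q := by exact_mod_cast hq
  have hqp : (0 : ℝ) < q := by linarith
  have h0 : 0 ≤ 1 - 1 / (q : ℝ) := by
    have : 1 / (q : ℝ) ≤ 1 := by
      rw [div_le_one hqp]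
      exact hq0
    linarith
  induction E using Finset.induction_on with
  | empty =>
    rw [card_empty, pow_zero, one_mul]
    refine K03_mono fun f hf _ => ⟨?_, trivial⟩
    intro x y hxy
    rw [K03_adj] at hxy
    rcases hxy with hxy | ⟨_, hm⟩
    · exact hf x y hxy
    · simp at hm
  | insert e E he ih =>
    obtain ⟨v, w⟩ := e
    rw [card_insert_of_notMem he, pow_succ]
    refine le_trans ?_ (K03_step hG hle hq E v w)
    calc (1 - 1 / (q : ℝ)) ^ E.card * (1 - 1 / (q : ℝ)) * cG G (fun _ : W → Fin q => True)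
        = (1 - 1 / (q : ℝ)) * ((1 - 1 / (q : ℝ)) ^ E.card * cG G (fun _ : W → Fin q => True)) := by
          ring
      _ ≤ (1 - 1 / (q : ℝ)) * cG (K03_g G G' E) (fun _ : W → Fin q => True) :=
          mul_le_mul_of_nonneg_left ih h0

theorem add_edges {G G' : SimpleGraph W} {ev : W → Prop} (hG : Par G' ev) (hle : G ≤ G') (hq : 1 ≤ q)
    (E : Finset (W × W)) (hE : ∀ x y, G'.Adj x y → G.Adj x y ∨ (x, y) ∈ E ∨ (y, x) ∈ E) :
    (1 - 1 / (q : ℝ)) ^ E.card * cG G (fun _ : W → Fin q => True) ≤ cG G' (fun _ : W → Fin q => True) := by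
  refine (K03_all hG hle hq E).trans ?_
  refine K03_mono fun f hf _ => ⟨?_, trivial⟩
  intro x y hxy
  refine hf x y ((K03_adj _ _ _ _ _).2 ?_)
  rcases hE x y hxy with h | h
  · exact Or.inl h
  · exact Or.inr ⟨hxy, h⟩

end Pool.Agent.COR
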