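import Pool.Agent.Lib_MP_2c424f_cor.V01
import Pool.Agent.Lib_MP_2c424f_cor.K03

/-!
# Deleting sites, cutting a set (piece V02, (A2), (A3))

`add_edges` with `G' = gV V` and `G = gV (V \ X)` (edges at `X`: pairs `(x, x + sv σ)`, `x ∈ X`, at most `2 d |X|`; the
factor `(1-1/q)^{2d|X|} ≤ (1-1/q)^{|E|}`), resp. `G` = the edges inside `Q` or inside `V \ Q` and `E` = the pairs
`(x, x + sv σ)`, `x ∈ Q`, `x + sv σ ∈ V \ Q`.
-/

set_option autoImplicit false

open Finset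

namespace Pool.Agent.COR

open Pool.Agent.LO

variable {d k q : ℕ}

private theorem V02_base (hq : 2 ≤ q) : 0 ≤ 1 - 1 / (q : ℝ) ∧ 1 - 1 / (q : ℝ) ≤ 1 := by
  have hq0 : (2 : ℝ) ≤ q := by exact_mod_cast hq
  have hqp : (0 : ℝ) < q := by linarith
  have h1 : 1 / (q : ℝ) ≤ 1 := by
    rw [div_le_one hqp]
    linarith
  have h2 : 0 ≤ 1 / (q : ℝ) := by positivity
  constructor <;> linarith

private theorem V02_cG_nonneg (G : SimpleGraph (Site d k)) (P : (Site d k → Fin q) → Prop) :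
    0 ≤ cG G P := by
  unfold cG
  positivity

theorem del_sites (hk : 1 ≤ k) (hq : 2 ≤ q) (V X : Finset (Site d k)) :
    (1 - 1 / (q : ℝ)) ^ (2 * d * X.card) * ZV q (V \ X) ≤ ZV q V := by
  classical
  obtain ⟨hb0, hb1⟩ := V02_base hq
  set E : Finset (Site d k × Site d k) :=
    (X ×ˢ (univ : Finset (Stp d))).image (fun p => (p.1, p.1 + sv p.2)) with hEdef
  have hcard : E.card ≤ 2 * d * X.card := by
    refine card_image_le.trans ?_
    rw [card_product, card_univ, Fintype.card_prod, Fintype.card_fin, Fintype.card_bool]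
    exact le_of_eq (by ring)
  have hle : gV (V \ X) ≤ gV V := by
    intro x y h
    obtain ⟨h1, h2, h3, h4⟩ := h
    exact ⟨h1, (mem_sdiff.1 h2).1, (mem_sdiff.1 h3).1, h4⟩
  have hE : ∀ x y, (gV V).Adj x y → (gV (V \ X)).Adj x y ∨ (x, y) ∈ E ∨ (y, x) ∈ E := by
    intro x y h
    obtain ⟨h1, h2, h3, ⟨σ, h4⟩, ⟨τ, h5⟩⟩ := h
    by_cases hx : x ∈ X
    · right; left
      rw [hEdef, mem_image]
      exact ⟨(x, σ), mem_product.2 ⟨hx, mem_univ _⟩, by simp only [h4]⟩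
    · by_cases hy : y ∈ X
      · right; right
        rw [hEdef, mem_image]
        exact ⟨(y, τ), mem_product.2 ⟨hy, mem_univ _⟩, by simp only [← h5]⟩
      · left
        exact ⟨h1, mem_sdiff.2 ⟨h2, hx⟩, mem_sdiff.2 ⟨h3, hy⟩, ⟨σ, h4⟩, ⟨τ, h5⟩⟩
  have hmain := add_edges (q := q) (par_gV hk V) hle (by omega) E hE
  unfold ZV
  rw [cV_eq hk, cV_eq hk]
  refine le_trans ?_ hmain
  exact mul_le_mul_of_nonneg_right (pow_le_pow_of_le_one hb0 hb1 hcard) (V02_cG_nonneg _ _)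

open scoped Classical in
/-- number of edges between `Q` and `V \ Q` -/
noncomputable def cut (V Q : Finset (Site d k)) : ℕ :=
  ((univ : Finset (Site d k × Stp d)).filter fun p => p.1 ∈ Q ∧ p.1 + sv p.2 ∈ V \ Q).card

theorem cut_le (hk : 1 ≤ k) (hq : 2 ≤ q) (V Q : Finset (Site d k)) (hQ : Q ⊆ V) :
    (1 - 1 / (q : ℝ)) ^ cut V Q * cV Q (fun f : Site d k → Fin q => PrV (V \ Q) f) ≤ ZV q V := by
  classical
  obtain ⟨hb0, hb1⟩ := V02_base hq
  set E : Finset (Site d k × Site d k) :=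
    ((univ : Finset (Site d k × Stp d)).filter fun p => p.1 ∈ Q ∧ p.1 + sv p.2 ∈ V \ Q).image
      (fun p => (p.1, p.1 + sv p.2)) with hEdef
  have hcard : E.card ≤ cut V Q := by
    refine card_image_le.trans (le_of_eq ?_)
    unfold cut
    congr
  have hle : gV Q ⊔ gV (V \ Q) ≤ gV V := by
    intro x y h
    rw [SimpleGraph.sup_adj] at h
    rcases h with ⟨h1, h2, h3, h4⟩ | ⟨h1, h2, h3, h4⟩
    · exact ⟨h1, hQ h2, hQ h3, h4⟩
    · exact ⟨h1, (mem_sdiff.1 h2).1, (mem_sdiff.1 h3).1, h4⟩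
  have hE : ∀ x y, (gV V).Adj x y → (gV Q ⊔ gV (V \ Q)).Adj x y ∨ (x, y) ∈ E ∨ (y, x) ∈ E := by
    intro x y h
    obtain ⟨h1, h2, h3, ⟨σ, h4⟩, ⟨τ, h5⟩⟩ := h
    by_cases hx : x ∈ Q
    · by_cases hy : y ∈ Q
      · left
        rw [SimpleGraph.sup_adj]
        exact Or.inl ⟨h1, hx, hy, ⟨σ, h4⟩, ⟨τ, h5⟩⟩
      · right; left
        rw [hEdef, mem_image]
        refine ⟨(x, σ), mem_filter.2 ⟨mem_univ _, hx, ?_⟩, by simp only [h4]⟩
        rw [← h4]
        exact mem_sdiff.2 ⟨h3, hy⟩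
    · by_cases hy : y ∈ Q
      · right; right
        rw [hEdef, mem_image]
        refine ⟨(y, τ), mem_filter.2 ⟨mem_univ _, hy, ?_⟩, by simp only [← h5]⟩
        rw [← h5]
        exact mem_sdiff.2 ⟨h2, hx⟩
      · left
        rw [SimpleGraph.sup_adj]
        exact Or.inr ⟨h1, mem_sdiff.2 ⟨h2, hx⟩, mem_sdiff.2 ⟨h3, hy⟩, ⟨σ, h4⟩, ⟨τ, h5⟩⟩
  have hmain := add_edges (q := q) (par_gV hk V) hle (by omega) E hE
  have hcG : cV Q (fun f : Site d k → Fin q => PrV (V \ Q) f) =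
      cG (gV Q ⊔ gV (V \ Q)) (fun _ : Site d k → Fin q => True) := by
    unfold cV cG
    congr 2
    ext f
    simp only [mem_filter, mem_univ, true_and, and_true, prV_iff hk]
    constructor
    · rintro ⟨h1, h2⟩ x y hxy
      rw [SimpleGraph.sup_adj] at hxy
      exact hxy.elim (fun h => h1 x y h) (fun h => h2 x y h)
    · intro h
      refine ⟨fun x y hxy => h x y ?_, fun x y hxy => h x y ?_⟩
      · rw [SimpleGraph.sup_adj]; exact Or.inl hxy
      · rw [SimpleGraph.sup_adj]; exact Or.inr hxy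
  unfold ZV
  rw [hcG, cV_eq hk]
  refine le_trans ?_ hmain
  exact mul_le_mul_of_nonneg_right (pow_le_pow_of_le_one hb0 hb1 hcard) (V02_cG_nonneg _ _)

end Pool.Agent.COR
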