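import Pool.Agent.Lib_MP_2c424f_cor.E01
import Pool.Agent.Lib_MP_2c424f_cor.E02
import Pool.Agent.Lib_MP_2c424f_cor.V02

/-!
# Volumes of the shell boxes (piece E03)

`cut_bx`: a pair `(x, ±e_i)` with `x` in the box and `x ± e_i` not in the box has `x i = b i` resp. `x i = a i` (`a i ≤ b i`,
`b i + 1 < 2^(k+1)`), and the other coordinates are free.
Side lengths of `QB σ`, `σ = (i, ·)`: `2h` in direction `i`; in the directions `j ≠ i` at least `w - 2`, and at most `w + 4h + 4`, for one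
`j` at most `2 w + 4 h + 4 ≤ 2 (w + 4h + 5) - 1` (`card_bx`, `card_gr`).  So `|Q| ≤ (2h+1) 2 (w+4h+5)^(d-1) ≤ 5 h W1` (`num_up`),
`2^d |gr| = ∏ (sides) ≥ 2h (w-2)^(d-1) ≥ (9/5) h W1` (`num_lo`), `cut ≤ 2 · 2 (w+4h+5)^(d-1) + 2 d (2h+1) 2 (w+4h+5)^(d-2) ≤ 8 W1`
(`num_up2`; `h d/w = 1/d²`).
-/

set_option autoImplicit false

open Finset

namespace Pool.Agent.COR

open Pool.Agent.LO

variable {d K k : ℕ} {a b : Fin d → ℕ}

private theorem E03_card (N m n : ℕ) [NeZero N] (hmn : n ≤ N) :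
    (univ.filter fun z : ZMod N => m ≤ z.val ∧ z.val < n).card = n - m := by
  rw [← Nat.card_Ico, ← Finset.card_image_of_injective _ (ZMod.val_injective N)]
  congr 1
  ext x
  simp only [mem_image, mem_filter, mem_univ, true_and, mem_Ico]
  constructor
  · rintro ⟨z, hz, rfl⟩
    exact hz
  · intro hx
    exact ⟨(x : ZMod N), by rw [ZMod.val_natCast_of_lt (by omega)]; exact hx,
      ZMod.val_natCast_of_lt (by omega)⟩

private theorem E03_mem_bx {a b : Fin d → ℕ} {x : Site d (k + 1)} :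
    x ∈ bx a b ↔ ∀ i, a i ≤ (x i).val ∧ (x i).val ≤ b i := by
  unfold bx
  rw [mem_filter]
  simp only [mem_univ, true_and]

/-- the points of a face of the box -/
private theorem E03_face {a b : Fin d → ℕ} (h : ∀ i, a i ≤ b i ∧ b i + 1 < 2 ^ (k + 1)) (i : Fin d)
    (z0 : ZMod (2 ^ (k + 1))) (S : Finset (Site d (k + 1)))
    (hS : ∀ x ∈ S, x i = z0 ∧ ∀ j, j ≠ i → a j ≤ (x j).val ∧ (x j).val ≤ b j) :
    S.card ≤ ∏ j ∈ univ.erase i, (b j - a j + 1) := by
  classical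
  have hsub : S ⊆ Fintype.piFinset fun j => if j = i then {z0} else
      univ.filter fun z : ZMod (2 ^ (k + 1)) => a j ≤ z.val ∧ z.val < b j + 1 := by
    intro x hx
    obtain ⟨h1, h2⟩ := hS x hx
    rw [Fintype.mem_piFinset]
    intro j
    by_cases hj : j = i
    · rw [if_pos hj, mem_singleton, hj, h1]
    · rw [if_neg hj, mem_filter]
      have h3 := h2 j hj
      exact ⟨mem_univ _, h3.1, by omega⟩
  refine (card_le_card hsub).trans (le_of_eq ?_)
  rw [Fintype.card_piFinset, ← Finset.mul_prod_erase univ _ (mem_univ i)]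
  rw [if_pos rfl, card_singleton, one_mul]
  refine prod_congr rfl fun j hj => ?_
  rw [if_neg (Finset.ne_of_mem_erase hj)]
  have h4 := h j
  rw [E03_card (2 ^ (k + 1)) _ _ (by omega)]
  omega

private theorem E03_exit {a b : Fin d → ℕ} (h : ∀ i, a i ≤ b i ∧ b i + 1 < 2 ^ (k + 1))
    (x : Site d (k + 1)) (σ : Stp d) (hx : x ∈ bx a b) (hx' : x + sv σ ∉ bx a b) :
    x σ.1 = (((if σ.2 then b σ.1 else a σ.1) : ℕ) : ZMod (2 ^ (k + 1))) := by
  obtain ⟨i, β⟩ := σ
  rw [E03_mem_bx] at hx hx'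
  have hother : ∀ j, j ≠ i → (x + sv (i, β) : Site d (k + 1)) j = x j := by
    intro j hj
    rw [Pi.add_apply, sv, Pi.single_eq_of_ne hj, add_zero]
  have hval : (x i) = ((x i).val : ZMod (2 ^ (k + 1))) := (ZMod.natCast_zmod_val _).symm
  have hi := hx i
  have h' := h i
  by_contra hne
  apply hx'
  intro j
  by_cases hj : j = i
  · subst hj
    cases β with
    | true =>
      have h1 : (x j).val < b j := by
        rcases Nat.lt_or_ge (x j).val (b j) with h2 | h2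
        · exact h2
        · exfalso
          apply hne
          show x j = ((b j : ℕ) : ZMod (2 ^ (k + 1)))
          rw [hval, show (x j).val = b j by omega]
      have h2 : (x + sv (j, true) : Site d (k + 1)) j =
          (((x j).val + 1 : ℕ) : ZMod (2 ^ (k + 1))) := by
        rw [Pi.add_apply, sv, Pi.single_eq_same, Nat.cast_add, Nat.cast_one, ← hval]
        rfl
      rw [h2, ZMod.val_natCast_of_lt (by omega)]
      omega
    | false =>
      have h1 : a j < (x j).val := by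
        rcases Nat.lt_or_ge (a j) (x j).val with h2 | h2
        · exact h2
        · exfalso
          apply hne
          show x j = ((a j : ℕ) : ZMod (2 ^ (k + 1)))
          rw [hval, show (x j).val = a j by omega]
      have h2 : (x + sv (j, false) : Site d (k + 1)) j =
          (((x j).val - 1 : ℕ) : ZMod (2 ^ (k + 1))) := by
        rw [Pi.add_apply, sv, Pi.single_eq_same, Nat.cast_sub (by omega), Nat.cast_one, ← hval,
          sub_eq_add_neg]
        rfl
      rw [h2, ZMod.val_natCast_of_lt (by omega)]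
      omega
  · rw [hother j hj]
    exact hx j

theorem cut_bx {a b : Fin d → ℕ} (h : ∀ i, a i ≤ b i ∧ b i + 1 < 2 ^ (k + 1)) (V : Finset (Site d (k + 1))) :
    cut V (bx a b) ≤ ∑ i : Fin d, 2 * ∏ j ∈ univ.erase i, (b j - a j + 1) := by
  classical
  have h1 : cut V (bx a b) ≤ ∑ σ : Stp d, ∏ j ∈ univ.erase σ.1, (b j - a j + 1) := by
    have hsub : ((univ : Finset (Site d (k + 1) × Stp d)).filter fun p =>
        p.1 ∈ bx a b ∧ p.1 + sv p.2 ∈ V \ bx a b) ⊆
        (univ : Finset (Stp d)).biUnion fun σ =>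
          ((bx a b).filter fun x => x + sv σ ∉ bx a b).image fun x => (x, σ) := by
      intro p hp
      obtain ⟨-, h2, h3⟩ := mem_filter.1 hp
      rw [mem_biUnion]
      refine ⟨p.2, mem_univ _, ?_⟩
      rw [mem_image]
      exact ⟨p.1, mem_filter.2 ⟨h2, (mem_sdiff.1 h3).2⟩, rfl⟩
    have hc : cut V (bx a b) = ((univ : Finset (Site d (k + 1) × Stp d)).filter fun p =>
        p.1 ∈ bx a b ∧ p.1 + sv p.2 ∈ V \ bx a b).card := by
      unfold cut
      congr
    rw [hc]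
    refine (card_le_card hsub).trans (card_biUnion_le.trans (sum_le_sum fun σ _ => ?_))
    refine card_image_le.trans ?_
    refine E03_face h σ.1 (((if σ.2 then b σ.1 else a σ.1) : ℕ) : ZMod (2 ^ (k + 1))) _ ?_
    intro x hx
    obtain ⟨h2, h3⟩ := mem_filter.1 hx
    exact ⟨E03_exit h x σ h2 h3, fun j _ => E03_mem_bx.1 h2 j⟩
  refine h1.trans (le_of_eq ?_)
  rw [Fintype.sum_prod_type]
  refine sum_congr rfl fun i _ => ?_
  rw [Fintype.sum_bool]
  ring

private theorem E03_num (hd : 10 ≤ d) : wC d = d ^ 3 * hC d ∧ 1000 * hC d ≤ wC d ∧ 10 ≤ hC d := by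
  have h1 : wC d = d ^ 3 * hC d := by
    unfold wC hC
    ring
  have h2 : 1000 ≤ d ^ 3 := by
    calc 1000 = 10 ^ 3 := by norm_num
      _ ≤ d ^ 3 := Nat.pow_le_pow_left hd 3
  have h3 : 10 ≤ d ^ 30 := by
    calc 10 ≤ 10 ^ 30 := by norm_num
      _ ≤ d ^ 30 := Nat.pow_le_pow_left hd 30
  refine ⟨h1, ?_, ?_⟩
  · rw [h1]
    exact Nat.mul_le_mul_right _ h2
  · unfold hC
    omega

/-- side lengths of the shell boxes -/
private theorem E03_side (hd : 10 ≤ d) (hD : dbx d K a b) {σ : Stp d} (hσ : σ ∈ sd d K a b) :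
    qb d K a b σ σ.1 = qa d a b σ σ.1 + 2 * hC d ∧
      ∃ i₀ : Fin d, ∀ j, j ≠ σ.1 → qa d a b σ j + (wC d - 2) ≤ qb d K a b σ j ∧
        (j ≠ i₀ → qb d K a b σ j - qa d a b σ j + 1 ≤ wC d + 4 * hC d + 5) ∧
        qb d K a b σ j - qa d a b σ j + 1 ≤ 2 * (wC d + 4 * hC d + 5) := by
  obtain ⟨h1, h2, h3⟩ := E03_num hd
  obtain ⟨hD1, i₀, hD2⟩ := hD
  have hact := dbx_act hd ⟨hD1, i₀, hD2⟩
  obtain ⟨i, β⟩ := σ
  constructor
  · show Function.update (ehi d K b) i _ i = Function.update (elo d a) i _ i + 2 * hC d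
    rw [Function.update_self, Function.update_self]
    cases β with
    | true =>
      show b i + (2 * hC d + 2) = b i + 2 + 2 * hC d
      omega
    | false =>
      show a i - 2 = a i - (2 * hC d + 2) + 2 * hC d
      have h4 : 0 < a i := by
        unfold sd at hσ
        have h5 := (mem_filter.1 hσ).2
        simpa using h5
      have h5 := (hact i).1 h4
      omega
  · refine ⟨i₀, fun j hj => ?_⟩
    have hj' : j ≠ i := hj
    have e1 : qa d a b (i, β) j = a j - (2 * hC d + 2) := Function.update_of_ne hj' _ _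
    have e2 : qb d K a b (i, β) j = min (nC d K) (b j + (2 * hC d + 2)) :=
      Function.update_of_ne hj' _ _
    have h6 := hact j
    have h7 := hD1 j
    rw [e1, e2]
    refine ⟨?_, ?_, ?_⟩
    · have h8 := h7.2.1
      rw [min_def]
      split_ifs <;> omega
    · intro hj0
      have h8 := hD2 j hj0
      rw [min_def]
      split_ifs <;> omega
    · rw [min_def]
      split_ifs <;> omega

private theorem E03_prod (S : Finset (Fin d)) (F : Fin d → ℕ) (A : ℕ) (i₀ : Fin d)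
    (h1 : ∀ j ∈ S, j ≠ i₀ → F j ≤ A) (h2 : ∀ j ∈ S, F j ≤ 2 * A) :
    ∏ j ∈ S, F j ≤ 2 * A ^ S.card := by
  classical
  by_cases hi : i₀ ∈ S
  · rw [← Finset.mul_prod_erase S F hi]
    have h3 : ∏ j ∈ S.erase i₀, F j ≤ A ^ (S.erase i₀).card :=
      Finset.prod_le_pow_card _ _ _ fun j hj =>
        h1 j (Finset.mem_of_mem_erase hj) (Finset.ne_of_mem_erase hj)
    have h4 : S.card = (S.erase i₀).card + 1 := (Finset.card_erase_add_one hi).symm
    calc F i₀ * ∏ j ∈ S.erase i₀, F j ≤ 2 * A * A ^ (S.erase i₀).card :=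
          Nat.mul_le_mul (h2 i₀ hi) h3
      _ = 2 * A ^ S.card := by rw [h4]; ring
  · have h3 : ∏ j ∈ S, F j ≤ A ^ S.card :=
      Finset.prod_le_pow_card _ _ _ fun j hj => h1 j hj fun h => hi (h ▸ hj)
    omega

private theorem E03_evb (hd : 10 ≤ d) (hn : nC d K + 4 ≤ 2 ^ (k + 1)) (hD : dbx d K a b)
    {σ : Stp d} (hσ : σ ∈ sd d K a b) (i : Fin d) :
    qa d a b σ i ≤ qb d K a b σ i ∧ qb d K a b σ i + 1 < 2 ^ (k + 1) := by
  have h := (evb_q hd hn hD hσ).1 i
  obtain ⟨-, -, h1, h2⟩ := h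
  omega

private theorem E03_W1 : 0 ≤ W1 d := by unfold W1; positivity

theorem card_QB (hd : 10 ≤ d) (hn : nC d K + 4 ≤ 2 ^ (k + 1)) (hD : dbx d K a b) {σ : Stp d}
    (hσ : σ ∈ sd d K a b) : ((QB d K k a b σ).card : ℝ) ≤ 5 * hC d * W1 d := by
  classical
  obtain ⟨hw1, hw2, hh⟩ := E03_num hd
  obtain ⟨hs, i₀, hj⟩ := E03_side hd hD hσ
  have hab := E03_evb hd hn hD hσ
  have hc : (QB d K k a b σ).card = ∏ i, (qb d K a b σ i - qa d a b σ i + 1) :=
    card_bx fun i => ⟨(hab i).1, by have := (hab i).2; omega⟩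
  have h1 : ∏ j ∈ univ.erase σ.1, (qb d K a b σ j - qa d a b σ j + 1) ≤
      2 * (wC d + 4 * hC d + 5) ^ (d - 1) := by
    have h2 := E03_prod (univ.erase σ.1) (fun j => qb d K a b σ j - qa d a b σ j + 1)
      (wC d + 4 * hC d + 5) i₀ (fun j hjm => (hj j (Finset.ne_of_mem_erase hjm)).2.1)
      (fun j hjm => (hj j (Finset.ne_of_mem_erase hjm)).2.2)
    rwa [Finset.card_erase_of_mem (mem_univ _), card_univ, Fintype.card_fin] at h2
  have h2 : (QB d K k a b σ).card ≤ (2 * hC d + 1) * (2 * (wC d + 4 * hC d + 5) ^ (d - 1)) := by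
    rw [hc, ← Finset.mul_prod_erase univ _ (mem_univ σ.1)]
    refine Nat.mul_le_mul ?_ h1
    rw [hs]
    omega
  have h3 : ((QB d K k a b σ).card : ℝ) ≤
      (2 * hC d + 1) * (2 * ((wC d : ℝ) + 4 * hC d + 5) ^ (d - 1)) := by exact_mod_cast h2
  have h4 := num_up hd
  have hh' : (10 : ℝ) ≤ hC d := by exact_mod_cast hh
  have hW := E03_W1 (d := d)
  calc ((QB d K k a b σ).card : ℝ)
      ≤ (2 * hC d + 1) * (2 * ((wC d : ℝ) + 4 * hC d + 5) ^ (d - 1)) := h3
    _ ≤ (2 * hC d + 1) * (2 * (11 / 10 * W1 d)) := by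
        apply mul_le_mul_of_nonneg_left _ (by positivity)
        linarith
    _ ≤ 5 * hC d * W1 d := by nlinarith

theorem card_GQ (hd : 10 ≤ d) (hn : nC d K + 4 ≤ 2 ^ (k + 1)) (hD : dbx d K a b) {σ : Stp d}
    (hσ : σ ∈ sd d K a b) :
    9 / 5 * (hC d : ℝ) * W1 d ≤ 2 ^ d * ((GQ d K k a b σ).card : ℝ) ∧
      2 ^ d * ((GQ d K k a b σ).card : ℝ) ≤ ((QB d K k a b σ).card : ℝ) := by
  classical
  obtain ⟨hw1, hw2, hh⟩ := E03_num hd
  obtain ⟨hs, i₀, hj⟩ := E03_side hd hD hσ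
  obtain ⟨hevb, -⟩ := evb_q hd hn hD hσ
  have hab := E03_evb hd hn hD hσ
  have hc : (QB d K k a b σ).card = ∏ i, (qb d K a b σ i - qa d a b σ i + 1) :=
    card_bx fun i => ⟨(hab i).1, by have := (hab i).2; omega⟩
  have hg : (GQ d K k a b σ).card = ∏ i, ((qb d K a b σ i - qa d a b σ i) / 2) := card_gr hevb
  have hg2 : 2 ^ d * (GQ d K k a b σ).card = ∏ i, (qb d K a b σ i - qa d a b σ i) := by
    rw [hg]
    have h1 : (2 : ℕ) ^ d = ∏ _i : Fin d, 2 := by
      rw [Finset.prod_const, card_univ, Fintype.card_fin]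
    rw [h1, ← Finset.prod_mul_distrib]
    refine prod_congr rfl fun i _ => ?_
    obtain ⟨⟨c, hc⟩, ⟨c', hc'⟩, h2, -⟩ := hevb i
    omega
  constructor
  · have h1 : (wC d - 2) ^ (d - 1) ≤ ∏ j ∈ univ.erase σ.1, (qb d K a b σ j - qa d a b σ j) := by
      have h2 : (wC d - 2) ^ (univ.erase σ.1 : Finset (Fin d)).card ≤
          ∏ j ∈ univ.erase σ.1, (qb d K a b σ j - qa d a b σ j) := by
        apply Finset.pow_card_le_prod
        intro j hjm
        have h3 := (hj j (Finset.ne_of_mem_erase hjm)).1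
        omega
      rwa [Finset.card_erase_of_mem (mem_univ _), card_univ, Fintype.card_fin] at h2
    have h2 : 2 * hC d * (wC d - 2) ^ (d - 1) ≤ 2 ^ d * (GQ d K k a b σ).card := by
      rw [hg2, ← Finset.mul_prod_erase univ _ (mem_univ σ.1)]
      refine Nat.mul_le_mul ?_ h1
      rw [hs]
      omega
    have h3 : 2 * (hC d : ℝ) * ((wC d : ℝ) - 2) ^ (d - 1) ≤
        2 ^ d * ((GQ d K k a b σ).card : ℝ) := by
      have h4 : ((2 * hC d * (wC d - 2) ^ (d - 1) : ℕ) : ℝ) ≤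
          ((2 ^ d * (GQ d K k a b σ).card : ℕ) : ℝ) := by exact_mod_cast h2
      have h5 : (((wC d - 2 : ℕ)) : ℝ) = (wC d : ℝ) - 2 := by
        rw [Nat.cast_sub (by omega)]
        norm_num
      rw [Nat.cast_mul, Nat.cast_mul, Nat.cast_pow, h5, Nat.cast_mul, Nat.cast_pow] at h4
      exact_mod_cast h4
    have h4 := num_lo hd
    have hh' : (10 : ℝ) ≤ hC d := by exact_mod_cast hh
    calc 9 / 5 * (hC d : ℝ) * W1 d = 2 * (hC d : ℝ) * (9 / 10 * W1 d) := by ring
      _ ≤ 2 * (hC d : ℝ) * ((wC d : ℝ) - 2) ^ (d - 1) :=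
          mul_le_mul_of_nonneg_left h4 (by linarith)
      _ ≤ _ := h3
  · have h1 : 2 ^ d * (GQ d K k a b σ).card ≤ (QB d K k a b σ).card := by
      rw [hg2, hc]
      exact Finset.prod_le_prod' fun i _ => Nat.le_succ _
    exact_mod_cast h1

theorem cut_QB (hd : 10 ≤ d) (hn : nC d K + 4 ≤ 2 ^ (k + 1)) (hD : dbx d K a b) {σ : Stp d}
    (hσ : σ ∈ sd d K a b) (V : Finset (Site d (k + 1))) : (cut V (QB d K k a b σ) : ℝ) ≤ 8 * W1 d := by
  classical
  obtain ⟨hw1, hw2, hh⟩ := E03_num hd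
  obtain ⟨hs, i₀, hj⟩ := E03_side hd hD hσ
  have hab := E03_evb hd hn hD hσ
  have h0 : cut V (QB d K k a b σ) ≤
      ∑ i : Fin d, 2 * ∏ j ∈ univ.erase i, (qb d K a b σ j - qa d a b σ j + 1) := cut_bx hab V
  have h1 : ∏ j ∈ univ.erase σ.1, (qb d K a b σ j - qa d a b σ j + 1) ≤
      2 * (wC d + 4 * hC d + 5) ^ (d - 1) := by
    have h2 := E03_prod (univ.erase σ.1) (fun j => qb d K a b σ j - qa d a b σ j + 1)
      (wC d + 4 * hC d + 5) i₀ (fun j hjm => (hj j (Finset.ne_of_mem_erase hjm)).2.1)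
      (fun j hjm => (hj j (Finset.ne_of_mem_erase hjm)).2.2)
    rwa [Finset.card_erase_of_mem (mem_univ _), card_univ, Fintype.card_fin] at h2
  have h2 : ∀ l ∈ univ.erase σ.1, ∏ j ∈ univ.erase l, (qb d K a b σ j - qa d a b σ j + 1) ≤
      (2 * hC d + 1) * (2 * (wC d + 4 * hC d + 5) ^ (d - 2)) := by
    intro l hl
    have hl' : σ.1 ∈ (univ.erase l : Finset (Fin d)) :=
      Finset.mem_erase.2 ⟨(Finset.ne_of_mem_erase hl).symm, mem_univ _⟩
    rw [← Finset.mul_prod_erase (univ.erase l) _ hl']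
    refine Nat.mul_le_mul ?_ ?_
    · rw [hs]
      omega
    · have h3 := E03_prod ((univ.erase l).erase σ.1)
        (fun j => qb d K a b σ j - qa d a b σ j + 1)
        (wC d + 4 * hC d + 5) i₀ (fun j hjm => (hj j (Finset.ne_of_mem_erase hjm)).2.1)
        (fun j hjm => (hj j (Finset.ne_of_mem_erase hjm)).2.2)
      have h4 : ((univ.erase l).erase σ.1 : Finset (Fin d)).card = d - 2 := by
        rw [Finset.card_erase_of_mem hl', Finset.card_erase_of_mem (mem_univ _), card_univ,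
          Fintype.card_fin]
        omega
      rwa [h4] at h3
  have h3 : cut V (QB d K k a b σ) ≤ 2 * (2 * (wC d + 4 * hC d + 5) ^ (d - 1)) +
      d * (2 * ((2 * hC d + 1) * (2 * (wC d + 4 * hC d + 5) ^ (d - 2)))) := by
    refine h0.trans ?_
    rw [← Finset.add_sum_erase univ _ (mem_univ σ.1)]
    refine Nat.add_le_add (Nat.mul_le_mul_left 2 h1) ?_
    refine (sum_le_sum fun l hl => Nat.mul_le_mul_left 2 (h2 l hl)).trans ?_
    rw [Finset.sum_const, smul_eq_mul, Finset.card_erase_of_mem (mem_univ _), card_univ,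
      Fintype.card_fin]
    exact Nat.mul_le_mul_right _ (by omega)
  have h4 : (cut V (QB d K k a b σ) : ℝ) ≤
      2 * (2 * ((wC d : ℝ) + 4 * hC d + 5) ^ (d - 1)) +
      d * (2 * ((2 * hC d + 1) * (2 * ((wC d : ℝ) + 4 * hC d + 5) ^ (d - 2)))) := by
    exact_mod_cast h3
  have h5 := num_up hd
  have h6 := num_up2 hd
  have hh' : (10 : ℝ) ≤ hC d := by exact_mod_cast hh
  have hW := E03_W1 (d := d)
  have hwp : (0 : ℝ) < wC d := by
    have : 0 < wC d := by omega
    exact_mod_cast this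
  have hd' : (10 : ℝ) ≤ d := by exact_mod_cast hd
  have h7 : (d : ℝ) * (2 * hC d + 1) ≤ 3 / 100 * wC d := by
    have h8 : (wC d : ℝ) = (d : ℝ) ^ 3 * hC d := by exact_mod_cast hw1
    rw [h8]
    have h9 : (100 : ℝ) * d ≤ (d : ℝ) ^ 3 := by
      have h10 : (100 : ℝ) ≤ (d : ℝ) ^ 2 := by nlinarith
      calc (100 : ℝ) * d ≤ (d : ℝ) ^ 2 * d := mul_le_mul_of_nonneg_right h10 (by linarith)
        _ = (d : ℝ) ^ 3 := by ring
    have h10 : (100 : ℝ) * d * hC d ≤ (d : ℝ) ^ 3 * hC d :=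
      mul_le_mul_of_nonneg_right h9 (by linarith)
    nlinarith
  have h8 : (d : ℝ) * (2 * ((2 * hC d + 1) * (2 * (11 / 10 * W1 d / wC d)))) ≤ W1 d := by
    have e : (d : ℝ) * (2 * ((2 * hC d + 1) * (2 * (11 / 10 * W1 d / wC d)))) =
        (d : ℝ) * (2 * hC d + 1) * (22 / 5 * (W1 d / wC d)) := by ring
    rw [e]
    have h9 : 0 ≤ 22 / 5 * (W1 d / wC d) := by positivity
    have h10 := mul_le_mul_of_nonneg_right h7 h9
    have h11 : 3 / 100 * (wC d : ℝ) * (22 / 5 * (W1 d / wC d)) = 66 / 500 * W1 d := by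
      field_simp
      ring
    linarith
  have h9 : (d : ℝ) * (2 * ((2 * hC d + 1) * (2 * ((wC d : ℝ) + 4 * hC d + 5) ^ (d - 2)))) ≤
      (d : ℝ) * (2 * ((2 * hC d + 1) * (2 * (11 / 10 * W1 d / wC d)))) := by
    gcongr
  linarith

end Pool.Agent.COR
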