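import Mathlib

/-!
# Independence of events on disjoint sets of sites (piece V03)

`E l` depends on the values in `S l` only, the sets `S l` are pairwise disjoint: the proportion of the functions which
satisfy all `E l` is the product of the proportions.  Induction on the finset of indices; for two events which depend on
disjoint sets `S`, `T`: the map `(f, g) ↦ (f on S, g off S), (g on S, f off S)` is a bijection of `(W → F)²` which maps
`{f ∈ E, g ∈ E'}` onto `{(u, v) : u ∈ E ∩ E', v arbitrary}`.
-/

set_option autoImplicit false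

open Finset

namespace Pool.Agent.COR

/-- `f` on `S` and `g` off `S`. -/
private noncomputable def mixV {W F : Type} (S : Finset W) (f g : W → F) : W → F :=
  open scoped Classical in fun x => if x ∈ S then f x else g x

private theorem mixV_in {W F : Type} {S : Finset W} (f g : W → F) {x : W} (hx : x ∈ S) :
    mixV S f g x = f x := if_pos hx

private theorem mixV_out {W F : Type} {S : Finset W} (f g : W → F) {x : W} (hx : x ∉ S) :
    mixV S f g x = g x := if_neg hx

private theorem mixV_mix {W F : Type} (S : Finset W) (f g : W → F) :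
    mixV S (mixV S f g) (mixV S g f) = f := by
  funext x
  by_cases hx : x ∈ S
  · rw [mixV_in _ _ hx, mixV_in _ _ hx]
  · rw [mixV_out _ _ hx, mixV_out _ _ hx]

open scoped Classical in
private theorem indep_two {W F : Type} [Fintype W] [Fintype F] (S T : Finset W)
    (hST : Disjoint S T) (A B : (W → F) → Prop)
    (hA : ∀ f g : W → F, (∀ x ∈ S, f x = g x) → A f → A g)
    (hB : ∀ f g : W → F, (∀ x ∈ T, f x = g x) → B f → B g) :
    (univ.filter fun f : W → F => A f ∧ B f).card * Fintype.card (W → F) =
      (univ.filter fun f : W → F => A f).card * (univ.filter fun f : W → F => B f).card := by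
  have hT : ∀ x ∈ T, x ∉ S := fun x hx hs => Finset.disjoint_left.mp hST hs hx
  rw [← Finset.card_univ, ← Finset.card_product, ← Finset.card_product]
  refine Finset.card_nbij' (fun p => (mixV S p.1 p.2, mixV S p.2 p.1))
    (fun p => (mixV S p.1 p.2, mixV S p.2 p.1)) ?_ ?_ ?_ ?_
  · intro p hp
    simp only [Finset.coe_product, Set.mem_prod, Finset.mem_coe, Finset.mem_filter,
      Finset.mem_univ, true_and, and_true] at hp ⊢
    exact ⟨hA _ _ (fun x hx => (mixV_in _ _ hx).symm) hp.1,
      hB _ _ (fun x hx => (mixV_out _ _ (hT x hx)).symm) hp.2⟩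
  · intro p hp
    simp only [Finset.coe_product, Set.mem_prod, Finset.mem_coe, Finset.mem_filter,
      Finset.mem_univ, true_and, and_true] at hp ⊢
    exact ⟨hA _ _ (fun x hx => (mixV_in _ _ hx).symm) hp.1,
      hB _ _ (fun x hx => (mixV_out _ _ (hT x hx)).symm) hp.2⟩
  · intro p _
    exact Prod.ext (mixV_mix S p.1 p.2) (mixV_mix S p.2 p.1)
  · intro p _
    exact Prod.ext (mixV_mix S p.1 p.2) (mixV_mix S p.2 p.1)

open scoped Classical in
theorem indep {W F ι : Type} [Fintype W] [Fintype F] (I : Finset ι) (S : ι → Finset W)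
    (hS : ∀ l ∈ I, ∀ m ∈ I, l ≠ m → Disjoint (S l) (S m)) (E : ι → (W → F) → Prop)
    (hE : ∀ l ∈ I, ∀ f g : W → F, (∀ x ∈ S l, f x = g x) → E l f → E l g) :
    ((univ.filter fun f : W → F => ∀ l ∈ I, E l f).card : ℝ) * ((Fintype.card (W → F) : ℕ) : ℝ) ^ I.card =
      (Fintype.card (W → F) : ℕ) * ∏ l ∈ I, ((univ.filter fun f : W → F => E l f).card : ℝ) := by
  induction I using Finset.induction_on with
  | empty => simp
  | insert l I hl ih =>
    have ih' := ih (fun a ha b hb => hS a (mem_insert_of_mem ha) b (mem_insert_of_mem hb))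
      (fun a ha => hE a (mem_insert_of_mem ha))
    have h2 := indep_two (F := F) (S l) (I.biUnion S)
      ((Finset.disjoint_biUnion_right _ _ _).mpr fun m hm =>
        hS l (mem_insert_self l I) m (mem_insert_of_mem hm) fun e => hl (e ▸ hm))
      (E l) (fun f => ∀ m ∈ I, E m f) (hE l (mem_insert_self l I))
      (fun f g hfg hf m hm => hE m (mem_insert_of_mem hm) f g
        (fun x hx => hfg x (Finset.mem_biUnion.mpr ⟨m, hm, hx⟩)) (hf m hm))
    have h3 : (univ.filter fun f : W → F => ∀ m ∈ insert l I, E m f) =
        univ.filter fun f : W → F => E l f ∧ ∀ m ∈ I, E m f := by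
      refine Finset.filter_congr fun f _ => ?_
      rw [Finset.forall_mem_insert]
    have h4 : ((univ.filter fun f : W → F => E l f ∧ ∀ m ∈ I, E m f).card : ℝ) *
        ((Fintype.card (W → F) : ℕ) : ℝ) =
        ((univ.filter fun f : W → F => E l f).card : ℝ) *
          ((univ.filter fun f : W → F => ∀ m ∈ I, E m f).card : ℝ) := by
      rw [← Nat.cast_mul, ← Nat.cast_mul]
      refine congrArg _ ?_
      convert h2
    rw [h3, Finset.card_insert_of_notMem hl, Finset.prod_insert hl, pow_succ']
    rw [← mul_assoc, h4, mul_assoc, ih']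
    ring

end Pool.Agent.COR
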