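import Pool.Agent.Lib_MP_2c424f_cor.V02
import Pool.Agent.Lib_MP_2c424f_cor.V03

/-!
# Events in a subset (piece E04, (A3))

`V`-proper functions with `E` are `Q`-proper and `(V \ Q)`-proper with `E`; `E` depends on the values in `Q` only, so their number is
`cV Q E · ZV (V \ Q) / q^N` (`indep` with two indices).  By `cut_le`: `(1-1/q)^cut · ZV Q · ZV (V \ Q) / q^N ≤ ZV V`.
`split2` is the product formula for two disjoint sets.
-/

set_option autoImplicit false

open Finset

namespace Pool.Agent.COR

open Pool.Agent.LO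

variable {d k q : ℕ}

private theorem E04_loc (Q : Finset (Site d k)) {f g : Site d k → Fin q} (h : ∀ x ∈ Q, f x = g x)
    (hf : PrV Q f) : PrV Q g := fun x hx σ hy => by
  rw [← h x hx, ← h _ hy]
  exact hf x hx σ hy

private theorem E04_N (inst : Fintype (Site d k → Fin q)) :
    ((@Fintype.card (Site d k → Fin q) inst : ℕ) : ℝ) = QN d k q := by
  have h : @Fintype.card (Site d k → Fin q) inst = q ^ Fintype.card (Site d k) := by
    rw [← Nat.card_eq_fintype_card, Nat.card_fun, Nat.card_eq_fintype_card,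
      Nat.card_eq_fintype_card, Fintype.card_fin]
  rw [h]
  unfold QN
  rw [Nat.cast_pow]

/-- the number of elements with a property, independent of the instances -/
private noncomputable def E04_n {X : Type} (P : X → Prop) : ℝ := (Nat.card {x // P x} : ℝ)

private theorem E04_card {X : Type} (inst : Fintype X) (P : X → Prop) (dec : DecidablePred P) :
    ((@Finset.filter X P dec (@Finset.univ X inst)).card : ℝ) = E04_n P := by
  unfold E04_n
  rw [Nat.card_eq_fintype_card, Fintype.card_subtype]

private theorem E04_congr {X : Type} {P P' : X → Prop} (h : ∀ x, P x ↔ P' x) :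
    E04_n P = E04_n P' := by
  have : P = P' := funext fun x => propext (h x)
  rw [this]

private theorem E04_cV (V : Finset (Site d k)) (P : (Site d k → Fin q) → Prop) :
    cV V P = E04_n (fun f => PrV V f ∧ P f) := by
  unfold cV
  rw [E04_card]

private theorem E04_split (Q Q' : Finset (Site d k)) (hQ : Disjoint Q Q')
    (E E' : (Site d k → Fin q) → Prop)
    (hE : ∀ f g, (∀ x ∈ Q, f x = g x) → E f → E g)
    (hE' : ∀ f g, (∀ x ∈ Q', f x = g x) → E' f → E' g) :
    E04_n (fun f : Site d k → Fin q => (PrV Q f ∧ E f) ∧ PrV Q' f ∧ E' f) * QN d k q =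
      cV Q E * cV Q' E' := by
  classical
  have h := indep (W := Site d k) (F := Fin q) (univ : Finset Bool) (fun b => if b then Q else Q')
    (by
      intro l _ m _ hlm
      cases l <;> cases m
      · exact absurd rfl hlm
      · exact hQ.symm
      · exact hQ
      · exact absurd rfl hlm)
    (fun b f => if b then PrV Q f ∧ E f else PrV Q' f ∧ E' f)
    (by
      intro l _ f g hfg
      cases l
      · exact fun hf => ⟨E04_loc Q' hfg hf.1, hE' f g hfg hf.2⟩
      · exact fun hf => ⟨E04_loc Q hfg hf.1, hE f g hfg hf.2⟩)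
  simp only [E04_card, E04_N, Fintype.prod_bool, Finset.card_univ, Fintype.card_bool] at h
  have h1 : E04_n (fun f : Site d k → Fin q => ∀ l ∈ (univ : Finset Bool),
      (if l = true then PrV Q f ∧ E f else PrV Q' f ∧ E' f)) =
      E04_n (fun f : Site d k → Fin q => (PrV Q f ∧ E f) ∧ PrV Q' f ∧ E' f) := by
    refine E04_congr fun f => ?_
    constructor
    · intro h2
      exact ⟨h2 true (mem_univ _), h2 false (mem_univ _)⟩
    · rintro ⟨h2, h3⟩ l _
      cases l
      · exact h3
      · exact h2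
  rw [h1] at h
  have h2 : E04_n (fun f : Site d k → Fin q =>
      if True then PrV Q f ∧ E f else PrV Q' f ∧ E' f) = cV Q E := by
    rw [E04_cV]
    exact E04_congr fun f => by simp
  have h3 : E04_n (fun f : Site d k → Fin q =>
      if (false : Bool) = true then PrV Q f ∧ E f else PrV Q' f ∧ E' f) = cV Q' E' := by
    rw [E04_cV]
    exact E04_congr fun f => by simp
  rw [h2, h3] at h
  by_cases hN : QN d k q = 0
  · have h4 : ∀ P : (Site d k → Fin q) → Prop, E04_n P = 0 := by
      intro P
      have h5 : E04_n P ≤ QN d k q := by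
        rw [← E04_N inferInstance, ← E04_card inferInstance P inferInstance]
        exact_mod_cast Finset.card_le_univ _
      rw [hN] at h5
      exact le_antisymm h5 (Nat.cast_nonneg _)
    rw [h4, zero_mul, E04_cV, h4, zero_mul]
  · refine mul_left_cancel₀ hN ?_
    rw [← h]
    ring

open scoped Classical in
theorem split2 (Q Q' : Finset (Site d k)) (hQ : Disjoint Q Q') (E E' : (Site d k → Fin q) → Prop)
    (hE : ∀ f g, (∀ x ∈ Q, f x = g x) → E f → E g) (hE' : ∀ f g, (∀ x ∈ Q', f x = g x) → E' f → E' g) :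
    ((univ.filter fun f : Site d k → Fin q => (PrV Q f ∧ E f) ∧ PrV Q' f ∧ E' f).card : ℝ) * QN d k q =
      cV Q E * cV Q' E' := by
  rw [E04_card]
  exact E04_split Q Q' hQ E E' hE hE'

theorem a3 (hk : 1 ≤ k) (hq : 2 ≤ q) (V Q : Finset (Site d k)) (hQ : Q ⊆ V) (E : (Site d k → Fin q) → Prop)
    (hE : ∀ f g, (∀ x ∈ Q, f x = g x) → E f → E g) :
    (1 - 1 / (q : ℝ)) ^ cut V Q * ZV q Q * cV V E ≤ cV Q E * ZV q V := by
  classical
  have hq0 : (2 : ℝ) ≤ q := by exact_mod_cast hq
  have hb0 : 0 ≤ 1 - 1 / (q : ℝ) := by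
    rw [sub_nonneg, div_le_one (by linarith)]
    linarith
  have hN : 0 < QN d k q := by
    unfold QN
    positivity
  have hnn : ∀ (U : Finset (Site d k)) (P : (Site d k → Fin q) → Prop), 0 ≤ cV U P := by
    intro U P
    unfold cV
    positivity
  have hd : Disjoint Q (V \ Q) := disjoint_sdiff
  have h1 := E04_split Q (V \ Q) hd E (fun _ => True) hE (fun _ _ _ h => h)
  have h2 := E04_split (q := q) Q (V \ Q) hd (fun _ => True) (fun _ => True) (fun _ _ _ h => h)
    (fun _ _ _ h => h)
  have h3 : cV V E ≤ E04_n (fun f : Site d k → Fin q =>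
      (PrV Q f ∧ E f) ∧ PrV (V \ Q) f ∧ True) := by
    rw [← E04_card inferInstance _ inferInstance]
    unfold cV
    rw [Nat.cast_le]
    refine card_le_card fun f hf => ?_
    rw [mem_filter] at hf ⊢
    exact ⟨mem_univ _, ⟨PrV_mono hQ hf.2.1, hf.2.2⟩, PrV_mono sdiff_subset hf.2.1, trivial⟩
  have h4 : cV Q (fun f : Site d k → Fin q => PrV (V \ Q) f) =
      E04_n (fun f : Site d k → Fin q => (PrV Q f ∧ True) ∧ PrV (V \ Q) f ∧ True) := by
    rw [E04_cV]
    exact E04_congr fun f => by simp
  have h5 := cut_le hk hq V Q hQ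
  rw [h4] at h5
  set b := (1 - 1 / (q : ℝ)) ^ cut V Q with hb
  have hb' : 0 ≤ b := pow_nonneg hb0 _
  set M := E04_n (fun f : Site d k → Fin q => (PrV Q f ∧ E f) ∧ PrV (V \ Q) f ∧ True)
  set M' := E04_n (fun f : Site d k → Fin q => (PrV Q f ∧ True) ∧ PrV (V \ Q) f ∧ True)
  have e1 : M * QN d k q = cV Q E * ZV q (V \ Q) := h1
  have e2 : M' * QN d k q = ZV q Q * ZV q (V \ Q) := h2
  have hZ : 0 ≤ ZV q Q := hnn _ _
  have h6 : b * ZV q Q * cV V E ≤ b * ZV q Q * M :=
    mul_le_mul_of_nonneg_left h3 (mul_nonneg hb' hZ)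
  have h7 : b * ZV q Q * M * QN d k q ≤ cV Q E * ZV q V * QN d k q := by
    calc b * ZV q Q * M * QN d k q = cV Q E * (b * (M' * QN d k q)) := by
          rw [e2, mul_assoc (b * ZV q Q), e1]
          ring
      _ = cV Q E * (b * M') * QN d k q := by ring
      _ ≤ cV Q E * ZV q V * QN d k q :=
          mul_le_mul_of_nonneg_right (mul_le_mul_of_nonneg_left h5 (hnn _ _)) hN.le
  exact h6.trans (le_of_mul_le_mul_right h7 hN)

end Pool.Agent.COR
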