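import Pool.Agent.Lib_MP_2c424f_cor.B09

/-!
# Many irregular blocks in a box (piece E05, (E1) first part, and (F2))

For `f` proper on the box every closed block of `gr a b` satisfies `prB` (its points are in the box).  `¬ GD t f` implies
`Ev s t f` for a type `s` among `bd c`, `ub` (`q + 1` types), `¬ VG t f` for a type among `bd c`, `bt c`, `ub` (`2q + 1` types).
Take `Γ = {t ∈ gr a b : ¬ VG t f}` (at least `N₀` elements) and choose the types: the set is contained in the union over the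
`Γ ⊆ gr a b` with `|Γ| ≥ N₀` (at most `2^|gr|`) and the families of types on `Γ` (at most `(2q+1)^|Γ|`; use functions which are `free`
outside `Γ`) of the sets in `fbc`; `rT ≤ r2 ≤ 1` for all bad types, resp. `rT = r1` for `bd`, `ub`.
-/

set_option autoImplicit false

open Finset

namespace Pool.Agent.COR

open Pool.Agent.LO

private theorem E05_prB {d k q : ℕ} (hk : 1 ≤ k) {a b : Fin d → ℕ} (hab : evb k a b) {f : Site d (k + 1) → Fin q}
    (hf : PrV (bx a b) f) {t : Blk d k} (ht : t ∈ (gr a b : Finset (Blk d k))) : prB t f := by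
  have h := asg_event (q := q) hk hab ∅ (Finset.empty_subset _) (fun _ => Ty.free) f hf
    (fun t ht => absurd ht (Finset.notMem_empty t)) t
  unfold asg at h
  rw [if_neg (Finset.notMem_empty t), if_pos ht] at h
  exact h

open scoped Classical in
private theorem E05_gen {d k q : ℕ} {a b : Fin d → ℕ} (N₀ : ℝ) (M x : ℝ) (hM : 0 ≤ M) (hx : 0 ≤ x)
    (P : (Site d (k + 1) → Fin q) → Blk d k → Prop) [inst : ∀ f, DecidablePred (P f)] (L : Finset (Ty d q))
    (hL2 : L.card ≤ 2 * q + 1) (hbad : ∀ s ∈ L, s.isBad) (hr : ∀ s ∈ L, rT s ≤ Real.exp (-x))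
    (hr0 : ∀ s ∈ L, 0 ≤ rT s)
    (hP : ∀ t ∈ (gr a b : Finset (Blk d k)), ∀ f : Site d (k + 1) → Fin q, PrV (bx a b) f → P f t →
      ∃ s ∈ L, Ev s t f)
    (hfb : ∀ (Γ : Finset (Blk d k)), Γ ⊆ gr a b → ∀ τ : Blk d k → Ty d q, (∀ t ∈ Γ, (τ t).isBad) →
      ((univ.filter fun f : Site d (k + 1) → Fin q => PrV (bx a b) f ∧ ∀ t ∈ Γ, Ev (τ t) t f).card : ℝ) ≤
        M * ∏ t ∈ Γ, rT (τ t)) :
    cV (bx a b) (fun f : Site d (k + 1) → Fin q => N₀ ≤ (((gr a b).filter (P f)).card : ℝ)) ≤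
      M * (4 * (q : ℝ) + 2) ^ (gr a b : Finset (Blk d k)).card * Real.exp (-(N₀ * x)) := by
  set G : Finset (Blk d k) := gr a b with hG
  set fam : Finset (Blk d k) → Finset (Blk d k → Ty d q) :=
    fun Γ => Fintype.piFinset (fun t => if t ∈ Γ then L else {Ty.free}) with hfam
  set S : Finset (Finset (Blk d k)) := G.powerset.filter fun Γ => N₀ ≤ (Γ.card : ℝ) with hS
  have hsub : (univ.filter fun f : Site d (k + 1) → Fin q =>
      PrV (bx a b) f ∧ N₀ ≤ ((G.filter (P f)).card : ℝ)) ⊆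
      S.biUnion fun Γ => (fam Γ).biUnion fun τ =>
        univ.filter fun f : Site d (k + 1) → Fin q => PrV (bx a b) f ∧ ∀ t ∈ Γ, Ev (τ t) t f := by
    intro f hf
    obtain ⟨-, hf1, hf2⟩ := mem_filter.1 hf
    rw [mem_biUnion]
    refine ⟨G.filter (P f), ?_, ?_⟩
    · rw [hS, mem_filter, mem_powerset]
      exact ⟨filter_subset _ _, hf2⟩
    · rw [mem_biUnion]
      refine ⟨fun t => if h : t ∈ G ∧ P f t then (hP t h.1 f hf1 h.2).choose else Ty.free, ?_, ?_⟩
      · rw [hfam, Fintype.mem_piFinset]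
        intro t
        by_cases h : t ∈ G ∧ P f t
        · rw [dif_pos h, if_pos (mem_filter.2 h)]
          exact (hP t h.1 f hf1 h.2).choose_spec.1
        · rw [dif_neg h, if_neg (fun h' => h (mem_filter.1 h'))]
          exact mem_singleton_self _
      · rw [mem_filter]
        refine ⟨mem_univ _, hf1, ?_⟩
        intro t ht
        have h := mem_filter.1 ht
        show Ev (if h : t ∈ G ∧ P f t then (hP t h.1 f hf1 h.2).choose else Ty.free) t f
        rw [dif_pos h]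
        exact (hP t h.1 f hf1 h.2).choose_spec.2
  have hcard : cV (bx a b) (fun f : Site d (k + 1) → Fin q => N₀ ≤ ((G.filter (P f)).card : ℝ)) ≤
      ∑ Γ ∈ S, ∑ τ ∈ fam Γ, ((univ.filter fun f : Site d (k + 1) → Fin q =>
        PrV (bx a b) f ∧ ∀ t ∈ Γ, Ev (τ t) t f).card : ℝ) := by
    unfold cV
    have h1 := (card_le_card hsub).trans (card_biUnion_le.trans
      (sum_le_sum fun Γ _ => (card_biUnion_le (s := fam Γ) (t := fun τ =>
        univ.filter fun f : Site d (k + 1) → Fin q => PrV (bx a b) f ∧ ∀ t ∈ Γ, Ev (τ t) t f))))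
    have h2 := (Nat.cast_le (α := ℝ)).2 h1
    push_cast at h2
    exact h2
  refine hcard.trans ?_
  have hterm : ∀ Γ ∈ S, ∀ τ ∈ fam Γ, ((univ.filter fun f : Site d (k + 1) → Fin q =>
        PrV (bx a b) f ∧ ∀ t ∈ Γ, Ev (τ t) t f).card : ℝ) ≤ M * Real.exp (-(N₀ * x)) := by
    intro Γ hΓ τ hτ
    obtain ⟨hΓ1, hΓ2⟩ := mem_filter.1 hΓ
    have hτ1 : ∀ t ∈ Γ, τ t ∈ L := by
      intro t ht
      have h := (Fintype.mem_piFinset.1 hτ) t
      rw [if_pos ht] at h
      exact h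
    refine (hfb Γ (mem_powerset.1 hΓ1) τ fun t ht => hbad _ (hτ1 t ht)).trans ?_
    refine mul_le_mul_of_nonneg_left ?_ hM
    calc ∏ t ∈ Γ, rT (τ t) ≤ ∏ _t ∈ Γ, Real.exp (-x) :=
          prod_le_prod (fun t ht => hr0 _ (hτ1 t ht)) fun t ht => hr _ (hτ1 t ht)
      _ = Real.exp (Γ.card * (-x)) := by rw [prod_const, Real.exp_nat_mul]
      _ ≤ Real.exp (-(N₀ * x)) := by
        apply Real.exp_le_exp.2
        nlinarith [mul_le_mul_of_nonneg_right hΓ2 hx]
  have hfamcard : ∀ Γ ∈ S, ((fam Γ).card : ℝ) ≤ (2 * (q : ℝ) + 1) ^ G.card := by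
    intro Γ hΓ
    have h1 : (fam Γ).card = L.card ^ Γ.card := by
      rw [hfam]
      simp only
      rw [Fintype.card_piFinset]
      have h2 : ∀ t : Blk d k, (if t ∈ Γ then L else {Ty.free}).card = if t ∈ Γ then L.card else 1 := by
        intro t
        split_ifs
        · rfl
        · exact card_singleton _
      rw [prod_congr rfl fun t _ => h2 t, prod_ite_mem, univ_inter, prod_const]
    have hΓc : Γ.card ≤ G.card := card_le_card (mem_powerset.1 (mem_filter.1 hΓ).1)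
    have h3 : (fam Γ).card ≤ (2 * q + 1) ^ G.card := by
      rw [h1]
      exact (Nat.pow_le_pow_left hL2 _).trans (Nat.pow_le_pow_right (by omega) hΓc)
    exact_mod_cast h3
  have hScard : (S.card : ℝ) ≤ 2 ^ G.card := by
    have h1 : S.card ≤ 2 ^ G.card := by
      rw [← card_powerset]
      exact card_le_card (filter_subset _ _)
    exact_mod_cast h1
  have hE0 : 0 ≤ M * Real.exp (-(N₀ * x)) := mul_nonneg hM (Real.exp_pos _).le
  calc ∑ Γ ∈ S, ∑ τ ∈ fam Γ, ((univ.filter fun f : Site d (k + 1) → Fin q =>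
        PrV (bx a b) f ∧ ∀ t ∈ Γ, Ev (τ t) t f).card : ℝ)
      ≤ ∑ Γ ∈ S, ∑ _τ ∈ fam Γ, M * Real.exp (-(N₀ * x)) :=
        sum_le_sum fun Γ hΓ => sum_le_sum fun τ hτ => hterm Γ hΓ τ hτ
    _ = ∑ Γ ∈ S, ((fam Γ).card : ℝ) * (M * Real.exp (-(N₀ * x))) := by
        refine sum_congr rfl fun Γ _ => ?_
        rw [sum_const, nsmul_eq_mul]
    _ ≤ ∑ _Γ ∈ S, (2 * (q : ℝ) + 1) ^ G.card * (M * Real.exp (-(N₀ * x))) :=
        sum_le_sum fun Γ hΓ => mul_le_mul_of_nonneg_right (hfamcard Γ hΓ) hE0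
    _ = (S.card : ℝ) * ((2 * (q : ℝ) + 1) ^ G.card * (M * Real.exp (-(N₀ * x)))) := by
        rw [sum_const, nsmul_eq_mul]
    _ ≤ 2 ^ G.card * ((2 * (q : ℝ) + 1) ^ G.card * (M * Real.exp (-(N₀ * x)))) := by
        refine mul_le_mul_of_nonneg_right hScard ?_
        exact mul_nonneg (by positivity) hE0
    _ = M * (4 * (q : ℝ) + 2) ^ G.card * Real.exp (-(N₀ * x)) := by
        have h1 : (4 * (q : ℝ) + 2) = 2 * (2 * q + 1) := by ring
        rw [h1, mul_pow]
        ring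

private theorem E05_k {d k : ℕ} (hd : 2 ≤ d) (hk : d ^ 46 ≤ 2 ^ k) : 1 ≤ k := by
  by_contra hcon
  have h1 : k = 0 := by omega
  rw [h1, pow_zero] at hk
  have h2 : 2 ^ 46 ≤ d ^ 46 := Nat.pow_le_pow_left hd 46
  norm_num at h2
  omega

open scoped Classical in
private noncomputable def E05_bd (d q : ℕ) : Finset (Ty d q) := insert Ty.ub (univ.image fun c : Fin q => Ty.bd c)

open scoped Classical in
private noncomputable def E05_bt (d q : ℕ) : Finset (Ty d q) := E05_bd d q ∪ (univ.image fun c : Fin q => Ty.bt c)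

private theorem E05_bd_card (d q : ℕ) : (E05_bd d q).card ≤ q + 1 := by
  classical
  unfold E05_bd
  refine (card_insert_le _ _).trans ?_
  have := card_image_le (s := (univ : Finset (Fin q))) (f := fun c : Fin q => (Ty.bd c : Ty d q))
  rw [card_univ, Fintype.card_fin] at this
  omega

private theorem E05_bt_card (d q : ℕ) : (E05_bt d q).card ≤ 2 * q + 1 := by
  classical
  unfold E05_bt
  refine (card_union_le _ _).trans ?_
  have := card_image_le (s := (univ : Finset (Fin q))) (f := fun c : Fin q => (Ty.bt c : Ty d q))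
  rw [card_univ, Fintype.card_fin] at this
  have := E05_bd_card d q
  omega

private theorem E05_mem_bd {d q : ℕ} {s : Ty d q} (hs : s ∈ E05_bd d q) : s = Ty.ub ∨ ∃ c, s = Ty.bd c := by
  classical
  unfold E05_bd at hs
  rcases mem_insert.1 hs with h | h
  · exact Or.inl h
  · obtain ⟨c, -, hc⟩ := mem_image.1 h
    exact Or.inr ⟨c, hc.symm⟩

private theorem E05_mem_bt {d q : ℕ} {s : Ty d q} (hs : s ∈ E05_bt d q) :
    s = Ty.ub ∨ (∃ c, s = Ty.bd c) ∨ ∃ c, s = Ty.bt c := by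
  classical
  unfold E05_bt at hs
  rcases mem_union.1 hs with h | h
  · rcases E05_mem_bd h with h | h
    · exact Or.inl h
    · exact Or.inr (Or.inl h)
  · obtain ⟨c, -, hc⟩ := mem_image.1 h
    exact Or.inr (Or.inr ⟨c, hc.symm⟩)

private theorem E05_ub_mem (d q : ℕ) : (Ty.ub : Ty d q) ∈ E05_bd d q := by
  classical
  unfold E05_bd
  exact mem_insert_self _ _

private theorem E05_bd_mem {d q : ℕ} (c : Fin q) : (Ty.bd c : Ty d q) ∈ E05_bd d q := by
  classical
  unfold E05_bd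
  exact mem_insert_of_mem (mem_image_of_mem _ (mem_univ c))

private theorem E05_bt_mem {d q : ℕ} (c : Fin q) : (Ty.bt c : Ty d q) ∈ E05_bt d q := by
  classical
  unfold E05_bt
  exact mem_union_right _ (mem_image_of_mem _ (mem_univ c))

private theorem E05_sub (d q : ℕ) : E05_bd d q ⊆ E05_bt d q := by
  classical
  unfold E05_bt
  exact subset_union_left

private theorem E05_notGD {d k q : ℕ} {t : Blk d k} {f : Site d (k + 1) → Fin q} (hp : prB t f) (h : ¬ GD t f) :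
    ∃ s ∈ E05_bd d q, Ev s t f := by
  by_cases h1 : ∀ c, ¬ bad c t f
  · refine ⟨Ty.ub, E05_ub_mem d q, hp, h1, fun h2 => h ⟨h1, h2⟩⟩
  · push Not at h1
    obtain ⟨c, hc⟩ := h1
    exact ⟨Ty.bd c, E05_bd_mem c, hp, hc⟩

private theorem E05_notVG {d k q : ℕ} {t : Blk d k} {f : Site d (k + 1) → Fin q} (hp : prB t f) (h : ¬ VG t f) :
    ∃ s ∈ E05_bt d q, Ev s t f := by
  by_cases h1 : GD t f
  · have h2 : ¬ ∀ c, ¬ badT (th d) c t f := fun h2 => h ⟨h1, h2⟩
    push Not at h2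
    obtain ⟨c, hc⟩ := h2
    exact ⟨Ty.bt c, E05_bt_mem c, hp, hc⟩
  · obtain ⟨s, hs, hE⟩ := E05_notGD hp h1
    exact ⟨s, E05_sub d q hs, hE⟩

private theorem E05_r12 {d : ℕ} (hd : 1 ≤ d) : r1 d ≤ r2 d := by
  unfold r1 r2
  apply Real.exp_le_exp.2
  apply neg_le_neg
  have hdR : (1 : ℝ) ≤ d := by exact_mod_cast hd
  apply div_le_div_of_nonneg_left (by positivity) (by positivity)
  exact pow_le_pow_right₀ hdR (by norm_num)

open scoped Classical in
theorem many_notVG : ∃ d₀ : ℕ, ∀ d : ℕ, d₀ ≤ d → ∀ q : ℕ, AdmC d q → ∀ k : ℕ, d ^ 46 ≤ 2 ^ k → ∀ m : ℕ, d ≤ m →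
    ∀ a b : Fin d → ℕ, evb k a b → (∀ i, a i + m ≤ b i) → ∀ N₀ : ℝ,
    cV (bx a b) (fun f : Site d (k + 1) → Fin q => N₀ ≤ (((gr a b).filter fun t => ¬ VG t f).card : ℝ)) ≤
      QN d (k + 1) q * (1 / 2 : ℝ) ^ (bx a b : Finset (Site d (k + 1))).card *
        Real.exp (rho d m * (bx a b : Finset (Site d (k + 1))).card) *
        (4 * (q : ℝ) + 2) ^ (gr a b : Finset (Blk d k)).card * Real.exp (-(N₀ * (2 ^ d / (d : ℝ) ^ 15))) := by
  obtain ⟨d₀, h0⟩ := fbc
  refine ⟨max d₀ 2, fun d hd q hA k hk m hm a b hab hL N₀ => ?_⟩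
  have hd1 : d₀ ≤ d := (le_max_left _ _).trans hd
  have hd2 : 2 ≤ d := (le_max_right _ _).trans hd
  have hk1 := E05_k hd2 hk
  refine E05_gen N₀ _ ((2 : ℝ) ^ d / (d : ℝ) ^ 15) ?_ (by positivity) (fun f t => ¬ VG t f) (E05_bt d q)
    (E05_bt_card d q) ?_ ?_ ?_ ?_ ?_
  · unfold QN
    positivity
  · intro s hs
    rcases E05_mem_bt hs with h | ⟨c, h⟩ | ⟨c, h⟩ <;> rw [h] <;> trivial
  · intro s hs
    have h12 := E05_r12 (d := d) (by omega)
    rcases E05_mem_bt hs with h | ⟨c, h⟩ | ⟨c, h⟩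
    · rw [h]
      exact h12
    · rw [h]
      exact h12
    · rw [h]
      exact le_refl (r2 d)
  · intro s hs
    rcases E05_mem_bt hs with h | ⟨c, h⟩ | ⟨c, h⟩ <;> rw [h] <;> exact (Real.exp_pos _).le
  · intro t ht f hf h
    exact E05_notVG (E05_prB hk1 hab hf ht) h
  · intro Γ hΓ τ hτ
    exact h0 d hd1 q hA k hk m hm a b hab hL Γ hΓ τ hτ

open scoped Classical in
theorem many_notGD : ∃ d₀ : ℕ, ∀ d : ℕ, d₀ ≤ d → ∀ q : ℕ, AdmC d q → ∀ k : ℕ, d ^ 46 ≤ 2 ^ k → ∀ m : ℕ, d ≤ m →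
    ∀ a b : Fin d → ℕ, evb k a b → (∀ i, a i + m ≤ b i) → ∀ N₀ : ℝ,
    cV (bx a b) (fun f : Site d (k + 1) → Fin q => N₀ ≤ (((gr a b).filter fun t => ¬ GD t f).card : ℝ)) ≤
      QN d (k + 1) q * (1 / 2 : ℝ) ^ (bx a b : Finset (Site d (k + 1))).card *
        Real.exp (rho d m * (bx a b : Finset (Site d (k + 1))).card) *
        (4 * (q : ℝ) + 2) ^ (gr a b : Finset (Blk d k)).card * Real.exp (-(N₀ * (2 ^ d / (d : ℝ) ^ 3))) := by
  obtain ⟨d₀, h0⟩ := fbc
  refine ⟨max d₀ 2, fun d hd q hA k hk m hm a b hab hL N₀ => ?_⟩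
  have hd1 : d₀ ≤ d := (le_max_left _ _).trans hd
  have hd2 : 2 ≤ d := (le_max_right _ _).trans hd
  have hk1 := E05_k hd2 hk
  refine E05_gen N₀ _ ((2 : ℝ) ^ d / (d : ℝ) ^ 3) ?_ (by positivity) (fun f t => ¬ GD t f) (E05_bd d q)
    ((E05_bd_card d q).trans (by omega)) ?_ ?_ ?_ ?_ ?_
  · unfold QN
    positivity
  · intro s hs
    rcases E05_mem_bd hs with h | ⟨c, h⟩ <;> rw [h] <;> trivial
  · intro s hs
    rcases E05_mem_bd hs with h | ⟨c, h⟩
    · rw [h]
      exact le_refl (r1 d)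
    · rw [h]
      exact le_refl (r1 d)
  · intro s hs
    rcases E05_mem_bd hs with h | ⟨c, h⟩ <;> rw [h] <;> exact (Real.exp_pos _).le
  · intro t ht f hf h
    exact E05_notGD (E05_prB hk1 hab hf ht) h
  · intro Γ hΓ τ hτ
    exact h0 d hd1 q hA k hk m hm a b hab hL Γ hΓ τ hτ

end Pool.Agent.COR
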