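import Pool.Agent.Lib_MP_2c424f_cor.V01

/-!
# The pattern colourings (piece V04)

`A` a set of `q/2` colours (`q` even).  The functions which use the colours of `A` on the even sites of `V` and the other
colours on the odd sites of `V` are proper on `V` (a step changes the parity); their number is `q^N 2^{-|V|}`.
-/

set_option autoImplicit false

open Finset

namespace Pool.Agent.COR

open Pool.Agent.LO

variable {d k q : ℕ}

/-- `f` follows the pattern `A` at `x` -/
def fol (A : Finset (Fin q)) (f : Site d k → Fin q) (x : Site d k) : Prop := f x ∈ A ↔ evn x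

open scoped Classical in
theorem card_fol (hq : Even q) (A : Finset (Fin q)) (hA : A.card = q / 2) (V : Finset (Site d k)) :
    ((univ.filter fun f : Site d k → Fin q => ∀ x ∈ V, fol A f x).card : ℝ) = QN d k q * (1 / 2 : ℝ) ^ V.card := by
  have h2 : ((q / 2 : ℕ) : ℝ) = (q : ℝ) * (1 / 2) := by
    obtain ⟨r, rfl⟩ := hq
    have : (r + r) / 2 = r := by omega
    rw [this]
    push_cast
    ring
  set S : Site d k → Finset (Fin q) := fun x => if x ∈ V then (if evn x then A else Aᶜ) else univ with hS
  have hc : ∀ x, ((S x).card : ℝ) = (q : ℝ) * (if x ∈ V then (1 / 2 : ℝ) else 1) := by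
    intro x
    rw [hS]
    dsimp only
    by_cases hx : x ∈ V
    · rw [if_pos hx, if_pos hx]
      by_cases he : evn x
      · rw [if_pos he, hA, h2]
      · rw [if_neg he, card_compl, Fintype.card_fin, hA, ← h2]
        congr 1
        obtain ⟨r, rfl⟩ := hq
        omega
    · rw [if_neg hx, if_neg hx, card_univ, Fintype.card_fin, mul_one]
  have he : (univ.filter fun f : Site d k → Fin q => ∀ x ∈ V, fol A f x) = Fintype.piFinset S := by
    ext f
    rw [mem_filter, Fintype.mem_piFinset]
    simp only [mem_univ, true_and]
    constructor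
    · intro h x
      rw [hS]
      dsimp only
      by_cases hx : x ∈ V
      · rw [if_pos hx]
        have h1 := h x hx
        by_cases he : evn x
        · rw [if_pos he]
          exact h1.2 he
        · rw [if_neg he, mem_compl]
          exact fun h3 => he (h1.1 h3)
      · rw [if_neg hx]
        exact mem_univ _
    · intro h x hx
      have h1 := h x
      rw [hS] at h1
      dsimp only at h1
      rw [if_pos hx] at h1
      by_cases he : evn x
      · rw [if_pos he] at h1
        exact ⟨fun _ => he, fun _ => h1⟩
      · rw [if_neg he, mem_compl] at h1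
        exact ⟨fun h3 => absurd h3 h1, fun h3 => absurd h3 he⟩
  rw [he, Fintype.card_piFinset, Nat.cast_prod, prod_congr rfl fun x _ => hc x, prod_mul_distrib,
    prod_const, card_univ, prod_ite_mem, univ_inter, prod_const]
  rfl

theorem ZV_ge (hk : 1 ≤ k) (hq : Even q) (V : Finset (Site d k)) :
    QN d k q * (1 / 2 : ℝ) ^ V.card ≤ ZV q V := by
  classical
  obtain ⟨A, -, hA⟩ := exists_subset_card_eq (s := (univ : Finset (Fin q))) (n := q / 2)
    (by rw [card_univ, Fintype.card_fin]; omega)
  rw [← card_fol hq A hA V]
  unfold ZV cV
  simp only [and_true]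
  refine Nat.cast_le.2 (card_le_card fun f hf => ?_)
  have hf' := (mem_filter.1 hf).2
  refine mem_filter.2 ⟨mem_univ _, ?_⟩
  intro x hx σ hσ heq
  have h1 := hf' x hx
  have h2 := hf' _ hσ
  unfold fol at h1 h2
  rw [heq, h1, evn_step hk] at h2
  tauto

end Pool.Agent.COR
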