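import Pool.Agent.Lib_MP_2c424f_cor.E03
import Pool.Agent.Lib_MP_2c424f_cor.E04
import Pool.Agent.Lib_MP_2c424f_cor.E05
import Pool.Agent.Lib_MP_2c424f_cor.D08
import Pool.Agent.Lib_MP_2c424f_cor.V04

/-!
# Irregular shells are rare (piece E06, (E1))

`a3` with `Q = QB σ`, `E` = `irr (1/d^13) (GQ σ)` (local: `VG_loc`, the closed blocks of `gr` are in the box), `ZV_ge` for `ZV Q`,
`many_notVG` with `m = 2 h` (`evb_q`), `N₀ = |GQ|/d^13`:
`cV V irr / ZV V ≤ (1-1/q)^(-cut) · exp (ρ |Q|) · (4q+2)^|gr| · exp (-|gr| 2^d/d^28)`.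
`(1-1/q)^(-cut) ≤ exp (0.288 · 8 W1) ≤ exp (3 W1)` (`q ≥ 4`, `cut_QB`);  `ρ |Q| ≤ (6/(d-1)^45 + d²/(4h²)) 5 h W1 ≤ W1/4` (`card_QB`);
`|gr| log (4q+2) ≤ (5 h W1/2^d) · d ≤ W1/4` for large `d`;  `|gr| 2^d/d^28 ≥ (9/5) h W1/d^28 = 3.6 d² W1` (`card_GQ`).
-/

set_option autoImplicit false

open Finset

namespace Pool.Agent.COR

open Pool.Agent.LO

private theorem E06_pt {d k : ℕ} (t : Blk d k) (a b : Bt d) (j : Fin d) :
    pt t a b j = ((2 * (t j).val + (if a j then 1 else 0) + (if b j then 1 else 0) : ℕ) :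
      ZMod (2 ^ (k + 1))) := by
  simp only [pt, bas, bv, Pi.add_apply]
  push_cast
  rfl

/-- the closed blocks of `gr a b` are in the box -/
private theorem E06_mem {d k : ℕ} {a b : Fin d → ℕ} {t : Blk d k} (ht : t ∈ gr a b)
    (hb : ∀ i, b i < 2 ^ (k + 1)) (a' b' : Bt d) : pt t a' b' ∈ (bx a b : Finset (Site d (k + 1))) := by
  have h1 : ∀ i, a i ≤ 2 * (t i).val ∧ 2 * (t i).val + 2 ≤ b i := by
    unfold gr at ht
    exact (mem_filter.1 ht).2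
  unfold bx
  rw [mem_filter]
  refine ⟨mem_univ _, fun i => ?_⟩
  have h2 := h1 i
  have h3 := hb i
  rw [E06_pt, ZMod.val_natCast, Nat.mod_eq_of_lt (by split_ifs <;> omega)]
  split_ifs <;> omega

/-- the estimates which hold for large `d` -/
private theorem E06_large : ∃ d₀ : ℕ, ∀ d : ℕ, d₀ ≤ d → 40 * (d : ℝ) ^ 31 ≤ 2 ^ d := by
  have h1 := tendsto_pow_const_div_const_pow_of_one_lt 31 (show (1 : ℝ) < 2 by norm_num)
  have h2 := (h1.eventually (gt_mem_nhds (show (0 : ℝ) < 1 / 40 by norm_num)))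
  obtain ⟨d₀, h3⟩ := Filter.eventually_atTop.1 h2
  refine ⟨d₀, fun d hd => ?_⟩
  have h4 := h3 d hd
  rw [div_lt_iff₀ (by positivity)] at h4
  linarith

private theorem E06_q {d q : ℕ} (hd : 10 ≤ d) (hq : AdmC d q) : (q : ℝ) ≤ d := by
  have hd' : (10 : ℝ) ≤ d := by exact_mod_cast hd
  have h1 : 1 ≤ Real.log d := by
    rw [Real.le_log_iff_exp_le (by linarith)]
    have := Real.exp_one_lt_d9
    linarith
  have h2 := hq.2.2
  have h3 : (0 : ℝ) ≤ q := Nat.cast_nonneg _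
  nlinarith

private theorem E06_exp {d : ℕ} (hd : 10 ≤ d) (h : 40 * (d : ℝ) ^ 31 ≤ 2 ^ d) :
    4 * (d : ℝ) + 2 ≤ Real.exp d := by
  have hd' : (10 : ℝ) ≤ d := by exact_mod_cast hd
  have h1 : (2 : ℝ) ≤ Real.exp 1 := by
    have := Real.add_one_le_exp (1 : ℝ)
    linarith
  have h2 : (2 : ℝ) ^ d ≤ Real.exp d := by
    have h3 := pow_le_pow_left₀ (by norm_num) h1 d
    rw [← Real.exp_nat_mul, mul_one] at h3
    exact h3
  have h4 : (d : ℝ) ≤ (d : ℝ) ^ 31 := le_self_pow₀ (by linarith) (by norm_num)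
  linarith

/-- `rho (2 h) h ≤ 1/20` -/
private theorem E06_rho {d : ℕ} (hd : 10 ≤ d) : rho d (2 * hC d) * hC d ≤ 1 / 20 := by
  have hd' : (10 : ℝ) ≤ d := by exact_mod_cast hd
  have hh : ((hC d : ℕ) : ℝ) = 2 * (d : ℝ) ^ 30 := by
    unfold hC
    push_cast
    ring
  have h0 : (0 : ℝ) < (d : ℝ) ^ 30 := by positivity
  have h1 : 2 * (d : ℝ) ^ 2 ≤ ((d : ℝ) - 1) ^ 3 := by nlinarith [sq_nonneg ((d : ℝ) - 10)]
  have h2 : (2 * (d : ℝ) ^ 2) ^ 15 ≤ (((d : ℝ) - 1) ^ 3) ^ 15 :=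
    pow_le_pow_left₀ (by positivity) h1 15
  have h3 : (2 * (d : ℝ) ^ 2) ^ 15 = 32768 * (d : ℝ) ^ 30 := by
    rw [mul_pow, ← pow_mul]
    norm_num
  have h4 : (((d : ℝ) - 1) ^ 3) ^ 15 = ((d : ℝ) - 1) ^ 45 := by rw [← pow_mul]
  rw [h3, h4] at h2
  have h5 : 6 / ((d : ℝ) - 1) ^ 45 * (2 * (d : ℝ) ^ 30) ≤ 1 / 40 := by
    rw [div_mul_eq_mul_div, div_le_iff₀ (by linarith)]
    linarith
  have h6 : (1 : ℝ) ≤ (d : ℝ) ^ 28 := one_le_pow₀ (by linarith)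
  have h7 : ((d : ℝ) / ((2 * hC d : ℕ) : ℝ)) ^ 2 * (2 * (d : ℝ) ^ 30) ≤ 1 / 40 := by
    have e1 : (((2 * hC d : ℕ) : ℕ) : ℝ) = 4 * (d : ℝ) ^ 30 := by
      push_cast
      rw [hh]
      ring
    rw [e1, div_pow, div_mul_eq_mul_div, div_le_iff₀ (by positivity)]
    have e2 : (10 : ℝ) ^ 28 ≤ (d : ℝ) ^ 28 := pow_le_pow_left₀ (by norm_num) hd' 28
    have e3 : (d : ℝ) ^ 2 * (2 * (d : ℝ) ^ 30) * 5 ≤ 1 / 40 * (4 * (d : ℝ) ^ 30) ^ 2 * 5 := by
      have e4 : 1 / 40 * (4 * (d : ℝ) ^ 30) ^ 2 * 5 = 2 * (d : ℝ) ^ 32 * (d : ℝ) ^ 28 := by ring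
      have e5 : (d : ℝ) ^ 2 * (2 * (d : ℝ) ^ 30) * 5 = 2 * (d : ℝ) ^ 32 * 5 := by ring
      rw [e4, e5]
      refine mul_le_mul_of_nonneg_left ?_ (by positivity)
      exact le_trans (by norm_num) e2
    linarith
  unfold rho
  rw [hh, add_mul]
  linarith

/-- `exp (-3 W) ≤ (1 - 1/q)^c` for `c ≤ 8 W` -/
private theorem E06_cut {q c : ℕ} {W : ℝ} (hq : 4 ≤ q) (hc : (c : ℝ) ≤ 8 * W) :
    Real.exp (-(3 * W)) ≤ (1 - 1 / (q : ℝ)) ^ c := by
  have hq' : (4 : ℝ) ≤ q := by exact_mod_cast hq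
  have h1 : Real.exp (-(3 / 8 : ℝ)) ≤ 1 - 1 / (q : ℝ) := by
    have e1 : 1 / (q : ℝ) ≤ 1 / 4 := one_div_le_one_div_of_le (by norm_num) hq'
    have e2 : (4 : ℝ) / 3 ≤ Real.exp (3 / 8) := by
      have := Real.add_one_le_exp (3 / 8 : ℝ)
      linarith
    have e3 : Real.exp (-(3 / 8 : ℝ)) ≤ 3 / 4 := by
      rw [Real.exp_neg, inv_le_comm₀ (Real.exp_pos _) (by norm_num)]
      linarith
    linarith
  calc Real.exp (-(3 * W)) ≤ Real.exp (-(3 / 8 : ℝ) * c) := Real.exp_le_exp.2 (by linarith)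
    _ = Real.exp (-(3 / 8 : ℝ)) ^ c := by rw [mul_comm, Real.exp_nat_mul]
    _ ≤ (1 - 1 / (q : ℝ)) ^ c := pow_le_pow_left₀ (Real.exp_pos _).le h1 c

/-- the arithmetic of the exponents -/
private theorem E06_num {d : ℕ} (hd : 10 ≤ d) (hL : 40 * (d : ℝ) ^ 31 ≤ 2 ^ d) {W G S : ℝ}
    (hW : 0 ≤ W) (hS0 : 0 ≤ S) (hS : S ≤ 5 * hC d * W)
    (hG1 : 9 / 5 * (hC d : ℝ) * W ≤ 2 ^ d * G) (hG2 : 2 ^ d * G ≤ S) :
    rho d (2 * hC d) * S + d * G + -(1 / (d : ℝ) ^ 13 * G * (2 ^ d / (d : ℝ) ^ 15)) ≤ -(4 * W) := by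
  have hd' : (10 : ℝ) ≤ d := by exact_mod_cast hd
  have hh : ((hC d : ℕ) : ℝ) = 2 * (d : ℝ) ^ 30 := by
    unfold hC
    push_cast
    ring
  have hr := E06_rho hd
  have hr0 : 0 ≤ rho d (2 * hC d) := by
    unfold rho
    have : (0 : ℝ) < (d : ℝ) - 1 := by linarith
    positivity
  have h1 : rho d (2 * hC d) * S ≤ W / 4 := by
    calc rho d (2 * hC d) * S ≤ rho d (2 * hC d) * (5 * hC d * W) :=
          mul_le_mul_of_nonneg_left hS hr0
      _ = 5 * W * (rho d (2 * hC d) * hC d) := by ring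
      _ ≤ 5 * W * (1 / 20) := mul_le_mul_of_nonneg_left hr (by positivity)
      _ = W / 4 := by ring
  have hp : (0 : ℝ) < 2 ^ d := by positivity
  have h2 : (d : ℝ) * G ≤ W / 4 := by
    have e1 : 2 ^ d * G ≤ 10 * (d : ℝ) ^ 30 * W := by
      refine (hG2.trans hS).trans (le_of_eq ?_)
      rw [hh]
      ring
    have e2 : 2 ^ d * ((d : ℝ) * G) ≤ 2 ^ d * (W / 4) := by
      calc 2 ^ d * ((d : ℝ) * G) = d * (2 ^ d * G) := by ring
        _ ≤ d * (10 * (d : ℝ) ^ 30 * W) := mul_le_mul_of_nonneg_left e1 (by positivity)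
        _ = (40 * (d : ℝ) ^ 31) * (W / 4) := by ring
        _ ≤ 2 ^ d * (W / 4) := mul_le_mul_of_nonneg_right hL (by positivity)
    exact le_of_mul_le_mul_left e2 hp
  have h3 : 1 / (d : ℝ) ^ 13 * G * (2 ^ d / (d : ℝ) ^ 15) = 2 ^ d * G / (d : ℝ) ^ 28 := by
    have : (0 : ℝ) < d := by linarith
    field_simp
  have h4 : 36 * W ≤ 2 ^ d * G / (d : ℝ) ^ 28 := by
    rw [le_div_iff₀ (by positivity)]
    refine le_trans ?_ hG1
    rw [hh]
    have e1 : (100 : ℝ) ≤ (d : ℝ) ^ 2 := by nlinarith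
    have e2 : 9 / 5 * (2 * (d : ℝ) ^ 30) * W = 18 / 5 * ((d : ℝ) ^ 28 * W) * (d : ℝ) ^ 2 := by ring
    rw [e2]
    have e3 : 0 ≤ (d : ℝ) ^ 28 * W := by positivity
    nlinarith [mul_le_mul_of_nonneg_left e1 e3]
  rw [h3]
  linarith

theorem shell_irr : ∃ d₀ : ℕ, ∀ d : ℕ, d₀ ≤ d → ∀ q : ℕ, AdmC d q → ∀ k K : ℕ, d ^ 46 ≤ 2 ^ k →
    nC d K + 4 ≤ 2 ^ (k + 1) → ∀ a b : Fin d → ℕ, dbx d K a b → ∀ σ ∈ sd d K a b,
    ∀ V : Finset (Site d (k + 1)), QB d K k a b σ ⊆ V →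
    cV V (fun f : Site d (k + 1) → Fin q => irr (1 / (d : ℝ) ^ 13) (GQ d K k a b σ) f) ≤
      Real.exp (-W1 d) * ZV q V := by
  classical
  obtain ⟨d₁, h1⟩ := many_notVG
  obtain ⟨d₂, h2⟩ := E06_large
  refine ⟨max (max d₁ d₂) 10, fun d hd q hq k K hk hn a b hD σ hσ V hV => ?_⟩
  have hd10 : 10 ≤ d := (le_max_right _ _).trans hd
  have hL := h2 d ((le_max_right _ _).trans ((le_max_left _ _).trans hd))
  have hd2h : d ≤ 2 * hC d := by
    have e1 : d ≤ d ^ 30 := Nat.le_self_pow (by norm_num) d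
    unfold hC
    omega
  obtain ⟨hev, hgap⟩ := evb_q (k := k) hd10 hn hD hσ
  have hmany := h1 d ((le_max_left _ _).trans ((le_max_left _ _).trans hd)) q hq k hk (2 * hC d)
    hd2h (qa d a b σ) (qb d K a b σ) hev hgap (1 / (d : ℝ) ^ 13 * ((GQ d K k a b σ).card : ℝ))
  have hE : ∀ f g : Site d (k + 1) → Fin q, (∀ x ∈ QB d K k a b σ, f x = g x) →
      irr (1 / (d : ℝ) ^ 13) (GQ d K k a b σ) f → irr (1 / (d : ℝ) ^ 13) (GQ d K k a b σ) g := by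
    intro f g hfg hf
    have e1 : (GQ d K k a b σ).filter (fun t => ¬ VG t f) =
        (GQ d K k a b σ).filter (fun t => ¬ VG t g) := by
      refine filter_congr fun t ht => not_congr (VG_loc t f g fun a' b' => hfg _ ?_)
      exact E06_mem ht (fun i => by have := (hev i).2.2.2; omega) a' b'
    unfold irr at hf ⊢
    rw [← e1]
    exact hf
  have hq4 : 4 ≤ q := hq.1
  have h3 := a3 (by omega) (by omega) V (QB d K k a b σ) hV
    (fun f : Site d (k + 1) → Fin q => irr (1 / (d : ℝ) ^ 13) (GQ d K k a b σ) f) hE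
  have h4 := ZV_ge (by omega) hq.2.1 (QB d K k a b σ) (q := q)
  have hcQ : cV (QB d K k a b σ)
      (fun f : Site d (k + 1) → Fin q => irr (1 / (d : ℝ) ^ 13) (GQ d K k a b σ) f) ≤
      QN d (k + 1) q * (1 / 2 : ℝ) ^ (QB d K k a b σ).card *
        Real.exp (rho d (2 * hC d) * (QB d K k a b σ).card) *
        (4 * (q : ℝ) + 2) ^ (GQ d K k a b σ).card *
        Real.exp (-(1 / (d : ℝ) ^ 13 * ((GQ d K k a b σ).card : ℝ) * (2 ^ d / (d : ℝ) ^ 15))) := by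
    exact hmany
  set Q := QB d K k a b σ with hQ
  set G : ℝ := ((GQ d K k a b σ).card : ℝ) with hG
  set X : ℝ := QN d (k + 1) q * (1 / 2 : ℝ) ^ Q.card with hX
  set C : ℝ := cV V (fun f : Site d (k + 1) → Fin q => irr (1 / (d : ℝ) ^ 13) (GQ d K k a b σ) f)
    with hC'
  have hC0 : 0 ≤ C := by
    rw [hC']
    unfold cV
    exact Nat.cast_nonneg _
  have hZ0 : 0 ≤ ZV q V := by
    unfold ZV cV
    exact Nat.cast_nonneg _
  have hq0 : (0 : ℝ) < q := by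
    have : (4 : ℝ) ≤ q := by exact_mod_cast hq4
    linarith
  have hX0 : 0 < X := by
    rw [hX]
    unfold QN
    positivity
  have hP := E06_cut (W := W1 d) (c := cut V Q) hq4 (cut_QB hd10 hn hD hσ V)
  set P : ℝ := (1 - 1 / (q : ℝ)) ^ cut V Q with hPd
  have hP0 : 0 ≤ P := (Real.exp_pos _).le.trans hP
  have hW0 : 0 ≤ W1 d := by
    unfold W1
    positivity
  have hpow : (4 * (q : ℝ) + 2) ^ (GQ d K k a b σ).card ≤ Real.exp (d * G) := by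
    have e1 : 4 * (q : ℝ) + 2 ≤ Real.exp d := by
      have := E06_q hd10 hq
      have := E06_exp hd10 hL
      linarith
    refine (pow_le_pow_left₀ (by positivity) e1 _).trans (le_of_eq ?_)
    rw [← Real.exp_nat_mul, mul_comm]
  have hnum := E06_num hd10 hL hW0 (S := (Q.card : ℝ)) (G := G) (Nat.cast_nonneg _)
    (card_QB hd10 hn hD hσ) (card_GQ hd10 hn hD hσ).1 (card_GQ hd10 hn hD hσ).2
  have hR : Real.exp (rho d (2 * hC d) * Q.card) * (4 * (q : ℝ) + 2) ^ (GQ d K k a b σ).card *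
      Real.exp (-(1 / (d : ℝ) ^ 13 * G * (2 ^ d / (d : ℝ) ^ 15))) ≤ Real.exp (-(4 * W1 d)) := by
    calc Real.exp (rho d (2 * hC d) * Q.card) * (4 * (q : ℝ) + 2) ^ (GQ d K k a b σ).card *
          Real.exp (-(1 / (d : ℝ) ^ 13 * G * (2 ^ d / (d : ℝ) ^ 15)))
        ≤ Real.exp (rho d (2 * hC d) * Q.card) * Real.exp (d * G) *
          Real.exp (-(1 / (d : ℝ) ^ 13 * G * (2 ^ d / (d : ℝ) ^ 15))) := by
          refine mul_le_mul_of_nonneg_right ?_ (Real.exp_pos _).le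
          exact mul_le_mul_of_nonneg_left hpow (Real.exp_pos _).le
      _ = Real.exp (rho d (2 * hC d) * Q.card + d * G +
          -(1 / (d : ℝ) ^ 13 * G * (2 ^ d / (d : ℝ) ^ 15))) := by
          rw [Real.exp_add, Real.exp_add]
      _ ≤ Real.exp (-(4 * W1 d)) := Real.exp_le_exp.2 hnum
  have h5 : X * (P * C) ≤ X * (Real.exp (-(4 * W1 d)) * ZV q V) := by
    calc X * (P * C) = P * X * C := by ring
      _ ≤ P * ZV q Q * C :=
          mul_le_mul_of_nonneg_right (mul_le_mul_of_nonneg_left h4 hP0) hC0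
      _ ≤ _ := h3
      _ ≤ (X * Real.exp (rho d (2 * hC d) * Q.card) *
        (4 * (q : ℝ) + 2) ^ (GQ d K k a b σ).card *
        Real.exp (-(1 / (d : ℝ) ^ 13 * G * (2 ^ d / (d : ℝ) ^ 15)))) * ZV q V :=
          mul_le_mul_of_nonneg_right hcQ hZ0
      _ = X * ((Real.exp (rho d (2 * hC d) * Q.card) *
        (4 * (q : ℝ) + 2) ^ (GQ d K k a b σ).card *
        Real.exp (-(1 / (d : ℝ) ^ 13 * G * (2 ^ d / (d : ℝ) ^ 15)))) * ZV q V) := by ring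
      _ ≤ X * (Real.exp (-(4 * W1 d)) * ZV q V) :=
          mul_le_mul_of_nonneg_left (mul_le_mul_of_nonneg_right hR hZ0) hX0.le
  have h6 := le_of_mul_le_mul_left h5 hX0
  have h7 : Real.exp (-(3 * W1 d)) * C ≤ Real.exp (-(4 * W1 d)) * ZV q V :=
    (mul_le_mul_of_nonneg_right hP hC0).trans h6
  have h8 : Real.exp (-(4 * W1 d)) = Real.exp (-(3 * W1 d)) * Real.exp (-W1 d) := by
    rw [← Real.exp_add]
    congr 1
    ring
  rw [h8, mul_assoc] at h7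
  exact le_of_mul_le_mul_left h7 (Real.exp_pos _)

end Pool.Agent.COR
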