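import Pool.Agent.Lib_MP_2c424f_cor.E06

/-!
# Aligned shells (piece E07, (E1) end)

`align` with `I = sd d K a b` (nonempty, at most `2d` elements), `Q = GQ`, `U` = union of the `QB σ` (a closed block of `gr` is contained in
the box), `θ = 1/d^13`, `θ' = 1/d^11`, `p = 2d exp (-W1)` (union bound, `shell_irr`).  `h1`: `|U| ≤ 2d · 5 h W1`, `s₀ = 2^d/(8d)`, so
`(q/2)² ⌊|U|/s₀⌋ ≤ d² · 10 d h W1 · 8 d/2^d = 160 d^34 W1/2^d ≤ W1/(4 d^10)` for large `d`; `h2`: `21 ((q/2)² + 1) ≤ d²` (`AdmC`).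
`2 · 2^(...) ≤ exp (W1/d^10)`.
-/

set_option autoImplicit false

open Finset

namespace Pool.Agent.COR

open Pool.Agent.LO

private theorem E07_coord {d k : ℕ} {a b : ℕ} (t : Blk d k) (a' b' : Bt d) (i : Fin d)
    (h : a ≤ 2 * (t i).val ∧ 2 * (t i).val + 2 ≤ b) (hb : b < 2 ^ (k + 1)) :
    a ≤ (pt t a' b' i).val ∧ (pt t a' b' i).val ≤ b := by
  have h0 : pt t a' b' i = ((2 * (t i).val + (if a' i then 1 else 0) + (if b' i then 1 else 0) : ℕ) :
      ZMod (2 ^ (k + 1))) := by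
    simp only [pt, bas, bv, Pi.add_apply]
    push_cast
    rfl
  have h1 : (if a' i then 1 else 0) + (if b' i then 1 else (0 : ℕ)) ≤ 2 := by
    split_ifs <;> omega
  rw [h0, ZMod.val_natCast, Nat.mod_eq_of_lt (by omega)]
  omega

/-- a closed block of `gr` is contained in the box -/
private theorem E07_gr {d k : ℕ} {a b : Fin d → ℕ} (hab : evb k a b) {t : Blk d k} (ht : t ∈ gr a b)
    (a' b' : Bt d) : pt t a' b' ∈ bx a b := by
  classical
  unfold gr at ht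
  have h3 := (mem_filter.1 ht).2
  unfold bx
  rw [mem_filter]
  refine ⟨mem_univ _, fun i => ?_⟩
  exact E07_coord t a' b' i (h3 i) (by have := (hab i).2.2.2; omega)

private theorem E07_ex {d k q : ℕ} {ι : Type} (I : Finset ι) (V : Finset (Site d k))
    (P : ι → (Site d k → Fin q) → Prop) :
    cV V (fun f => ∃ l ∈ I, P l f) ≤ ∑ l ∈ I, cV V (P l) := by
  classical
  unfold cV
  have h1 : (univ.filter fun f : Site d k → Fin q => PrV V f ∧ ∃ l ∈ I, P l f) ⊆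
      I.biUnion fun l => univ.filter fun f : Site d k → Fin q => PrV V f ∧ P l f := by
    intro f hf
    obtain ⟨hf1, l, hl, hf2⟩ := (mem_filter.1 hf).2
    exact mem_biUnion.2 ⟨l, hl, mem_filter.2 ⟨mem_univ _, hf1, hf2⟩⟩
  have h2 := (card_le_card h1).trans card_biUnion_le
  have h3 : (((univ.filter fun f : Site d k → Fin q => PrV V f ∧ ∃ l ∈ I, P l f).card : ℕ) : ℝ) ≤
      ((∑ l ∈ I, (univ.filter fun f : Site d k → Fin q => PrV V f ∧ P l f).card : ℕ) : ℝ) := by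
    exact_mod_cast h2
  rw [Nat.cast_sum] at h3
  convert h3

private theorem E07_large : ∃ d₁ : ℕ, ∀ d : ℕ, d₁ ≤ d → (640 : ℝ) * (d : ℝ) ^ 44 ≤ 2 ^ d := by
  have h1 := tendsto_pow_const_mul_const_pow_of_abs_lt_one 44 (r := (1 / 2 : ℝ))
    (by rw [abs_of_pos (by norm_num)]; norm_num)
  have h2 := h1.eventually (gt_mem_nhds (show (0 : ℝ) < 1 / 640 by norm_num))
  obtain ⟨d₁, h3⟩ := Filter.eventually_atTop.1 h2
  refine ⟨d₁, fun d hd => ?_⟩
  have h4 := h3 d hd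
  have h5 : (1 / 2 : ℝ) ^ d = 1 / 2 ^ d := by rw [div_pow, one_pow]
  rw [h5, mul_one_div, div_lt_iff₀ (by positivity)] at h4
  linarith

/-- the numbers of the admissible `q` -/
private theorem E07_q {d q : ℕ} (hd : 10 ≤ d) (hq : AdmC d q) :
    21 * ((((q / 2) ^ 2 : ℕ) : ℝ) + 1) ≤ (d : ℝ) ^ 2 := by
  have hd' : (10 : ℝ) ≤ d := by exact_mod_cast hd
  have hlog : 1 ≤ Real.log d := by
    rw [Real.le_log_iff_exp_le (by linarith)]
    have := Real.exp_one_lt_d9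
    linarith
  have h1 : (q : ℝ) * 10000 ≤ d := by
    have h2 := hq.2.2
    have h3 : (q : ℝ) * 10000 ≤ (q : ℝ) * (10000 * Real.log d) := by
      apply mul_le_mul_of_nonneg_left _ (Nat.cast_nonneg q)
      linarith
    linarith
  have h2 : ((q / 2 : ℕ) : ℝ) ≤ q := by
    exact_mod_cast Nat.div_le_self q 2
  have h3 : ((q / 2 : ℕ) : ℝ) ≤ d / 10000 := by linarith
  have h4 : ((q / 2 : ℕ) : ℝ) ^ 2 ≤ (d / 10000) ^ 2 := pow_le_pow_left₀ (Nat.cast_nonneg _) h3 2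
  push_cast
  push_cast at h4
  nlinarith

theorem shell_ald : ∃ d₀ : ℕ, ∀ d : ℕ, d₀ ≤ d → ∀ q : ℕ, AdmC d q → ∀ k K : ℕ, d ^ 46 ≤ 2 ^ k → 1 ≤ K →
    nC d K + 4 ≤ 2 ^ (k + 1) → ∀ a b : Fin d → ℕ, dbx d K a b → ∀ A₀ : Finset (Fin q), A₀.card = q / 2 →
    ∀ V : Finset (Site d (k + 1)), (∀ σ ∈ sd d K a b, QB d K k a b σ ⊆ V) →
    ZV q V ≤ Real.exp (W1 d / (d : ℝ) ^ 10) *
      cV V (fun f : Site d (k + 1) → Fin q => ∀ σ ∈ sd d K a b, ald (1 / (d : ℝ) ^ 11) A₀ (GQ d K k a b σ) f) := by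
  classical
  obtain ⟨d₁, hd₁⟩ := E07_large
  obtain ⟨d₂, hd₂⟩ := shell_irr
  refine ⟨max (max d₁ d₂) 10, fun d hd q hq k K hk hK hn a b hD A₀ hA V hV => ?_⟩
  have hd10 : 10 ≤ d := (le_max_right _ _).trans hd
  have hdd₁ : d₁ ≤ d := ((le_max_left _ _).trans (le_max_left _ _)).trans hd
  have hdd₂ : d₂ ≤ d := ((le_max_right _ _).trans (le_max_left _ _)).trans hd
  have hdr : (10 : ℝ) ≤ d := by exact_mod_cast hd10
  have hd0 : (0 : ℝ) < d := by linarith
  have hd1 : (1 : ℝ) ≤ d := by linarith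
  have hk1 : 1 ≤ k := by
    rcases Nat.eq_zero_or_pos k with h | h
    · exfalso
      rw [h, pow_zero] at hk
      have h1 : 10 ^ 46 ≤ d ^ 46 := Nat.pow_le_pow_left hd10 46
      omega
    · exact h
  -- the size of `W1`
  have hW : 2 * (d : ℝ) ^ 33 ≤ W1 d := by
    unfold W1
    have h1 : (1 : ℝ) ≤ (wC d : ℝ) := by
      unfold wC
      push_cast
      have : (1 : ℝ) ≤ (d : ℝ) ^ 33 := one_le_pow₀ hd1
      linarith
    have h2 : (wC d : ℝ) ^ 1 ≤ (wC d : ℝ) ^ (d - 1) := pow_le_pow_right₀ h1 (by omega)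
    rw [pow_one] at h2
    refine le_trans (le_of_eq ?_) h2
    unfold wC
    push_cast
    rfl
  have hWpos : 0 < W1 d := lt_of_lt_of_le (by positivity) hW
  set U : Finset (Site d (k + 1)) := (sd d K a b).biUnion fun σ => QB d K k a b σ with hU
  set M : ℕ := (q / 2) ^ 2 with hM
  set n0 : ℕ := ⌊(U.card : ℝ) / s0 d⌋₊ with hn0
  have hM21 : 21 * ((M : ℝ) + 1) ≤ (d : ℝ) ^ 2 := E07_q hd10 hq
  have hMd : (M : ℝ) ≤ (d : ℝ) ^ 2 := by
    have : (0 : ℝ) ≤ M := Nat.cast_nonneg _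
    linarith
  have hsd : ((sd d K a b).card : ℝ) ≤ 2 * d := by
    have h1 : (sd d K a b).card ≤ (univ : Finset (Stp d)).card := card_le_card (subset_univ _)
    have h2 : (univ : Finset (Stp d)).card = d * 2 := by
      rw [card_univ, Fintype.card_prod, Fintype.card_fin, Fintype.card_bool]
    rw [h2] at h1
    have h3 : ((sd d K a b).card : ℝ) ≤ ((d * 2 : ℕ) : ℝ) := by exact_mod_cast h1
    push_cast at h3
    linarith
  -- the size of `U`
  have hUc : (U.card : ℝ) ≤ 20 * (d : ℝ) ^ 31 * W1 d := by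
    have h1 : U.card ≤ ∑ σ ∈ sd d K a b, (QB d K k a b σ).card := card_biUnion_le
    have h2 : (U.card : ℝ) ≤ ∑ σ ∈ sd d K a b, ((QB d K k a b σ).card : ℝ) := by
      exact_mod_cast h1
    have h3 : ∑ σ ∈ sd d K a b, ((QB d K k a b σ).card : ℝ) ≤
        ∑ σ ∈ sd d K a b, (5 * hC d * W1 d) :=
      Finset.sum_le_sum fun σ hσ => card_QB hd10 hn hD hσ
    rw [Finset.sum_const, nsmul_eq_mul] at h3
    have h4 : ((sd d K a b).card : ℝ) * (5 * hC d * W1 d) ≤ 2 * d * (5 * hC d * W1 d) := by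
      apply mul_le_mul_of_nonneg_right hsd
      positivity
    have h5 : 2 * (d : ℝ) * (5 * hC d * W1 d) = 20 * (d : ℝ) ^ 31 * W1 d := by
      unfold hC
      push_cast
      ring
    linarith
  have hn0le : (n0 : ℝ) ≤ 160 * (d : ℝ) ^ 32 * W1 d / 2 ^ d := by
    have h1 : (n0 : ℝ) ≤ (U.card : ℝ) / s0 d := by
      apply Nat.floor_le
      unfold s0
      positivity
    refine h1.trans ?_
    unfold s0
    rw [div_div_eq_mul_div]
    apply div_le_div_of_nonneg_right _ (by positivity)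
    calc (U.card : ℝ) * (8 * d) ≤ 20 * (d : ℝ) ^ 31 * W1 d * (8 * d) :=
          mul_le_mul_of_nonneg_right hUc (by positivity)
      _ = 160 * (d : ℝ) ^ 32 * W1 d := by ring
  have hMn : (M : ℝ) * n0 ≤ W1 d / (4 * (d : ℝ) ^ 10) := by
    have h1 : (M : ℝ) * n0 ≤ (d : ℝ) ^ 2 * (160 * (d : ℝ) ^ 32 * W1 d / 2 ^ d) :=
      mul_le_mul hMd hn0le (Nat.cast_nonneg _) (by positivity)
    refine h1.trans ?_
    rw [le_div_iff₀ (by positivity)]
    have h2 := hd₁ d hdd₁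
    have h3 : (d : ℝ) ^ 2 * (160 * (d : ℝ) ^ 32 * W1 d / 2 ^ d) * (4 * (d : ℝ) ^ 10) =
        (640 * (d : ℝ) ^ 44) / 2 ^ d * W1 d := by ring
    rw [h3]
    have h4 : (640 * (d : ℝ) ^ 44) / 2 ^ d ≤ 1 := by
      rw [div_le_one (by positivity)]
      exact h2
    calc (640 * (d : ℝ) ^ 44) / 2 ^ d * W1 d ≤ 1 * W1 d :=
          mul_le_mul_of_nonneg_right h4 hWpos.le
      _ = W1 d := one_mul _
  have hpow : (2 : ℝ) ^ (M * n0) ≤ Real.exp (W1 d / (4 * (d : ℝ) ^ 10)) := by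
    have h1 : (2 : ℝ) ≤ Real.exp 1 := by
      have := Real.add_one_le_exp (1 : ℝ)
      linarith
    have h2 : (2 : ℝ) ^ (M * n0) ≤ Real.exp 1 ^ (M * n0) := pow_le_pow_left₀ (by norm_num) h1 _
    rw [← Real.exp_nat_mul, mul_one] at h2
    refine h2.trans (Real.exp_le_exp.2 ?_)
    push_cast
    exact hMn
  have hpow0 : (0 : ℝ) < (2 : ℝ) ^ (M * n0) := by positivity
  have hd10pow : (1 : ℝ) ≤ (d : ℝ) ^ 10 := one_le_pow₀ hd1
  have hW4 : W1 d / (4 * (d : ℝ) ^ 10) ≤ W1 d / 4 := by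
    apply div_le_div_of_nonneg_left hWpos.le (by norm_num)
    linarith
  -- irregular shells
  have hp : cV V (fun f : Site d (k + 1) → Fin q => ∃ l ∈ sd d K a b,
      irr (1 / (d : ℝ) ^ 13) (GQ d K k a b l) f) ≤ 2 * d * Real.exp (-W1 d) * ZV q V := by
    refine (E07_ex (sd d K a b) V _).trans ?_
    have hZ : 0 ≤ ZV q V := by
      unfold ZV cV
      exact Nat.cast_nonneg _
    calc ∑ l ∈ sd d K a b, cV V (fun f : Site d (k + 1) → Fin q =>
          irr (1 / (d : ℝ) ^ 13) (GQ d K k a b l) f)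
        ≤ ∑ l ∈ sd d K a b, Real.exp (-W1 d) * ZV q V :=
          Finset.sum_le_sum fun l hl => hd₂ d hdd₂ q hq k K hk hn a b hD l hl V (hV l hl)
      _ = (sd d K a b).card * (Real.exp (-W1 d) * ZV q V) := by
          rw [Finset.sum_const, nsmul_eq_mul]
      _ ≤ 2 * d * (Real.exp (-W1 d) * ZV q V) :=
          mul_le_mul_of_nonneg_right hsd (by positivity)
      _ = _ := by ring
  have h1 : 4 * ((sd d K a b).card : ℝ) * ((M : ℝ) + 1) * 2 ^ (M * n0) *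
      (2 * d * Real.exp (-W1 d)) ≤ 1 / (d : ℝ) ^ 13 := by
    rw [le_div_iff₀ (by positivity)]
    have e1 : 4 * ((sd d K a b).card : ℝ) * ((M : ℝ) + 1) ≤ 8 * (d : ℝ) ^ 3 := by
      have e2 : ((M : ℝ) + 1) ≤ (d : ℝ) ^ 2 := by
        have : (0 : ℝ) ≤ M := Nat.cast_nonneg _
        linarith
      calc 4 * ((sd d K a b).card : ℝ) * ((M : ℝ) + 1) ≤ 4 * (2 * d) * (d : ℝ) ^ 2 := by
            apply mul_le_mul _ e2 (by positivity) (by positivity)
            linarith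
        _ = 8 * (d : ℝ) ^ 3 := by ring
    have e3 : (2 : ℝ) ^ (M * n0) * Real.exp (-W1 d) ≤ Real.exp (-(W1 d / 2)) := by
      calc (2 : ℝ) ^ (M * n0) * Real.exp (-W1 d)
          ≤ Real.exp (W1 d / (4 * (d : ℝ) ^ 10)) * Real.exp (-W1 d) :=
            mul_le_mul_of_nonneg_right hpow (Real.exp_pos _).le
        _ = Real.exp (W1 d / (4 * (d : ℝ) ^ 10) + -W1 d) := by rw [Real.exp_add]
        _ ≤ Real.exp (-(W1 d / 2)) := by
            apply Real.exp_le_exp.2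
            linarith
    have e4 : 16 * (d : ℝ) ^ 17 * Real.exp (-(W1 d / 2)) ≤ 1 := by
      rw [Real.exp_neg, ← div_eq_mul_inv, div_le_one (Real.exp_pos _)]
      have e5 := Real.add_one_le_exp (W1 d / 2)
      have e6 : 16 * (d : ℝ) ^ 17 ≤ (d : ℝ) ^ 33 := by
        have e7 : (16 : ℝ) ≤ (d : ℝ) ^ 16 := by
          have e8 : (d : ℝ) ^ 2 ≤ (d : ℝ) ^ 16 := pow_le_pow_right₀ hd1 (by norm_num)
          nlinarith
        calc 16 * (d : ℝ) ^ 17 ≤ (d : ℝ) ^ 16 * (d : ℝ) ^ 17 :=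
              mul_le_mul_of_nonneg_right e7 (by positivity)
          _ = (d : ℝ) ^ 33 := by ring
      linarith
    calc 4 * ((sd d K a b).card : ℝ) * ((M : ℝ) + 1) * 2 ^ (M * n0) *
          (2 * d * Real.exp (-W1 d)) * (d : ℝ) ^ 13
        = (4 * ((sd d K a b).card : ℝ) * ((M : ℝ) + 1)) *
          (2 ^ (M * n0) * Real.exp (-W1 d)) * (2 * (d : ℝ) ^ 14) := by ring
      _ ≤ (8 * (d : ℝ) ^ 3) * Real.exp (-(W1 d / 2)) * (2 * (d : ℝ) ^ 14) := by
          apply mul_le_mul_of_nonneg_right _ (by positivity)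
          exact mul_le_mul e1 e3 (by positivity) (by positivity)
      _ = 16 * (d : ℝ) ^ 17 * Real.exp (-(W1 d / 2)) := by ring
      _ ≤ 1 := e4
  have h2 : 21 * ((M : ℝ) + 1) * (1 / (d : ℝ) ^ 13) ≤ 1 / (d : ℝ) ^ 11 := by
    rw [mul_one_div, div_le_div_iff₀ (by positivity) (by positivity), one_mul]
    calc 21 * ((M : ℝ) + 1) * (d : ℝ) ^ 11 ≤ (d : ℝ) ^ 2 * (d : ℝ) ^ 11 :=
          mul_le_mul_of_nonneg_right hM21 (by positivity)
      _ = (d : ℝ) ^ 13 := by ring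
  have hal := align (d := d) (k := k) (q := q) (by omega) hk1 (by have := hq.1; omega) hq.2.1 V U A₀ hA
    (sd d K a b) (sd_nonempty hd10 hK hD) (fun σ => GQ d K k a b σ)
    (fun l hl t ht a' b' => by
      rw [hU, mem_biUnion]
      exact ⟨l, hl, E07_gr (evb_q hd10 hn hD hl).1 ht a' b'⟩)
    (2 * d * Real.exp (-W1 d)) (1 / (d : ℝ) ^ 13) (1 / (d : ℝ) ^ 11) (by positivity)
    (by
      rw [div_le_one (by positivity)]
      exact one_le_pow₀ hd1) (by positivity) hp h1 h2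
  refine hal.trans ?_
  apply mul_le_mul_of_nonneg_right
  · have e1 : (2 : ℝ) ≤ Real.exp 1 := by
      have := Real.add_one_le_exp (1 : ℝ)
      linarith
    calc 2 * (2 : ℝ) ^ (M * n0) ≤ Real.exp 1 * Real.exp (W1 d / (4 * (d : ℝ) ^ 10)) :=
          mul_le_mul e1 hpow hpow0.le (Real.exp_pos _).le
      _ = Real.exp (1 + W1 d / (4 * (d : ℝ) ^ 10)) := by rw [Real.exp_add]
      _ ≤ Real.exp (W1 d / (d : ℝ) ^ 10) := by
          apply Real.exp_le_exp.2
          have e2 : W1 d / (4 * (d : ℝ) ^ 10) = W1 d / (d : ℝ) ^ 10 / 4 := by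
            rw [mul_comm, div_div]
          have e3 : 2 ≤ W1 d / (d : ℝ) ^ 10 := by
            rw [le_div_iff₀ (by positivity)]
            have e4 : (d : ℝ) ^ 10 ≤ (d : ℝ) ^ 33 := pow_le_pow_right₀ hd1 (by norm_num)
            linarith
          rw [e2]
          linarith
  · unfold cV
    exact Nat.cast_nonneg _

end Pool.Agent.COR
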