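import Pool.Agent.Lib_MP_2c424f_cor.C04
import Pool.Agent.Lib_MP_2c424f_cor.V04

/-!
# Defects in a very good block (piece E08, (E2) first part)

`VG t f`, `AL f t = A₀`, `θ = th d ≤ dl q`.  For `c ∈ A₀`: not `badT θ`, and `mb f t c ≤ dl q < 1 - θ` (`AL_mb`), so
`mb f t c ≤ mj f t c j ≤ θ`.  For `c ∉ A₀`: `lab1` (`GD_iff`), not `badT θ`: if `mj f t c j ≤ θ ≤ dl q` for all `j` then `lab0`,
impossible (`mb ≤ mj`); so `mb f t c ≥ 1 - θ`.
Odd defects (`od a b`, `c = f (pt t a b) ∈ A₀`): no neighbour in the block has the colour `c` (`prB`), so `zb f t a b c = 1`: at most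
`4^d/2 · mb f t c ≤ 4^d θ/2` pairs for each `c ∈ A₀`.
Even defects (`¬ od a b`, `c = f (pt t a b) ∉ A₀`): flip a bit `a j` (a bijection of the even onto the odd pairs): the odd point
`pt t (flp a j) b` has the neighbour `pt t a b` in the block (`pt_flp`), so `zb f t (flp a j) b c = 0`: at most
`4^d/2 (1 - mb f t c) ≤ 4^d θ/2` pairs for each `c ∉ A₀`.  Sum: `4^d θ q/2`.
-/

set_option autoImplicit false

open Finset

namespace Pool.Agent.COR

open Pool.Agent.LO

variable {d k q : ℕ}

private theorem E08_od (t : Blk d k) (a b : Bt d) (j : Fin d) : od (flp a j) b ↔ ¬ od a b := by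
  have h1 := evn_pt t (flp a j) b
  have h2 := evn_pt t a b
  have h3 := evn_step (d := d) (k := k + 1) (by omega) (pt t a b) (j, !a j)
  rw [← (pt_flp t a b j).1] at h3
  tauto

private theorem E08_flp (a : Bt d) (j : Fin d) : flp (flp a j) j = a := by
  funext i
  unfold flp
  by_cases h : i = j
  · subst h
    simp
  · simp [h]

private theorem E08_nb (t : Blk d k) (a b : Bt d) (j : Fin d) (f : Site d (k + 1) → Fin q) (c : Fin q)
    (h : f (pt t a b) = c) : zb f t (flp a j) b c = 0 := by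
  unfold zb
  rw [if_neg]
  intro hall
  have h1 := hall (j, !(flp a j) j) (by
    unfold alw
    dsimp only
    cases hb : (flp a j) j <;> simp)
  have h2 := (pt_flp t (flp a j) b j).1
  rw [E08_flp] at h2
  rw [← h2] at h1
  exact h1 h

private theorem E08_cnt (s : Finset (Bt d × Bt d)) (F : Bt d → Bt d → ℝ) (hF : ∀ p ∈ s, 1 ≤ F p.1 p.2)
    (h0 : ∀ a b, 0 ≤ F a b) : (s.card : ℝ) ≤ ∑ a, ∑ b, F a b := by
  rw [← Finset.sum_product', Finset.univ_product_univ]
  calc (s.card : ℝ) = ∑ _p ∈ s, (1 : ℝ) := by rw [Finset.sum_const, nsmul_eq_mul, mul_one]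
    _ ≤ ∑ p ∈ s, F p.1 p.2 := Finset.sum_le_sum hF
    _ ≤ _ := Finset.sum_le_sum_of_subset_of_nonneg (Finset.subset_univ _) fun p _ _ => h0 p.1 p.2

open scoped Classical in
private theorem E08_EB (F : Bt d → Bt d → ℝ) :
    (∑ a, ∑ b, if od a b then F a b else 0) = 4 ^ d * (EB F / 2) := by
  unfold EB
  have h : (4 : ℝ) ^ d ≠ 0 := by positivity
  field_simp

open scoped Classical in
private theorem E08_in (hd : 1 ≤ d) {t : Blk d k} {f : Site d (k + 1) → Fin q} (hp : prB t f) (c : Fin q)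
    (θ : ℝ) (h : mb f t c ≤ θ) :
    ((univ.filter fun p : Bt d × Bt d => od p.1 p.2 ∧ f (pt t p.1 p.2) = c).card : ℝ) ≤ 4 ^ d * (θ / 2) := by
  calc _ ≤ ∑ a, ∑ b, (if od a b then zb f t a b c else 0) := by
        refine E08_cnt _ _ (fun p hp' => ?_) fun a b => ?_
        · rw [Finset.mem_filter] at hp'
          rw [if_pos hp'.2.1]
          unfold zb
          rw [if_pos]
          intro σ hσ
          rw [← hp'.2.2]
          exact hp p.1 p.2 σ hσ
        · unfold zb
          split_ifs <;> norm_num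
    _ = 4 ^ d * (mb f t c / 2) := E08_EB _
    _ ≤ 4 ^ d * (θ / 2) := by gcongr

open scoped Classical in
private theorem E08_out (hd : 1 ≤ d) {t : Blk d k} {f : Site d (k + 1) → Fin q} (c : Fin q)
    (θ : ℝ) (h : 1 - θ ≤ mb f t c) :
    ((univ.filter fun p : Bt d × Bt d => ¬ od p.1 p.2 ∧ f (pt t p.1 p.2) = c).card : ℝ) ≤
      4 ^ d * (θ / 2) := by
  set j : Fin d := ⟨0, hd⟩
  have hinj : ((univ.filter fun p : Bt d × Bt d => ¬ od p.1 p.2 ∧ f (pt t p.1 p.2) = c).card : ℝ) ≤
      ((univ.filter fun p : Bt d × Bt d => od p.1 p.2 ∧ zb f t p.1 p.2 c = 0).card : ℝ) := by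
    norm_cast
    refine Finset.card_le_card_of_injOn (fun p => (flp p.1 j, p.2)) ?_ ?_
    · intro p hp
      rw [Finset.mem_coe, Finset.mem_filter] at hp
      rw [Finset.mem_coe, Finset.mem_filter]
      exact ⟨Finset.mem_univ _, (E08_od t p.1 p.2 j).2 hp.2.1, E08_nb t p.1 p.2 j f c hp.2.2⟩
    · intro p _ p' _ hpp
      have h1 : flp p.1 j = flp p'.1 j := (Prod.ext_iff.1 hpp).1
      have h2 : p.2 = p'.2 := (Prod.ext_iff.1 hpp).2
      refine Prod.ext ?_ h2
      rw [← E08_flp p.1 j, h1, E08_flp]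
  refine hinj.trans ?_
  calc _ ≤ ∑ a, ∑ b, (if od a b then (1 + (-1) * zb f t a b c) else 0) := by
        refine E08_cnt _ _ (fun p hp' => ?_) fun a b => ?_
        · rw [Finset.mem_filter] at hp'
          rw [if_pos hp'.2.1, hp'.2.2]
          norm_num
        · unfold zb
          split_ifs <;> norm_num
    _ = 4 ^ d * (EB (fun a b => 1 + (-1) * zb f t a b c) / 2) := E08_EB _
    _ ≤ 4 ^ d * (θ / 2) := by
        have h1 : EB (fun a b : Bt d => 1 + (-1) * zb f t a b c) = 1 - mb f t c := by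
          rw [EB_add, EB_mul, card_od hd]
          unfold mb
          ring
        rw [h1]
        gcongr
        linarith

open scoped Classical in
theorem def_block (hd : 1 ≤ d) (hq : 2 ≤ q) (hth : th d ≤ dl q) {A₀ : Finset (Fin q)} {t : Blk d k}
    {f : Site d (k + 1) → Fin q} (hp : prB t f) (hv : VG t f) (hA : AL f t = A₀) :
    ((univ.filter fun p : Bt d × Bt d => ¬ fol A₀ f (pt t p.1 p.2)).card : ℝ) ≤ 4 ^ d * (q * th d / 2) := by
  have hq' : (1 : ℝ) ≤ q := by exact_mod_cast (by omega : 1 ≤ q)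
  have hdl : dl q ≤ 1 / 100 := by
    unfold dl
    exact one_div_le_one_div_of_le (by norm_num) (by linarith)
  have hc : ∀ c : Fin q,
      ((univ.filter fun p : Bt d × Bt d => ¬ fol A₀ f (pt t p.1 p.2) ∧ f (pt t p.1 p.2) = c).card : ℝ) ≤
        4 ^ d * (th d / 2) := by
    intro c
    have hnb := hv.2 c
    unfold badT at hnb
    by_cases hcA : c ∈ A₀
    · have hmb : mb f t c ≤ th d := by
        have h1 : mb f t c ≤ dl q := AL_mb hd (hA ▸ hcA)
        have h2 : ∀ j, mj f t c j ≤ th d := by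
          by_contra h3
          exact hnb ⟨by intro h4; linarith, h3⟩
        exact (mb_le_mj f t c ⟨0, hd⟩).trans (h2 ⟨0, hd⟩)
      refine le_trans ?_ (E08_in hd hp c (th d) hmb)
      norm_cast
      refine Finset.card_le_card fun p hp' => ?_
      rw [Finset.mem_filter] at hp' ⊢
      refine ⟨Finset.mem_univ _, ?_, hp'.2.2⟩
      have h1 := hp'.2.1
      unfold fol at h1
      rw [hp'.2.2, evn_pt] at h1
      tauto
    · have hmb : 1 - th d ≤ mb f t c := by
        by_contra h1
        have h2 : ∀ j, mj f t c j ≤ th d := by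
          by_contra h3
          exact hnb ⟨h1, h3⟩
        apply hcA
        rw [← hA]
        unfold AL
        rw [Finset.mem_filter]
        exact ⟨Finset.mem_univ _, fun j => (h2 j).trans hth⟩
      refine le_trans ?_ (E08_out hd (t := t) (f := f) c (th d) hmb)
      norm_cast
      refine Finset.card_le_card fun p hp' => ?_
      rw [Finset.mem_filter] at hp' ⊢
      refine ⟨Finset.mem_univ _, ?_, hp'.2.2⟩
      have h1 := hp'.2.1
      unfold fol at h1
      rw [hp'.2.2, evn_pt] at h1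
      tauto
  have hsum : ((univ.filter fun p : Bt d × Bt d => ¬ fol A₀ f (pt t p.1 p.2)).card : ℝ) =
      ∑ c : Fin q,
        ((univ.filter fun p : Bt d × Bt d => ¬ fol A₀ f (pt t p.1 p.2) ∧ f (pt t p.1 p.2) = c).card : ℝ) := by
    rw [← Nat.cast_sum]
    congr 1
    rw [Finset.card_eq_sum_card_fiberwise (f := fun p : Bt d × Bt d => f (pt t p.1 p.2)) (t := univ)
      (fun _ _ => Finset.mem_coe.mpr (Finset.mem_univ _))]
    refine Finset.sum_congr rfl fun c _ => ?_
    rw [Finset.filter_filter]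
  rw [hsum]
  calc _ ≤ ∑ _c : Fin q, (4 : ℝ) ^ d * (th d / 2) := Finset.sum_le_sum fun c _ => hc c
    _ = 4 ^ d * (q * th d / 2) := by
        rw [Finset.sum_const, Finset.card_univ, Fintype.card_fin, nsmul_eq_mul]
        ring

end Pool.Agent.COR
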