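import Pool.Agent.Lib_MP_2c424f_cor.Defs

/-!
# Surgery: definitions

`h = 2 d^30`, `w = 2 d^33`, the free box `G = {0,…,n}^d`, `n = w 2^K - 2`, inside the torus of side `2^(k+1) ≥ n + 4`.
Surgery boxes `D = [a,b]`: `w ∣ a i`, `b i - a i = w - 2` (or `2 w - 2` for at most one `i`).  A side `σ = (i, true)` (upper) or
`(i, false)` (lower) is active if `D` does not touch the boundary of `G` there.  `qa σ`, `qb σ` = corners of the shell box of an
active side.
-/

set_option autoImplicit false

open Finset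

namespace Pool.Agent.COR

open Pool.Agent.LO

/-- thickness of the shells -/
def hC (d : ℕ) : ℕ := 2 * d ^ 30

/-- side of the large blocks -/
def wC (d : ℕ) : ℕ := 2 * d ^ 33

/-- the free box is `{0,…,nC}^d` -/
def nC (d K : ℕ) : ℕ := wC d * 2 ^ K - 2

/-- `w^(d-1)` -/
noncomputable def W1 (d : ℕ) : ℝ := (wC d : ℝ) ^ (d - 1)

/-- the free box in the torus -/
noncomputable def GB (d K k : ℕ) : Finset (Site d (k + 1)) := bx (fun _ => 0) (fun _ => nC d K)

/-- surgery boxes -/
def dbx (d K : ℕ) (a b : Fin d → ℕ) : Prop :=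
  (∀ i, wC d ∣ a i ∧ b i ≤ nC d K ∧ (b i + 2 = a i + wC d ∨ b i + 2 = a i + 2 * wC d)) ∧
    ∃ i₀, ∀ i, i ≠ i₀ → b i + 2 = a i + wC d

/-- lower corner of the neighbourhood of `D` -/
def elo (d : ℕ) (a : Fin d → ℕ) : Fin d → ℕ := fun j => a j - (2 * hC d + 2)

/-- upper corner of the neighbourhood of `D` -/
def ehi (d K : ℕ) (b : Fin d → ℕ) : Fin d → ℕ := fun j => min (nC d K) (b j + (2 * hC d + 2))

open scoped Classical in
/-- the active sides -/
noncomputable def sd (d K : ℕ) (a b : Fin d → ℕ) : Finset (Stp d) :=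
  univ.filter fun σ => if σ.2 then b σ.1 < nC d K else 0 < a σ.1

/-- lower corner of the shell box of a side -/
def qa (d : ℕ) (a b : Fin d → ℕ) (σ : Stp d) : Fin d → ℕ :=
  Function.update (elo d a) σ.1 (if σ.2 then b σ.1 + 2 else a σ.1 - (2 * hC d + 2))

/-- upper corner of the shell box of a side -/
def qb (d K : ℕ) (a b : Fin d → ℕ) (σ : Stp d) : Fin d → ℕ :=
  Function.update (ehi d K b) σ.1 (if σ.2 then b σ.1 + (2 * hC d + 2) else a σ.1 - 2)

/-- the shell box of a side -/
noncomputable def QB (d K k : ℕ) (a b : Fin d → ℕ) (σ : Stp d) : Finset (Site d (k + 1)) :=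
  bx (qa d a b σ) (qb d K a b σ)

/-- the 2-blocks in the shell box -/
noncomputable def GQ (d K k : ℕ) (a b : Fin d → ℕ) (σ : Stp d) : Finset (Blk d k) :=
  gr (qa d a b σ) (qb d K a b σ)

open scoped Classical in
/-- number of coordinates in which `x` is on the boundary of `[a,b]` -/
noncomputable def bdc {d k : ℕ} (a b : Fin d → ℕ) (x : Site d k) : ℕ :=
  (univ.filter fun i => (x i).val = a i ∨ (x i).val = b i).card

open scoped Classical in
/-- outer boundary of `S` in `V` -/
noncomputable def bdo {d k : ℕ} (V S : Finset (Site d k)) : Finset (Site d k) :=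
  (V \ S).filter fun y => ∃ x ∈ S, ∃ σ : Stp d, y = x + sv σ

/-- the lower corner of the surgery region -/
def sa {d : ℕ} (a : Fin d → ℕ) (s : Stp d → ℕ) : Fin d → ℕ := fun i => if 0 < a i then a i - s (i, false) else a i

/-- the upper corner of the surgery region -/
def sb {d : ℕ} (n : ℕ) (b : Fin d → ℕ) (s : Stp d → ℕ) : Fin d → ℕ :=
  fun i => if b i < n then b i + s (i, true) else b i

/-- the surgery region -/
noncomputable def SB (d K k : ℕ) (a b : Fin d → ℕ) (s : Stp d → ℕ) : Finset (Site d (k + 1)) :=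
  bx (sa a s) (sb (nC d K) b s)

/-- admissible thicknesses -/
def okS (d : ℕ) (s : Stp d → ℕ) : Prop := ∀ σ, Odd (s σ) ∧ hC d < s σ ∧ s σ < 2 * hC d

end Pool.Agent.COR
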