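import Pool.Agent.Lib_MP_2c424f_cor.E08
import Pool.Agent.Lib_MP_2c424f_cor.EDefs
import Pool.Agent.Lib_MP_2c424f_cor.B07
import Pool.Agent.Lib_MP_2c424f_cor.D08

/-!
# Defects in an aligned box (piece E09, (E2))

`∑_{t ∈ gr a b} #{(α,β) : ¬ fol A₀ f (pt t α β)} ≤ |gr| 4^d (q th d/2 + θ)` (`def_block` for the blocks with `VG`, `AL = A₀`; at most
`θ |gr|` others, `4^d` pairs each).  Every site `x` of the box with at most one boundary coordinate has at least `2^(d-1)`
representations `x = pt t α β` with `t ∈ gr a b`: for each coordinate with `x i` odd: `2 (t i) = x i - 1` and two choices of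
`(α i, β i)`; for `x i` even, not on the boundary: `2 (t i) = x i` with `(0,0)` or `2 (t i) = x i - 2` with `(1,1)`; on the boundary one
choice.  So `#{x} 2^(d-1) ≤ |gr| 4^d (q th d/2 + θ)`, and `2^d |gr| = ∏ (b i - a i) ≤ |bx|`.
-/

set_option autoImplicit false

open Finset

namespace Pool.Agent.COR

open Pool.Agent.LO

variable {d k q : ℕ}

private theorem E09_val (t : Blk d k) (α β : Bt d) (i : Fin d) (h : 2 * (t i).val + 2 < 2 ^ (k + 1)) :
    (pt t α β i).val = 2 * (t i).val + (if α i then 1 else 0) + (if β i then 1 else 0) := by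
  have h1 : pt t α β i = ((2 * (t i).val + (if α i then 1 else 0) + (if β i then 1 else 0) : ℕ) :
      ZMod (2 ^ (k + 1))) := by
    simp only [pt, bas, bv, Pi.add_apply]
    push_cast
    rfl
  rw [h1, ZMod.val_natCast_of_lt]
  split_ifs <;> omega

private theorem E09_prB {a b : Fin d → ℕ} (hab : evb k a b) {f : Site d (k + 1) → Fin q}
    (hf : PrV (bx a b) f) {t : Blk d k} (ht : t ∈ (gr a b : Finset (Blk d k))) : prB t f := by
  have h1 : ∀ i, a i ≤ 2 * (t i).val ∧ 2 * (t i).val + 2 ≤ b i := by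
    unfold gr at ht
    exact (mem_filter.1 ht).2
  have h2 : ∀ a' b' : Bt d, pt t a' b' ∈ (bx a b : Finset (Site d (k + 1))) := by
    intro a' b'
    unfold bx
    rw [mem_filter]
    refine ⟨mem_univ _, fun i => ?_⟩
    have h3 := h1 i
    have h4 := (hab i).2.2.2
    rw [E09_val t a' b' i (by omega)]
    split_ifs <;> omega
  intro a' b' σ hσ
  obtain ⟨a'', b'', h5⟩ := pt_step t a' b' σ hσ
  refine hf _ (h2 a' b') σ ?_
  rw [h5]
  exact h2 _ _

/-- representations of one coordinate -/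
private theorem E09_coord {A B X : ℕ} (hA : Even A) (hB : Even B) (hAB : A < B) (hB2 : B + 4 ≤ 2 ^ (k + 1))
    (h1 : A ≤ X) (h2 : X ≤ B) :
    (if X = A ∨ X = B then 1 else 2) ≤ (univ.filter fun z : ZMod (2 ^ k) × (Bool × Bool) =>
      A ≤ 2 * z.1.val ∧ 2 * z.1.val + 2 ≤ B ∧
      2 * z.1.val + (if z.2.1 then 1 else 0) + (if z.2.2 then 1 else 0) = X).card := by
  have hk : 2 ^ (k + 1) = 2 * 2 ^ k := by ring
  obtain ⟨u, hu⟩ := hA
  obtain ⟨v, hv⟩ := hB
  have hval : ∀ m : ℕ, 2 * m ≤ B → ((m : ℕ) : ZMod (2 ^ k)).val = m := fun m hm =>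
    ZMod.val_natCast_of_lt (by omega)
  split_ifs with hb
  · rw [Nat.one_le_iff_ne_zero, ← Nat.pos_iff_ne_zero, card_pos]
    rcases hb with hb | hb
    · refine ⟨((u : ℕ), false, false), ?_⟩
      rw [mem_filter]
      refine ⟨mem_univ _, ?_⟩
      simp only [hval u (by omega)]
      simp only [Bool.false_eq_true, if_false]
      omega
    · refine ⟨((v - 1 : ℕ), true, true), ?_⟩
      rw [mem_filter]
      refine ⟨mem_univ _, ?_⟩
      simp only [hval (v - 1) (by omega)]
      simp only [if_true]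
      omega
  · have hb' : X ≠ A ∧ X ≠ B := by
      constructor
      · intro h; exact hb (Or.inl h)
      · intro h; exact hb (Or.inr h)
    obtain ⟨hb1, hb2⟩ := hb'
    rcases Nat.even_or_odd X with hX | hX
    · obtain ⟨m, hm⟩ := hX
      have hne : (((m : ℕ) : ZMod (2 ^ k)), false, false) ≠ ((((m - 1 : ℕ) : ℕ) : ZMod (2 ^ k)), true, true) := by
        intro h
        rw [Prod.mk.injEq, Prod.mk.injEq] at h
        exact Bool.false_ne_true h.2.1
      refine (card_pair hne).symm.le.trans (card_le_card ?_)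
      intro z hz
      rw [mem_insert, mem_singleton] at hz
      rw [mem_filter]
      refine ⟨mem_univ _, ?_⟩
      rcases hz with rfl | rfl
      · simp only [hval m (by omega)]
        simp only [Bool.false_eq_true, if_false]
        omega
      · simp only [hval (m - 1) (by omega)]
        simp only [if_true]
        omega
    · obtain ⟨m, hm⟩ := hX
      have hne : (((m : ℕ) : ZMod (2 ^ k)), true, false) ≠ (((m : ℕ) : ZMod (2 ^ k)), false, true) := by
        intro h
        rw [Prod.mk.injEq, Prod.mk.injEq] at h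
        exact Bool.false_ne_true h.2.1.symm
      refine (card_pair hne).symm.le.trans (card_le_card ?_)
      intro z hz
      rw [mem_insert, mem_singleton] at hz
      rw [mem_filter]
      refine ⟨mem_univ _, ?_⟩
      rcases hz with rfl | rfl
      · simp only [hval m (by omega)]
        simp only [Bool.false_eq_true, if_false, if_true]
        omega
      · simp only [hval m (by omega)]
        simp only [Bool.false_eq_true, if_false, if_true]
        omega

private theorem E09_rep {a b : Fin d → ℕ} (hab : evb k a b) {x : Site d (k + 1)}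
    (hx : x ∈ (bx a b : Finset (Site d (k + 1)))) (hb : bdc a b x ≤ 1)
    (S : Finset (Blk d k × (Bt d × Bt d)))
    (hS : ∀ t α β, t ∈ (gr a b : Finset (Blk d k)) → pt t α β = x → (t, α, β) ∈ S) :
    2 ^ (d - 1) ≤ S.card := by
  classical
  have hx1 : ∀ i, a i ≤ (x i).val ∧ (x i).val ≤ b i := by
    unfold bx at hx
    exact (mem_filter.1 hx).2
  set C : Fin d → Finset (ZMod (2 ^ k) × (Bool × Bool)) := fun i =>
    univ.filter fun z : ZMod (2 ^ k) × (Bool × Bool) =>
      a i ≤ 2 * z.1.val ∧ 2 * z.1.val + 2 ≤ b i ∧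
      2 * z.1.val + (if z.2.1 then 1 else 0) + (if z.2.2 then 1 else 0) = (x i).val with hC
  have h1 : ∏ i, (if (x i).val = a i ∨ (x i).val = b i then 1 else 2) ≤ ∏ i, (C i).card := by
    refine prod_le_prod' fun i _ => ?_
    obtain ⟨e1, e2, e3, e4⟩ := hab i
    exact E09_coord e1 e2 e3 e4 (hx1 i).1 (hx1 i).2
  have h2 : 2 ^ (d - 1) ≤ ∏ i, (if (x i).val = a i ∨ (x i).val = b i then 1 else 2) := by
    rw [prod_ite, prod_const_one, one_mul, prod_const]
    refine Nat.pow_le_pow_right (by norm_num) ?_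
    have h3 := card_filter_add_card_filter_not (s := (univ : Finset (Fin d)))
      (fun i => (x i).val = a i ∨ (x i).val = b i)
    rw [card_univ, Fintype.card_fin] at h3
    unfold bdc at hb
    have h4 : (univ.filter fun i => (x i).val = a i ∨ (x i).val = b i).card ≤ 1 := by
      convert hb
    omega
  refine h2.trans (h1.trans ?_)
  rw [← Fintype.card_piFinset]
  refine card_le_card_of_injOn (fun F => (fun i => (F i).1, fun i => (F i).2.1, fun i => (F i).2.2)) ?_ ?_
  · intro F hF
    have hF' : ∀ i, F i ∈ C i := Fintype.mem_piFinset.1 (mem_coe.1 hF)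
    have hF2 : ∀ i, a i ≤ 2 * (F i).1.val ∧ 2 * (F i).1.val + 2 ≤ b i ∧
      2 * (F i).1.val + (if (F i).2.1 then 1 else 0) + (if (F i).2.2 then 1 else 0) = (x i).val :=
      fun i => (mem_filter.1 (hF' i)).2
    refine hS _ _ _ ?_ ?_
    · unfold gr
      rw [mem_filter]
      exact ⟨mem_univ _, fun i => ⟨(hF2 i).1, (hF2 i).2.1⟩⟩
    · funext i
      apply ZMod.val_injective
      have h5 := hF2 i
      have h6 := (hab i).2.2.2
      rw [E09_val _ _ _ i (by show 2 * (F i).1.val + 2 < _; omega)]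
      exact h5.2.2
  · intro F _ F' _ h
    rw [Prod.mk.injEq, Prod.mk.injEq] at h
    obtain ⟨h3, h4, h5⟩ := h
    funext i
    exact Prod.ext (congrFun h3 i) (Prod.ext (congrFun h4 i) (congrFun h5 i))

open scoped Classical in
theorem def_box (hd : 1 ≤ d) (hq : 2 ≤ q) (hth : th d ≤ dl q) {a b : Fin d → ℕ} (hab : evb k a b)
    {A₀ : Finset (Fin q)} {f : Site d (k + 1) → Fin q} (hf : PrV (bx a b) f) (θ : ℝ) (hθ : 0 ≤ θ)
    (hv : ald θ A₀ (gr a b : Finset (Blk d k)) f) :
    (((bx a b : Finset (Site d (k + 1))).filter fun x => ¬ fol A₀ f x ∧ bdc a b x ≤ 1).card : ℝ) ≤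
      (q * th d + 2 * θ) * ((bx a b : Finset (Site d (k + 1))).card : ℝ) := by
  classical
  set G : Finset (Blk d k) := gr a b with hG
  set B : Finset (Site d (k + 1)) := bx a b with hB
  set S : Finset (Site d (k + 1)) := B.filter fun x => ¬ fol A₀ f x ∧ bdc a b x ≤ 1 with hS
  set g : Blk d k × (Bt d × Bt d) → Site d (k + 1) := fun i => pt i.1 i.2.1 i.2.2 with hg
  set c : Blk d k → ℕ := fun t => (univ.filter fun p : Bt d × Bt d => ¬ fol A₀ f (pt t p.1 p.2)).card with hc
  have h4d : ∀ t, (c t : ℝ) ≤ 4 ^ d := by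
    intro t
    have h1 : c t ≤ Fintype.card (Bt d × Bt d) := card_le_univ _
    have h2 : Fintype.card (Bt d × Bt d) = 4 ^ d := by
      rw [Fintype.card_prod, Fintype.card_pi, prod_const, card_univ, Fintype.card_fin, Fintype.card_bool,
        ← mul_pow]
      norm_num
    rw [h2] at h1
    exact_mod_cast h1
  -- lower bound
  have hlow : S.card * 2 ^ (d - 1) ≤ ∑ t ∈ G, c t := by
    have h1 : ∑ t ∈ G, c t = ((G ×ˢ (univ : Finset (Bt d × Bt d))).filter fun i => ¬ fol A₀ f (g i)).card := by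
      rw [card_filter, sum_product]
      refine sum_congr rfl fun t _ => ?_
      rw [hc]
      simp only [card_filter]
      rfl
    have h2 : ((G ×ˢ (univ : Finset (Bt d × Bt d))).filter fun i => g i ∈ S).card ≤
        ((G ×ˢ (univ : Finset (Bt d × Bt d))).filter fun i => ¬ fol A₀ f (g i)).card := by
      refine card_le_card fun i hi => ?_
      rw [mem_filter] at hi ⊢
      exact ⟨hi.1, (mem_filter.1 hi.2).2.1⟩
    rw [h1]
    refine le_trans ?_ h2
    rw [← sum_card_fiberwise_eq_card_filter, ← smul_eq_mul]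
    refine card_nsmul_le_sum _ _ _ fun x hx => ?_
    rw [hS, mem_filter] at hx
    refine E09_rep hab hx.1 hx.2.2 _ fun t α β ht hpt => ?_
    rw [mem_filter, mem_product]
    exact ⟨⟨ht, mem_univ _⟩, hpt⟩
  -- upper bound
  have hth0 : 0 ≤ th d := by
    unfold th
    positivity
  have hq0 : (0 : ℝ) ≤ q := Nat.cast_nonneg _
  have hup : (∑ t ∈ G, (c t : ℝ)) ≤ G.card * (4 ^ d * (q * th d / 2 + θ)) := by
    set Gd : Finset (Blk d k) := G.filter fun t => VG t f ∧ AL f t = A₀ with hGd
    have h1 : (1 - θ) * (G.card : ℝ) ≤ (Gd.card : ℝ) := by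
      have := hv
      unfold ald at this
      convert this
    have h2 : ∀ t ∈ Gd, (c t : ℝ) ≤ 4 ^ d * (q * th d / 2) := by
      intro t ht
      rw [hGd, mem_filter] at ht
      have h3 := def_block hd hq hth (E09_prB hab hf ht.1) ht.2.1 ht.2.2
      refine le_trans (le_of_eq ?_) h3
      rw [hc]
    have h3 : (∑ t ∈ G, (c t : ℝ)) = ∑ t ∈ Gd, (c t : ℝ) +
        ∑ t ∈ G.filter (fun t => ¬ (VG t f ∧ AL f t = A₀)), (c t : ℝ) := by
      rw [hGd, sum_filter_add_sum_filter_not]
    have h4 : ∑ t ∈ Gd, (c t : ℝ) ≤ Gd.card * (4 ^ d * (q * th d / 2)) := by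
      refine (sum_le_sum h2).trans ?_
      rw [sum_const, nsmul_eq_mul]
    have h5 : ∑ t ∈ G.filter (fun t => ¬ (VG t f ∧ AL f t = A₀)), (c t : ℝ) ≤
        (G.filter (fun t => ¬ (VG t f ∧ AL f t = A₀))).card * 4 ^ d := by
      refine (sum_le_sum fun t _ => h4d t).trans ?_
      rw [sum_const, nsmul_eq_mul]
    have h6 : (Gd.card : ℝ) + (G.filter (fun t => ¬ (VG t f ∧ AL f t = A₀))).card = G.card := by
      have := card_filter_add_card_filter_not (s := G) (fun t => VG t f ∧ AL f t = A₀)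
      rw [← this, Nat.cast_add]
    have h7 : ((G.filter (fun t => ¬ (VG t f ∧ AL f t = A₀))).card : ℝ) ≤ θ * G.card := by
      linarith
    have h8 : (Gd.card : ℝ) ≤ G.card := by
      exact_mod_cast card_le_card (filter_subset _ _)
    have h9 : (0 : ℝ) ≤ 4 ^ d := by positivity
    have h10 : (0 : ℝ) ≤ 4 ^ d * (q * th d / 2) := by positivity
    rw [h3]
    have h11 := mul_le_mul_of_nonneg_right h8 h10
    have h12 := mul_le_mul_of_nonneg_right h7 h9
    calc _ ≤ (G.card : ℝ) * (4 ^ d * (q * th d / 2)) + θ * G.card * 4 ^ d := by linarith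
      _ = _ := by ring
  -- volumes
  have hvol : (2 : ℝ) ^ d * G.card ≤ B.card := by
    have h1 : 2 ^ d * G.card ≤ B.card := by
      rw [hG, hB, card_gr hab, card_bx fun i => ⟨(hab i).2.2.1.le, by have := (hab i).2.2.2; omega⟩]
      have h2 : (2 : ℕ) ^ d = ∏ _i : Fin d, 2 := by
        rw [prod_const, card_univ, Fintype.card_fin]
      rw [h2, ← prod_mul_distrib]
      refine prod_le_prod' fun i _ => ?_
      omega
    exact_mod_cast h1
  have hfin : (S.card : ℝ) * 2 ^ (d - 1) ≤ G.card * (4 ^ d * (q * th d / 2 + θ)) := by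
    refine le_trans ?_ hup
    exact_mod_cast hlow
  have hpow : (4 : ℝ) ^ d = 2 ^ (d - 1) * (2 * 2 ^ d) := by
    have h1 : (2 : ℝ) ^ (d - 1) * 2 = 2 ^ d := by
      rw [← pow_succ]
      congr 1
      omega
    have h2 : (4 : ℝ) ^ d = 2 ^ d * 2 ^ d := by
      rw [← mul_pow]
      norm_num
    rw [h2, ← mul_assoc, h1]
  have h2p : (0 : ℝ) < 2 ^ (d - 1) := by positivity
  have hfin2 : (S.card : ℝ) ≤ G.card * (2 * 2 ^ d * (q * th d / 2 + θ)) := by
    rw [hpow] at hfin
    have h1 : (S.card : ℝ) * 2 ^ (d - 1) ≤ (G.card * (2 * 2 ^ d * (q * th d / 2 + θ))) * 2 ^ (d - 1) := by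
      calc _ ≤ _ := hfin
        _ = _ := by ring
    exact le_of_mul_le_mul_right h1 h2p
  have hc0 : 0 ≤ (q : ℝ) * th d + 2 * θ := by positivity
  calc (S.card : ℝ) ≤ G.card * (2 * 2 ^ d * (q * th d / 2 + θ)) := hfin2
    _ = (q * th d + 2 * θ) * (2 ^ d * G.card) := by ring
    _ ≤ (q * th d + 2 * θ) * B.card := mul_le_mul_of_nonneg_left hvol hc0

end Pool.Agent.COR
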