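import Pool.Agent.Lib_MP_2c424f_cor.E09
import Pool.Agent.Lib_MP_2c424f_cor.E03

/-!
# A layer with few defects (piece E10, (E3) first part)

`σ = (i, β)`; the layers `{x ∈ QB σ : x i = v}`, `v = b i + s + 1` resp. `a i - s - 1`, `s` odd, `h < s < 2h` (`h/2` values of `s`, `h` is even),
are disjoint, and `x i = v` is not a boundary coordinate of `QB σ` (`b i + 2 < v < b i + 2h + 2`).  By `def_box` (`θ = 1/d^11`,
`q th d ≤ 1/d^11`) one of them has at most `(2/h) (3/d^11) |QB σ| ≤ 30 W1/d^11` defects with `bdc ≤ 1` (`card_QB`).  The sites of the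
layer with `bdc ≥ 2` have two boundary coordinates `j ≠ l`, both `≠ i`: at most `d² · 4 · 2 (w + 4h + 5)^(d-3) ≤ 9 d² W1/w²` sites
(`num_up3`, one side may be double).  Total `≤ 30 W1/d^11 + 9 d² W1/w² ≤ W1/(2 d^9)`.
-/

set_option autoImplicit false

open Finset

namespace Pool.Agent.COR

open Pool.Agent.LO

/-- products of side lengths -/
private theorem E10_prod {d : ℕ} (L : Fin d → ℕ) (c : ℕ) (i₀ : Fin d) (h1 : ∀ m, m ≠ i₀ → L m ≤ c)
    (h2 : L i₀ ≤ 2 * c) (M : Finset (Fin d)) : ∏ m ∈ M, L m ≤ 2 * c ^ M.card := by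
  classical
  have h : ∀ m ∈ M, L m ≤ (if m = i₀ then 2 else 1) * c := by
    intro m _
    by_cases hm : m = i₀
    · rw [if_pos hm, hm]
      exact h2
    · rw [if_neg hm, one_mul]
      exact h1 m hm
  refine (Finset.prod_le_prod' h).trans ?_
  rw [Finset.prod_mul_distrib, Finset.prod_const]
  refine Nat.mul_le_mul_right _ ?_
  rw [Finset.prod_ite_eq' M i₀ (fun _ => 2)]
  split_ifs
  · exact le_rfl
  · norm_num

/-- side lengths of the shell boxes -/
private theorem E10_len {d K : ℕ} {a b : Fin d → ℕ} (hD : dbx d K a b) (σ : Stp d) :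
    ∃ i₀ : Fin d,
    (∀ m, m ≠ i₀ → qb d K a b σ m - qa d a b σ m + 1 ≤ wC d + 4 * hC d + 5) ∧
      qb d K a b σ i₀ - qa d a b σ i₀ + 1 ≤ 2 * (wC d + 4 * hC d + 5) := by
  obtain ⟨h1, i₀, h2⟩ := hD
  have hi : qb d K a b σ σ.1 - qa d a b σ σ.1 + 1 ≤ wC d + 4 * hC d + 5 := by
    unfold qb qa
    rw [Function.update_self, Function.update_self]
    split_ifs
    · omega
    · omega
  have hlen : ∀ m, m ≠ σ.1 → qb d K a b σ m - qa d a b σ m + 1 ≤ (b m - a m) + 4 * hC d + 5 := by
    intro m hm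
    have h3 := h1 m
    unfold qb qa
    rw [Function.update_of_ne hm, Function.update_of_ne hm]
    unfold elo ehi
    have h4 : min (nC d K) (b m + (2 * hC d + 2)) ≤ b m + (2 * hC d + 2) := min_le_right _ _
    omega
  refine ⟨i₀, fun m hm => ?_, ?_⟩
  · by_cases h3 : m = σ.1
    · rw [h3]
      exact hi
    · have h4 := hlen m h3
      have h5 := h2 m hm
      omega
  · by_cases h3 : i₀ = σ.1
    · have h6 := hi
      rw [← h3] at h6
      omega
    · have h4 := hlen i₀ h3
      have h5 := (h1 i₀).2.2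
      omega

open scoped Classical in
/-- the sites of a layer with at least two boundary coordinates -/
private theorem E10_cnt {d k : ℕ} {A B : Fin d → ℕ} (hAB : ∀ i, A i ≤ B i ∧ B i < 2 ^ (k + 1))
    (c : ℕ) (i₀ : Fin d) (h1 : ∀ m, m ≠ i₀ → B m - A m + 1 ≤ c) (h2 : B i₀ - A i₀ + 1 ≤ 2 * c)
    (i : Fin d) (v : ℕ) (hv : A i < v ∧ v < B i) :
    ((bx A B : Finset (Site d (k + 1))).filter fun x => (x i).val = v ∧ 2 ≤ bdc A B x).card ≤
      d * d * 4 * (2 * c ^ (d - 3)) := by
  let I : Finset ((Fin d × Fin d) × (Bool × Bool)) :=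
    univ.filter fun p => p.1.1 ≠ p.1.2 ∧ p.1.1 ≠ i ∧ p.1.2 ≠ i
  let A' : (Fin d × Fin d) × (Bool × Bool) → Fin d → ℕ := fun p m =>
    if m = p.1.2 then (if p.2.2 = true then B m else A m) else
      if m = p.1.1 then (if p.2.1 = true then B m else A m) else if m = i then v else A m
  let B' : (Fin d × Fin d) × (Bool × Bool) → Fin d → ℕ := fun p m =>
    if m = p.1.2 then (if p.2.2 = true then B m else A m) else
      if m = p.1.1 then (if p.2.1 = true then B m else A m) else if m = i then v else B m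
  have hsub : ((bx A B : Finset (Site d (k + 1))).filter fun x => (x i).val = v ∧ 2 ≤ bdc A B x) ⊆
      I.biUnion fun p => bx (A' p) (B' p) := by
    intro x hx
    rw [mem_filter] at hx
    obtain ⟨hx, hxi, hx2⟩ := hx
    have hx' : ∀ m, A m ≤ (x m).val ∧ (x m).val ≤ B m := (mem_filter.1 hx).2
    unfold bdc at hx2
    obtain ⟨j, hj, l, hl, hjl⟩ := Finset.one_lt_card.1 hx2
    have hj' := (mem_filter.1 hj).2
    have hl' := (mem_filter.1 hl).2
    have hji : j ≠ i := by
      rintro rfl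
      omega
    have hli : l ≠ i := by
      rintro rfl
      omega
    rw [mem_biUnion]
    refine ⟨((j, l), (decide ((x j).val = B j), decide ((x l).val = B l))), ?_, ?_⟩
    · exact mem_filter.2 ⟨mem_univ _, hjl, hji, hli⟩
    · unfold bx
      rw [mem_filter]
      refine ⟨mem_univ _, fun m => ?_⟩
      show (if m = l then (if decide ((x l).val = B l) = true then B m else A m) else
        if m = j then (if decide ((x j).val = B j) = true then B m else A m) else
          if m = i then v else A m) ≤ (x m).val ∧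
        (x m).val ≤ (if m = l then (if decide ((x l).val = B l) = true then B m else A m) else
        if m = j then (if decide ((x j).val = B j) = true then B m else A m) else
          if m = i then v else B m)
      by_cases e1 : m = l
      · subst e1
        rw [if_pos rfl]
        rw [if_pos rfl]
        by_cases e2 : (x m).val = B m
        · rw [if_pos (decide_eq_true e2), e2]
          exact ⟨le_rfl, le_rfl⟩
        · rw [if_neg (by simpa using e2)]
          have e3 : (x m).val = A m := hl'.resolve_right e2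
          rw [e3]
          exact ⟨le_rfl, le_rfl⟩
      · rw [if_neg e1, if_neg e1]
        by_cases e4 : m = j
        · subst e4
          rw [if_pos rfl, if_pos rfl]
          by_cases e2 : (x m).val = B m
          · rw [if_pos (decide_eq_true e2), e2]
            exact ⟨le_rfl, le_rfl⟩
          · rw [if_neg (by simpa using e2)]
            have e3 : (x m).val = A m := hj'.resolve_right e2
            rw [e3]
            exact ⟨le_rfl, le_rfl⟩
        · rw [if_neg e4, if_neg e4]
          by_cases e5 : m = i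
          · subst e5
            rw [if_pos rfl, if_pos rfl, hxi]
            exact ⟨le_rfl, le_rfl⟩
          · rw [if_neg e5, if_neg e5]
            exact hx' m
  have hcard : ∀ p ∈ I, (bx (A' p) (B' p) : Finset (Site d (k + 1))).card ≤ 2 * c ^ (d - 3) := by
    rintro ⟨⟨j, l⟩, β, β'⟩ hp
    obtain ⟨hjl, hji, hli⟩ := (mem_filter.1 hp).2
    have hjl : j ≠ l := hjl
    have hji : j ≠ i := hji
    have hli : l ≠ i := hli
    have hAB' : ∀ m, A' ((j, l), (β, β')) m ≤ B' ((j, l), (β, β')) m ∧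
        B' ((j, l), (β, β')) m < 2 ^ (k + 1) := by
      intro m
      have h3 := hAB m
      show (if m = l then (if β' = true then B m else A m) else
        if m = j then (if β = true then B m else A m) else if m = i then v else A m) ≤
        (if m = l then (if β' = true then B m else A m) else
        if m = j then (if β = true then B m else A m) else if m = i then v else B m) ∧
        (if m = l then (if β' = true then B m else A m) else
        if m = j then (if β = true then B m else A m) else if m = i then v else B m) < 2 ^ (k + 1)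
      by_cases e1 : m = l
      · simp only [if_pos e1]
        refine ⟨le_rfl, ?_⟩
        split_ifs <;> omega
      · simp only [if_neg e1]
        by_cases e2 : m = j
        · simp only [if_pos e2]
          refine ⟨le_rfl, ?_⟩
          split_ifs <;> omega
        · simp only [if_neg e2]
          by_cases e3 : m = i
          · subst e3
            simp only [if_true]
            exact ⟨le_rfl, by omega⟩
          · simp only [if_neg e3]
            exact h3
    rw [card_bx hAB']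
    have hM : ({l, j, i} : Finset (Fin d)).card = 3 := by
      rw [Finset.card_eq_three]
      exact ⟨l, j, i, hjl.symm, hli, hji, rfl⟩
    have hM' : (({l, j, i} : Finset (Fin d))ᶜ).card = d - 3 := by
      rw [Finset.card_compl, hM, Fintype.card_fin]
    have h3 : ∏ m, (B' ((j, l), (β, β')) m - A' ((j, l), (β, β')) m + 1) =
        ∏ m ∈ ({l, j, i} : Finset (Fin d))ᶜ, (B m - A m + 1) := by
      rw [← Finset.prod_subset (Finset.subset_univ (({l, j, i} : Finset (Fin d))ᶜ))]
      · refine Finset.prod_congr rfl fun m hm => ?_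
        rw [Finset.mem_compl, Finset.mem_insert, Finset.mem_insert, Finset.mem_singleton] at hm
        push Not at hm
        show (if m = l then (if β' = true then B m else A m) else
          if m = j then (if β = true then B m else A m) else if m = i then v else B m) -
          (if m = l then (if β' = true then B m else A m) else
          if m = j then (if β = true then B m else A m) else if m = i then v else A m) + 1 = _
        rw [if_neg hm.1, if_neg hm.2.1, if_neg hm.2.2, if_neg hm.1, if_neg hm.2.1, if_neg hm.2.2]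
      · intro m _ hm
        rw [Finset.mem_compl, not_not, Finset.mem_insert, Finset.mem_insert,
          Finset.mem_singleton] at hm
        show (if m = l then (if β' = true then B m else A m) else
          if m = j then (if β = true then B m else A m) else if m = i then v else B m) -
          (if m = l then (if β' = true then B m else A m) else
          if m = j then (if β = true then B m else A m) else if m = i then v else A m) + 1 = 1
        by_cases e1 : m = l
        · simp only [if_pos e1, Nat.sub_self]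
        · by_cases e2 : m = j
          · simp only [if_neg e1, if_pos e2, Nat.sub_self]
          · have e3 : m = i := (hm.resolve_left e1).resolve_left e2
            simp only [if_neg e1, if_neg e2, if_pos e3, Nat.sub_self]
    rw [h3, ← hM']
    exact E10_prod _ c i₀ h1 h2 _
  have hI : I.card ≤ d * d * 4 := by
    refine (Finset.card_le_univ I).trans ?_
    simp [Fintype.card_prod]
  calc _ ≤ (I.biUnion fun p => bx (A' p) (B' p)).card := Finset.card_le_card hsub
    _ ≤ ∑ p ∈ I, (bx (A' p) (B' p) : Finset (Site d (k + 1))).card := Finset.card_biUnion_le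
    _ ≤ ∑ _p ∈ I, 2 * c ^ (d - 3) := Finset.sum_le_sum hcard
    _ = I.card * (2 * c ^ (d - 3)) := by rw [Finset.sum_const, smul_eq_mul]
    _ ≤ d * d * 4 * (2 * c ^ (d - 3)) := Nat.mul_le_mul_right _ hI

/-- the arithmetic of the constants -/
private theorem E10_num {d q : ℕ} (hd : 10 ≤ d) (hq : AdmC d q) :
    (q : ℝ) * th d ≤ 1 / (d : ℝ) ^ 11 ∧ th d ≤ dl q := by
  have hd0 : (10 : ℝ) ≤ d := by exact_mod_cast hd
  have hq4 : (4 : ℝ) ≤ q := by exact_mod_cast hq.1
  have hlog : 1 ≤ Real.log d := by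
    rw [Real.le_log_iff_exp_le (by linarith)]
    have := Real.exp_one_lt_d9
    linarith
  have hqd : (q : ℝ) ≤ d := by
    have h1 := hq.2.2
    nlinarith
  have hdp : (0 : ℝ) < (d : ℝ) ^ 11 := by positivity
  have hdp12 : (0 : ℝ) < (d : ℝ) ^ 12 := by positivity
  constructor
  · unfold th
    rw [mul_one_div, div_le_div_iff₀ hdp12 hdp, one_mul]
    calc (q : ℝ) * (d : ℝ) ^ 11 ≤ d * (d : ℝ) ^ 11 := by gcongr
      _ = (d : ℝ) ^ 12 := by ring
  · unfold th dl
    apply one_div_le_one_div_of_le (by linarith)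
    have h2 : (100 : ℝ) ≤ (d : ℝ) ^ 11 := by
      calc (100 : ℝ) ≤ 10 ^ 11 := by norm_num
        _ ≤ (d : ℝ) ^ 11 := by gcongr
    calc 100 * (q : ℝ) ≤ (d : ℝ) ^ 11 * d := by gcongr
      _ = (d : ℝ) ^ 12 := by ring

/-- the final estimate -/
private theorem E10_fin {d : ℕ} (hd : 10 ≤ d) (W : ℝ) (hW : 0 ≤ W) :
    30 * W / (d : ℝ) ^ 11 + 4 * (d : ℝ) * d * (2 * (11 / 10 * W / (wC d : ℝ) ^ 2)) ≤
      W / (2 * (d : ℝ) ^ 9) := by
  have hd0 : (10 : ℝ) ≤ d := by exact_mod_cast hd
  have hd1 : (0 : ℝ) < d := by linarith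
  have hw : (wC d : ℝ) = 2 * (d : ℝ) ^ 33 := by
    unfold wC
    push_cast
    ring
  rw [hw]
  have h1 : 30 * W / (d : ℝ) ^ 11 ≤ W * (3 / 10) / (d : ℝ) ^ 9 := by
    rw [div_le_div_iff₀ (by positivity) (by positivity)]
    have h2 : (100 : ℝ) ≤ (d : ℝ) ^ 2 := by nlinarith
    have h3 : 0 ≤ W * (d : ℝ) ^ 9 := by positivity
    calc 30 * W * (d : ℝ) ^ 9 = 3 / 10 * (W * (d : ℝ) ^ 9) * 100 := by ring
      _ ≤ 3 / 10 * (W * (d : ℝ) ^ 9) * (d : ℝ) ^ 2 := by gcongr
      _ = W * (3 / 10) * (d : ℝ) ^ 11 := by ring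
  have h4 : 4 * (d : ℝ) * d * (2 * (11 / 10 * W / (2 * (d : ℝ) ^ 33) ^ 2)) ≤
      W * (1 / 10) / (d : ℝ) ^ 9 := by
    have h5 : 4 * (d : ℝ) * d * (2 * (11 / 10 * W / (2 * (d : ℝ) ^ 33) ^ 2)) =
        22 / 10 * W / (d : ℝ) ^ 64 := by
      field_simp
      ring
    rw [h5, div_le_div_iff₀ (by positivity) (by positivity)]
    have h2 : (22 : ℝ) ≤ (d : ℝ) ^ 55 := by
      calc (22 : ℝ) ≤ 10 ^ 55 := by norm_num
        _ ≤ (d : ℝ) ^ 55 := by gcongr
    calc 22 / 10 * W * (d : ℝ) ^ 9 = 1 / 10 * (W * (d : ℝ) ^ 9) * 22 := by ring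
      _ ≤ 1 / 10 * (W * (d : ℝ) ^ 9) * (d : ℝ) ^ 55 := by gcongr
      _ = W * (1 / 10) * (d : ℝ) ^ 64 := by ring
  calc _ ≤ W * (3 / 10) / (d : ℝ) ^ 9 + W * (1 / 10) / (d : ℝ) ^ 9 := add_le_add h1 h4
    _ ≤ W / (2 * (d : ℝ) ^ 9) := by
      rw [← add_div, div_le_div_iff₀ (by positivity) (by positivity)]
      have h3 : 0 ≤ W * (d : ℝ) ^ 9 := by positivity
      nlinarith

open scoped Classical in
theorem layer : ∃ d₀ : ℕ, ∀ d : ℕ, d₀ ≤ d → ∀ q : ℕ, AdmC d q → ∀ k K : ℕ, nC d K + 4 ≤ 2 ^ (k + 1) →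
    ∀ a b : Fin d → ℕ, dbx d K a b → ∀ A₀ : Finset (Fin q), ∀ σ ∈ sd d K a b,
    ∀ f : Site d (k + 1) → Fin q, PrV (QB d K k a b σ) f → ald (1 / (d : ℝ) ^ 11) A₀ (GQ d K k a b σ) f →
    ∃ s : ℕ, Odd s ∧ hC d < s ∧ s < 2 * hC d ∧
      (((QB d K k a b σ).filter fun x => ¬ fol A₀ f x ∧
        (x σ.1).val = if σ.2 then b σ.1 + s + 1 else a σ.1 - s - 1).card : ℝ) ≤ W1 d / (2 * (d : ℝ) ^ 9) := by
  refine ⟨10, fun d hd q hq k K hn a b hD A₀ σ hσ f hf hal => ?_⟩
  obtain ⟨hev, hlong⟩ := evb_q hd hn hD hσ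
  obtain ⟨hqt, hth⟩ := E10_num hd hq
  obtain ⟨i₀, hl1, hl2⟩ := E10_len hD σ
  have hAB : ∀ m, qa d a b σ m ≤ qb d K a b σ m ∧ qb d K a b σ m < 2 ^ (k + 1) := by
    intro m
    obtain ⟨-, -, h3, h4⟩ := hev m
    omega
  have hdpos : 1 ≤ d := by omega
  have hhC : hC d = 2 * d ^ 30 := rfl
  have hwC : wC d = 2 * d ^ 33 := rfl
  have hd30 : 1 ≤ d ^ 30 := Nat.one_le_pow _ _ (by omega)
  have hwh : 8 * hC d ≤ wC d := by
    rw [hhC, hwC]
    have h1 : d ^ 33 = d ^ 30 * d ^ 3 := by ring
    have h2 : 10 ^ 3 ≤ d ^ 3 := Nat.pow_le_pow_left hd 3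
    rw [h1]
    nlinarith
  -- the coordinate of the layer
  let v : ℕ → ℕ := fun s => if σ.2 then b σ.1 + s + 1 else a σ.1 - s - 1
  have hact := dbx_act hd hD σ.1
  have hs' := (mem_filter.1 hσ).2
  have hv : ∀ s, hC d < s → s < 2 * hC d → qa d a b σ σ.1 < v s ∧ v s < qb d K a b σ σ.1 := by
    intro s hs1 hs2
    show qa d a b σ σ.1 < (if σ.2 then b σ.1 + s + 1 else a σ.1 - s - 1) ∧
      (if σ.2 then b σ.1 + s + 1 else a σ.1 - s - 1) < qb d K a b σ σ.1
    unfold qa qb
    rw [Function.update_self, Function.update_self]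
    by_cases h1 : σ.2 = true
    · simp only [if_pos h1]
      omega
    · simp only [if_neg h1] at hs' ⊢
      have h2 := hact.1 hs'
      omega
  have hvinj : ∀ s s', s < 2 * hC d → s' < 2 * hC d → v s = v s' → s = s' := by
    intro s s' hs1 hs2 h
    have h' : (if σ.2 then b σ.1 + s + 1 else a σ.1 - s - 1) =
      (if σ.2 then b σ.1 + s' + 1 else a σ.1 - s' - 1) := h
    by_cases h1 : σ.2 = true
    · simp only [if_pos h1] at h'
      omega
    · simp only [if_neg h1] at hs' h'
      have h2 := hact.1 hs'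
      omega
  -- the defects with at most one boundary coordinate
  let F : Finset (Site d (k + 1)) := (QB d K k a b σ).filter fun x => ¬ fol A₀ f x ∧
    bdc (qa d a b σ) (qb d K a b σ) x ≤ 1
  have hF : (F.card : ℝ) ≤ (q * th d + 2 * (1 / (d : ℝ) ^ 11)) * ((QB d K k a b σ).card : ℝ) :=
    def_box hdpos (by have := hq.1; omega) hth hev hf (1 / (d : ℝ) ^ 11) (by positivity) hal
  have hF2 : (F.card : ℝ) ≤ ∑ _m ∈ Finset.range (d ^ 30), 30 * W1 d / (d : ℝ) ^ 11 := by
    have h1 := card_QB hd hn hD hσ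
    have hd11 : (0 : ℝ) < (d : ℝ) ^ 11 := by positivity
    rw [Finset.sum_const, Finset.card_range, nsmul_eq_mul]
    calc (F.card : ℝ) ≤ (q * th d + 2 * (1 / (d : ℝ) ^ 11)) * ((QB d K k a b σ).card : ℝ) := hF
      _ ≤ (1 / (d : ℝ) ^ 11 + 2 * (1 / (d : ℝ) ^ 11)) * (5 * hC d * W1 d) :=
        mul_le_mul (add_le_add hqt le_rfl) h1 (Nat.cast_nonneg _) (by positivity)
      _ = ((d ^ 30 : ℕ) : ℝ) * (30 * W1 d / (d : ℝ) ^ 11) := by
        rw [hhC]
        push_cast
        ring
  let Fm : ℕ → Finset (Site d (k + 1)) := fun m => F.filter fun x =>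
    (x σ.1).val = v (hC d + 2 * m + 1)
  have hmlt : ∀ m ∈ Finset.range (d ^ 30), hC d < hC d + 2 * m + 1 ∧
      hC d + 2 * m + 1 < 2 * hC d := by
    intro m hm
    have h1 := Finset.mem_range.1 hm
    omega
  have hdisj : (∑ m ∈ Finset.range (d ^ 30), (Fm m).card) ≤ F.card := by
    rw [← Finset.card_biUnion]
    · refine Finset.card_le_card ?_
      intro x hx
      obtain ⟨m, -, hx⟩ := Finset.mem_biUnion.1 hx
      exact (Finset.mem_filter.1 hx).1
    · intro m hm m' hm' hne
      rw [Function.onFun, Finset.disjoint_left]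
      intro x hx hx'
      have h1 := (Finset.mem_filter.1 hx).2
      have h2 := (Finset.mem_filter.1 hx').2
      rw [h1] at h2
      have h3 := hvinj _ _ (hmlt m hm).2 (hmlt m' hm').2 h2
      omega
  have hsum : ∑ m ∈ Finset.range (d ^ 30), ((Fm m).card : ℝ) ≤
      ∑ _m ∈ Finset.range (d ^ 30), 30 * W1 d / (d : ℝ) ^ 11 := by
    refine le_trans ?_ hF2
    rw [← Nat.cast_sum]
    exact_mod_cast hdisj
  obtain ⟨m, hm, hmF⟩ := Finset.exists_le_of_sum_le
    (Finset.nonempty_range_iff.2 (by omega)) hsum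
  obtain ⟨hs1, hs2⟩ := hmlt m hm
  refine ⟨hC d + 2 * m + 1, ⟨d ^ 30 + m, by rw [hhC]; ring⟩, hs1, hs2, ?_⟩
  -- the two parts
  have hcnt := E10_cnt (k := k) hAB _ i₀ hl1 hl2 σ.1 (v (hC d + 2 * m + 1)) (hv _ hs1 hs2)
  have hsub : ((QB d K k a b σ).filter fun x => ¬ fol A₀ f x ∧
      (x σ.1).val = if σ.2 then b σ.1 + (hC d + 2 * m + 1) + 1 else
        a σ.1 - (hC d + 2 * m + 1) - 1) ⊆ Fm m ∪
      ((bx (qa d a b σ) (qb d K a b σ) : Finset (Site d (k + 1))).filter fun x =>
        (x σ.1).val = v (hC d + 2 * m + 1) ∧ 2 ≤ bdc (qa d a b σ) (qb d K a b σ) x) := by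
    intro x hx
    obtain ⟨hx1, hx2, hx3⟩ := mem_filter.1 hx
    rw [mem_union]
    by_cases h1 : bdc (qa d a b σ) (qb d K a b σ) x ≤ 1
    · exact Or.inl (mem_filter.2 ⟨mem_filter.2 ⟨hx1, hx2, h1⟩, hx3⟩)
    · exact Or.inr (mem_filter.2 ⟨hx1, hx3, by omega⟩)
  have hcnt' : ((((bx (qa d a b σ) (qb d K a b σ) : Finset (Site d (k + 1))).filter fun x =>
        (x σ.1).val = v (hC d + 2 * m + 1) ∧ 2 ≤ bdc (qa d a b σ) (qb d K a b σ) x).card : ℕ) : ℝ) ≤
      4 * (d : ℝ) * d * (2 * (11 / 10 * W1 d / (wC d : ℝ) ^ 2)) := by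
    have h1 := num_up3 hd
    calc ((((bx (qa d a b σ) (qb d K a b σ) : Finset (Site d (k + 1))).filter fun x =>
        (x σ.1).val = v (hC d + 2 * m + 1) ∧ 2 ≤ bdc (qa d a b σ) (qb d K a b σ) x).card : ℕ) : ℝ) ≤
        ((d * d * 4 * (2 * (wC d + 4 * hC d + 5) ^ (d - 3)) : ℕ) : ℝ) := by exact_mod_cast hcnt
      _ = 4 * (d : ℝ) * d * (2 * ((wC d : ℝ) + 4 * hC d + 5) ^ (d - 3)) := by
        push_cast
        ring
      _ ≤ 4 * (d : ℝ) * d * (2 * (11 / 10 * W1 d / (wC d : ℝ) ^ 2)) := by gcongr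
  have hW : 0 ≤ W1 d := by
    unfold W1
    positivity
  have hle := (Finset.card_le_card hsub).trans (Finset.card_union_le _ _)
  calc _ ≤ ((Fm m).card : ℝ) + ((((bx (qa d a b σ) (qb d K a b σ) :
        Finset (Site d (k + 1))).filter fun x =>
        (x σ.1).val = v (hC d + 2 * m + 1) ∧
          2 ≤ bdc (qa d a b σ) (qb d K a b σ) x).card : ℕ) : ℝ) := by exact_mod_cast hle
    _ ≤ 30 * W1 d / (d : ℝ) ^ 11 + 4 * (d : ℝ) * d * (2 * (11 / 10 * W1 d / (wC d : ℝ) ^ 2)) :=
      add_le_add hmF hcnt'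
    _ ≤ W1 d / (2 * (d : ℝ) ^ 9) := E10_fin hd (W1 d) hW

end Pool.Agent.COR
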