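import Pool.Agent.Lib_MP_2c424f_cor.E03

/-!
# Geometry of the surgery region (piece E11)

`S = SB s` (`okS d s`): in direction `i` it is enlarged by `s (i,±)` (between `h` and `2h`) on the active sides; on an inactive side `D` (and
`S`) touches the boundary of `G`.  `R` does not meet `bx (elo a) (ehi b) ⊇ S`.
`bdo_sub`: a site `y ∈ V \ S` (so `y ∈ G`) adjacent to `x ∈ S`: `y = x ± e_i`, `y i = sb i + 1` (then the side is active, otherwise
`y i = n + 1`) or `y i = sa i - 1`, the other coordinates are those of `x`.
`card_bdo`: `2d` faces of at most `2 (w + 4h + 5)^(d-1) ≤ 2.2 W1` sites.  `card_shell`: `S \ D` is the union over `σ` of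
`{x ∈ S : x i > b i}` or `{x i < a i}`: at most `2d · 2h · 2.2 W1`.
-/

set_option autoImplicit false

open Finset

namespace Pool.Agent.COR

open Pool.Agent.LO

variable {d K k : ℕ} {a b : Fin d → ℕ}

private theorem E11_num (hd : 10 ≤ d) : 1 ≤ hC d ∧ 10 * hC d ≤ wC d := by
  unfold hC wC
  have h1 : 1 ≤ d ^ 30 := Nat.one_le_pow _ _ (by omega)
  have h2 : d ^ 33 = d ^ 3 * d ^ 30 := by rw [← pow_add]
  have h3 : 1000 ≤ d ^ 3 := by
    calc 1000 = 10 ^ 3 := by norm_num
      _ ≤ d ^ 3 := Nat.pow_le_pow_left hd 3
  constructor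
  · omega
  · rw [h2]
    nlinarith

private theorem E11_mem {a b : Fin d → ℕ} {x : Site d (k + 1)} :
    x ∈ bx a b ↔ ∀ i, a i ≤ (x i).val ∧ (x i).val ≤ b i := by
  unfold bx
  rw [mem_filter]
  exact and_iff_right (mem_univ _)

private theorem E11_cor (hd : 10 ≤ d) (hD : dbx d K a b) {s : Stp d → ℕ} (hs : okS d s)
    (i : Fin d) : sa a s i ≤ a i ∧ b i ≤ sb (nC d K) b s i ∧ sb (nC d K) b s i ≤ nC d K ∧
      elo d a i ≤ sa a s i ∧ sb (nC d K) b s i ≤ ehi d K b i := by
  have h1 := dbx_act hd hD i
  have h2 := (hD.1 i).2.1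
  have h3 := (hs (i, false)).2
  have h4 := (hs (i, true)).2
  have h5 := E11_num hd
  unfold sa sb elo ehi
  split_ifs <;> omega

private theorem E11_val (x : ZMod (2 ^ (k + 1))) (h : x.val + 1 < 2 ^ (k + 1)) :
    (x + 1).val = x.val + 1 := by
  have h1 : x + 1 = ((x.val + 1 : ℕ) : ZMod (2 ^ (k + 1))) := by
    rw [Nat.cast_add, Nat.cast_one, ZMod.natCast_zmod_val]
  rw [h1, ZMod.val_natCast, Nat.mod_eq_of_lt h]

private theorem E11_W1 : 0 ≤ W1 d := by
  unfold W1
  positivity

/-- faces and slabs of the neighbourhood of `D` -/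
private theorem E11_slab (hd : 10 ≤ d) (hn : nC d K + 4 ≤ 2 ^ (k + 1)) (hD : dbx d K a b)
    (i : Fin d) {c c' : ℕ} (hc : c ≤ c') (hc' : c' < 2 ^ (k + 1)) :
    ((bx (Function.update (elo d a) i c) (Function.update (ehi d K b) i c') :
      Finset (Site d (k + 1))).card : ℝ) ≤ ((c' - c + 1 : ℕ) : ℝ) * (11 / 5 * W1 d) := by
  have h0 : ∀ j, elo d a j ≤ ehi d K b j ∧ ehi d K b j < 2 ^ (k + 1) := by
    intro j
    have h1 := dbx_act hd hD j
    have h2 := (hD.1 j).2.1
    unfold elo ehi
    omega
  rw [card_bx (fun j => by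
    by_cases hj : j = i
    · subst hj
      rw [Function.update_self, Function.update_self]
      exact ⟨hc, hc'⟩
    · rw [Function.update_of_ne hj, Function.update_of_ne hj]
      exact h0 j)]
  rw [← mul_prod_erase univ _ (mem_univ i), Function.update_self, Function.update_self]
  push_cast
  refine mul_le_mul_of_nonneg_left ?_ (by positivity)
  obtain ⟨i₀, hi₀⟩ := hD.2
  have h1 : ∀ j ∈ univ.erase i,
      ((Function.update (ehi d K b) i c' j - Function.update (elo d a) i c j : ℕ) : ℝ) + 1 ≤
        (if j = i₀ then 2 else 1) * ((wC d : ℝ) + 4 * hC d + 5) := by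
    intro j hj
    rw [Function.update_of_ne (ne_of_mem_erase hj), Function.update_of_ne (ne_of_mem_erase hj)]
    have h2 := dbx_act hd hD j
    split_ifs with hj0
    · have h3 : ehi d K b j - elo d a j + 1 ≤ 2 * (wC d + 4 * hC d + 5) := by
        unfold elo ehi
        omega
      exact_mod_cast h3
    · have h4 := hi₀ j hj0
      have h3 : ehi d K b j - elo d a j + 1 ≤ 1 * (wC d + 4 * hC d + 5) := by
        unfold elo ehi
        omega
      exact_mod_cast h3
  have h5 : ∏ j ∈ univ.erase i, ((if j = i₀ then 2 else 1 : ℝ)) ≤ 2 := by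
    rw [Finset.prod_ite_eq']
    split_ifs <;> norm_num
  calc ∏ j ∈ univ.erase i,
      (((Function.update (ehi d K b) i c' j - Function.update (elo d a) i c j : ℕ) : ℝ) + 1)
      ≤ ∏ j ∈ univ.erase i, ((if j = i₀ then 2 else 1) * ((wC d : ℝ) + 4 * hC d + 5)) :=
        prod_le_prod (fun j _ => by positivity) h1
    _ = (∏ j ∈ univ.erase i, (if j = i₀ then 2 else 1 : ℝ)) *
          ((wC d : ℝ) + 4 * hC d + 5) ^ (d - 1) := by
        rw [prod_mul_distrib, prod_const, card_erase_of_mem (mem_univ i), card_univ,
          Fintype.card_fin]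
    _ ≤ 2 * (11 / 10 * W1 d) := by
        refine mul_le_mul h5 (num_up hd) (by positivity) (by norm_num)
    _ = 11 / 5 * W1 d := by ring

theorem SB_sub (hd : 10 ≤ d) (hn : nC d K + 4 ≤ 2 ^ (k + 1)) (hD : dbx d K a b) {s : Stp d → ℕ} (hs : okS d s) :
    bx a b ⊆ SB d K k a b s ∧ SB d K k a b s ⊆ GB d K k ∧ SB d K k a b s ⊆ bx (elo d a) (ehi d K b) := by
  refine ⟨fun x hx => ?_, fun x hx => ?_, fun x hx => ?_⟩
  · rw [SB, E11_mem]
    rw [E11_mem] at hx
    intro i
    have h1 := E11_cor hd hD hs i
    have h2 := hx i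
    omega
  · rw [GB, E11_mem]
    rw [SB, E11_mem] at hx
    intro i
    have h1 := E11_cor hd hD hs i
    have h2 := hx i
    omega
  · rw [E11_mem]
    rw [SB, E11_mem] at hx
    intro i
    have h1 := E11_cor hd hD hs i
    have h2 := hx i
    omega

/-- the outer boundary lies in the layers -/
theorem bdo_sub (hd : 10 ≤ d) (hn : nC d K + 4 ≤ 2 ^ (k + 1)) (hD : dbx d K a b) {s : Stp d → ℕ} (hs : okS d s)
    {V : Finset (Site d (k + 1))} (hV : V ⊆ GB d K k) {y : Site d (k + 1)} (hy : y ∈ bdo V (SB d K k a b s)) :
    ∃ σ ∈ sd d K a b, y ∈ QB d K k a b σ ∧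
      (y σ.1).val = if σ.2 then b σ.1 + s σ + 1 else a σ.1 - s σ - 1 := by
  unfold bdo at hy
  rw [mem_filter, mem_sdiff] at hy
  obtain ⟨⟨hyV, hyS⟩, x, hx, ⟨i, e⟩, hxy⟩ := hy
  have hyG := hV hyV
  rw [GB, E11_mem] at hyG
  have hxG := (SB_sub hd hn hD hs).2.1 hx
  have hxE := (SB_sub hd hn hD hs).2.2 hx
  rw [GB, E11_mem] at hxG
  rw [E11_mem] at hxE
  rw [SB, E11_mem] at hx
  have hne : ∀ j, j ≠ i → y j = x j := by
    intro j hj
    rw [hxy, Pi.add_apply, sv, Pi.single_eq_of_ne hj, add_zero]
  have hyi : y i = x i + (if e then 1 else -1) := by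
    rw [hxy, Pi.add_apply, sv, Pi.single_eq_same]
  have hcor := E11_cor hd hD hs i
  have hact := dbx_act hd hD i
  have hnum := E11_num hd
  have h2 := (hD.1 i).2.1
  -- the other coordinates are in the range, so coordinate `i` is not
  have hout : ¬ (sa a s i ≤ (y i).val ∧ (y i).val ≤ sb (nC d K) b s i) := by
    intro h
    apply hyS
    rw [SB, E11_mem]
    intro j
    by_cases hj : j = i
    · rw [hj]
      exact h
    · rw [hne j hj]
      exact hx j
  have hxi := hx i
  have hyGi := (hyG i).2
  have hxGi := (hxG i).2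
  cases e with
  | true =>
    have hv : (y i).val = (x i).val + 1 := by
      rw [hyi, if_pos rfl]
      exact E11_val _ (by omega)
    have hs' := hs (i, true)
    have hb : b i < nC d K := by
      by_contra h
      apply hout
      have : sb (nC d K) b s i = b i := by
        unfold sb
        rw [if_neg h]
      omega
    have hsb : sb (nC d K) b s i = b i + s (i, true) := by
      unfold sb
      rw [if_pos hb]
    have hval : (y i).val = b i + s (i, true) + 1 := by omega
    refine ⟨(i, true), ?_, ?_, ?_⟩
    · unfold sd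
      rw [mem_filter]
      exact ⟨mem_univ _, by simpa using hb⟩
    · rw [QB, E11_mem]
      intro j
      unfold qa qb
      by_cases hj : j = i
      · subst hj
        simp only [Function.update_self, if_true]
        omega
      · simp only [Function.update_of_ne hj]
        rw [hne j hj]
        exact hxE j
    · simpa using hval
  | false =>
    have hv : (x i).val = (y i).val + 1 := by
      have h3 : x i = y i + 1 := by
        rw [hyi]
        simp
      rw [h3]
      exact E11_val _ (by omega)
    have hs' := hs (i, false)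
    have ha : 0 < a i := by
      by_contra h
      have : sa a s i = a i := by
        unfold sa
        rw [if_neg h]
      apply hout
      omega
    have hsa : sa a s i = a i - s (i, false) := by
      unfold sa
      rw [if_pos ha]
    have hval : (y i).val = a i - s (i, false) - 1 := by omega
    refine ⟨(i, false), ?_, ?_, ?_⟩
    · unfold sd
      rw [mem_filter]
      exact ⟨mem_univ _, by simpa using ha⟩
    · rw [QB, E11_mem]
      intro j
      unfold qa qb
      by_cases hj : j = i
      · subst hj
        simp only [Function.update_self, Bool.false_eq_true, if_false]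
        omega
      · simp only [Function.update_of_ne hj]
        rw [hne j hj]
        exact hxE j
    · simpa using hval

private theorem E11_sum (hd : 10 ≤ d) (n : ℝ) (hn0 : 0 ≤ n) (T : Stp d → Finset (Site d (k + 1)))
    (hT : ∀ σ ∈ sd d K a b, ((T σ).card : ℝ) ≤ n) {B : Finset (Site d (k + 1))}
    (hB : ∀ x ∈ B, ∃ σ ∈ sd d K a b, x ∈ T σ) : (B.card : ℝ) ≤ 2 * d * n := by
  classical
  have h1 : B ⊆ (sd d K a b).biUnion T := by
    intro x hx
    rw [mem_biUnion]
    exact hB x hx
  have h2 : (B.card : ℝ) ≤ ∑ σ ∈ sd d K a b, ((T σ).card : ℝ) := by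
    exact_mod_cast (card_le_card h1).trans card_biUnion_le
  have h3 : ((sd d K a b).card : ℝ) ≤ 2 * d := by
    have h4 : (sd d K a b).card ≤ Fintype.card (Stp d) := card_le_univ _
    rw [Fintype.card_prod, Fintype.card_fin, Fintype.card_bool] at h4
    have h5 : ((sd d K a b).card : ℝ) ≤ ((d * 2 : ℕ) : ℝ) := by exact_mod_cast h4
    rw [Nat.cast_mul, Nat.cast_two] at h5
    linarith
  calc (B.card : ℝ) ≤ ∑ σ ∈ sd d K a b, ((T σ).card : ℝ) := h2
    _ ≤ ∑ σ ∈ sd d K a b, n := sum_le_sum hT
    _ = (sd d K a b).card * n := by rw [sum_const, nsmul_eq_mul]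
    _ ≤ 2 * d * n := mul_le_mul_of_nonneg_right h3 hn0

theorem card_bdo (hd : 10 ≤ d) (hn : nC d K + 4 ≤ 2 ^ (k + 1)) (hD : dbx d K a b) {s : Stp d → ℕ} (hs : okS d s)
    {V : Finset (Site d (k + 1))} (hV : V ⊆ GB d K k) :
    ((bdo V (SB d K k a b s)).card : ℝ) ≤ 5 * d * W1 d := by
  have hW : 0 ≤ W1 d := E11_W1
  have h1 := E11_sum (K := K) (a := a) (b := b) hd (11 / 5 * W1 d) (by positivity)
    (fun σ => bx (Function.update (elo d a) σ.1 (if σ.2 then b σ.1 + s σ + 1 else a σ.1 - s σ - 1))
      (Function.update (ehi d K b) σ.1 (if σ.2 then b σ.1 + s σ + 1 else a σ.1 - s σ - 1))) (by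
      rintro ⟨i, e⟩ hσ
      have h2 := E11_slab (k := k) hd hn hD i (le_refl
        (if e then b i + s (i, e) + 1 else a i - s (i, e) - 1)) (by
          have hact := dbx_act hd hD i
          have hb := (hD.1 i).2.1
          have hnum := E11_num hd
          have hs' := (hs (i, e)).2
          cases e with
          | true =>
            unfold sd at hσ
            rw [mem_filter] at hσ
            have h3 : b i < nC d K := by simpa using hσ.2
            simp only [if_true]
            omega
          | false =>
            simp only [Bool.false_eq_true, if_false]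
            omega)
      rw [Nat.sub_self, zero_add, Nat.cast_one, one_mul] at h2
      exact h2) (B := bdo V (SB d K k a b s)) (by
      intro y hy
      obtain ⟨σ, hσ, hyQ, hyv⟩ := bdo_sub hd hn hD hs hV hy
      refine ⟨σ, hσ, ?_⟩
      rw [E11_mem]
      rw [QB, E11_mem] at hyQ
      intro j
      by_cases hj : j = σ.1
      · subst hj
        simp only [Function.update_self]
        rw [hyv]
        exact ⟨le_rfl, le_rfl⟩
      · have h2 := hyQ j
        unfold qa qb at h2
        simp only [Function.update_of_ne hj] at h2 ⊢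
        exact h2)
  have hd0 : (0 : ℝ) ≤ d := Nat.cast_nonneg d
  have h3 : (0 : ℝ) ≤ d * W1 d := mul_nonneg hd0 hW
  calc ((bdo V (SB d K k a b s)).card : ℝ) ≤ 2 * d * (11 / 5 * W1 d) := h1
    _ = 22 / 5 * (d * W1 d) := by ring
    _ ≤ 5 * (d * W1 d) := by linarith
    _ = 5 * d * W1 d := by ring

theorem card_shell (hd : 10 ≤ d) (hn : nC d K + 4 ≤ 2 ^ (k + 1)) (hD : dbx d K a b) {s : Stp d → ℕ}
    (hs : okS d s) : ((SB d K k a b s \ bx a b).card : ℝ) ≤ 10 * d * hC d * W1 d := by
  have hW : 0 ≤ W1 d := E11_W1
  have h1 := E11_sum (K := K) (a := a) (b := b) hd (2 * hC d * (11 / 5 * W1 d)) (by positivity)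
    (fun σ => bx (Function.update (elo d a) σ.1 (if σ.2 then b σ.1 + 1 else a σ.1 - s σ))
      (Function.update (ehi d K b) σ.1 (if σ.2 then b σ.1 + s σ else a σ.1 - 1))) (by
      rintro ⟨i, e⟩ hσ
      have hact := dbx_act hd hD i
      have hb := (hD.1 i).2.1
      have hnum := E11_num hd
      have hs' := (hs (i, e)).2
      unfold sd at hσ
      rw [mem_filter] at hσ
      cases e with
      | true =>
        have h3 : b i < nC d K := by simpa using hσ.2
        have h2 := E11_slab (k := k) hd hn hD i (show b i + 1 ≤ b i + s (i, true) by omega)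
          (by omega)
        have h4 : ((b i + s (i, true) - (b i + 1) + 1 : ℕ) : ℝ) ≤ 2 * hC d := by
          have : b i + s (i, true) - (b i + 1) + 1 ≤ 2 * hC d := by omega
          exact_mod_cast this
        exact h2.trans (mul_le_mul_of_nonneg_right h4 (by positivity))
      | false =>
        have h3 : 0 < a i := by simpa using hσ.2
        have h2 := E11_slab (k := k) hd hn hD i (show a i - s (i, false) ≤ a i - 1 by omega)
          (by omega)
        have h4 : ((a i - 1 - (a i - s (i, false)) + 1 : ℕ) : ℝ) ≤ 2 * hC d := by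
          have : a i - 1 - (a i - s (i, false)) + 1 ≤ 2 * hC d := by omega
          exact_mod_cast this
        exact h2.trans (mul_le_mul_of_nonneg_right h4 (by positivity)))
      (B := SB d K k a b s \ bx a b) (by
      intro x hx
      rw [mem_sdiff] at hx
      have hxE := (SB_sub hd hn hD hs).2.2 hx.1
      rw [E11_mem] at hxE
      have hx1 := hx.1
      have hx2 := hx.2
      rw [SB, E11_mem] at hx1
      rw [E11_mem] at hx2
      push Not at hx2
      obtain ⟨i, hi⟩ := hx2
      have hxi := hx1 i
      by_cases hlo : a i ≤ (x i).val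
      · have hup := hi hlo
        have hb : b i < nC d K := by
          by_contra h
          have : sb (nC d K) b s i = b i := by
            unfold sb
            rw [if_neg h]
          omega
        have hsb : sb (nC d K) b s i = b i + s (i, true) := by
          unfold sb
          rw [if_pos hb]
        refine ⟨(i, true), ?_, ?_⟩
        · unfold sd
          rw [mem_filter]
          exact ⟨mem_univ _, by simpa using hb⟩
        · rw [E11_mem]
          intro j
          by_cases hj : j = i
          · subst hj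
            simp only [Function.update_self, if_true]
            omega
          · simp only [Function.update_of_ne hj]
            exact hxE j
      · have ha : 0 < a i := by omega
        have hsa : sa a s i = a i - s (i, false) := by
          unfold sa
          rw [if_pos ha]
        refine ⟨(i, false), ?_, ?_⟩
        · unfold sd
          rw [mem_filter]
          exact ⟨mem_univ _, by simpa using ha⟩
        · rw [E11_mem]
          intro j
          by_cases hj : j = i
          · subst hj
            simp only [Function.update_self, Bool.false_eq_true, if_false]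
            omega
          · simp only [Function.update_of_ne hj]
            exact hxE j)
  have hd0 : (0 : ℝ) ≤ d := Nat.cast_nonneg d
  have hh0 : (0 : ℝ) ≤ hC d := Nat.cast_nonneg _
  have h3 : (0 : ℝ) ≤ d * (hC d * W1 d) := mul_nonneg hd0 (mul_nonneg hh0 hW)
  calc ((SB d K k a b s \ bx a b).card : ℝ) ≤ 2 * d * (2 * hC d * (11 / 5 * W1 d)) := h1
    _ = 44 / 5 * (d * (hC d * W1 d)) := by ring
    _ ≤ 10 * (d * (hC d * W1 d)) := by linarith
    _ = 10 * d * hC d * W1 d := by ring

end Pool.Agent.COR
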