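import Pool.Agent.Lib_MP_2c424f_cor.E10
import Pool.Agent.Lib_MP_2c424f_cor.E11

/-!
# Choice of the surgery region (piece E12, (E3))

`layer` for every active side gives `s σ` (put `s σ = h + 1` for the other sides); a defect in `bdo V (SB s)` lies in one of the layers
(`bdo_sub`), and `QB σ ⊆ V₁`: at most `2d · W1/(2 d^9) = W1/d^8`.
-/

set_option autoImplicit false

open Finset

namespace Pool.Agent.COR

open Pool.Agent.LO

private theorem E12_h {d : ℕ} (hd : 10 ≤ d) : Odd (hC d + 1) ∧ hC d < hC d + 1 ∧ hC d + 1 < 2 * hC d := by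
  have h1 : 1 ≤ d ^ 30 := Nat.one_le_pow _ _ (by omega)
  refine ⟨⟨d ^ 30, rfl⟩, ?_, ?_⟩ <;> unfold hC <;> omega

private theorem E12_W1 (d : ℕ) : 0 ≤ W1 d := by
  unfold W1
  positivity

open scoped Classical in
theorem choose_s : ∃ d₀ : ℕ, ∀ d : ℕ, d₀ ≤ d → ∀ q : ℕ, AdmC d q → ∀ k K : ℕ, nC d K + 4 ≤ 2 ^ (k + 1) →
    ∀ a b : Fin d → ℕ, dbx d K a b → ∀ A₀ : Finset (Fin q),
    ∀ V : Finset (Site d (k + 1)), V ⊆ GB d K k → (∀ σ ∈ sd d K a b, QB d K k a b σ ⊆ V \ bx a b) →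
    ∀ f : Site d (k + 1) → Fin q, PrV (V \ bx a b) f →
    (∀ σ ∈ sd d K a b, ald (1 / (d : ℝ) ^ 11) A₀ (GQ d K k a b σ) f) →
    ∃ s : Stp d → ℕ, okS d s ∧
      (((bdo V (SB d K k a b s)).filter fun y => ¬ fol A₀ f y).card : ℝ) ≤ W1 d / (d : ℝ) ^ 8 := by
  obtain ⟨d₀, hd₀⟩ := layer
  refine ⟨max d₀ 10, fun d hd q hq k K hk a b hD A₀ V hV hQ f hf hald => ?_⟩
  have hd1 : d₀ ≤ d := le_trans (le_max_left _ _) hd
  have hd2 : 10 ≤ d := le_trans (le_max_right _ _) hd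
  have h1 : ∀ σ : Stp d, ∃ (s : ℕ) (T : Finset (Site d (k + 1))), (Odd s ∧ hC d < s ∧ s < 2 * hC d) ∧
      (T.card : ℝ) ≤ W1 d / (2 * (d : ℝ) ^ 9) ∧
      (σ ∈ sd d K a b → ∀ y ∈ QB d K k a b σ, ¬ fol A₀ f y →
        ((y σ.1).val = if σ.2 then b σ.1 + s + 1 else a σ.1 - s - 1) → y ∈ T) := by
    intro σ
    by_cases hσ : σ ∈ sd d K a b
    · have hpr : PrV (QB d K k a b σ) f := by
        intro x hx τ hτ
        exact hf x (hQ σ hσ hx) τ (hQ σ hσ hτ)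
      obtain ⟨s, hs1, hs2, hs3, hs4⟩ := hd₀ d hd1 q hq k K hk a b hD A₀ σ hσ f hpr (hald σ hσ)
      refine ⟨s, _, ⟨hs1, hs2, hs3⟩, hs4, ?_⟩
      intro _ y hy1 hy2 hy3
      exact Finset.mem_filter.2 ⟨hy1, hy2, hy3⟩
    · refine ⟨hC d + 1, ∅, E12_h hd2, ?_, fun h => absurd h hσ⟩
      rw [Finset.card_empty, Nat.cast_zero]
      exact div_nonneg (E12_W1 d) (by positivity)
  choose s T hs hT1 hT2 using h1
  refine ⟨s, hs, ?_⟩
  have h2 : ((bdo V (SB d K k a b s)).filter fun y => ¬ fol A₀ f y) ⊆ Finset.univ.biUnion T := by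
    intro y hy
    rw [Finset.mem_filter] at hy
    obtain ⟨σ, hσ, hy1, hy2⟩ := bdo_sub hd2 hk hD hs hV hy.1
    exact Finset.mem_biUnion.2 ⟨σ, Finset.mem_univ _, hT2 σ hσ y hy1 hy.2 hy2⟩
  have h3 : (((bdo V (SB d K k a b s)).filter fun y => ¬ fol A₀ f y).card : ℝ) ≤
      ∑ σ : Stp d, ((T σ).card : ℝ) := by
    have h4 := (Finset.card_le_card h2).trans Finset.card_biUnion_le
    exact_mod_cast h4
  have h5 : ∑ σ : Stp d, ((T σ).card : ℝ) ≤ ∑ _σ : Stp d, W1 d / (2 * (d : ℝ) ^ 9) :=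
    Finset.sum_le_sum fun σ _ => hT1 σ
  have h6 : (Fintype.card (Stp d) : ℝ) = 2 * d := by
    have : Fintype.card (Stp d) = d * 2 := by
      show Fintype.card (Fin d × Bool) = d * 2
      rw [Fintype.card_prod, Fintype.card_fin, Fintype.card_bool]
    rw [this]
    push_cast
    ring
  have hd3 : (0 : ℝ) < d := by
    have : 0 < d := by omega
    exact_mod_cast this
  rw [Finset.sum_const, Finset.card_univ, nsmul_eq_mul, h6] at h5
  have h7 : 2 * (d : ℝ) * (W1 d / (2 * (d : ℝ) ^ 9)) = W1 d / (d : ℝ) ^ 8 := by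
    field_simp
  rw [h7] at h5
  exact h3.trans h5

end Pool.Agent.COR
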