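import Pool.Agent.Lib_MP_2c424f_cor.B10
import Pool.Agent.Lib_MP_2c424f_cor.E04

/-!
# The number of colourings of a shell (piece E13, (E4) first factor)

`[a,b] ⊆ [a',b']`, `a i - a' i` and `b' i - b i` are `0` or odd and `> m`; `b i - a i` is even and `≥ m`.
`[a',b'] \ [a,b]` is the disjoint union of the boxes `P φ`, `φ : Fin d → Fin 3` not constant `1`, `P φ = {x : x i < a i (φ i = 0),
a i ≤ x i ≤ b i (φ i = 1), x i > b i (φ i = 2)} ∩ [a',b']`.  If `P φ` is not empty it is a box with sides `[a' i, a i - 1]` (`a i - a' i` odd),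
`[a i, b i]`, `[b i + 1, b' i]`, so `box_le` applies.  A function which is proper on `[a',b'] \ [a,b]` is proper on all `P φ`; `indep`
(the `P φ` are disjoint): `ZV (shell) ≤ q^N ∏_φ (ZV (P φ)/q^N) ≤ q^N ∏ (1/2)^|P φ| exp (ρ |P φ|)` (for `P φ = ∅` the factor is `1`).
-/

set_option autoImplicit false

open Finset

namespace Pool.Agent.COR

open Pool.Agent.LO

open scoped Classical in
private theorem E13_ZV {d k q : ℕ} (V : Finset (Site d k)) :
    ZV q V = ((univ.filter fun f : Site d k → Fin q => PrV V f).card : ℝ) := by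
  unfold ZV cV
  congr 2
  ext f
  simp only [mem_filter, mem_univ, true_and, and_true]

private theorem E13_card {d k q : ℕ} {inst : Fintype (Site d k → Fin q)} :
    ((@Fintype.card (Site d k → Fin q) inst : ℕ) : ℝ) = QN d k q := by
  unfold QN
  rw [← Nat.card_eq_fintype_card, Nat.card_fun, Nat.card_fin, Nat.card_eq_fintype_card]
  push_cast
  rfl

private def E13lo {d : ℕ} (a b a' : Fin d → ℕ) (φ : Fin d → Fin 3) (i : Fin d) : ℕ :=
  if φ i = 0 then a' i else if φ i = 1 then a i else b i + 1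

private def E13hi {d : ℕ} (a b b' : Fin d → ℕ) (φ : Fin d → Fin 3) (i : Fin d) : ℕ :=
  if φ i = 0 then a i - 1 else if φ i = 1 then b i else b' i

private theorem E13_three (t : Fin 3) : t = 0 ∨ t = 1 ∨ t = 2 := by
  fin_cases t <;> simp

private theorem E13_cases {d : ℕ} (a b a' b' : Fin d → ℕ) (φ : Fin d → Fin 3) (i : Fin d) :
    (φ i = 0 ∧ E13lo a b a' φ i = a' i ∧ E13hi a b b' φ i = a i - 1) ∨
      (φ i = 1 ∧ E13lo a b a' φ i = a i ∧ E13hi a b b' φ i = b i) ∨
      (φ i = 2 ∧ E13lo a b a' φ i = b i + 1 ∧ E13hi a b b' φ i = b' i) := by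
  rcases E13_three (φ i) with h | h | h
  · left
    exact ⟨h, by unfold E13lo; rw [if_pos h], by unfold E13hi; rw [if_pos h]⟩
  · right; left
    have h0 : φ i ≠ 0 := by rw [h]; decide
    exact ⟨h, by unfold E13lo; rw [if_neg h0, if_pos h], by unfold E13hi; rw [if_neg h0, if_pos h]⟩
  · right; right
    have h0 : φ i ≠ 0 := by rw [h]; decide
    have h1 : φ i ≠ 1 := by rw [h]; decide
    exact ⟨h, by unfold E13lo; rw [if_neg h0, if_neg h1],
      by unfold E13hi; rw [if_neg h0, if_neg h1]⟩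

private theorem E13_mem {d k : ℕ} (a b : Fin d → ℕ) (x : Site d k) :
    x ∈ (bx a b : Finset (Site d k)) ↔ ∀ i, a i ≤ (x i).val ∧ (x i).val ≤ b i := by
  unfold bx
  rw [mem_filter]
  simp only [mem_univ, true_and]

private theorem E13_fc {W : Type} (i1 i2 : Fintype W) (p : W → Prop) (d1 d2 : DecidablePred p) :
    (@Finset.filter W p d1 (@Finset.univ W i1)).card = (@Finset.filter W p d2 (@Finset.univ W i2)).card := by
  have e1 : i1 = i2 := Subsingleton.elim _ _
  have e2 : d1 = d2 := Subsingleton.elim _ _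
  subst e1 e2
  rfl

theorem shell_le : ∃ d₀ : ℕ, ∀ d : ℕ, d₀ ≤ d → ∀ q : ℕ, AdmC d q → ∀ k : ℕ, d ^ 46 ≤ 2 ^ k → ∀ m : ℕ, d ≤ m →
    ∀ a b a' b' : Fin d → ℕ,
    (∀ i, Even (b i - a i) ∧ a i + m ≤ b i ∧ a' i ≤ a i ∧ b i ≤ b' i ∧ b' i + 4 ≤ 2 ^ (k + 1) ∧
      (a' i = a i ∨ (Odd (a i - a' i) ∧ m < a i - a' i)) ∧ (b' i = b i ∨ (Odd (b' i - b i) ∧ m < b' i - b i))) →
    ZV q (bx a' b' \ bx a b : Finset (Site d (k + 1))) ≤
      QN d (k + 1) q * (1 / 2 : ℝ) ^ (bx a' b' \ bx a b : Finset (Site d (k + 1))).card *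
        Real.exp (rho d m * (bx a' b' \ bx a b : Finset (Site d (k + 1))).card) := by
  classical
  obtain ⟨d₀, hd₀⟩ := box_le
  refine ⟨d₀, fun d hd q hq k hk m hm a b a' b' hab => ?_⟩
  set I : Finset (Fin d → Fin 3) := univ.filter fun φ => (∃ i, φ i ≠ 1) ∧
    (∀ i, φ i = 0 → a' i < a i) ∧ ∀ i, φ i = 2 → b i < b' i with hI
  let P : (Fin d → Fin 3) → Finset (Site d (k + 1)) := fun φ =>
    bx (E13lo a b a' φ) (E13hi a b b' φ)
  have hdisj : ∀ φ ∈ I, ∀ ψ ∈ I, φ ≠ ψ → Disjoint (P φ) (P ψ) := by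
    intro φ hφ ψ hψ hne
    rw [hI, mem_filter] at hφ hψ
    rw [Finset.disjoint_left]
    intro x hx hx'
    obtain ⟨i, hi⟩ := Function.ne_iff.1 hne
    have h1 := (E13_mem _ _ _).1 hx i
    have h2 := (E13_mem _ _ _).1 hx' i
    have h3 := hab i
    have h4 := hφ.2.2.1 i
    have h5 := hψ.2.2.1 i
    rcases E13_cases a b a' b' φ i with ⟨c1, c2, c3⟩ | ⟨c1, c2, c3⟩ | ⟨c1, c2, c3⟩ <;>
      rcases E13_cases a b a' b' ψ i with ⟨e1, e2, e3⟩ | ⟨e1, e2, e3⟩ | ⟨e1, e2, e3⟩ <;>
      first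
        | exact hi (c1.trans e1.symm)
        | (rw [c2, c3] at h1
           rw [e2, e3] at h2
           first
             | (have h6 := h4 c1; omega)
             | (have h6 := h5 e1; omega)
             | omega)
  have hun : (bx a' b' \ bx a b : Finset (Site d (k + 1))) = I.biUnion P := by
    ext x
    rw [mem_sdiff, mem_biUnion, E13_mem, E13_mem]
    constructor
    · rintro ⟨h1, h2⟩
      let φ : Fin d → Fin 3 := fun i => if (x i).val < a i then 0 else if (x i).val ≤ b i then 1 else 2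
      have hφ : ∀ i, (φ i = 0 ∧ (x i).val < a i) ∨ (φ i = 1 ∧ a i ≤ (x i).val ∧ (x i).val ≤ b i) ∨
          (φ i = 2 ∧ b i < (x i).val) := by
        intro i
        by_cases c : (x i).val < a i
        · left
          exact ⟨if_pos c, c⟩
        · by_cases c' : (x i).val ≤ b i
          · right; left
            refine ⟨?_, not_lt.1 c, c'⟩
            show (if (x i).val < a i then (0 : Fin 3) else if (x i).val ≤ b i then 1 else 2) = 1
            rw [if_neg c, if_pos c']
          · right; right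
            refine ⟨?_, not_le.1 c'⟩
            show (if (x i).val < a i then (0 : Fin 3) else if (x i).val ≤ b i then 1 else 2) = 2
            rw [if_neg c, if_neg c']
      refine ⟨φ, ?_, ?_⟩
      · rw [hI, mem_filter]
        refine ⟨mem_univ _, ?_, fun i hi => ?_, fun i hi => ?_⟩
        · by_contra hcon
          push Not at hcon
          apply h2
          intro i
          have h3 := hcon i
          rcases hφ i with ⟨c1, c2⟩ | ⟨c1, c2⟩ | ⟨c1, c2⟩
          · rw [h3] at c1; exact absurd c1 (by decide)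
          · exact c2
          · rw [h3] at c1; exact absurd c1 (by decide)
        · rcases hφ i with ⟨c1, c2⟩ | ⟨c1, c2⟩ | ⟨c1, c2⟩
          · exact (h1 i).1.trans_lt c2
          · rw [hi] at c1; exact absurd c1 (by decide)
          · rw [hi] at c1; exact absurd c1 (by decide)
        · rcases hφ i with ⟨c1, c2⟩ | ⟨c1, c2⟩ | ⟨c1, c2⟩
          · rw [hi] at c1; exact absurd c1 (by decide)
          · rw [hi] at c1; exact absurd c1 (by decide)
          · exact c2.trans_le (h1 i).2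
      · show x ∈ bx (E13lo a b a' φ) (E13hi a b b' φ)
        rw [E13_mem]
        intro i
        have h3 := h1 i
        rcases E13_cases a b a' b' φ i with ⟨c1, c2, c3⟩ | ⟨c1, c2, c3⟩ | ⟨c1, c2, c3⟩ <;>
          rcases hφ i with ⟨e1, e2⟩ | ⟨e1, e2⟩ | ⟨e1, e2⟩ <;>
          first
            | (exfalso; rw [c1] at e1; revert e1; decide)
            | (rw [c2, c3]; omega)
    · rintro ⟨φ, hφ, hx⟩
      rw [hI, mem_filter] at hφ
      obtain ⟨-, ⟨i₀, hi₀⟩, h4, h5⟩ := hφ
      have hx' := (E13_mem _ _ _).1 hx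
      constructor
      · intro i
        have h1 := hx' i
        have h3 := hab i
        rcases E13_cases a b a' b' φ i with ⟨c1, c2, c3⟩ | ⟨c1, c2, c3⟩ | ⟨c1, c2, c3⟩ <;>
          (rw [c2, c3] at h1; omega)
      · intro hcon
        have h1 := hx' i₀
        have h2 := hcon i₀
        have h3 := hab i₀
        rcases E13_cases a b a' b' φ i₀ with ⟨c1, c2, c3⟩ | ⟨c1, c2, c3⟩ | ⟨c1, c2, c3⟩
        · rw [c2, c3] at h1
          have := h4 i₀ c1
          omega
        · exact hi₀ c1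
        · rw [c2, c3] at h1
          omega
  have hbox : ∀ φ ∈ I, ZV q (P φ) ≤ QN d (k + 1) q * ((1 / 2 : ℝ) ^ (P φ).card *
      Real.exp (rho d m * (P φ).card)) := by
    intro φ hφ
    rw [hI, mem_filter] at hφ
    rw [← mul_assoc]
    refine hd₀ d hd q hq k hk m hm _ _ fun i => ?_
    obtain ⟨h1, h2, h3, h4, h5, h6, h7⟩ := hab i
    have h8 := hφ.2.2.1 i
    have h9 := hφ.2.2.2 i
    rcases E13_cases a b a' b' φ i with ⟨c1, c2, c3⟩ | ⟨c1, c2, c3⟩ | ⟨c1, c2, c3⟩
    · rw [c2, c3]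
      have h10 := h8 c1
      rcases h6 with h6 | ⟨h6, h6'⟩
      · omega
      · refine ⟨?_, by omega, by omega⟩
        rw [Nat.odd_iff] at h6
        rw [Nat.even_iff]
        omega
    · rw [c2, c3]
      exact ⟨h1, h2, by omega⟩
    · rw [c2, c3]
      have h10 := h9 c1
      rcases h7 with h7 | ⟨h7, h7'⟩
      · omega
      · refine ⟨?_, by omega, by omega⟩
        rw [Nat.odd_iff] at h7
        rw [Nat.even_iff]
        omega
  have hQ : 0 < QN d (k + 1) q := by
    unfold QN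
    have h4 : (0 : ℝ) < q := by
      have := hq.1
      exact_mod_cast (by omega : 0 < q)
    positivity
  have hind := indep (W := Site d (k + 1)) (F := Fin q) I P hdisj
    (fun φ f => PrV (P φ) f) (fun φ _ f g hfg hf x hx σ hxs => by
      rw [← hfg x hx, ← hfg _ hxs]
      exact hf x hx σ hxs)
  rw [E13_card] at hind
  have hind2 : ((univ.filter fun f : Site d (k + 1) → Fin q => ∀ φ ∈ I, PrV (P φ) f).card : ℝ) *
      QN d (k + 1) q ^ I.card = QN d (k + 1) q *
        ∏ φ ∈ I, ((univ.filter fun f : Site d (k + 1) → Fin q => PrV (P φ) f).card : ℝ) :=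
    (congrArg (fun n : ℕ => (n : ℝ) * QN d (k + 1) q ^ I.card) (E13_fc _ _ _ _ _)).trans
      (hind.trans (congrArg (fun y : ℝ => QN d (k + 1) q * y)
        (prod_congr rfl fun φ _ => congrArg Nat.cast (E13_fc _ _ _ _ _))))
  have hle : ZV q (bx a' b' \ bx a b : Finset (Site d (k + 1))) ≤
      ((univ.filter fun f : Site d (k + 1) → Fin q => ∀ φ ∈ I, PrV (P φ) f).card : ℝ) := by
    rw [E13_ZV, Nat.cast_le]
    refine card_le_card fun f hf => ?_
    rw [mem_filter] at hf ⊢
    refine ⟨hf.1, fun φ hφ => PrV_mono ?_ hf.2⟩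
    rw [hun]
    exact subset_biUnion_of_mem P hφ
  have hprod : ∏ φ ∈ I, ((univ.filter fun f : Site d (k + 1) → Fin q => PrV (P φ) f).card : ℝ) ≤
      QN d (k + 1) q ^ I.card * ((1 / 2 : ℝ) ^ (∑ φ ∈ I, (P φ).card) *
        Real.exp (rho d m * ((∑ φ ∈ I, (P φ).card : ℕ) : ℝ))) := by
    refine (prod_le_prod (fun _ _ => Nat.cast_nonneg _) fun φ hφ => ?_).trans
      (le_of_eq (a := ∏ φ ∈ I, (QN d (k + 1) q * ((1 / 2 : ℝ) ^ (P φ).card *
        Real.exp (rho d m * (P φ).card)))) ?_)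
    · rw [← E13_ZV]
      exact hbox φ hφ
    · rw [prod_mul_distrib, prod_const, prod_mul_distrib, prod_pow_eq_pow_sum, ← Real.exp_sum,
        Nat.cast_sum, mul_sum]
  have hcard : (bx a' b' \ bx a b : Finset (Site d (k + 1))).card = ∑ φ ∈ I, (P φ).card := by
    rw [hun]
    exact card_biUnion hdisj
  have hpow : 0 < QN d (k + 1) q ^ I.card := pow_pos hQ _
  refine hle.trans ?_
  rw [← mul_le_mul_iff_left₀ hpow, hind2, hcard]
  refine (mul_le_mul_of_nonneg_left hprod hQ.le).trans (le_of_eq ?_)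
  ring

end Pool.Agent.COR
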