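import Pool.Agent.Lib_MP_2c424f_cor.EDefs
import Pool.Agent.Lib_MP_2c424f_cor.E04
import Pool.Agent.Lib_MP_2c424f_cor.V04

/-!
# Filling the region with the pattern (piece E14, (E4) second factor)

`patt`: functions which are `(V \ S)`-proper, follow `A₀` on `bdo V S \ X` and follow `A₀` on `S` are `(V \ X)`-proper: an edge inside `S`
or between `S` and `bdo V S \ X`: both ends follow `A₀` and have different parities, so exactly one of the two colours is in `A₀`.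
Their number is `cV (V \ S) (...) · (1/2)^|S|` (`card_fol`, independence).
`fixed`: `D ⊆ S ⊆ V`, `X ⊆ bdo V S`.  `(V \ D)`-proper functions are `(S \ D)`-proper and `(V \ S)`-proper; `split2`: their number with
`A₀` followed on `bdo V S \ X` is at most `ZV (S \ D) · cV (V \ S) (...) / q^N`; then `patt`, and `del_sites` for `V \ X`.
-/

set_option autoImplicit false

open Finset

namespace Pool.Agent.COR

open Pool.Agent.LO

variable {d k q : ℕ}

private theorem E14_mem {α : Type} {s : Finset α} {p : α → Prop} {_ : DecidablePred p} {a : α} :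
    a ∈ s.filter p ↔ a ∈ s ∧ p a := mem_filter

private theorem E14_dep (A₀ : Finset (Fin q)) (T Y : Finset (Site d k)) (hY : Y ⊆ T) :
    ∀ f g : Site d k → Fin q, (∀ x ∈ T, f x = g x) → (∀ y ∈ Y, fol A₀ f y) →
      ∀ y ∈ Y, fol A₀ g y := by
  intro f g h hf y hy
  have h1 := hf y hy
  unfold fol at h1 ⊢
  rw [← h y (hY hy)]
  exact h1

private theorem E14_ne (hk : 1 ≤ k) (A₀ : Finset (Fin q)) {f : Site d k → Fin q} {x : Site d k}
    (σ : Stp d) (h1 : fol A₀ f x) (h2 : fol A₀ f (x + sv σ)) : f (x + sv σ) ≠ f x := by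
  intro heq
  unfold fol at h1 h2
  rw [heq, h1, evn_step hk] at h2
  tauto

private theorem E14_bdo {V S X : Finset (Site d k)} : bdo V S \ X ⊆ V \ S := fun _ hy =>
  (mem_filter.1 (mem_sdiff.1 hy).1).1

theorem patt (hk : 1 ≤ k) (hq : Even q) (A₀ : Finset (Fin q)) (hA : A₀.card = q / 2)
    (V S X : Finset (Site d k)) (hS : S ⊆ V) (hX : X ⊆ bdo V S) :
    cV (V \ S) (fun f : Site d k → Fin q => ∀ y ∈ bdo V S \ X, fol A₀ f y) * (1 / 2 : ℝ) ^ S.card ≤
      ZV q (V \ X) := by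
  classical
  rcases Nat.eq_zero_or_pos q with h0 | h0
  · subst h0
    have h1 : cV (V \ S) (fun f : Site d k → Fin 0 => ∀ y ∈ bdo V S \ X, fol A₀ f y) = 0 := by
      unfold cV
      rw [Nat.cast_eq_zero, card_eq_zero]
      ext f
      exact (f 0).elim0
    rw [h1, zero_mul]
    unfold ZV cV
    positivity
  have hQ : 0 < QN d k q := by
    unfold QN
    positivity
  have h1 := split2 (q := q) (V \ S) S sdiff_disjoint (fun f => ∀ y ∈ bdo V S \ X, fol A₀ f y)
    (fun f => ∀ x ∈ S, fol A₀ f x) (E14_dep A₀ _ _ E14_bdo) (E14_dep A₀ _ _ (Finset.Subset.refl S))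
  have h2 : cV S (fun f : Site d k → Fin q => ∀ x ∈ S, fol A₀ f x) =
      QN d k q * (1 / 2 : ℝ) ^ S.card := by
    rw [← card_fol hq A₀ hA S]
    unfold cV
    congr 2
    ext f
    simp only [mem_filter, mem_univ, true_and]
    exact ⟨fun h => h.2, fun h => ⟨fun x hx σ hσ => E14_ne hk A₀ σ (h x hx) (h _ hσ), h⟩⟩
  rw [h2] at h1
  have h3 : cV (V \ S) (fun f : Site d k → Fin q => ∀ y ∈ bdo V S \ X, fol A₀ f y) *
      (1 / 2 : ℝ) ^ S.card * QN d k q ≤ ZV q (V \ X) * QN d k q := by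
    have h4 : cV (V \ S) (fun f : Site d k → Fin q => ∀ y ∈ bdo V S \ X, fol A₀ f y) *
        (1 / 2 : ℝ) ^ S.card * QN d k q =
        cV (V \ S) (fun f : Site d k → Fin q => ∀ y ∈ bdo V S \ X, fol A₀ f y) *
          (QN d k q * (1 / 2 : ℝ) ^ S.card) := by ring
    rw [h4, ← h1]
    refine mul_le_mul_of_nonneg_right ?_ hQ.le
    unfold ZV cV
    refine Nat.cast_le.2 (card_le_card fun f hf => ?_)
    obtain ⟨⟨h5, h6⟩, h7, h8⟩ := (E14_mem.1 hf).2
    refine E14_mem.2 ⟨mem_univ _, ?_, trivial⟩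
    intro x hx σ hσ
    rw [mem_sdiff] at hx hσ
    by_cases hxS : x ∈ S
    · by_cases hyS : x + sv σ ∈ S
      · exact h7 x hxS σ hyS
      · refine E14_ne hk A₀ σ (h8 x hxS) (h6 _ ?_)
        exact mem_sdiff.2 ⟨mem_filter.2 ⟨mem_sdiff.2 ⟨hσ.1, hyS⟩, x, hxS, σ, rfl⟩, hσ.2⟩
    · by_cases hyS : x + sv σ ∈ S
      · refine E14_ne hk A₀ σ (h6 x ?_) (h8 _ hyS)
        exact mem_sdiff.2 ⟨mem_filter.2 ⟨mem_sdiff.2 ⟨hx.1, hxS⟩, x + sv σ, hyS, (σ.1, !σ.2),
          (step_back x σ).symm⟩, hx.2⟩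
      · exact h5 x (mem_sdiff.2 ⟨hx.1, hxS⟩) σ (mem_sdiff.2 ⟨hσ.1, hyS⟩)
  exact le_of_mul_le_mul_right h3 hQ

theorem fixed (hk : 1 ≤ k) (hq : Even q) (hq4 : 4 ≤ q) (A₀ : Finset (Fin q)) (hA : A₀.card = q / 2)
    (V S D X : Finset (Site d k)) (hS : S ⊆ V) (hD : D ⊆ S) (hX : X ⊆ bdo V S) :
    cV (V \ D) (fun f : Site d k → Fin q => ∀ y ∈ bdo V S \ X, fol A₀ f y) * (1 / 2 : ℝ) ^ S.card *
        QN d k q ≤ ZV q (S \ D) * (Real.exp (d * X.card) * ZV q V) := by
  classical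
  have hQ : 0 < QN d k q := by
    unfold QN
    positivity
  have hq4' : (4 : ℝ) ≤ q := by exact_mod_cast hq4
  have hZ : ∀ T : Finset (Site d k), 0 ≤ ZV q T := fun T => by
    unfold ZV cV
    positivity
  have hdis : Disjoint (S \ D) (V \ S) := by
    rw [disjoint_left]
    intro x hx hx'
    exact (mem_sdiff.1 hx').2 (mem_sdiff.1 hx).1
  have h1 := split2 (q := q) (S \ D) (V \ S) hdis (fun _ => True)
    (fun f => ∀ y ∈ bdo V S \ X, fol A₀ f y) (fun _ _ _ _ => trivial) (E14_dep A₀ _ _ E14_bdo)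
  have h2 : cV (V \ D) (fun f : Site d k → Fin q => ∀ y ∈ bdo V S \ X, fol A₀ f y) * QN d k q ≤
      ZV q (S \ D) * cV (V \ S) (fun f : Site d k → Fin q => ∀ y ∈ bdo V S \ X, fol A₀ f y) := by
    have h3 : ZV q (S \ D) = cV (S \ D) (fun _ : Site d k → Fin q => True) := rfl
    rw [h3, ← h1]
    refine mul_le_mul_of_nonneg_right ?_ hQ.le
    unfold cV
    refine Nat.cast_le.2 (card_le_card fun f hf => ?_)
    obtain ⟨h5, h6⟩ := (E14_mem.1 hf).2
    refine E14_mem.2 ⟨mem_univ _, ⟨PrV_mono ?_ h5, trivial⟩, PrV_mono ?_ h5, h6⟩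
    · exact sdiff_subset_sdiff hS (Finset.Subset.refl D)
    · exact sdiff_subset_sdiff (Finset.Subset.refl V) hD
  have h4 := patt hk hq A₀ hA V S X hS hX
  have h5 := del_sites (q := q) hk (by omega) V X
  have hb : Real.exp (-1) ≤ (1 - 1 / (q : ℝ)) ^ 2 := by
    have h6 : (3 / 4 : ℝ) ≤ 1 - 1 / (q : ℝ) := by
      have h7 : 1 / (q : ℝ) ≤ 1 / 4 := one_div_le_one_div_of_le (by norm_num) hq4'
      linarith
    have h8 : (9 / 16 : ℝ) ≤ (1 - 1 / (q : ℝ)) ^ 2 := by nlinarith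
    have h9 : Real.exp (-1) ≤ 9 / 16 := by
      have h10 := Real.exp_one_gt_d9
      rw [Real.exp_neg, inv_le_comm₀ (Real.exp_pos _) (by norm_num)]
      linarith
    exact h9.trans h8
  have h6 : Real.exp (-(d * X.card : ℝ)) ≤ (1 - 1 / (q : ℝ)) ^ (2 * d * X.card) := by
    have h7 : (1 - 1 / (q : ℝ)) ^ (2 * d * X.card) = ((1 - 1 / (q : ℝ)) ^ 2) ^ (d * X.card) := by
      rw [← pow_mul, mul_assoc]
    have h8 : Real.exp (-(d * X.card : ℝ)) = Real.exp (-1) ^ (d * X.card) := by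
      rw [← Real.exp_nat_mul]
      congr 1
      push_cast
      ring
    rw [h7, h8]
    exact pow_le_pow_left₀ (Real.exp_pos _).le hb _
  have h7 : ZV q (V \ X) ≤ Real.exp (d * X.card) * ZV q V := by
    have h8 : Real.exp (-(d * X.card : ℝ)) * ZV q (V \ X) ≤ ZV q V :=
      (mul_le_mul_of_nonneg_right h6 (hZ _)).trans h5
    calc ZV q (V \ X) = Real.exp (d * X.card) * (Real.exp (-(d * X.card : ℝ)) * ZV q (V \ X)) := by
          rw [← mul_assoc, ← Real.exp_add, add_neg_cancel, Real.exp_zero, one_mul]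
      _ ≤ Real.exp (d * X.card) * ZV q V := mul_le_mul_of_nonneg_left h8 (Real.exp_pos _).le
  calc cV (V \ D) (fun f : Site d k → Fin q => ∀ y ∈ bdo V S \ X, fol A₀ f y) *
        (1 / 2 : ℝ) ^ S.card * QN d k q =
        (cV (V \ D) (fun f : Site d k → Fin q => ∀ y ∈ bdo V S \ X, fol A₀ f y) * QN d k q) *
          (1 / 2 : ℝ) ^ S.card := by ring
    _ ≤ (ZV q (S \ D) *
          cV (V \ S) (fun f : Site d k → Fin q => ∀ y ∈ bdo V S \ X, fol A₀ f y)) *
          (1 / 2 : ℝ) ^ S.card := mul_le_mul_of_nonneg_right h2 (by positivity)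
    _ = ZV q (S \ D) *
          (cV (V \ S) (fun f : Site d k → Fin q => ∀ y ∈ bdo V S \ X, fol A₀ f y) *
          (1 / 2 : ℝ) ^ S.card) := by ring
    _ ≤ ZV q (S \ D) * (Real.exp (d * X.card) * ZV q V) :=
        mul_le_mul_of_nonneg_left (h4.trans h7) (hZ _)

end Pool.Agent.COR
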