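import Mathlib

/-!
# Sums over small subsets (piece E15)

`∑_{X ⊆ L, |X| ≤ T} y^|X| ≤ (y/x)^T ∑_{X ⊆ L} x^|X| = (y/x)^T (1+x)^|L|` for `y ≥ 1`, `0 < x ≤ 1` (`y^|X| = (y/x)^|X| x^|X|`).
With `y = exp d`, `x = d^{-8}`: `exp (T (d + 8 log d) + |L|/d^8)`.
-/

set_option autoImplicit false

open Finset

namespace Pool.Agent.COR

open scoped Classical in
theorem small_subsets {α : Type} (d : ℕ) (hd : 1 ≤ d) (L : Finset α) (T : ℝ) :
    ∑ X ∈ L.powerset.filter (fun X => (X.card : ℝ) ≤ T), Real.exp (d * X.card) ≤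
      Real.exp (T * (d + 8 * Real.log d) + L.card / (d : ℝ) ^ 8) := by
  have hd0 : (0 : ℝ) < (d : ℝ) := by exact_mod_cast hd
  have hd1 : (1 : ℝ) ≤ (d : ℝ) := by exact_mod_cast hd
  have hlog : 0 ≤ Real.log (d : ℝ) := Real.log_nonneg hd1
  have hpos : (0 : ℝ) < ((d : ℝ) ^ 8)⁻¹ := by positivity
  have hc : 0 ≤ (d : ℝ) + 8 * Real.log d := by positivity
  -- each term is at most `exp (T (d + 8 log d)) * (d⁻⁸)^|X|`
  have hterm : ∀ X ∈ L.powerset.filter (fun X => (X.card : ℝ) ≤ T),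
      Real.exp (d * X.card) ≤
        Real.exp (T * (d + 8 * Real.log d)) * (((d : ℝ) ^ 8)⁻¹) ^ X.card := by
    intro X hX
    have hXT : (X.card : ℝ) ≤ T := (Finset.mem_filter.mp hX).2
    have e1 : (((d : ℝ) ^ 8)⁻¹) ^ X.card = Real.exp (-(8 * Real.log d) * X.card) := by
      have e2 : ((d : ℝ) ^ 8)⁻¹ = Real.exp (-(8 * Real.log d)) := by
        rw [Real.exp_neg]
        congr 1
        have : (8 : ℝ) * Real.log d = Real.log ((d : ℝ) ^ 8) := by
          rw [Real.log_pow]; norm_num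
        rw [this, Real.exp_log (by positivity)]
      rw [e2, ← Real.exp_nat_mul]
      congr 1
      ring
    rw [e1, ← Real.exp_add]
    apply Real.exp_le_exp.mpr
    have := mul_le_mul_of_nonneg_right hXT hc
    nlinarith [this]
  have hsub : L.powerset.filter (fun X => (X.card : ℝ) ≤ T) ⊆ L.powerset :=
    Finset.filter_subset _ _
  have hsum : ∑ X ∈ L.powerset, (((d : ℝ) ^ 8)⁻¹) ^ X.card = (((d : ℝ) ^ 8)⁻¹ + 1) ^ L.card := by
    have := Finset.sum_pow_mul_eq_add_pow (((d : ℝ) ^ 8)⁻¹) (1 : ℝ) L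
    simpa using this
  have hexp : (((d : ℝ) ^ 8)⁻¹ + 1) ^ L.card ≤ Real.exp (L.card / (d : ℝ) ^ 8) := by
    have h1 : ((d : ℝ) ^ 8)⁻¹ + 1 ≤ Real.exp (((d : ℝ) ^ 8)⁻¹) := Real.add_one_le_exp _
    calc (((d : ℝ) ^ 8)⁻¹ + 1) ^ L.card ≤ (Real.exp (((d : ℝ) ^ 8)⁻¹)) ^ L.card :=
          pow_le_pow_left₀ (by positivity) h1 _
      _ = Real.exp (L.card / (d : ℝ) ^ 8) := by
          rw [← Real.exp_nat_mul]
          congr 1
  calc ∑ X ∈ L.powerset.filter (fun X => (X.card : ℝ) ≤ T), Real.exp (d * X.card)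
      ≤ ∑ X ∈ L.powerset.filter (fun X => (X.card : ℝ) ≤ T),
          Real.exp (T * (d + 8 * Real.log d)) * (((d : ℝ) ^ 8)⁻¹) ^ X.card :=
        Finset.sum_le_sum hterm
    _ ≤ ∑ X ∈ L.powerset,
          Real.exp (T * (d + 8 * Real.log d)) * (((d : ℝ) ^ 8)⁻¹) ^ X.card :=
        Finset.sum_le_sum_of_subset_of_nonneg hsub (fun X _ _ => by positivity)
    _ = Real.exp (T * (d + 8 * Real.log d)) * (((d : ℝ) ^ 8)⁻¹ + 1) ^ L.card := by
        rw [← Finset.mul_sum, hsum]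
    _ ≤ Real.exp (T * (d + 8 * Real.log d)) * Real.exp (L.card / (d : ℝ) ^ 8) :=
        mul_le_mul_of_nonneg_left hexp (Real.exp_pos _).le
    _ = Real.exp (T * (d + 8 * Real.log d) + L.card / (d : ℝ) ^ 8) := by
        rw [Real.exp_add]

end Pool.Agent.COR
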