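import Pool.Agent.Lib_MP_2c424f_cor.E07
import Pool.Agent.Lib_MP_2c424f_cor.E12
import Pool.Agent.Lib_MP_2c424f_cor.E13
import Pool.Agent.Lib_MP_2c424f_cor.E14
import Pool.Agent.Lib_MP_2c424f_cor.E15

/-!
# The surgery theorem (piece E16, (E0))

`V = GB \ R`, `D = bx a b`, `V₁ = V \ D`; `QB σ ⊆ V₁` (`QB_sub`, `R` is disjoint from `bx (elo a) (ehi b)`).  Fix `A₀` with `q/2`
elements.  `shell_ald`: `ZV V₁ ≤ exp (W1/d^10) cV V₁ (aligned)`.  `choose_s`: every aligned `V₁`-proper `f` has an `s` (a function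
`Stp d → {0,…,2h-1}`, at most `(2h)^(2d)`) and `X = {defects in bdo V S} ⊆ bdo V S`, `|X| ≤ T = W1/d^8`, such that
`A₀` is followed on `bdo V S \ X`.  For fixed `(s, X)`: `fixed` and `shell_le` with `m = h` (`s` odd, `> h`; `rho d h · |S \ D| ≤ W1/d^10` by
`card_shell`): at most `2^|D| exp (W1/d^10) exp (d |X|) ZV V` (`|S| = |S \ D| + |D|`).  Sum over `X` (`small_subsets`, `card_bdo`) and `s`:
the total exponent is at most `3 W1/d^10 + 9 W1/d^7 ≤ W1/(400 d^5)`.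
-/

set_option autoImplicit false

open Finset

namespace Pool.Agent.COR

open Pool.Agent.LO

/-! ### numbers -/

private theorem E16_W1_pos {d : ℕ} (hd : 1 ≤ d) : 0 < W1 d := by
  have h0 : (0 : ℝ) < d := by exact_mod_cast hd
  unfold W1 wC
  push_cast
  positivity

private theorem E16_log {d : ℕ} (hd : 1000 ≤ d) : 8 * Real.log d ≤ d := by
  have h0 : (1000 : ℝ) ≤ d := by exact_mod_cast hd
  have hs : (0 : ℝ) < Real.sqrt d := Real.sqrt_pos.2 (by linarith)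
  have h1 : Real.log (Real.sqrt d) ≤ Real.sqrt d - 1 := Real.log_le_sub_one_of_pos hs
  rw [Real.log_sqrt (by linarith)] at h1
  have h2 : (16 : ℝ) ≤ Real.sqrt d := by
    apply Real.le_sqrt_of_sq_le
    linarith
  have h3 : Real.sqrt d * Real.sqrt d = d := Real.mul_self_sqrt (by linarith)
  nlinarith

private theorem E16_rho {d : ℕ} (hd : 1000 ≤ d) : rho d (hC d) * (10 * d * hC d) ≤ 1 / (d : ℝ) ^ 10 := by
  have h0 : (1000 : ℝ) ≤ d := by exact_mod_cast hd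
  have hp : (0 : ℝ) < d := by linarith
  have hB : (d : ℝ) ^ 45 / 2 ≤ ((d : ℝ) - 1) ^ 45 := by
    have h1 : (1 : ℝ) + (45 : ℕ) * (-1 / d) ≤ (1 + -1 / d) ^ 45 := by
      apply one_add_mul_le_pow
      rw [le_div_iff₀ hp]; linarith
    have h2 : (1 / 2 : ℝ) ≤ 1 + (45 : ℕ) * (-1 / d) := by
      have : (45 : ℝ) / d ≤ 1 / 2 := by
        rw [div_le_iff₀ hp]; linarith
      push_cast
      have h3 : (45 : ℝ) * (-1 / d) = -(45 / d) := by ring
      rw [h3]; linarith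
    have h3 : ((d : ℝ) - 1) ^ 45 = (d : ℝ) ^ 45 * (1 + -1 / d) ^ 45 := by
      rw [← mul_pow]; congr 1; field_simp; ring
    rw [h3]
    have h4 : (0 : ℝ) < (d : ℝ) ^ 45 := by positivity
    nlinarith [h2.trans h1]
  have hA : 6 / ((d : ℝ) - 1) ^ 45 ≤ 12 / (d : ℝ) ^ 45 := by
    have h1 : (0 : ℝ) < (d : ℝ) ^ 45 := by positivity
    rw [div_le_div_iff₀ (lt_of_lt_of_le (by positivity) hB) h1]
    linarith
  have hh : (hC d : ℝ) = 2 * (d : ℝ) ^ 30 := by unfold hC; push_cast; ring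
  unfold rho
  rw [hh]
  have e1 : 12 / (d : ℝ) ^ 45 * (10 * d * (2 * (d : ℝ) ^ 30)) = 240 / (d : ℝ) ^ 14 := by
    field_simp
    ring
  have e2 : ((d : ℝ) / (2 * (d : ℝ) ^ 30)) ^ 2 * (10 * d * (2 * (d : ℝ) ^ 30)) = 5 / (d : ℝ) ^ 27 := by
    field_simp
    ring
  have e3 : 240 / (d : ℝ) ^ 14 ≤ 1 / (2 * (d : ℝ) ^ 10) := by
    rw [div_le_div_iff₀ (by positivity) (by positivity)]
    have h1 : (1000 : ℝ) ^ 4 ≤ (d : ℝ) ^ 4 := pow_le_pow_left₀ (by norm_num) h0 4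
    have h2 : (0 : ℝ) < (d : ℝ) ^ 10 := by positivity
    have h3 : (d : ℝ) ^ 14 = (d : ℝ) ^ 4 * (d : ℝ) ^ 10 := by ring
    rw [h3]; nlinarith
  have e4 : 5 / (d : ℝ) ^ 27 ≤ 1 / (2 * (d : ℝ) ^ 10) := by
    rw [div_le_div_iff₀ (by positivity) (by positivity)]
    have h1 : (1000 : ℝ) ^ 17 ≤ (d : ℝ) ^ 17 := pow_le_pow_left₀ (by norm_num) h0 17
    have h2 : (0 : ℝ) < (d : ℝ) ^ 10 := by positivity
    have h3 : (d : ℝ) ^ 27 = (d : ℝ) ^ 17 * (d : ℝ) ^ 10 := by ring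
    rw [h3]; nlinarith
  have e5 : 1 / (2 * (d : ℝ) ^ 10) + 1 / (2 * (d : ℝ) ^ 10) = 1 / (d : ℝ) ^ 10 := by
    field_simp; norm_num
  have hpos : (0 : ℝ) ≤ 10 * d * (2 * (d : ℝ) ^ 30) := by positivity
  calc (6 / ((d : ℝ) - 1) ^ 45 + ((d : ℝ) / (2 * (d : ℝ) ^ 30)) ^ 2) * (10 * d * (2 * (d : ℝ) ^ 30))
      ≤ (12 / (d : ℝ) ^ 45 + ((d : ℝ) / (2 * (d : ℝ) ^ 30)) ^ 2) * (10 * d * (2 * (d : ℝ) ^ 30)) := by
        apply mul_le_mul_of_nonneg_right _ hpos
        linarith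
    _ = 240 / (d : ℝ) ^ 14 + 5 / (d : ℝ) ^ 27 := by rw [add_mul, e1, e2]
    _ ≤ 1 / (d : ℝ) ^ 10 := by linarith

private theorem E16_rho_nonneg {d : ℕ} (hd : 1000 ≤ d) : 0 ≤ rho d (hC d) := by
  have h0 : (1000 : ℝ) ≤ d := by exact_mod_cast hd
  have h1 : (0 : ℝ) ≤ (d : ℝ) - 1 := by linarith
  unfold rho
  positivity

private theorem E16_W1_big {d : ℕ} (hd : 1000 ≤ d) : 4 * (d : ℝ) ^ 66 ≤ W1 d := by
  have h0 : (1000 : ℝ) ≤ d := by exact_mod_cast hd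
  have h1 : (1 : ℝ) ≤ (wC d : ℝ) := by
    unfold wC
    have : 0 < d ^ 33 := by positivity
    exact_mod_cast (by omega : 1 ≤ 2 * d ^ 33)
  have h2 : (wC d : ℝ) ^ 2 ≤ W1 d := by
    unfold W1
    exact pow_le_pow_right₀ h1 (by omega)
  have h3 : (wC d : ℝ) ^ 2 = 4 * (d : ℝ) ^ 66 := by
    unfold wC; push_cast; ring
  linarith

private theorem E16_cnt {d : ℕ} (hd : 1000 ≤ d) :
    ((2 * hC d : ℕ) : ℝ) ^ (d * 2) ≤ Real.exp (W1 d / (d : ℝ) ^ 10) := by
  have h0 : (1000 : ℝ) ≤ d := by exact_mod_cast hd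
  have hp : (0 : ℝ) < d := by linarith
  have h1 : ((2 * hC d : ℕ) : ℝ) ≤ Real.exp ((2 * hC d : ℕ) : ℝ) := by
    have := Real.add_one_le_exp ((2 * hC d : ℕ) : ℝ)
    linarith
  calc ((2 * hC d : ℕ) : ℝ) ^ (d * 2) ≤ (Real.exp ((2 * hC d : ℕ) : ℝ)) ^ (d * 2) :=
        pow_le_pow_left₀ (by positivity) h1 _
    _ = Real.exp (((d * 2 : ℕ) : ℝ) * ((2 * hC d : ℕ) : ℝ)) := by rw [← Real.exp_nat_mul]
    _ ≤ Real.exp (W1 d / (d : ℝ) ^ 10) := by
        apply Real.exp_le_exp.2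
        rw [le_div_iff₀ (by positivity)]
        refine le_trans ?_ (E16_W1_big hd)
        have e1 : ((d * 2 : ℕ) : ℝ) * ((2 * hC d : ℕ) : ℝ) * (d : ℝ) ^ 10 = 8 * (d : ℝ) ^ 41 := by
          unfold hC; push_cast; ring
        rw [e1]
        have h1 : (1000 : ℝ) ^ 25 ≤ (d : ℝ) ^ 25 := pow_le_pow_left₀ (by norm_num) h0 25
        have h2 : (0 : ℝ) < (d : ℝ) ^ 41 := by positivity
        have h3 : (d : ℝ) ^ 66 = (d : ℝ) ^ 25 * (d : ℝ) ^ 41 := by ring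
        rw [h3]; nlinarith

private theorem E16_sum {d : ℕ} (hd : 1000 ≤ d) {L : ℝ} (hL : L ≤ 5 * d * W1 d) :
    W1 d / (d : ℝ) ^ 8 * (d + 8 * Real.log d) + L / (d : ℝ) ^ 8 ≤ 7 * (W1 d / (d : ℝ) ^ 7) := by
  have h0 : (1000 : ℝ) ≤ d := by exact_mod_cast hd
  have hp : (0 : ℝ) < d := by linarith
  have hW := E16_W1_pos (d := d) (by omega)
  have h1 : W1 d / (d : ℝ) ^ 8 * (d + 8 * Real.log d) ≤ W1 d / (d : ℝ) ^ 8 * (d + d) := by
    apply mul_le_mul_of_nonneg_left _ (by positivity)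
    have := E16_log hd
    linarith
  have h2 : L / (d : ℝ) ^ 8 ≤ 5 * d * W1 d / (d : ℝ) ^ 8 := by
    apply div_le_div_of_nonneg_right hL (by positivity)
  have e1 : W1 d / (d : ℝ) ^ 8 * (d + d) = 2 * (W1 d / (d : ℝ) ^ 7) := by
    field_simp; ring
  have e2 : 5 * d * W1 d / (d : ℝ) ^ 8 = 5 * (W1 d / (d : ℝ) ^ 7) := by
    field_simp
  linarith

private theorem E16_fin {d : ℕ} (hd : 1000 ≤ d) :
    W1 d / (d : ℝ) ^ 10 + (W1 d / (d : ℝ) ^ 10 + (W1 d / (d : ℝ) ^ 10 + 7 * (W1 d / (d : ℝ) ^ 7))) ≤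
      W1 d / (400 * (d : ℝ) ^ 5) := by
  have h0 : (1000 : ℝ) ≤ d := by exact_mod_cast hd
  have hp : (0 : ℝ) < d := by linarith
  have hW := E16_W1_pos (d := d) (by omega)
  have h1 : W1 d / (d : ℝ) ^ 10 ≤ W1 d / (d : ℝ) ^ 7 := by
    apply div_le_div_of_nonneg_left hW.le (by positivity)
    exact pow_le_pow_right₀ (by linarith) (by norm_num)
  have h2 : 10 * (W1 d / (d : ℝ) ^ 7) ≤ W1 d / (400 * (d : ℝ) ^ 5) := by
    rw [← mul_div_assoc, div_le_div_iff₀ (by positivity) (by positivity)]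
    have h3 : (1000 : ℝ) ^ 2 ≤ (d : ℝ) ^ 2 := pow_le_pow_left₀ (by norm_num) h0 2
    have h4 : (0 : ℝ) < W1 d * (d : ℝ) ^ 5 := by positivity
    have h5 : W1 d * (d : ℝ) ^ 7 = (W1 d * (d : ℝ) ^ 5) * (d : ℝ) ^ 2 := by ring
    rw [h5]; nlinarith
  linarith

/-! ### one region -/

private theorem E16_cV_nonneg {d k q : ℕ} (V : Finset (Site d k)) (P : (Site d k → Fin q) → Prop) :
    0 ≤ cV V P := by
  unfold cV; positivity

private theorem E16_QN_pos {d k q : ℕ} (hq : 0 < q) : 0 < QN d k q := by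
  have : (0 : ℝ) < q := by exact_mod_cast hq
  unfold QN; positivity

private theorem E16_fix {d k q : ℕ} (hk : 1 ≤ k) (hq : Even q) (hq4 : 4 ≤ q) (A₀ : Finset (Fin q))
    (hA : A₀.card = q / 2) (V S D X : Finset (Site d k)) (hS : S ⊆ V) (hD : D ⊆ S) (hX : X ⊆ bdo V S)
    (ρ : ℝ) (hsh : ZV q (S \ D) ≤ QN d k q * (1 / 2 : ℝ) ^ (S \ D).card * Real.exp (ρ * (S \ D).card)) :
    cV (V \ D) (fun f : Site d k → Fin q => ∀ y ∈ bdo V S \ X, fol A₀ f y) * (1 / 2 : ℝ) ^ D.card ≤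
      Real.exp (ρ * (S \ D).card) * (Real.exp (d * X.card) * ZV q V) := by
  have h1 := fixed hk hq hq4 A₀ hA V S D X hS hD hX
  have hQ : 0 < QN d k q := E16_QN_pos (by omega)
  have hcard : S.card = (S \ D).card + D.card := (Finset.card_sdiff_add_card_eq_card hD).symm
  rw [hcard, pow_add] at h1
  have h2 : 0 ≤ Real.exp (d * X.card) * ZV q V := by
    have := E16_cV_nonneg (q := q) V (fun _ => True)
    unfold ZV; positivity
  have h3 := mul_le_mul_of_nonneg_right hsh h2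
  have h4 := h1.trans h3
  have h5 : (0 : ℝ) < (1 / 2 : ℝ) ^ (S \ D).card * QN d k q := by positivity
  refine le_of_mul_le_mul_right ?_ h5
  refine le_trans (le_of_eq ?_) (h4.trans (le_of_eq ?_)) <;> ring

/-- the geometry for `shell_le` -/
private theorem E16_geo {d K k : ℕ} (hd : 1000 ≤ d) (hn : nC d K + 4 ≤ 2 ^ (k + 1)) {a b : Fin d → ℕ}
    (hD : dbx d K a b) {s : Stp d → ℕ} (hs : okS d s) (i : Fin d) :
    Even (b i - a i) ∧ a i + hC d ≤ b i ∧ sa a s i ≤ a i ∧ b i ≤ sb (nC d K) b s i ∧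
      sb (nC d K) b s i + 4 ≤ 2 ^ (k + 1) ∧
      (sa a s i = a i ∨ (Odd (a i - sa a s i) ∧ hC d < a i - sa a s i)) ∧
      (sb (nC d K) b s i = b i ∨ (Odd (sb (nC d K) b s i - b i) ∧ hC d < sb (nC d K) b s i - b i)) := by
  obtain ⟨ha, hb⟩ := dbx_even hD i
  obtain ⟨hal, hbl, hab, -⟩ := dbx_act (by omega) hD i
  have hbn : b i ≤ nC d K := (hD.1 i).2.1
  obtain ⟨hs1, hs2, hs3⟩ := hs (i, false)
  obtain ⟨ht1, ht2, ht3⟩ := hs (i, true)
  have hw : 8 * hC d ≤ wC d := by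
    unfold hC wC
    have h1 : d ^ 33 = d ^ 30 * d ^ 3 := by ring
    have h2 : 8 ≤ d ^ 3 := le_trans (by norm_num) (Nat.pow_le_pow_left (by omega : 2 ≤ d) 3)
    have h3 : d ^ 30 * 8 ≤ d ^ 30 * d ^ 3 := Nat.mul_le_mul_left _ h2
    rw [h1]; omega
  have hh : 2 ≤ hC d := by
    unfold hC
    have : 0 < d ^ 30 := by positivity
    omega
  refine ⟨?_, by omega, ?_, ?_, ?_, ?_, ?_⟩
  · rw [Nat.even_sub (by omega)]
    exact ⟨fun _ => ha, fun _ => hb⟩
  · unfold sa; split <;> omega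
  · unfold sb; split <;> omega
  · unfold sb; split
    · have := hbl (by assumption)
      omega
    · omega
  · by_cases h : 0 < a i
    · right
      have h1 : a i - sa a s i = s (i, false) := by
        unfold sa; rw [if_pos h]
        have := hal h
        omega
      rw [h1]; exact ⟨hs1, hs2⟩
    · left; unfold sa; rw [if_neg h]
  · by_cases h : b i < nC d K
    · right
      have h1 : sb (nC d K) b s i - b i = s (i, true) := by
        unfold sb; rw [if_pos h]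
        omega
      rw [h1]; exact ⟨ht1, ht2⟩
    · left; unfold sb; rw [if_neg h]

open scoped Classical in
/-- the finset of the admissible thicknesses -/
private noncomputable def E16_S (d : ℕ) : Finset (Stp d → ℕ) :=
  (Fintype.piFinset fun _ : Stp d => Finset.range (2 * hC d)).filter (okS d)

private theorem E16_mem_S {d : ℕ} {s : Stp d → ℕ} : s ∈ E16_S d ↔ okS d s := by
  classical
  unfold E16_S
  rw [Finset.mem_filter]
  refine ⟨fun h => h.2, fun h => ⟨?_, h⟩⟩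
  rw [Fintype.mem_piFinset]
  intro σ
  rw [Finset.mem_range]
  exact (h σ).2.2

private theorem E16_card_S (d : ℕ) : ((E16_S d).card : ℝ) ≤ ((2 * hC d : ℕ) : ℝ) ^ (d * 2) := by
  classical
  have h1 : (E16_S d).card ≤ (2 * hC d) ^ (d * 2) := by
    unfold E16_S
    refine (Finset.card_filter_le _ _).trans ?_
    rw [Fintype.card_piFinset]
    simp
  exact_mod_cast h1

open scoped Classical in
/-- union bound -/
private theorem E16_union {d k q : ℕ} (V₁ : Finset (Site d k)) (P : (Site d k → Fin q) → Prop)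
    {ι : Type} (I : Finset ι) (J : ι → Finset (Finset (Site d k)))
    (E : ι → Finset (Site d k) → (Site d k → Fin q) → Prop)
    (h : ∀ f, PrV V₁ f → P f → ∃ i ∈ I, ∃ X ∈ J i, E i X f) :
    cV V₁ P ≤ ∑ i ∈ I, ∑ X ∈ J i, cV V₁ (E i X) := by
  have h1 : (univ.filter fun f : Site d k → Fin q => PrV V₁ f ∧ P f) ⊆
      I.biUnion fun i => (J i).biUnion fun X =>
        univ.filter fun f : Site d k → Fin q => PrV V₁ f ∧ E i X f := by
    intro f hf
    rw [Finset.mem_filter] at hf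
    obtain ⟨i, hi, X, hX, hE⟩ := h f hf.2.1 hf.2.2
    rw [Finset.mem_biUnion]
    refine ⟨i, hi, ?_⟩
    rw [Finset.mem_biUnion]
    refine ⟨X, hX, ?_⟩
    rw [Finset.mem_filter]
    exact ⟨Finset.mem_univ _, hf.2.1, hE⟩
  have h2 : (univ.filter fun f : Site d k → Fin q => PrV V₁ f ∧ P f).card ≤
      ∑ i ∈ I, ∑ X ∈ J i, (univ.filter fun f : Site d k → Fin q => PrV V₁ f ∧ E i X f).card :=
    (Finset.card_le_card h1).trans (Finset.card_biUnion_le.trans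
      (Finset.sum_le_sum fun i _ => Finset.card_biUnion_le))
  unfold cV
  exact_mod_cast h2

theorem surgery : ∃ d₀ : ℕ, ∀ d : ℕ, d₀ ≤ d → ∀ q : ℕ, AdmC d q → ∀ k K : ℕ, d ^ 46 ≤ 2 ^ k → 1 ≤ K →
    nC d K + 4 ≤ 2 ^ (k + 1) → ∀ a b : Fin d → ℕ, dbx d K a b →
    ∀ R : Finset (Site d (k + 1)), Disjoint R (bx (elo d a) (ehi d K b)) →
    ZV q ((GB d K k \ R) \ bx a b) * (1 / 2 : ℝ) ^ (bx a b : Finset (Site d (k + 1))).card ≤
      ZV q (GB d K k \ R) * Real.exp (W1 d / (400 * (d : ℝ) ^ 5)) := by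
  classical
  obtain ⟨d₁, h₁⟩ := shell_ald
  obtain ⟨d₂, h₂⟩ := choose_s
  obtain ⟨d₃, h₃⟩ := shell_le
  refine ⟨max 1000 (max d₁ (max d₂ d₃)), ?_⟩
  intro d hd q hq k K hk hK hn a b hD R hR
  have hd0 : 1000 ≤ d := (le_max_left _ _).trans hd
  have hd' := (le_max_right _ _).trans hd
  have hd1 : d₁ ≤ d := (le_max_left _ _).trans hd'
  have hd'' := (le_max_right _ _).trans hd'
  have hd2 : d₂ ≤ d := (le_max_left _ _).trans hd''
  have hd3 : d₃ ≤ d := (le_max_right _ _).trans hd''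
  have hd10 : 10 ≤ d := by omega
  have hq0 := hq
  obtain ⟨hq4, hqe, -⟩ := hq0
  set V : Finset (Site d (k + 1)) := GB d K k \ R with hV
  have hVG : V ⊆ GB d K k := Finset.sdiff_subset
  have hQV : ∀ σ ∈ sd d K a b, QB d K k a b σ ⊆ V \ bx a b := by
    intro σ hσ x hx
    obtain ⟨g1, g2, g3⟩ := QB_sub (k := k) hd10 hn hD hσ
    rw [Finset.mem_sdiff, hV, Finset.mem_sdiff]
    exact ⟨⟨g1 hx, fun h => Finset.disjoint_left.1 hR h (g2 hx)⟩,
      fun h => Finset.disjoint_left.1 g3 hx h⟩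
  obtain ⟨A₀, hA⟩ : ∃ A₀ : Finset (Fin q), A₀.card = q / 2 := by
    obtain ⟨A, -, hA⟩ := Finset.exists_subset_card_eq (s := (Finset.univ : Finset (Fin q))) (n := q / 2)
      (by rw [Finset.card_univ, Fintype.card_fin]; omega)
    exact ⟨A, hA⟩
  have hal := h₁ d hd1 q hq k K hk hK hn a b hD A₀ hA (V \ bx a b) hQV
  -- union bound
  have hun : cV (V \ bx a b) (fun f : Site d (k + 1) → Fin q =>
      ∀ σ ∈ sd d K a b, ald (1 / (d : ℝ) ^ 11) A₀ (GQ d K k a b σ) f) ≤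
      ∑ s ∈ E16_S d, ∑ X ∈ (bdo V (SB d K k a b s)).powerset.filter
        (fun X => (X.card : ℝ) ≤ W1 d / (d : ℝ) ^ 8),
        cV (V \ bx a b) (fun f : Site d (k + 1) → Fin q =>
          ∀ y ∈ bdo V (SB d K k a b s) \ X, fol A₀ f y) := by
    refine E16_union _ _ (E16_S d) _
      (fun s X f => ∀ y ∈ bdo V (SB d K k a b s) \ X, fol A₀ f y) ?_
    intro f hf hfa
    obtain ⟨s, hs, hsc⟩ := h₂ d hd2 q hq k K hn a b hD A₀ V hVG hQV f hf hfa
    refine ⟨s, E16_mem_S.2 hs, (bdo V (SB d K k a b s)).filter fun y => ¬ fol A₀ f y, ?_, ?_⟩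
    · rw [Finset.mem_filter, Finset.mem_powerset]
      exact ⟨Finset.filter_subset _ _, hsc⟩
    · intro y hy
      rw [Finset.mem_sdiff, Finset.mem_filter] at hy
      by_contra hc
      exact hy.2 ⟨hy.1, hc⟩
  have hZ : 0 ≤ ZV q V := E16_cV_nonneg (q := q) V (fun _ => True)
  -- the terms
  have hterm : ∀ s ∈ E16_S d, (∑ X ∈ (bdo V (SB d K k a b s)).powerset.filter
        (fun X => (X.card : ℝ) ≤ W1 d / (d : ℝ) ^ 8),
        cV (V \ bx a b) (fun f : Site d (k + 1) → Fin q =>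
          ∀ y ∈ bdo V (SB d K k a b s) \ X, fol A₀ f y)) *
          (1 / 2 : ℝ) ^ (bx a b : Finset (Site d (k + 1))).card ≤
      Real.exp (W1 d / (d : ℝ) ^ 10) * (Real.exp (7 * (W1 d / (d : ℝ) ^ 7)) * ZV q V) := by
    intro s hs
    have hs' : okS d s := E16_mem_S.1 hs
    obtain ⟨g1, g2, g3⟩ := SB_sub (k := k) hd10 hn hD hs'
    have hSV : SB d K k a b s ⊆ V := by
      intro x hx
      rw [hV, Finset.mem_sdiff]
      exact ⟨g2 hx, fun h => Finset.disjoint_left.1 hR h (g3 hx)⟩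
    have hsh := h₃ d hd3 q hq k hk (hC d) (by
      unfold hC
      have : d ≤ d ^ 30 := Nat.le_self_pow (by norm_num) d
      omega) a b (sa a s) (sb (nC d K) b s) (E16_geo hd0 hn hD hs')
    have hshell : rho d (hC d) * ((SB d K k a b s \ bx a b).card : ℝ) ≤ W1 d / (d : ℝ) ^ 10 := by
      have c1 := card_shell (k := k) hd10 hn hD hs'
      have c2 := mul_le_mul_of_nonneg_left c1 (E16_rho_nonneg hd0)
      have c3 := mul_le_mul_of_nonneg_right (E16_rho hd0) (E16_W1_pos (d := d) (by omega)).le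
      calc rho d (hC d) * ((SB d K k a b s \ bx a b).card : ℝ)
          ≤ rho d (hC d) * (10 * d * hC d * W1 d) := c2
        _ = rho d (hC d) * (10 * d * hC d) * W1 d := by ring
        _ ≤ 1 / (d : ℝ) ^ 10 * W1 d := c3
        _ = W1 d / (d : ℝ) ^ 10 := by ring
    have hX : ∀ X ∈ (bdo V (SB d K k a b s)).powerset.filter
        (fun X => (X.card : ℝ) ≤ W1 d / (d : ℝ) ^ 8),
        cV (V \ bx a b) (fun f : Site d (k + 1) → Fin q =>
          ∀ y ∈ bdo V (SB d K k a b s) \ X, fol A₀ f y) *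
          (1 / 2 : ℝ) ^ (bx a b : Finset (Site d (k + 1))).card ≤
        Real.exp (W1 d / (d : ℝ) ^ 10) * ZV q V * Real.exp (d * X.card) := by
      intro X hX
      rw [Finset.mem_filter, Finset.mem_powerset] at hX
      have f1 := E16_fix (by omega) hqe hq4 A₀ hA V (SB d K k a b s) (bx a b) X hSV g1 hX.1
        (rho d (hC d)) hsh
      have f2 : Real.exp (rho d (hC d) * ((SB d K k a b s \ bx a b).card : ℝ)) ≤
          Real.exp (W1 d / (d : ℝ) ^ 10) := Real.exp_le_exp.2 hshell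
      have f3 : 0 ≤ Real.exp (d * X.card) * ZV q V := by positivity
      calc _ ≤ _ := f1
        _ ≤ Real.exp (W1 d / (d : ℝ) ^ 10) * (Real.exp (d * X.card) * ZV q V) :=
            mul_le_mul_of_nonneg_right f2 f3
        _ = _ := by ring
    rw [Finset.sum_mul]
    refine (Finset.sum_le_sum hX).trans ?_
    rw [← Finset.mul_sum]
    have g4 := small_subsets d (by omega) (bdo V (SB d K k a b s)) (W1 d / (d : ℝ) ^ 8)
    have g5 : Real.exp (W1 d / (d : ℝ) ^ 8 * (d + 8 * Real.log d) +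
        ((bdo V (SB d K k a b s)).card : ℝ) / (d : ℝ) ^ 8) ≤ Real.exp (7 * (W1 d / (d : ℝ) ^ 7)) :=
      Real.exp_le_exp.2 (E16_sum hd0 (card_bdo (k := k) hd10 hn hD hs' hVG))
    have g6 : 0 ≤ Real.exp (W1 d / (d : ℝ) ^ 10) * ZV q V := by positivity
    calc _ ≤ Real.exp (W1 d / (d : ℝ) ^ 10) * ZV q V * Real.exp (7 * (W1 d / (d : ℝ) ^ 7)) :=
          mul_le_mul_of_nonneg_left (g4.trans g5) g6
      _ = _ := by ring
  -- the sum
  have hpw : (0 : ℝ) ≤ (1 / 2 : ℝ) ^ (bx a b : Finset (Site d (k + 1))).card := by positivity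
  have htot : cV (V \ bx a b) (fun f : Site d (k + 1) → Fin q =>
      ∀ σ ∈ sd d K a b, ald (1 / (d : ℝ) ^ 11) A₀ (GQ d K k a b σ) f) *
      (1 / 2 : ℝ) ^ (bx a b : Finset (Site d (k + 1))).card ≤
      Real.exp (W1 d / (d : ℝ) ^ 10) *
        (Real.exp (W1 d / (d : ℝ) ^ 10) * (Real.exp (7 * (W1 d / (d : ℝ) ^ 7)) * ZV q V)) := by
    have s1 := mul_le_mul_of_nonneg_right hun hpw
    rw [Finset.sum_mul] at s1
    have s2 := s1.trans (Finset.sum_le_sum hterm)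
    rw [Finset.sum_const, nsmul_eq_mul] at s2
    refine s2.trans ?_
    apply mul_le_mul_of_nonneg_right ((E16_card_S d).trans (E16_cnt hd0))
    positivity
  have hfin := Real.exp_le_exp.2 (E16_fin hd0)
  rw [Real.exp_add, Real.exp_add, Real.exp_add] at hfin
  calc ZV q (V \ bx a b) * (1 / 2 : ℝ) ^ (bx a b : Finset (Site d (k + 1))).card
      ≤ Real.exp (W1 d / (d : ℝ) ^ 10) * cV (V \ bx a b) (fun f : Site d (k + 1) → Fin q =>
          ∀ σ ∈ sd d K a b, ald (1 / (d : ℝ) ^ 11) A₀ (GQ d K k a b σ) f) *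
          (1 / 2 : ℝ) ^ (bx a b : Finset (Site d (k + 1))).card :=
        mul_le_mul_of_nonneg_right hal hpw
    _ = Real.exp (W1 d / (d : ℝ) ^ 10) * (cV (V \ bx a b) (fun f : Site d (k + 1) → Fin q =>
          ∀ σ ∈ sd d K a b, ald (1 / (d : ℝ) ^ 11) A₀ (GQ d K k a b σ) f) *
          (1 / 2 : ℝ) ^ (bx a b : Finset (Site d (k + 1))).card) := by ring
    _ ≤ Real.exp (W1 d / (d : ℝ) ^ 10) * (Real.exp (W1 d / (d : ℝ) ^ 10) *
        (Real.exp (W1 d / (d : ℝ) ^ 10) * (Real.exp (7 * (W1 d / (d : ℝ) ^ 7)) * ZV q V))) :=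
        mul_le_mul_of_nonneg_left htot (Real.exp_pos _).le
    _ = Real.exp (W1 d / (d : ℝ) ^ 10) * (Real.exp (W1 d / (d : ℝ) ^ 10) *
        (Real.exp (W1 d / (d : ℝ) ^ 10) * Real.exp (7 * (W1 d / (d : ℝ) ^ 7)))) * ZV q V := by ring
    _ ≤ Real.exp (W1 d / (400 * (d : ℝ) ^ 5)) * ZV q V := mul_le_mul_of_nonneg_right hfin hZ
    _ = ZV q V * Real.exp (W1 d / (400 * (d : ℝ) ^ 5)) := by ring

end Pool.Agent.COR
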