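import Mathlib

/-!
# Lines (piece F01, (F1) abstract)

`P = piFinset s`, `|P| = ∏ |s i|`.  For `t, t' ∈ P` let `u m` (`m = 0, …, d`) be the point with coordinates `t' i` for `i < m` and `t i`
for `i ≥ m`.  `(t, t')` is called bad at `m < d` if the line `{update (u m) m y : y ∈ s m}` meets `B`.  For fixed `m` the map
`(t,t') ↦ (u m, complementary point)` is a bijection of `P × P`, and at most `|B| |s m| ≤ |B| w ≤ |P|/(100 d)` points `u ∈ P` have a
line in direction `m` which meets `B`; so at most `|P|²/(100 d)` pairs are bad at `m`, at most `|P|²/100` pairs are bad.  For a pair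
which is not bad: `lab t = lab t'` (`hl` along the path), `t, t' ∉ B` (`d ≥ 1`).  So some `t` has at least `0.99 |P|` partners `t'`;
`A = lab t`.
-/

set_option autoImplicit false

open Finset

namespace Pool.Agent.COR

private def mixp {d : ℕ} {α : Type} (t t' : Fin d → α) (m : ℕ) : Fin d → α :=
  fun i => if i.val < m then t' i else t i

private theorem mixp_zero {d : ℕ} {α : Type} (t t' : Fin d → α) : mixp t t' 0 = t := by
  funext i; simp [mixp]

private theorem mixp_full {d : ℕ} {α : Type} (t t' : Fin d → α) : mixp t t' d = t' := by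
  funext i; simp [mixp, i.isLt]

private theorem mixp_succ {d : ℕ} {α : Type} (t t' : Fin d → α) (m : Fin d) :
    mixp t t' (m.val + 1) = Function.update (mixp t t' m.val) m (t' m) := by
  classical
  funext i
  by_cases h : i = m
  · subst h; simp [mixp]
  · have h' : i.val ≠ m.val := fun e => h (Fin.ext e)
    rw [Function.update_of_ne h]
    simp only [mixp]
    have : (i.val < m.val + 1) ↔ (i.val < m.val) := by omega
    simp [this]

private theorem mixp_mem {d : ℕ} {α : Type} (s : Fin d → Finset α) (t t' : Fin d → α)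
    (ht : t ∈ Fintype.piFinset s) (ht' : t' ∈ Fintype.piFinset s) (m : ℕ) :
    mixp t t' m ∈ Fintype.piFinset s := by
  rw [Fintype.mem_piFinset] at *
  intro i
  simp only [mixp]
  split_ifs
  · exact ht' i
  · exact ht i

private theorem mixp_inj {d : ℕ} {α : Type} (t t' v v' : Fin d → α) (m : ℕ)
    (h1 : mixp t t' m = mixp v v' m) (h2 : mixp t' t m = mixp v' v m) : t = v ∧ t' = v' := by
  constructor
  · funext i
    by_cases h : i.val < m
    · have := congrFun h2 i
      simpa [mixp, h] using this
    · have := congrFun h1 i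
      simpa [mixp, h] using this
  · funext i
    by_cases h : i.val < m
    · have := congrFun h1 i
      simpa [mixp, h] using this
    · have := congrFun h2 i
      simpa [mixp, h] using this

open scoped Classical in
private noncomputable def lbad {d : ℕ} {α : Type} (s : Fin d → Finset α) (B : Finset (Fin d → α))
    (m : Fin d) : Finset (Fin d → α) :=
  (Fintype.piFinset s).filter fun v => ∃ y ∈ s m, Function.update v m y ∈ B

open scoped Classical in
private theorem lbad_card {d : ℕ} {α : Type} (s : Fin d → Finset α) (B : Finset (Fin d → α))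
    (m : Fin d) : (lbad s B m).card ≤ B.card * (s m).card := by
  have hsub : lbad s B m ⊆ (B ×ˢ s m).image (fun p => Function.update p.1 m p.2) := by
    intro v hv
    simp only [lbad, Finset.mem_filter, Fintype.mem_piFinset] at hv
    obtain ⟨hvP, y, hy, hyB⟩ := hv
    rw [Finset.mem_image]
    refine ⟨(Function.update v m y, v m), Finset.mem_product.2 ⟨hyB, hvP m⟩, ?_⟩
    simp
  calc (lbad s B m).card ≤ ((B ×ˢ s m).image (fun p => Function.update p.1 m p.2)).card :=
        Finset.card_le_card hsub
    _ ≤ (B ×ˢ s m).card := Finset.card_image_le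
    _ = B.card * (s m).card := Finset.card_product _ _

open scoped Classical in
private theorem pairs_card {d : ℕ} {α : Type} (s : Fin d → Finset α) (B : Finset (Fin d → α))
    (m : Fin d) :
    (((Fintype.piFinset s) ×ˢ (Fintype.piFinset s)).filter
      fun p => mixp p.1 p.2 m.val ∈ lbad s B m).card ≤
      (lbad s B m).card * (Fintype.piFinset s).card := by
  rw [← Finset.card_product]
  apply Finset.card_le_card_of_injOn (fun p => (mixp p.1 p.2 m.val, mixp p.2 p.1 m.val))
  · intro p hp
    simp only [Finset.coe_filter, Finset.mem_product, Set.mem_ofPred_eq] at hp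
    simp only [Finset.coe_product, Set.mem_prod, Finset.mem_coe]
    exact ⟨hp.2, mixp_mem s _ _ hp.1.2 hp.1.1 _⟩
  · intro p _ q _ hpq
    simp only [Prod.mk.injEq] at hpq
    obtain ⟨h1, h2⟩ := mixp_inj _ _ _ _ _ hpq.1 hpq.2
    exact Prod.ext h1 h2

open scoped Classical in
theorem lines {d : ℕ} (hd : 1 ≤ d) {α L : Type} (s : Fin d → Finset α) (hne : ∀ i, (s i).Nonempty) (w : ℝ)
    (hs : ∀ i, ((s i).card : ℝ) ≤ w) (B : Finset (Fin d → α))
    (hB : (B.card : ℝ) * (100 * d * w) ≤ ∏ i, ((s i).card : ℝ)) (lab : (Fin d → α) → L)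
    (hl : ∀ t ∈ Fintype.piFinset s, ∀ i, ∀ x ∈ s i, (∀ y ∈ s i, Function.update t i y ∉ B) →
      lab (Function.update t i x) = lab t) :
    ∃ A : L, 49 / 50 * ∏ i, ((s i).card : ℝ) ≤
      (((Fintype.piFinset s).filter fun t => t ∉ B ∧ lab t = A).card : ℝ) := by
  have hPc : ((Fintype.piFinset s).card : ℝ) = ∏ i, ((s i).card : ℝ) := by
    rw [Fintype.card_piFinset]; push_cast; rfl
  rw [← hPc] at hB ⊢
  set P := Fintype.piFinset s with hPdef
  have hPne : P.Nonempty := Fintype.piFinset_nonempty.2 hne
  have hPpos : (0 : ℝ) < P.card := by exact_mod_cast hPne.card_pos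
  have hd0 : (0 : ℝ) < d := by exact_mod_cast hd
  -- bad pairs
  set bp : (Fin d → α) → (Fin d → α) → Prop := fun t t' => ∃ m : Fin d, mixp t t' m.val ∈ lbad s B m
    with hbp
  have hbound : (((P ×ˢ P).filter fun p => bp p.1 p.2).card : ℝ) ≤ (P.card : ℝ) ^ 2 / 100 := by
    have h1 : ((P ×ˢ P).filter fun p => bp p.1 p.2).card ≤
        ∑ m : Fin d, ((P ×ˢ P).filter fun p => mixp p.1 p.2 m.val ∈ lbad s B m).card := by
      have hsub : ((P ×ˢ P).filter fun p => bp p.1 p.2) ⊆
          (Finset.univ : Finset (Fin d)).biUnion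
            (fun m => (P ×ˢ P).filter fun p => mixp p.1 p.2 m.val ∈ lbad s B m) := by
        intro p hp
        rw [Finset.mem_filter] at hp
        obtain ⟨hp1, m, hm⟩ := hp
        rw [Finset.mem_biUnion]
        exact ⟨m, Finset.mem_univ _, Finset.mem_filter.2 ⟨hp1, hm⟩⟩
      exact (Finset.card_le_card hsub).trans Finset.card_biUnion_le
    have h2 : ∀ m : Fin d, ((((P ×ˢ P).filter fun p => mixp p.1 p.2 m.val ∈ lbad s B m).card : ℕ) : ℝ)
        ≤ (B.card : ℝ) * w * P.card := by
      intro m
      have ha := pairs_card s B m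
      have hb := lbad_card s B m
      have hc : ((P ×ˢ P).filter fun p => mixp p.1 p.2 m.val ∈ lbad s B m).card
          ≤ B.card * (s m).card * P.card := ha.trans (Nat.mul_le_mul_right _ hb)
      have hc' : ((((P ×ˢ P).filter fun p => mixp p.1 p.2 m.val ∈ lbad s B m).card : ℕ) : ℝ)
          ≤ (B.card : ℝ) * (s m).card * P.card := by exact_mod_cast hc
      refine hc'.trans ?_
      apply mul_le_mul_of_nonneg_right _ hPpos.le
      exact mul_le_mul_of_nonneg_left (hs m) (Nat.cast_nonneg _)
    calc (((P ×ˢ P).filter fun p => bp p.1 p.2).card : ℝ)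
        ≤ ∑ m : Fin d, ((((P ×ˢ P).filter fun p => mixp p.1 p.2 m.val ∈ lbad s B m).card : ℕ) : ℝ) := by
          exact_mod_cast h1
      _ ≤ ∑ _m : Fin d, (B.card : ℝ) * w * P.card := Finset.sum_le_sum fun m _ => h2 m
      _ = d * ((B.card : ℝ) * w * P.card) := by simp
      _ = ((B.card : ℝ) * (100 * d * w)) * P.card / 100 := by ring
      _ ≤ (P.card : ℝ) * P.card / 100 := by
          apply div_le_div_of_nonneg_right _ (by norm_num)
          exact mul_le_mul_of_nonneg_right hB hPpos.le
      _ = (P.card : ℝ) ^ 2 / 100 := by ring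
  -- averaging
  have hsum : (((P ×ˢ P).filter fun p => bp p.1 p.2).card : ℝ) =
      ∑ t ∈ P, ((P.filter fun t' => bp t t').card : ℝ) := by
    rw [Finset.card_filter, Finset.sum_product]
    push_cast
    apply Finset.sum_congr rfl
    intro t _
    rw [Finset.card_filter]
    push_cast
    rfl
  obtain ⟨t, htP, ht⟩ : ∃ t ∈ P, ((P.filter fun t' => bp t t').card : ℝ) ≤ (P.card : ℝ) / 100 := by
    by_contra hcon
    push Not at hcon
    have h3 : ∑ t ∈ P, ((P.card : ℝ) / 100) < ∑ t ∈ P, ((P.filter fun t' => bp t t').card : ℝ) :=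
      Finset.sum_lt_sum_of_nonempty hPne hcon
    rw [← hsum] at h3
    simp only [Finset.sum_const, nsmul_eq_mul] at h3
    have : (P.card : ℝ) * ((P.card : ℝ) / 100) = (P.card : ℝ) ^ 2 / 100 := by ring
    rw [this] at h3
    exact absurd hbound (not_le.2 h3)
  refine ⟨lab t, ?_⟩
  have hgood : ∀ t' ∈ P, ¬ bp t t' → t' ∉ B ∧ lab t' = lab t := by
    intro t' ht' hnb
    have hmiss : ∀ m : Fin d, ∀ y ∈ s m, Function.update (mixp t t' m.val) m y ∉ B := by
      intro m y hy hin
      apply hnb
      refine ⟨m, ?_⟩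
      simp only [lbad, Finset.mem_filter]
      exact ⟨mixp_mem s t t' htP ht' _, y, hy, hin⟩
    have ht'm : ∀ m, t' m ∈ s m := Fintype.mem_piFinset.1 ht'
    have hlab : ∀ m : ℕ, m ≤ d → lab (mixp t t' m) = lab t := by
      intro m
      induction m with
      | zero => intro _; rw [mixp_zero]
      | succ m ih =>
        intro hm
        have hmd : m < d := hm
        have := mixp_succ t t' ⟨m, hmd⟩
        simp only at this
        rw [this, hl _ (mixp_mem s t t' htP ht' _) _ _ (ht'm _) (hmiss ⟨m, hmd⟩)]
        exact ih (by omega)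
    constructor
    · have hm : d - 1 < d := by omega
      have h5 := mixp_succ t t' ⟨d - 1, hm⟩
      simp only at h5
      have h6 : d - 1 + 1 = d := by omega
      rw [h6, mixp_full] at h5
      rw [h5]
      exact hmiss ⟨d - 1, hm⟩ _ (ht'm _)
    · have h7 := hlab d le_rfl
      rwa [mixp_full] at h7
  have hsplit : (P.filter fun t' => bp t t').card + (P.filter fun t' => ¬ bp t t').card = P.card :=
    Finset.card_filter_add_card_filter_not _
  have hle : (P.filter fun t' => ¬ bp t t').card ≤ (P.filter fun t' => t' ∉ B ∧ lab t' = lab t).card := by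
    apply Finset.card_le_card
    intro t' ht'
    rw [Finset.mem_filter] at ht' ⊢
    exact ⟨ht'.1, hgood t' ht'.1 ht'.2⟩
  have hsplit' : ((P.filter fun t' => bp t t').card : ℝ) + ((P.filter fun t' => ¬ bp t t').card : ℝ)
      = P.card := by exact_mod_cast hsplit
  have hle' : ((P.filter fun t' => ¬ bp t t').card : ℝ) ≤
      ((P.filter fun t' => t' ∉ B ∧ lab t' = lab t).card : ℝ) := by exact_mod_cast hle
  linarith

end Pool.Agent.COR
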