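import Pool.Agent.Lib_MP_2c424f_cor.F01
import Pool.Agent.Lib_MP_2c424f_cor.E02
import Pool.Agent.Lib_MP_2c424f_cor.C04
import Pool.Agent.Lib_MP_2c424f_cor.B01
import Pool.Agent.Lib_MP_2c424f_lo.Lab

/-!
# Boxes which are not pure (piece F02, (F1))

`gr a b = piFinset s`, `s i = {x : a i ≤ 2 x.val, 2 x.val + 2 ≤ b i}` (an interval of `(b i - a i)/2 ≤ w` consecutive values, without
wrapping since `b i + 4 ≤ 2^(k+1)`).  Suppose `100 d w #{t ∈ gr : ¬ GD t f} < |gr|` and apply `lines` with `B = {t ∈ gr : ¬ GD t f}`,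
`lab t = AL f t`.  `hl`: on a line all of whose blocks are good, consecutive blocks `t`, `nxt t i` have the same `AL`
(`lab_adj` for each colour, `GD_iff`), so all blocks of the line have the same `AL` (induction).  The set `A` has `q/2` elements because
some block (`|gr| > 0`) is `GD` with `AL = A`.
-/

set_option autoImplicit false

open Finset

namespace Pool.Agent.COR

open Pool.Agent.LO

variable {d k q : ℕ}

open scoped Classical in
/-- pure box -/
def PU (a b : Fin d → ℕ) (f : Site d (k + 1) → Fin q) : Prop :=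
  ∃ A : Finset (Fin q), A.card = q / 2 ∧ 49 / 50 * ((gr a b : Finset (Blk d k)).card : ℝ) ≤
    (((gr a b : Finset (Blk d k)).filter fun t => GD t f ∧ AL f t = A).card : ℝ)

private theorem F02_pt (t : Blk d k) (a b : Bt d) (j : Fin d) :
    pt t a b j = ((2 * (t j).val + (if a j then 1 else 0) + (if b j then 1 else 0) : ℕ) :
      ZMod (2 ^ (k + 1))) := by
  simp only [pt, bas, bv, Pi.add_apply]
  push_cast
  rfl

private theorem F02_mem {a b : Fin d → ℕ} (hab : ∀ i, b i < 2 ^ (k + 1)) (t : Blk d k)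
    (ht : ∀ i, a i ≤ 2 * (t i).val ∧ 2 * (t i).val + 2 ≤ b i) (a' b' : Bt d) :
    pt t a' b' ∈ (bx a b : Finset (Site d (k + 1))) := by
  unfold bx
  rw [mem_filter]
  refine ⟨mem_univ _, fun i => ?_⟩
  obtain ⟨h1, h2⟩ := ht i
  have h3 := hab i
  have h4 : (if a' i then 1 else 0) + (if b' i then 1 else 0) ≤ 2 := by
    split_ifs <;> omega
  rw [F02_pt, ZMod.val_natCast_of_lt (by omega)]
  omega

private theorem F02_gr {a b : Fin d → ℕ} {t : Blk d k} :
    t ∈ (gr a b : Finset (Blk d k)) ↔ ∀ i, a i ≤ 2 * (t i).val ∧ 2 * (t i).val + 2 ≤ b i := by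
  unfold gr
  rw [mem_filter]
  simp only [mem_univ, true_and]

theorem PU_loc {a b : Fin d → ℕ} (hab : ∀ i, b i < 2 ^ (k + 1)) (f g : Site d (k + 1) → Fin q)
    (h : ∀ x ∈ (bx a b : Finset (Site d (k + 1))), f x = g x) (hf : PU a b f) : PU a b g := by
  classical
  obtain ⟨A, hA, h1⟩ := hf
  refine ⟨A, hA, h1.trans ?_⟩
  have h3 : ((gr a b : Finset (Blk d k)).filter fun t => GD t f ∧ AL f t = A) ⊆
      (gr a b : Finset (Blk d k)).filter fun t => GD t g ∧ AL g t = A := by
    intro t ht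
    obtain ⟨h4, h5⟩ := mem_filter.1 ht
    have h2 : ∀ a' b', f (pt t a' b') = g (pt t a' b') := fun a' b' =>
      h _ (F02_mem hab t (F02_gr.1 h4) a' b')
    rw [GD_loc t f g h2, AL_loc t f g h2] at h5
    exact mem_filter.2 ⟨h4, h5⟩
  exact_mod_cast card_le_card h3

private theorem F02_lines {d : ℕ} (hd : 1 ≤ d) {α L : Type} (s : Fin d → Finset α) (hne : ∀ i, (s i).Nonempty)
    (w : ℝ) (hs : ∀ i, ((s i).card : ℝ) ≤ w) (B : Finset (Fin d → α))
    (hB : (B.card : ℝ) * (100 * d * w) ≤ ∏ i, ((s i).card : ℝ)) (lab : (Fin d → α) → L)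
    (hl : ∀ t ∈ Fintype.piFinset s, ∀ i, ∀ x ∈ s i, (∀ y ∈ s i, Function.update t i y ∉ B) →
      lab (Function.update t i x) = lab t) :
    ∃ (A : L) (P : Finset (Fin d → α)), (∀ t ∈ P, t ∈ Fintype.piFinset s ∧ t ∉ B ∧ lab t = A) ∧
      49 / 50 * ∏ i, ((s i).card : ℝ) ≤ (P.card : ℝ) := by
  classical
  obtain ⟨A, hA⟩ := lines hd s hne w hs B hB lab hl
  refine ⟨A, _, fun t ht => ?_, hA⟩
  exact Finset.mem_filter.1 ht

/-- adjacent good blocks have the same set -/
private theorem F02_step (hd : 2 ≤ d) (hk : 1 ≤ k) (hq : 1 ≤ q) (f : Site d (k + 1) → Fin q) (t : Blk d k)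
    (j : Fin d) (h1 : GD t f) (h2 : GD (nxt t j) f) : AL f (nxt t j) = AL f t := by
  ext c
  rw [(GD_iff (by omega) hq h1.1 c).2, (GD_iff (by omega) hq h2.1 c).2,
    lab_adj hd hk hq c f t j (h1.1 c) (h2.1 c)]

private theorem F02_line (hd : 2 ≤ d) (hk : 1 ≤ k) (hq : 1 ≤ q) (f : Site d (k + 1) → Fin q) (t : Blk d k)
    (j : Fin d) (lo hi : ℕ)
    (hG : ∀ m, lo ≤ m → m < hi → GD (Function.update t j ((m : ℕ) : ZMod (2 ^ k))) f) (m : ℕ) (h1 : lo ≤ m)
    (h2 : m < hi) : AL f (Function.update t j ((m : ℕ) : ZMod (2 ^ k))) =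
      AL f (Function.update t j ((lo : ℕ) : ZMod (2 ^ k))) := by
  induction m, h1 using Nat.le_induction with
  | base => rfl
  | succ m hm ih =>
    have h3 : nxt (Function.update t j ((m : ℕ) : ZMod (2 ^ k))) j =
        Function.update t j (((m + 1 : ℕ)) : ZMod (2 ^ k)) := by
      unfold nxt
      rw [Function.update_self, Function.update_idem, Nat.cast_add, Nat.cast_one]
    have h4 := F02_step hd hk hq f (Function.update t j ((m : ℕ) : ZMod (2 ^ k))) j
      (hG m hm (by omega)) (by rw [h3]; exact hG (m + 1) (by omega) h2)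
    rw [h3] at h4
    rw [h4]
    exact ih (by omega)

open scoped Classical in
theorem not_pure {K : ℕ} (hd : 10 ≤ d) (hk : 1 ≤ k) (hq : 1 ≤ q) (hn : nC d K + 4 ≤ 2 ^ (k + 1))
    {a b : Fin d → ℕ} (hD : dbx d K a b) (f : Site d (k + 1) → Fin q) (h : ¬ PU a b f) :
    ((gr a b : Finset (Blk d k)).card : ℝ) / (100 * d * wC d) ≤
      (((gr a b : Finset (Blk d k)).filter fun t => ¬ GD t f).card : ℝ) := by
  classical
  by_contra hcon
  push Not at hcon
  have hev := evb_dbx hd hn hD
  have hw : 1 ≤ wC d := by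
    unfold wC
    have : 1 ≤ d ^ 33 := Nat.one_le_pow _ _ (by omega)
    omega
  have hpw : 2 ^ (k + 1) = 2 * 2 ^ k := by ring
  set s : Fin d → Finset (ZMod (2 ^ k)) := fun i =>
    univ.filter fun z : ZMod (2 ^ k) => a i ≤ 2 * z.val ∧ 2 * z.val + 2 ≤ b i with hs
  have hms : ∀ i z, z ∈ s i ↔ a i ≤ 2 * z.val ∧ 2 * z.val + 2 ≤ b i := by
    intro i z
    rw [hs]
    simp only [mem_filter, mem_univ, true_and]
  have hgr : (gr a b : Finset (Blk d k)) = Fintype.piFinset s := by
    ext t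
    rw [F02_gr, Fintype.mem_piFinset]
    exact forall_congr' fun i => (hms i _).symm
  have hcard : ((gr a b : Finset (Blk d k)).card : ℝ) = ∏ i, ((s i).card : ℝ) := by
    rw [hgr, Fintype.card_piFinset]
    push_cast
    rfl
  have hne : ∀ i, (s i).Nonempty := by
    intro i
    obtain ⟨⟨c, hc⟩, ⟨c', hc'⟩, e3, e4⟩ := hev i
    refine ⟨((c : ℕ) : ZMod (2 ^ k)), (hms i _).2 ?_⟩
    rw [ZMod.val_natCast_of_lt (by omega)]
    omega
  have hsw : ∀ i, ((s i).card : ℝ) ≤ (wC d : ℝ) := by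
    intro i
    obtain ⟨⟨c, hc⟩, ⟨c', hc'⟩, e3, e4⟩ := hev i
    have h1 := (dbx_act hd hD i).2.2.2
    have h2 : ((s i).image ZMod.val) ⊆ Finset.Ico c c' := by
      intro x hx
      obtain ⟨z, hz, rfl⟩ := mem_image.1 hx
      have h3 := (hms i z).1 hz
      rw [mem_Ico]
      omega
    have h3 := card_le_card h2
    rw [Finset.card_image_of_injective _ (ZMod.val_injective _), Nat.card_Ico] at h3
    have h4 : (s i).card ≤ wC d := by omega
    exact_mod_cast h4
  set B : Finset (Blk d k) := (gr a b : Finset (Blk d k)).filter fun t => ¬ GD t f with hB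
  have hmB : ∀ t, t ∈ (gr a b : Finset (Blk d k)) → (t ∉ B ↔ GD t f) := by
    intro t ht
    rw [hB, mem_filter, not_and, not_not]
    exact ⟨fun h => h ht, fun h _ => h⟩
  have hdw : (0 : ℝ) < 100 * d * wC d := by
    have h1 : (0 : ℝ) < d := by exact_mod_cast (show 0 < d by omega)
    have h2 : (0 : ℝ) < wC d := by exact_mod_cast (show 0 < wC d by omega)
    positivity
  have hBc : (B.card : ℝ) * (100 * d * wC d) ≤ ∏ i, ((s i).card : ℝ) := by
    rw [← hcard]
    rw [lt_div_iff₀ hdw] at hcon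
    exact hcon.le
  obtain ⟨A, P, hP, hA⟩ := F02_lines (by omega) s hne (wC d) hsw B hBc (fun t => AL f t) (by
    intro t ht i x hx hall
    have hup : ∀ y ∈ s i, Function.update t i y ∈ (gr a b : Finset (Blk d k)) := by
      intro y hy
      rw [hgr, Fintype.mem_piFinset]
      intro j
      by_cases hj : j = i
      · subst hj
        rw [Function.update_self]
        exact hy
      · rw [Function.update_of_ne hj]
        exact Fintype.mem_piFinset.1 ht j
    obtain ⟨⟨c, hc⟩, ⟨c', hc'⟩, e3, e4⟩ := hev i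
    have hG : ∀ m, c ≤ m → m < c' → GD (Function.update t i ((m : ℕ) : ZMod (2 ^ k))) f := by
      intro m h1 h2
      have h3 : ((m : ℕ) : ZMod (2 ^ k)) ∈ s i := by
        rw [hms, ZMod.val_natCast_of_lt (by omega)]
        omega
      exact (hmB _ (hup _ h3)).1 (hall _ h3)
    have hline := F02_line (by omega) hk hq f t i c c' hG
    have hx' : ∀ y ∈ s i, AL f (Function.update t i y) =
        AL f (Function.update t i ((c : ℕ) : ZMod (2 ^ k))) := by
      intro y hy
      have h1 := (hms i y).1 hy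
      have h2 := hline y.val (by omega) (by omega)
      rw [ZMod.natCast_zmod_val] at h2
      exact h2
    have h1 := hx' x hx
    have h2 := hx' (t i) (Fintype.mem_piFinset.1 ht i)
    rw [Function.update_eq_self] at h2
    show AL f (Function.update t i x) = AL f t
    rw [h1, h2])
  have hA' : 49 / 50 * ∏ i, ((s i).card : ℝ) ≤
      (((gr a b : Finset (Blk d k)).filter fun t => GD t f ∧ AL f t = A).card : ℝ) := by
    refine hA.trans ?_
    have h2 : P ⊆ (gr a b : Finset (Blk d k)).filter fun t => GD t f ∧ AL f t = A := by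
      intro t ht
      obtain ⟨h3, h4, h5⟩ := hP t ht
      rw [← hgr] at h3
      exact mem_filter.2 ⟨h3, (hmB t h3).1 h4, h5⟩
    exact_mod_cast card_le_card h2
  have hpos : (0 : ℝ) < ∏ i, ((s i).card : ℝ) := by
    refine Finset.prod_pos fun i _ => ?_
    exact_mod_cast Finset.card_pos.2 (hne i)
  refine h ⟨A, ?_, ?_⟩
  · have h1 : (0 : ℝ) < (((gr a b : Finset (Blk d k)).filter fun t => GD t f ∧ AL f t = A).card : ℝ) := by
      refine lt_of_lt_of_le ?_ hA'
      exact mul_pos (by norm_num) hpos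
    have h2 : 0 < ((gr a b : Finset (Blk d k)).filter fun t => GD t f ∧ AL f t = A).card := by
      exact_mod_cast h1
    obtain ⟨t, ht⟩ := Finset.card_pos.1 h2
    rw [mem_filter] at ht
    rw [← ht.2.2]
    exact ht.2.1.2
  · rw [hcard]
    exact hA'

end Pool.Agent.COR
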