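import Pool.Agent.Lib_MP_2c424f_cor.F02
import Pool.Agent.Lib_MP_2c424f_cor.E01
import Pool.Agent.Lib_MP_2c424f_cor.E05

/-!
# Impure boxes are rare, one box (piece F03, (F2))

`not_pure` and `many_notGD` with `m = w - 2` (`evb_dbx`, `dbx_act`), `N₀ = |gr|/(100 d w)`.  `|bx| ≤ 2 w^d`,
`2^d |gr| = ∏ (b i - a i) ≥ (w-2)^d ≥ 0.9 w^d` (`card_gr`, `card_bx`, `num_lo2`), `w^d = w W1` (`d ≥ 1`).
Exponent: `ρ |bx| ≤ (6/(d-1)^45 + d²/(w-2)²) 2 w W1 ≤ W1/d^9`;  `|gr| log (4q+2) ≤ (2 w/2^d) d W1 ≤ W1/d^9` for large `d`;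
`N₀ 2^d/d^3 ≥ 0.9 w^d/(100 d^4 w) = 0.009 W1/d^4`.  Total `≤ -W1/(200 d^5)`.
-/

set_option autoImplicit false

open Finset

namespace Pool.Agent.COR

open Pool.Agent.LO

private theorem F03_two : ∃ d₀ : ℕ, ∀ d : ℕ, d₀ ≤ d → (d : ℝ) ^ 50 ≤ 2 ^ d := by
  have h := tendsto_pow_const_div_const_pow_of_one_lt 50 (by norm_num : (1 : ℝ) < 2)
  have h2 := h.eventually (eventually_le_nhds (by norm_num : (0 : ℝ) < 1))
  obtain ⟨d₀, h3⟩ := Filter.eventually_atTop.1 h2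
  refine ⟨d₀, fun d hd => ?_⟩
  have h4 := h3 d hd
  rwa [div_le_one (by positivity)] at h4

private theorem F03_num {d : ℕ} (hd : 1000 ≤ d) (h2 : (d : ℝ) ^ 50 ≤ 2 ^ d) {Nb Ng L : ℝ}
    (hNb0 : 0 ≤ Nb) (hNb : Nb ≤ 2 * (wC d : ℝ) ^ d) (hNg1 : 9 / 10 * (wC d : ℝ) ^ d ≤ 2 ^ d * Ng)
    (hNg2 : 2 ^ d * Ng ≤ 2 * (wC d : ℝ) ^ d) (hL : L ≤ d) :
    rho d (wC d - 2) * Nb + Ng * L - Ng / (100 * d * wC d) * (2 ^ d / (d : ℝ) ^ 3) ≤
      - (W1 d / (200 * (d : ℝ) ^ 5)) := by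
  have hd' : (1000 : ℝ) ≤ d := by exact_mod_cast hd
  have hd0 : (0 : ℝ) < d := by linarith
  have hd1 : (1 : ℝ) ≤ d := by linarith
  have hwe : (wC d : ℝ) = 2 * (d : ℝ) ^ 33 := by unfold wC; push_cast; ring
  have hw0 : (0 : ℝ) < wC d := by rw [hwe]; positivity
  have h33 : (2 : ℝ) ≤ (d : ℝ) ^ 33 := by
    have : (d : ℝ) ^ 1 ≤ (d : ℝ) ^ 33 := pow_le_pow_right₀ hd1 (by norm_num)
    linarith
  have hw2 : (2 : ℕ) ≤ wC d := by
    have : (2 : ℝ) ≤ (wC d : ℝ) := by rw [hwe]; linarith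
    exact_mod_cast this
  have hwsub : ((wC d - 2 : ℕ) : ℝ) = (wC d : ℝ) - 2 := by
    rw [Nat.cast_sub hw2]; norm_num
  have hW0 : 0 < W1 d := by unfold W1; positivity
  have hwW : (wC d : ℝ) ^ d = wC d * W1 d := by
    unfold W1
    rw [← pow_succ']
    congr 1
    omega
  rw [hwW] at hNb hNg1 hNg2
  have h2d : (0 : ℝ) < 2 ^ d := by positivity
  have hNg0 : 0 ≤ Ng := by
    have h3 : 0 < 2 ^ d * Ng := lt_of_lt_of_le (by positivity) hNg1
    exact ((mul_pos_iff_of_pos_left h2d).1 h3).le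
  -- part A
  have hA : rho d (wC d - 2) * Nb ≤ 52 / (d : ℝ) ^ 12 * W1 d := by
    have a1 : 6 / ((d : ℝ) - 1) ^ 45 ≤ 12 / (d : ℝ) ^ 45 := by
      have b1 : (1 : ℝ) / 2 ≤ (1 + -(1 / (d : ℝ))) ^ 45 := by
        have c0 : 1 / (d : ℝ) ≤ 1 / 1000 := one_div_le_one_div_of_le (by norm_num) hd'
        have c1 := one_add_mul_le_pow (a := -(1 / (d : ℝ))) (by linarith) 45
        push_cast at c1
        linarith
      have b2 : ((d : ℝ) - 1) = d * (1 + -(1 / (d : ℝ))) := by field_simp; ring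
      have b3 : (d : ℝ) ^ 45 / 2 ≤ ((d : ℝ) - 1) ^ 45 := by
        rw [b2, mul_pow]
        have := mul_le_mul_of_nonneg_left b1 (by positivity : (0 : ℝ) ≤ (d : ℝ) ^ 45)
        linarith
      have b4 : (0 : ℝ) < (d : ℝ) ^ 45 := by positivity
      rw [div_le_div_iff₀ (by linarith) b4]
      linarith
    have a2 : ((d : ℝ) / ((wC d - 2 : ℕ) : ℝ)) ^ 2 ≤ 1 / (d : ℝ) ^ 45 := by
      have b1 : (d : ℝ) ^ 33 ≤ ((wC d - 2 : ℕ) : ℝ) := by rw [hwsub, hwe]; linarith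
      have b2 : (d : ℝ) / ((wC d - 2 : ℕ) : ℝ) ≤ 1 / (d : ℝ) ^ 32 := by
        rw [div_le_div_iff₀ (lt_of_lt_of_le (by positivity) b1) (by positivity)]
        calc (d : ℝ) * (d : ℝ) ^ 32 = (d : ℝ) ^ 33 := by ring
          _ ≤ ((wC d - 2 : ℕ) : ℝ) := b1
          _ = 1 * ((wC d - 2 : ℕ) : ℝ) := by ring
      have b3 := pow_le_pow_left₀ (by positivity) b2 2
      refine b3.trans ?_
      rw [div_pow, one_pow, ← pow_mul]
      exact one_div_le_one_div_of_le (by positivity) (pow_le_pow_right₀ hd1 (by norm_num))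
    have a3 : rho d (wC d - 2) ≤ 13 / (d : ℝ) ^ 45 := by
      unfold rho
      have : (13 : ℝ) / (d : ℝ) ^ 45 = 12 / (d : ℝ) ^ 45 + 1 / (d : ℝ) ^ 45 := by ring
      rw [this]
      exact add_le_add a1 a2
    calc rho d (wC d - 2) * Nb ≤ 13 / (d : ℝ) ^ 45 * (2 * (wC d * W1 d)) :=
          mul_le_mul a3 hNb hNb0 (by positivity)
      _ = 52 / (d : ℝ) ^ 12 * W1 d := by
          rw [hwe]
          field_simp
          ring
  -- part B
  have hB : Ng * L ≤ 4 / (d : ℝ) ^ 16 * W1 d := by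
    have b1 : Ng * L ≤ Ng * d := mul_le_mul_of_nonneg_left hL hNg0
    have b2 : (d : ℝ) ^ 50 * Ng ≤ 2 * (wC d * W1 d) :=
      (mul_le_mul_of_nonneg_right h2 hNg0).trans hNg2
    have b3 : Ng ≤ 2 * (wC d * W1 d) / (d : ℝ) ^ 50 := by
      rw [le_div_iff₀ (by positivity)]
      linarith
    calc Ng * L ≤ Ng * d := b1
      _ ≤ 2 * (wC d * W1 d) / (d : ℝ) ^ 50 * d := mul_le_mul_of_nonneg_right b3 hd0.le
      _ = 4 / (d : ℝ) ^ 16 * W1 d := by
          rw [hwe]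
          field_simp
          ring
  -- part C
  have hC : 9 / 1000 / (d : ℝ) ^ 4 * W1 d ≤ Ng / (100 * d * wC d) * (2 ^ d / (d : ℝ) ^ 3) := by
    have e1 : Ng / (100 * d * wC d) * (2 ^ d / (d : ℝ) ^ 3) = (2 ^ d * Ng) / (100 * d ^ 4 * wC d) := by
      field_simp
    rw [e1, le_div_iff₀ (by positivity)]
    calc 9 / 1000 / (d : ℝ) ^ 4 * W1 d * (100 * d ^ 4 * wC d) = 9 / 10 * (wC d * W1 d) := by
          field_simp
          ring
      _ ≤ 2 ^ d * Ng := hNg1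
  have hx : 52 / (d : ℝ) ^ 12 + 4 / (d : ℝ) ^ 16 + 1 / (200 * (d : ℝ) ^ 5) ≤ 9 / 1000 / (d : ℝ) ^ 4 := by
    set x : ℝ := 1 / (d : ℝ) with hxd
    have x0 : 0 < x := by positivity
    have x1 : x ≤ 1 / 1000 := one_div_le_one_div_of_le (by norm_num) hd'
    have e1 : 52 / (d : ℝ) ^ 12 = 52 * x ^ 12 := by rw [hxd]; field_simp
    have e2 : 4 / (d : ℝ) ^ 16 = 4 * x ^ 16 := by rw [hxd]; field_simp
    have e3 : 1 / (200 * (d : ℝ) ^ 5) = 1 / 200 * x ^ 5 := by rw [hxd]; field_simp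
    have e4 : 9 / 1000 / (d : ℝ) ^ 4 = 9 / 1000 * x ^ 4 := by rw [hxd]; field_simp
    rw [e1, e2, e3, e4]
    have p10 : x ^ 6 ≤ x ^ 4 * (1 / 1000) ^ 2 := by
      have : x ^ 6 = x ^ 4 * x ^ 2 := by ring
      rw [this]
      exact mul_le_mul_of_nonneg_left (pow_le_pow_left₀ x0.le x1 2) (by positivity)
    have p11 : x ^ 12 ≤ x ^ 6 := pow_le_pow_of_le_one x0.le (by linarith) (by norm_num)
    have p12 : x ^ 16 ≤ x ^ 6 := pow_le_pow_of_le_one x0.le (by linarith) (by norm_num)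
    have p13 : x ^ 5 ≤ x ^ 4 * (1 / 1000) := by
      have : x ^ 5 = x ^ 4 * x := by ring
      rw [this]
      exact mul_le_mul_of_nonneg_left x1 (by positivity)
    have p14 : 0 < x ^ 4 := by positivity
    linarith
  have hfin := mul_le_mul_of_nonneg_right hx hW0.le
  have e5 : W1 d / (200 * (d : ℝ) ^ 5) = 1 / (200 * (d : ℝ) ^ 5) * W1 d := by ring
  rw [e5]
  rw [add_mul, add_mul] at hfin
  linarith

private theorem F03_log {d q : ℕ} (hd : 3 ≤ d) (hq : AdmC d q) :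
    Real.log (4 * (q : ℝ) + 2) ≤ d := by
  obtain ⟨h1, -, h3⟩ := hq
  have hd' : (3 : ℝ) ≤ d := by exact_mod_cast hd
  have hq' : (4 : ℝ) ≤ q := by exact_mod_cast h1
  have h4 : (1 : ℝ) ≤ Real.log d := by
    rw [Real.le_log_iff_exp_le (by linarith)]
    have := Real.exp_one_lt_d9
    linarith
  have h5 := Real.log_le_sub_one_of_pos (by linarith : (0 : ℝ) < 4 * (q : ℝ) + 2)
  nlinarith

private theorem F03_mono {d k q : ℕ} {V : Finset (Site d k)} {P Q : (Site d k → Fin q) → Prop}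
    (h : ∀ f, P f → Q f) : cV V P ≤ cV V Q := by
  classical
  unfold cV
  have : (univ.filter fun f : Site d k → Fin q => PrV V f ∧ P f) ⊆
      univ.filter fun f : Site d k → Fin q => PrV V f ∧ Q f := by
    intro f hf
    rw [mem_filter] at hf ⊢
    exact ⟨hf.1, hf.2.1, h f hf.2.2⟩
  exact_mod_cast card_le_card this

/-- the product of the side lengths -/
private theorem F03_prod {d K : ℕ} (hd : 10 ≤ d) {a b : Fin d → ℕ} (hD : dbx d K a b) :
    (∏ i, (((b i - a i : ℕ) : ℝ) + 1) ≤ 2 * (wC d : ℝ) ^ d) ∧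
      (∏ i, ((b i - a i : ℕ) : ℝ) ≤ 2 * (wC d : ℝ) ^ d) ∧
      ((wC d : ℝ) - 2) ^ d ≤ ∏ i, ((b i - a i : ℕ) : ℝ) := by
  classical
  obtain ⟨i₀, h0⟩ := hD.2
  have hact := dbx_act hd hD
  have hw2 : (2 : ℕ) ≤ wC d := by
    unfold wC
    have : 1 ≤ d ^ 33 := Nat.one_le_pow _ _ (by omega)
    omega
  have hw2' : (2 : ℝ) ≤ wC d := by exact_mod_cast hw2
  have hprod : ∏ i : Fin d, ((wC d : ℝ) * (if i = i₀ then 2 else 1)) = 2 * (wC d : ℝ) ^ d := by
    rw [prod_mul_distrib, prod_const, card_univ, Fintype.card_fin, prod_ite_eq' univ i₀ (fun _ => (2 : ℝ)),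
      if_pos (mem_univ _), mul_comm]
  have h1 : ∏ i, (((b i - a i : ℕ) : ℝ) + 1) ≤ 2 * (wC d : ℝ) ^ d := by
    rw [← hprod]
    refine prod_le_prod (fun i _ => by positivity) fun i _ => ?_
    by_cases hi : i = i₀
    · rw [if_pos hi]
      have h2 := (hact i).2.2.2
      have h3 : b i - a i + 1 ≤ 2 * wC d := by omega
      have h4 : ((b i - a i : ℕ) : ℝ) + 1 ≤ 2 * wC d := by exact_mod_cast h3
      linarith
    · rw [if_neg hi]
      have h2 := h0 i hi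
      have h3 : b i - a i + 1 ≤ wC d := by omega
      have h4 : ((b i - a i : ℕ) : ℝ) + 1 ≤ wC d := by exact_mod_cast h3
      linarith
  refine ⟨h1, le_trans (prod_le_prod (fun i _ => by positivity) fun i _ => by linarith) h1, ?_⟩
  have hc : ((wC d : ℝ) - 2) ^ d = ∏ _i : Fin d, ((wC d : ℝ) - 2) := by
    rw [prod_const, card_univ, Fintype.card_fin]
  rw [hc]
  refine prod_le_prod (fun i _ => by linarith) fun i _ => ?_
  have h2 := (hact i).2.2.1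
  have h3 : wC d - 2 ≤ b i - a i := by omega
  have h4 : ((wC d - 2 : ℕ) : ℝ) ≤ ((b i - a i : ℕ) : ℝ) := by exact_mod_cast h3
  rw [Nat.cast_sub hw2] at h4
  push_cast at h4
  exact h4

theorem impure_one : ∃ d₀ : ℕ, ∀ d : ℕ, d₀ ≤ d → ∀ q : ℕ, AdmC d q → ∀ k K : ℕ, d ^ 46 ≤ 2 ^ k →
    nC d K + 4 ≤ 2 ^ (k + 1) → ∀ a b : Fin d → ℕ, dbx d K a b →
    cV (bx a b) (fun f : Site d (k + 1) → Fin q => ¬ PU a b f) ≤
      QN d (k + 1) q * (1 / 2 : ℝ) ^ (bx a b : Finset (Site d (k + 1))).card *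
        Real.exp (-(W1 d / (200 * (d : ℝ) ^ 5))) := by
  classical
  obtain ⟨d₁, h1⟩ := many_notGD
  obtain ⟨d₂, h2⟩ := F03_two
  refine ⟨max (max d₁ d₂) 1000, fun d hd q hq k K hk hn a b hD => ?_⟩
  have hd1 : d₁ ≤ d := le_trans (le_trans (le_max_left _ _) (le_max_left _ _)) hd
  have hd2 : d₂ ≤ d := le_trans (le_trans (le_max_right _ _) (le_max_left _ _)) hd
  have hd3 : 1000 ≤ d := le_trans (le_max_right _ _) hd
  have hk1 : 1 ≤ k := by
    rcases Nat.eq_zero_or_pos k with h | h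
    · subst h
      have : 2 ^ 46 ≤ d ^ 46 := Nat.pow_le_pow_left (by omega) 46
      norm_num at hk this
      omega
    · exact h
  have hq1 : 1 ≤ q := le_trans (by norm_num) hq.1
  have hev : evb k a b := evb_dbx (by omega) hn hD
  have hdw : d ≤ wC d - 2 := by
    unfold wC
    have h3 : d ^ 1 ≤ d ^ 33 := Nat.pow_le_pow_right (by omega) (by norm_num)
    rw [pow_one] at h3
    omega
  have hact := dbx_act (by omega : 10 ≤ d) hD
  set Ng : ℝ := ((gr a b : Finset (Blk d k)).card : ℝ) with hNg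
  set Nb : ℝ := ((bx a b : Finset (Site d (k + 1))).card : ℝ) with hNb
  set N₀ : ℝ := Ng / (100 * d * wC d) with hN₀
  have h3 := h1 d hd1 q hq k hk (wC d - 2) hdw a b hev (fun i => (hact i).2.2.1) N₀
  have h4 : cV (bx a b) (fun f : Site d (k + 1) → Fin q => ¬ PU a b f) ≤
      cV (bx a b) (fun f : Site d (k + 1) → Fin q =>
        N₀ ≤ (((gr a b).filter fun t => ¬ GD t f).card : ℝ)) :=
    F03_mono fun f hf => not_pure (by omega) hk1 hq1 hn hD f hf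
  refine h4.trans (h3.trans ?_)
  obtain ⟨p1, p2, p3⟩ := F03_prod (by omega : 10 ≤ d) hD
  have eNb : Nb = ∏ i, (((b i - a i : ℕ) : ℝ) + 1) := by
    rw [hNb, card_bx (fun i => ⟨(hev i).2.2.1.le, by have := (hev i).2.2.2; omega⟩)]
    push_cast
    rfl
  have eNg : 2 ^ d * Ng = ∏ i, ((b i - a i : ℕ) : ℝ) := by
    rw [hNg, card_gr hev]
    have e1 : (2 : ℝ) ^ d = ∏ _i : Fin d, (2 : ℝ) := by
      rw [prod_const, card_univ, Fintype.card_fin]
    rw [e1, Nat.cast_prod, ← prod_mul_distrib]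
    refine prod_congr rfl fun i _ => ?_
    obtain ⟨⟨c, hc⟩, ⟨c', hc'⟩, e3, e4⟩ := hev i
    have e5 : 2 * ((b i - a i) / 2) = b i - a i := by omega
    exact_mod_cast e5
  have l1 := F03_log (by omega : 3 ≤ d) hq
  have hnum := F03_num hd3 (h2 d hd2) (Nb := Nb) (Ng := Ng) (L := Real.log (4 * (q : ℝ) + 2))
    (by positivity) (by rw [eNb]; exact p1)
    (by rw [eNg]; exact (num_lo2 (by omega)).trans p3) (by rw [eNg]; exact p2) l1
  have e6 : (4 * (q : ℝ) + 2) ^ (gr a b : Finset (Blk d k)).card =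
      Real.exp (Ng * Real.log (4 * (q : ℝ) + 2)) := by
    rw [hNg, Real.exp_nat_mul, Real.exp_log (by positivity)]
  rw [e6, mul_assoc _ (Real.exp _) (Real.exp _), ← Real.exp_add, mul_assoc _ (Real.exp _) (Real.exp _),
    ← Real.exp_add]
  refine mul_le_mul_of_nonneg_left (Real.exp_le_exp.2 ?_) ?_
  · rw [← hNb, ← add_assoc, hN₀, ← sub_eq_add_neg]
    exact hnum
  · unfold QN
    positivity

end Pool.Agent.COR
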