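import Pool.Agent.Lib_MP_2c424f_cor.F03
import Pool.Agent.Lib_MP_2c424f_cor.E16

/-!
# Impure boxes are rare, several boxes (piece F04, (F3))

`tele`: induction on `I` with `surgery`, `R` = union of the boxes already removed (`hfar`).
`far_boxes`: a `GB`-proper `f` for which no box is pure is proper on `GB \ ⋃ D_l` and on every `D_l`, and not pure there.  These sets
are pairwise disjoint (`bx (a l) (b l) ⊆ bx (elo (a l)) (ehi (b l))`, `hfar`), the events are local (`PU_loc`); independence (`indep` with the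
index set `I` and one more index, e.g. `Option ι`): the number is at most
`ZV (GB \ ⋃ D_l) ∏_l (cV (D_l) (¬ PU) / q^N) ≤ ZV (GB \ ⋃ D_l) ∏_l (1/2)^|D_l| exp (-W1/(200 d^5))` (`impure_one`); then `tele`.
-/

set_option autoImplicit false

open Finset

namespace Pool.Agent.COR

open Pool.Agent.LO

private theorem F04_loc {d k q : ℕ} (V : Finset (Site d k)) {f g : Site d k → Fin q}
    (hfg : ∀ x ∈ V, f x = g x) (hf : PrV V f) : PrV V g := by
  intro x hx σ hy
  rw [← hfg x hx, ← hfg _ hy]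
  exact hf x hx σ hy

private theorem F04_N {d k q : ℕ} (inst : Fintype (Site d k → Fin q)) :
    ((@Fintype.card (Site d k → Fin q) inst : ℕ) : ℝ) = QN d k q := by
  have h : @Fintype.card (Site d k → Fin q) inst = q ^ Fintype.card (Site d k) := by
    rw [← Nat.card_eq_fintype_card, Nat.card_fun, Nat.card_eq_fintype_card,
      Nat.card_eq_fintype_card, Fintype.card_fin]
  rw [h]
  unfold QN
  rw [Nat.cast_pow]

/-- the number of elements with a property, independent of the instances -/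
private noncomputable def F04_n {X : Type} (P : X → Prop) : ℝ := (Nat.card {x // P x} : ℝ)

private theorem F04_card {X : Type} (inst : Fintype X) (P : X → Prop) (dec : DecidablePred P) :
    ((@Finset.filter X P dec (@Finset.univ X inst)).card : ℝ) = F04_n P := by
  unfold F04_n
  rw [Nat.card_eq_fintype_card, Fintype.card_subtype]

private theorem F04_mono {X : Type} [Finite X] {P P' : X → Prop} (h : ∀ x, P x → P' x) :
    F04_n P ≤ F04_n P' := by
  unfold F04_n
  rw [Nat.cast_le]
  exact Nat.card_le_card_of_injective (fun x : {x // P x} => (⟨x.1, h x.1 x.2⟩ : {x // P' x}))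
    (fun x y hxy => Subtype.ext (congrArg (fun z : {x // P' x} => z.1) hxy))

private theorem F04_cV {d k q : ℕ} (V : Finset (Site d k)) (P : (Site d k → Fin q) → Prop) :
    cV V P = F04_n (fun f => PrV V f ∧ P f) := by
  unfold cV
  rw [F04_card]

private theorem F04_ZV {d k q : ℕ} (V : Finset (Site d k)) :
    ZV q V = F04_n (fun f : Site d k → Fin q => PrV V f) := by
  unfold ZV
  rw [F04_cV]
  congr 1
  funext f
  simp

private theorem F04_indep {d k q : ℕ} {ι : Type} (I : Finset ι) (V₀ W : Finset (Site d k))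
    (D : ι → Finset (Site d k)) (h0 : ∀ l ∈ I, Disjoint V₀ (D l))
    (hD : ∀ l ∈ I, ∀ m ∈ I, l ≠ m → Disjoint (D l) (D m)) (E : ι → (Site d k → Fin q) → Prop)
    (hE : ∀ l ∈ I, ∀ f g : Site d k → Fin q, (∀ x ∈ D l, f x = g x) → E l f → E l g)
    (hQ : 0 < QN d k q) (hW0 : V₀ ⊆ W) (hWD : ∀ l ∈ I, D l ⊆ W) :
    cV W (fun f => ∀ l ∈ I, E l f) * QN d k q ^ I.card ≤ ZV q V₀ * ∏ l ∈ I, cV (D l) (E l) := by
  classical
  have h := indep (W := Site d k) (F := Fin q) (Finset.insertNone I) (fun o => o.elim V₀ D)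
    (by
      intro l hl m hm hlm
      cases l with
      | none =>
        cases m with
        | none => exact absurd rfl hlm
        | some m => exact h0 m (Finset.some_mem_insertNone.1 hm)
      | some l =>
        cases m with
        | none => exact (h0 l (Finset.some_mem_insertNone.1 hl)).symm
        | some m =>
          exact hD l (Finset.some_mem_insertNone.1 hl) m (Finset.some_mem_insertNone.1 hm)
            (fun e => hlm (congrArg some e)))
    (fun o f => o.elim (PrV V₀ f) (fun l => PrV (D l) f ∧ E l f))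
    (by
      intro l hl f g hfg
      cases l with
      | none => exact fun hf => F04_loc V₀ hfg hf
      | some l =>
        exact fun hf => ⟨F04_loc (D l) hfg hf.1,
          hE l (Finset.some_mem_insertNone.1 hl) f g hfg hf.2⟩)
  simp only [F04_card, F04_N, Finset.card_insertNone, Finset.prod_insertNone, Option.elim_none,
    Option.elim_some] at h
  have h1 : cV W (fun f : Site d k → Fin q => ∀ l ∈ I, E l f) ≤
      F04_n (fun f : Site d k → Fin q => ∀ l ∈ Finset.insertNone I,
        l.elim (PrV V₀ f) (fun l => PrV (D l) f ∧ E l f)) := by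
    rw [F04_cV]
    refine F04_mono fun f hf => ?_
    intro l hl
    cases l with
    | none => exact PrV_mono hW0 hf.1
    | some l =>
      exact ⟨PrV_mono (hWD l (Finset.some_mem_insertNone.1 hl)) hf.1,
        hf.2 l (Finset.some_mem_insertNone.1 hl)⟩
  have h2 := mul_le_mul_of_nonneg_right h1 (pow_pos hQ (I.card + 1)).le
  rw [h, ← F04_ZV] at h2
  simp only [← F04_cV] at h2
  have h3 : cV W (fun f : Site d k → Fin q => ∀ l ∈ I, E l f) * QN d k q ^ (I.card + 1) =
      QN d k q * (cV W (fun f : Site d k → Fin q => ∀ l ∈ I, E l f) * QN d k q ^ I.card) := by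
    ring
  rw [h3] at h2
  exact le_of_mul_le_mul_left h2 hQ

private theorem F04_sub {d K k : ℕ} {a b : Fin d → ℕ} (hD : dbx d K a b) :
    (bx a b : Finset (Site d (k + 1))) ⊆ bx (elo d a) (ehi d K b) ∧
      (bx a b : Finset (Site d (k + 1))) ⊆ GB d K k := by
  classical
  constructor
  · intro x hx
    unfold bx at hx ⊢
    rw [Finset.mem_filter] at hx ⊢
    refine ⟨Finset.mem_univ _, fun i => ?_⟩
    have h1 := hx.2 i
    have h2 := (hD.1 i).2.1
    unfold elo ehi
    refine ⟨by omega, ?_⟩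
    rw [le_min_iff]
    constructor <;> omega
  · intro x hx
    unfold GB
    unfold bx at hx ⊢
    rw [Finset.mem_filter] at hx ⊢
    refine ⟨Finset.mem_univ _, fun i => ?_⟩
    have h1 := hx.2 i
    have h2 := (hD.1 i).2.1
    exact ⟨Nat.zero_le _, h1.2.trans h2⟩

open scoped Classical in
theorem tele : ∃ d₀ : ℕ, ∀ d : ℕ, d₀ ≤ d → ∀ q : ℕ, AdmC d q → ∀ k K : ℕ, d ^ 46 ≤ 2 ^ k → 1 ≤ K →
    nC d K + 4 ≤ 2 ^ (k + 1) → ∀ (ι : Type) (I : Finset ι) (a b : ι → Fin d → ℕ),
    (∀ l ∈ I, dbx d K (a l) (b l)) →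
    (∀ l ∈ I, ∀ m ∈ I, l ≠ m → Disjoint (bx (a m) (b m) : Finset (Site d (k + 1)))
      (bx (elo d (a l)) (ehi d K (b l)))) →
    ZV q (GB d K k \ I.biUnion fun l => bx (a l) (b l)) *
        ∏ l ∈ I, (1 / 2 : ℝ) ^ (bx (a l) (b l) : Finset (Site d (k + 1))).card ≤
      ZV q (GB d K k) * Real.exp (I.card * (W1 d / (400 * (d : ℝ) ^ 5))) := by
  obtain ⟨d₀, hs⟩ := surgery
  refine ⟨d₀, ?_⟩
  intro d hd q hq k K hk hK hn ι I a b
  induction I using Finset.induction_on with
  | empty =>
    intro _ _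
    simp
  | insert l I hl ih =>
    intro hD hfar
    have ih' := ih (fun m hm => hD m (Finset.mem_insert_of_mem hm))
      (fun m hm m' hm' => hfar m (Finset.mem_insert_of_mem hm) m' (Finset.mem_insert_of_mem hm'))
    have h1 := hs d hd q hq k K hk hK hn (a l) (b l) (hD l (Finset.mem_insert_self l I))
      (I.biUnion fun m => bx (a m) (b m)) (by
        rw [Finset.disjoint_biUnion_left]
        intro m hm
        exact hfar l (Finset.mem_insert_self l I) m (Finset.mem_insert_of_mem hm)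
          (fun e => hl (e ▸ hm)))
    have h2 : GB d K k \ ((insert l I).biUnion fun m => bx (a m) (b m)) =
        (GB d K k \ I.biUnion fun m => bx (a m) (b m)) \ bx (a l) (b l) := by
      rw [Finset.biUnion_insert]
      ext x
      simp only [Finset.mem_sdiff, Finset.mem_union]
      tauto
    have hp : 0 ≤ ∏ m ∈ I, (1 / 2 : ℝ) ^ (bx (a m) (b m) : Finset (Site d (k + 1))).card :=
      Finset.prod_nonneg fun m _ => by positivity
    rw [h2, Finset.prod_insert hl, Finset.card_insert_of_notMem hl, ← mul_assoc]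
    refine (mul_le_mul_of_nonneg_right h1 hp).trans ?_
    have h3 : Real.exp (((I.card + 1 : ℕ) : ℝ) * (W1 d / (400 * (d : ℝ) ^ 5))) =
        Real.exp (I.card * (W1 d / (400 * (d : ℝ) ^ 5))) * Real.exp (W1 d / (400 * (d : ℝ) ^ 5)) := by
      rw [← Real.exp_add]
      congr 1
      push_cast
      ring
    rw [h3, ← mul_assoc]
    calc _ = (ZV q (GB d K k \ I.biUnion fun m => bx (a m) (b m)) *
          ∏ m ∈ I, (1 / 2 : ℝ) ^ (bx (a m) (b m) : Finset (Site d (k + 1))).card) *
          Real.exp (W1 d / (400 * (d : ℝ) ^ 5)) := by ring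
      _ ≤ _ := mul_le_mul_of_nonneg_right ih' (Real.exp_pos _).le

theorem far_boxes : ∃ d₀ : ℕ, ∀ d : ℕ, d₀ ≤ d → ∀ q : ℕ, AdmC d q → ∀ k K : ℕ, d ^ 46 ≤ 2 ^ k → 1 ≤ K →
    nC d K + 4 ≤ 2 ^ (k + 1) → ∀ (ι : Type) (I : Finset ι) (a b : ι → Fin d → ℕ),
    (∀ l ∈ I, dbx d K (a l) (b l)) →
    (∀ l ∈ I, ∀ m ∈ I, l ≠ m → Disjoint (bx (a m) (b m) : Finset (Site d (k + 1)))
      (bx (elo d (a l)) (ehi d K (b l)))) →
    cV (GB d K k) (fun f : Site d (k + 1) → Fin q => ∀ l ∈ I, ¬ PU (a l) (b l) f) ≤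
      ZV q (GB d K k) * Real.exp (-(I.card * (W1 d / (400 * (d : ℝ) ^ 5)))) := by
  classical
  obtain ⟨d₁, ht⟩ := tele
  obtain ⟨d₂, hi⟩ := impure_one
  refine ⟨max d₁ d₂, ?_⟩
  intro d hd q hq k K hk hK hn ι I a b hD hfar
  have hd1 : d₁ ≤ d := (le_max_left _ _).trans hd
  have hd2 : d₂ ≤ d := (le_max_right _ _).trans hd
  have hQ : 0 < QN d (k + 1) q := by
    unfold QN
    have h4 : (0 : ℝ) < q := by
      have := hq.1
      exact_mod_cast (by omega : 0 < q)
    positivity
  have hdis : ∀ l ∈ I, ∀ m ∈ I, l ≠ m → Disjoint (bx (a l) (b l) : Finset (Site d (k + 1)))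
      (bx (a m) (b m)) := by
    intro l hl m hm hlm
    exact (Finset.disjoint_of_subset_right (F04_sub (k := k) (hD l hl)).1
      (hfar l hl m hm hlm)).symm
  have h1 := F04_indep (q := q) I (GB d K k \ I.biUnion fun l => bx (a l) (b l)) (GB d K k)
    (fun l => bx (a l) (b l))
    (fun l hl => Finset.disjoint_left.2 fun x hx hx' =>
      (Finset.mem_sdiff.1 hx).2 (Finset.mem_biUnion.2 ⟨l, hl, hx'⟩))
    hdis (fun l f => ¬ PU (a l) (b l) f)
    (fun l hl f g hfg hf hg => hf (PU_loc (fun i => by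
      have := (hD l hl).1 i
      omega) g f (fun x hx => (hfg x hx).symm) hg))
    hQ Finset.sdiff_subset (fun l hl => (F04_sub (hD l hl)).2)
  have h2 : ∏ l ∈ I, cV (bx (a l) (b l)) (fun f : Site d (k + 1) → Fin q => ¬ PU (a l) (b l) f) ≤
      ∏ l ∈ I, (QN d (k + 1) q * (1 / 2 : ℝ) ^ (bx (a l) (b l) : Finset (Site d (k + 1))).card *
        Real.exp (-(W1 d / (200 * (d : ℝ) ^ 5)))) := by
    refine Finset.prod_le_prod (fun l _ => ?_) fun l hl =>
      hi d hd2 q hq k K hk hn (a l) (b l) (hD l hl)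
    rw [F04_cV]
    unfold F04_n
    positivity
  have h3 : ∏ l ∈ I, (QN d (k + 1) q * (1 / 2 : ℝ) ^ (bx (a l) (b l) : Finset (Site d (k + 1))).card *
        Real.exp (-(W1 d / (200 * (d : ℝ) ^ 5)))) =
      QN d (k + 1) q ^ I.card * ((∏ l ∈ I, (1 / 2 : ℝ) ^ (bx (a l) (b l) : Finset (Site d (k + 1))).card) *
        Real.exp (-(I.card * (W1 d / (200 * (d : ℝ) ^ 5))))) := by
    rw [Finset.prod_mul_distrib, Finset.prod_mul_distrib, Finset.prod_const, Finset.prod_const,
      ← Real.exp_nat_mul, mul_assoc]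
    congr 3
    ring
  have hZ : 0 ≤ ZV q (GB d K k \ I.biUnion fun l => bx (a l) (b l)) := by
    rw [F04_ZV]
    unfold F04_n
    positivity
  have h4 := h1.trans (mul_le_mul_of_nonneg_left (h2.trans_eq h3) hZ)
  have h5 := ht d hd1 q hq k K hk hK hn ι I a b hD hfar
  have h6 := mul_le_mul_of_nonneg_right h5
    (Real.exp_pos (-(I.card * (W1 d / (200 * (d : ℝ) ^ 5))))).le
  have hpow : 0 < QN d (k + 1) q ^ I.card := pow_pos hQ _
  have h7 : cV (GB d K k) (fun f : Site d (k + 1) → Fin q => ∀ l ∈ I, ¬ PU (a l) (b l) f) ≤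
      ZV q (GB d K k \ I.biUnion fun l => bx (a l) (b l)) *
        (∏ l ∈ I, (1 / 2 : ℝ) ^ (bx (a l) (b l) : Finset (Site d (k + 1))).card) *
        Real.exp (-(I.card * (W1 d / (200 * (d : ℝ) ^ 5)))) := by
    refine le_of_mul_le_mul_right (h4.trans_eq ?_) hpow
    ring
  refine (h7.trans h6).trans_eq ?_
  rw [mul_assoc, ← Real.exp_add]
  congr 2
  ring

end Pool.Agent.COR
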