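import Pool.Agent.Lib_MP_2c424f_cor.F02
import Pool.Agent.Lib_MP_2c424f_lo.Multi

/-!
# The grid of the large blocks (piece F05, (F4) geometry)

Large blocks `t : Blk d K` (`(t i).val ∈ {0, …, 2^K - 1}`): the box `[wa t, wb t] = w t + [0, w-2]^d`; dominoes `[wa u, db u j]`
(`(u j).val + 1 < 2^K`) contain the boxes of `u` and `nxt u j`.  `BAD t f`: one of the dominoes which contain the box of `t` is not pure.
`far_dom`: say `(t i).val + 4 ≤ (t' i).val`: the domino of `t` lies in `x i ≤ w ((t i).val + 2) - 2`, the one of `t'` in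
`x i ≥ w ((t' i).val - 1) ≥ w ((t i).val + 3)`, the gap is larger than `2 h + 2`.
-/

set_option autoImplicit false

open Finset

namespace Pool.Agent.COR

open Pool.Agent.LO

variable {d k K q : ℕ}

/-- lower corner of a large block -/
def wa (t : Blk d K) : Fin d → ℕ := fun i => wC d * (t i).val

/-- upper corner of a large block -/
def wb (t : Blk d K) : Fin d → ℕ := fun i => wC d * (t i).val + (wC d - 2)

/-- upper corner of a domino -/
def db (t : Blk d K) (j : Fin d) : Fin d → ℕ :=
  Function.update (wb t) j (wC d * (t j).val + (2 * wC d - 2))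

/-- bad large blocks -/
def BAD (t : Blk d K) (f : Site d (k + 1) → Fin q) : Prop :=
  ∃ (u : Blk d K) (j : Fin d), (u j).val + 1 < 2 ^ K ∧ (u = t ∨ nxt u j = t) ∧ ¬ PU (wa u) (db u j) f

/-- far apart -/
def farB (t t' : Blk d K) : Prop := ∃ i, (t i).val + 4 ≤ (t' i).val ∨ (t' i).val + 4 ≤ (t i).val

private theorem F05_hw (hd : 10 ≤ d) : 2 ≤ hC d ∧ 8 * hC d ≤ wC d := by
  have h1 : 1 ≤ d ^ 30 := Nat.one_le_pow _ _ (by omega)
  have h2 : 10 ^ 3 ≤ d ^ 3 := Nat.pow_le_pow_left hd 3
  have h3 : d ^ 33 = d ^ 3 * d ^ 30 := by ring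
  have h4 : 10 ^ 3 * d ^ 30 ≤ d ^ 3 * d ^ 30 := Nat.mul_le_mul_right _ h2
  unfold hC wC
  constructor
  · omega
  · rw [h3]
    omega

private theorem F05_n (hd : 10 ≤ d) (K : ℕ) : nC d K + 2 = wC d * 2 ^ K := by
  have h1 := F05_hw hd
  have h2 : wC d * 1 ≤ wC d * 2 ^ K := Nat.mul_le_mul_left _ (Nat.one_le_pow _ _ (by norm_num))
  unfold nC
  omega

/-- upper bound for a product `w * x` by a multiple of `w` -/
private theorem F05_mul {w x y c : ℕ} (h : x + c ≤ y) : w * x + c * w ≤ w * y := by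
  have h1 := Nat.mul_le_mul_left w h
  rw [Nat.mul_add, Nat.mul_comm w c] at h1
  exact h1

private theorem F05_nxt (u : Blk d K) (j : Fin d) (h : (u j).val + 1 < 2 ^ K) (i : Fin d) :
    (nxt u j i).val = if i = j then (u i).val + 1 else (u i).val := by
  unfold nxt
  by_cases hij : i = j
  · subst hij
    rw [if_pos rfl, Function.update_self]
    have h1 : Fact (1 < 2 ^ K) := ⟨by omega⟩
    rw [ZMod.val_add, ZMod.val_one, Nat.mod_eq_of_lt h]
  · rw [if_neg hij, Function.update_of_ne hij]

private theorem F05_db (u : Blk d K) (j i : Fin d) :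
    db u j i = if i = j then wC d * (u i).val + (2 * wC d - 2) else wC d * (u i).val + (wC d - 2) := by
  unfold db
  by_cases hij : i = j
  · subst hij
    rw [if_pos rfl, Function.update_self]
  · rw [if_neg hij, Function.update_of_ne hij]
    rfl

/-- position of a domino which contains the box of `t` -/
private theorem F05_pos (hd : 10 ≤ d) {t u : Blk d K} {j : Fin d} (h : (u j).val + 1 < 2 ^ K)
    (h1 : u = t ∨ nxt u j = t) (i : Fin d) :
    wC d * (t i).val ≤ wa u i + wC d ∧ db u j i + 2 ≤ wC d * (t i).val + 2 * wC d := by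
  have hw := F05_hw hd
  have h2 := F05_db u j i
  have h3 : (t i).val = (u i).val ∨ i = j ∧ (t i).val = (u i).val + 1 := by
    rcases h1 with rfl | rfl
    · exact Or.inl rfl
    · rw [F05_nxt u j h i]
      by_cases hij : i = j
      · right
        rw [if_pos hij]
        exact ⟨hij, rfl⟩
      · left
        rw [if_neg hij]
  have h4 : wa u i = wC d * (u i).val := rfl
  rw [h4, h2]
  rcases h3 with h3 | ⟨h3, h5⟩
  · rw [h3]
    by_cases hij : i = j
    · rw [if_pos hij]
      omega
    · rw [if_neg hij]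
      omega
  · rw [h5, if_pos h3, Nat.mul_add, Nat.mul_one]
    omega

theorem dbx_dom (hd : 10 ≤ d) (u : Blk d K) (j : Fin d) (h : (u j).val + 1 < 2 ^ K) :
    dbx d K (wa u) (db u j) := by
  have hw := F05_hw hd
  have hn := F05_n hd K
  have hne : NeZero (2 ^ K) := ⟨by positivity⟩
  refine ⟨fun i => ⟨⟨(u i).val, rfl⟩, ?_, ?_⟩, j, fun i hi => ?_⟩
  · rw [F05_db]
    by_cases hij : i = j
    · rw [if_pos hij]
      subst hij
      have h1 : wC d * (u i).val + 2 * wC d ≤ wC d * 2 ^ K := F05_mul (by omega)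
      omega
    · rw [if_neg hij]
      have h2 : (u i).val < 2 ^ K := ZMod.val_lt (u i)
      have h1 : wC d * (u i).val + 1 * wC d ≤ wC d * 2 ^ K := F05_mul (by omega)
      omega
  · have h4 : wa u i = wC d * (u i).val := rfl
    rw [F05_db, h4]
    by_cases hij : i = j
    · rw [if_pos hij]
      right
      omega
    · rw [if_neg hij]
      left
      omega
  · have h4 : wa u i = wC d * (u i).val := rfl
    rw [F05_db, h4, if_neg hi]
    omega

theorem far_dom (hd : 10 ≤ d) {t t' u u' : Blk d K} {j j' : Fin d} (ht : farB t t')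
    (hu : (u j).val + 1 < 2 ^ K) (hu' : (u' j').val + 1 < 2 ^ K) (h1 : u = t ∨ nxt u j = t)
    (h2 : u' = t' ∨ nxt u' j' = t') (hn : nC d K + 4 ≤ 2 ^ (k + 1)) :
    Disjoint (bx (wa u') (db u' j') : Finset (Site d (k + 1))) (bx (elo d (wa u)) (ehi d K (db u j))) := by
  classical
  have hw := F05_hw hd
  have _ := hn
  obtain ⟨i, hi⟩ := ht
  rw [Finset.disjoint_left]
  intro x hx hx'
  unfold bx at hx hx'
  rw [mem_filter] at hx hx'
  have h3 := hx.2 i
  have h4 := hx'.2 i
  have h5 := F05_pos hd hu h1 i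
  have h6 := F05_pos hd hu' h2 i
  have h7 : elo d (wa u) i = wa u i - (2 * hC d + 2) := rfl
  have h8 : ehi d K (db u j) i ≤ db u j i + (2 * hC d + 2) := min_le_right _ _
  rw [h7] at h4
  rcases hi with hi | hi
  · have h9 : wC d * (t i).val + 4 * wC d ≤ wC d * (t' i).val := F05_mul hi
    omega
  · have h9 : wC d * (t' i).val + 4 * wC d ≤ wC d * (t i).val := F05_mul hi
    omega

private theorem F05_comm {t t' : Blk d K} (h : farB t t') : farB t' t := by
  obtain ⟨i, h | h⟩ := h
  · exact ⟨i, Or.inr h⟩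
  · exact ⟨i, Or.inl h⟩

private theorem F05_irr (t : Blk d K) : ¬ farB t t := by
  rintro ⟨i, h | h⟩ <;> omega

open scoped Classical in
/-- the neighbourhood of a block -/
private noncomputable def F05_N (t : Blk d K) : Finset (Blk d K) :=
  haveI : NeZero (2 ^ K) := ⟨by positivity⟩
  Fintype.piFinset fun i => univ.filter fun y : ZMod (2 ^ K) =>
    y.val ≤ (t i).val + 3 ∧ (t i).val ≤ y.val + 3

private theorem F05_mem_N (t t' : Blk d K) (h : ¬ farB t t') : t' ∈ F05_N t := by
  classical
  unfold F05_N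
  rw [Fintype.mem_piFinset]
  intro i
  rw [mem_filter]
  refine ⟨mem_univ _, ?_⟩
  have h1 : ¬ ((t i).val + 4 ≤ (t' i).val ∨ (t' i).val + 4 ≤ (t i).val) := fun h1 => h ⟨i, h1⟩
  omega

private theorem F05_card_N (t : Blk d K) : (F05_N t).card ≤ 7 ^ d := by
  classical
  have hne : NeZero (2 ^ K) := ⟨by positivity⟩
  unfold F05_N
  rw [Fintype.card_piFinset]
  calc ∏ i, (univ.filter fun y : ZMod (2 ^ K) =>
        y.val ≤ (t i).val + 3 ∧ (t i).val ≤ y.val + 3).card ≤ ∏ _i : Fin d, 7 := by
        refine Finset.prod_le_prod (fun _ _ => Nat.zero_le _) fun i _ => ?_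
        have h1 : ((univ.filter fun y : ZMod (2 ^ K) =>
            y.val ≤ (t i).val + 3 ∧ (t i).val ≤ y.val + 3).image ZMod.val).card =
            (univ.filter fun y : ZMod (2 ^ K) =>
            y.val ≤ (t i).val + 3 ∧ (t i).val ≤ y.val + 3).card :=
          Finset.card_image_of_injective _ (ZMod.val_injective _)
        rw [← h1]
        refine (Finset.card_le_card (t := Finset.Icc ((t i).val - 3) ((t i).val + 3)) ?_).trans ?_
        · intro m hm
          rw [mem_image] at hm
          obtain ⟨y, hy, rfl⟩ := hm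
          rw [mem_filter] at hy
          rw [mem_Icc]
          omega
        · rw [Nat.card_Icc]
          omega
    _ = 7 ^ d := by
        rw [Finset.prod_const, Finset.card_univ, Fintype.card_fin]

/-- separated subsets: take a maximal one; every `t ∈ Γ` is at sup-distance at most `3` from it -/
theorem sep (Γ : Finset (Blk d K)) : ∃ Γ' ⊆ Γ, (∀ t ∈ Γ', ∀ t' ∈ Γ', t ≠ t' → farB t t') ∧
    Γ.card ≤ 7 ^ d * Γ'.card := by
  classical
  obtain ⟨Γ', hΓ', hmax⟩ := Finset.exists_max_image
    (Γ.powerset.filter fun S => ∀ t ∈ S, ∀ t' ∈ S, t ≠ t' → farB t t') Finset.card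
    ⟨∅, by rw [mem_filter, mem_powerset]; exact ⟨empty_subset _, fun t ht => absurd ht (notMem_empty t)⟩⟩
  rw [mem_filter, mem_powerset] at hΓ'
  refine ⟨Γ', hΓ'.1, hΓ'.2, ?_⟩
  have h1 : Γ ⊆ Γ'.biUnion F05_N := by
    intro t ht
    rw [mem_biUnion]
    by_contra hc
    push Not at hc
    have h2 : ∀ t' ∈ Γ', farB t' t := by
      intro t' ht'
      by_contra h3
      exact hc t' ht' (F05_mem_N t' t h3)
    have h3 : t ∉ Γ' := fun h3 => F05_irr t (h2 t h3)
    have h4 : insert t Γ' ∈ Γ.powerset.filter fun S => ∀ t ∈ S, ∀ t' ∈ S, t ≠ t' → farB t t' := by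
      rw [mem_filter, mem_powerset]
      refine ⟨insert_subset ht hΓ'.1, ?_⟩
      intro a ha b hb hab
      rw [mem_insert] at ha hb
      rcases ha with rfl | ha
      · rcases hb with rfl | hb
        · exact absurd rfl hab
        · exact F05_comm (h2 b hb)
      · rcases hb with rfl | hb
        · exact h2 a ha
        · exact hΓ'.2 a ha b hb hab
    have h5 := hmax _ h4
    rw [card_insert_of_notMem h3] at h5
    omega
  calc Γ.card ≤ (Γ'.biUnion F05_N).card := card_le_card h1
    _ ≤ Γ'.card * 7 ^ d := card_biUnion_le_card_mul _ _ _ fun t _ => F05_card_N t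
    _ = 7 ^ d * Γ'.card := Nat.mul_comm _ _

end Pool.Agent.COR
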