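import Pool.Agent.Lib_MP_2c424f_cor.F04
import Pool.Agent.Lib_MP_2c424f_cor.F05

/-!
# Bad large blocks are rare (piece F06, (F4))

`Γ'` from `sep`.  If all `t ∈ Γ'` are `BAD`, choose for each of them a direction and one of the two possibilities `u = t`,
`nxt u j = t` (then `u` is determined): at most `(2d)^|Γ'|` choices (functions `Γ' → Fin d × Bool`; discard the choices with
`(u j).val + 1 ≥ 2^K`); for each choice `far_boxes` (`dbx_dom`, `far_dom`).  So the number is at most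
`ZV exp (|Γ'| (log (2d) - W1/(400 d^5))) ≤ ZV exp (-|Γ'| W1/(500 d^5)) ≤ ZV rW^|Γ|`.
-/

set_option autoImplicit false

open Finset

namespace Pool.Agent.COR

open Pool.Agent.LO

private theorem F06_nxt {d K : ℕ} {u t : Blk d K} {j : Fin d} (h : nxt u j = t) :
    u = Function.update t j (t j - 1) := by
  funext i
  by_cases hi : i = j
  · subst hi
    have h1 := congrFun h i
    simp only [nxt, Function.update_self] at h1
    rw [Function.update_self, ← h1, add_sub_cancel_right]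
  · have h1 := congrFun h i
    rw [Function.update_of_ne hi, ← h1]
    simp only [nxt, Function.update_of_ne hi]

private theorem F06_nxt' {d K : ℕ} (t : Blk d K) (j : Fin d) :
    nxt (Function.update t j (t j - 1)) j = t := by
  funext i
  by_cases hi : i = j
  · subst hi
    simp [nxt]
  · simp [nxt, Function.update_of_ne hi]

/-- the lower cell of the domino -/
private def F06_u {d K : ℕ} (t : Blk d K) (p : Fin d × Bool) : Blk d K :=
  if p.2 then t else Function.update t p.1 (t p.1 - 1)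

private theorem F06_u_or {d K : ℕ} (t : Blk d K) (p : Fin d × Bool) :
    F06_u t p = t ∨ nxt (F06_u t p) p.1 = t := by
  obtain ⟨j, b⟩ := p
  cases b with
  | true => left; rfl
  | false => right; exact F06_nxt' t j

private theorem F06_bad {d k K q : ℕ} {t : Blk d K} {f : Site d (k + 1) → Fin q} (h : BAD t f) :
    ∃ p : Fin d × Bool, (F06_u t p p.1).val + 1 < 2 ^ K ∧ ¬ PU (wa (F06_u t p)) (db (F06_u t p) p.1) f := by
  obtain ⟨u, j, h1, h2, h3⟩ := h
  rcases h2 with h2 | h2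
  · subst h2
    exact ⟨(j, true), h1, h3⟩
  · have h4 := F06_nxt h2
    refine ⟨(j, false), ?_, ?_⟩
    · show ((Function.update t j (t j - 1)) j).val + 1 < 2 ^ K
      rw [← h4]
      exact h1
    · show ¬ PU (wa (Function.update t j (t j - 1))) (db (Function.update t j (t j - 1)) j) f
      rw [← h4]
      exact h3

private theorem F06_union {d k q : ℕ} (V : Finset (Site d (k + 1))) {C : Type} [Fintype C]
    (P : (Site d (k + 1) → Fin q) → Prop) (Q : C → (Site d (k + 1) → Fin q) → Prop)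
    (h : ∀ f, P f → ∃ c, Q c f) (B : ℝ) (hB : ∀ c, cV V (Q c) ≤ B) :
    cV V P ≤ Fintype.card C * B := by
  classical
  have h1 : (univ.filter fun f : Site d (k + 1) → Fin q => PrV V f ∧ P f) ⊆
      (univ : Finset C).biUnion fun c =>
        univ.filter fun f : Site d (k + 1) → Fin q => PrV V f ∧ Q c f := by
    intro f hf
    obtain ⟨h1, h2⟩ := (Finset.mem_filter.1 hf).2
    obtain ⟨c, hc⟩ := h f h2
    exact Finset.mem_biUnion.2 ⟨c, mem_univ _, mem_filter.2 ⟨mem_univ _, h1, hc⟩⟩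
  have h2 := (Finset.card_le_card h1).trans Finset.card_biUnion_le
  have h3 : cV V P ≤ ∑ c : C, cV V (Q c) := by
    have e1 : cV V P = ((univ.filter fun f : Site d (k + 1) → Fin q => PrV V f ∧ P f).card : ℝ) := by
      unfold cV
      congr!
    have e2 : ∀ c, cV V (Q c) =
        ((univ.filter fun f : Site d (k + 1) → Fin q => PrV V f ∧ Q c f).card : ℝ) := by
      intro c
      unfold cV
      congr!
    rw [e1, Finset.sum_congr rfl fun c _ => e2 c]
    exact_mod_cast h2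
  calc cV V P ≤ ∑ c : C, cV V (Q c) := h3
    _ ≤ ∑ _c : C, B := Finset.sum_le_sum fun c _ => hB c
    _ = Fintype.card C * B := by
      rw [Finset.sum_const, Finset.card_univ, nsmul_eq_mul]

private theorem F06_zero {d k q : ℕ} (V : Finset (Site d (k + 1)))
    (P : (Site d (k + 1) → Fin q) → Prop) (h : ∀ f, ¬ P f) : cV V P = 0 := by
  classical
  unfold cV
  rw [Nat.cast_eq_zero, Finset.card_eq_zero]
  ext f
  simp [h f]

private theorem F06_W {d : ℕ} (hd : 10 ≤ d) : (d : ℝ) ^ (d + 12) ≤ W1 d := by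
  have hd1 : (1 : ℝ) ≤ d := by exact_mod_cast (by omega : 1 ≤ d)
  have h1 : (d : ℝ) ^ (d + 12) ≤ (d : ℝ) ^ (33 * (d - 1)) :=
    pow_le_pow_right₀ hd1 (by omega)
  have h2 : (d : ℝ) ^ (33 * (d - 1)) ≤ W1 d := by
    unfold W1
    rw [pow_mul]
    refine pow_le_pow_left₀ (by positivity) ?_ _
    unfold wC
    push_cast
    have : (0 : ℝ) ≤ (d : ℝ) ^ 33 := by positivity
    linarith
  exact h1.trans h2

private theorem F06_W2 {d : ℕ} (hd : 10 ≤ d) :
    501000 * (d : ℝ) ^ 6 * 7 ^ d ≤ W1 d := by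
  have hd10 : (10 : ℝ) ≤ d := by exact_mod_cast hd
  refine le_trans ?_ (F06_W hd)
  have h1 : (7 : ℝ) ^ d ≤ (d : ℝ) ^ d := pow_le_pow_left₀ (by norm_num) (by linarith) _
  have h2 : (501000 : ℝ) ≤ (d : ℝ) ^ 6 := by
    have : (10 : ℝ) ^ 6 ≤ (d : ℝ) ^ 6 := pow_le_pow_left₀ (by norm_num) hd10 _
    linarith
  have e : (d : ℝ) ^ (d + 12) = (d : ℝ) ^ 6 * (d : ℝ) ^ 6 * (d : ℝ) ^ d := by ring
  rw [e]
  have h3 : (0 : ℝ) ≤ (d : ℝ) ^ 6 := by positivity
  have h4 : 501000 * (d : ℝ) ^ 6 ≤ (d : ℝ) ^ 6 * (d : ℝ) ^ 6 := mul_le_mul_of_nonneg_right h2 h3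
  exact mul_le_mul h4 h1 (by positivity) (by positivity)

private theorem F06_W3 {d : ℕ} (hd : 10 ≤ d) : 4000 * (d : ℝ) ^ 6 ≤ W1 d := by
  refine le_trans ?_ (F06_W2 hd)
  have h7 : (1 : ℝ) ≤ 7 ^ d := one_le_pow₀ (by norm_num)
  have h6 : (0 : ℝ) ≤ (d : ℝ) ^ 6 := by positivity
  nlinarith

private theorem F06_num {d : ℕ} (hd : 10 ≤ d) :
    2 * (d : ℝ) * Real.exp (-(W1 d / (400 * (d : ℝ) ^ 5))) ≤
      Real.exp (-(W1 d / (500 * (d : ℝ) ^ 5))) := by
  have hd0 : (0 : ℝ) < d := by exact_mod_cast (by omega : 0 < d)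
  have hW := F06_W3 hd
  have h1 : 2 * (d : ℝ) ≤ W1 d / (2000 * (d : ℝ) ^ 5) := by
    rw [le_div_iff₀ (by positivity)]
    calc 2 * (d : ℝ) * (2000 * (d : ℝ) ^ 5) = 4000 * (d : ℝ) ^ 6 := by ring
      _ ≤ W1 d := hW
  have h2 : 2 * (d : ℝ) ≤ Real.exp (W1 d / (2000 * (d : ℝ) ^ 5)) :=
    h1.trans ((le_add_of_nonneg_right zero_le_one).trans (Real.add_one_le_exp _))
  calc 2 * (d : ℝ) * Real.exp (-(W1 d / (400 * (d : ℝ) ^ 5))) ≤
      Real.exp (W1 d / (2000 * (d : ℝ) ^ 5)) * Real.exp (-(W1 d / (400 * (d : ℝ) ^ 5))) :=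
        mul_le_mul_of_nonneg_right h2 (Real.exp_pos _).le
    _ = Real.exp (-(W1 d / (500 * (d : ℝ) ^ 5))) := by
      rw [← Real.exp_add]
      congr 1
      field_simp
      ring

/-- the base -/
noncomputable def rW (d : ℕ) : ℝ := Real.exp (-(W1 d / (500 * (d : ℝ) ^ 5 * 7 ^ d)))

theorem bad_rare : ∃ d₀ : ℕ, ∀ d : ℕ, d₀ ≤ d → ∀ q : ℕ, AdmC d q → ∀ k K : ℕ, d ^ 46 ≤ 2 ^ k → 1 ≤ K →
    nC d K + 4 ≤ 2 ^ (k + 1) → ∀ Γ : Finset (Blk d K),
    cV (GB d K k) (fun f : Site d (k + 1) → Fin q => ∀ t ∈ Γ, BAD t f) ≤ ZV q (GB d K k) * rW d ^ Γ.card := by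
  obtain ⟨d₀, H⟩ := far_boxes
  refine ⟨max d₀ 10, fun d hd q hq k K hk hK hn Γ => ?_⟩
  have hd10 : 10 ≤ d := (le_max_right _ _).trans hd
  obtain ⟨Γ', hsub, hfar, hcard⟩ := sep Γ
  have hZ : 0 ≤ ZV q (GB d K k) := by unfold ZV cV; positivity
  set E : ℝ := ZV q (GB d K k) * Real.exp (-(Γ'.card * (W1 d / (400 * (d : ℝ) ^ 5)))) with hE
  have hE0 : 0 ≤ E := mul_nonneg hZ (Real.exp_pos _).le
  have h1 : cV (GB d K k) (fun f : Site d (k + 1) → Fin q => ∀ t ∈ Γ, BAD t f) ≤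
      Fintype.card ({t // t ∈ Γ'} → Fin d × Bool) * E := by
    refine F06_union (GB d K k) _ (fun (c : {t // t ∈ Γ'} → Fin d × Bool) f =>
      ∀ t : {t // t ∈ Γ'}, (F06_u t.1 (c t) (c t).1).val + 1 < 2 ^ K ∧
        ¬ PU (wa (F06_u t.1 (c t))) (db (F06_u t.1 (c t)) (c t).1) f) ?_ E ?_
    · intro f hf
      choose c hc using fun t : {t // t ∈ Γ'} => F06_bad (hf t.1 (hsub t.2))
      exact ⟨c, hc⟩
    · intro c
      by_cases hv : ∀ t : {t // t ∈ Γ'}, (F06_u t.1 (c t) (c t).1).val + 1 < 2 ^ K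
      · have h2 := H d ((le_max_left _ _).trans hd) q hq k K hk hK hn {t // t ∈ Γ'} Finset.univ
          (fun t => wa (F06_u t.1 (c t))) (fun t => db (F06_u t.1 (c t)) (c t).1)
          (fun t _ => dbx_dom hd10 _ _ (hv t))
          (fun l _ m _ hlm => far_dom hd10 (hfar l.1 l.2 m.1 m.2 fun h => hlm (Subtype.ext h))
            (hv l) (hv m) (F06_u_or _ _) (F06_u_or _ _) hn)
        have h3 : (Finset.univ : Finset {t // t ∈ Γ'}).card = Γ'.card := by
          rw [Finset.card_univ, Fintype.card_coe]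
        rw [h3] at h2
        refine le_trans ?_ h2
        apply le_of_eq
        congr 1
        funext f
        apply propext
        exact ⟨fun h t _ => (h t).2, fun h t => ⟨hv t, h t (mem_univ _)⟩⟩
      · have h2 : cV (GB d K k) (fun f : Site d (k + 1) → Fin q =>
            ∀ t : {t // t ∈ Γ'}, (F06_u t.1 (c t) (c t).1).val + 1 < 2 ^ K ∧
              ¬ PU (wa (F06_u t.1 (c t))) (db (F06_u t.1 (c t)) (c t).1) f) = 0 := by
          exact F06_zero _ _ fun f h => hv fun t => (h t).1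
        rw [h2]
        exact hE0
  have h4 : (Fintype.card ({t // t ∈ Γ'} → Fin d × Bool) : ℝ) = (2 * (d : ℝ)) ^ Γ'.card := by
    rw [Fintype.card_fun, Fintype.card_prod, Fintype.card_fin, Fintype.card_bool, Fintype.card_coe]
    push_cast
    rw [mul_comm (d : ℝ) 2]
  rw [h4] at h1
  refine h1.trans ?_
  have h5 : (2 * (d : ℝ)) ^ Γ'.card * E = ZV q (GB d K k) *
      (2 * (d : ℝ) * Real.exp (-(W1 d / (400 * (d : ℝ) ^ 5)))) ^ Γ'.card := by
    rw [hE, mul_pow (2 * (d : ℝ)), ← Real.exp_nat_mul, mul_neg]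
    ring
  rw [h5]
  refine mul_le_mul_of_nonneg_left ?_ hZ
  have hd0 : (0 : ℝ) < d := by exact_mod_cast (by omega : 0 < d)
  have hW0 : 0 ≤ W1 d := by unfold W1; positivity
  calc (2 * (d : ℝ) * Real.exp (-(W1 d / (400 * (d : ℝ) ^ 5)))) ^ Γ'.card ≤
      Real.exp (-(W1 d / (500 * (d : ℝ) ^ 5))) ^ Γ'.card :=
        pow_le_pow_left₀ (by positivity) (F06_num hd10) _
    _ ≤ rW d ^ Γ.card := by
      unfold rW
      rw [← Real.exp_nat_mul, ← Real.exp_nat_mul]
      apply Real.exp_le_exp.2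
      rw [mul_neg, mul_neg, neg_le_neg_iff]
      have hc : (Γ.card : ℝ) ≤ 7 ^ d * Γ'.card := by exact_mod_cast hcard
      have e1 : W1 d / (500 * (d : ℝ) ^ 5) = 7 ^ d * (W1 d / (500 * (d : ℝ) ^ 5 * 7 ^ d)) := by
        field_simp
      rw [e1, ← mul_assoc, mul_comm (Γ'.card : ℝ)]
      exact mul_le_mul_of_nonneg_right hc (by positivity)

theorem rW_small : ∃ d₀ : ℕ, ∀ d : ℕ, d₀ ≤ d → 4 ^ d * rW d ≤ 1 / (1000 * (d : ℝ)) := by
  refine ⟨10, fun d hd => ?_⟩
  have hd0 : (0 : ℝ) < d := by exact_mod_cast (by omega : 0 < d)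
  have hW := F06_W2 hd
  set X : ℝ := W1 d / (500 * (d : ℝ) ^ 5 * 7 ^ d) with hX
  have h1 : 1002 * (d : ℝ) ≤ X := by
    rw [hX, le_div_iff₀ (by positivity)]
    calc 1002 * (d : ℝ) * (500 * (d : ℝ) ^ 5 * 7 ^ d) = 501000 * (d : ℝ) ^ 6 * 7 ^ d := by ring
      _ ≤ W1 d := hW
  have h2 : (4 : ℝ) ^ d ≤ Real.exp (2 * d) := by
    have h3 : (4 : ℝ) ≤ Real.exp 2 := by
      have h4 : (2 : ℝ) ≤ Real.exp 1 := by
        have := Real.add_one_le_exp (1 : ℝ)
        linarith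
      have h5 : Real.exp 2 = Real.exp 1 * Real.exp 1 := by
        rw [← Real.exp_add]; norm_num
      rw [h5]
      nlinarith
    calc (4 : ℝ) ^ d ≤ Real.exp 2 ^ d := pow_le_pow_left₀ (by norm_num) h3 _
      _ = Real.exp (2 * d) := by
        rw [← Real.exp_nat_mul]; congr 1; ring
  have h3 : 1000 * (d : ℝ) ≤ Real.exp (1000 * d) :=
    (le_add_of_nonneg_right zero_le_one).trans (Real.add_one_le_exp _)
  have h4 : 4 ^ d * (1000 * (d : ℝ)) ≤ Real.exp X := by
    calc 4 ^ d * (1000 * (d : ℝ)) ≤ Real.exp (2 * d) * Real.exp (1000 * d) :=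
          mul_le_mul h2 h3 (by positivity) (Real.exp_pos _).le
      _ = Real.exp (1002 * d) := by
        rw [← Real.exp_add]; congr 1; ring
      _ ≤ Real.exp X := Real.exp_le_exp.2 h1
  unfold rW
  rw [← hX, Real.exp_neg, ← div_eq_mul_inv, div_le_div_iff₀ (Real.exp_pos _) (by positivity), one_mul]
  exact h4

end Pool.Agent.COR
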