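import Pool.Agent.Lib_MP_2c424f_cor.F05

/-!
# Labels of the large blocks (piece F07, (F5))

`NG A t f`: at least `19/20` of the 2-blocks in the box of `t` are good with label `A`.
`dom_NG`: the domino has `(w-1)/(w/2-1) ≤ 2.01` times as many 2-blocks as the box of `u` (and of `nxt u j`), so at most
`2.01/50 ≤ 1/20` of the 2-blocks of the box are exceptional (`card_gr`).
`NG_lab`: `#{τ : c ∈ AL f τ}` is at least `19/20 |gr|` if `c ∈ A`, at most `|gr|/20` if not (`|gr| > 0`).
`good_NG`: some domino contains the box of `t` (`K ≥ 1`: direction `0`; if `(t 0).val + 1 = 2^K` take `u = t - e_0`).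
`good_adj`: both blocks are in the pure domino of `t`.
-/

set_option autoImplicit false

open Finset

namespace Pool.Agent.COR

open Pool.Agent.LO

variable {d k K q : ℕ}

open scoped Classical in
/-- nearly all 2-blocks of the large block are good with label `A` -/
def NG (A : Finset (Fin q)) (t : Blk d K) (f : Site d (k + 1) → Fin q) : Prop :=
  19 / 20 * ((gr (wa t) (wb t) : Finset (Blk d k)).card : ℝ) ≤
    (((gr (wa t) (wb t) : Finset (Blk d k)).filter fun τ => GD τ f ∧ AL f τ = A).card : ℝ)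

open scoped Classical in
/-- the label of a large block -/
def labW (c : Fin q) (t : Blk d K) (f : Site d (k + 1) → Fin q) : Prop :=
  ((gr (wa t) (wb t) : Finset (Blk d k)).card : ℝ) / 2 <
    (((gr (wa t) (wb t) : Finset (Blk d k)).filter fun τ => c ∈ AL f τ).card : ℝ)

private theorem F07_w (hd : 10 ≤ d) : 101 ≤ d ^ 33 := by
  have h1 : 10 ^ 33 ≤ d ^ 33 := Nat.pow_le_pow_left hd 33
  have h2 : (101 : ℕ) ≤ 10 ^ 33 := by norm_num
  exact h2.trans h1

private theorem F07_n (hd : 10 ≤ d) (K : ℕ) : nC d K + 2 = wC d * 2 ^ K := by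
  have h1 := F07_w hd
  have h2 : wC d * 1 ≤ wC d * 2 ^ K := Nat.mul_le_mul_left _ (Nat.one_le_pow _ _ (by norm_num))
  unfold nC
  unfold wC at h2 ⊢
  omega

private theorem F07_wle (K : ℕ) {m v : ℕ} (h : v + m ≤ 2 ^ K) :
    wC d * v + m * wC d ≤ wC d * 2 ^ K := by
  calc wC d * v + m * wC d = wC d * (v + m) := by ring
    _ ≤ wC d * 2 ^ K := Nat.mul_le_mul_left _ h

private theorem F07_evb1 (hd : 10 ≤ d) (hn : nC d K + 4 ≤ 2 ^ (k + 1)) (t : Blk d K) :
    evb k (wa t) (wb t) := by
  intro i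
  have h1 := F07_w hd
  have h2 := F07_n hd K
  have h3 : (t i).val + 1 ≤ 2 ^ K := ZMod.val_lt (t i)
  have h4 := F07_wle (d := d) K h3
  have hw : wC d = 2 * d ^ 33 := rfl
  unfold wa wb
  refine ⟨?_, ?_, by omega, by omega⟩
  · exact ⟨d ^ 33 * (t i).val, by rw [hw]; ring⟩
  · rw [Nat.even_iff]
    have : wC d * (t i).val = 2 * (d ^ 33 * (t i).val) := by rw [hw]; ring
    omega

private theorem F07_evb2 (hd : 10 ≤ d) (hn : nC d K + 4 ≤ 2 ^ (k + 1)) (u : Blk d K) (j : Fin d)
    (h : (u j).val + 1 < 2 ^ K) : evb k (wa u) (db u j) := by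
  intro i
  by_cases hi : i = j
  · subst hi
    have h1 := F07_w hd
    have h2 := F07_n hd K
    have h3 : (u i).val + 2 ≤ 2 ^ K := h
    have h4 := F07_wle (d := d) K h3
    have hw : wC d = 2 * d ^ 33 := rfl
    unfold wa db
    rw [Function.update_self]
    have h5 : wC d * (u i).val = 2 * (d ^ 33 * (u i).val) := by rw [hw]; ring
    refine ⟨?_, ?_, by omega, by omega⟩
    · exact ⟨d ^ 33 * (u i).val, by rw [hw]; ring⟩
    · rw [Nat.even_iff]
      omega
  · unfold db
    rw [Function.update_of_ne hi]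
    exact F07_evb1 hd hn u i

private theorem F07_card1 (hd : 10 ≤ d) (hn : nC d K + 4 ≤ 2 ^ (k + 1)) (t : Blk d K) :
    (gr (wa t) (wb t) : Finset (Blk d k)).card = (d ^ 33 - 1) * (d ^ 33 - 1) ^ (d - 1) := by
  rw [card_gr (F07_evb1 hd hn t)]
  have h1 : ∀ i ∈ (univ : Finset (Fin d)), (wb t i - wa t i) / 2 = d ^ 33 - 1 := by
    intro i _
    unfold wa wb wC
    omega
  rw [prod_congr rfl h1, prod_const, card_univ, Fintype.card_fin, ← pow_succ']
  congr 1
  omega

private theorem F07_card2 (hd : 10 ≤ d) (hn : nC d K + 4 ≤ 2 ^ (k + 1)) (u : Blk d K) (j : Fin d)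
    (h : (u j).val + 1 < 2 ^ K) : (gr (wa u) (db u j) : Finset (Blk d k)).card =
      (2 * (d ^ 33 - 1) + 1) * (d ^ 33 - 1) ^ (d - 1) := by
  rw [card_gr (F07_evb2 hd hn u j h), ← mul_prod_erase univ _ (mem_univ j)]
  have h1 : ∀ i ∈ (univ : Finset (Fin d)).erase j, (db u j i - wa u i) / 2 = d ^ 33 - 1 := by
    intro i hi
    unfold db
    rw [Function.update_of_ne (ne_of_mem_erase hi)]
    unfold wa wb wC
    omega
  have h2 : (db u j j - wa u j) / 2 = 2 * (d ^ 33 - 1) + 1 := by
    have h3 := F07_w hd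
    unfold db
    rw [Function.update_self]
    unfold wa wC
    omega
  rw [prod_congr rfl h1, prod_const, card_erase_of_mem (mem_univ j), card_univ, Fintype.card_fin,
    h2]

private theorem F07_le (hd : 10 ≤ d) (hn : nC d K + 4 ≤ 2 ^ (k + 1)) (t u : Blk d K) (j : Fin d)
    (h : (u j).val + 1 < 2 ^ K) : ((gr (wa u) (db u j) : Finset (Blk d k)).card : ℝ) ≤
      201 / 100 * ((gr (wa t) (wb t) : Finset (Blk d k)).card : ℝ) := by
  have h1 : 100 * (gr (wa u) (db u j) : Finset (Blk d k)).card ≤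
      201 * (gr (wa t) (wb t) : Finset (Blk d k)).card := by
    rw [F07_card1 hd hn t, F07_card2 hd hn u j h, ← mul_assoc, ← mul_assoc]
    apply Nat.mul_le_mul_right
    have h3 := F07_w hd
    omega
  have h2 : ((100 * (gr (wa u) (db u j) : Finset (Blk d k)).card : ℕ) : ℝ) ≤
      ((201 * (gr (wa t) (wb t) : Finset (Blk d k)).card : ℕ) : ℝ) := Nat.cast_le.2 h1
  push_cast at h2
  linarith

private theorem F07_pos (hd : 10 ≤ d) (hn : nC d K + 4 ≤ 2 ^ (k + 1)) (t : Blk d K) :
    (0 : ℝ) < ((gr (wa t) (wb t) : Finset (Blk d k)).card : ℝ) := by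
  rw [F07_card1 hd hn t]
  have h3 := F07_w hd
  have h4 : 0 < d ^ 33 - 1 := by omega
  exact_mod_cast Nat.mul_pos h4 (Nat.pow_pos h4)

private theorem F07_sub {α : Type*} {S T : Finset α} (hST : S ⊆ T) (p : α → Prop)
    [DecidablePred p] (hT : 49 / 50 * (T.card : ℝ) ≤ ((T.filter p).card : ℝ))
    (hc : (T.card : ℝ) ≤ 201 / 100 * (S.card : ℝ)) :
    19 / 20 * (S.card : ℝ) ≤ ((S.filter p).card : ℝ) := by
  have h1 : ((S.filter p).card : ℝ) + ((S.filter fun a => ¬ p a).card : ℝ) = (S.card : ℝ) := by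
    exact_mod_cast Finset.card_filter_add_card_filter_not (s := S) p
  have h2 : ((T.filter p).card : ℝ) + ((T.filter fun a => ¬ p a).card : ℝ) = (T.card : ℝ) := by
    exact_mod_cast Finset.card_filter_add_card_filter_not (s := T) p
  have h3 : ((S.filter fun a => ¬ p a).card : ℝ) ≤ ((T.filter fun a => ¬ p a).card : ℝ) := by
    exact_mod_cast card_le_card (filter_subset_filter _ hST)
  have h4 : (0 : ℝ) ≤ (S.card : ℝ) := Nat.cast_nonneg _
  linarith

private theorem F07_grsub {a b a' b' : Fin d → ℕ} (h1 : ∀ i, a' i ≤ a i) (h2 : ∀ i, b i ≤ b' i) :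
    (gr a b : Finset (Blk d k)) ⊆ gr a' b' := by
  intro x hx
  unfold gr at hx ⊢
  rw [mem_filter] at hx ⊢
  exact ⟨hx.1, fun i => ⟨(h1 i).trans (hx.2 i).1, (hx.2 i).2.trans (h2 i)⟩⟩

private theorem F07_val {z : ZMod (2 ^ K)} (h : z.val + 1 < 2 ^ K) : (z + 1).val = z.val + 1 := by
  have h1 : (1 : ZMod (2 ^ K)).val = 1 := by
    rw [ZMod.val_one_eq_one_mod, Nat.mod_eq_of_lt (by omega)]
  rw [ZMod.val_add_of_lt (by rw [h1]; exact h), h1]

theorem dom_NG (hd : 10 ≤ d) (hn : nC d K + 4 ≤ 2 ^ (k + 1)) (u : Blk d K) (j : Fin d)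
    (h : (u j).val + 1 < 2 ^ K) (f : Site d (k + 1) → Fin q) (hP : PU (wa u) (db u j) f) :
    ∃ A : Finset (Fin q), A.card = q / 2 ∧ NG A u f ∧ NG A (nxt u j) f := by
  classical
  obtain ⟨A, hA, hA2⟩ := hP
  refine ⟨A, hA, ?_, ?_⟩
  · unfold NG
    refine @F07_sub _ _ _ (F07_grsub (fun i => le_rfl) fun i => ?_) _ _ hA2
      (F07_le hd hn u u j h)
    unfold db
    by_cases hi : i = j
    · subst hi
      rw [Function.update_self]
      unfold wb
      omega
    · rw [Function.update_of_ne hi]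
  · unfold NG
    have hv : ((nxt u j) j).val = (u j).val + 1 := by
      unfold nxt
      rw [Function.update_self]
      exact F07_val h
    have hne : ∀ i, i ≠ j → (nxt u j) i = u i := fun i hi => by
      unfold nxt
      rw [Function.update_of_ne hi]
    refine @F07_sub _ _ _ (F07_grsub (fun i => ?_) fun i => ?_) _ _ hA2
      (F07_le hd hn (nxt u j) u j h)
    · by_cases hi : i = j
      · subst hi
        unfold wa
        rw [hv]
        exact Nat.mul_le_mul_left _ (Nat.le_succ _)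
      · unfold wa
        rw [hne i hi]
    · unfold db
      by_cases hi : i = j
      · subst hi
        rw [Function.update_self]
        have hw := F07_w hd
        have hw2 : wC d = 2 * d ^ 33 := rfl
        unfold wb
        rw [hv, Nat.mul_add, Nat.mul_one]
        omega
      · rw [Function.update_of_ne hi]
        unfold wb
        rw [hne i hi]

theorem NG_lab (hd : 10 ≤ d) (hn : nC d K + 4 ≤ 2 ^ (k + 1)) {A : Finset (Fin q)} {t : Blk d K}
    {f : Site d (k + 1) → Fin q} (h : NG A t f) (c : Fin q) : labW c t f ↔ c ∈ A := by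
  classical
  have hpos := F07_pos (k := k) hd hn t
  unfold NG at h
  unfold labW
  constructor
  · intro hl
    by_contra hc
    have h1 : Disjoint ((gr (wa t) (wb t) : Finset (Blk d k)).filter fun τ => GD τ f ∧ AL f τ = A)
        ((gr (wa t) (wb t) : Finset (Blk d k)).filter fun τ => c ∈ AL f τ) := by
      rw [disjoint_left]
      intro τ h2 h3
      rw [mem_filter] at h2 h3
      rw [h2.2.2] at h3
      exact hc h3.2
    have h2 := card_le_card (union_subset (filter_subset (fun τ => GD τ f ∧ AL f τ = A)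
      (gr (wa t) (wb t) : Finset (Blk d k))) (filter_subset (fun τ => c ∈ AL f τ)
      (gr (wa t) (wb t) : Finset (Blk d k))))
    rw [card_union_of_disjoint h1] at h2
    have h3 : (((gr (wa t) (wb t) : Finset (Blk d k)).filter
        fun τ => GD τ f ∧ AL f τ = A).card : ℝ) +
        (((gr (wa t) (wb t) : Finset (Blk d k)).filter fun τ => c ∈ AL f τ).card : ℝ) ≤
        ((gr (wa t) (wb t) : Finset (Blk d k)).card : ℝ) := by
      exact_mod_cast h2
    linarith
  · intro hc
    have h1 : (((gr (wa t) (wb t) : Finset (Blk d k)).filter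
        fun τ => GD τ f ∧ AL f τ = A).card : ℝ) ≤
        (((gr (wa t) (wb t) : Finset (Blk d k)).filter fun τ => c ∈ AL f τ).card : ℝ) := by
      have h2 : ((gr (wa t) (wb t) : Finset (Blk d k)).filter fun τ => GD τ f ∧ AL f τ = A) ⊆
          (gr (wa t) (wb t) : Finset (Blk d k)).filter fun τ => c ∈ AL f τ := by
        intro τ hτ
        rw [mem_filter] at hτ ⊢
        exact ⟨hτ.1, by rw [hτ.2.2]; exact hc⟩
      exact_mod_cast card_le_card h2
    linarith

theorem good_NG (hd : 10 ≤ d) (hK : 1 ≤ K) (hn : nC d K + 4 ≤ 2 ^ (k + 1)) {t : Blk d K}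
    {f : Site d (k + 1) → Fin q} (h : ¬ BAD t f) : ∃ A : Finset (Fin q), A.card = q / 2 ∧ NG A t f := by
  have hd0 : 0 < d := by omega
  let j : Fin d := ⟨0, hd0⟩
  have hK2 : 2 ^ 1 ≤ 2 ^ K := Nat.pow_le_pow_right (by norm_num) hK
  have hlt : (t j).val < 2 ^ K := ZMod.val_lt (t j)
  by_cases hj : (t j).val + 1 < 2 ^ K
  · have hP : PU (wa t) (db t j) f := by
      by_contra hP
      exact h ⟨t, j, hj, Or.inl rfl, hP⟩
    obtain ⟨A, hA, h1, -⟩ := dom_NG hd hn t j hj f hP
    exact ⟨A, hA, h1⟩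
  · have h1 : (1 : ZMod (2 ^ K)).val = 1 := by
      rw [ZMod.val_one_eq_one_mod, Nat.mod_eq_of_lt (by omega)]
    have hv : (t j - 1).val = (t j).val - 1 := by
      rw [ZMod.val_sub (by rw [h1]; omega), h1]
    let u : Blk d K := Function.update t j (t j - 1)
    have huj : u j = t j - 1 := Function.update_self _ _ _
    have hnx : nxt u j = t := by
      unfold nxt
      rw [huj, sub_add_cancel]
      show Function.update (Function.update t j (t j - 1)) j (t j) = t
      rw [Function.update_idem, Function.update_eq_self]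
    have hju : (u j).val + 1 < 2 ^ K := by
      rw [huj, hv]
      omega
    have hP : PU (wa u) (db u j) f := by
      by_contra hP
      exact h ⟨u, j, hju, Or.inr hnx, hP⟩
    obtain ⟨A, hA, -, h2⟩ := dom_NG hd hn u j hju f hP
    rw [hnx] at h2
    exact ⟨A, hA, h2⟩

theorem good_adj (hd : 10 ≤ d) (hn : nC d K + 4 ≤ 2 ^ (k + 1)) {t : Blk d K} (j : Fin d)
    (hj : (t j).val + 1 < 2 ^ K) {f : Site d (k + 1) → Fin q} (h : ¬ BAD t f) (c : Fin q) :
    labW c t f ↔ labW c (nxt t j) f := by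
  have hP : PU (wa t) (db t j) f := by
    by_contra hP
    exact h ⟨t, j, hj, Or.inl rfl, hP⟩
  obtain ⟨A, -, h1, h2⟩ := dom_NG hd hn t j hj f hP
  rw [NG_lab hd hn h1 c, NG_lab hd hn h2 c]

end Pool.Agent.COR
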