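import Pool.Agent.Lib_MP_2c424f_cor.F06
import Pool.Agent.Lib_MP_2c424f_cor.F07
import Pool.Agent.Lib_MP_2c424f_lo.Multi

/-!
# Two large blocks have the same label (piece F08, (F5))

`multi` with `S` = the finset of the `GB`-proper functions, `Bad f t = BAD t f`, `lab f t = labW c t f`, `r = rW d` (`bad_rare`, `rW_small`,
`good_adj`), for `(t, t')` and each colour `c`, and for `(t', t)` and one colour: outside a proportion
`(q+1) · 4 · 4^d rW ≤ (d+1) 4/(1000 d) ≤ 1/100` of `S`: `t`, `t'` are not `BAD` and all labels agree; then `good_NG`, `NG_lab`.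
-/

set_option autoImplicit false

open Finset

namespace Pool.Agent.COR

open Pool.Agent.LO

theorem two_blocks : ∃ d₀ : ℕ, ∀ d : ℕ, d₀ ≤ d → ∀ q : ℕ, AdmC d q → ∀ k K : ℕ, d ^ 46 ≤ 2 ^ k → 1 ≤ K →
    nC d K + 4 ≤ 2 ^ (k + 1) → ∀ t t' : Blk d K,
    99 / 100 * ZV q (GB d K k) ≤
      cV (GB d K k) (fun f : Site d (k + 1) → Fin q =>
        ∃ A : Finset (Fin q), A.card = q / 2 ∧ NG A t f ∧ NG A t' f) := by
  classical
  obtain ⟨d₁, h₁⟩ := bad_rare
  obtain ⟨d₂, h₂⟩ := rW_small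
  refine ⟨max 10 (max d₁ d₂), fun d hd q hA k K hk hK hn t t' => ?_⟩
  have hd10 : 10 ≤ d := le_trans (le_max_left _ _) hd
  have hd1 : d₁ ≤ d := le_trans (le_trans (le_max_left _ _) (le_max_right _ _)) hd
  have hd2 : d₂ ≤ d := le_trans (le_trans (le_max_right _ _) (le_max_right _ _)) hd
  have hdR : (10 : ℝ) ≤ d := by exact_mod_cast hd10
  have hr0 : 0 ≤ rW d := (Real.exp_pos _).le
  have hr := h₂ d hd2
  have hq4 : 4 ≤ q := hA.1
  have hqd : (q : ℝ) + 1 ≤ 2 * d := by
    have hlog : 1 ≤ Real.log d := by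
      rw [Real.le_log_iff_exp_le (by linarith)]
      have := Real.exp_one_lt_d9
      linarith
    have h3 := hA.2.2
    have hq0 : (0 : ℝ) ≤ q := Nat.cast_nonneg q
    nlinarith [mul_le_mul_of_nonneg_left hlog hq0]
  have hrd : 4 ^ d * rW d ≤ 1 / 10000 := by
    refine hr.trans ?_
    exact one_div_le_one_div_of_le (by norm_num) (by linarith)
  set S : Finset (Site d (k + 1) → Fin q) := univ.filter fun f => PrV (GB d K k) f with hS
  have hcV : ∀ P : (Site d (k + 1) → Fin q) → Prop, cV (GB d K k) P = ((S.filter P).card : ℝ) := by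
    intro P
    unfold cV
    rw [hS, Finset.filter_filter]
  have hZ : ZV q (GB d K k) = (S.card : ℝ) := by
    unfold ZV
    have h0 := hcV fun _ => True
    rw [h0]
    congr 2
    ext f
    simp
  have H1 : ∀ Γ : Finset (Blk d K), ((S.filter fun f => ∀ t ∈ Γ, BAD t f).card : ℝ) ≤ S.card * rW d ^ Γ.card := by
    intro Γ
    have h := h₁ d hd1 q hA k K hk hK hn Γ
    rw [hcV, hZ] at h
    convert h
  have HM : ∀ (c : Fin q) (u u' : Blk d K),
      ((S.filter fun f => BAD u f ∨ ¬ (labW c u f ↔ labW c u' f)).card : ℝ) ≤ S.card * (4 * (4 ^ d * rW d)) := by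
    intro c u u'
    have h := multi S (by omega) (fun f u => BAD u f) (fun f u => labW c u f) (rW d) hr0 (by linarith)
      (fun Γ => by convert H1 Γ)
      (fun f _ u j hj hb _ => good_adj hd10 hn j hj hb c) u u'
    convert h
  have c₀ : Fin q := ⟨0, by omega⟩
  set P : (Site d (k + 1) → Fin q) → Prop := fun f =>
    ∃ A : Finset (Fin q), A.card = q / 2 ∧ NG A t f ∧ NG A t' f with hP
  have hsub : S ⊆ S.filter P ∪ ((univ.biUnion fun c : Fin q =>
      S.filter fun f => BAD t f ∨ ¬ (labW c t f ↔ labW c t' f)) ∪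
      S.filter fun f => BAD t' f ∨ ¬ (labW c₀ t' f ↔ labW c₀ t f)) := by
    intro f hf
    by_contra hno
    simp only [Finset.mem_union, Finset.mem_biUnion, Finset.mem_filter, Finset.mem_univ, true_and, not_or,
      not_exists, hf] at hno
    obtain ⟨hnP, h5, h6⟩ := hno
    have hb : ¬ BAD t f := (h5 c₀).1
    have hb' : ¬ BAD t' f := h6.1
    obtain ⟨A, hAc, hNA⟩ := good_NG hd10 hK hn hb
    obtain ⟨A', hAc', hNA'⟩ := good_NG hd10 hK hn hb'
    have hAA : A = A' := by
      ext c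
      rw [← NG_lab hd10 hn hNA c, ← NG_lab hd10 hn hNA' c]
      exact not_not.1 (h5 c).2
    rw [← hAA] at hNA'
    exact hnP ⟨A, hAc, hNA, hNA'⟩
  have hcard : (S.card : ℝ) ≤ ((S.filter P).card : ℝ) +
      ((∑ c : Fin q, ((S.filter fun f => BAD t f ∨ ¬ (labW c t f ↔ labW c t' f)).card : ℝ)) +
        ((S.filter fun f => BAD t' f ∨ ¬ (labW c₀ t' f ↔ labW c₀ t f)).card : ℝ)) := by
    have h7 := Finset.card_le_card hsub
    have h8 := h7.trans (Finset.card_union_le _ _)
    have h9 := Finset.card_union_le (univ.biUnion fun c : Fin q =>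
      S.filter fun f => BAD t f ∨ ¬ (labW c t f ↔ labW c t' f))
      (S.filter fun f => BAD t' f ∨ ¬ (labW c₀ t' f ↔ labW c₀ t f))
    have h10 : (univ.biUnion fun c : Fin q =>
      S.filter fun f => BAD t f ∨ ¬ (labW c t f ↔ labW c t' f)).card ≤
        ∑ c : Fin q, (S.filter fun f => BAD t f ∨ ¬ (labW c t f ↔ labW c t' f)).card :=
      Finset.card_biUnion_le
    have h11 : S.card ≤ (S.filter P).card +
      ((∑ c : Fin q, (S.filter fun f => BAD t f ∨ ¬ (labW c t f ↔ labW c t' f)).card) +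
        (S.filter fun f => BAD t' f ∨ ¬ (labW c₀ t' f ↔ labW c₀ t f)).card) := by
      omega
    exact_mod_cast h11
  have hsum : (∑ c : Fin q, ((S.filter fun f => BAD t f ∨ ¬ (labW c t f ↔ labW c t' f)).card : ℝ)) ≤
      q * (S.card * (4 * (4 ^ d * rW d))) := by
    calc _ ≤ ∑ _c : Fin q, (S.card : ℝ) * (4 * (4 ^ d * rW d)) := Finset.sum_le_sum fun c _ => HM c t t'
      _ = _ := by rw [Finset.sum_const, Finset.card_univ, Fintype.card_fin, nsmul_eq_mul]
  have hlast := HM c₀ t' t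
  have hfin : ((q : ℝ) + 1) * (4 * (4 ^ d * rW d)) ≤ 1 / 100 := by
    have h12 : (0 : ℝ) ≤ 4 * (4 ^ d * rW d) := by positivity
    calc ((q : ℝ) + 1) * (4 * (4 ^ d * rW d)) ≤ (2 * d) * (4 * (4 ^ d * rW d)) :=
          mul_le_mul_of_nonneg_right hqd h12
      _ ≤ (2 * d) * (4 * (1 / (1000 * (d : ℝ)))) := by gcongr
      _ = 8 / 1000 := by
          have : (d : ℝ) ≠ 0 := by linarith
          field_simp
          norm_num
      _ ≤ 1 / 100 := by norm_num
  have hS0 : (0 : ℝ) ≤ S.card := Nat.cast_nonneg _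
  have h15 := hcard.trans (add_le_add_right (add_le_add hsum hlast) _)
  have h13 := mul_le_mul_of_nonneg_left hfin hS0
  have h14 : (S.card : ℝ) * (((q : ℝ) + 1) * (4 * (4 ^ d * rW d))) =
      q * (S.card * (4 * (4 ^ d * rW d))) + S.card * (4 * (4 ^ d * rW d)) := by ring
  have h16 : 99 / 100 * (S.card : ℝ) ≤ ((S.filter P).card : ℝ) := by linarith
  rw [hZ, hcV]
  convert h16

end Pool.Agent.COR
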