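import Pool.Agent.Lib_MP_2c424f_cor.Defs
import Pool.Agent.Lib_MP_2c424f_lo.BSum

/-!
# Opposite representations of a site (piece H01, (H1))

`opB`, `opb`: in the coordinates with `a i = b i` the block is shifted and both bits are flipped: `(t i, 1, 1) ↔ (t i + 1, 0, 0)`.
`op_pt`: same site (`2 (t i) + 2 = 2 (t i + 1) + 0` in `ZMod (2^(k+1))`); `op_od`: `a i ≠ b i` is unchanged; `op_op`: involution;
`op_alw`: a step is allowed for one of the two representations (`(0,0)`: `+` allowed, `(1,1)`: `-` allowed, `(0,1)`, `(1,0)`: both).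
-/

set_option autoImplicit false

open Finset

namespace Pool.Agent.COR

open Pool.Agent.LO

variable {d k : ℕ}

/-- the opposite block -/
def opB (t : Blk d k) (a b : Bt d) : Blk d k :=
  fun i => if a i = b i then (if a i then t i + 1 else t i - 1) else t i

/-- the opposite bits -/
def opb (a b : Bt d) : Bt d := fun i => if a i = b i then !a i else a i

private theorem H01_dbl (z : ZMod (2 ^ k)) :
    ((2 * (z + 1).val : ℕ) : ZMod (2 ^ (k + 1))) = ((2 * z.val : ℕ) : ZMod (2 ^ (k + 1))) + 1 + 1 := by
  have h1 : z + 1 = ((z.val + 1 : ℕ) : ZMod (2 ^ k)) := by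
    rw [Nat.cast_add, Nat.cast_one, ZMod.natCast_zmod_val]
  have h2 : (z + 1).val = (z.val + 1) % 2 ^ k := by
    rw [h1, ZMod.val_natCast]
  have h3 : 2 * ((z.val + 1) % 2 ^ k) ≡ 2 * (z.val + 1) [MOD 2 * 2 ^ k] :=
    Nat.ModEq.mul_left' 2 (Nat.mod_modEq _ _)
  have h4 : ((2 * (z + 1).val : ℕ) : ZMod (2 ^ (k + 1))) = ((2 * (z.val + 1) : ℕ) : ZMod _) := by
    rw [h2, ZMod.natCast_eq_natCast_iff, pow_succ']
    exact h3
  rw [h4]
  push_cast
  ring

private theorem H01_bool (x : Bool) : x = true ∨ x = false := by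
  cases x <;> simp

theorem op_pt (t : Blk d k) (a b : Bt d) : pt (opB t a b) (opb a b) (opb b a) = pt t a b := by
  funext i
  have e1 : pt (opB t a b) (opb a b) (opb b a) i =
      ((2 * (opB t a b i).val : ℕ) : ZMod (2 ^ (k + 1))) + (if opb a b i then 1 else 0) +
        (if opb b a i then 1 else 0) := rfl
  have e2 : pt t a b i = ((2 * (t i).val : ℕ) : ZMod (2 ^ (k + 1))) + (if a i then 1 else 0) +
        (if b i then 1 else 0) := rfl
  rw [e1, e2]
  rcases H01_bool (a i) with ha | ha <;> rcases H01_bool (b i) with hb | hb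
  · have h := H01_dbl (t i)
    have h1 : opB t a b i = t i + 1 := by simp [opB, ha, hb]
    have h2 : opb a b i = false := by simp [opb, ha, hb]
    have h3 : opb b a i = false := by simp [opb, ha, hb]
    rw [h1, h2, h3, ha, hb, h]
    simp
  · have h1 : opB t a b i = t i := by simp [opB, ha, hb]
    have h2 : opb a b i = a i := by simp [opb, ha, hb]
    have h3 : opb b a i = b i := by simp [opb, ha, hb]
    rw [h1, h2, h3]
  · have h1 : opB t a b i = t i := by simp [opB, ha, hb]
    have h2 : opb a b i = a i := by simp [opb, ha, hb]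
    have h3 : opb b a i = b i := by simp [opb, ha, hb]
    rw [h1, h2, h3]
  · have h := H01_dbl (t i - 1)
    rw [sub_add_cancel] at h
    have h1 : opB t a b i = t i - 1 := by simp [opB, ha, hb]
    have h2 : opb a b i = true := by simp [opb, ha, hb]
    have h3 : opb b a i = true := by simp [opb, ha, hb]
    rw [h1, h2, h3, ha, hb, h]
    simp

theorem op_od (a b : Bt d) : od (opb a b) (opb b a) ↔ od a b := by
  unfold od
  have h : (univ.filter fun i => opb a b i ≠ opb b a i) = univ.filter fun i => a i ≠ b i := by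
    apply filter_congr
    intro i _
    unfold opb
    cases ha : a i <;> cases hb : b i <;> simp
  rw [h]

theorem op_op (t : Blk d k) (a b : Bt d) :
    opB (opB t a b) (opb a b) (opb b a) = t ∧ opb (opb a b) (opb b a) = a ∧ opb (opb b a) (opb a b) = b := by
  refine ⟨funext fun i => ?_, funext fun i => ?_, funext fun i => ?_⟩
  · simp only [opB, opb]
    cases ha : a i <;> cases hb : b i <;> simp
  · simp only [opb]
    cases ha : a i <;> cases hb : b i <;> simp
  · simp only [opb]
    cases ha : a i <;> cases hb : b i <;> simp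

theorem op_alw (a b : Bt d) (σ : Stp d) : alw a b σ ∨ alw (opb a b) (opb b a) σ := by
  obtain ⟨i, e⟩ := σ
  simp only [alw, opb]
  cases ha : a i <;> cases hb : b i <;> cases e <;> simp

end Pool.Agent.COR
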