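import Pool.Agent.Lib_MP_2c424f_cor.H01
import Pool.Agent.Lib_MP_2c424f_cor.F07

/-!
# Most odd sites see exactly the colours of the label (piece H02, (H1))

`NbV V f x` = colours of the neighbours of `x` in `V`.  Let `T₀ = {(τ,a,b) : τ ∈ gr (wa t) (wb t), od a b}` (`|gr| 4^d/2` triples).
In a block with `GD τ f`, `AL f τ = A` all but a fraction `q dl q = 1/100` of the odd `(a,b)` see inside the block exactly `A`
(`c ∈ A`: `mb ≤ dl q` do not see `c`, `AL_mb`; `c ∉ A`: `lab1`, at most `dl q` see `c`).  So at most `(1/20 + 1/100) |T₀|` triples do not see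
exactly `A` inside the block.  The map `(τ,a,b) ↦ (opB τ a b, opb a b, opb b a)` is injective and preserves `od`; it leaves `gr` only if
for some `i` `τ i` is the first or the last value: at most `2 d/(w/2 - 1) |T₀| ≤ |T₀|/100` triples.  So for at least
`(1 - 2 · 6/100 - 1/100) |T₀|` triples both representations are in `gr` and see exactly `A`; all neighbours of the site belong to the
two closed blocks (`op_alw`, `op_pt`, `pt_step`), which are contained in `GB`, so `NbV (GB) f x = A`.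
-/

set_option autoImplicit false

open Finset

namespace Pool.Agent.COR

open Pool.Agent.LO

variable {d k K q : ℕ}

open scoped Classical in
/-- colours of the neighbours in `V` -/
noncomputable def NbV (V : Finset (Site d k)) (f : Site d k → Fin q) (x : Site d k) : Finset (Fin q) :=
  (univ.filter fun σ : Stp d => x + sv σ ∈ V).image fun σ => f (x + sv σ)

open scoped Classical in
/-- odd points of the 2-blocks of a large block -/
noncomputable def T0 (d k : ℕ) {K : ℕ} (t : Blk d K) : Finset (Blk d k × Bt d × Bt d) :=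
  univ.filter fun p => p.1 ∈ gr (wa t) (wb t) ∧ od p.2.1 p.2.2

section H02

private theorem H02_w (hd : 10 ≤ d) : 400 * d + 4 ≤ wC d := by
  have h1 : 10 ^ 32 ≤ d ^ 32 := Nat.pow_le_pow_left hd 32
  have h2 : 10 ^ 32 * d ≤ d ^ 32 * d := Nat.mul_le_mul_right _ h1
  have h3 : d ^ 33 = d ^ 32 * d := by ring
  unfold wC
  rw [h3]
  omega

private theorem H02_ev (hd : 10 ≤ d) (hn : nC d K + 4 ≤ 2 ^ (k + 1)) (t : Blk d K) (i : Fin d) :
    2 ∣ wa t i ∧ 2 ∣ wC d ∧ wb t i = wa t i + (wC d - 2) ∧ wb t i ≤ nC d K ∧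
      wb t i + 4 ≤ 2 ^ (k + 1) := by
  have h0 : 2 ∣ wC d := ⟨d ^ 33, rfl⟩
  have h1 := H02_w hd
  have h2 := ZMod.val_lt (t i)
  have h3 : wC d * ((t i).val + 1) ≤ wC d * 2 ^ K := Nat.mul_le_mul_left _ h2
  rw [Nat.mul_add, Nat.mul_one] at h3
  have h4 : wb t i ≤ nC d K := by
    unfold wb nC
    omega
  exact ⟨Dvd.dvd.mul_right h0 _, h0, rfl, h4, by omega⟩

private theorem H02_gr {a b : Fin d → ℕ} {τ : Blk d k} : τ ∈ gr a b ↔
    ∀ i, a i ≤ 2 * (τ i).val ∧ 2 * (τ i).val + 2 ≤ b i := by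
  unfold gr
  rw [mem_filter]
  simp only [mem_univ, true_and]

private theorem H02_bx {a b : Fin d → ℕ} {x : Site d k} :
    x ∈ bx a b ↔ ∀ i, a i ≤ (x i).val ∧ (x i).val ≤ b i := by
  unfold bx
  rw [mem_filter]
  simp only [mem_univ, true_and]

private theorem H02_T0 {t : Blk d K} {p : Blk d k × Bt d × Bt d} :
    p ∈ T0 d k t ↔ p.1 ∈ gr (wa t) (wb t) ∧ od p.2.1 p.2.2 := by
  classical
  unfold T0
  rw [mem_filter]
  simp only [mem_univ, true_and]

private theorem H02_val (t : Blk d k) (a b : Bt d) (j : Fin d) :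
    ∃ ε : ℕ, ε ≤ 2 ∧ (pt t a b j).val = (2 * (t j).val + ε) % 2 ^ (k + 1) := by
  refine ⟨(if a j then 1 else 0) + (if b j then 1 else 0), ?_, ?_⟩
  · split_ifs <;> omega
  · have h : pt t a b j = ((2 * (t j).val + (if a j then 1 else 0) + (if b j then 1 else 0) : ℕ) :
        ZMod (2 ^ (k + 1))) := by
      simp only [pt, bas, bv, Pi.add_apply]
      push_cast
      rfl
    rw [h, ZMod.val_natCast, add_assoc]

private theorem H02_pt (hd : 10 ≤ d) (hn : nC d K + 4 ≤ 2 ^ (k + 1)) (t : Blk d K) {τ : Blk d k}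
    (h : τ ∈ gr (wa t) (wb t)) (a b : Bt d) :
    pt τ a b ∈ (bx (wa t) (wb t) : Finset (Site d (k + 1))) := by
  rw [H02_bx]
  rw [H02_gr] at h
  intro i
  obtain ⟨ε, hε, h1⟩ := H02_val τ a b i
  obtain ⟨-, -, -, -, h2⟩ := H02_ev hd hn t i
  have h3 := h i
  rw [h1, Nat.mod_eq_of_lt (by omega)]
  omega

private theorem H02_GB (hd : 10 ≤ d) (hn : nC d K + 4 ≤ 2 ^ (k + 1)) (t : Blk d K) {τ : Blk d k}
    (h : τ ∈ gr (wa t) (wb t)) (a b : Bt d) : pt τ a b ∈ GB d K k := by
  have h1 := H02_pt hd hn t h a b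
  rw [H02_bx] at h1
  unfold GB
  rw [H02_bx]
  intro i
  obtain ⟨-, -, -, h2, -⟩ := H02_ev hd hn t i
  exact ⟨Nat.zero_le _, (h1 i).2.trans h2⟩

/-- counting over the 2-blocks -/
private theorem H02_fib (t : Blk d K) (P : Blk d k → Bt d → Bt d → Prop)
    [DecidablePred fun p : Blk d k × Bt d × Bt d => P p.1 p.2.1 p.2.2]
    [∀ τ, DecidablePred fun p : Bt d × Bt d => od p.1 p.2 ∧ P τ p.1 p.2] :
    ((T0 d k t).filter fun p => P p.1 p.2.1 p.2.2).card =
      ∑ τ ∈ gr (wa t) (wb t), (univ.filter fun p : Bt d × Bt d => od p.1 p.2 ∧ P τ p.1 p.2).card := by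
  classical
  unfold T0
  rw [filter_filter, card_filter, Fintype.sum_prod_type]
  have h1 : ∀ τ : Blk d k, (∑ y : Bt d × Bt d,
      if (τ ∈ gr (wa t) (wb t) ∧ od y.1 y.2) ∧ P τ y.1 y.2 then 1 else 0) =
      if τ ∈ gr (wa t) (wb t) then
        (univ.filter fun p : Bt d × Bt d => od p.1 p.2 ∧ P τ p.1 p.2).card else 0 := by
    intro τ
    by_cases h : τ ∈ gr (wa t) (wb t)
    · rw [if_pos h, card_filter]
      refine sum_congr rfl fun y _ => ?_
      simp only [h, true_and]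
    · rw [if_neg h]
      refine sum_eq_zero fun y _ => ?_
      simp only [h, false_and, if_false]
  refine (sum_congr rfl fun τ _ => ?_).trans ((sum_congr rfl fun τ _ => h1 τ).trans ?_)
  · exact sum_congr rfl fun y _ => if_congr Iff.rfl rfl rfl
  · rw [sum_ite_mem, univ_inter]

private theorem H02_EB (F : Bt d → Bt d → Prop)
    [DecidablePred fun p : Bt d × Bt d => od p.1 p.2 ∧ F p.1 p.2] [∀ a b, Decidable (F a b)] :
    ((univ.filter fun p : Bt d × Bt d => od p.1 p.2 ∧ F p.1 p.2).card : ℝ) =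
      4 ^ d / 2 * EB (fun a b => if F a b then 1 else 0) := by
  classical
  unfold EB
  rw [natCast_card_filter, Fintype.sum_prod_type]
  have h1 : ∑ a : Bt d, ∑ b : Bt d, (if od (a, b).1 (a, b).2 ∧ F (a, b).1 (a, b).2 then (1 : ℝ)
      else 0) = ∑ a : Bt d, ∑ b : Bt d, if od a b then (if F a b then 1 else 0) else 0 := by
    refine sum_congr rfl fun a _ => sum_congr rfl fun b _ => ?_
    by_cases h : od a b
    · by_cases h' : F a b
      · rw [if_pos ⟨h, h'⟩, if_pos h, if_pos h']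
      · rw [if_neg fun h'' => h' h''.2, if_pos h, if_neg h']
    · rw [if_neg fun h'' => h h''.1, if_neg h]
  rw [h1]
  have h4 : (4 : ℝ) ^ d ≠ 0 := by positivity
  field_simp

open scoped Classical in
private theorem H02_Om (hd : 1 ≤ d) :
    ((univ.filter fun p : Bt d × Bt d => od p.1 p.2).card : ℝ) = 4 ^ d / 2 := by
  have h := H02_EB (d := d) fun _ _ => True
  simp only [and_true, if_true] at h
  rw [h, card_od hd, mul_one]

/-- the colours seen inside the block are exactly those of `A` -/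
private def H02_Ex (A : Finset (Fin q)) (f : Site d (k + 1) → Fin q) (τ : Blk d k) (a b : Bt d) :
    Prop := ∀ c, zb f τ a b c = 0 ↔ c ∈ A

open scoped Classical in
private theorem H02_zb {f : Site d (k + 1) → Fin q} {τ : Blk d k} {a b : Bt d} {c : Fin q} :
    zb f τ a b c = 0 ↔ ∃ σ : Stp d, alw a b σ ∧ f (pt τ a b + sv σ) = c := by
  unfold zb
  constructor
  · intro h
    by_contra h1
    push Not at h1
    rw [if_pos h1] at h
    exact one_ne_zero h
  · rintro ⟨σ, h1, h2⟩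
    rw [if_neg]
    intro h
    exact h σ h1 h2

open scoped Classical in
private theorem H02_zb01 (f : Site d (k + 1) → Fin q) (τ : Blk d k) (a b : Bt d) (c : Fin q) :
    zb f τ a b c = 0 ∨ zb f τ a b c = 1 := by
  unfold zb
  split_ifs
  · exact Or.inr rfl
  · exact Or.inl rfl

open scoped Classical in
private theorem H02_good (hd : 1 ≤ d) (hq : 1 ≤ q) {A : Finset (Fin q)}
    {f : Site d (k + 1) → Fin q} {τ : Blk d k} (hG : GD τ f) (hA : AL f τ = A) :
    ((univ.filter fun p : Bt d × Bt d => od p.1 p.2 ∧ ¬ H02_Ex A f τ p.1 p.2).card : ℝ) ≤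
      4 ^ d / 2 * (1 / 100) := by
  rw [H02_EB fun a b => ¬ H02_Ex A f τ a b]
  refine mul_le_mul_of_nonneg_left ?_ (by positivity)
  have h1 : EB (fun a b => if ¬ H02_Ex A f τ a b then (1 : ℝ) else 0) ≤
      EB (fun a b => ∑ c : Fin q, if c ∈ A then zb f τ a b c else 1 + (-1) * zb f τ a b c) := by
    refine EB_mono fun a b _ => ?_
    have h0 : ∀ c ∈ (univ : Finset (Fin q)),
        0 ≤ if c ∈ A then zb f τ a b c else 1 + (-1) * zb f τ a b c := by
      intro c _
      rcases H02_zb01 f τ a b c with h | h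
      · rw [h]; split_ifs <;> norm_num
      · rw [h]; split_ifs <;> norm_num
    by_cases hE : H02_Ex A f τ a b
    · rw [if_neg (not_not.2 hE)]
      exact sum_nonneg h0
    · rw [if_pos hE]
      unfold H02_Ex at hE
      push Not at hE
      obtain ⟨c, hc⟩ := hE
      refine le_trans ?_ (single_le_sum h0 (mem_univ c))
      rcases hc with ⟨hc1, hc2⟩ | ⟨hc1, hc2⟩
      · rw [if_neg hc2, hc1]; norm_num
      · rw [if_pos hc2]
        rcases H02_zb01 f τ a b c with h | h
        · exact absurd h hc1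
        · rw [h]
  refine h1.trans ?_
  rw [EB_sum]
  have h2 : ∀ c ∈ (univ : Finset (Fin q)),
      EB (fun a b => if c ∈ A then zb f τ a b c else 1 + (-1) * zb f τ a b c) ≤ dl q := by
    intro c _
    by_cases hc : c ∈ A
    · simp only [hc, if_true]
      rw [← hA] at hc
      exact AL_mb hd hc
    · simp only [hc, if_false]
      rw [← hA] at hc
      have h3 := ((GD_iff hd hq hG.1 c).1).1 hc
      rw [EB_add, EB_mul, card_od hd]
      unfold lab1 mb at h3
      linarith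
  refine (sum_le_sum h2).trans ?_
  rw [sum_const, card_univ, Fintype.card_fin, nsmul_eq_mul]
  unfold dl
  have hq' : (0 : ℝ) < q := by exact_mod_cast hq
  have : (q : ℝ) * (1 / (100 * q)) = 1 / 100 := by field_simp
  rw [this]

open scoped Classical in
private theorem H02_cardT (hd : 1 ≤ d) (t : Blk d K) :
    ((T0 d k t).card : ℝ) = ((gr (wa t) (wb t) : Finset (Blk d k)).card : ℝ) * (4 ^ d / 2) := by
  have h := H02_fib (k := k) t fun _ _ _ => True
  simp only [and_true, filter_true] at h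
  rw [h]
  push_cast
  rw [sum_congr rfl fun τ _ => H02_Om hd, sum_const, nsmul_eq_mul]

open scoped Classical in
private theorem H02_bad1 (hd : 1 ≤ d) (hq : 1 ≤ q) {A : Finset (Fin q)} {t : Blk d K}
    {f : Site d (k + 1) → Fin q} (h : NG A t f) :
    (((T0 d k t).filter fun p => ¬ H02_Ex A f p.1 p.2.1 p.2.2).card : ℝ) ≤
      6 / 100 * ((T0 d k t).card : ℝ) := by
  rw [H02_fib t fun τ a b => ¬ H02_Ex A f τ a b, H02_cardT hd]
  push_cast
  have h1 : ∀ τ ∈ (gr (wa t) (wb t) : Finset (Blk d k)),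
      ((univ.filter fun p : Bt d × Bt d => od p.1 p.2 ∧ ¬ H02_Ex A f τ p.1 p.2).card : ℝ) ≤
      4 ^ d / 2 * (1 / 100) + (if ¬ (GD τ f ∧ AL f τ = A) then 1 else 0) * (4 ^ d / 2) := by
    intro τ _
    have hp : (0 : ℝ) < 4 ^ d / 2 := by positivity
    by_cases hG : GD τ f ∧ AL f τ = A
    · rw [if_neg (not_not.2 hG), zero_mul, add_zero]
      exact H02_good hd hq hG.1 hG.2
    · rw [if_pos hG, one_mul]
      have h2 : ((univ.filter fun p : Bt d × Bt d => od p.1 p.2 ∧
          ¬ H02_Ex A f τ p.1 p.2).card : ℝ) ≤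
          ((univ.filter fun p : Bt d × Bt d => od p.1 p.2).card : ℝ) := by
        refine Nat.cast_le.2 (card_le_card fun p hp => ?_)
        rw [mem_filter] at hp ⊢
        exact ⟨hp.1, hp.2.1⟩
      rw [H02_Om hd] at h2
      linarith
  refine (sum_le_sum h1).trans ?_
  rw [sum_add_distrib, sum_const, nsmul_eq_mul, ← sum_mul, ← natCast_card_filter]
  have h3 : ((gr (wa t) (wb t) : Finset (Blk d k)).filter fun τ => GD τ f ∧ AL f τ = A).card +
      ((gr (wa t) (wb t) : Finset (Blk d k)).filter fun τ => ¬ (GD τ f ∧ AL f τ = A)).card =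
      (gr (wa t) (wb t) : Finset (Blk d k)).card := card_filter_add_card_filter_not _
  have h4 : (((gr (wa t) (wb t) : Finset (Blk d k)).filter fun τ => GD τ f ∧ AL f τ = A).card : ℝ) +
      (((gr (wa t) (wb t) : Finset (Blk d k)).filter fun τ => ¬ (GD τ f ∧ AL f τ = A)).card : ℝ) =
      ((gr (wa t) (wb t) : Finset (Blk d k)).card : ℝ) := by exact_mod_cast h3
  have h5 : 19 / 20 * ((gr (wa t) (wb t) : Finset (Blk d k)).card : ℝ) ≤
    (((gr (wa t) (wb t) : Finset (Blk d k)).filter fun τ => GD τ f ∧ AL f τ = A).card : ℝ) := h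
  have h6 : (((gr (wa t) (wb t) : Finset (Blk d k)).filter
      fun τ => ¬ (GD τ f ∧ AL f τ = A)).card : ℝ) ≤
      1 / 20 * ((gr (wa t) (wb t) : Finset (Blk d k)).card : ℝ) := by linarith
  have hp : (0 : ℝ) < 4 ^ d / 2 := by positivity
  have h7 := mul_le_mul_of_nonneg_right h6 hp.le
  linarith

/-- the opposite representation -/
private def H02_Φ (p : Blk d k × Bt d × Bt d) : Blk d k × Bt d × Bt d :=
  (opB p.1 p.2.1 p.2.2, opb p.2.1 p.2.2, opb p.2.2 p.2.1)

private theorem H02_Φ_Φ (p : Blk d k × Bt d × Bt d) : H02_Φ (H02_Φ p) = p := by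
  obtain ⟨t, a, b⟩ := p
  obtain ⟨h1, h2, h3⟩ := op_op t a b
  show (opB (opB t a b) (opb a b) (opb b a), opb (opb a b) (opb b a), opb (opb b a) (opb a b)) =
    (t, a, b)
  rw [h1, h2, h3]

open scoped Classical in
private theorem H02_bad2 {A : Finset (Fin q)} {t : Blk d K} {f : Site d (k + 1) → Fin q} :
    ((T0 d k t).filter fun p => H02_Φ p ∈ T0 d k t ∧
      ¬ H02_Ex A f (H02_Φ p).1 (H02_Φ p).2.1 (H02_Φ p).2.2).card ≤
      ((T0 d k t).filter fun p => ¬ H02_Ex A f p.1 p.2.1 p.2.2).card := by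
  refine card_le_card_of_injOn H02_Φ (fun p hp => ?_) (fun p _ p' _ h => ?_)
  · have h1 := (mem_filter.1 (mem_coe.1 hp)).2
    exact mem_coe.2 (mem_filter.2 h1)
  · rw [← H02_Φ_Φ p, h, H02_Φ_Φ]

private theorem H02_card (N m n : ℕ) [NeZero N] (hmn : n ≤ N) :
    (univ.filter fun z : ZMod N => m ≤ z.val ∧ z.val < n).card = n - m := by
  rw [← Nat.card_Ico, ← Finset.card_image_of_injective _ (ZMod.val_injective N)]
  congr 1
  ext x
  simp only [mem_image, mem_filter, mem_univ, true_and, mem_Ico]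
  constructor
  · rintro ⟨z, hz, rfl⟩
    exact hz
  · intro hx
    exact ⟨(x : ZMod N), by rw [ZMod.val_natCast_of_lt (by omega)]; exact hx,
      ZMod.val_natCast_of_lt (by omega)⟩

open scoped Classical in
private theorem H02_face (hd : 10 ≤ d) (hn : nC d K + 4 ≤ 2 ^ (k + 1)) (t : Blk d K) (i : Fin d)
    (v : ℕ) :
    (wC d / 2 - 1) * ((gr (wa t) (wb t) : Finset (Blk d k)).filter fun τ => (τ i).val = v).card ≤
      (gr (wa t) (wb t) : Finset (Blk d k)).card := by
  set S : Fin d → Finset (ZMod (2 ^ k)) := fun j =>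
    univ.filter fun z : ZMod (2 ^ k) => wa t j / 2 ≤ z.val ∧ z.val < wb t j / 2 with hS
  have hG : (gr (wa t) (wb t) : Finset (Blk d k)) = Fintype.piFinset S := by
    ext τ
    rw [H02_gr, Fintype.mem_piFinset]
    refine forall_congr' fun j => ?_
    rw [hS]
    simp only [mem_filter, mem_univ, true_and]
    obtain ⟨h1, h2, h3, h4, h5⟩ := H02_ev hd hn t j
    have h6 := H02_w hd
    constructor
    · intro h
      omega
    · intro h
      omega
  have hc : (S i).card = wC d / 2 - 1 := by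
    obtain ⟨h1, h2, h3, h4, h5⟩ := H02_ev hd hn t i
    have h6 := H02_w hd
    have h7 : 2 ^ (k + 1) = 2 * 2 ^ k := by ring
    rw [hS]
    simp only
    rw [H02_card (2 ^ k) _ _ (by omega)]
    omega
  have hF : ((gr (wa t) (wb t) : Finset (Blk d k)).filter fun τ => (τ i).val = v).card ≤
      ∏ j ∈ univ.erase i, (S j).card := by
    have h1 : ((gr (wa t) (wb t) : Finset (Blk d k)).filter fun τ => (τ i).val = v) ⊆
        Fintype.piFinset fun j => if j = i then {((v : ℕ) : ZMod (2 ^ k))} else S j := by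
      intro τ hτ
      rw [mem_filter, hG, Fintype.mem_piFinset] at hτ
      rw [Fintype.mem_piFinset]
      intro j
      by_cases hj : j = i
      · rw [if_pos hj, hj, mem_singleton, ← hτ.2, ZMod.natCast_zmod_val]
      · rw [if_neg hj]
        exact hτ.1 j
    refine (card_le_card h1).trans ?_
    rw [Fintype.card_piFinset, ← Finset.mul_prod_erase univ _ (mem_univ i), if_pos rfl,
      card_singleton, one_mul]
    refine (prod_congr rfl fun j hj => ?_).le
    rw [if_neg (ne_of_mem_erase hj)]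
  calc (wC d / 2 - 1) * _ ≤ (S i).card * ∏ j ∈ univ.erase i, (S j).card := by
        rw [hc]
        exact Nat.mul_le_mul_left _ hF
    _ = _ := by
        rw [Finset.mul_prod_erase univ (fun j => (S j).card) (mem_univ i), hG,
          Fintype.card_piFinset]

open scoped Classical in
private theorem H02_edge (hd : 10 ≤ d) (hn : nC d K + 4 ≤ 2 ^ (k + 1)) (t : Blk d K) :
    100 * ((gr (wa t) (wb t) : Finset (Blk d k)).filter fun τ =>
      ∃ i, 2 * (τ i).val = wa t i ∨ 2 * (τ i).val + 2 = wb t i).card ≤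
      (gr (wa t) (wb t) : Finset (Blk d k)).card := by
  set G : Finset (Blk d k) := gr (wa t) (wb t) with hG
  have h1 : (G.filter fun τ => ∃ i, 2 * (τ i).val = wa t i ∨ 2 * (τ i).val + 2 = wb t i) ⊆
      univ.biUnion fun i => ((G.filter fun τ => (τ i).val = wa t i / 2) ∪
        (G.filter fun τ => (τ i).val = wb t i / 2 - 1)) := by
    intro τ hτ
    rw [mem_filter] at hτ
    obtain ⟨h2, i, h3⟩ := hτ
    rw [mem_biUnion]
    refine ⟨i, mem_univ _, ?_⟩
    rw [mem_union, mem_filter, mem_filter]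
    rcases h3 with h3 | h3
    · exact Or.inl ⟨h2, by omega⟩
    · exact Or.inr ⟨h2, by omega⟩
  have h2 : (G.filter fun τ => ∃ i, 2 * (τ i).val = wa t i ∨ 2 * (τ i).val + 2 = wb t i).card ≤
      ∑ i : Fin d, ((G.filter fun τ => (τ i).val = wa t i / 2).card +
        (G.filter fun τ => (τ i).val = wb t i / 2 - 1).card) :=
    (card_le_card h1).trans (card_biUnion_le.trans (sum_le_sum fun i _ => card_union_le _ _))
  have h3 := Nat.mul_le_mul_left (wC d / 2 - 1) h2
  rw [mul_sum] at h3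
  have h4 : ∑ i : Fin d, (wC d / 2 - 1) * ((G.filter fun τ => (τ i).val = wa t i / 2).card +
        (G.filter fun τ => (τ i).val = wb t i / 2 - 1).card) ≤ ∑ i : Fin d, 2 * G.card := by
    refine sum_le_sum fun i _ => ?_
    have h5 := H02_face (k := k) hd hn t i (wa t i / 2)
    have h6 := H02_face (k := k) hd hn t i (wb t i / 2 - 1)
    rw [← hG] at h5 h6
    rw [Nat.mul_add]
    omega
  rw [sum_const, card_univ, Fintype.card_fin, smul_eq_mul] at h4
  have h5 := h3.trans h4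
  have h6 := H02_w hd
  generalize (G.filter fun τ => ∃ i, 2 * (τ i).val = wa t i ∨ 2 * (τ i).val + 2 = wb t i).card = u
    at h5 ⊢
  have h7 : 200 * d ≤ wC d / 2 - 1 := by omega
  have h8 : 200 * d * u ≤ d * (2 * G.card) := (Nat.mul_le_mul_right u h7).trans h5
  have h9 : (2 * d) * (100 * u) ≤ (2 * d) * G.card := by
    calc (2 * d) * (100 * u) = 200 * d * u := by ring
      _ ≤ d * (2 * G.card) := h8
      _ = (2 * d) * G.card := by ring
  exact Nat.le_of_mul_le_mul_left h9 (by omega)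

private theorem H02_op (hd : 10 ≤ d) (hn : nC d K + 4 ≤ 2 ^ (k + 1)) {t : Blk d K}
    {p : Blk d k × Bt d × Bt d} (hp : p ∈ T0 d k t)
    (h : ∀ i, 2 * (p.1 i).val ≠ wa t i ∧ 2 * (p.1 i).val + 2 ≠ wb t i) : H02_Φ p ∈ T0 d k t := by
  rw [H02_T0] at hp ⊢
  refine ⟨?_, (op_od _ _).2 hp.2⟩
  have h1 := H02_gr.1 hp.1
  show opB p.1 p.2.1 p.2.2 ∈ gr (wa t) (wb t)
  rw [H02_gr]
  intro i
  obtain ⟨e1, e2, e3, e4, e5⟩ := H02_ev hd hn t i
  have e6 := H02_w hd
  have h2 := h1 i
  obtain ⟨h3, h4⟩ := h i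
  have h7 : 2 ^ (k + 1) = 2 * 2 ^ k := by ring
  show wa t i ≤ 2 * (opB p.1 p.2.1 p.2.2 i).val ∧ 2 * (opB p.1 p.2.1 p.2.2 i).val + 2 ≤ wb t i
  unfold opB
  by_cases hab : p.2.1 i = p.2.2 i
  · rw [if_pos hab]
    by_cases ha : p.2.1 i = true
    · rw [if_pos ha]
      have h5 : (p.1 i + 1).val = (p.1 i).val + 1 := by
        have h6 : p.1 i + 1 = (((p.1 i).val + 1 : ℕ) : ZMod (2 ^ k)) := by
          rw [Nat.cast_add, Nat.cast_one, ZMod.natCast_zmod_val]
        rw [h6, ZMod.val_natCast_of_lt (by omega)]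
      rw [h5]
      omega
    · rw [if_neg ha]
      have h5 : (p.1 i - 1).val = (p.1 i).val - 1 := by
        have h6 : p.1 i - 1 = (((p.1 i).val - 1 : ℕ) : ZMod (2 ^ k)) := by
          rw [Nat.cast_sub (by omega), Nat.cast_one, ZMod.natCast_zmod_val]
        rw [h6, ZMod.val_natCast_of_lt (by omega)]
      rw [h5]
      omega
  · rw [if_neg hab]
    exact h2

open scoped Classical in
private theorem H02_bad3 (hd : 10 ≤ d) (hn : nC d K + 4 ≤ 2 ^ (k + 1)) (t : Blk d K) :
    (((T0 d k t).filter fun p => H02_Φ p ∉ T0 d k t).card : ℝ) ≤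
      1 / 100 * ((T0 d k t).card : ℝ) := by
  have h1 : ((T0 d k t).filter fun p => H02_Φ p ∉ T0 d k t) ⊆ (T0 d k t).filter fun p =>
      ∃ i, 2 * (p.1 i).val = wa t i ∨ 2 * (p.1 i).val + 2 = wb t i := by
    intro p hp
    rw [mem_filter] at hp ⊢
    refine ⟨hp.1, ?_⟩
    by_contra h
    push Not at h
    exact hp.2 (H02_op hd hn hp.1 h)
  refine (Nat.cast_le.2 (card_le_card h1)).trans ?_
  rw [H02_fib t fun τ _ _ => ∃ i, 2 * (τ i).val = wa t i ∨ 2 * (τ i).val + 2 = wb t i,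
    H02_cardT (by omega)]
  push_cast
  have h2 : ∀ τ ∈ (gr (wa t) (wb t) : Finset (Blk d k)),
      ((univ.filter fun p : Bt d × Bt d => od p.1 p.2 ∧
        ∃ i, 2 * (τ i).val = wa t i ∨ 2 * (τ i).val + 2 = wb t i).card : ℝ) =
      (if (∃ i, 2 * (τ i).val = wa t i ∨ 2 * (τ i).val + 2 = wb t i) then 1 else 0) *
        (4 ^ d / 2) := by
    intro τ _
    by_cases h : ∃ i, 2 * (τ i).val = wa t i ∨ 2 * (τ i).val + 2 = wb t i
    · simp only [h, and_true, if_true, one_mul]
      exact H02_Om (by omega)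
    · simp only [h, and_false, if_false, zero_mul, filter_false, card_empty, Nat.cast_zero]
  rw [sum_congr rfl h2, ← sum_mul, ← natCast_card_filter]
  have h3 := H02_edge (k := k) hd hn t
  have h4 : 100 * (((gr (wa t) (wb t) : Finset (Blk d k)).filter fun τ =>
      ∃ i, 2 * (τ i).val = wa t i ∨ 2 * (τ i).val + 2 = wb t i).card : ℝ) ≤
      ((gr (wa t) (wb t) : Finset (Blk d k)).card : ℝ) := by exact_mod_cast h3
  have hp : (0 : ℝ) < 4 ^ d / 2 := by positivity
  have h5 := mul_le_mul_of_nonneg_right h4 hp.le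
  linarith

private theorem H02_nb (hd : 10 ≤ d) (hn : nC d K + 4 ≤ 2 ^ (k + 1)) {A : Finset (Fin q)}
    {t : Blk d K} {f : Site d (k + 1) → Fin q} {p : Blk d k × Bt d × Bt d} (hp : p ∈ T0 d k t)
    (h : H02_Ex A f p.1 p.2.1 p.2.2) (h' : H02_Ex A f (H02_Φ p).1 (H02_Φ p).2.1 (H02_Φ p).2.2) :
    NbV (GB d K k) f (pt p.1 p.2.1 p.2.2) = A := by
  classical
  rw [H02_T0] at hp
  ext c
  unfold NbV
  rw [mem_image]
  constructor
  · rintro ⟨σ, -, hc⟩
    rcases op_alw p.2.1 p.2.2 σ with ha | ha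
    · exact (h c).1 (H02_zb.2 ⟨σ, ha, hc⟩)
    · refine (h' c).1 (H02_zb.2 ⟨σ, ha, ?_⟩)
      show f (pt (opB p.1 p.2.1 p.2.2) (opb p.2.1 p.2.2) (opb p.2.2 p.2.1) + sv σ) = c
      rw [op_pt]
      exact hc
  · intro hc
    obtain ⟨σ, ha, hσ⟩ := H02_zb.1 ((h c).2 hc)
    refine ⟨σ, mem_filter.2 ⟨mem_univ _, ?_⟩, hσ⟩
    obtain ⟨a', b', h1⟩ := pt_step p.1 p.2.1 p.2.2 σ ha
    rw [h1]
    exact H02_GB hd hn t hp.1 a' b'

end H02

open scoped Classical in
theorem exact (hd : 10 ≤ d) (hq : 1 ≤ q) (hk : 1 ≤ k) (hn : nC d K + 4 ≤ 2 ^ (k + 1)) {A : Finset (Fin q)}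
    {t : Blk d K} {f : Site d (k + 1) → Fin q} (h : NG A t f) :
    4 / 5 * ((T0 d k t).card : ℝ) ≤
      (((T0 d k t).filter fun p => NbV (GB d K k) f (pt p.1 p.2.1 p.2.2) = A).card : ℝ) := by
  have h1 := H02_bad1 (by omega) hq h
  have h2 : (((T0 d k t).filter fun p => H02_Φ p ∈ T0 d k t ∧
      ¬ H02_Ex A f (H02_Φ p).1 (H02_Φ p).2.1 (H02_Φ p).2.2).card : ℝ) ≤
      (((T0 d k t).filter fun p => ¬ H02_Ex A f p.1 p.2.1 p.2.2).card : ℝ) :=
    Nat.cast_le.2 H02_bad2
  have h3 := H02_bad3 (k := k) hd hn t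
  have h4 : T0 d k t ⊆ (T0 d k t).filter (fun p => NbV (GB d K k) f (pt p.1 p.2.1 p.2.2) = A) ∪
      ((T0 d k t).filter (fun p => ¬ H02_Ex A f p.1 p.2.1 p.2.2) ∪
      ((T0 d k t).filter (fun p => H02_Φ p ∈ T0 d k t ∧
      ¬ H02_Ex A f (H02_Φ p).1 (H02_Φ p).2.1 (H02_Φ p).2.2) ∪
      (T0 d k t).filter (fun p => H02_Φ p ∉ T0 d k t))) := by
    intro p hp
    rw [mem_union, mem_union, mem_union, mem_filter, mem_filter, mem_filter, mem_filter]
    by_cases e1 : H02_Ex A f p.1 p.2.1 p.2.2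
    · by_cases e2 : H02_Φ p ∈ T0 d k t
      · by_cases e3 : H02_Ex A f (H02_Φ p).1 (H02_Φ p).2.1 (H02_Φ p).2.2
        · exact Or.inl ⟨hp, H02_nb hd hn hp e1 e3⟩
        · exact Or.inr (Or.inr (Or.inl ⟨hp, e2, e3⟩))
      · exact Or.inr (Or.inr (Or.inr ⟨hp, e2⟩))
    · exact Or.inr (Or.inl ⟨hp, e1⟩)
  have h5 := (card_le_card h4).trans ((card_union_le _ _).trans (Nat.add_le_add_left
    ((card_union_le _ _).trans (Nat.add_le_add_left (card_union_le _ _) _)) _))
  have h6 : ((T0 d k t).card : ℝ) ≤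
      (((T0 d k t).filter fun p => NbV (GB d K k) f (pt p.1 p.2.1 p.2.2) = A).card : ℝ) +
      ((((T0 d k t).filter fun p => ¬ H02_Ex A f p.1 p.2.1 p.2.2).card : ℝ) +
      ((((T0 d k t).filter fun p => H02_Φ p ∈ T0 d k t ∧
      ¬ H02_Ex A f (H02_Φ p).1 (H02_Φ p).2.1 (H02_Φ p).2.2).card : ℝ) +
      (((T0 d k t).filter fun p => H02_Φ p ∉ T0 d k t).card : ℝ))) := by exact_mod_cast h5
  have h7 : (0 : ℝ) ≤ ((T0 d k t).card : ℝ) := Nat.cast_nonneg _
  linarith

theorem T0_site (hd : 10 ≤ d) (hk : 1 ≤ k) (hn : nC d K + 4 ≤ 2 ^ (k + 1)) {t : Blk d K}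
    {p : Blk d k × Bt d × Bt d} (hp : p ∈ T0 d k t) :
    pt p.1 p.2.1 p.2.2 ∈ (bx (wa t) (wb t) : Finset (Site d (k + 1))) ∧ ¬ evn (pt p.1 p.2.1 p.2.2) := by
  rw [H02_T0] at hp
  refine ⟨H02_pt hd hn t hp.1 _ _, ?_⟩
  rw [evn_pt, not_not]
  exact hp.2

theorem T0_pos (hd : 10 ≤ d) (hk : 1 ≤ k) (hn : nC d K + 4 ≤ 2 ^ (k + 1)) (t : Blk d K) :
    0 < (T0 d k t).card := by
  have h1 : 0 < (gr (wa t) (wb t) : Finset (Blk d k)).card := by
    rw [card_gr]
    · refine Finset.prod_pos fun i _ => ?_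
      obtain ⟨e1, e2, e3, e4, e5⟩ := H02_ev hd hn t i
      have e6 := H02_w hd
      omega
    · intro i
      obtain ⟨e1, e2, e3, e4, e5⟩ := H02_ev hd hn t i
      have e6 := H02_w hd
      rw [even_iff_two_dvd, even_iff_two_dvd]
      exact ⟨e1, by omega, by omega, e5⟩
  have h2 : (0 : ℝ) < ((T0 d k t).card : ℝ) := by
    rw [H02_cardT (by omega)]
    have h3 : (0 : ℝ) < ((gr (wa t) (wb t) : Finset (Blk d k)).card : ℝ) := by exact_mod_cast h1
    positivity
  exact_mod_cast h2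

end Pool.Agent.COR
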