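import Pool.Agent.Lib_MP_2c424f_cor.H02
import Pool.Agent.Lib_MP_2c424f_cor.V01

/-!
# Resampling two sites (piece H03, (H2))

`x`, `y ∈ V` of the same parity, `x ≠ y`: `y` is not a neighbour of `x` (`evn_step`).  Let `f` be `V`-proper, `NbV f x = NbV f y` with `q/2`
elements; `g = update f y (f x)`.  `f x ∉ NbV f x = NbV f y`, so `g` is `V`-proper (for `x + sv σ ∈ V`: `f x ≠ f (x + sv σ)`), and
`NbV g x = NbV f x`, `NbV g y = NbV f y` (their neighbours are different from `y`), `g x = g y`.  `f` is determined by `g` and the colour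
`f y ∉ NbV g y` (`q/2` possibilities): `#{f} ≤ (q/2) #{g x = g y}`.
-/

set_option autoImplicit false

open Finset

namespace Pool.Agent.COR

open Pool.Agent.LO

variable {d k q : ℕ}

theorem resamp (hk : 1 ≤ k) (hq : Even q) (V : Finset (Site d k)) {x y : Site d k} (hxy : x ≠ y)
    (hx : x ∈ V) (hy : y ∈ V) (hp : evn x ↔ evn y) :
    2 * cV V (fun f : Site d k → Fin q => (NbV V f x).card = q / 2 ∧ NbV V f x = NbV V f y) ≤
      q * cV V (fun f : Site d k → Fin q => f x = f y) := by
  classical
  have : NeZero (2 ^ k) := ⟨by positivity⟩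
  have hmem : ∀ (f : Site d k → Fin q) (z : Site d k) (σ : Stp d), z + sv σ ∈ V →
      f (z + sv σ) ∈ NbV V f z := by
    intro f z σ h
    unfold NbV
    rw [mem_image]
    exact ⟨σ, mem_filter.2 ⟨mem_univ _, h⟩, rfl⟩
  have hnot : ∀ (f : Site d k → Fin q) (z : Site d k), PrV V f → z ∈ V → f z ∉ NbV V f z := by
    intro f z hf hz h
    unfold NbV at h
    rw [mem_image] at h
    obtain ⟨σ, hσ, h1⟩ := h
    exact hf z hz σ (mem_filter.1 hσ).2 h1
  have hNb : ∀ (f g : Site d k → Fin q), (∀ z, z ≠ y → g z = f z) → NbV V g y = NbV V f y := by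
    intro f g h
    unfold NbV
    refine image_congr fun σ _ => ?_
    exact h _ (step_ne hk y σ)
  set S : Finset (Site d k → Fin q) := univ.filter fun f =>
    PrV V f ∧ ((NbV V f x).card = q / 2 ∧ NbV V f x = NbV V f y) with hS
  set G : Finset (Site d k → Fin q) := univ.filter fun f => PrV V f ∧ f x = f y with hG
  have hmaps : ∀ f ∈ S, Function.update f y (f x) ∈ G := by
    intro f hf
    rw [hS, mem_filter] at hf
    obtain ⟨-, hpr, -, hN⟩ := hf
    rw [hG, mem_filter]
    refine ⟨mem_univ _, ?_, ?_⟩
    · intro z hz σ hzσ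
      by_cases h1 : z = y
      · subst h1
        rw [Function.update_of_ne (step_ne hk z σ), Function.update_self]
        intro h2
        have h3 := hmem f z σ hzσ
        rw [← hN, h2] at h3
        exact hnot f x hpr hx h3
      · by_cases h2 : z + sv σ = y
        · rw [h2, Function.update_self, Function.update_of_ne h1]
          intro h3
          have h4 : y + sv (σ.1, !σ.2) = z := by rw [← h2]; exact step_back z σ
          have h5 := hmem f y (σ.1, !σ.2) (by rw [h4]; exact hz)
          rw [← hN, h4, ← h3] at h5
          exact hnot f x hpr hx h5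
        · rw [Function.update_of_ne h1, Function.update_of_ne h2]
          exact hpr z hz σ hzσ
    · rw [Function.update_self, Function.update_of_ne hxy]
  have hfib : ∀ g ∈ G, (S.filter fun f => Function.update f y (f x) = g).card ≤ q / 2 := by
    intro g _
    rcases (S.filter fun f => Function.update f y (f x) = g).eq_empty_or_nonempty with h | h
    · rw [h, card_empty]
      exact Nat.zero_le _
    · obtain ⟨f0, hf0⟩ := h
      have hfg : ∀ f ∈ S.filter fun f => Function.update f y (f x) = g,
          ∀ z, z ≠ y → g z = f z := by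
        intro f hf z hz
        rw [mem_filter] at hf
        rw [← hf.2, Function.update_of_ne hz]
      have hcard : (NbV V g y).card = q / 2 := by
        rw [hNb f0 g (hfg f0 hf0)]
        have h1 := (mem_filter.1 hf0).1
        rw [hS, mem_filter] at h1
        rw [← h1.2.2.2]
        exact h1.2.2.1
      have h1 : (S.filter fun f => Function.update f y (f x) = g).card ≤ ((NbV V g y)ᶜ).card := by
        refine card_le_card_of_injOn (fun f => f y) ?_ ?_
        · intro f hf
          have hf' : f ∈ S.filter fun f => Function.update f y (f x) = g := hf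
          show f y ∈ ((NbV V g y)ᶜ : Finset (Fin q))
          rw [mem_compl, hNb f g (hfg f hf')]
          have h1 := (mem_filter.1 hf').1
          rw [hS, mem_filter] at h1
          exact hnot f y h1.2.1 hy
        · intro f hf f' hf' h
          funext z
          by_cases hz : z = y
          · rw [hz]
            exact h
          · rw [← hfg f hf z hz, ← hfg f' hf' z hz]
      refine h1.trans ?_
      rw [card_compl, Fintype.card_fin, hcard]
      obtain ⟨r, hr⟩ := hq
      omega
  have hmain := card_le_mul_card_image_of_maps_to hmaps (q / 2) hfib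
  have h2 : 2 * S.card ≤ q * G.card := by
    have h3 : 2 * (q / 2) ≤ q := Nat.mul_div_le q 2
    calc 2 * S.card ≤ 2 * (q / 2 * G.card) := Nat.mul_le_mul_left 2 hmain
      _ = 2 * (q / 2) * G.card := by ring
      _ ≤ q * G.card := Nat.mul_le_mul_right _ h3
  have h3 : ((2 * S.card : ℕ) : ℝ) ≤ ((q * G.card : ℕ) : ℝ) := by exact_mod_cast h2
  push_cast at h3
  have e1 : cV V (fun f : Site d k → Fin q => (NbV V f x).card = q / 2 ∧ NbV V f x = NbV V f y) =
      (S.card : ℝ) := by
    unfold cV
    rw [hS]
    congr!
  have e2 : cV V (fun f : Site d k → Fin q => f x = f y) = (G.card : ℝ) := by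
    unfold cV
    rw [hG]
    congr!
  rw [e1, e2]
  exact h3

end Pool.Agent.COR
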