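import Pool.Agent.Lib_MP_2c424f_cor.K01

/-!
# The two-point function and the Kempe clusters (piece K04, (A4) first part)

For `a ≠ b` and `x`, `y` of the same parity:  `#{f x = a, f y = a} - #{f x = a, f y = b} = #{f x = a, kcl f a b x y}`
(if `y` is in the cluster of `x` its colour is `a` (`kcl_col`); otherwise flip the `ab`-cluster of `y`, a bijection
between the colourings with `f x = a, f y = a`, not connected, and those with `f x = a, f y = b`, not connected).
For opposite parity: `#{f x = a, f y = b} - #{f x = a, f y = a} = #{f x = a, kcl f a b x y}`.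
Sum over the ordered pairs `a ≠ b`: `∑_{a≠b} #{f x = a = f y} = (q-1) #{f x = f y}`,
`∑_{a≠b} #{f x = a, f y = b} = #{f x ≠ f y}`.  `WK_symm`: from the two formulas, or directly.
-/

set_option autoImplicit false

open Finset

namespace Pool.Agent.COR

variable {W : Type} [Fintype W] [DecidableEq W] {q : ℕ}

private theorem K04_congr {G : SimpleGraph W} {P Q : (W → Fin q) → Prop}
    (h : ∀ f : W → Fin q, PrG G f → (P f ↔ Q f)) : cG G P = cG G Q := by
  classical
  unfold cG
  congr 2
  ext f
  simp only [mem_filter, mem_univ, true_and]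
  constructor
  · exact fun hf => ⟨hf.1, (h f hf.1).1 hf.2⟩
  · exact fun hf => ⟨hf.1, (h f hf.1).2 hf.2⟩

private theorem K04_ind (G : SimpleGraph W) (P : (W → Fin q) → Prop) [DecidablePred fun f => PrG G f ∧ P f] :
    cG G P = ∑ f : W → Fin q, if PrG G f ∧ P f then (1 : ℝ) else 0 := by
  classical
  unfold cG
  rw [Finset.natCast_card_filter]
  refine sum_congr rfl fun f _ => ?_
  by_cases h : PrG G f ∧ P f
  · rw [if_pos h, if_pos h]
  · rw [if_neg h, if_neg h]

private theorem K04_split (G : SimpleGraph W) (P R : (W → Fin q) → Prop) :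
    cG G P = cG G (fun f => P f ∧ R f) + cG G (fun f => P f ∧ ¬ R f) := by
  classical
  rw [K04_ind G P, K04_ind G (fun f => P f ∧ R f), K04_ind G (fun f => P f ∧ ¬ R f), ← sum_add_distrib]
  refine sum_congr rfl fun f _ => ?_
  by_cases h1 : PrG G f <;> by_cases h2 : P f <;> by_cases h3 : R f <;> simp [h1, h2, h3]

/-- splitting according to the value at one site -/
private theorem K04_fib (G : SimpleGraph W) (P : (W → Fin q) → Prop) (z : W) :
    cG G P = ∑ a : Fin q, cG G (fun f => P f ∧ f z = a) := by
  classical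
  rw [K04_ind G P]
  have h : ∀ a : Fin q, cG G (fun f => P f ∧ f z = a) =
      ∑ f : W → Fin q, if PrG G f ∧ (P f ∧ f z = a) then (1 : ℝ) else 0 :=
    fun a => K04_ind G (fun f => P f ∧ f z = a)
  rw [sum_congr rfl fun a _ => h a, sum_comm]
  refine sum_congr rfl fun f _ => ?_
  by_cases h1 : PrG G f ∧ P f
  · rw [if_pos h1]
    rw [sum_eq_single (f z)]
    · rw [if_pos ⟨h1.1, h1.2, rfl⟩]
    · intro b _ hb
      rw [if_neg]
      exact fun h2 => hb h2.2.2.symm
    · intro h2
      exact absurd (mem_univ _) h2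
  · rw [if_neg h1]
    symm
    apply sum_eq_zero
    intro b _
    rw [if_neg]
    exact fun h2 => h1 ⟨h2.1, h2.2.1⟩

private theorem K04_nonneg (G : SimpleGraph W) (P : (W → Fin q) → Prop) : 0 ≤ cG G P := by
  unfold cG
  positivity

open scoped Classical in
/-- flip the cluster of `y` -/
private noncomputable def K04_F (G : SimpleGraph W) (a b : Fin q) (y : W) (f : W → Fin q) : W → Fin q :=
  kfl a b (univ.filter fun z => kcl G f a b y z) f

private theorem K04_F_kcl (G : SimpleGraph W) (a b : Fin q) (y : W) (f : W → Fin q) (u v : W) :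
    kcl G (K04_F G a b y f) a b u v ↔ kcl G f a b u v := kcl_kfl G a b _ f u v

private theorem K04_F_F (G : SimpleGraph W) (a b : Fin q) (y : W) (f : W → Fin q) :
    K04_F G a b y (K04_F G a b y f) = f := by
  classical
  have h : (univ.filter fun z => kcl G (K04_F G a b y f) a b y z) = (univ.filter fun z => kcl G f a b y z) := by
    ext z
    simp only [mem_filter, mem_univ, true_and]
    exact K04_F_kcl G a b y f y z
  have h1 : K04_F G a b y (K04_F G a b y f) =
      kfl a b (univ.filter fun z => kcl G (K04_F G a b y f) a b y z) (K04_F G a b y f) := by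
    unfold K04_F
    congr
  rw [h1, h]
  have h2 : K04_F G a b y f = kfl a b (univ.filter fun z => kcl G f a b y z) f := by
    unfold K04_F
    congr
  rw [h2, kfl_kfl]

private theorem K04_F_PrG {G : SimpleGraph W} (a b : Fin q) (y : W) {f : W → Fin q} (hf : PrG G f) :
    PrG G (K04_F G a b y f) := by
  classical
  unfold K04_F
  exact PrG_kfl hf a b (kun_of (fun z => kcl G f a b y z) fun u v huv hu => kcl_trans hu huv)

private theorem K04_F_self (G : SimpleGraph W) (a b : Fin q) (y : W) (f : W → Fin q) :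
    K04_F G a b y f y = Equiv.swap a b (f y) := by
  classical
  unfold K04_F kfl
  rw [if_pos]
  simp only [mem_filter, mem_univ, true_and]
  exact Relation.ReflTransGen.refl

private theorem K04_F_out {G : SimpleGraph W} {a b : Fin q} {x y : W} {f : W → Fin q} (h : ¬ kcl G f a b x y) :
    K04_F G a b y f x = f x := by
  classical
  unfold K04_F kfl
  rw [if_neg]
  simp only [mem_filter, mem_univ, true_and]
  exact fun h1 => h (kcl_symm h1)

private theorem K04_inj {G : SimpleGraph W} {P Q : (W → Fin q) → Prop} (F : (W → Fin q) → (W → Fin q))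
    (hF : ∀ f : W → Fin q, PrG G f → P f → PrG G (F f) ∧ Q (F f)) (hi : Function.Injective F) :
    cG G P ≤ cG G Q := by
  classical
  unfold cG
  rw [Nat.cast_le]
  refine card_le_card_of_injOn F ?_ (fun f _ g _ hfg => hi hfg)
  intro f hf
  have hf1 := (mem_filter.1 (mem_coe.1 hf)).2
  exact mem_coe.2 (mem_filter.2 ⟨mem_univ _, hF f hf1.1 hf1.2⟩)

/-- flipping the cluster of `y` when it is not the cluster of `x` -/
private theorem K04_le (G : SimpleGraph W) (a b c : Fin q) (x y : W) :
    cG G (fun f : W → Fin q => (f x = a ∧ f y = c) ∧ ¬ kcl G f a b x y) ≤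
      cG G (fun f : W → Fin q => (f x = a ∧ f y = Equiv.swap a b c) ∧ ¬ kcl G f a b x y) := by
  refine K04_inj (K04_F G a b y) ?_ ?_
  · rintro f hf1 ⟨⟨hf2, hf3⟩, hf4⟩
    refine ⟨K04_F_PrG a b y hf1, ⟨?_, ?_⟩, ?_⟩
    · rw [K04_F_out hf4, hf2]
    · rw [K04_F_self, hf3]
    · rw [K04_F_kcl]
      exact hf4
  · intro f g hfg
    rw [← K04_F_F G a b y f, hfg, K04_F_F]

private theorem K04_eq (G : SimpleGraph W) (a b : Fin q) (x y : W) :
    cG G (fun f : W → Fin q => (f x = a ∧ f y = a) ∧ ¬ kcl G f a b x y) =
      cG G (fun f : W → Fin q => (f x = a ∧ f y = b) ∧ ¬ kcl G f a b x y) := by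
  apply le_antisymm
  · have h := K04_le G a b a x y
    rwa [Equiv.swap_apply_left] at h
  · have h := K04_le G a b b x y
    rwa [Equiv.swap_apply_right] at h

private theorem K04_pair_same {G : SimpleGraph W} {ev : W → Prop} (hG : Par G ev) {x y : W} (hxy : ev x ↔ ev y)
    {a b : Fin q} (hab : b ≠ a) :
    cG G (fun f : W → Fin q => f x = a ∧ kcl G f a b x y) =
      cG G (fun f : W → Fin q => f x = a ∧ f y = a) - cG G (fun f : W → Fin q => f x = a ∧ f y = b) := by
  have h1 := K04_split G (fun f : W → Fin q => f x = a ∧ f y = a) (fun f => kcl G f a b x y)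
  have h2 := K04_split G (fun f : W → Fin q => f x = a ∧ f y = b) (fun f => kcl G f a b x y)
  have h3 : cG G (fun f : W → Fin q => (f x = a ∧ f y = a) ∧ kcl G f a b x y) =
      cG G (fun f : W → Fin q => f x = a ∧ kcl G f a b x y) := by
    apply K04_congr
    intro f hf
    constructor
    · exact fun h => ⟨h.1.1, h.2⟩
    · intro h
      have h4 := (kcl_col hG hf (Or.inl h.1) h.2).1 hxy
      exact ⟨⟨h.1, h4 ▸ h.1⟩, h.2⟩
  have h5 : cG G (fun f : W → Fin q => (f x = a ∧ f y = b) ∧ kcl G f a b x y) = 0 := by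
    have h6 : cG G (fun f : W → Fin q => (f x = a ∧ f y = b) ∧ kcl G f a b x y) =
        cG G (fun _ : W → Fin q => False) := by
      apply K04_congr
      intro f hf
      constructor
      · intro h
        have h4 := (kcl_col hG hf (Or.inl h.1.1) h.2).1 hxy
        exact hab (h.1.2.symm.trans (h4.symm.trans h.1.1))
      · exact fun h => h.elim
    rw [h6]
    classical
    unfold cG
    simp
  have h7 := K04_eq G a b x y
  rw [h3] at h1
  rw [h5] at h2
  linarith

private theorem K04_pair_diff {G : SimpleGraph W} {ev : W → Prop} (hG : Par G ev) {x y : W}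
    (hxy : ¬ (ev x ↔ ev y)) {a b : Fin q} :
    cG G (fun f : W → Fin q => f x = a ∧ kcl G f a b x y) =
      cG G (fun f : W → Fin q => f x = a ∧ f y = b) - cG G (fun f : W → Fin q => f x = a ∧ f y = a) := by
  have h1 := K04_split G (fun f : W → Fin q => f x = a ∧ f y = a) (fun f => kcl G f a b x y)
  have h2 := K04_split G (fun f : W → Fin q => f x = a ∧ f y = b) (fun f => kcl G f a b x y)
  have h3 : cG G (fun f : W → Fin q => (f x = a ∧ f y = b) ∧ kcl G f a b x y) =
      cG G (fun f : W → Fin q => f x = a ∧ kcl G f a b x y) := by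
    apply K04_congr
    intro f hf
    constructor
    · exact fun h => ⟨h.1.1, h.2⟩
    · intro h
      have h4 : ¬ (f x = f y) := fun h5 => hxy ((kcl_col hG hf (Or.inl h.1) h.2).2 h5)
      have h6 := kcl_mem h.2 (Or.inl h.1)
      refine ⟨⟨h.1, ?_⟩, h.2⟩
      rcases h6 with h6 | h6
      · exact absurd (h.1.trans h6.symm) h4
      · exact h6
  have h5 : cG G (fun f : W → Fin q => (f x = a ∧ f y = a) ∧ kcl G f a b x y) = 0 := by
    have h6 : cG G (fun f : W → Fin q => (f x = a ∧ f y = a) ∧ kcl G f a b x y) =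
        cG G (fun _ : W → Fin q => False) := by
      apply K04_congr
      intro f hf
      constructor
      · intro h
        exact hxy ((kcl_col hG hf (Or.inl h.1.1) h.2).2 (h.1.1.trans h.1.2.symm))
      · exact fun h => h.elim
    rw [h6]
    classical
    unfold cG
    simp
  have h7 := K04_eq G a b x y
  rw [h3] at h2
  rw [h5] at h1
  linarith

/-- sum of `#{f x = a = f y}` -/
private theorem K04_sum_same (G : SimpleGraph W) (x y : W) :
    ∑ a : Fin q, ∑ _b ∈ univ.erase a, cG G (fun f : W → Fin q => f x = a ∧ f y = a) =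
      ((q : ℝ) - 1) * cG G (fun f : W → Fin q => f x = f y) := by
  have h1 : ∀ a : Fin q, ∑ _b ∈ univ.erase a, cG G (fun f : W → Fin q => f x = a ∧ f y = a) =
      ((q : ℝ) - 1) * cG G (fun f : W → Fin q => f x = f y ∧ f x = a) := by
    intro a
    have hq : 1 ≤ q := by
      have := a.pos
      omega
    rw [sum_const, card_erase_of_mem (mem_univ a), card_univ, Fintype.card_fin, nsmul_eq_mul,
      Nat.cast_sub hq, Nat.cast_one]
    congr 1
    apply K04_congr
    intro f _
    constructor
    · exact fun h => ⟨h.1.trans h.2.symm, h.1⟩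
    · exact fun h => ⟨h.2, h.1 ▸ h.2⟩
  rw [sum_congr rfl fun a _ => h1 a, ← mul_sum, ← K04_fib G (fun f : W → Fin q => f x = f y) x]

/-- sum of `#{f x = a, f y = b}` -/
private theorem K04_sum_diff (G : SimpleGraph W) (x y : W) :
    ∑ a : Fin q, ∑ b ∈ univ.erase a, cG G (fun f : W → Fin q => f x = a ∧ f y = b) =
      cG G (fun _ : W → Fin q => True) - cG G (fun f : W → Fin q => f x = f y) := by
  have h1 : ∀ a : Fin q, ∑ b ∈ univ.erase a, cG G (fun f : W → Fin q => f x = a ∧ f y = b) =
      cG G (fun f : W → Fin q => True ∧ f x = a) - cG G (fun f : W → Fin q => f x = f y ∧ f x = a) := by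
    intro a
    have h2 := sum_erase_add (univ : Finset (Fin q))
      (fun b => cG G (fun f : W → Fin q => f x = a ∧ f y = b)) (mem_univ a)
    have h3 := K04_fib G (fun f : W → Fin q => f x = a) y
    have h4 : cG G (fun f : W → Fin q => f x = a) = cG G (fun f : W → Fin q => True ∧ f x = a) := by
      apply K04_congr
      intro f _
      simp
    have h5 : cG G (fun f : W → Fin q => f x = a ∧ f y = a) =
        cG G (fun f : W → Fin q => f x = f y ∧ f x = a) := by
      apply K04_congr
      intro f _
      constructor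
      · exact fun h => ⟨h.1.trans h.2.symm, h.1⟩
      · exact fun h => ⟨h.2, h.1 ▸ h.2⟩
    have h6 : ∑ b ∈ univ.erase a, cG G (fun f : W → Fin q => f x = a ∧ f y = b) +
        cG G (fun f : W → Fin q => f x = a ∧ f y = a) =
        ∑ b : Fin q, cG G (fun f : W → Fin q => f x = a ∧ f y = b) := h2
    rw [← h3, h4, h5] at h6
    linarith
  rw [sum_congr rfl fun a _ => h1 a, sum_sub_distrib, ← K04_fib G (fun f : W → Fin q => f x = f y) x,
    ← K04_fib G (fun _ : W → Fin q => True) x]

theorem WK_same {G : SimpleGraph W} {ev : W → Prop} (hG : Par G ev) {x y : W} (hxy : ev x ↔ ev y) :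
    WK q G x y = q * cG G (fun f : W → Fin q => f x = f y) - cG G (fun _ : W → Fin q => True) := by
  unfold WK
  rw [sum_congr rfl fun a _ => sum_congr rfl fun b hb => K04_pair_same hG hxy (mem_erase.1 hb).1]
  rw [sum_congr rfl fun a _ => sum_sub_distrib _ _, sum_sub_distrib, K04_sum_same, K04_sum_diff]
  ring

theorem WK_diff {G : SimpleGraph W} {ev : W → Prop} (hG : Par G ev) {x y : W} (hxy : ¬ (ev x ↔ ev y)) :
    WK q G x y = cG G (fun _ : W → Fin q => True) - q * cG G (fun f : W → Fin q => f x = f y) := by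
  unfold WK
  rw [sum_congr rfl fun a _ => sum_congr rfl fun b hb => K04_pair_diff hG hxy]
  rw [sum_congr rfl fun a _ => sum_sub_distrib _ _, sum_sub_distrib, K04_sum_same, K04_sum_diff]
  ring

theorem WK_symm {G : SimpleGraph W} {ev : W → Prop} (hG : Par G ev) (x y : W) : WK q G x y = WK q G y x := by
  have h : cG G (fun f : W → Fin q => f x = f y) = cG G (fun f : W → Fin q => f y = f x) :=
    K04_congr fun f _ => eq_comm
  by_cases hxy : ev x ↔ ev y
  · rw [WK_same hG hxy, WK_same hG hxy.symm, h]
  · rw [WK_diff hG hxy, WK_diff hG (fun h1 => hxy h1.symm), h]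

theorem WK_nonneg (G : SimpleGraph W) (x y : W) : 0 ≤ WK q G x y := by
  unfold WK
  exact sum_nonneg fun a _ => sum_nonneg fun b _ => K04_nonneg G _

end Pool.Agent.COR
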