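import Pool.Agent.Lib_MP_2c424f_cor.H03
import Pool.Agent.Lib_MP_2c424f_cor.F08
import Pool.Agent.Lib_MP_2c424f_cor.K04

/-!
# Two correlated sites (piece H04, (H2))

Sum over `f` in the event of `two_blocks` and over the pairs of triples in `T0 t × T0 t'`: by `exact` at least `(4/5)² |T0 t| |T0 t'|`
pairs satisfy `NbV f x = A = NbV f y`.  So the mean over the pairs of `#{f : |NbV f x| = q/2, NbV f x = NbV f y}` is at least
`0.99 · 0.64 ZV ≥ (3/5) ZV`; choose a pair of triples with at least the mean (`T0_pos`).  `x ≠ y` because the boxes of `t ≠ t'` are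
disjoint; both are odd (`T0_site`).  `resamp`: `q #{f x = f y} ≥ (6/5) ZV`; `WK_same`: `WK = q #{f x = f y} - ZV ≥ ZV/5`
(`cV_eq`, `par_gV`).
-/

set_option autoImplicit false

open Finset

namespace Pool.Agent.COR

open Pool.Agent.LO

open scoped Classical in
/-- averaging -/
private theorem H04_avg {Ω ι : Type} [Fintype Ω] (I : Finset ι) (hI : 0 < I.card) (A X : Ω → Prop)
    (Q : ι → Ω → Prop) (c : ℝ)
    (hc : ∀ f, A f → X f → c * (I.card : ℝ) ≤ ((I.filter fun i => Q i f).card : ℝ)) :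
    ∃ i ∈ I, c * ((univ.filter fun f : Ω => A f ∧ X f).card : ℝ) ≤
      ((univ.filter fun f : Ω => A f ∧ Q i f).card : ℝ) := by
  by_contra hcon
  push Not at hcon
  have h1 : ∑ i ∈ I, ((univ.filter fun f : Ω => A f ∧ Q i f).card : ℝ) <
      ∑ _i ∈ I, c * ((univ.filter fun f : Ω => A f ∧ X f).card : ℝ) :=
    sum_lt_sum_of_nonempty (card_pos.1 hI) hcon
  have h2 : ∑ i ∈ I, ((univ.filter fun f : Ω => A f ∧ Q i f).card : ℝ) =
      ∑ f : Ω, ∑ i ∈ I, if A f ∧ Q i f then (1 : ℝ) else 0 := by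
    rw [sum_comm]
    refine sum_congr rfl fun i _ => ?_
    rw [Finset.natCast_card_filter]
  have h3 : ∑ _f ∈ univ.filter (fun f : Ω => A f ∧ X f), c * (I.card : ℝ) ≤
      ∑ f ∈ univ.filter (fun f : Ω => A f ∧ X f), ∑ i ∈ I, if A f ∧ Q i f then (1 : ℝ) else 0 := by
    refine sum_le_sum fun f hf => ?_
    have hf' := (mem_filter.1 hf).2
    refine (hc f hf'.1 hf'.2).trans (le_of_eq ?_)
    rw [Finset.natCast_card_filter]
    refine sum_congr rfl fun i _ => ?_
    by_cases h : Q i f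
    · rw [if_pos h, if_pos ⟨hf'.1, h⟩]
    · rw [if_neg h, if_neg fun h' => h h'.2]
  have h4 : ∑ f ∈ univ.filter (fun f : Ω => A f ∧ X f), (∑ i ∈ I, if A f ∧ Q i f then (1 : ℝ) else 0) ≤
      ∑ f : Ω, ∑ i ∈ I, if A f ∧ Q i f then (1 : ℝ) else 0 := by
    refine sum_le_sum_of_subset_of_nonneg (filter_subset _ _) fun f _ _ => ?_
    refine sum_nonneg fun i _ => ?_
    split_ifs <;> norm_num
  rw [sum_const, nsmul_eq_mul] at h1 h3
  rw [h2] at h1
  have h5 := h3.trans h4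
  have h6 : ((univ.filter fun f : Ω => A f ∧ X f).card : ℝ) * (c * (I.card : ℝ)) =
      (I.card : ℝ) * (c * ((univ.filter fun f : Ω => A f ∧ X f).card : ℝ)) := by ring
  linarith

private theorem H04_w (d : ℕ) (hd : 10 ≤ d) : 2 ≤ wC d := by
  unfold wC
  have : 1 ≤ d ^ 33 := Nat.one_le_pow _ _ (by omega)
  omega

/-- the boxes of the large blocks are in the free box -/
private theorem H04_sub {d k K : ℕ} (hd : 10 ≤ d) (t : Blk d K) {x : Site d (k + 1)}
    (hx : x ∈ (bx (wa t) (wb t) : Finset (Site d (k + 1)))) : x ∈ GB d K k := by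
  classical
  unfold GB bx
  unfold bx at hx
  rw [mem_filter] at hx ⊢
  refine ⟨mem_univ _, fun i => ⟨Nat.zero_le _, (hx.2 i).2.trans ?_⟩⟩
  unfold wb nC
  have h1 : (t i).val < 2 ^ K := ZMod.val_lt (t i)
  have h2 := H04_w d hd
  have h3 : wC d * ((t i).val + 1) ≤ wC d * 2 ^ K := Nat.mul_le_mul_left _ h1
  rw [Nat.mul_add, Nat.mul_one] at h3
  show wC d * (t i).val + (wC d - 2) ≤ wC d * 2 ^ K - 2
  omega

/-- the boxes are disjoint -/
private theorem H04_ne {d k K : ℕ} (hd : 10 ≤ d) {t t' : Blk d K} (htt : t ≠ t') {x y : Site d (k + 1)}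
    (hx : x ∈ (bx (wa t) (wb t) : Finset (Site d (k + 1))))
    (hy : y ∈ (bx (wa t') (wb t') : Finset (Site d (k + 1)))) : x ≠ y := by
  classical
  rintro rfl
  apply htt
  unfold bx at hx hy
  rw [mem_filter] at hx hy
  funext i
  have h1 := hx.2 i
  have h2 := hy.2 i
  unfold wa wb at h1 h2
  have h3 := H04_w d hd
  apply ZMod.val_injective
  by_contra hne
  rcases Nat.lt_or_gt_of_ne hne with h | h
  · have h4 : wC d * ((t i).val + 1) ≤ wC d * (t' i).val := Nat.mul_le_mul_left _ h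
    rw [Nat.mul_add, Nat.mul_one] at h4
    omega
  · have h4 : wC d * ((t' i).val + 1) ≤ wC d * (t i).val := Nat.mul_le_mul_left _ h
    rw [Nat.mul_add, Nat.mul_one] at h4
    omega

theorem corr_sites : ∃ d₀ : ℕ, ∀ d : ℕ, d₀ ≤ d → ∀ q : ℕ, AdmC d q → ∀ k K : ℕ, d ^ 46 ≤ 2 ^ k → 1 ≤ K →
    nC d K + 4 ≤ 2 ^ (k + 1) → ∀ t t' : Blk d K, t ≠ t' →
    ∃ x ∈ (bx (wa t) (wb t) : Finset (Site d (k + 1))), ∃ y ∈ (bx (wa t') (wb t') : Finset (Site d (k + 1))),
      ZV q (GB d K k) / 5 ≤ WK q (gV (GB d K k)) x y := by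
  classical
  obtain ⟨d₀, h0⟩ := two_blocks
  refine ⟨max d₀ 10, ?_⟩
  intro d hd q hq k K hk hK hn t t' htt
  have hd10 : 10 ≤ d := (le_max_right _ _).trans hd
  have h2 := h0 d ((le_max_left _ _).trans hd) q hq k K hk hK hn t t'
  have hq4 : 1 ≤ q := by have := hq.1; omega
  have hqe : Even q := hq.2.1
  have hk1 : 1 ≤ k := by
    by_contra h
    have hk0 : k = 0 := by omega
    rw [hk0, pow_zero] at hk
    have : 10 ≤ d ^ 46 := hd10.trans (Nat.le_self_pow (by norm_num) d)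
    omega
  have hp := T0_pos hd10 hk1 hn t
  have hp' := T0_pos hd10 hk1 hn t'
  obtain ⟨pp, hpp, h3⟩ := H04_avg (Ω := Site d (k + 1) → Fin q) (T0 d k t ×ˢ T0 d k t')
    (by rw [card_product]; exact Nat.mul_pos hp hp') (PrV (GB d K k))
    (fun f => ∃ A : Finset (Fin q), A.card = q / 2 ∧ NG A t f ∧ NG A t' f)
    (fun pp f => (NbV (GB d K k) f (pt pp.1.1 pp.1.2.1 pp.1.2.2)).card = q / 2 ∧
      NbV (GB d K k) f (pt pp.1.1 pp.1.2.1 pp.1.2.2) = NbV (GB d K k) f (pt pp.2.1 pp.2.2.1 pp.2.2.2))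
    (16 / 25) (by
      rintro f - ⟨A, hA, hN, hN'⟩
      have e1 := exact hd10 hq4 hk1 hn hN
      have e2 := exact hd10 hq4 hk1 hn hN'
      have e3 : ((T0 d k t).filter fun p => NbV (GB d K k) f (pt p.1 p.2.1 p.2.2) = A) ×ˢ
          ((T0 d k t').filter fun p => NbV (GB d K k) f (pt p.1 p.2.1 p.2.2) = A) ⊆
          (T0 d k t ×ˢ T0 d k t').filter fun pp =>
            (NbV (GB d K k) f (pt pp.1.1 pp.1.2.1 pp.1.2.2)).card = q / 2 ∧
            NbV (GB d K k) f (pt pp.1.1 pp.1.2.1 pp.1.2.2) =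
              NbV (GB d K k) f (pt pp.2.1 pp.2.2.1 pp.2.2.2) := by
        intro pp h
        rw [mem_product, mem_filter, mem_filter] at h
        rw [mem_filter, mem_product]
        exact ⟨⟨h.1.1, h.2.1⟩, by rw [h.1.2]; exact hA, by rw [h.1.2, h.2.2]⟩
      have e4 := card_le_card e3
      rw [card_product] at e4
      have e5 : ((((T0 d k t).filter fun p => NbV (GB d K k) f (pt p.1 p.2.1 p.2.2) = A).card *
          ((T0 d k t').filter fun p => NbV (GB d K k) f (pt p.1 p.2.1 p.2.2) = A).card : ℕ) : ℝ) ≤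
          ((((T0 d k t ×ˢ T0 d k t').filter fun pp =>
            (NbV (GB d K k) f (pt pp.1.1 pp.1.2.1 pp.1.2.2)).card = q / 2 ∧
            NbV (GB d K k) f (pt pp.1.1 pp.1.2.1 pp.1.2.2) =
              NbV (GB d K k) f (pt pp.2.1 pp.2.2.1 pp.2.2.2)).card : ℕ) : ℝ) := Nat.cast_le.2 e4
      refine le_trans ?_ (e5.trans (le_of_eq (by congr)))
      rw [card_product]
      push_cast
      have e6 := mul_le_mul e1 e2 (by positivity) (by positivity)
      refine le_trans (le_of_eq ?_) e6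
      ring)
  rw [mem_product] at hpp
  obtain ⟨hx, hxo⟩ := T0_site hd10 hk1 hn hpp.1
  obtain ⟨hy, hyo⟩ := T0_site hd10 hk1 hn hpp.2
  refine ⟨_, hx, _, hy, ?_⟩
  have hxy := H04_ne hd10 htt hx hy
  have hr := resamp (q := q) (k := k + 1) (by omega) hqe (GB d K k) hxy (H04_sub hd10 t hx)
    (H04_sub hd10 t' hy) (by tauto)
  rw [WK_same (par_gV (by omega) (GB d K k)) (by tauto), ← cV_eq (by omega), ← cV_eq (by omega)]
  have h4 : 16 / 25 * cV (GB d K k) (fun f : Site d (k + 1) → Fin q =>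
      ∃ A : Finset (Fin q), A.card = q / 2 ∧ NG A t f ∧ NG A t' f) ≤
      cV (GB d K k) (fun f : Site d (k + 1) → Fin q =>
        (NbV (GB d K k) f (pt pp.1.1 pp.1.2.1 pp.1.2.2)).card = q / 2 ∧
        NbV (GB d K k) f (pt pp.1.1 pp.1.2.1 pp.1.2.2) =
          NbV (GB d K k) f (pt pp.2.1 pp.2.2.1 pp.2.2.2)) := by
    unfold cV
    exact h3
  have h5 : 0 ≤ ZV q (GB d K k) := by
    unfold ZV cV
    positivity
  change ZV q (GB d K k) / 5 ≤ q * cV (GB d K k) _ - ZV q (GB d K k)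
  linarith

end Pool.Agent.COR
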