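import Pool.Agent.Lib_MP_2c424f_cor.EDefs
import Pool.Agent.Lib_MP_2c424f_cor.V01

/-!
# Paths in boxes (piece H05, (H3))

Change the coordinates of `x` into those of `x'` one after the other by unit steps (no wrapping: `b i + 4 ≤ 2^(k+1)`); by induction on
`∑ |x i - x' i|`.
-/

set_option autoImplicit false

open Finset

namespace Pool.Agent.COR

open Pool.Agent.LO

variable {d k : ℕ}

private theorem H05_up {n : ℕ} [NeZero n] (y : ZMod n) (h : y.val + 1 < n) :
    (y + 1).val = y.val + 1 := by
  have h1 : y + 1 = ((y.val + 1 : ℕ) : ZMod n) := by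
    rw [Nat.cast_add, ZMod.natCast_zmod_val, Nat.cast_one]
  rw [h1, ZMod.val_cast_of_lt h]

private theorem H05_dn {n : ℕ} [NeZero n] (y : ZMod n) (h : 0 < y.val) :
    (y + -1).val = y.val - 1 := by
  have h2 : y.val - 1 < n := lt_of_le_of_lt (Nat.sub_le _ _) y.val_lt
  have h1 : y + -1 = ((y.val - 1 : ℕ) : ZMod n) := by
    have h3 : ((y.val - 1 : ℕ) : ZMod n) + 1 = y := by
      have h4 : ((y.val - 1 + 1 : ℕ) : ZMod n) = y := by
        rw [Nat.sub_add_cancel h, ZMod.natCast_zmod_val]
      rw [Nat.cast_add, Nat.cast_one] at h4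
      exact h4
    rw [← sub_eq_add_neg]
    exact (eq_sub_of_add_eq h3).symm
  rw [h1, ZMod.val_cast_of_lt h2]

/-- the distance of two sites, without wrapping -/
private def H05_D (x x' : Site d (k + 1)) : ℕ :=
  ∑ i, ((x i).val - (x' i).val + ((x' i).val - (x i).val))

private theorem H05_step (x : Site d (k + 1)) (σ : Stp d) (j : Fin d) (hj : j ≠ σ.1) :
    (x + sv σ : Site d (k + 1)) j = x j := by
  show x j + (Pi.single σ.1 (if σ.2 then 1 else -1) : Site d (k + 1)) j = x j
  rw [Pi.single_eq_of_ne hj, add_zero]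

private theorem H05_step_same (x : Site d (k + 1)) (σ : Stp d) :
    (x + sv σ : Site d (k + 1)) σ.1 = x σ.1 + (if σ.2 then 1 else -1) := by
  show x σ.1 + (Pi.single σ.1 (if σ.2 then 1 else -1) : Site d (k + 1)) σ.1 = _
  rw [Pi.single_eq_same]

private theorem H05_main (hk : 1 ≤ k) {a b : Fin d → ℕ} (hb : ∀ i, b i + 4 ≤ 2 ^ (k + 1))
    {x' : Site d (k + 1)} (hx' : x' ∈ bx a b) {V : Finset (Site d (k + 1))} (hV : bx a b ⊆ V) :
    ∀ (N : ℕ) (x : Site d (k + 1)), x ∈ bx a b → H05_D x x' = N →
      ∃ u : ℕ → Site d (k + 1), u 0 = x ∧ u N = x' ∧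
        (∀ l ≤ N, u l ∈ bx a b) ∧ ∀ l < N, (gV V).Adj (u l) (u (l + 1)) := by
  have hmem : ∀ y : Site d (k + 1), y ∈ bx a b ↔ ∀ i, a i ≤ (y i).val ∧ (y i).val ≤ b i := by
    intro y
    unfold bx
    rw [mem_filter]
    exact and_iff_right (mem_univ y)
  have hx'' := (hmem x').1 hx'
  intro N
  induction N with
  | zero =>
    intro x hx hD
    have h1 : x = x' := by
      funext i
      have h2 := (Finset.sum_eq_zero_iff.mp hD) i (mem_univ i)
      exact ZMod.val_injective _ (by omega)
    refine ⟨fun _ => x, rfl, h1, fun l _ => hx, fun l hl => absurd hl (Nat.not_lt_zero l)⟩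
  | succ N ih =>
    intro x hx hD
    have hxm := (hmem x).1 hx
    obtain ⟨i, hi⟩ : ∃ i, (x i).val ≠ (x' i).val := by
      by_contra hn
      push Not at hn
      have h3 : H05_D x x' = 0 := Finset.sum_eq_zero fun i _ => by
        rw [hn i, Nat.sub_self, Nat.add_zero]
      omega
    -- the step
    obtain ⟨σ, hσ, hval⟩ : ∃ σ : Stp d, σ.1 = i ∧
        (((x + sv σ : Site d (k + 1)) i).val - (x' i).val +
            ((x' i).val - ((x + sv σ : Site d (k + 1)) i).val) + 1 =
          (x i).val - (x' i).val + ((x' i).val - (x i).val) ∧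
          a i ≤ ((x + sv σ : Site d (k + 1)) i).val ∧
          ((x + sv σ : Site d (k + 1)) i).val ≤ b i) := by
      have hx1 := hxm i
      have hx2 := hx'' i
      have hb1 := hb i
      rcases Nat.lt_or_gt_of_ne hi with h | h
      · refine ⟨(i, true), rfl, ?_⟩
        have h1 : (x + sv (i, true) : Site d (k + 1)) i = x i + 1 := by
          have := H05_step_same x (i, true)
          simpa using this
        have h2 : (x i + 1).val = (x i).val + 1 := H05_up (x i) (by omega)
        rw [h1, h2]
        omega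
      · refine ⟨(i, false), rfl, ?_⟩
        have h1 : (x + sv (i, false) : Site d (k + 1)) i = x i + -1 := by
          have := H05_step_same x (i, false)
          simpa using this
        have h2 : (x i + -1).val = (x i).val - 1 := H05_dn (x i) (by omega)
        rw [h1, h2]
        omega
    have hoth : ∀ j, j ≠ i → (x + sv σ : Site d (k + 1)) j = x j := fun j hj =>
      H05_step x σ j (by rw [hσ]; exact hj)
    have hy : x + sv σ ∈ bx a b := by
      rw [hmem]
      intro j
      by_cases hj : j = i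
      · rw [hj]
        exact hval.2
      · rw [hoth j hj]
        exact hxm j
    have hDy : H05_D (x + sv σ) x' = N := by
      have h1 : H05_D (x + sv σ) x' + 1 = H05_D x x' := by
        unfold H05_D
        rw [← Finset.add_sum_erase _ _ (mem_univ i), ← Finset.add_sum_erase _ _ (mem_univ i)]
        have h2 : ∑ j ∈ univ.erase i, (((x + sv σ : Site d (k + 1)) j).val - (x' j).val +
            ((x' j).val - ((x + sv σ : Site d (k + 1)) j).val)) =
            ∑ j ∈ univ.erase i, ((x j).val - (x' j).val + ((x' j).val - (x j).val)) := by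
          refine Finset.sum_congr rfl fun j hj => ?_
          rw [hoth j (Finset.ne_of_mem_erase hj)]
        rw [h2, ← hval.1]
        ring
      omega
    obtain ⟨u, hu0, huN, hub, hua⟩ := ih (x + sv σ) hy hDy
    refine ⟨fun l => Nat.casesOn l x (fun l => u l), rfl, huN, ?_, ?_⟩
    · intro l hl
      cases l with
      | zero => exact hx
      | succ l => exact hub l (by omega)
    · intro l hl
      cases l with
      | zero =>
        show (gV V).Adj x (u 0)
        rw [hu0, gV_adj (by omega)]
        exact ⟨hV hx, hV hy⟩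
      | succ l => exact hua l (by omega)

theorem path_bx (hk : 1 ≤ k) {a b : Fin d → ℕ} (hb : ∀ i, b i + 4 ≤ 2 ^ (k + 1)) {x x' : Site d (k + 1)}
    (hx : x ∈ bx a b) (hx' : x' ∈ bx a b) {V : Finset (Site d (k + 1))} (hV : bx a b ⊆ V) :
    ∃ (m : ℕ) (u : ℕ → Site d (k + 1)), m ≤ ∑ i, (b i - a i) ∧ u 0 = x ∧ u m = x' ∧
      (∀ l ≤ m, u l ∈ bx a b) ∧ ∀ l < m, (gV V).Adj (u l) (u (l + 1)) := by
  obtain ⟨u, h1, h2, h3, h4⟩ := H05_main hk hb hx' hV (H05_D x x') x hx rfl
  refine ⟨H05_D x x', u, ?_, h1, h2, h3, h4⟩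
  refine Finset.sum_le_sum fun i _ => ?_
  have hmem : ∀ y : Site d (k + 1), y ∈ bx a b → ∀ i, a i ≤ (y i).val ∧ (y i).val ≤ b i := by
    intro y hy
    unfold bx at hy
    rw [mem_filter] at hy
    exact hy.2
  have h5 := hmem x hx i
  have h6 := hmem x' hx' i
  omega

end Pool.Agent.COR
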