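import Pool.Agent.Lib_MP_2c424f_cor.K05

/-!
# The Harnack inequality along a path (piece K06)

Induction on `m` with `harnack` (`v = u l`, `w = u (l+1)`).
-/

set_option autoImplicit false

open Finset

namespace Pool.Agent.COR

variable {W : Type} [Fintype W] [DecidableEq W] {q : ℕ}

open scoped Classical in
theorem harnack_path {G : SimpleGraph W} {ev : W → Prop} (hG : Par G ev) (y : W) (Δ m : ℕ) (u : ℕ → W)
    (hadj : ∀ l < m, G.Adj (u l) (u (l + 1))) (hy : ∀ l ≤ m, y ≠ u l)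
    (hΔ : ∀ v, (univ.filter fun x => G.Adj v x).card ≤ Δ) :
    WK q G (u m) y ≤ (1 + q * 2 ^ Δ) ^ m * WK q G (u 0) y := by
  induction m with
  | zero => simp
  | succ m ih =>
    have h1 := ih (fun l hl => hadj l (by omega)) (fun l hl => hy l (by omega))
    have h2 := harnack (q := q) hG (hadj m (by omega)) (hy m (by omega)) (hy (m + 1) le_rfl) Δ
      (hΔ (u m))
    have h3 : (0 : ℝ) ≤ 1 + q * 2 ^ Δ := by positivity
    calc WK q G (u (m + 1)) y ≤ (1 + q * 2 ^ Δ) * WK q G (u m) y := h2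
      _ ≤ (1 + q * 2 ^ Δ) * ((1 + q * 2 ^ Δ) ^ m * WK q G (u 0) y) :=
        mul_le_mul_of_nonneg_left h1 h3
      _ = (1 + q * 2 ^ Δ) ^ (m + 1) * WK q G (u 0) y := by ring

end Pool.Agent.COR
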