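import Pool.Agent.Lib_MP_2c424f_cor.H04
import Pool.Agent.Lib_MP_2c424f_cor.H05
import Pool.Agent.Lib_MP_2c424f_cor.K06

/-!
# The corners are correlated (piece H06, (H3))

`t = 0`, `t' = (2^K - 1, …)`, `x`, `y` from `corr_sites`; `x₀ = 0` and `x₁ = (n, …, n)` belong to the boxes of `t`, `t'` (`n = w 2^K - 2`),
which are disjoint and contained in `GB`.  `harnack_path` with a path from `x₀` to `x` in the box of `t` (it avoids `y`):
`WK x y ≤ (1 + q 4^d)^m WK x₀ y`; `WK_symm`; a path from `x₁` to `y` in the box of `t'` (it avoids `x₀`):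
`WK y x₀ ≤ (1 + q 4^d)^m' WK x₁ x₀`; `m, m' ≤ d w` (`path_bx`); degrees at most `2d` (`deg_gV`), `2^(2d) = 4^d`.
-/

set_option autoImplicit false

open Finset

namespace Pool.Agent.COR

open Pool.Agent.LO

/-- the corner `(n, …, n)` -/
def cn1 (d n k : ℕ) : Site d (k + 1) := fun _ => (n : ZMod (2 ^ (k + 1)))

private theorem H06_memB {d k : ℕ} {a b : Fin d → ℕ} {x : Site d k} :
    x ∈ (bx a b : Finset (Site d k)) ↔ ∀ i, a i ≤ (x i).val ∧ (x i).val ≤ b i := by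
  classical
  unfold bx
  rw [mem_filter]
  exact ⟨fun h => h.2, fun h => ⟨mem_univ _, h⟩⟩

private theorem H06_w {d : ℕ} (hd : 1 ≤ d) : 2 ≤ wC d := by
  unfold wC
  have : 1 ≤ d ^ 33 := Nat.one_le_pow _ _ hd
  omega

private theorem H06_n {d K : ℕ} (hd : 1 ≤ d) (hK : 1 ≤ K) :
    wC d * (2 ^ K - 1) + (wC d - 2) = nC d K ∧ wC d ≤ wC d * (2 ^ K - 1) ∧ Even (nC d K) := by
  have hw := H06_w hd
  have h2 : 2 ≤ 2 ^ K := by
    calc 2 = 2 ^ 1 := rfl
      _ ≤ 2 ^ K := Nat.pow_le_pow_right (by norm_num) hK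
  have h3 : wC d * (2 ^ K - 1) + wC d = wC d * 2 ^ K := by
    obtain ⟨m, hm⟩ : ∃ m, 2 ^ K = m + 1 := ⟨2 ^ K - 1, by omega⟩
    rw [hm, Nat.add_sub_cancel]
    ring
  refine ⟨?_, ?_, ?_⟩
  · unfold nC
    omega
  · exact Nat.le_mul_of_pos_right _ (by omega)
  · have h4 : wC d * 2 ^ K = 2 * (d ^ 33 * 2 ^ K) := by
      unfold wC
      ring
    have h5 : 1 ≤ d ^ 33 * 2 ^ K := Nat.one_le_iff_ne_zero.2 (by positivity)
    refine ⟨d ^ 33 * 2 ^ K - 1, ?_⟩
    unfold nC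
    omega

private theorem H06_step {d k q : ℕ} (hk : 1 ≤ k) {a b : Fin d → ℕ} {V : Finset (Site d (k + 1))}
    (hb : ∀ i, b i + 4 ≤ 2 ^ (k + 1)) (hV : bx a b ⊆ V) {M : ℕ} (hM : ∑ i, (b i - a i) ≤ M)
    {x x' y : Site d (k + 1)} (hx : x ∈ bx a b) (hx' : x' ∈ bx a b) (hy : y ∉ bx a b) :
    WK q (gV V) x' y ≤ (1 + (q : ℝ) * 4 ^ d) ^ M * WK q (gV V) x y := by
  classical
  obtain ⟨m, u, hm, h0, h1, hu, hadj⟩ := path_bx hk hb hx hx' hV
  have h := harnack_path (q := q) (par_gV (by omega : 1 ≤ k + 1) V) y (2 * d) m u hadj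
    (fun l hl he => hy (he ▸ hu l hl)) (fun v => by
      have := deg_gV V v
      convert this)
  rw [h0, h1] at h
  have e4 : (2 : ℝ) ^ (2 * d) = 4 ^ d := by
    rw [pow_mul]; norm_num
  rw [e4] at h
  refine h.trans (mul_le_mul_of_nonneg_right ?_ (WK_nonneg _ _ _))
  refine pow_le_pow_right₀ ?_ (hm.trans hM)
  have : (0 : ℝ) ≤ (q : ℝ) * 4 ^ d := by positivity
  linarith

theorem corners : ∃ d₀ : ℕ, ∀ d : ℕ, d₀ ≤ d → ∀ q : ℕ, AdmC d q → ∀ k K : ℕ, d ^ 46 ≤ 2 ^ k → 1 ≤ K →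
    nC d K + 4 ≤ 2 ^ (k + 1) →
    ZV q (GB d K k) / 5 ≤ (1 + (q : ℝ) * 4 ^ d) ^ (2 * (d * wC d)) *
      (q * cV (GB d K k) (fun f : Site d (k + 1) → Fin q => f 0 = f (cn1 d (nC d K) k)) -
        ZV q (GB d K k)) := by
  obtain ⟨d₁, hd₁⟩ := corr_sites
  refine ⟨max d₁ 2, fun d hd q hq k K hk hK hn => ?_⟩
  have hdd : d₁ ≤ d := (le_max_left _ _).trans hd
  have hd2 : 2 ≤ d := (le_max_right _ _).trans hd
  have hd1 : 1 ≤ d := by omega
  have hk1 : 1 ≤ k := by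
    by_contra h
    have hk0 : k = 0 := by omega
    rw [hk0, pow_zero] at hk
    have : 2 ^ 46 ≤ d ^ 46 := Nat.pow_le_pow_left hd2 46
    omega
  have hw := H06_w hd1
  obtain ⟨hn1, hn2, hn3⟩ := H06_n hd1 hK
  have h2K : 2 ≤ 2 ^ K := by
    calc 2 = 2 ^ 1 := rfl
      _ ≤ 2 ^ K := Nat.pow_le_pow_right (by norm_num) hK
  haveI : NeZero (2 ^ K) := ⟨by positivity⟩
  haveI : NeZero (2 ^ (k + 1)) := ⟨by positivity⟩
  let i₀ : Fin d := ⟨0, by omega⟩
  let t : Blk d K := 0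
  let t' : Blk d K := fun _ => ((2 ^ K - 1 : ℕ) : ZMod (2 ^ K))
  have hv : ∀ i, (t i).val = 0 := fun i => ZMod.val_zero
  have hv' : ∀ i, (t' i).val = 2 ^ K - 1 := fun i => ZMod.val_natCast_of_lt (by omega)
  have htt : t ≠ t' := by
    intro h
    have h1 := congrArg (fun s : Blk d K => (s i₀).val) h
    simp only [hv, hv'] at h1
    omega
  have hwa : ∀ i, wa t i = 0 := fun i => by
    show wC d * (t i).val = 0
    rw [hv i, mul_zero]
  have hwb : ∀ i, wb t i = wC d - 2 := fun i => by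
    show wC d * (t i).val + (wC d - 2) = _
    rw [hv i, mul_zero, zero_add]
  have hwa' : ∀ i, wa t' i = wC d * (2 ^ K - 1) := fun i => by
    show wC d * (t' i).val = _
    rw [hv' i]
  have hwb' : ∀ i, wb t' i = nC d K := fun i => by
    show wC d * (t' i).val + (wC d - 2) = _
    rw [hv' i, hn1]
  have hV : bx (wa t) (wb t) ⊆ GB d K k := by
    intro z hz
    unfold GB
    rw [H06_memB] at hz ⊢
    intro i
    have := hz i
    rw [hwa, hwb] at this
    omega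
  have hV' : bx (wa t') (wb t') ⊆ GB d K k := by
    intro z hz
    unfold GB
    rw [H06_memB] at hz ⊢
    intro i
    have := hz i
    rw [hwa', hwb'] at this
    exact ⟨Nat.zero_le _, this.2⟩
  have hdis : ∀ z : Site d (k + 1), z ∈ (bx (wa t) (wb t) : Finset (Site d (k + 1))) →
      z ∉ (bx (wa t') (wb t') : Finset (Site d (k + 1))) := by
    intro z hz hz'
    rw [H06_memB] at hz hz'
    have h1 := hz i₀
    have h2 := hz' i₀
    rw [hwa, hwb] at h1
    rw [hwa', hwb'] at h2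
    omega
  have hx0 : (0 : Site d (k + 1)) ∈ (bx (wa t) (wb t) : Finset (Site d (k + 1))) := by
    rw [H06_memB]
    intro i
    rw [hwa, hwb]
    have : ((0 : Site d (k + 1)) i).val = 0 := ZMod.val_zero
    omega
  have hc : ∀ i, ((cn1 d (nC d K) k : Site d (k + 1)) i).val = nC d K := fun i =>
    ZMod.val_natCast_of_lt (by omega)
  have hx1 : (cn1 d (nC d K) k : Site d (k + 1)) ∈ (bx (wa t') (wb t') : Finset (Site d (k + 1))) := by
    rw [H06_memB]
    intro i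
    rw [hwa', hwb', hc]
    omega
  obtain ⟨x, hx, y, hy, hxy⟩ := hd₁ d hdd q hq k K hk hK hn t t' htt
  have hM : ∑ i, (wb t i - wa t i) ≤ d * wC d := by
    rw [sum_congr rfl fun i _ => by rw [hwa, hwb], sum_const, card_univ, Fintype.card_fin,
      smul_eq_mul]
    exact Nat.mul_le_mul_left _ (by omega)
  have hM' : ∑ i, (wb t' i - wa t' i) ≤ d * wC d := by
    rw [sum_congr rfl fun i _ => by rw [hwa', hwb'], sum_const, card_univ, Fintype.card_fin,
      smul_eq_mul]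
    exact Nat.mul_le_mul_left _ (by omega)
  have s1 : WK q (gV (GB d K k)) x y ≤ (1 + (q : ℝ) * 4 ^ d) ^ (d * wC d) *
      WK q (gV (GB d K k)) 0 y :=
    H06_step hk1 (fun i => by rw [hwb]; omega) hV hM hx0 hx (fun h => hdis y h hy)
  have s2 : WK q (gV (GB d K k)) y 0 ≤ (1 + (q : ℝ) * 4 ^ d) ^ (d * wC d) *
      WK q (gV (GB d K k)) (cn1 d (nC d K) k) 0 :=
    H06_step hk1 (fun i => by rw [hwb']; omega) hV' hM' hx1 hy (hdis 0 hx0)
  have hpar := par_gV (d := d) (by omega : 1 ≤ k + 1) (GB d K k)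
  have hev : evn (cn1 d (nC d K) k : Site d (k + 1)) ↔ evn (0 : Site d (k + 1)) := by
    have e1 : evn (cn1 d (nC d K) k : Site d (k + 1)) := by
      unfold evn
      rw [sum_congr rfl fun i _ => hc i, sum_const, smul_eq_mul]
      exact hn3.mul_left _
    have e0 : evn (0 : Site d (k + 1)) := by
      unfold evn
      have h0 : ∀ i, ((0 : Site d (k + 1)) i).val = 0 := fun i => ZMod.val_zero
      rw [sum_congr rfl fun i _ => h0 i, sum_const_zero]
      exact ⟨0, rfl⟩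
    exact ⟨fun _ => e0, fun _ => e1⟩
  have e3 : WK q (gV (GB d K k)) (cn1 d (nC d K) k) 0 =
      q * cV (GB d K k) (fun f : Site d (k + 1) → Fin q => f 0 = f (cn1 d (nC d K) k)) -
        ZV q (GB d K k) := by
    rw [WK_symm hpar, WK_same hpar hev.symm]
    unfold ZV
    rw [cV_eq (by omega : 1 ≤ k + 1), cV_eq (by omega : 1 ≤ k + 1)]
  have hC : (0 : ℝ) ≤ (1 + (q : ℝ) * 4 ^ d) ^ (d * wC d) := by positivity
  rw [← e3]
  calc ZV q (GB d K k) / 5 ≤ WK q (gV (GB d K k)) x y := hxy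
    _ ≤ (1 + (q : ℝ) * 4 ^ d) ^ (d * wC d) * WK q (gV (GB d K k)) 0 y := s1
    _ = (1 + (q : ℝ) * 4 ^ d) ^ (d * wC d) * WK q (gV (GB d K k)) y 0 := by
        rw [WK_symm hpar 0 y]
    _ ≤ (1 + (q : ℝ) * 4 ^ d) ^ (d * wC d) * ((1 + (q : ℝ) * 4 ^ d) ^ (d * wC d) *
        WK q (gV (GB d K k)) (cn1 d (nC d K) k) 0) := mul_le_mul_of_nonneg_left s2 hC
    _ = _ := by
        rw [two_mul (d * wC d), pow_add (1 + (q : ℝ) * 4 ^ d)]
        ring

end Pool.Agent.COR
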