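import Pool.Agent.Lib_MP_2c424f_cor.KDefs

/-!
# Flipping Kempe clusters, elementary facts (piece K01)

All short.  `kfl` does not change the set `{f ∈ {i,j}}` (`Equiv.swap i j` maps `{i,j}` to itself and fixes the other
colours), hence neither `kst` nor `kcl`.  `PrG_kfl`: for neighbours `x`, `y`: if both colours are in `{i,j}` then
`kst x y`, so both or none is in `S` and `swap` is injective; if exactly one of the two colours is in `{i,j}` it stays
so; if none is, nothing changes.  `kcl_symm`: `kst` is symmetric.  `kcl_col`: induction over the steps: a step inside the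
cluster changes the parity and the colour (both colours are in `{i,j}` and differ by properness).
-/

set_option autoImplicit false

open Finset

namespace Pool.Agent.COR

variable {W : Type} [Fintype W] [DecidableEq W] {q : ℕ}

private theorem K01_swap (i j a : Fin q) : Equiv.swap i j (Equiv.swap i j a) = a :=
  (Equiv.swap i j).symm_apply_apply a

private theorem K01_mem (i j a : Fin q) : (Equiv.swap i j a = i ∨ Equiv.swap i j a = j) ↔ (a = i ∨ a = j) := by
  have h1 : Equiv.swap i j a = i ↔ a = j := by
    constructor
    · intro h
      have := K01_swap i j a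
      rw [h, Equiv.swap_apply_left] at this
      exact this.symm
    · rintro rfl
      exact Equiv.swap_apply_right _ _
  have h2 : Equiv.swap i j a = j ↔ a = i := by
    constructor
    · intro h
      have := K01_swap i j a
      rw [h, Equiv.swap_apply_right] at this
      exact this.symm
    · rintro rfl
      exact Equiv.swap_apply_left _ _
  rw [h1, h2, or_comm]

theorem kfl_kfl (i j : Fin q) (S : Finset W) (f : W → Fin q) : kfl i j S (kfl i j S f) = f := by
  funext x
  unfold kfl
  by_cases hx : x ∈ S
  · rw [if_pos hx, if_pos hx]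
    exact K01_swap i j (f x)
  · rw [if_neg hx, if_neg hx]

theorem kfl_mem (i j : Fin q) (S : Finset W) (f : W → Fin q) (x : W) :
    (kfl i j S f x = i ∨ kfl i j S f x = j) ↔ (f x = i ∨ f x = j) := by
  unfold kfl
  by_cases hx : x ∈ S
  · rw [if_pos hx]
    exact K01_mem i j (f x)
  · rw [if_neg hx]

/-- the other colours do not move -/
theorem kfl_other (i j : Fin q) (S : Finset W) (f : W → Fin q) (x : W) (c : Fin q) (hi : c ≠ i) (hj : c ≠ j) :
    kfl i j S f x = c ↔ f x = c := by
  unfold kfl
  by_cases hx : x ∈ S
  · rw [if_pos hx, Equiv.swap_apply_def]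
    by_cases h1 : f x = i
    · rw [if_pos h1, h1]
      exact ⟨fun h => absurd h.symm hj, fun h => absurd h.symm hi⟩
    · rw [if_neg h1]
      by_cases h2 : f x = j
      · rw [if_pos h2, h2]
        exact ⟨fun h => absurd h.symm hi, fun h => absurd h.symm hj⟩
      · rw [if_neg h2]
  · rw [if_neg hx]

theorem kst_kfl (G : SimpleGraph W) (i j : Fin q) (S : Finset W) (f : W → Fin q) (x y : W) :
    kst G (kfl i j S f) i j x y ↔ kst G f i j x y := by
  unfold kst
  rw [kfl_mem, kfl_mem]

theorem kst_symm {G : SimpleGraph W} {f : W → Fin q} {i j : Fin q} {x y : W} (h : kst G f i j x y) :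
    kst G f i j y x := by
  exact ⟨h.1.symm, h.2.2, h.2.1⟩

theorem kcl_kfl (G : SimpleGraph W) (i j : Fin q) (S : Finset W) (f : W → Fin q) (x y : W) :
    kcl G (kfl i j S f) i j x y ↔ kcl G f i j x y := by
  have h : kst G (kfl i j S f) i j = kst G f i j := by
    funext a b
    exact propext (kst_kfl G i j S f a b)
  unfold kcl
  rw [h]

theorem kcl_symm {G : SimpleGraph W} {f : W → Fin q} {i j : Fin q} {x y : W} (h : kcl G f i j x y) :
    kcl G f i j y x := by
  induction h with
  | refl => exact Relation.ReflTransGen.refl
  | tail _ h2 ih => exact Relation.ReflTransGen.head (kst_symm h2) ih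

theorem kcl_trans {G : SimpleGraph W} {f : W → Fin q} {i j : Fin q} {x y z : W} (h : kcl G f i j x y)
    (h' : kcl G f i j y z) : kcl G f i j x z := by
  exact Relation.ReflTransGen.trans h h'

/-- the order of the two colours is irrelevant -/
theorem kcl_swap (G : SimpleGraph W) (f : W → Fin q) (i j : Fin q) (x y : W) :
    kcl G f i j x y ↔ kcl G f j i x y := by
  have h : kst G f i j = kst G f j i := by
    funext a b
    unfold kst
    rw [or_comm (a := f a = i), or_comm (a := f b = i)]
  unfold kcl
  rw [h]

theorem kun_kfl (G : SimpleGraph W) (i j : Fin q) (S T : Finset W) (f : W → Fin q) :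
    kun G (kfl i j S f) i j T ↔ kun G f i j T := by
  unfold kun
  refine forall_congr' fun x => forall_congr' fun y => ?_
  rw [kst_kfl]

theorem PrG_kfl {G : SimpleGraph W} {f : W → Fin q} (hf : PrG G f) (i j : Fin q) {S : Finset W}
    (hS : kun G f i j S) : PrG G (kfl i j S f) := by
  intro x y hxy
  have h1 := hf x y hxy
  by_cases hst : kst G f i j x y
  · have h2 := hS x y hst
    unfold kfl
    by_cases hx : x ∈ S
    · rw [if_pos hx, if_pos (h2.1 hx)]
      exact fun h => h1 ((Equiv.swap i j).injective h)
    · rw [if_neg hx, if_neg fun hy => hx (h2.2 hy)]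
      exact h1
  · intro h
    have hx := kfl_mem i j S f x
    have hy := kfl_mem i j S f y
    rw [h] at hx
    have h3 : (f x = i ∨ f x = j) ↔ (f y = i ∨ f y = j) := hx.symm.trans hy
    by_cases h4 : f x = i ∨ f x = j
    · exact hst ⟨hxy, h4, h3.1 h4⟩
    · have h5 : ¬ (f y = i ∨ f y = j) := fun h' => h4 (h3.2 h')
      rw [not_or] at h4 h5
      have h6 := (kfl_other i j S f x (f x) h4.1 h4.2).2 rfl
      have h7 := (kfl_other i j S f y (f y) h5.1 h5.2).2 rfl
      exact h1 (by rw [← h6, ← h7, h])

/-- all points of a cluster have a colour in `{i,j}` if one has -/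
theorem kcl_mem {G : SimpleGraph W} {f : W → Fin q} {i j : Fin q} {x y : W} (h : kcl G f i j x y)
    (hx : f x = i ∨ f x = j) : f y = i ∨ f y = j := by
  induction h with
  | refl => exact hx
  | tail _ h2 _ => exact h2.2.2

/-- parity and colour inside a cluster -/
theorem kcl_col {G : SimpleGraph W} {ev : W → Prop} (hG : Par G ev) {f : W → Fin q} (hf : PrG G f) {i j : Fin q}
    {x y : W} (hx : f x = i ∨ f x = j) (h : kcl G f i j x y) : (ev x ↔ ev y) ↔ f x = f y := by
  induction h with
  | refl => exact ⟨fun _ => rfl, fun _ => Iff.rfl⟩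
  | @tail b c _ h2 ih =>
    have h3 : (ev b ↔ ¬ ev c) := hG b c h2.1
    have h4 : f b ≠ f c := hf b c h2.1
    have h5 : f x = f c ↔ ¬ f x = f b := by
      constructor
      · intro h h'
        exact h4 (h'.symm.trans h)
      · intro h
        rcases hx with h1 | h1 <;> rcases h2.2.1 with h' | h' <;> rcases h2.2.2 with h'' | h'' <;>
          first
          | exact h1.trans h''.symm
          | exact absurd (h1.trans h'.symm) h
          | exact absurd (h'.trans h''.symm) h4
    rw [h5, ← ih]
    tauto

open scoped Classical in
/-- a set which is defined by a property invariant along the clusters is a union of clusters -/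
theorem kun_of {G : SimpleGraph W} {f : W → Fin q} {i j : Fin q} (P : W → Prop)
    (h : ∀ x y, kcl G f i j x y → P x → P y) : kun G f i j (univ.filter P) := by
  intro x y hxy
  simp only [mem_filter, mem_univ, true_and]
  exact ⟨h x y (Relation.ReflTransGen.single hxy), h y x (Relation.ReflTransGen.single (kst_symm hxy))⟩

end Pool.Agent.COR
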