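import Pool.Agent.Lib_MP_2c424f_cor.K01

/-!
# Sites of opposite parity have the same colour with probability at most `1/q` (piece K02, (A1))

For colours `a ≠ b`: `#{f v = a, f w = a} ≤ #{f v = a, f w = b}`: flip the `ab`-cluster of `w`
(`S = {x : kcl f a b w x}`, `kun_of`); `v` is not in it, because `v`, `w` have opposite parity and the same colour
(`kcl_col`); the map is injective (it is an involution on the colourings for which `v` is not in the cluster of `w`:
the clusters do not change, `kcl_kfl`, `kfl_kfl`).  Sum over `b ≠ a`: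
`(q-1) #{f v = f w = a} ≤ #{f v = a, f w ≠ a}`, so `q #{f v = f w = a} ≤ #{f v = a}`; sum over `a`.
-/

set_option autoImplicit false

open Finset

namespace Pool.Agent.COR

variable {W : Type} [Fintype W] [DecidableEq W] {q : ℕ}

private theorem K02_congr (G : SimpleGraph W) {P Q : (W → Fin q) → Prop} (h : ∀ f, P f ↔ Q f) :
    cG G P = cG G Q := by
  have e : P = Q := funext fun f => propext (h f)
  rw [e]

private theorem K02_split (G : SimpleGraph W) (P : (W → Fin q) → Prop) (w : W) :
    ∑ b : Fin q, cG G (fun f : W → Fin q => P f ∧ f w = b) = cG G P := by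
  classical
  unfold cG
  have h := Finset.card_eq_sum_card_fiberwise
    (s := univ.filter fun f : W → Fin q => PrG G f ∧ P f) (t := (univ : Finset (Fin q)))
    (f := fun f : W → Fin q => f w) (fun _ _ => mem_univ _)
  rw [h]
  push_cast
  refine Finset.sum_congr rfl fun b _ => ?_
  congr 2
  ext f
  simp only [mem_filter, mem_univ, true_and]
  tauto

private theorem K02_flip {G : SimpleGraph W} {ev : W → Prop} (hG : Par G ev) {v w : W}
    (hvw : ¬ (ev v ↔ ev w)) {a b : Fin q} (hab : a ≠ b) :
    cG G (fun f : W → Fin q => f v = a ∧ f w = a) ≤ cG G (fun f : W → Fin q => f v = a ∧ f w = b) := by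
  classical
  unfold cG
  rw [Nat.cast_le]
  set S : (W → Fin q) → Finset W := fun f => univ.filter fun x => kcl G f a b w x with hS
  refine Finset.card_le_card_of_injOn (fun f => kfl a b (S f) f) ?_ ?_
  · intro f hf
    simp only [coe_filter, mem_univ, true_and, Set.mem_setOf_eq] at hf ⊢
    obtain ⟨hp, hv, hw⟩ := hf
    have hk : kun G f a b (S f) := by
      have := kun_of (G := G) (f := f) (i := a) (j := b) (fun x => kcl G f a b w x)
        (fun x y h h' => kcl_trans h' h)
      convert this
    have hvS : v ∉ S f := by
      intro hin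
      have hin2 : kcl G f a b w v := by
        rw [hS] at hin
        simpa using hin
      have := kcl_col hG hp (Or.inl hw) hin2
      rw [hv, hw] at this
      have h2 := this.2 rfl
      exact hvw ⟨fun h => h2.2 h, fun h => h2.1 h⟩
    have hwS : w ∈ S f := by
      rw [hS]
      simp only [mem_filter, mem_univ, true_and]
      exact Relation.ReflTransGen.refl
    refine ⟨PrG_kfl hp a b hk, ?_, ?_⟩
    · simp only [kfl, if_neg hvS]
      exact hv
    · simp only [kfl, if_pos hwS]
      rw [hw, Equiv.swap_apply_left]
  · intro f hf g hg he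
    have he' : kfl a b (S f) f = kfl a b (S g) g := he
    have e1 : ∀ f : W → Fin q, S f = S (kfl a b (S f) f) := by
      intro f
      rw [hS]
      ext x
      simp only [mem_filter, mem_univ, true_and]
      exact (kcl_kfl G a b _ f w x).symm
    have e2 : S f = S g := by
      rw [e1 f, e1 g, he']
    have e3 := kfl_kfl a b (S f) f
    rw [he', e2, kfl_kfl] at e3
    exact e3.symm

theorem kempe_le {G : SimpleGraph W} {ev : W → Prop} (hG : Par G ev) {v w : W} (hvw : ¬ (ev v ↔ ev w)) :
    (q : ℝ) * cG G (fun f : W → Fin q => f v = f w) ≤ cG G (fun _ : W → Fin q => True) := by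
  have key : ∀ a : Fin q, (q : ℝ) * cG G (fun f : W → Fin q => f v = a ∧ f w = a) ≤
      cG G (fun f : W → Fin q => f v = a) := by
    intro a
    rw [← K02_split G (fun f : W → Fin q => f v = a) w]
    have e : (q : ℝ) * cG G (fun f : W → Fin q => f v = a ∧ f w = a) =
        ∑ _b : Fin q, cG G (fun f : W → Fin q => f v = a ∧ f w = a) := by
      rw [Finset.sum_const, Finset.card_univ, Fintype.card_fin, nsmul_eq_mul]
    rw [e]
    refine Finset.sum_le_sum fun b _ => ?_
    by_cases hab : a = b
    · subst hab
      exact le_refl _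
    · exact K02_flip hG hvw hab
  have e1 : cG G (fun f : W → Fin q => f v = f w) =
      ∑ a : Fin q, cG G (fun f : W → Fin q => f v = a ∧ f w = a) := by
    rw [← K02_split G (fun f : W → Fin q => f v = f w) w]
    refine Finset.sum_congr rfl fun b _ => K02_congr G fun f => ?_
    constructor
    · rintro ⟨h1, h2⟩
      exact ⟨h1.trans h2, h2⟩
    · rintro ⟨h1, h2⟩
      exact ⟨h1.trans h2.symm, h2⟩
  have e2 : cG G (fun _ : W → Fin q => True) = ∑ a : Fin q, cG G (fun f : W → Fin q => f v = a) := by
    rw [← K02_split G (fun _ : W → Fin q => True) v]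
    refine Finset.sum_congr rfl fun b _ => K02_congr G fun f => ?_
    simp
  rw [e1, e2, Finset.mul_sum]
  exact Finset.sum_le_sum fun a _ => key a

end Pool.Agent.COR
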