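import Pool.Agent.Lib_MP_2c424f_cor.K01

/-!
# The Harnack inequality (piece K05, (A4) second part)

`v`, `w` neighbours, `y ≠ v, w`, `v` has at most `Δ` neighbours.  Fix `a ≠ b`.  For `f` proper with `f w = a`, `kcl f a b w y`:
* `f v = b`: then `kcl f a b v y`, so `f` is counted in `#{f v = b, kcl f b a v y}`.
* `f v ≠ b` (and `f v ≠ a`): let `S` = union of the `ab`-clusters of the neighbours of `v` which have the colour `b`;
  `g := update (kfl a b S f) v b`.  A neighbour `u` of `v` of colour `b` has the parity of `w` and another colour than `w`, so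
  it is not in the cluster of `w` (`kcl_col`); hence the cluster of `w` (and `y`) does not move.  `g` is proper: `kfl a b S f` is
  proper (`kun_of`) and no neighbour of `v` has the colour `b` in it (a neighbour of colour `a` of `v` is not in `S`, again by
  `kcl_col`: it would be connected with a neighbour of colour `b`, same parity, different colours).  In `g` the site `v`
  (colour `b`) is adjacent to `w` (colour `a`), and the steps of the cluster of `w` are still there (`v` is not one of its
  points since `f v ∉ {a,b}`), so `kcl g b a v y`, `g v = b`.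
  `f` can be recovered from `g`, `f v` (`q` values) and the set of the neighbours of `v` in `S` (`2^Δ` subsets):
  `kfl a b S f = update g v (f v)`, `S` is the union of the clusters of `update g v (f v)` of these neighbours.
So `#{f w = a, kcl f a b w y} ≤ (1 + q 2^Δ) #{f v = b, kcl f b a v y}`; sum over the ordered pairs `(a,b)`.
-/

set_option autoImplicit false

open Finset

namespace Pool.Agent.COR

variable {W : Type} [Fintype W] [DecidableEq W] {q : ℕ}

open scoped Classical in
/-- the union of the clusters of the sites of a finset -/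
private noncomputable def K05S (G : SimpleGraph W) (f : W → Fin q) (a b : Fin q) (U : Finset W) : Finset W :=
  univ.filter fun z => ∃ u ∈ U, kcl G f a b u z

open scoped Classical in
/-- the neighbours of `v` of colour `b` -/
private noncomputable def K05U (G : SimpleGraph W) (f : W → Fin q) (b : Fin q) (v : W) : Finset W :=
  univ.filter fun u => G.Adj v u ∧ f u = b

private theorem K05_memS {G : SimpleGraph W} {f : W → Fin q} {a b : Fin q} {U : Finset W} {z : W} :
    z ∈ K05S G f a b U ↔ ∃ u ∈ U, kcl G f a b u z := by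
  simp [K05S]

private theorem K05_memU {G : SimpleGraph W} {f : W → Fin q} {b : Fin q} {v u : W} :
    u ∈ K05U G f b v ↔ G.Adj v u ∧ f u = b := by
  simp [K05U]

private theorem K05_kun (G : SimpleGraph W) (f : W → Fin q) (a b : Fin q) (U : Finset W) :
    kun G f a b (K05S G f a b U) := by
  intro x y hxy
  rw [K05_memS, K05_memS]
  constructor
  · rintro ⟨u, hu, hc⟩
    exact ⟨u, hu, Relation.ReflTransGen.tail hc hxy⟩
  · rintro ⟨u, hu, hc⟩
    exact ⟨u, hu, Relation.ReflTransGen.tail hc (kst_symm hxy)⟩

/-- a neighbour of `v` in a cluster of a `b`-coloured neighbour of `v` has the colour `b` -/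
private theorem K05_nb {G : SimpleGraph W} {ev : W → Prop} (hG : Par G ev) {f : W → Fin q} (hf : PrG G f)
    {a b : Fin q} {v u : W} (hu : G.Adj v u) (hS : u ∈ K05S G f a b (K05U G f b v)) : f u = b := by
  obtain ⟨u0, hu0, hc⟩ := K05_memS.1 hS
  obtain ⟨hadj, hb⟩ := K05_memU.1 hu0
  have h1 := hG _ _ hadj
  have h2 := hG _ _ hu
  have h3 := (kcl_col hG hf (Or.inr hb) hc).1 (by tauto)
  rw [← h3, hb]

private theorem K05_fix {a b c : Fin q} (h1 : c ≠ a) (h2 : c ≠ b) : Equiv.swap a b c = c :=
  Equiv.swap_apply_of_ne_of_ne h1 h2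

/-- the second map -/
private noncomputable def K05g (G : SimpleGraph W) (a b : Fin q) (v : W) (f : W → Fin q) : W → Fin q :=
  Function.update (kfl a b (K05S G f a b (K05U G f b v)) f) v b

private theorem K05_g_v (G : SimpleGraph W) (a b : Fin q) (v : W) (f : W → Fin q) : K05g G a b v f v = b := by
  simp [K05g]

private theorem K05_g_ne {G : SimpleGraph W} {a b : Fin q} {v : W} {f : W → Fin q} {x : W} (hx : x ≠ v) :
    K05g G a b v f x = kfl a b (K05S G f a b (K05U G f b v)) f x := by
  simp [K05g, Function.update_of_ne hx]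

private theorem K05_nob {G : SimpleGraph W} {ev : W → Prop} (hG : Par G ev) {f : W → Fin q} (hf : PrG G f)
    {a b : Fin q} (hab : a ≠ b) {v u : W} (hu : G.Adj v u) :
    kfl a b (K05S G f a b (K05U G f b v)) f u ≠ b := by
  intro h
  by_cases hS : u ∈ K05S G f a b (K05U G f b v)
  · have h1 := K05_nb hG hf hu hS
    rw [kfl, if_pos hS, h1, Equiv.swap_apply_right] at h
    exact hab h
  · rw [kfl, if_neg hS] at h
    exact hS (K05_memS.2 ⟨u, K05_memU.2 ⟨hu, h⟩, Relation.ReflTransGen.refl⟩)

private theorem K05_proper {G : SimpleGraph W} {ev : W → Prop} (hG : Par G ev) {f : W → Fin q} (hf : PrG G f)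
    {a b : Fin q} (hab : a ≠ b) {v : W} : PrG G (K05g G a b v f) := by
  have hh : PrG G (kfl a b (K05S G f a b (K05U G f b v)) f) := PrG_kfl hf a b (K05_kun G f a b _)
  intro x y hxy
  by_cases hx : x = v
  · subst hx
    have hy : y ≠ x := hxy.ne'
    rw [K05_g_v, K05_g_ne hy]
    exact (K05_nob hG hf hab hxy).symm
  · by_cases hy : y = v
    · subst hy
      rw [K05_g_v, K05_g_ne hx]
      exact K05_nob hG hf hab hxy.symm
    · rw [K05_g_ne hx, K05_g_ne hy]
      exact hh x y hxy

private theorem K05_conn {G : SimpleGraph W} {ev : W → Prop} (hG : Par G ev) {f : W → Fin q} (hf : PrG G f)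
    {a b : Fin q} (hab : a ≠ b) {v w y : W} (hvw : G.Adj v w) (hw : f w = a) (hv : f v ≠ b)
    (hc : kcl G f a b w y) : kcl G (K05g G a b v f) b a v y := by
  have hva : f v ≠ a := fun h => hf _ _ hvw (h.trans hw.symm)
  have hwv : w ≠ v := hvw.ne'
  have hwS : w ∉ K05S G f a b (K05U G f b v) := by
    intro h
    have := K05_nb hG hf hvw h
    exact hab (hw.symm.trans this)
  have hgw : K05g G a b v f w = a := by
    rw [K05_g_ne hwv, kfl, if_neg hwS, hw]
  have hstep : ∀ x x', kst G f a b x x' → kst G (K05g G a b v f) a b x x' := by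
    rintro x x' ⟨h1, h2, h3⟩
    have hx : x ≠ v := by
      rintro rfl
      exact h2.elim hva hv
    have hx' : x' ≠ v := by
      rintro rfl
      exact h3.elim hva hv
    refine ⟨h1, ?_, ?_⟩
    · rw [K05_g_ne hx]
      exact (kfl_mem a b _ f x).2 h2
    · rw [K05_g_ne hx']
      exact (kfl_mem a b _ f x').2 h3
  have h1 : kcl G (K05g G a b v f) a b w y := Relation.ReflTransGen.mono hstep _ _ hc
  have h2 : kst G (K05g G a b v f) b a v w := ⟨hvw, Or.inl (K05_g_v G a b v f), Or.inr hgw⟩
  exact Relation.ReflTransGen.head h2 ((kcl_swap G _ a b w y).1 h1)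

/-- `f` is determined by `g`, `f v` and the set of the neighbours of colour `b` -/
private theorem K05_rec {G : SimpleGraph W} {f : W → Fin q} {a b : Fin q} {v : W} (hva : f v ≠ a) (hv : f v ≠ b) :
    f = kfl a b (K05S G (Function.update (K05g G a b v f) v (f v)) a b (K05U G f b v))
      (Function.update (K05g G a b v f) v (f v)) := by
  have h1 : Function.update (K05g G a b v f) v (f v) = kfl a b (K05S G f a b (K05U G f b v)) f := by
    funext x
    by_cases hx : x = v
    · subst hx
      rw [Function.update_self, kfl]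
      split_ifs
      · exact (K05_fix hva hv).symm
      · rfl
    · rw [Function.update_of_ne hx, K05_g_ne hx]
  rw [h1]
  have h2 : K05S G (kfl a b (K05S G f a b (K05U G f b v)) f) a b (K05U G f b v) =
      K05S G f a b (K05U G f b v) := by
    ext z
    rw [K05_memS, K05_memS]
    simp only [kcl_kfl]
  rw [h2, kfl_kfl]

open scoped Classical in
private theorem K05_card {G : SimpleGraph W} {ev : W → Prop} (hG : Par G ev) {v w y : W} (hvw : G.Adj v w)
    (Δ : ℕ) (hΔ : (univ.filter fun u => G.Adj v u).card ≤ Δ) {a b : Fin q} (hab : a ≠ b) :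
    (univ.filter fun f : W → Fin q => PrG G f ∧ (f w = a ∧ kcl G f a b w y)).card ≤
      (1 + q * 2 ^ Δ) * (univ.filter fun f : W → Fin q => PrG G f ∧ (f v = b ∧ kcl G f b a v y)).card := by
  set B := univ.filter fun f : W → Fin q => PrG G f ∧ (f v = b ∧ kcl G f b a v y) with hB
  set A := univ.filter fun f : W → Fin q => PrG G f ∧ (f w = a ∧ kcl G f a b w y) with hA
  have hA1 : (A.filter fun f => f v = b).card ≤ B.card := by
    refine card_le_card ?_
    intro f hf
    rw [mem_filter, hA, mem_filter] at hf
    obtain ⟨⟨-, hp, hw, hc⟩, hv⟩ := hf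
    rw [hB, mem_filter]
    refine ⟨mem_univ _, hp, hv, ?_⟩
    exact Relation.ReflTransGen.head (⟨hvw, Or.inl hv, Or.inr hw⟩ : kst G f b a v w)
      ((kcl_swap G _ a b w y).1 hc)
  have hA2 : (A.filter fun f => ¬ f v = b).card ≤
      (B ×ˢ ((univ : Finset (Fin q)) ×ˢ (univ.filter fun u => G.Adj v u).powerset)).card := by
    refine card_le_card_of_injOn (fun f => (K05g G a b v f, (f v, K05U G f b v))) ?_ ?_
    · intro f hf
      rw [mem_coe, mem_filter, hA, mem_filter] at hf
      obtain ⟨⟨-, hp, hw, hc⟩, hv⟩ := hf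
      rw [mem_coe, mem_product, mem_product]
      refine ⟨?_, mem_univ _, ?_⟩
      · rw [hB, mem_filter]
        exact ⟨mem_univ _, K05_proper hG hp hab, K05_g_v G a b v f, K05_conn hG hp hab hvw hw hv hc⟩
      · rw [mem_powerset]
        intro u hu
        rw [mem_filter]
        exact ⟨mem_univ _, (K05_memU.1 hu).1⟩
    · intro f hf f' hf' heq
      rw [mem_coe, mem_filter, hA, mem_filter] at hf hf'
      obtain ⟨⟨-, hp, hw, -⟩, hv⟩ := hf
      obtain ⟨⟨-, hp', hw', -⟩, hv'⟩ := hf'
      have hva : f v ≠ a := fun h => hp _ _ hvw (h.trans hw.symm)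
      have hva' : f' v ≠ a := fun h => hp' _ _ hvw (h.trans hw'.symm)
      simp only [Prod.mk.injEq] at heq
      obtain ⟨h1, h2, h3⟩ := heq
      rw [K05_rec hva hv, K05_rec (G := G) hva' hv', h1, h2, h3]
  rw [card_product, card_product, card_univ, Fintype.card_fin, card_powerset] at hA2
  have h2 : (2 : ℕ) ^ (univ.filter fun u => G.Adj v u).card ≤ 2 ^ Δ := Nat.pow_le_pow_right (by norm_num) hΔ
  have h3 := card_filter_add_card_filter_not (s := A) (fun f => f v = b)
  have h4 : B.card * (q * 2 ^ (univ.filter fun u => G.Adj v u).card) ≤ B.card * (q * 2 ^ Δ) :=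
    Nat.mul_le_mul_left _ (Nat.mul_le_mul_left _ h2)
  calc A.card = _ := h3.symm
    _ ≤ B.card + B.card * (q * 2 ^ Δ) := Nat.add_le_add hA1 (hA2.trans h4)
    _ = (1 + q * 2 ^ Δ) * B.card := by ring

open scoped Classical in
theorem harnack {G : SimpleGraph W} {ev : W → Prop} (hG : Par G ev) {v w y : W} (hvw : G.Adj v w) (hyv : y ≠ v)
    (hyw : y ≠ w) (Δ : ℕ) (hΔ : (univ.filter fun u => G.Adj v u).card ≤ Δ) :
    WK q G w y ≤ (1 + q * 2 ^ Δ) * WK q G v y := by
  have h1 : ∀ a : Fin q, ∀ b ∈ univ.erase a, cG G (fun f : W → Fin q => f w = a ∧ kcl G f a b w y) ≤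
      (1 + q * 2 ^ Δ) * cG G (fun f : W → Fin q => f v = b ∧ kcl G f b a v y) := by
    intro a b hb
    have hab : a ≠ b := (ne_of_mem_erase hb).symm
    have := K05_card hG (y := y) hvw Δ hΔ hab
    have e1 : cG G (fun f : W → Fin q => f w = a ∧ kcl G f a b w y) =
        ((univ.filter fun f : W → Fin q => PrG G f ∧ (f w = a ∧ kcl G f a b w y)).card : ℝ) := by
      unfold cG
      congr!
    have e2 : cG G (fun f : W → Fin q => f v = b ∧ kcl G f b a v y) =
        ((univ.filter fun f : W → Fin q => PrG G f ∧ (f v = b ∧ kcl G f b a v y)).card : ℝ) := by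
      unfold cG
      congr!
    rw [e1, e2]
    exact_mod_cast this
  unfold WK
  refine (sum_le_sum fun a _ => sum_le_sum fun b hb => h1 a b hb).trans ?_
  rw [mul_sum]
  simp only [mul_sum]
  refine le_of_eq ?_
  refine sum_comm' ?_
  intro a b
  simp only [mem_univ, mem_erase, true_and, and_true]
  exact ne_comm

end Pool.Agent.COR
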