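import Pool.Agent.Lib_MP_2c424f_cor.S01
import Pool.Agent.Lib_MP_2c424f_fb.Pbd8

/-!
# The number of colourings with a large loss (piece S02, (S1))

The proof of `pbd8` / `Pbd_card` (files `Lib_MP_2c424f_fb/Pbd8.lean`, `Lib_MP_2c424f_lo/Pbd.lean`, copy it) with `star45`:
`s = Nat.clog 2 d`; for `f ∈ A`: `exp (-(mean of TT)) ≤ mean of exp (-TT)` (Jensen), sum over `f ∈ A`, `kraft`.  No lower
bound of `ZZ` is used.  For even `q`: `q1 q = q2 q = q/2`, `N/2 log (q1 q2) = N log (q/2)`.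
-/

set_option autoImplicit false

open Finset

namespace Pool.Agent.COR

open Pool.Agent.LO

private theorem S02_clog {d : ℕ} (hd : 2 ≤ d) : ∃ s : ℕ, d ≤ 2 ^ s ∧ 2 ^ s < 2 * d := by
  refine ⟨Nat.clog 2 d, Nat.le_pow_clog (by norm_num) d, ?_⟩
  have h := Nat.pow_pred_clog_lt_self (b := 2) (by norm_num) (x := d) (by omega)
  have h1 : 0 < Nat.clog 2 d := Nat.clog_pos (by norm_num) hd
  have h2 : 2 ^ Nat.clog 2 d = 2 * 2 ^ (Nat.clog 2 d).pred := by
    conv_lhs => rw [← Nat.succ_pred_eq_of_pos h1]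
    rw [pow_succ]
    ring
  rw [h2]
  omega

private theorem S02_mean {d k q s : ℕ} (hd : 1 ≤ d) (A : Finset (Site d k → Fin q)) (B : ℝ)
    (T : (Site d k → Fin q) → Fin d → ZMod (2 ^ s) → Finset (Site d k) → ℝ)
    (hT : ∀ i a R, ∑ f ∈ A, Real.exp (-(T f i a R)) ≤ 1)
    (hB : ∀ f ∈ A, (∑ i : Fin d, ∑ a : ZMod (2 ^ s), ER (fun R => T f i a R)) / (d * 2 ^ s) ≤ B) :
    (A.card : ℝ) ≤ Real.exp B := by
  have hd0 : (0 : ℝ) < d := by exact_mod_cast hd
  have hW : (0 : ℝ) < d * 2 ^ s := by positivity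
  -- pointwise
  have h1 : ∀ i a R, ∑ f ∈ A, (1 + B + (-1) * T f i a R) ≤ Real.exp B := by
    intro i a R
    have h2 : ∑ f ∈ A, (1 + B + (-1) * T f i a R) ≤
        ∑ f ∈ A, Real.exp B * Real.exp (-(T f i a R)) := by
      refine Finset.sum_le_sum fun f _ => ?_
      rw [← Real.exp_add]
      have := Real.add_one_le_exp (B + -(T f i a R))
      linarith
    rw [← Finset.mul_sum] at h2
    calc _ ≤ _ := h2
      _ ≤ Real.exp B * 1 := mul_le_mul_of_nonneg_left (hT i a R) (Real.exp_pos _).le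
      _ = Real.exp B := mul_one _
  -- expectation over `R`
  have h2 : ∀ i a, ∑ f ∈ A, (1 + B + (-1) * ER (fun R => T f i a R)) ≤ Real.exp B := by
    intro i a
    have h3 := ER_mono (d := d) (k := k) (fun R => h1 i a R)
    rw [ER_const, ER_sum] at h3
    calc ∑ f ∈ A, (1 + B + (-1) * ER (fun R => T f i a R))
        = ∑ f ∈ A, ER (fun R => 1 + B + (-1) * T f i a R) := by
          refine Finset.sum_congr rfl fun f _ => ?_
          rw [ER_add, ER_const, ER_mul]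
      _ ≤ _ := h3
  -- sum over `i`, `a`
  have h3 : ∑ i : Fin d, ∑ a : ZMod (2 ^ s), ∑ f ∈ A, (1 + B + (-1) * ER (fun R => T f i a R)) ≤
      d * 2 ^ s * Real.exp B := by
    calc _ ≤ ∑ i : Fin d, ∑ a : ZMod (2 ^ s), Real.exp B :=
          Finset.sum_le_sum fun i _ => Finset.sum_le_sum fun a _ => h2 i a
      _ = d * 2 ^ s * Real.exp B := by
          rw [Finset.sum_const, Finset.sum_const, Finset.card_univ, Finset.card_univ, ZMod.card,
            Fintype.card_fin, nsmul_eq_mul, nsmul_eq_mul]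
          push_cast
          ring
  have h4 : ∑ i : Fin d, ∑ a : ZMod (2 ^ s), ∑ f ∈ A, (1 + B + (-1) * ER (fun R => T f i a R)) =
      ∑ f ∈ A, (d * 2 ^ s * (1 + B) -
        ∑ i : Fin d, ∑ a : ZMod (2 ^ s), ER (fun R => T f i a R)) := by
    have h5 : ∀ i : Fin d, ∑ a : ZMod (2 ^ s), ∑ f ∈ A, (1 + B + (-1) * ER (fun R => T f i a R)) =
        ∑ f ∈ A, ∑ a : ZMod (2 ^ s), (1 + B + (-1) * ER (fun R => T f i a R)) :=
      fun i => Finset.sum_comm
    rw [Finset.sum_congr rfl fun i _ => h5 i, Finset.sum_comm]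
    refine Finset.sum_congr rfl fun f _ => ?_
    have h6 : ∀ i : Fin d, ∑ a : ZMod (2 ^ s), (1 + B + (-1) * ER (fun R => T f i a R)) =
        2 ^ s * (1 + B) - ∑ a : ZMod (2 ^ s), ER (fun R => T f i a R) := by
      intro i
      rw [Finset.sum_add_distrib, ← Finset.mul_sum, Finset.sum_const, Finset.card_univ, ZMod.card,
        nsmul_eq_mul]
      push_cast
      ring
    rw [Finset.sum_congr rfl fun i _ => h6 i, Finset.sum_sub_distrib, Finset.sum_const,
      Finset.card_univ, Fintype.card_fin, nsmul_eq_mul]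
    ring
  have h5 : ∑ f ∈ A, (d * 2 ^ s : ℝ) ≤ ∑ f ∈ A, (d * 2 ^ s * (1 + B) -
        ∑ i : Fin d, ∑ a : ZMod (2 ^ s), ER (fun R => T f i a R)) := by
    refine Finset.sum_le_sum fun f hf => ?_
    have := hB f hf
    rw [div_le_iff₀ hW] at this
    linarith
  rw [Finset.sum_const, nsmul_eq_mul] at h5
  rw [h4] at h3
  have h6 := h5.trans h3
  rw [mul_comm (A.card : ℝ)] at h6
  exact le_of_mul_le_mul_left h6 hW

/-- Jensen, `kraft` and `star45` -/
private theorem S02_card : ∃ d₀ : ℕ, 100 ≤ d₀ ∧ ∀ d : ℕ, d₀ ≤ d → ∀ q : ℕ, Adm6 d q → ∀ k : ℕ,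
    d ^ 46 ≤ 2 ^ k →
    ∀ (A : Finset (Site d k → Fin q)), (∀ f ∈ A, Prp f) → ∀ l : ℝ, (∀ f ∈ A, l ≤ Loss f) →
    (A.card : ℝ) ≤ Real.exp (NN d k / 2 * Real.log ((q1 q : ℝ) * q2 q) - l +
      3 * NN d k / (d : ℝ) ^ 45) := by
  classical
  obtain ⟨d₀, h0⟩ := star45
  refine ⟨max d₀ 100, le_max_right _ _, ?_⟩
  intro d hd q hA k hk A hAf l hl
  have hd1 : d₀ ≤ d := (le_max_left _ _).trans hd
  have hd2 : 100 ≤ d := (le_max_right _ _).trans hd
  obtain ⟨s, hs1, hs2⟩ := S02_clog (by omega : 2 ≤ d)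
  have h2d : 2 * d ≤ 2 ^ k := by
    refine le_trans ?_ hk
    calc 2 * d ≤ d ^ 45 * d := by
          apply Nat.mul_le_mul_right
          calc 2 ≤ d ^ 1 := by
                rw [pow_one]
                omega
            _ ≤ d ^ 45 := Nat.pow_le_pow_right (by omega) (by norm_num)
      _ = d ^ 46 := by ring
  have hk2 : 2 ≤ k := by
    by_contra hcon
    have h1 : 2 ^ k ≤ 2 ^ 1 := Nat.pow_le_pow_right (by norm_num) (by omega)
    omega
  have hsk : s ≤ k := by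
    by_contra hcon
    have h1 : 2 ^ k ≤ 2 ^ s := Nat.pow_le_pow_right (by norm_num) (by omega)
    omega
  have hdR : (100 : ℝ) ≤ d := by exact_mod_cast hd2
  have he : (0 : ℝ) < 1 / (d : ℝ) ^ 45 := by positivity
  have he1 : 1 / (d : ℝ) ^ 45 < 1 := by
    rw [div_lt_one (by positivity)]
    exact one_lt_pow₀ (by linarith) (by norm_num)
  refine S02_mean (s := s) (by omega) A _ (fun f i a R => TT (1 / (d : ℝ) ^ 45) s f i a R) ?_ ?_
  · intro i a R
    refine le_trans ?_ (kraft (q := q) (by omega : 2 ≤ d) hk2 hsk hs1 hs2 he he1 i a R)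
    refine Finset.sum_le_sum_of_subset_of_nonneg ?_ fun f _ _ => (Real.exp_pos _).le
    intro f hf
    unfold prps
    exact Finset.mem_filter.2 ⟨mem_univ f, hAf f hf⟩
  · intro f hf
    have h1 := h0 d hd1 q hA k s hs1 hs2 hk f (hAf f hf)
    have h2 := hl f hf
    refine h1.trans ?_
    linarith

theorem pbd45 : ∃ d₀ : ℕ, ∀ d : ℕ, d₀ ≤ d → ∀ q : ℕ, Adm6 d q → Even q → ∀ k : ℕ, d ^ 46 ≤ 2 ^ k →
    ∀ (A : Finset (Site d k → Fin q)), (∀ f ∈ A, Prp f) → ∀ l : ℝ, (∀ f ∈ A, l ≤ Loss f) →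
    (A.card : ℝ) ≤ Real.exp (NN d k * Real.log ((q : ℝ) / 2) - l + 3 * NN d k / (d : ℝ) ^ 45) := by
  obtain ⟨d₀, _, h0⟩ := S02_card
  refine ⟨d₀, ?_⟩
  intro d hd q hA hq k hk A hAf l hl
  have h1 := h0 d hd q hA k hk A hAf l hl
  refine h1.trans (le_of_eq ?_)
  obtain ⟨r, rfl⟩ := hq
  have e1 : q1 (r + r) = r := by
    unfold q1
    omega
  have e2 : q2 (r + r) = r := by
    unfold q2
    omega
  have hr : 0 < r := by
    have := hA.1
    omega
  have hr0 : (r : ℝ) ≠ 0 := by exact_mod_cast hr.ne'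
  have e3 : ((r + r : ℕ) : ℝ) / 2 = r := by
    push_cast
    ring
  rw [e1, e2, e3, Real.log_mul hr0 hr0]
  congr 1
  ring

end Pool.Agent.COR
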