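import Pool.Agent.Lib_MP_2c424f_cor.H06
import Pool.Agent.Lib_MP_2c424f_pr.Defs
import Pool.Agent.Lib_MP_2c424f_pr.BXA

/-!
# Transfer to the problem's boxes (piece Z01)

The box `Bx d n` embeds in the torus by `x ↦ (x i : ZMod (2^(k+1)))`, image `GB`-box `bx 0 n` (`n + 4 ≤ 2^(k+1)`, no wrapping);
`bd x y = 1` iff the images differ by one step (`bg_adj`).  Restriction to the box is a bijection between the functions on the torus
with given values off the box and the functions on `Bx d n`, so `cV (bx 0 n) P = #{g : Proper (BG d n) g ∧ ...} · q^(N - (n+1)^d)` for the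
events `f 0 = f (n,…,n)` and `True`; the common factor (positive, `q ≥ 1`) cancels in `Dq`.
-/

set_option autoImplicit false

open Finset

namespace Pool.Agent.COR

open Pool.Agent.LO Pool.Agent.QC

private def embZ01 (d n k : ℕ) (x : Bx d n) : Site d (k + 1) := fun i => ((x i : ℕ) : ZMod (2 ^ (k + 1)))

private theorem val_embZ01 {d k n : ℕ} (hn : n + 4 ≤ 2 ^ (k + 1)) (x : Bx d n) (i : Fin d) :
    (embZ01 d n k x i).val = (x i : ℕ) := by
  unfold embZ01
  refine ZMod.val_natCast_of_lt ?_
  have := (x i).2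
  omega

private theorem inj_embZ01 {d k n : ℕ} (hn : n + 4 ≤ 2 ^ (k + 1)) : Function.Injective (embZ01 d n k) := by
  intro x y h
  funext i
  apply Fin.ext
  rw [← val_embZ01 hn x i, ← val_embZ01 hn y i, h]

private theorem mem_bxZ01 {d k n : ℕ} (x : Site d (k + 1)) :
    x ∈ (bx (fun _ => 0) (fun _ => n) : Finset (Site d (k + 1))) ↔ ∀ i, (x i).val ≤ n := by
  unfold bx
  rw [mem_filter]
  constructor
  · intro h i
    exact (h.2 i).2
  · intro h
    exact ⟨mem_univ _, fun i => ⟨Nat.zero_le _, h i⟩⟩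

private theorem mem_embZ01 {d k n : ℕ} (hn : n + 4 ≤ 2 ^ (k + 1)) (x : Bx d n) :
    embZ01 d n k x ∈ (bx (fun _ => 0) (fun _ => n) : Finset (Site d (k + 1))) := by
  rw [mem_bxZ01]
  intro i
  rw [val_embZ01 hn]
  have := (x i).2
  omega

private theorem ex_embZ01 {d k n : ℕ} {x : Site d (k + 1)}
    (hx : x ∈ (bx (fun _ => 0) (fun _ => n) : Finset (Site d (k + 1)))) :
    embZ01 d n k (fun i => ⟨(x i).val, Nat.lt_succ_of_le ((mem_bxZ01 x).1 hx i)⟩) = x := by
  funext i
  unfold embZ01
  exact ZMod.natCast_zmod_val (x i)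

private theorem val_succZ01 {k n : ℕ} (hn : n + 4 ≤ 2 ^ (k + 1)) (a : ZMod (2 ^ (k + 1))) (ha : a.val ≤ n) :
    (a + 1).val = a.val + 1 := by
  have h1 : a + 1 = ((a.val + 1 : ℕ) : ZMod (2 ^ (k + 1))) := by
    rw [Nat.cast_add, ZMod.natCast_zmod_val, Nat.cast_one]
  rw [h1]
  exact ZMod.val_natCast_of_lt (by omega)

private theorem prZ01 {d k n q : ℕ} (hn : n + 4 ≤ 2 ^ (k + 1)) (f : Site d (k + 1) → Fin q) :
    PrV (bx (fun _ => 0) (fun _ => n) : Finset (Site d (k + 1))) f ↔ Proper (BG d n) (fun x => f (embZ01 d n k x)) := by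
  constructor
  · intro h u v huv
    obtain ⟨i, hi, hj⟩ := bg_adj huv
    have key : ∃ σ : Stp d, embZ01 d n k v = embZ01 d n k u + sv σ := by
      rcases hi with hi | hi
      · refine ⟨(i, true), ?_⟩
        funext j
        show _ = embZ01 d n k u j + (Pi.single i (1 : ZMod (2 ^ (k + 1))) : Site d (k + 1)) j
        by_cases hji : j = i
        · subst hji
          rw [Pi.single_eq_same]
          unfold embZ01
          rw [hi, Nat.cast_add, Nat.cast_one]
        · rw [Pi.single_eq_of_ne hji, add_zero]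
          unfold embZ01
          rw [hj j hji]
      · refine ⟨(i, false), ?_⟩
        funext j
        show _ = embZ01 d n k u j + (Pi.single i (-1 : ZMod (2 ^ (k + 1))) : Site d (k + 1)) j
        by_cases hji : j = i
        · subst hji
          rw [Pi.single_eq_same]
          unfold embZ01
          rw [hi, Nat.cast_add, Nat.cast_one, add_neg_cancel_right]
        · rw [Pi.single_eq_of_ne hji, add_zero]
          unfold embZ01
          rw [hj j hji]
    obtain ⟨σ, hσ⟩ := key
    have h2 := h (embZ01 d n k u) (mem_embZ01 hn u) σ (by rw [← hσ]; exact mem_embZ01 hn v)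
    rw [← hσ] at h2
    exact h2.symm
  · intro h x hx σ hy
    have hu := ex_embZ01 hx
    have hv := ex_embZ01 hy
    suffices H : f (embZ01 d n k (fun i => ⟨((x + sv σ : Site d (k + 1)) i).val, Nat.lt_succ_of_le ((mem_bxZ01 _).1 hy i)⟩)) ≠
        f (embZ01 d n k (fun i => ⟨(x i).val, Nat.lt_succ_of_le ((mem_bxZ01 x).1 hx i)⟩)) by
      rwa [hv, hu] at H
    refine (h _ _ ?_).symm
    show bd _ _ = 1
    have hx' := (mem_bxZ01 x).1 hx
    have hy' := (mem_bxZ01 _).1 hy
    obtain ⟨i, s⟩ := σ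
    rw [BXA_split _ _ i]
    have h0 : ∑ j ∈ univ.erase i, (((⟨(x j).val, Nat.lt_succ_of_le (hx' j)⟩ : Fin (n + 1)) : ℤ) -
        ((⟨((x + sv (i, s) : Site d (k + 1)) j).val, Nat.lt_succ_of_le (hy' j)⟩ : Fin (n + 1)) : ℤ)).natAbs = 0 := by
      refine Finset.sum_eq_zero fun j hj => ?_
      have hji : j ≠ i := Finset.ne_of_mem_erase hj
      have h3 : (x + sv (i, s) : Site d (k + 1)) j = x j := by
        show x j + (Pi.single i _ : Site d (k + 1)) j = x j
        rw [Pi.single_eq_of_ne hji, add_zero]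
      simp only [h3, sub_self, Int.natAbs_zero]
    have h1 : (((⟨(x i).val, Nat.lt_succ_of_le (hx' i)⟩ : Fin (n + 1)) : ℤ) -
        ((⟨((x + sv (i, s) : Site d (k + 1)) i).val, Nat.lt_succ_of_le (hy' i)⟩ : Fin (n + 1)) : ℤ)).natAbs = 1 := by
      cases s with
      | true =>
        have h3 : (x + sv (i, true) : Site d (k + 1)) i = x i + 1 := by
          show x i + (Pi.single i (1 : ZMod (2 ^ (k + 1))) : Site d (k + 1)) i = x i + 1
          rw [Pi.single_eq_same]
        have h4 : ((x + sv (i, true) : Site d (k + 1)) i).val = (x i).val + 1 := by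
          rw [h3]; exact val_succZ01 hn _ (hx' i)
        show (((x i).val : ℤ) - (((x + sv (i, true) : Site d (k + 1)) i).val : ℤ)).natAbs = 1
        rw [h4]
        omega
      | false =>
        have h3 : x i = (x + sv (i, false) : Site d (k + 1)) i + 1 := by
          show x i = x i + (Pi.single i (-1 : ZMod (2 ^ (k + 1))) : Site d (k + 1)) i + 1
          rw [Pi.single_eq_same, neg_add_cancel_right]
        have h4 : (x i).val = ((x + sv (i, false) : Site d (k + 1)) i).val + 1 := by
          conv_lhs => rw [h3]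
          exact val_succZ01 hn _ (hy' i)
        show (((x i).val : ℤ) - (((x + sv (i, false) : Site d (k + 1)) i).val : ℤ)).natAbs = 1
        rw [h4]
        omega
    rw [h0, add_zero]
    exact h1

open scoped Classical in
private theorem countZ01 {d k n q : ℕ} (hn : n + 4 ≤ 2 ^ (k + 1)) (p : (Bx d n → Fin q) → Prop) :
    (univ.filter fun f : Site d (k + 1) → Fin q => p (fun x => f (embZ01 d n k x))).card =
      cnt p * Fintype.card ({x : Site d (k + 1) // ¬ x ∈ Set.range (embZ01 d n k)} → Fin q) := by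
  rw [cnt_eq, ← Finset.card_univ, ← Finset.card_product]
  refine Finset.card_equiv ((Equiv.piEquivPiSubtypeProd (fun x : Site d (k + 1) => x ∈ Set.range (embZ01 d n k))
    (fun _ => Fin q)).trans (Equiv.prodCongr (Equiv.arrowCongr
      (Equiv.ofInjective (embZ01 d n k) (inj_embZ01 hn)).symm (Equiv.refl (Fin q))) (Equiv.refl _))) ?_
  intro f
  rw [mem_filter, mem_product, mem_filter]
  constructor
  · intro h
    exact ⟨⟨mem_univ _, h.2⟩, mem_univ _⟩
  · intro h
    exact ⟨mem_univ _, h.1.2⟩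

private theorem cVZ01 {d k n q : ℕ} (hn : n + 4 ≤ 2 ^ (k + 1)) (P : (Site d (k + 1) → Fin q) → Prop)
    (p : (Bx d n → Fin q) → Prop) (hP : ∀ f, P f ↔ p (fun x => f (embZ01 d n k x))) :
    cV (bx (fun _ => 0) (fun _ => n) : Finset (Site d (k + 1))) P =
      (cnt (fun g : Bx d n → Fin q => Proper (BG d n) g ∧ p g) : ℝ) *
        (Nat.card ({x : Site d (k + 1) // ¬ x ∈ Set.range (embZ01 d n k)} → Fin q) : ℝ) := by
  classical
  have h := countZ01 (k := k) hn (fun g : Bx d n → Fin q => Proper (BG d n) g ∧ p g)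
  unfold cV
  rw [Nat.card_eq_fintype_card, ← Nat.cast_mul, ← h]
  refine congrArg (fun m : ℕ => (m : ℝ)) (congrArg Finset.card ?_)
  ext f
  simp only [mem_filter, mem_univ, true_and]
  rw [prZ01 hn, hP]

theorem transfer {d k n q : ℕ} (hk : 1 ≤ k) (hq : 1 ≤ q) (hn : n + 4 ≤ 2 ^ (k + 1)) :
    Dq q d n = cV (bx (fun _ => 0) (fun _ => n)) (fun f : Site d (k + 1) → Fin q => f 0 = f (cn1 d n k)) /
      ZV q (bx (fun _ => 0) (fun _ => n) : Finset (Site d (k + 1))) - 1 / q := by
  have e0 : embZ01 d n k (c0 d n) = 0 := by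
    funext i
    unfold embZ01 c0
    simp
  have e1 : embZ01 d n k (c1 d n) = cn1 d n k := by
    funext i
    unfold embZ01 c1 cn1
    simp
  have h1 := cVZ01 (k := k) hn (fun f : Site d (k + 1) → Fin q => f 0 = f (cn1 d n k))
    (fun g => g (c0 d n) = g (c1 d n)) (fun f => by rw [← e0, ← e1])
  have h2 := cVZ01 (k := k) hn (fun _ : Site d (k + 1) → Fin q => True) (fun _ => True) (fun f => Iff.rfl)
  haveI : Nonempty (Fin q) := ⟨⟨0, hq⟩⟩
  have hC : ((Nat.card ({x : Site d (k + 1) // ¬ x ∈ Set.range (embZ01 d n k)} → Fin q) : ℕ) : ℝ) ≠ 0 := by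
    rw [Nat.cast_ne_zero, Nat.card_ne_zero]
    exact ⟨inferInstance, inferInstance⟩
  have h3 : cnt (fun g : Bx d n → Fin q => Proper (BG d n) g ∧ True) =
      cnt (fun g : Bx d n → Fin q => Proper (BG d n) g) := cnt_congr fun f => by rw [and_true]
  unfold Dq ZV
  rw [h1, h2, h3, mul_div_mul_right _ _ hC]

end Pool.Agent.COR
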