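import Pool.Agent.Lib_MP_2c424f_cor.Z01
import Pool.Agent.Lib_MP_2c424f_pr.LIM

/-!
# Long-range order in the sense of the problem (piece Z02)

`corner_pos`: for `K ≥ 1` take `k` with `d^46 ≤ 2^k`, `nC d K + 4 ≤ 2^(k+1)`; `transfer`, `corners`, `ZV > 0` (`ZV_ge`):
`Dq = (q cV - ZV)/(q ZV) ≥ 1/(5 q (1 + q 4^d)^(2 d w)) > 0`, independent of `K`.  `nC d K → ∞`, so `Dq` does not tend to `0`.
`qc_ge`: let `q` be the largest even number with `q · 10000 log d ≤ d`; for large `d` it is at least `4` and at least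
`d/(20000 log d)`; `LRO q d`, and the set `{q ≥ 2 : LRO q d}` is bounded above by `main_qc` (`ε = 1`), so `q ≤ qc d`
(`le_csSup`).
-/

set_option autoImplicit false

open Finset

namespace Pool.Agent.COR

open Pool.Agent.LO Pool.Agent.QC

theorem corner_pos : ∃ d₀ : ℕ, ∀ d : ℕ, d₀ ≤ d → ∀ q : ℕ, AdmC d q →
    ∃ c : ℝ, 0 < c ∧ ∀ K : ℕ, 1 ≤ K → c ≤ Dq q d (nC d K) := by
  obtain ⟨d₀, h⟩ := corners
  refine ⟨d₀, fun d hd q hq => ?_⟩
  have hq4 : 4 ≤ q := hq.1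
  have hqp : (0 : ℝ) < q := by exact_mod_cast (by omega : 0 < q)
  obtain ⟨A, hA⟩ : ∃ A : ℝ, A = (1 + (q : ℝ) * 4 ^ d) ^ (2 * (d * wC d)) := ⟨_, rfl⟩
  have hAp : 0 < A := by rw [hA]; positivity
  refine ⟨1 / (5 * q * A), by positivity, fun K hK => ?_⟩
  obtain ⟨k, hk⟩ : ∃ k : ℕ, k = d ^ 46 + nC d K + 4 := ⟨_, rfl⟩
  have hk2 : k < 2 ^ k := Nat.lt_two_pow_self
  have hk3 : 2 ^ (k + 1) = 2 * 2 ^ k := by rw [pow_succ]; ring
  have hk1 : d ^ 46 ≤ 2 ^ k := by omega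
  have hk4 : nC d K + 4 ≤ 2 ^ (k + 1) := by omega
  have h1 := h d hd q hq k K hk1 hK hk4
  rw [← hA] at h1
  have h2 : Dq q d (nC d K) = cV (GB d K k)
      (fun f : Site d (k + 1) → Fin q => f 0 = f (cn1 d (nC d K) k)) / ZV q (GB d K k) - 1 / q :=
    transfer (d := d) (k := k) (n := nC d K) (q := q) (by omega) (by omega) hk4
  have hZ : 0 < ZV q (GB d K k) := by
    have h3 := ZV_ge (d := d) (k := k + 1) (q := q) (by omega) hq.2.1 (GB d K k)
    have h4 : 0 < QN d (k + 1) q * (1 / 2 : ℝ) ^ (GB d K k).card := by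
      unfold QN
      positivity
    linarith
  rw [h2]
  obtain ⟨c, hc⟩ : ∃ c : ℝ, c = cV (GB d K k)
      (fun f : Site d (k + 1) → Fin q => f 0 = f (cn1 d (nC d K) k)) := ⟨_, rfl⟩
  rw [← hc] at h1 ⊢
  obtain ⟨Z, hZ'⟩ : ∃ Z : ℝ, Z = ZV q (GB d K k) := ⟨_, rfl⟩
  rw [← hZ'] at h1 hZ ⊢
  have h5 : c / Z - 1 / q = (q * c - Z) / (q * Z) := by
    field_simp
  rw [h5, div_le_div_iff₀ (by positivity) (by positivity)]
  have h6 : q * Z ≤ (A * (q * c - Z)) * (5 * q) := by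
    have h7 := mul_le_mul_of_nonneg_right h1 (by positivity : (0 : ℝ) ≤ 5 * q)
    calc q * Z = Z / 5 * (5 * q) := by ring
      _ ≤ _ := h7
  calc 1 * (q * Z) = q * Z := one_mul _
    _ ≤ (A * (q * c - Z)) * (5 * q) := h6
    _ = (q * c - Z) * (5 * q * A) := by ring

theorem corner_lro : ∃ d₀ : ℕ, ∀ d : ℕ, d₀ ≤ d → ∀ q : ℕ, AdmC d q → LRO q d := by
  obtain ⟨d₀, h⟩ := corner_pos
  refine ⟨max d₀ 1, fun d hd q hq ht => ?_⟩
  obtain ⟨c, hc, hK⟩ := h d ((le_max_left _ _).trans hd) q hq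
  have hd1 : 1 ≤ d := (le_max_right _ _).trans hd
  have h1 : ∀ᶠ n in Filter.atTop, Dq q d n < c := ht.eventually_lt_const hc
  obtain ⟨N, hN⟩ := Filter.eventually_atTop.1 h1
  have h2 : N ≤ nC d (N + 1) := by
    have h3 : 2 ≤ wC d := by
      unfold wC
      have : 1 ≤ d ^ 33 := Nat.one_le_pow _ _ hd1
      omega
    have h4 : N + 1 < 2 ^ (N + 1) := Nat.lt_two_pow_self
    have h5 : 2 * 2 ^ (N + 1) ≤ wC d * 2 ^ (N + 1) := Nat.mul_le_mul_right _ h3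
    unfold nC
    omega
  exact absurd (hN _ h2) (not_lt.2 (hK (N + 1) (by omega)))

private theorem Z02_log {x : ℝ} (hx : 1 ≤ x) : Real.log x ≤ 2 * Real.sqrt x := by
  have h1 : Real.log x = 2 * Real.log (Real.sqrt x) := by
    rw [Real.log_sqrt (by linarith)]
    ring
  have h2 : 0 < Real.sqrt x := Real.sqrt_pos.2 (by linarith)
  have h3 := Real.log_le_sub_one_of_pos h2
  rw [h1]
  linarith

theorem qc_ge : ∃ d₀ : ℕ, ∀ d : ℕ, d₀ ≤ d → (d : ℝ) / (20000 * Real.log d) ≤ qc d := by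
  obtain ⟨d₀, h⟩ := corner_lro
  obtain ⟨d₁, h'⟩ := main_qc (ε := 1) one_pos
  refine ⟨max (max d₀ d₁) (80000 ^ 2), fun d hd => ?_⟩
  have hd0 : d₀ ≤ d := (le_max_left _ _).trans ((le_max_left _ _).trans hd)
  have hd1 : d₁ ≤ d := (le_max_right _ _).trans ((le_max_left _ _).trans hd)
  have hd2 : 80000 ^ 2 ≤ d := (le_max_right _ _).trans hd
  have hdr : (80000 : ℝ) ^ 2 ≤ d := by exact_mod_cast hd2
  have hdp : (1 : ℝ) < d := lt_of_lt_of_le (by norm_num) hdr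
  have hl : 0 < Real.log d := Real.log_pos hdp
  have hs : (80000 : ℝ) ≤ Real.sqrt d := by
    rw [Real.le_sqrt (by norm_num) (by linarith)]
    exact hdr
  have hl2 : 40000 * Real.log d ≤ d := by
    have h1 := Z02_log hdp.le
    have h2 : Real.sqrt d * Real.sqrt d = d := Real.mul_self_sqrt (by linarith)
    nlinarith
  obtain ⟨y, hy⟩ : ∃ y : ℝ, y = (d : ℝ) / (20000 * Real.log d) := ⟨_, rfl⟩
  have hy2 : 2 ≤ y := by
    rw [hy, le_div_iff₀ (by positivity)]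
    linarith
  have hyd : y * (20000 * Real.log d) = d := by
    rw [hy]
    field_simp
  obtain ⟨n, hn⟩ : ∃ n : ℕ, n = ⌊y⌋₊ := ⟨_, rfl⟩
  have hn1 : (n : ℝ) ≤ y := by
    rw [hn]
    exact Nat.floor_le (by linarith)
  have hn2 : y < n + 1 := by
    rw [hn]
    exact Nat.lt_floor_add_one y
  have hn3 : 2 ≤ n := by
    rw [hn]
    exact Nat.le_floor (by exact_mod_cast hy2)
  have hn3' : (2 : ℝ) ≤ n := by exact_mod_cast hn3
  have hadm : AdmC d (2 * n) := by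
    refine ⟨by omega, even_two_mul n, ?_⟩
    push_cast
    calc 2 * (n : ℝ) * (10000 * Real.log d) = n * (20000 * Real.log d) := by ring
      _ ≤ y * (20000 * Real.log d) := mul_le_mul_of_nonneg_right hn1 (by positivity)
      _ = d := hyd
  have hlro : LRO (2 * n) d := h d hd0 (2 * n) hadm
  have hbdd : BddAbove {q : ℕ | 2 ≤ q ∧ LRO q d} := by
    refine ⟨3 * d, ?_⟩
    rintro q ⟨-, hq⟩
    have h1 := (h' d hd1).1 q hq
    have h2 : (q : ℝ) < ((3 * d : ℕ) : ℝ) := by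
      push_cast
      linarith
    exact (Nat.cast_lt.1 h2).le
  have hle : 2 * n ≤ qc d := le_csSup hbdd ⟨by omega, hlro⟩
  have hle' : 2 * (n : ℝ) ≤ qc d := by exact_mod_cast hle
  rw [← hy]
  linarith

end Pool.Agent.COR
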